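import Pool.Agent.Lib.MP_f80667_ag.Gx.Ft

/-!
Explicit `1`-forms.

* `Om R N g h`: `g` forms, given on the parts `c_j ≠ 0` (`j < h`) as `∑ q_jlk dx_k / c_j`. `Om.map`: coefficientwise.
* `Om.v ω j l x t`: the value of the form `l` times `c_j (x)`. `Om.At ω x t b`: `b` are the values of the forms at the tangent vector
  `t` at `x`.
* `Spf f ω`: every global `1`-form is a combination of the forms. `Al f ψ ω`: every compatible system is one.
* `Rlf f ψ ω`: every relation between the values of the forms is a relation between the values of every function `T` (`Ft`).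
-/

set_option autoImplicit false

open MvPolynomial

namespace GX

/-- Forms, given on the parts `c_j ≠ 0`. -/
structure Om (R : Type) [CommRing R] (N g h : ℕ) where
  /-- the denominators -/
  c : Fin h → MvPolynomial (Fin N) R
  /-- the coefficients -/
  q : Fin h → Fin g → Fin N → MvPolynomial (Fin N) R

/-- Coefficientwise. -/
noncomputable def Om.map {R R' : Type} [CommRing R] [CommRing R'] {N g h : ℕ} (φ : R →+* R')
    (ω : Om R N g h) : Om R' N g h where
  c j := MvPolynomial.map φ (ω.c j)
  q j l k := MvPolynomial.map φ (ω.q j l k)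

variable {κ : Type} [Field κ] {N d m g h : ℕ} {ι : Type}

/-- The value of the form `l` times `c_j (x)`. -/
noncomputable def Om.v (ω : Om κ N g h) (j : Fin h) (l : Fin g) (x t : Fin N → κ) : κ :=
  ∑ k, eval x (ω.q j l k) * t k

/-- `b` are the values of the forms at `x`, `t`. -/
def Om.At (ω : Om κ N g h) (x t : Fin N → κ) (b : Fin g → κ) : Prop :=
  ∃ j, eval x (ω.c j) ≠ 0 ∧ ∀ l, eval x (ω.c j) * b l = ω.v j l x t

/-- Every global `1`-form is a combination of the forms. -/
def Spf (f : ι → MvPolynomial (Fin N) κ) (ω : Om κ N g h) : Prop :=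
  ∀ ℓ, Frm f ℓ → ∃ η : Fin g → κ, ∀ x t, Tg f x t → ∀ j,
    eval x (ω.c j) * ℓ x t = ∑ l, η l * ω.v j l x t

/-- Every compatible system is a combination of the forms. -/
def Al (f : ι → MvPolynomial (Fin N) κ) (ψ : Fin m → Prj κ N d) (ω : Om κ N g h) : Prop :=
  ∀ P : Pv κ m d, Sy f ψ P → ∃ η : Fin g → κ, ∀ i x t, Tg f x t →
    eval ((ψ i).uv x) (ψ i).D ≠ 0 → ∀ j,
      eval x (ω.c j) * (ψ i).ev (P i) x t = (ψ i).gy x * ∑ l, η l * ω.v j l x t

/-- Every relation between the values of the forms is a relation between the values of every function `T`. -/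
def Rlf (f : ι → MvPolynomial (Fin N) κ) (ψ : Fin m → Prj κ N d) (ω : Om κ N g h) : Prop :=
  ∀ (B : Type) [AddCommGroup B] (T : (Fin N → κ) → (Fin N → κ) → B), Ft f ψ T →
    ∀ (σ : Type) (S : Finset σ) (e : σ → ℤ) (x t : σ → Fin N → κ) (b : σ → Fin g → κ),
      (∀ s ∈ S, Tg f (x s) (t s) ∧ ω.At (x s) (t s) (b s)) → ∑ s ∈ S, e s • b s = 0 →
        ∑ s ∈ S, e s • T (x s) (t s) = 0

end GX
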