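import Pool.Agent.Lib.MP_f80667_ag.Gx.D
import Pool.Agent.Lib.MP_f80667_ag.Gm.GxC
import Pool.Agent.Lib.MP_f80667_ag.Cv.HdB

/-!
Coordinates of the points of a projective variety; the action of the Galois group. `Hm f`: the equations are homogeneous.
-/

open ZC BE PE CV IntermediateField

namespace GX

/-- The equations are homogeneous. -/
def Hm {F : Type} [Field F] {N : ℕ} {ι : Type} (f : ι → MvPolynomial (Fin N) F) : Prop :=
  ∀ i, ∃ e, (f i).IsHomogeneous e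

section co

variable {F : Type} [Field F] {N : ℕ} {ι : Type} {f : ι → MvPolynomial (Fin N) F} {E : Type} [Field E]
  [Algebra F E]

theorem co_ne {P : (Xf f).pt E} {x : Fin N → E} (h : Co P x) : x ≠ 0 := by
  obtain ⟨Q, -, rfl⟩ := h
  exact Q.ne

theorem co_zero {P : (Xf f).pt E} {x : Fin N → E} (h : Co P x) (i : ι) :
    MvPolynomial.aeval x (f i) = 0 := by
  obtain ⟨Q, -, rfl⟩ := h
  exact Q.eq i

theorem exists_co (P : (Xf f).pt E) : ∃ x, Co P x := by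
  induction P using Quotient.inductionOn with
  | h Q => exact ⟨Q.x, Q, rfl, rfl⟩

theorem co_mk {x : Fin N → E} (hx : x ≠ 0) (h0 : ∀ i, MvPolynomial.aeval x (f i) = 0) :
    ∃ P : (Xf f).pt E, Co P x := ⟨Quotient.mk _ ⟨x, hx, h0⟩, _, rfl, rfl⟩

theorem co_eq {P P' : (Xf f).pt E} {x : Fin N → E} (h : Co P x) (h' : Co P' x) : P = P' := by
  obtain ⟨Q, rfl, hQ⟩ := h
  obtain ⟨Q', rfl, hQ'⟩ := h'
  refine Quotient.sound ⟨1, one_ne_zero, ?_⟩
  rw [hQ', hQ]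
  exact funext fun i => (one_mul _).symm

theorem co_rel {P : (Xf f).pt E} {x x' : Fin N → E} (h : Co P x) (h' : Co P x') :
    ∃ c, c ≠ 0 ∧ ∀ i, x' i = c * x i := by
  obtain ⟨Q, rfl, rfl⟩ := h
  obtain ⟨Q', hQ, rfl⟩ := h'
  obtain ⟨c, hc, h1⟩ := Quotient.exact hQ
  exact ⟨c, hc, fun i => congrFun h1 i⟩

/-- Proof: `IsHomogeneous.eval₂` or `MvPolynomial.IsHomogeneous.aeval`; the class of the multiple. -/
theorem co_smul (hG : Hm f) {P : (Xf f).pt E} {x : Fin N → E} (h : Co P x) {c : E}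
    (hc : c ≠ 0) : Co P fun i => c * x i := by
  obtain ⟨Q, rfl, rfl⟩ := h
  have h1 : (fun i => c * Q.x i) ≠ 0 := by
    intro h0
    apply Q.ne
    funext i
    exact (mul_eq_zero.1 (congrFun h0 i)).resolve_left hc
  have h2 : ∀ i, MvPolynomial.aeval (fun i => c * Q.x i) (f i) = 0 := by
    intro i
    obtain ⟨e, he⟩ := hG i
    have h3 : (fun i => c * Q.x i) = c • Q.x := rfl
    rw [h3, ZCTr.aeval_smul he, Q.eq i, mul_zero]
  exact ⟨⟨fun i => c * Q.x i, h1, h2⟩, Quotient.sound ⟨c, hc, rfl⟩, rfl⟩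

/-- If one coordinate is equal to `1` for both, the coordinates are equal. -/
theorem co_one {P : (Xf f).pt E} {x x' : Fin N → E} (h : Co P x) (h' : Co P x') {i : Fin N}
    (hi : x i = 1) (hi' : x' i = 1) : x = x' := by
  obtain ⟨c, -, h1⟩ := co_rel h h'
  have h2 := h1 i
  rw [hi, hi', mul_one] at h2
  funext j
  rw [h1 j, ← h2, one_mul]

end co

section act

variable {F : Type} [Field F] {N : ℕ} {ι : Type} {f : ι → MvPolynomial (Fin N) F} {K Ω : Type} [Field K]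
  [Field Ω] [Algebra K Ω] [Algebra F K] [Algebra F Ω] [IsScalarTower F K Ω]

theorem co_act (γ : Ω ≃ₐ[K] Ω) {P : (Xf f).pt Ω} {x : Fin N → Ω} (h : Co P x) :
    Co ((Xf f).act γ P) fun i => γ (x i) := by
  obtain ⟨Q, rfl, rfl⟩ := h
  exact ⟨Q.mp (γ.restrictScalars F : Ω →ₐ[F] Ω), rfl, rfl⟩

theorem fp_co {M : IntermediateField K Ω} {P : (Xf f).pt Ω} {x : Fin N → Ω} (h : Co P x)
    (hx : ∀ i, x i ∈ M) : Fp (Xf f) M P := by
  intro γ hγ
  have h1 := co_act γ h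
  have h2 : (fun i => γ (x i)) = x := funext fun i =>
    (IntermediateField.mem_fixingSubgroup_iff M γ).1 hγ _ (hx i)
  rw [h2] at h1
  exact co_eq h1 h

variable [CharZero K] [IsAlgClosure K Ω]

/-- The coordinates are in `M` if one of them is equal to `1`. Proof: `co_act`, `co_one`, `mem_of_fix`. -/
theorem fp_mem {M : IntermediateField K Ω} {P : (Xf f).pt Ω} (hP : Fp (Xf f) M P)
    {x : Fin N → Ω} (h : Co P x) {i : Fin N} (hi : x i = 1) (j : Fin N) : x j ∈ M := by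
  refine mem_of_fix M fun γ hγ => ?_
  have h1 := co_act γ h
  rw [hP γ hγ] at h1
  exact congrFun (co_one h1 h (by rw [hi, map_one]) hi) j

/-- Proof: the field generated by coordinates. -/
theorem exists_fph (P : (Xf f).pt Ω) :
    ∃ M : IntermediateField K Ω, FiniteDimensional K M ∧ Fp (Xf f) M P := by
  obtain ⟨x, hx⟩ := exists_co P
  have halg : Algebra.IsAlgebraic K Ω := IsAlgClosure.isAlgebraic
  refine ⟨IntermediateField.adjoin K (Set.range x), ?_, fp_co hx fun i =>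
    IntermediateField.subset_adjoin K _ ⟨i, rfl⟩⟩
  exact IntermediateField.finiteDimensional_adjoin fun z _ => (halg.isAlgebraic z).isIntegral

end act

section nrh

variable {F : Type} [Field F] {N : ℕ} {ι : Type} {f : ι → MvPolynomial (Fin N) F} {K Ω : Type} [Field K]
  [Field Ω] [Algebra K Ω] [Algebra F K] [Algebra F Ω] [IsScalarTower F K Ω] {L : Ld K Ω}

/-- Normalized coordinates. Proof: `exists_co`, divide by a coordinate of the greatest norm (`Finset.exists_max_image`), `co_smul`. -/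
theorem exists_nco (hG : Hm f) (P : (Xf f).pt Ω) :
    ∃ (x : Fin N → Ω) (i : Fin N), Co P x ∧ x i = 1 ∧ ∀ j, L.nm (x j) ≤ 1 := by
  obtain ⟨x, hx⟩ := exists_co P
  obtain ⟨k, hk⟩ : ∃ k, x k ≠ 0 := by
    by_contra hcon
    push Not at hcon
    exact co_ne hx (funext hcon)
  obtain ⟨i, -, hi⟩ := Finset.exists_max_image Finset.univ (fun i => L.nm (x i))
    ⟨k, Finset.mem_univ k⟩
  have h1 : 0 < L.nm (x i) := lt_of_lt_of_le (L.pos hk) (hi k (Finset.mem_univ k))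
  have h2 : x i ≠ 0 := L.ne_zero h1
  refine ⟨fun j => (x i)⁻¹ * x j, i, co_smul hG hx (inv_ne_zero h2), inv_mul_cancel₀ h2,
    fun j => ?_⟩
  rw [L.mul, L.inv, inv_mul_eq_div, div_le_one h1]
  exact hi j (Finset.mem_univ j)

theorem nrh_symm {r : ℝ} {P P' : (Xf f).pt Ω} (h : Nrh f L r P P') : Nrh f L r P' P := by
  obtain ⟨x, x', h1, h2, h3, h4, h5, h6, h7⟩ := h
  exact ⟨x', x, h2, h1, h4, h3, h6, h5, fun i => by rw [L.sub_comm]; exact h7 i⟩

theorem nrh_mono {r r' : ℝ} (hr : r ≤ r') {P P' : (Xf f).pt Ω} (h : Nrh f L r P P') :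
    Nrh f L r' P P' := by
  obtain ⟨x, x', h1, h2, h3, h4, h5, h6, h7⟩ := h
  exact ⟨x, x', h1, h2, h3, h4, h5, h6, fun i => (h7 i).trans hr⟩

theorem nrh_act (γ : Ω ≃ₐ[K] Ω) {r : ℝ} {P P' : (Xf f).pt Ω} (h : Nrh f L r P P') :
    Nrh f L r ((Xf f).act γ P) ((Xf f).act γ P') := by
  obtain ⟨x, x', h1, h2, h3, h4, ⟨i, h5⟩, ⟨i', h6⟩, h7⟩ := h
  refine ⟨_, _, co_act γ h1, co_act γ h2, fun i => ?_, fun i => ?_, ⟨i, ?_⟩, ⟨i', ?_⟩, fun i => ?_⟩
  · rw [L.act]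
    exact h3 i
  · rw [L.act]
    exact h4 i
  · rw [L.act, h5]
  · rw [L.act, h6]
  · rw [← map_sub, L.act]
    exact h7 i

/-- Two systems of primitive integral coordinates differ by a unit. -/
theorem co_unit {P : (Xf f).pt Ω} {x x' : Fin N → Ω} (h : Co P x) (h' : Co P x')
    (hx : ∀ i, L.nm (x i) ≤ 1) (hx' : ∀ i, L.nm (x' i) ≤ 1) (h1 : ∃ i, L.nm (x i) = 1)
    (h1' : ∃ i, L.nm (x' i) = 1) : ∃ c, L.nm c = 1 ∧ ∀ i, x' i = c * x i := by
  obtain ⟨c, -, hc⟩ := co_rel h h'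
  obtain ⟨i, hi⟩ := h1
  obtain ⟨i', hi'⟩ := h1'
  refine ⟨c, le_antisymm ?_ ?_, hc⟩
  · have h2 := hx' i
    rwa [hc i, L.mul, hi, mul_one] at h2
  · rw [hc i', L.mul] at hi'
    rw [← hi']
    exact mul_le_of_le_one_right (L.nonneg c) (hx i')

/-- Proof: `co_unit` for the coordinates of `P'`; multiply the coordinates of `P` by `c` (`co_smul`). -/
theorem nrh_trans (hG : Hm f) {r : ℝ} {P P' P'' : (Xf f).pt Ω}
    (h : Nrh f L r P P') (h' : Nrh f L r P' P'') : Nrh f L r P P'' := by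
  obtain ⟨x, x', h1, h2, h3, h4, ⟨i, h5⟩, h6, h7⟩ := h
  obtain ⟨y, y', k1, k2, k3, k4, k5, k6, k7⟩ := h'
  obtain ⟨c, hc, hcx⟩ := co_unit h2 k1 h4 k3 h6 k5
  have hc0 : c ≠ 0 := L.ne_zero (by rw [hc]; exact zero_lt_one)
  refine ⟨fun j => c * x j, y', co_smul hG h1 hc0, k2, fun j => ?_, k4, ⟨i, ?_⟩, k6, fun j => ?_⟩
  · rw [L.mul, hc, one_mul]
    exact h3 j
  · rw [L.mul, hc, one_mul, h5]
  · have e1 : c * x j - y' j = c * (x j - x' j) + (y j - y' j) := by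
      rw [hcx j]
      ring
    rw [e1]
    refine (L.add _ _).trans (max_le ?_ (k7 j))
    rw [L.mul, hc, one_mul]
    exact h7 j

/-- Proof: `exists_nco`. -/
theorem nrh_refl (hG : Hm f) {r : ℝ} (hr : 0 ≤ r) (P : (Xf f).pt Ω) :
    Nrh f L r P P := by
  obtain ⟨x, i, h1, h2, h3⟩ := exists_nco (L := L) hG P
  have h4 : L.nm (x i) = 1 := by rw [h2, L.one]
  refine ⟨x, x, h1, h1, h3, h3, ⟨i, h4⟩, ⟨i, h4⟩, fun j => ?_⟩
  rw [sub_self, L.zero]
  exact hr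

end nrh

section nco

variable {F : Type} [Field F] {N : ℕ} {ι : Type} {f : ι → MvPolynomial (Fin N) F} {K Ω : Type}
  [Field K] [Field Ω] [Algebra K Ω] [Algebra F K] [Algebra F Ω] [IsScalarTower F K Ω] {L : Ld K Ω}

private theorem nrh_dv {r : ℝ} {x x' : Fin N → Ω} {i : Fin N} (hi : L.nm (x i) = 1)
    (hi' : L.nm (x' i) = 1) (hx' : ∀ j, L.nm (x' j) ≤ 1) (h : ∀ j, L.nm (x j - x' j) ≤ r)
    (j : Fin N) : L.nm ((x i)⁻¹ * x j - (x' i)⁻¹ * x' j) ≤ r := by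
  have h0 : x i ≠ 0 := L.ne_zero (by rw [hi]; exact zero_lt_one)
  have h0' : x' i ≠ 0 := L.ne_zero (by rw [hi']; exact zero_lt_one)
  have e : (x i)⁻¹ * x j - (x' i)⁻¹ * x' j =
      (x i)⁻¹ * (x' i)⁻¹ * ((x j - x' j) * x' i - x' j * (x i - x' i)) := by
    field_simp
    ring
  rw [e, L.mul, L.mul, L.inv, L.inv, hi, hi', inv_one, one_mul, one_mul]
  refine (L.sub _ _).trans (max_le ?_ ?_)
  · rw [L.mul, hi', mul_one]
    exact h j
  · rw [L.mul]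
    exact (mul_le_of_le_one_left (L.nonneg _) (hx' j)).trans (h i)

private theorem nrh_cl {r : ℝ} (hr : r < 1) {x x' : Ω} (hi : L.nm x = 1)
    (h : L.nm (x - x') ≤ r) : L.nm x' = 1 := by
  have h1 : L.nm (x' - x) < L.nm x := by
    rw [L.sub_comm, hi]
    exact h.trans_lt hr
  rw [L.eq_of_close h1, hi]

private theorem nrh_le {x : Fin N → Ω} {i : Fin N} (hi : L.nm (x i) = 1)
    (hx : ∀ j, L.nm (x j) ≤ 1) (j : Fin N) : L.nm ((x i)⁻¹ * x j) ≤ 1 := by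
  rw [L.mul, L.inv, hi, inv_one, one_mul]
  exact hx j

/-- Normalized coordinates of two congruent points. Proof: `x`, `x'` the coordinates of the definition, `nm (x i) = 1`, so
`nm (x' i) = 1`; divide by `x i` and `x' i` (`co_smul`); `x j / x i - x' j / x' i = ((x j - x' j) x' i - x' j (x i - x' i)) / (x i x' i)`. -/
theorem nrh_nco (hG : Hm f) {r : ℝ} (hr : r < 1) {P P' : (Xf f).pt Ω}
    (h : Nrh f L r P P') : ∃ (x x' : Fin N → Ω) (i : Fin N), Co P x ∧ Co P' x' ∧ x i = 1 ∧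
      x' i = 1 ∧ (∀ j, L.nm (x j) ≤ 1) ∧ (∀ j, L.nm (x' j) ≤ 1) ∧ ∀ j, L.nm (x j - x' j) ≤ r := by
  obtain ⟨x, x', h1, h2, h3, h4, ⟨i, h5⟩, -, h7⟩ := h
  have h6 : L.nm (x' i) = 1 := nrh_cl hr h5 (h7 i)
  have h0 : x i ≠ 0 := L.ne_zero (by rw [h5]; exact zero_lt_one)
  have h0' : x' i ≠ 0 := L.ne_zero (by rw [h6]; exact zero_lt_one)
  exact ⟨fun j => (x i)⁻¹ * x j, fun j => (x' i)⁻¹ * x' j, i, co_smul hG h1 (inv_ne_zero h0),
    co_smul hG h2 (inv_ne_zero h0'), inv_mul_cancel₀ h0, inv_mul_cancel₀ h0',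
    fun j => nrh_le h5 h3 j, fun j => nrh_le h6 h4 j, fun j => nrh_dv h5 h6 h4 h7 j⟩

/-- For given normalized coordinates. Proof: `nrh_nco`; both systems of coordinates are multiples of those by the units `x i` (`x`
the coordinates of `nrh_nco`), see `nrh_nco`. -/
theorem nrh_one (hG : Hm f) {r : ℝ} (hr : r < 1) {P P' : (Xf f).pt Ω}
    (h : Nrh f L r P P') {x x' : Fin N → Ω} (hx : Co P x) (hx' : Co P' x') {i : Fin N}
    (hi : x i = 1) (hi' : x' i = 1) (h1 : ∀ j, L.nm (x j) ≤ 1) (h1' : ∀ j, L.nm (x' j) ≤ 1)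
    (j : Fin N) : L.nm (x j - x' j) ≤ r := by
  obtain ⟨y, y', k1, k2, k3, k4, k5, -, k7⟩ := h
  obtain ⟨c, hc, hcy⟩ := co_unit k1 hx k3 h1 k5 ⟨i, by rw [hi, L.one]⟩
  have h5 : L.nm (y i) = 1 := by
    have h2 := congrArg L.nm (hcy i)
    rw [hi, L.one, L.mul, hc, one_mul] at h2
    exact h2.symm
  have h6 : L.nm (y' i) = 1 := nrh_cl hr h5 (k7 i)
  have h0 : y i ≠ 0 := L.ne_zero (by rw [h5]; exact zero_lt_one)
  have h0' : y' i ≠ 0 := L.ne_zero (by rw [h6]; exact zero_lt_one)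
  have e1 : x = fun j => (y i)⁻¹ * y j :=
    co_one hx (co_smul hG k1 (inv_ne_zero h0)) hi (inv_mul_cancel₀ h0)
  have e2 : x' = fun j => (y' i)⁻¹ * y' j :=
    co_one hx' (co_smul hG k2 (inv_ne_zero h0')) hi' (inv_mul_cancel₀ h0')
  rw [e1, e2]
  exact nrh_dv h5 h6 k4 k7 j

/-- Normalized coordinates of `P'` for given ones of `P`. Proof: as `nrh_one`: `nm (x' i) = 1` for primitive coordinates `x'` of `P'`. -/
theorem nrh_co' (hG : Hm f) {r : ℝ} (hr : r < 1) {P P' : (Xf f).pt Ω}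
    (h : Nrh f L r P P') {x : Fin N → Ω} (hx : Co P x) {i : Fin N} (hi : x i = 1)
    (h1 : ∀ j, L.nm (x j) ≤ 1) :
    ∃ x' : Fin N → Ω, Co P' x' ∧ x' i = 1 ∧ (∀ j, L.nm (x' j) ≤ 1) ∧
      ∀ j, L.nm (x j - x' j) ≤ r := by
  obtain ⟨y, y', k1, k2, k3, k4, k5, -, k7⟩ := h
  obtain ⟨c, hc, hcy⟩ := co_unit k1 hx k3 h1 k5 ⟨i, by rw [hi, L.one]⟩
  have h5 : L.nm (y i) = 1 := by
    have h2 := congrArg L.nm (hcy i)
    rw [hi, L.one, L.mul, hc, one_mul] at h2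
    exact h2.symm
  have h6 : L.nm (y' i) = 1 := nrh_cl hr h5 (k7 i)
  have h0 : y i ≠ 0 := L.ne_zero (by rw [h5]; exact zero_lt_one)
  have h0' : y' i ≠ 0 := L.ne_zero (by rw [h6]; exact zero_lt_one)
  have e1 : x = fun j => (y i)⁻¹ * y j :=
    co_one hx (co_smul hG k1 (inv_ne_zero h0)) hi (inv_mul_cancel₀ h0)
  refine ⟨fun j => (y' i)⁻¹ * y' j, co_smul hG k2 (inv_ne_zero h0'), inv_mul_cancel₀ h0',
    fun j => nrh_le h6 k4 j, fun j => ?_⟩
  rw [e1]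
  exact nrh_dv h5 h6 k4 k7 j

/-- Points with congruent integral coordinates, primitive for the first. -/
theorem nrh_mk {r : ℝ} (hr : r < 1) {P P' : (Xf f).pt Ω} {x x' : Fin N → Ω} (h : Co P x)
    (h' : Co P' x') (hx : ∀ i, L.nm (x i) ≤ 1) (hx' : ∀ i, L.nm (x' i) ≤ 1)
    (h1 : ∃ i, L.nm (x i) = 1) (hr' : ∀ i, L.nm (x i - x' i) ≤ r) : Nrh f L r P P' := by
  obtain ⟨i, hi⟩ := h1
  exact ⟨x, x', h, h', hx, hx', ⟨i, hi⟩, ⟨i, nrh_cl hr hi (hr' i)⟩, hr'⟩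

/-- Over an unramified field congruent points are congruent modulo `p`. Proof: `nrh_nco`, `fp_mem`, `Ld.ur_lt` for `i = 0`. -/
theorem nrh_up [CharZero K] [IsAlgClosure K Ω] [L.Unr] (hG : Hm f)
    {M : IntermediateField K Ω} (hM : Um L M) {r : ℝ} (hr : r < 1) {P P' : (Xf f).pt Ω}
    (h : Nrh f L r P P') (hP : Fp (Xf f) M P) (hP' : Fp (Xf f) M P') :
    Nrh f L (L.nm (L.p : Ω)) P P' := by
  obtain ⟨x, x', i, k1, k2, k3, k4, k5, k6, k7⟩ := nrh_nco hG hr h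
  obtain ⟨N', hN', hM'⟩ := hM
  refine ⟨x, x', k1, k2, k5, k6, ⟨i, by rw [k3, L.one]⟩, ⟨i, by rw [k4, L.one]⟩, fun j => ?_⟩
  have h1 : x j - x' j ∈ L.Ur ⊥ N' :=
    hM' (sub_mem (fp_mem hP k1 k3 j) (fp_mem hP' k2 k4 j))
  have h2 := PE.Ld.ur_lt hN' h1 (i := 0) (by rw [pow_zero]; exact (k7 j).trans_lt hr)
  rwa [zero_add, pow_one] at h2

end nco

end GX
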