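import Mathlib

/-!
Pure algebra for projective varieties which are covered by projections to hypersurfaces.

* `lf a`: the linear form with the coefficients `a`. `lv a x`: its value.
* `pe c w P`: the value of a polynomial `P` in `Y` whose coefficients are polynomials in the variables `0, .., d` at `(c, w)`.
* `Prj R N d`: the data `(u, y, G, D, A)` of a projection: linear forms `u_0, .., u_d`, `y` in `x_1, .., x_N`, polynomials `G`, `A_j` in
  `R[c_0, .., c_d][Y]` and `D` in `R[c_0, .., c_d]`.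
* `Prj.Ok ψ f`: on the variety `X`, `f = 0`, the equations `G (u (x), y (x)) = 0`, `A_j (u (x), y (x)) = D (u (x)) x_j` hold, `G` is monic in
  `Y`, and on the hypersurface `G = 0` the point `A / D` is in `X` with the coordinates `u = c`, `y = w`, where `D ≠ 0`; `D` is in the ideal of
  `G` and its derivative. So `x ↦ (u (x), y (x))` is an isomorphism from the part of `X` where `D (u (x)) ≠ 0` to the part of `G = 0` where
  `D ≠ 0`, and `u` is étale there.
* `Cov f ψ`: the parts `D_i (u_i (x)) ≠ 0` cover `X`.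
* `Zp f x`: `x ≠ 0` are coordinates of a point of `X`, `Tg f x t`: `t` is a tangent vector (of the cone over `X`).
* `pt ψ c w`: the point `A / D`; `lt ψ c w ξ`: the tangent vector with `u (t) = ξ`.
* `Frm f ℓ`: `ℓ` is a global `1`-form on `X`. `NoFrm f`: there is none except `0`.
* `Sy f ψ P`: `P` is a compatible system of polynomials (the coordinates of a `1`-form in the charts). `Nf f ψ`: there is none except `0`.
-/

open MvPolynomial

namespace GX

section ring

variable {R : Type} [CommRing R] {N d m : ℕ} {ι : Type}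

/-- A linear form. -/
noncomputable def lf (a : Fin N → R) : MvPolynomial (Fin N) R := ∑ j, C (a j) * X j

/-- The value of a linear form. -/
def lv {S : Type} [CommRing S] [Algebra R S] (a : Fin N → R) (x : Fin N → S) : S :=
  ∑ j, algebraMap R S (a j) * x j

/-- The value at `(c, w)`. -/
noncomputable def pe {S : Type} [CommRing S] [Algebra R S] (c : Fin (d + 1) → S) (w : S) :
    Polynomial (MvPolynomial (Fin (d + 1)) R) →+* S :=
  Polynomial.eval₂RingHom (aeval c : MvPolynomial (Fin (d + 1)) R →ₐ[R] S).toRingHom w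

/-- The data of a projection. -/
structure Prj (R : Type) [CommRing R] (N d : ℕ) where
  /-- the linear forms which define the projection to the projective space of dimension `d` -/
  u : Fin (d + 1) → Fin N → R
  /-- the linear form which separates the points of the fibres -/
  y : Fin N → R
  /-- the norm of `Y - y` -/
  G : Polynomial (MvPolynomial (Fin (d + 1)) R)
  /-- the denominator -/
  D : MvPolynomial (Fin (d + 1)) R
  /-- the inverse map -/
  A : Fin N → Polynomial (MvPolynomial (Fin (d + 1)) R)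

/-- The values of the linear forms `u_r`. -/
def Prj.uv {S : Type} [CommRing S] [Algebra R S] (ψ : Prj R N d) (x : Fin N → S) :
    Fin (d + 1) → S := fun r => lv (ψ.u r) x

/-- The value of the linear form `y`. -/
def Prj.yv {S : Type} [CommRing S] [Algebra R S] (ψ : Prj R N d) (x : Fin N → S) : S :=
  lv ψ.y x

/-- The value of `P` at `(u (x), y (x))` as a polynomial in `x`. -/
noncomputable def Prj.cp (ψ : Prj R N d) (P : Polynomial (MvPolynomial (Fin (d + 1)) R)) :
    MvPolynomial (Fin N) R := pe (fun r => lf (ψ.u r)) (lf ψ.y) P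

/-- The projection of the variety `f = 0`. -/
structure Prj.Ok (ψ : Prj R N d) (f : ι → MvPolynomial (Fin N) R) : Prop where
  mon : ψ.G.Monic
  homG : ∀ j, (ψ.G.coeff j).IsHomogeneous (ψ.G.natDegree - j)
  homD : ∃ e, e ≠ 0 ∧ ψ.D.IsHomogeneous e
  bez : ∃ B B', B * ψ.G + B' * Polynomial.derivative ψ.G = Polynomial.C ψ.D
  onG : ∃ s, ∀ k, X k ^ s * ψ.cp ψ.G ∈ Ideal.span (Set.range f)
  onA : ∃ s, ∀ k j, X k ^ s * (ψ.cp (ψ.A j) - ψ.cp (Polynomial.C ψ.D) * X j) ∈
    Ideal.span (Set.range f)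
  inX : ∃ s, ∀ i, ψ.G ∣ Polynomial.C (ψ.D ^ s) * aeval ψ.A (f i)
  inu : ∀ r, ψ.G ∣ ∑ j, Polynomial.C (C (ψ.u r j)) * ψ.A j - Polynomial.C (ψ.D * X r)
  iny : ψ.G ∣ ∑ j, Polynomial.C (C (ψ.y j)) * ψ.A j - Polynomial.C ψ.D * Polynomial.X

/-- The projections cover the variety. -/
def Cov (f : ι → MvPolynomial (Fin N) R) (ψ : Fin m → Prj R N d) : Prop :=
  ∃ s, ∀ k, X k ^ s ∈ Ideal.span (Set.range f) ⊔
    Ideal.span (Set.range fun i => (ψ i).cp (Polynomial.C (ψ i).D))

/-- Coefficientwise. -/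
noncomputable def Prj.map {R' : Type} [CommRing R'] (φ : R →+* R') (ψ : Prj R N d) :
    Prj R' N d where
  u r j := φ (ψ.u r j)
  y j := φ (ψ.y j)
  G := ψ.G.map (MvPolynomial.map φ)
  D := MvPolynomial.map φ ψ.D
  A j := (ψ.A j).map (MvPolynomial.map φ)

/-- The polynomials `β_j (c, Y)` with `G (c, Z) - G (c, Y) = (Z - Y) ∑ β_j (c, Y) Z ^ j`. -/
noncomputable def Prj.bt (ψ : Prj R N d) (j : ℕ) : Polynomial (MvPolynomial (Fin (d + 1)) R) :=
  ∑ k ∈ Finset.range (ψ.G.natDegree - j), Polynomial.C (ψ.G.coeff (j + 1 + k)) * Polynomial.X ^ k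

/-- Partial derivative with respect to the variable `r`. -/
noncomputable def dr (r : Fin (d + 1)) (P : Polynomial (MvPolynomial (Fin (d + 1)) R)) :
    Polynomial (MvPolynomial (Fin (d + 1)) R) :=
  P.sum fun j a => Polynomial.C (pderiv r a) * Polynomial.X ^ j

/-- `D ^ 2 G_Y` times the coordinate `j` of the tangent vector over the basis vector `r`. -/
noncomputable def Prj.tp (ψ : Prj R N d) (r : Fin (d + 1)) (j : Fin N) :
    Polynomial (MvPolynomial (Fin (d + 1)) R) :=
  Polynomial.C ψ.D * (dr r (ψ.A j) * Polynomial.derivative ψ.G -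
    Polynomial.derivative (ψ.A j) * dr r ψ.G) -
      ψ.A j * Polynomial.C (pderiv r ψ.D) * Polynomial.derivative ψ.G

end ring

section field

variable {κ : Type} [Field κ] {N d m : ℕ} {ι : Type}

/-- Coordinates of a point of the variety. -/
def Zp (f : ι → MvPolynomial (Fin N) κ) (x : Fin N → κ) : Prop :=
  x ≠ 0 ∧ ∀ i, eval x (f i) = 0

/-- `t` is a tangent vector at `x`. -/
def Tg (f : ι → MvPolynomial (Fin N) κ) (x t : Fin N → κ) : Prop :=
  Zp f x ∧ ∀ i, ∑ j, eval x (pderiv j (f i)) * t j = 0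

/-- The point `A / D`. -/
noncomputable def Prj.pt (ψ : Prj κ N d) (c : Fin (d + 1) → κ) (w : κ) : Fin N → κ :=
  fun j => pe c w (ψ.A j) / eval c ψ.D

/-- The tangent vector with `u (t) = ξ`. -/
noncomputable def Prj.lt (ψ : Prj κ N d) (c : Fin (d + 1) → κ) (w : κ) (ξ : Fin (d + 1) → κ) :
    Fin N → κ :=
  fun j => (∑ r, ξ r * pe c w (ψ.tp r j)) /
    (eval c ψ.D ^ 2 * pe c w (Polynomial.derivative ψ.G))

/-- The polynomial `G (c, Y)`. -/
noncomputable def Prj.gc (ψ : Prj κ N d) (c : Fin (d + 1) → κ) : Polynomial κ :=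
  ψ.G.map (MvPolynomial.eval c)

/-- `ℓ` is a global `1`-form. -/
structure Frm (f : ι → MvPolynomial (Fin N) κ) (ℓ : (Fin N → κ) → (Fin N → κ) → κ) :
    Prop where
  hom : ∀ x t (c : κ), c ≠ 0 → Tg f x t → ℓ (c • x) (c • t) = ℓ x t
  rad : ∀ x (c : κ), Zp f x → ℓ x (c • x) = 0
  reg : ∀ y, Zp f y → ∃ (Q : MvPolynomial (Fin N) κ) (A : Fin N → MvPolynomial (Fin N) κ),
    eval y Q ≠ 0 ∧ ∀ x t, Tg f x t → eval x Q ≠ 0 →
      eval x Q * ℓ x t = ∑ j, eval x (A j) * t j

/-- There are no global `1`-forms. -/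
def NoFrm (f : ι → MvPolynomial (Fin N) κ) : Prop :=
  ∀ ℓ, Frm f ℓ → ∀ x t, Tg f x t → ℓ x t = 0

/-- A vector of polynomials `P i j r` (used for `j < n_i`). -/
abbrev Pv (κ : Type) [Field κ] (m d : ℕ) : Type :=
  Fin m → ℕ → Fin (d + 1) → MvPolynomial (Fin (d + 1)) κ

/-- `G_Y (u (x), y (x))` times the value of the form. -/
noncomputable def Prj.ev (ψ : Prj κ N d) (P : ℕ → Fin (d + 1) → MvPolynomial (Fin (d + 1)) κ)
    (x t : Fin N → κ) : κ :=
  ∑ j ∈ Finset.range ψ.G.natDegree, pe (ψ.uv x) (ψ.yv x) (ψ.bt j) *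
    ∑ r, eval (ψ.uv x) (P j r) * ψ.uv t r

/-- `G_Y (u (x), y (x))`. -/
noncomputable def Prj.gy (ψ : Prj κ N d) (x : Fin N → κ) : κ :=
  pe (ψ.uv x) (ψ.yv x) (Polynomial.derivative ψ.G)

/-- `P` is a compatible system: homogeneous, the values on the overlaps agree, `0` on the radial vectors. -/
structure Sy (f : ι → MvPolynomial (Fin N) κ) (ψ : Fin m → Prj κ N d) (P : Pv κ m d) :
    Prop where
  hom : ∀ i j r, (P i j r).IsHomogeneous (j - 1)
  zero : ∀ i r, P i 0 r = 0
  big : ∀ i j r, (ψ i).G.natDegree ≤ j → P i j r = 0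
  triv : ∀ i j r, (ψ i).D = 0 → P i j r = 0
  rad : ∀ i x, Zp f x → eval ((ψ i).uv x) (ψ i).D ≠ 0 → (ψ i).ev (P i) x x = 0
  ovl : ∀ i i' x t, Tg f x t → eval ((ψ i).uv x) (ψ i).D ≠ 0 →
    eval ((ψ i').uv x) (ψ i').D ≠ 0 →
      (ψ i').gy x * (ψ i).ev (P i) x t = (ψ i).gy x * (ψ i').ev (P i') x t

/-- The only compatible system is `0`. -/
def Nf (f : ι → MvPolynomial (Fin N) κ) (ψ : Fin m → Prj κ N d) : Prop :=
  ∀ P : Pv κ m d, Sy f ψ P → ∀ i j r, P i j r = 0

end field

end GX
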