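import Pool.Agent.Lib.MP_f80667_ag.Cv.EtC
import Pool.Agent.Lib.MP_f80667_ag.Cv.Ex
import Pool.Agent.Lib.MP_f80667_ag.Cv.HdA
import Pool.Agent.Lib.MP_f80667_ag.Gm.GpD
import Pool.Agent.Lib.MP_f80667_ag.Gx.Al

/-!
Projective varieties over local fields: definitions.

* `Hp f L`: homogeneous coordinates of an `L`-point of the variety `f = 0`. `Xf f`: the variety (`Vr`).
* `Co P x`: `x` are coordinates of the point `P`.
* `Nrh L f r`: the points have primitive integral coordinates which are congruent modulo the numbers of norm `≤ r`.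
* `Iv L M x`: the coordinates `x` are in the integers of `M`. `Arc L M a`: a vector of polynomials over the integers of `M`. `I₂ L M A`: a
  polynomial in two variables over the integers of `M`.
* `Dl f L s M`: displacements of level `s` over `M`. `Zr f L z`: the reduction of the cycle is `0`.
* `Cht f L M ρ n g δ A`: a chart over the integers of `M`: the curve `g (z, Y) = 0` and the map `A` from the part `δ (z) ≠ 0` to the variety.
* `Pj f L ψ`: a projection over the integers of `K`. `Cvr f L ψ`: the projections cover the variety modulo the maximal ideal.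
-/

open ZC BE PE CV IntermediateField

namespace GX

section var

variable {F : Type} [Field F] {N : ℕ} {ι : Type}

/-- Homogeneous coordinates of a point of the variety `f = 0`. -/
structure Hp (f : ι → MvPolynomial (Fin N) F) (L : Type) [Field L] [Algebra F L] where
  /-- the coordinates -/
  x : Fin N → L
  ne : x ≠ 0
  eq : ∀ i, MvPolynomial.aeval x (f i) = 0

namespace Hp

variable {f : ι → MvPolynomial (Fin N) F} {L : Type} [Field L] [Algebra F L]

/-- Coordinates of the same point. -/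
def Rel (P Q : Hp f L) : Prop := ∃ c : L, c ≠ 0 ∧ Q.x = fun i => c * P.x i

theorem rel_refl (P : Hp f L) : P.Rel P :=
  ⟨1, one_ne_zero, funext fun i => (one_mul (P.x i)).symm⟩

theorem rel_symm {P Q : Hp f L} (h : P.Rel Q) : Q.Rel P := by
  obtain ⟨c, hc, h1⟩ := h
  refine ⟨c⁻¹, inv_ne_zero hc, funext fun i => ?_⟩
  rw [h1]
  exact (inv_mul_cancel_left₀ hc _).symm

theorem rel_trans {P Q R : Hp f L} (h : P.Rel Q) (h' : Q.Rel R) : P.Rel R := by
  obtain ⟨c, hc, h1⟩ := h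
  obtain ⟨c', hc', h1'⟩ := h'
  refine ⟨c' * c, mul_ne_zero hc' hc, funext fun i => ?_⟩
  rw [h1', h1]
  exact (mul_assoc _ _ _).symm

variable (f L) in
/-- The equality of points. -/
def sd : Setoid (Hp f L) where
  r := Rel
  iseqv := ⟨rel_refl, rel_symm, rel_trans⟩

/-- The map induced by a homomorphism. -/
def mp {M : Type} [Field M] [Algebra F M] (σ : L →ₐ[F] M) (P : Hp f L) : Hp f M where
  x i := σ (P.x i)
  ne := by
    intro h
    apply P.ne
    funext i
    exact (map_eq_zero σ).1 (congrFun h i)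
  eq i := by
    have h := congrArg σ (P.eq i)
    rw [map_zero, MvPolynomial.comp_aeval_apply] at h
    exact h

theorem mp_rel {M : Type} [Field M] [Algebra F M] (σ : L →ₐ[F] M) {P Q : Hp f L}
    (h : P.Rel Q) : (P.mp σ).Rel (Q.mp σ) := by
  obtain ⟨c, hc, h1⟩ := h
  refine ⟨σ c, (map_ne_zero σ).2 hc, funext fun i => ?_⟩
  change σ (Q.x i) = σ c * σ (P.x i)
  rw [h1, map_mul]

end Hp

/-- The variety `f = 0`. The reduction of a point at a place: all coordinates are integral and their residues are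
the coordinates of the value. -/
def Xf (f : ι → MvPolynomial (Fin N) F) : Vr F where
  pt L _ _ := Quotient (Hp.sd f L)
  map σ := Quotient.map (Hp.mp σ) fun _ _ h => Hp.mp_rel σ h
  red w x y := ∃ P Q, x = Quotient.mk _ P ∧ y = Quotient.mk _ Q ∧
    ∀ i, ∃ h : P.x i ∈ w.V, w.res ⟨P.x i, h⟩ = Q.x i

/-- `x` are coordinates of the point `P`. -/
def Co {f : ι → MvPolynomial (Fin N) F} {L : Type} [Field L] [Algebra F L] (P : (Xf f).pt L)
    (x : Fin N → L) : Prop := ∃ Q : Hp f L, P = Quotient.mk _ Q ∧ Q.x = x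

/-- Proof: by representatives. -/
theorem fct (f : ι → MvPolynomial (Fin N) F) : Fct (Xf f) where
  id L _ _ x := by
    induction x using Quotient.inductionOn with
    | h P => rfl
  comp L M N _ _ _ _ _ _ σ τ x := by
    induction x using Quotient.inductionOn with
    | h P => rfl
  gal K Ω _ _ _ _ _ _ M E _ _ _ _ _ γ w x y h := by
    obtain ⟨P, Q, rfl, rfl, h1⟩ := h
    refine ⟨P, Q.mp (γ.restrictScalars F : Ω →ₐ[F] Ω), rfl, rfl, fun i => ?_⟩
    obtain ⟨h2, h3⟩ := h1 i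
    refine ⟨h2, ?_⟩
    rw [temb_res]
    exact congrArg γ h3

instance (f : ι → MvPolynomial (Fin N) F) : Hf (Xf f) := ⟨fct f⟩

end var

section loc

variable {F : Type} [Field F] {N : ℕ} {ι : Type} (f : ι → MvPolynomial (Fin N) F) {K Ω : Type}
  [Field K] [Field Ω] [Algebra K Ω] [Algebra F K] [Algebra F Ω] [IsScalarTower F K Ω]
  (L : Ld K Ω)

/-- The points have primitive integral coordinates which are congruent modulo the numbers of norm `≤ r`. -/
def Nrh (r : ℝ) (P P' : (Xf f).pt Ω) : Prop :=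
  ∃ x x' : Fin N → Ω, Co P x ∧ Co P' x' ∧ (∀ i, L.nm (x i) ≤ 1) ∧ (∀ i, L.nm (x' i) ≤ 1) ∧
    (∃ i, L.nm (x i) = 1) ∧ (∃ i, L.nm (x' i) = 1) ∧ ∀ i, L.nm (x i - x' i) ≤ r

/-- The coordinates are in the integers of `M`. -/
def Iv {σ : Type} (M : IntermediateField K Ω) (x : σ → Ω) : Prop := ∀ i, x i ∈ M ∧ L.nm (x i) ≤ 1

/-- A vector of polynomials over the integers of `M`. -/
def Arc {σ : Type} (M : IntermediateField K Ω) (a : σ → Polynomial Ω) : Prop :=
  ∀ i j, (a i).coeff j ∈ M ∧ L.nm ((a i).coeff j) ≤ 1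

/-- A polynomial in two variables over the integers of `M`. -/
def I₂ (M : IntermediateField K Ω) (A : Polynomial (Polynomial Ω)) : Prop :=
  ∀ i j, (A.coeff i).coeff j ∈ M ∧ L.nm ((A.coeff i).coeff j) ≤ 1

/-- The displacements over `M` of level `s`: congruences modulo the numbers of norm `≤ nm p ^ s`. -/
noncomputable def Dl (s : ℕ) (M : IntermediateField K Ω) : AddSubgroup ((Xf f).pt Ω →₀ ℤ) :=
  Dsp L (Xf f) (Nrh f L (L.nm (L.p : Ω) ^ s)) M

open Classical in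
/-- The reduction of the cycle is `0`. -/
def Zr (z : (Xf f).pt Ω →₀ ℤ) : Prop :=
  ∀ y : (Xf f).pt Ω, ∑ x ∈ z.support.filter (fun x => ∃ r < 1, Nrh f L r x y), z x = 0

/-- A chart over the integers of `M`: the curve `g (z, Y) = 0`, the denominator `δ (z)` and the coordinates `A (z, Y)` of the
points of the variety. -/
structure Cht (M : IntermediateField K Ω) (ρ n : ℕ) (g : Polynomial (Polynomial Ω))
    (δ : Polynomial Ω) (A : Fin N → Polynomial (Polynomial Ω)) : Prop where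
  mc : GM.Mc ρ n g
  ig : I₂ L M g
  iδ : ∀ j, δ.coeff j ∈ M ∧ L.nm (δ.coeff j) ≤ 1
  iA : ∀ i, I₂ L M (A i)
  bez : ∃ B B' : Polynomial (Polynomial Ω), I₂ L M B ∧ I₂ L M B' ∧
    B * g + B' * Polynomial.derivative g = Polynomial.C δ
  inX : ∃ s, ∀ i, g ∣ Polynomial.C (δ ^ s) * MvPolynomial.aeval A (f i)
  prim : ∀ c w : Ω, L.nm c ≤ 1 → L.nm w ≤ 1 → GM.ev₂ (c, w) g = 0 → L.nm (δ.eval c) = 1 →
    ∃ j, L.nm (GM.ev₂ (c, w) (A j)) = 1

/-- A projection over the integers of `K`. -/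
structure Pj {d : ℕ} (ψ : Prj K N d) : Prop where
  iu : ∀ r j, L.nm (algebraMap K Ω (ψ.u r j)) ≤ 1
  iy : ∀ j, L.nm (algebraMap K Ω (ψ.y j)) ≤ 1
  iG : ∀ j e, L.nm (algebraMap K Ω ((ψ.G.coeff j).coeff e)) ≤ 1
  iD : ∀ e, L.nm (algebraMap K Ω (ψ.D.coeff e)) ≤ 1
  iA : ∀ i j e, L.nm (algebraMap K Ω (((ψ.A i).coeff j).coeff e)) ≤ 1
  hom : ∀ i, ∃ e, (f i).IsHomogeneous e
  mon : ψ.G.Monic
  homG : ∀ j, (ψ.G.coeff j).IsHomogeneous (ψ.G.natDegree - j)
  homD : ∃ e, e ≠ 0 ∧ ψ.D.IsHomogeneous e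
  bez : ∃ B B' : Polynomial (MvPolynomial (Fin (d + 1)) K),
    (∀ j e, L.nm (algebraMap K Ω ((B.coeff j).coeff e)) ≤ 1) ∧
    (∀ j e, L.nm (algebraMap K Ω ((B'.coeff j).coeff e)) ≤ 1) ∧
    B * ψ.G + B' * Polynomial.derivative ψ.G = Polynomial.C ψ.D
  onX : ∀ x : Fin N → Ω, x ≠ 0 → (∀ i, MvPolynomial.aeval x (f i) = 0) →
    pe (ψ.uv x) (ψ.yv x) ψ.G = 0 ∧
      ∀ j, pe (ψ.uv x) (ψ.yv x) (ψ.A j) = MvPolynomial.aeval (ψ.uv x) ψ.D * x j
  inX : ∃ s, ∀ i, ψ.G ∣ Polynomial.C (ψ.D ^ s) * MvPolynomial.aeval ψ.A (f i)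
  inu : ∀ (c : Fin (d + 1) → Ω) (w : Ω), pe c w ψ.G = 0 →
    ∀ r, ψ.uv (fun j => pe c w (ψ.A j)) r = MvPolynomial.aeval c ψ.D * c r
  iny : ∀ (c : Fin (d + 1) → Ω) (w : Ω), pe c w ψ.G = 0 →
    ψ.yv (fun j => pe c w (ψ.A j)) = MvPolynomial.aeval c ψ.D * w
  ok : (ψ.map (algebraMap K Ω)).Ok fun i => MvPolynomial.map (algebraMap F Ω) (f i)
  onR : ∀ x : Fin N → Ω, (∀ i, L.nm (x i) ≤ 1) → (∃ i, L.nm (x i) = 1) →
    (∀ i, L.nm (MvPolynomial.aeval x (f i)) < 1) →
      L.nm (pe (ψ.uv x) (ψ.yv x) ψ.G) < 1 ∧ ∀ j, L.nm (pe (ψ.uv x) (ψ.yv x) (ψ.A j) -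
        MvPolynomial.aeval (ψ.uv x) ψ.D * x j) < 1

/-- The projection over `Ω`. -/
noncomputable abbrev Prj.om {d : ℕ} (Ω : Type) [Field Ω] [Algebra K Ω] (ψ : Prj K N d) :
    Prj Ω N d := ψ.map (algebraMap K Ω)

/-- The projections cover the variety modulo the maximal ideal. -/
def Cvr {d m : ℕ} (ψ : Fin m → Prj K N d) : Prop :=
  ∀ x : Fin N → Ω, (∀ i, L.nm (x i) ≤ 1) → (∃ i, L.nm (x i) = 1) →
    (∀ i, L.nm (MvPolynomial.aeval x (f i)) < 1) →
      ∃ i, L.nm (MvPolynomial.aeval ((ψ i).uv x) (ψ i).D) = 1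

end loc

end GX
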