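import Pool.Agent.Lib.MP_f80667_ag.Gm.GpL
import Pool.Agent.Lib.MP_f80667_ag.Gx.D

/-!
The points of a projective variety over the function fields of a plane curve.
-/

open Polynomial ZC BE PE CV GM

namespace GX

section

variable {F : Type} [Field F] {N : ℕ} {ι : Type} {f : ι → MvPolynomial (Fin N) F} {k : Type}
  [Field k] [Algebra F k] {Ω : Type} [Field Ω] [Algebra k Ω] [Algebra F Ω]

/-- The point of the variety over the function field of the component `g₁` and its values. -/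
theorem gpt_f [IsAlgClosed Ω] {g g₁ B : k[X][X]} (hp : Prime g₁) (hd : g₁ ∣ g)
    {A : Fin N → k[X][X]} (hA : ∀ i, g ∣ B * MvPolynomial.aeval A (f i)) {Φ : Finset (Ω × Ω)}
    (hB : ∀ P ∈ Φ, evk P B ≠ 0) {pt : Ω × Ω → (Xf f).pt Ω}
    (hpt : ∀ P ∈ Φ, Co (pt P) fun i => evk P (A i)) (hex : ∃ P ∈ Φ, evk P g₁ = 0) :
    Gpt (Xf f) g₁ Φ pt := by
  intro E _ _ _ _ _ _ _
  obtain ⟨P₀, hP₀, hg₁⟩ := hex
  have h1 : ∀ i, g₁ ∣ MvPolynomial.aeval A (f i) := by
    intro i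
    refine (hp.dvd_or_dvd (hd.trans (hA i))).resolve_left fun h => ?_
    obtain ⟨b, rfl⟩ := h
    exact hB P₀ hP₀ (by rw [map_mul, hg₁, zero_mul])
  let ψ : k[X][X] →+* E := (algebraMap (AdjoinRoot g₁) E).comp (AdjoinRoot.mk g₁)
  have hψF : ∀ c : F, ψ (algebraMap F k[X][X] c) = algebraMap F E c := by
    intro c
    have h2 : algebraMap F k[X][X] c = C (C (algebraMap F k c)) := rfl
    have h3 : AdjoinRoot.mk g₁ (C (C (algebraMap F k c))) =
      algebraMap k (AdjoinRoot g₁) (algebraMap F k c) := rfl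
    rw [h2]
    change algebraMap (AdjoinRoot g₁) E (AdjoinRoot.mk g₁ (C (C (algebraMap F k c)))) = _
    rw [h3, ← IsScalarTower.algebraMap_apply k (AdjoinRoot g₁) E,
      ← IsScalarTower.algebraMap_apply F k E]
  have hψ0 : ∀ i, ψ (MvPolynomial.aeval A (f i)) = 0 := by
    intro i
    change algebraMap (AdjoinRoot g₁) E (AdjoinRoot.mk g₁ (MvPolynomial.aeval A (f i))) = 0
    rw [AdjoinRoot.mk_eq_zero.2 (h1 i), map_zero]
  let ψ' : k[X][X] →+* AlgebraicClosure E := (algebraMap E (AlgebraicClosure E)).comp ψ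
  have hne : (fun i => ψ' (A i)) ≠ 0 := by
    intro h
    obtain ⟨Q, -, hQ⟩ := hpt P₀ hP₀
    apply Q.ne
    rw [hQ]
    funext i
    have h2 : algebraMap E (AlgebraicClosure E) (ψ (A i)) = 0 := congrFun h i
    have h3 : algebraMap (AdjoinRoot g₁) E (AdjoinRoot.mk g₁ (A i)) = 0 :=
      (map_eq_zero _).1 h2
    have h4 : AdjoinRoot.mk g₁ (A i) = 0 :=
      IsFractionRing.injective (AdjoinRoot g₁) E (by rw [h3, map_zero])
    change evk P₀ (A i) = 0
    rw [← phi_mk hg₁, h4, map_zero]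
  let q : Hp f (AlgebraicClosure E) :=
    { x := fun i => ψ' (A i)
      ne := hne
      eq := fun i => by
        rw [gpk_eq ψ' (fun c => ?_)]
        · change algebraMap E (AlgebraicClosure E) (ψ _) = 0
          rw [hψ0, map_zero]
        · change algebraMap E (AlgebraicClosure E) (ψ _) = _
          rw [hψF, ← IsScalarTower.algebraMap_apply F E (AlgebraicClosure E)] }
  refine ⟨Quotient.mk _ q, ?_, ?_⟩
  · intro σ
    refine Quotient.sound ⟨1, one_ne_zero, funext fun i => ?_⟩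
    change ψ' (A i) = 1 * σ (ψ' (A i))
    rw [one_mul]
    exact (σ.commutes (ψ (A i))).symm
  · intro P hP w hw
    obtain ⟨W, h2, h3⟩ := exists_above w
    obtain ⟨Q, hQ, hQx⟩ := hpt P hP
    refine ⟨W, h2, h3, q, Q, rfl, hQ, fun i => ?_⟩
    obtain ⟨h4, h5⟩ := hw (A i)
    refine ⟨(h2 _).2 h4, ?_⟩
    rw [hQx]
    change W.res ⟨algebraMap E (AlgebraicClosure E) (ψ (A i)), _⟩ = evk P (A i)
    rw [← h5]
    exact h3 _ h4 _

/-- **PR** for the variety `f = 0`. -/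
theorem pr_f [CharZero k] [IsAlgClosure k Ω] {g x y B : k[X][X]} {A : Fin N → k[X][X]}
    (hA : ∀ i, g ∣ B * MvPolynomial.aeval A (f i)) {ρ n D : ℕ} (hg : Mc ρ n g)
    (hx : Ut ρ D x) (hy : Ut ρ D y) {Φ : Finset (Ω × Ω)}
    (hΦ : ∀ P ∈ Φ, evk P g = 0 ∧ evk P (dY g) ≠ 0 ∧ evk P B ≠ 0)
    (hall : ∀ P : Ω × Ω, evk P g = 0 → evk P x = 0 ∨ evk P y = 0 → P ∈ Φ)
    {pt : Ω × Ω → (Xf f).pt Ω} (hpt : ∀ P ∈ Φ, Co (pt P) fun i => evk P (A i)) :
    ∑ P ∈ Φ, Finsupp.single (pt P)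
      ((odp (up₂ (algebraMap k Ω) g) P (up₂ (algebraMap k Ω) x) : ℤ) -
        odp (up₂ (algebraMap k Ω) g) P (up₂ (algebraMap k Ω) y)) ∈ (Xf f).ratEq k Ω := by
  have : IsAlgClosed Ω := IsAlgClosure.isAlgClosed k
  exact pr_gen (Xf f) hg hx hy Φ (fun P hP => ⟨(hΦ P hP).1, (hΦ P hP).2.1⟩) hall pt
    fun g₁ _ hp hd hex => gpt_f hp hd hA (fun P hP => (hΦ P hP).2.2) hpt hex

end

section

variable {F : Type} [Field F] {N : ℕ} {ι : Type} {f : ι → MvPolynomial (Fin N) F} {K Ω : Type}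
  [Field K] [Field Ω] [Algebra K Ω] [Algebra F K] [Algebra F Ω] [IsScalarTower F K Ω]
  [IsAlgClosure K Ω] {M : IntermediateField K Ω}

/-- The hypothesis of `pr_m` for the variety `f = 0`. The points have the coordinates `A_i(P)`. -/
theorem gpm_f {g B : Polynomial (Polynomial Ω)} {A : Fin N → Polynomial (Polynomial Ω)}
    (mg : Rm M g) (hg : g.Monic) (mB : Rm M B) (mA : ∀ i, Rm M (A i))
    (hA : ∀ i, g ∣ B * MvPolynomial.aeval A (f i)) {Φ : Finset (Ω × Ω)}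
    (hB : ∀ P ∈ Φ, ev₂ P B ≠ 0) {pt : Ω × Ω → (Xf f).pt Ω}
    (hpt : ∀ P ∈ Φ, Co (pt P) fun i => ev₂ P (A i)) : Gpm (Xf f) M g Φ pt := by
  have : IsAlgClosed Ω := IsAlgClosure.isAlgClosed K
  obtain ⟨g', rfl⟩ := exists_up mg
  obtain ⟨B', rfl⟩ := exists_up mB
  choose A' hA' using fun i => exists_up (mA i)
  obtain rfl : (fun i => up₂ (algebraMap M Ω) (A' i)) = A := funext hA'
  have h0 : ∀ i, g' ∣ B' * MvPolynomial.aeval A' (f i) := by
    intro i
    have h1 := hA i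
    rw [gpk_eq (up₂ (algebraMap M Ω)) (fun c => up_alg c) A' (f i), ← map_mul] at h1
    exact dvd_up (Polynomial.monic_of_injective up_inj hg) h1
  intro g₁ h1 h2 h3 h4
  exact gpt_f h2 (dvd_up h1 h3) h0 hB hpt h4

/-- The hypothesis of `pr_m` for a chart. -/
theorem Cht.gpm {L : Ld K Ω} {ρ n : ℕ} {g : Polynomial (Polynomial Ω)} {δ : Polynomial Ω}
    {A : Fin N → Polynomial (Polynomial Ω)} (h : Cht f L M ρ n g δ A) {Φ : Finset (Ω × Ω)}
    (hΦ : ∀ P ∈ Φ, δ.eval P.1 ≠ 0) {pt : Ω × Ω → (Xf f).pt Ω}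
    (hpt : ∀ P ∈ Φ, Co (pt P) fun i => ev₂ P (A i)) : Gpm (Xf f) M g Φ pt := by
  obtain ⟨s, hs⟩ := h.inX
  have hm : ∀ s j, (δ ^ s).coeff j ∈ M := by
    intro s
    induction s with
    | zero =>
      intro j
      rw [pow_zero, coeff_one]
      split_ifs
      · exact M.one_mem
      · exact M.zero_mem
    | succ s ih =>
      intro j
      rw [pow_succ, coeff_mul]
      exact sum_mem fun q _ => M.mul_mem (ih _) (h.iδ _).1
  refine gpm_f (fun i j => (h.ig i j).1) h.mc.monic (B := C (δ ^ s)) (fun i j => ?_)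
    (fun i a b => (h.iA i a b).1) hs (fun P hP => ?_) hpt
  · rw [coeff_C]
    split_ifs
    · exact hm s j
    · rw [coeff_zero]
      exact M.zero_mem
  · change (eval P.1) (eval (C P.2) (C (δ ^ s))) ≠ 0
    rw [eval_C, eval_pow]
    exact pow_ne_zero _ (hΦ P hP)

end

end GX
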