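import Pool.Agent.Lib.MP_f80667_ag.Gx.Pe

/-! Change of the ring. -/

open MvPolynomial

namespace GX

section ring

variable {R R' : Type} [CommRing R] [CommRing R'] {N d m : ℕ} {ι : Type}
  {f : ι → MvPolynomial (Fin N) R} {ψ : Prj R N d} (φ : R →+* R')

theorem lf_map (a : Fin N → R) : lf (fun j => φ (a j)) = MvPolynomial.map φ (lf a) := by
  rw [lf, lf, map_sum]
  refine Finset.sum_congr rfl fun j _ => ?_
  rw [map_mul, MvPolynomial.map_C, MvPolynomial.map_X]

/-- Proof: induction on `P` (`Polynomial.induction_on`), for the coefficients `MvPolynomial.map_aeval` or induction. -/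
theorem cp_map (P : Polynomial (MvPolynomial (Fin (d + 1)) R)) :
    (ψ.map φ).cp (P.map (MvPolynomial.map φ)) = MvPolynomial.map φ (ψ.cp P) := by
  rw [Prj.cp, Prj.cp, pe, pe, Polynomial.coe_eval₂RingHom, Polynomial.coe_eval₂RingHom,
    Polynomial.eval₂_map, Polynomial.hom_eval₂]
  have h1 : lf (ψ.map φ).y = MvPolynomial.map φ (lf ψ.y) := lf_map φ ψ.y
  have h2 : (aeval (fun r => lf ((ψ.map φ).u r)) :
        MvPolynomial (Fin (d + 1)) R' →ₐ[R'] MvPolynomial (Fin N) R').toRingHom.comp
        (MvPolynomial.map φ) =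
      (MvPolynomial.map φ).comp (aeval (fun r => lf (ψ.u r)) :
        MvPolynomial (Fin (d + 1)) R →ₐ[R] MvPolynomial (Fin N) R).toRingHom := by
    apply MvPolynomial.ringHom_ext
    · intro a
      change aeval _ (MvPolynomial.map φ (C a)) = MvPolynomial.map φ (aeval _ (C a))
      rw [MvPolynomial.map_C, MvPolynomial.aeval_C, MvPolynomial.aeval_C,
        MvPolynomial.algebraMap_eq, MvPolynomial.algebraMap_eq, MvPolynomial.map_C]
    · intro r
      change aeval _ (MvPolynomial.map φ (X r)) = MvPolynomial.map φ (aeval _ (X r))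
      rw [MvPolynomial.map_X, MvPolynomial.aeval_X, MvPolynomial.aeval_X]
      exact lf_map φ (ψ.u r)
  rw [h1, h2]

/-- Membership in the ideal after the change of the ring. -/
private theorem cb_span {P : MvPolynomial (Fin N) R} (hP : P ∈ Ideal.span (Set.range f)) :
    MvPolynomial.map φ P ∈ Ideal.span (Set.range fun i => MvPolynomial.map φ (f i)) := by
  have h := Ideal.mem_map_of_mem (MvPolynomial.map φ) hP
  rw [Ideal.map_span, ← Set.range_comp] at h
  exact h

/-- The composition after the change of the ring. -/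
private theorem cb_aeval (A : Fin N → Polynomial (MvPolynomial (Fin (d + 1)) R))
    (F : MvPolynomial (Fin N) R) :
    (aeval A F).map (MvPolynomial.map φ) =
      aeval (fun j => (A j).map (MvPolynomial.map φ)) (MvPolynomial.map φ F) := by
  have h : (Polynomial.mapRingHom (MvPolynomial.map φ)).comp
        (aeval A : MvPolynomial (Fin N) R →ₐ[R]
          Polynomial (MvPolynomial (Fin (d + 1)) R)).toRingHom =
      (aeval (fun j => (A j).map (MvPolynomial.map φ)) : MvPolynomial (Fin N) R' →ₐ[R']
          Polynomial (MvPolynomial (Fin (d + 1)) R')).toRingHom.comp (MvPolynomial.map φ) := by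
    apply MvPolynomial.ringHom_ext
    · intro a
      change (aeval A (C a)).map (MvPolynomial.map φ) = aeval _ (MvPolynomial.map φ (C a))
      rw [MvPolynomial.map_C, MvPolynomial.aeval_C, MvPolynomial.aeval_C,
        Polynomial.algebraMap_apply, Polynomial.algebraMap_apply, Polynomial.map_C,
        MvPolynomial.algebraMap_eq, MvPolynomial.algebraMap_eq, MvPolynomial.map_C]
    · intro j
      change (aeval A (X j)).map (MvPolynomial.map φ) = aeval _ (MvPolynomial.map φ (X j))
      rw [MvPolynomial.map_X, MvPolynomial.aeval_X, MvPolynomial.aeval_X]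
  exact DFunLike.congr_fun h F

/-- Proof: apply the homomorphism to all identities (`Ideal.mem_map_of_mem`, `Ideal.map_span`; `Polynomial.map_dvd`, `map_aeval` for polynomials in the `A j`;
`Polynomial.Monic.natDegree_map`, `Polynomial.derivative_map`, `IsHomogeneous.map`). -/
theorem Prj.Ok.map [Nontrivial R'] (h : ψ.Ok f) :
    (ψ.map φ).Ok fun i => MvPolynomial.map φ (f i) where
  mon := h.mon.map _
  homG := by
    intro j
    have h1 : (ψ.map φ).G.natDegree = ψ.G.natDegree := h.mon.natDegree_map (MvPolynomial.map φ)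
    rw [h1]
    change (((ψ.G.map (MvPolynomial.map φ)).coeff j)).IsHomogeneous _
    rw [Polynomial.coeff_map]
    exact (h.homG j).map φ
  homD := by
    obtain ⟨e, he, h1⟩ := h.homD
    exact ⟨e, he, h1.map φ⟩
  bez := by
    obtain ⟨B, B', h1⟩ := h.bez
    refine ⟨B.map (MvPolynomial.map φ), B'.map (MvPolynomial.map φ), ?_⟩
    have h2 := congrArg (Polynomial.map (MvPolynomial.map φ)) h1
    rw [Polynomial.map_add, Polynomial.map_mul, Polynomial.map_mul, Polynomial.map_C,
      ← Polynomial.derivative_map] at h2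
    exact h2
  onG := by
    obtain ⟨s, h1⟩ := h.onG
    refine ⟨s, fun k => ?_⟩
    have h2 := cb_span φ (h1 k)
    rw [map_mul, map_pow, MvPolynomial.map_X, ← cp_map] at h2
    exact h2
  onA := by
    obtain ⟨s, h1⟩ := h.onA
    refine ⟨s, fun k j => ?_⟩
    have h2 := cb_span φ (h1 k j)
    rw [map_mul, map_pow, MvPolynomial.map_X, map_sub, map_mul, MvPolynomial.map_X, ← cp_map,
      ← cp_map, Polynomial.map_C] at h2
    exact h2
  inX := by
    obtain ⟨s, h1⟩ := h.inX
    refine ⟨s, fun i => ?_⟩
    have h2 := Polynomial.map_dvd (MvPolynomial.map φ) (h1 i)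
    rw [Polynomial.map_mul, Polynomial.map_C, map_pow, cb_aeval] at h2
    exact h2
  inu := by
    intro r
    have h2 := Polynomial.map_dvd (MvPolynomial.map φ) (h.inu r)
    rw [Polynomial.map_sub, Polynomial.map_sum, Polynomial.map_C, map_mul,
      MvPolynomial.map_X] at h2
    have h3 : ∀ j, Polynomial.map (MvPolynomial.map φ) (Polynomial.C (C (ψ.u r j)) * ψ.A j) =
        Polynomial.C (C (φ (ψ.u r j))) * (ψ.A j).map (MvPolynomial.map φ) := by
      intro j
      rw [Polynomial.map_mul, Polynomial.map_C, MvPolynomial.map_C]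
    rw [Finset.sum_congr rfl fun j _ => h3 j] at h2
    exact h2
  iny := by
    have h2 := Polynomial.map_dvd (MvPolynomial.map φ) h.iny
    rw [Polynomial.map_sub, Polynomial.map_sum, Polynomial.map_mul, Polynomial.map_C,
      Polynomial.map_X] at h2
    have h3 : ∀ j, Polynomial.map (MvPolynomial.map φ) (Polynomial.C (C (ψ.y j)) * ψ.A j) =
        Polynomial.C (C (φ (ψ.y j))) * (ψ.A j).map (MvPolynomial.map φ) := by
      intro j
      rw [Polynomial.map_mul, Polynomial.map_C, MvPolynomial.map_C]
    rw [Finset.sum_congr rfl fun j _ => h3 j] at h2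
    exact h2

/-- Proof: apply the homomorphism (`Ideal.mem_map_of_mem`, `Ideal.map_sup`, `Ideal.map_span`, `cp_map`). -/
theorem Cov.map {ψ : Fin m → Prj R N d} (h : Cov f ψ) :
    Cov (fun i => MvPolynomial.map φ (f i)) fun i => (ψ i).map φ := by
  obtain ⟨s, h1⟩ := h
  refine ⟨s, fun k => ?_⟩
  have h2 := Ideal.mem_map_of_mem (MvPolynomial.map φ) (h1 k)
  rw [Ideal.map_sup, Ideal.map_span, Ideal.map_span, ← Set.range_comp, ← Set.range_comp, map_pow,
    MvPolynomial.map_X] at h2
  have h3 : (⇑(MvPolynomial.map φ) ∘ fun i => (ψ i).cp (Polynomial.C (ψ i).D)) =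
      fun i => ((ψ i).map φ).cp (Polynomial.C ((ψ i).map φ).D) := by
    funext i
    change MvPolynomial.map φ ((ψ i).cp (Polynomial.C (ψ i).D)) = _
    rw [← cp_map, Polynomial.map_C]
    rfl
  rw [h3] at h2
  exact h2

/-- The composition. -/
theorem Prj.map_map {R'' : Type} [CommRing R''] (φ' : R' →+* R'') :
    (ψ.map φ).map φ' = ψ.map (φ'.comp φ) := by
  have h : (MvPolynomial.map φ').comp (MvPolynomial.map φ) =
      (MvPolynomial.map (φ'.comp φ) : MvPolynomial (Fin (d + 1)) R →+* _) := by
    refine RingHom.ext fun a => ?_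
    exact MvPolynomial.map_map φ φ' a
  have h1 : ∀ P : Polynomial (MvPolynomial (Fin (d + 1)) R),
      (P.map (MvPolynomial.map φ)).map (MvPolynomial.map φ') =
        P.map (MvPolynomial.map (φ'.comp φ)) := by
    intro P
    rw [Polynomial.map_map, h]
  unfold Prj.map
  congr 1
  · exact h1 _
  · exact MvPolynomial.map_map φ φ' _
  · funext j
    exact h1 _

end ring

end GX
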