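import Pool.Agent.Lib.MP_f80667_ag.Gx.Gc
import Pool.Agent.Lib.MP_f80667_ag.Gx.Cb

/-! Density: polynomials in the coordinates of the points and of the tangent vectors. -/

open MvPolynomial

namespace GX

variable {κ : Type} [Field κ] {N d m : ℕ}

/-- Proof: coefficientwise. -/
private theorem ee_dr {R R' : Type} [CommRing R] [CommRing R'] {d : ℕ} (φ : R →+* R')
    (r : Fin (d + 1)) (P : Polynomial (MvPolynomial (Fin (d + 1)) R)) :
    dr r (P.map (MvPolynomial.map φ)) = (dr r P).map (MvPolynomial.map φ) := by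
  have hc : ∀ {S : Type} [CommRing S] (Q : Polynomial (MvPolynomial (Fin (d + 1)) S)) (n : ℕ),
      (dr r Q).coeff n = pderiv r (Q.coeff n) := by
    intro S _ Q n
    rw [dr, Polynomial.sum_def, Polynomial.finset_sum_coeff]
    simp only [Polynomial.coeff_C_mul, Polynomial.coeff_X_pow, mul_ite, mul_one, mul_zero]
    rw [Finset.sum_ite_eq]
    split_ifs with h
    · rfl
    · rw [Polynomial.notMem_support_iff.1 h, map_zero]
  ext1 n
  rw [hc, Polynomial.coeff_map, Polynomial.coeff_map, hc, MvPolynomial.pderiv_map]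

/-- A polynomial which vanishes at the points of the hypersurface is a multiple of `G`. Proof: division with remainder by the monic polynomial `G` (`Polynomial.modByMonic_add_div`, `Polynomial.natDegree_modByMonic_lt`): the remainder `Q` has degree `< n`
(`G = 1` is possible: then nothing is to prove). For `c` with `D (c) ≠ 0` the polynomial `G (c, Y)` is separable (`hb`) and has `n` roots in `κ` (`hspl`), all different; they are roots of `Q (c, Y)`, so all coefficients of `Q (c, Y)` are `0`. So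
`D Q_j` vanishes at all `c`, `D Q_j = 0` (`MvPolynomial.funext`, `κ` is infinite), `Q_j = 0`. -/
theorem dens [Infinite κ] {G Φ : Polynomial (MvPolynomial (Fin (d + 1)) κ)}
    {D : MvPolynomial (Fin (d + 1)) κ} (hG : G.Monic) (hD : D ≠ 0)
    (hb : ∃ B B', B * G + B' * Polynomial.derivative G = Polynomial.C D)
    (hspl : ∀ g : Polynomial κ, g ≠ 0 → g.natDegree ≤ G.natDegree →
      Multiset.card g.roots = g.natDegree)
    (h : ∀ c w, eval c D ≠ 0 → pe c w G = 0 → pe c w Φ = 0) : G ∣ Φ := by
  rw [← Polynomial.modByMonic_eq_zero_iff_dvd hG]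
  by_cases hG1 : G = 1
  · rw [hG1, Polynomial.modByMonic_one]
  obtain ⟨B, B', hB⟩ := hb
  have key : ∀ c : Fin (d + 1) → κ, eval c D ≠ 0 →
      (Φ %ₘ G).map (MvPolynomial.eval c) = 0 := by
    intro c hc
    have hmon : (G.map (MvPolynomial.eval c)).Monic := hG.map _
    have hdeg : (G.map (MvPolynomial.eval c)).natDegree = G.natDegree := hG.natDegree_map _
    have hsep : (G.map (MvPolynomial.eval c)).Separable := by
      have h1 := congrArg (Polynomial.map (MvPolynomial.eval c)) hB
      rw [Polynomial.map_add, Polynomial.map_mul, Polynomial.map_mul, Polynomial.map_C,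
        ← Polynomial.derivative_map] at h1
      refine ⟨Polynomial.C (eval c D)⁻¹ * B.map (MvPolynomial.eval c),
        Polynomial.C (eval c D)⁻¹ * B'.map (MvPolynomial.eval c), ?_⟩
      rw [mul_assoc, mul_assoc, ← mul_add, h1, ← Polynomial.C_mul, inv_mul_cancel₀ hc,
        Polynomial.C_1]
    have hcard : Multiset.card (G.map (MvPolynomial.eval c)).roots = G.natDegree := by
      rw [hspl _ hmon.ne_zero hdeg.le, hdeg]
    have hnd := Polynomial.nodup_roots hsep
    classical
    refine Polynomial.eq_zero_of_natDegree_lt_card_of_eval_eq_zero' _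
      (G.map (MvPolynomial.eval c)).roots.toFinset ?_ ?_
    · intro w hw
      rw [Multiset.mem_toFinset, Polynomial.mem_roots hmon.ne_zero, Polynomial.IsRoot.def,
        gc_pe] at hw
      have h1 := h c w hc hw
      rw [gc_pe]
      have h2 := congrArg (pe c w) (Polynomial.modByMonic_add_div Φ G)
      rw [map_add, map_mul, hw, zero_mul, add_zero, h1] at h2
      exact h2
    · rw [Multiset.toFinset_card_of_nodup hnd, hcard]
      exact lt_of_le_of_lt (Polynomial.natDegree_map_le)
        (Polynomial.natDegree_modByMonic_lt Φ hG hG1)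
  ext1 j
  rw [Polynomial.coeff_zero]
  have h3 : D * (Φ %ₘ G).coeff j = 0 := by
    apply MvPolynomial.funext
    intro c
    rw [map_mul, map_zero]
    by_cases hc : eval c D = 0
    · rw [hc, zero_mul]
    · have h4 := congrArg (fun q => Polynomial.coeff q j) (key c hc)
      simp only [Polynomial.coeff_map, Polynomial.coeff_zero] at h4
      rw [h4, mul_zero]
  exact (mul_eq_zero.1 h3).resolve_left hD

/-- Polynomials in the coordinates of the point and of the tangent vector over `e_r` are, up to powers of `D ^ 2 G_Y`, polynomials in `(c, w)`. Proof: induction on `E`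
(`MvPolynomial.induction_on`): constants: `e = 0`; sums: `e = e₁ + e₂`, `Φ = (C D ^ 2 * G_Y) ^ e₂ * Φ₁ + ..`; products with a variable: for the coordinate `j` of the point `e + 1` and `Φ * (A j * C D * G_Y)`, for the coordinate `j` of the
vector `e + 1` and `Φ * tp r j`. -/
theorem exists_pb (ψ : Prj κ N d) (r : Fin (d + 1)) (E : MvPolynomial (Fin N ⊕ Fin N) κ) :
    ∃ (e : ℕ) (Φ : Polynomial (MvPolynomial (Fin (d + 1)) κ)),
      ∀ (κ' : Type) [Field κ'] [Algebra κ κ'] (c : Fin (d + 1) → κ') (w : κ'),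
        aeval c ψ.D ≠ 0 → pe c w (Polynomial.derivative ψ.G) ≠ 0 →
        pe c w Φ = (aeval c ψ.D ^ 2 * pe c w (Polynomial.derivative ψ.G)) ^ e *
          aeval (Sum.elim (fun j => pe c w (ψ.A j) / aeval c ψ.D) fun j =>
            pe c w (ψ.tp r j) / (aeval c ψ.D ^ 2 *
              pe c w (Polynomial.derivative ψ.G)) : Fin N ⊕ Fin N → κ') E := by
  have hS : ∀ (κ' : Type) [Field κ'] [Algebra κ κ'] (c : Fin (d + 1) → κ') (w : κ'),
      pe c w (Polynomial.C ψ.D ^ 2 * Polynomial.derivative ψ.G) =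
        aeval c ψ.D ^ 2 * pe c w (Polynomial.derivative ψ.G) := by
    intro κ' _ _ c w
    rw [map_mul, map_pow, pe_C]
  induction E using MvPolynomial.induction_on with
  | C a =>
    refine ⟨0, Polynomial.C (C a), fun κ' _ _ c w _ _ => ?_⟩
    rw [pow_zero, one_mul, pe_C, aeval_C, aeval_C]
  | add p q hp hq =>
    obtain ⟨e₁, Φ₁, h₁⟩ := hp
    obtain ⟨e₂, Φ₂, h₂⟩ := hq
    refine ⟨e₁ + e₂, (Polynomial.C ψ.D ^ 2 * Polynomial.derivative ψ.G) ^ e₂ * Φ₁ +
      (Polynomial.C ψ.D ^ 2 * Polynomial.derivative ψ.G) ^ e₁ * Φ₂,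
      fun κ' _ _ c w hc hg => ?_⟩
    rw [map_add (pe c w), map_mul (pe c w), map_mul (pe c w), map_pow (pe c w),
      map_pow (pe c w), hS, h₁ κ' c w hc hg, h₂ κ' c w hc hg, map_add (aeval _)]
    ring
  | mul_X p i hp =>
    obtain ⟨e, Φ, h⟩ := hp
    rcases i with j | j
    · refine ⟨e + 1, Φ * (ψ.A j * Polynomial.C ψ.D * Polynomial.derivative ψ.G),
        fun κ' _ _ c w hc hg => ?_⟩
      rw [map_mul (pe c w), map_mul (pe c w), map_mul (pe c w), pe_C, h κ' c w hc hg,
        map_mul (aeval _), aeval_X, Sum.elim_inl]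
      field_simp
      ring
    · refine ⟨e + 1, Φ * ψ.tp r j, fun κ' _ _ c w hc hg => ?_⟩
      rw [map_mul (pe c w), h κ' c w hc hg, map_mul (aeval _), aeval_X, Sum.elim_inr]
      field_simp
      ring

/-- `ev` as a polynomial in the coordinates of the point and of the tangent vector. -/
noncomputable def Prj.evq (ψ : Prj κ N d)
    (P : ℕ → Fin (d + 1) → MvPolynomial (Fin (d + 1)) κ) : MvPolynomial (Fin N ⊕ Fin N) κ :=
  ∑ j ∈ Finset.range ψ.G.natDegree, rename Sum.inl (ψ.cp (ψ.bt j)) *
    ∑ r, rename Sum.inl (ψ.cp (Polynomial.C (P j r))) * rename Sum.inr (lf (ψ.u r))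

section up

variable {κ' : Type} [Field κ'] [Algebra κ κ']

theorem eval_map' {σ : Type} (c : σ → κ') (P : MvPolynomial σ κ) :
    eval c (MvPolynomial.map (algebraMap κ κ') P) = aeval c P := by
  rw [MvPolynomial.eval_map, MvPolynomial.aeval_def]

/-- Proof: `pe_map`, `eval_map'`. -/
theorem pt_map (ψ : Prj κ N d) (c : Fin (d + 1) → κ') (w : κ') (j : Fin N) :
    (ψ.map (algebraMap κ κ')).pt c w j = pe c w (ψ.A j) / aeval c ψ.D := by
  change pe c w ((ψ.A j).map (MvPolynomial.map (algebraMap κ κ'))) /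
    eval c (MvPolynomial.map (algebraMap κ κ') ψ.D) = _
  rw [pe_map, eval_map']

private theorem ee_tp (ψ : Prj κ N d) (r : Fin (d + 1)) (j : Fin N) :
    (ψ.map (algebraMap κ κ')).tp r j =
      (ψ.tp r j).map (MvPolynomial.map (algebraMap κ κ')) := by
  have hA : (ψ.map (algebraMap κ κ')).A j =
    (ψ.A j).map (MvPolynomial.map (algebraMap κ κ')) := rfl
  have hG : (ψ.map (algebraMap κ κ')).G =
    ψ.G.map (MvPolynomial.map (algebraMap κ κ')) := rfl
  have hD : (ψ.map (algebraMap κ κ')).D = MvPolynomial.map (algebraMap κ κ') ψ.D := rfl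
  rw [Prj.tp, Prj.tp, hA, hG, hD, ee_dr, ee_dr, MvPolynomial.pderiv_map]
  simp only [Polynomial.map_sub, Polynomial.map_mul, Polynomial.map_C,
    Polynomial.derivative_map]

/-- Proof: `tp` and `dr` commute with `map` (`pderiv_map`, `Polynomial.derivative_map`), `pe_map`. -/
theorem lt_map (ψ : Prj κ N d) (c : Fin (d + 1) → κ') (w : κ') (r : Fin (d + 1)) (j : Fin N) :
    (ψ.map (algebraMap κ κ')).lt c w (Pi.single r 1) j = pe c w (ψ.tp r j) /
      (aeval c ψ.D ^ 2 * pe c w (Polynomial.derivative ψ.G)) := by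
  have hG : (ψ.map (algebraMap κ κ')).G =
    ψ.G.map (MvPolynomial.map (algebraMap κ κ')) := rfl
  have hD : (ψ.map (algebraMap κ κ')).D = MvPolynomial.map (algebraMap κ κ') ψ.D := rfl
  have h1 : ∑ s, (Pi.single r 1 : Fin (d + 1) → κ') s *
      pe c w ((ψ.map (algebraMap κ κ')).tp s j) = pe c w (ψ.tp r j) := by
    rw [Finset.sum_eq_single r]
    · rw [Pi.single_eq_same, one_mul, ee_tp, pe_map]
    · intro s _ hs
      rw [Pi.single_eq_of_ne hs, zero_mul]
    · intro hr
      exact absurd (Finset.mem_univ r) hr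
  rw [Prj.lt, h1, hG, hD, Polynomial.derivative_map, pe_map, eval_map']

/-- Proof: `Polynomial.natDegree_map_eq_of_injective`, `pe_map`. -/
theorem gy_map (ψ : Prj κ N d) (x : Fin N → κ') : (ψ.map (algebraMap κ κ')).gy x =
    aeval x (ψ.cp (Polynomial.derivative ψ.G)) := by
  have hG : (ψ.map (algebraMap κ κ')).G =
    ψ.G.map (MvPolynomial.map (algebraMap κ κ')) := rfl
  rw [Prj.gy, uv_map, yv_map, hG, Polynomial.derivative_map, pe_map, cp_aeval]

private theorem ee_deg (ψ : Prj κ N d) :
    (ψ.map (algebraMap κ κ')).G.natDegree = ψ.G.natDegree :=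
  Polynomial.natDegree_map_eq_of_injective
    (MvPolynomial.map_injective _ (algebraMap κ κ').injective) ψ.G

private theorem ee_bt (ψ : Prj κ N d) (j : ℕ) :
    (ψ.map (algebraMap κ κ')).bt j =
      (ψ.bt j).map (MvPolynomial.map (algebraMap κ κ')) := by
  have hG : (ψ.map (algebraMap κ κ')).G =
    ψ.G.map (MvPolynomial.map (algebraMap κ κ')) := rfl
  rw [Prj.bt, Prj.bt, ee_deg, Polynomial.map_sum]
  refine Finset.sum_congr rfl fun k _ => ?_
  rw [hG, Polynomial.coeff_map, Polynomial.map_mul, Polynomial.map_C, Polynomial.map_pow,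
    Polynomial.map_X]

/-- Proof: `cp_aeval`, `lf_aeval`, `aeval_rename`; `bt` commutes with `map` (the degree of `G` does not change). -/
theorem evq_aeval (ψ : Prj κ N d) (P : ℕ → Fin (d + 1) → MvPolynomial (Fin (d + 1)) κ)
    (x t : Fin N → κ') : aeval (Sum.elim x t : Fin N ⊕ Fin N → κ') (ψ.evq P) =
      (ψ.map (algebraMap κ κ')).ev (fun j r => MvPolynomial.map (algebraMap κ κ') (P j r)) x t := by
  have hl : ∀ q : MvPolynomial (Fin N) κ,
      aeval (Sum.elim x t : Fin N ⊕ Fin N → κ') (rename Sum.inl q) = aeval x q := by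
    intro q
    rw [aeval_rename, Sum.elim_comp_inl]
  have hr : ∀ q : MvPolynomial (Fin N) κ,
      aeval (Sum.elim x t : Fin N ⊕ Fin N → κ') (rename Sum.inr q) = aeval t q := by
    intro q
    rw [aeval_rename, Sum.elim_comp_inr]
  rw [Prj.evq, Prj.ev, ee_deg, map_sum]
  refine Finset.sum_congr rfl fun j _ => ?_
  rw [map_mul, hl, cp_aeval, uv_map, yv_map, ee_bt, pe_map, map_sum]
  congr 1
  refine Finset.sum_congr rfl fun r _ => ?_
  rw [map_mul, hl, hr, cp_aeval, pe_C, lf_aeval, eval_map', uv_map]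
  rfl

end up

end GX
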