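import Pool.Agent.Lib.MP_f80667_ag.Gx.ChC
import Pool.Agent.Lib.MP_f80667_ag.Gx.Ee

/-! Near points of a chart. -/

open ZC BE PE CV IntermediateField

namespace GX

variable {F : Type} [Field F] {N d : ℕ} {ι : Type} {f : ι → MvPolynomial (Fin N) F} {K Ω : Type}
  [Field K] [Field Ω] [Algebra K Ω] [Algebra F K] [Algebra F Ω] [IsScalarTower F K Ω]
  {L : Ld K Ω} {ψ : Prj K N d}

/-- A point with an integral denominator is not `0`. -/
private theorem chd_ne (h : Pj f L ψ) {x : Fin N → Ω} (hx : ∀ j, L.nm (x j) ≤ 1)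
    (hD : L.nm (MvPolynomial.aeval (ψ.uv x) ψ.D) = 1) : x ≠ 0 := by
  rintro rfl
  obtain ⟨r, hr⟩ := h.prim (h.uv_le hx).1 hD
  have h1 : ψ.uv (0 : Fin N → Ω) r = 0 := by
    change lv (ψ.u r) 0 = 0
    rw [lv]
    exact Finset.sum_eq_zero fun j _ => by rw [Pi.zero_apply, mul_zero]
  rw [h1, L.zero] at hr
  exact zero_ne_one hr

/-- Points near to each other are as near as their coordinates `u`. Proof: `c = u (x)`, `c' = u (x')`, `w = y (x)`, `w' = y (x')`: `D (c')` is a unit (`D_close`, `lv_lt`); `G (c, w) = 0 = G (c', w')` (`pt_eq`); `nm (w' - w) ≤ nm G (c', w)` (`root_le` over `c'`), `G (c', w) = G (c', w) - G (c, w)` has norm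
`≤ t` (`pe_close`); `x = pt c w`, `x' = pt c' w'`, `pt_close`. -/
theorem Pj.near (h : Pj f L ψ) {x x' : Fin N → Ω} (hx : ∀ j, L.nm (x j) ≤ 1)
    (hx' : ∀ j, L.nm (x' j) ≤ 1) (h0 : ∀ i, MvPolynomial.aeval x (f i) = 0)
    (h0' : ∀ i, MvPolynomial.aeval x' (f i) = 0)
    (hD : L.nm (MvPolynomial.aeval (ψ.uv x) ψ.D) = 1) (hn : ∀ j, L.nm (x' j - x j) < 1) {t : ℝ}
    (ht : 0 ≤ t) (hu : ∀ r, L.nm (ψ.uv x' r - ψ.uv x r) ≤ t) (j : Fin N) :
    L.nm (x' j - x j) ≤ t := by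
  obtain ⟨hc, hw⟩ := h.uv_le hx
  obtain ⟨hc', hw'⟩ := h.uv_le hx'
  have hn' : ∀ j, L.nm (x j - x' j) < 1 := fun j => by
    rw [L.sub_comm]
    exact hn j
  have hcc : ∀ r, L.nm (ψ.uv x r - ψ.uv x' r) < 1 := fun r => lv_lt (h.iu r) hn'
  have hww : L.nm (ψ.yv x' - ψ.yv x) < 1 := lv_lt h.iy hn
  have hD' := h.D_close hc hc' hcc hD
  have hx0 := chd_ne h hx hD
  have hx0' := chd_ne h hx' hD'
  obtain ⟨hG, hpt⟩ := h.pt_eq hx0 h0 (L.ne_zero (by rw [hD]; exact zero_lt_one))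
  obtain ⟨hG', hpt'⟩ := h.pt_eq hx0' h0' (L.ne_zero (by rw [hD']; exact zero_lt_one))
  have h1 := h.root_le hc' hD' hw' hw hG' hww
  have h2 : L.nm (pe (ψ.uv x') (ψ.yv x) ψ.G) ≤ t := by
    have h3 := pe_close h.iG hc' hw hc hw ht hu (by rw [sub_self, L.zero]; exact ht)
    rwa [hG, sub_zero] at h3
  have h3 := h.pt_close hc' hw' hc hw hD' hD ht hu (h1.trans h2) j
  rwa [hpt, hpt'] at h3

/-- Proof: `near` with `t = 0`. -/
theorem Pj.inj (h : Pj f L ψ) {x x' : Fin N → Ω} (hx : ∀ j, L.nm (x j) ≤ 1)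
    (hx' : ∀ j, L.nm (x' j) ≤ 1) (h0 : ∀ i, MvPolynomial.aeval x (f i) = 0)
    (h0' : ∀ i, MvPolynomial.aeval x' (f i) = 0)
    (hD : L.nm (MvPolynomial.aeval (ψ.uv x) ψ.D) = 1) (hn : ∀ j, L.nm (x' j - x j) < 1)
    (hu : ψ.uv x' = ψ.uv x) : x' = x := by
  funext j
  have h1 := h.near hx hx' h0 h0' hD hn le_rfl (fun r => by rw [hu, sub_self, L.zero]) j
  exact sub_eq_zero.1 ((L.zero_iff _).1 (le_antisymm h1 (L.nonneg _)))

section int

variable {R : Type} [CommRing R] [Algebra R Ω]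

private theorem chd_mv (hR : ∀ a : R, L.nm (algebraMap R Ω a) ≤ 1) {σ : Type} [Fintype σ]
    {c ξ : σ → Ω} (hc : ∀ r, L.nm (c r) ≤ 1) {t : ℝ} (ht : 0 ≤ t) (ht1 : t ≤ 1)
    (hξ : ∀ r, L.nm (ξ r) ≤ t) (Q : MvPolynomial σ R) :
    L.nm (MvPolynomial.aeval c Q) ≤ 1 ∧
      L.nm (∑ r, ξ r * MvPolynomial.aeval c (MvPolynomial.pderiv r Q)) ≤ t ∧
        L.nm (MvPolynomial.aeval (c + ξ) Q - (MvPolynomial.aeval c Q +
          ∑ r, ξ r * MvPolynomial.aeval c (MvPolynomial.pderiv r Q))) ≤ t ^ 2 := by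
  classical
  induction Q using MvPolynomial.induction_on with
  | C a =>
    have h1 : ∑ r, ξ r * MvPolynomial.aeval c (MvPolynomial.pderiv r
        (MvPolynomial.C a : MvPolynomial σ R)) = 0 := by
      refine Finset.sum_eq_zero fun r _ => ?_
      rw [MvPolynomial.pderiv_C, map_zero, mul_zero]
    have h2 : ∀ c : σ → Ω, MvPolynomial.aeval c (MvPolynomial.C a : MvPolynomial σ R) =
        algebraMap R Ω a := fun c => by
      rw [← MvPolynomial.algebraMap_eq, AlgHom.commutes]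
    rw [h1, h2, h2, add_zero, sub_self, L.zero]
    exact ⟨hR a, ht, sq_nonneg t⟩
  | add p q hp hq =>
    obtain ⟨p1, p2, p3⟩ := hp
    obtain ⟨q1, q2, q3⟩ := hq
    have h1 : ∑ r, ξ r * MvPolynomial.aeval c (MvPolynomial.pderiv r (p + q)) =
        ∑ r, ξ r * MvPolynomial.aeval c (MvPolynomial.pderiv r p) +
        ∑ r, ξ r * MvPolynomial.aeval c (MvPolynomial.pderiv r q) := by
      rw [← Finset.sum_add_distrib]
      refine Finset.sum_congr rfl fun r _ => ?_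
      rw [map_add, map_add, mul_add]
    rw [h1, map_add, map_add]
    refine ⟨(L.add _ _).trans (max_le p1 q1), (L.add _ _).trans (max_le p2 q2), ?_⟩
    generalize ∑ r, ξ r * MvPolynomial.aeval c (MvPolynomial.pderiv r p) = P at *
    generalize ∑ r, ξ r * MvPolynomial.aeval c (MvPolynomial.pderiv r q) = Q at *
    have h2 : MvPolynomial.aeval (c + ξ) p + MvPolynomial.aeval (c + ξ) q -
        (MvPolynomial.aeval c p + MvPolynomial.aeval c q + (P + Q)) =
        (MvPolynomial.aeval (c + ξ) p - (MvPolynomial.aeval c p + P)) +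
        (MvPolynomial.aeval (c + ξ) q - (MvPolynomial.aeval c q + Q)) := by ring
    rw [h2]
    exact (L.add _ _).trans (max_le p3 q3)
  | mul_X p i hp =>
    obtain ⟨p1, p2, p3⟩ := hp
    have h1 : ∑ r, ξ r * MvPolynomial.aeval c (MvPolynomial.pderiv r (p * MvPolynomial.X i)) =
        c i * ∑ r, ξ r * MvPolynomial.aeval c (MvPolynomial.pderiv r p) +
        MvPolynomial.aeval c p * ξ i := by
      have h : ∀ r, ξ r * MvPolynomial.aeval c (MvPolynomial.pderiv r (p * MvPolynomial.X i)) =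
          c i * (ξ r * MvPolynomial.aeval c (MvPolynomial.pderiv r p)) +
          (if r = i then MvPolynomial.aeval c p * ξ r else 0) := by
        intro r
        rw [MvPolynomial.pderiv_mul, map_add, map_mul, map_mul, MvPolynomial.aeval_X,
          MvPolynomial.pderiv_X]
        by_cases hri : r = i
        · subst hri
          rw [Pi.single_eq_same, map_one, if_pos rfl]
          ring
        · rw [Pi.single_eq_of_ne (Ne.symm hri), map_zero, if_neg hri]
          ring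
      rw [Finset.sum_congr rfl fun r _ => h r, Finset.sum_add_distrib, ← Finset.mul_sum,
        Finset.sum_ite_eq' Finset.univ i, if_pos (Finset.mem_univ i)]
    rw [h1, map_mul, map_mul, MvPolynomial.aeval_X, MvPolynomial.aeval_X, Pi.add_apply]
    generalize ∑ r, ξ r * MvPolynomial.aeval c (MvPolynomial.pderiv r p) = P at *
    have hcξ : L.nm (c i + ξ i) ≤ 1 := (L.add _ _).trans (max_le (hc i) ((hξ i).trans ht1))
    refine ⟨?_, ?_, ?_⟩
    · rw [L.mul]
      exact mul_le_one₀ p1 (L.nonneg _) (hc i)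
    · refine (L.add _ _).trans (max_le ?_ ?_)
      · rw [L.mul]
        exact (mul_le_of_le_one_left (L.nonneg _) (hc i)).trans p2
      · rw [L.mul]
        exact (mul_le_of_le_one_left (L.nonneg _) p1).trans (hξ i)
    · have h2 : MvPolynomial.aeval (c + ξ) p * (c i + ξ i) -
          (MvPolynomial.aeval c p * c i + (c i * P + MvPolynomial.aeval c p * ξ i)) =
          (MvPolynomial.aeval (c + ξ) p - (MvPolynomial.aeval c p + P)) * (c i + ξ i) +
          P * ξ i := by ring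
      rw [h2]
      refine (L.add _ _).trans (max_le ?_ ?_)
      · rw [L.mul]
        exact (mul_le_of_le_one_right (L.nonneg _) hcξ).trans p3
      · rw [L.mul, pow_two]
        exact mul_le_mul p2 (hξ i) (L.nonneg _) ht

private theorem chd_dr_add {R : Type} [CommRing R] (r : Fin (d + 1))
    (P Q : Polynomial (MvPolynomial (Fin (d + 1)) R)) :
    dr r (P + Q) = dr r P + dr r Q := by
  rw [dr, dr, dr]
  refine Polynomial.sum_add_index P Q _ (fun j => ?_) fun j a b => ?_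
  · rw [map_zero, map_zero, zero_mul]
  · rw [map_add, map_add, add_mul]

private theorem chd_dr_mon {R : Type} [CommRing R] (r : Fin (d + 1)) (n : ℕ)
    (a : MvPolynomial (Fin (d + 1)) R) : dr r (Polynomial.C a * Polynomial.X ^ n) =
      Polynomial.C (MvPolynomial.pderiv r a) * Polynomial.X ^ n := by
  rw [dr, Polynomial.C_mul_X_pow_eq_monomial, Polynomial.sum_monomial_index]
  rw [map_zero, map_zero, zero_mul]

private theorem chd_dr_C {R : Type} [CommRing R] (r : Fin (d + 1))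
    (a : MvPolynomial (Fin (d + 1)) R) :
    dr r (Polynomial.C a) = Polynomial.C (MvPolynomial.pderiv r a) := by
  have h1 := chd_dr_mon r 0 a
  rwa [pow_zero, mul_one, mul_one] at h1

private theorem chd_dr_coeff {R : Type} [CommRing R] (r : Fin (d + 1))
    (P : Polynomial (MvPolynomial (Fin (d + 1)) R)) (k : ℕ) :
    (dr r P).coeff k = MvPolynomial.pderiv r (P.coeff k) := by
  induction P using Polynomial.induction_on' with
  | add P Q hP hQ =>
    rw [chd_dr_add, Polynomial.coeff_add, Polynomial.coeff_add, hP, hQ, map_add]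
  | monomial n a =>
    rw [← Polynomial.C_mul_X_pow_eq_monomial, chd_dr_mon, Polynomial.coeff_C_mul_X_pow,
      Polynomial.coeff_C_mul_X_pow]
    by_cases hk : k = n
    · rw [if_pos hk, if_pos hk]
    · rw [if_neg hk, if_neg hk, map_zero]

private theorem chd_dr_map {R R' : Type} [CommRing R] [CommRing R'] (φ : R →+* R')
    (r : Fin (d + 1)) (P : Polynomial (MvPolynomial (Fin (d + 1)) R)) :
    dr r (P.map (MvPolynomial.map φ)) = (dr r P).map (MvPolynomial.map φ) := by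
  refine Polynomial.ext fun k => ?_
  rw [chd_dr_coeff, Polynomial.coeff_map, Polynomial.coeff_map, chd_dr_coeff,
    MvPolynomial.pderiv_map]

private theorem chd_pe (hR : ∀ a : R, L.nm (algebraMap R Ω a) ≤ 1) {c ξ : Fin (d + 1) → Ω}
    {w ω : Ω} (hc : ∀ r, L.nm (c r) ≤ 1) (hw : L.nm w ≤ 1) {t : ℝ} (ht : 0 ≤ t) (ht1 : t ≤ 1)
    (hξ : ∀ r, L.nm (ξ r) ≤ t) (hω : L.nm ω ≤ t)
    (P : Polynomial (MvPolynomial (Fin (d + 1)) R)) :
    L.nm (pe c w P) ≤ 1 ∧ L.nm (∑ r, ξ r * pe c w (dr r P) +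
      ω * pe c w (Polynomial.derivative P)) ≤ t ∧
    L.nm (pe (c + ξ) (w + ω) P - (pe c w P + (∑ r, ξ r * pe c w (dr r P) +
      ω * pe c w (Polynomial.derivative P)))) ≤ t ^ 2 := by
  induction P using Polynomial.induction_on with
  | C a =>
    have h1 : ∑ r, ξ r * pe c w (dr r (Polynomial.C a)) =
        ∑ r, ξ r * MvPolynomial.aeval c (MvPolynomial.pderiv r a) := by
      refine Finset.sum_congr rfl fun r _ => ?_
      rw [chd_dr_C, pe_C]
    rw [h1, pe_C, pe_C, Polynomial.derivative_C, map_zero, mul_zero, add_zero]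
    exact chd_mv hR hc ht ht1 hξ a
  | add P Q hP hQ =>
    obtain ⟨p1, p2, p3⟩ := hP
    obtain ⟨q1, q2, q3⟩ := hQ
    have h1 : ∑ r, ξ r * pe c w (dr r (P + Q)) =
        ∑ r, ξ r * pe c w (dr r P) + ∑ r, ξ r * pe c w (dr r Q) := by
      rw [← Finset.sum_add_distrib]
      refine Finset.sum_congr rfl fun r _ => ?_
      rw [chd_dr_add, map_add, mul_add]
    rw [h1, RingHom.map_add, RingHom.map_add, Polynomial.derivative_add, RingHom.map_add]
    generalize ∑ r, ξ r * pe c w (dr r P) = SP at *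
    generalize ∑ r, ξ r * pe c w (dr r Q) = SQ at *
    have h2 : SP + SQ + ω * (pe c w (Polynomial.derivative P) +
        pe c w (Polynomial.derivative Q)) = (SP + ω * pe c w (Polynomial.derivative P)) +
        (SQ + ω * pe c w (Polynomial.derivative Q)) := by ring
    rw [h2]
    generalize SP + ω * pe c w (Polynomial.derivative P) = TP at *
    generalize SQ + ω * pe c w (Polynomial.derivative Q) = TQ at *
    refine ⟨(L.add _ _).trans (max_le p1 q1), (L.add _ _).trans (max_le p2 q2), ?_⟩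
    have h3 : pe (c + ξ) (w + ω) P + pe (c + ξ) (w + ω) Q -
        (pe c w P + pe c w Q + (TP + TQ)) =
        (pe (c + ξ) (w + ω) P - (pe c w P + TP)) +
        (pe (c + ξ) (w + ω) Q - (pe c w Q + TQ)) := by ring
    rw [h3]
    exact (L.add _ _).trans (max_le p3 q3)
  | monomial n a ih =>
    have h : Polynomial.C a * Polynomial.X ^ (n + 1) =
        Polynomial.C a * Polynomial.X ^ n *
          (Polynomial.X : Polynomial (MvPolynomial (Fin (d + 1)) R)) := by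
      rw [pow_succ, mul_assoc]
    have h2 : ∀ r, dr r (Polynomial.C a * Polynomial.X ^ (n + 1)) =
        dr r (Polynomial.C a * Polynomial.X ^ n) * Polynomial.X := by
      intro r
      rw [chd_dr_mon, chd_dr_mon, pow_succ, mul_assoc]
    have h3 : ∀ r, ξ r * pe c w (dr r (Polynomial.C a * Polynomial.X ^ (n + 1))) =
        w * (ξ r * pe c w (dr r (Polynomial.C a * Polynomial.X ^ n))) := by
      intro r
      rw [h2, map_mul, pe_X]
      ring
    rw [Finset.sum_congr rfl fun r _ => h3 r, ← Finset.mul_sum, h]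
    generalize Polynomial.C a * Polynomial.X ^ n = Q at ih ⊢
    rw [RingHom.map_mul, RingHom.map_mul, pe_X, pe_X, Polynomial.derivative_mul,
      Polynomial.derivative_X, mul_one, RingHom.map_add, RingHom.map_mul, pe_X]
    obtain ⟨q1, q2, q3⟩ := ih
    have hwω : L.nm (w + ω) ≤ 1 := (L.add _ _).trans (max_le hw (hω.trans ht1))
    have h4 : w * ∑ r, ξ r * pe c w (dr r Q) +
        ω * (pe c w (Polynomial.derivative Q) * w + pe c w Q) =
        w * (∑ r, ξ r * pe c w (dr r Q) + ω * pe c w (Polynomial.derivative Q)) +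
        pe c w Q * ω := by ring
    rw [h4]
    generalize ∑ r, ξ r * pe c w (dr r Q) + ω * pe c w (Polynomial.derivative Q) = T at *
    refine ⟨?_, ?_, ?_⟩
    · rw [L.mul]
      exact mul_le_one₀ q1 (L.nonneg _) hw
    · refine (L.add _ _).trans (max_le ?_ ?_)
      · rw [L.mul]
        exact (mul_le_of_le_one_left (L.nonneg _) hw).trans q2
      · rw [L.mul]
        exact (mul_le_of_le_one_left (L.nonneg _) q1).trans hω
    · have h5 : pe (c + ξ) (w + ω) Q * (w + ω) - (pe c w Q * w + (w * T + pe c w Q * ω)) =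
          (pe (c + ξ) (w + ω) Q - (pe c w Q + T)) * (w + ω) + T * ω := by ring
      rw [h5]
      refine (L.add _ _).trans (max_le ?_ ?_)
      · rw [L.mul]
        exact (mul_le_of_le_one_right (L.nonneg _) hwω).trans q3
      · rw [L.mul, pow_two]
        exact mul_le_mul q2 hω (L.nonneg _) ht

end int

private theorem chd_lift {P : Polynomial (MvPolynomial (Fin (d + 1)) K)}
    (hP : ∀ j e, L.nm (algebraMap K Ω ((P.coeff j).coeff e)) ≤ 1) :
    ∃ P₀ : Polynomial (MvPolynomial (Fin (d + 1)) (L.V.toSubring.comap (algebraMap K Ω))),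
      P₀.map (MvPolynomial.map (algebraMap _ K)) = P := by
  refine (Polynomial.mem_lifts P).1 ((Polynomial.lifts_iff_coeff_lifts P).2 fun n => ?_)
  rw [MvPolynomial.mem_range_map_iff_coeffs_subset]
  intro a ha
  obtain ⟨e, -, rfl⟩ := MvPolynomial.mem_coeffs_iff.1 ha
  exact ⟨⟨(P.coeff n).coeff e, hP n e⟩, rfl⟩

/-- Taylor. Proof: induction on `P` (coefficients of monomials): for a constant and for sums clear; for the product with a variable multiply the expansions (`nm t ^ 2 ≤ t`); or first for `MvPolynomial` (`aeval`), then for `a * X ^ j`. -/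
theorem pe_tay {P : Polynomial (MvPolynomial (Fin (d + 1)) K)}
    (hP : ∀ j e, L.nm (algebraMap K Ω ((P.coeff j).coeff e)) ≤ 1) {c ξ : Fin (d + 1) → Ω}
    {w ω : Ω} (hc : ∀ r, L.nm (c r) ≤ 1) (hw : L.nm w ≤ 1) {t : ℝ} (ht : 0 ≤ t) (ht1 : t ≤ 1)
    (hξ : ∀ r, L.nm (ξ r) ≤ t) (hω : L.nm ω ≤ t) :
    L.nm (pe (c + ξ) (w + ω) P - (pe c w P + (∑ r, ξ r * pe c w (dr r P) +
      ω * pe c w (Polynomial.derivative P)))) ≤ t ^ 2 := by
  obtain ⟨P₀, rfl⟩ := chd_lift hP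
  have h1 := (chd_pe (L := L) (R := (L.V.toSubring.comap (algebraMap K Ω)))
    (fun a => a.2) hc hw ht ht1 hξ hω P₀).2.2
  have h2 : ∀ r, pe c w (dr r (P₀.map (MvPolynomial.map (algebraMap _ K)))) =
      pe c w (dr r P₀) := by
    intro r
    rw [chd_dr_map, pe_map]
  rw [Polynomial.derivative_map, pe_map, pe_map, pe_map]
  simp only [h2]
  exact h1

private theorem chd_i_mul {P Q : MvPolynomial (Fin (d + 1)) K}
    (hP : ∀ e, L.nm (algebraMap K Ω (P.coeff e)) ≤ 1)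
    (hQ : ∀ e, L.nm (algebraMap K Ω (Q.coeff e)) ≤ 1) (e : Fin (d + 1) →₀ ℕ) :
    L.nm (algebraMap K Ω ((P * Q).coeff e)) ≤ 1 := by
  classical
  rw [MvPolynomial.coeff_mul, map_sum]
  refine L.sum_le _ _ zero_le_one fun x _ => ?_
  rw [map_mul, L.mul]
  exact mul_le_one₀ (hP _) (L.nonneg _) (hQ _)

private theorem chd_ii_mul {P Q : Polynomial (MvPolynomial (Fin (d + 1)) K)}
    (hP : ∀ k e, L.nm (algebraMap K Ω ((P.coeff k).coeff e)) ≤ 1)
    (hQ : ∀ k e, L.nm (algebraMap K Ω ((Q.coeff k).coeff e)) ≤ 1) (k : ℕ)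
    (e : Fin (d + 1) →₀ ℕ) :
    L.nm (algebraMap K Ω (((P * Q).coeff k).coeff e)) ≤ 1 := by
  classical
  rw [Polynomial.coeff_mul, MvPolynomial.coeff_sum, map_sum]
  exact L.sum_le _ _ zero_le_one fun x _ => chd_i_mul (hP _) (hQ _) e

private theorem chd_ii_sub {P Q : Polynomial (MvPolynomial (Fin (d + 1)) K)}
    (hP : ∀ k e, L.nm (algebraMap K Ω ((P.coeff k).coeff e)) ≤ 1)
    (hQ : ∀ k e, L.nm (algebraMap K Ω ((Q.coeff k).coeff e)) ≤ 1) (k : ℕ)
    (e : Fin (d + 1) →₀ ℕ) :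
    L.nm (algebraMap K Ω (((P - Q).coeff k).coeff e)) ≤ 1 := by
  rw [Polynomial.coeff_sub, MvPolynomial.coeff_sub, map_sub]
  exact (L.sub _ _).trans (max_le (hP k e) (hQ k e))

private theorem chd_ii_C {P : MvPolynomial (Fin (d + 1)) K}
    (hP : ∀ e, L.nm (algebraMap K Ω (P.coeff e)) ≤ 1) (k : ℕ)
    (e : Fin (d + 1) →₀ ℕ) :
    L.nm (algebraMap K Ω (((Polynomial.C P).coeff k).coeff e)) ≤ 1 := by
  rw [Polynomial.coeff_C]
  by_cases hk : k = 0
  · rw [if_pos hk]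
    exact hP e
  · rw [if_neg hk, MvPolynomial.coeff_zero, map_zero, L.zero]
    exact zero_le_one

private theorem chd_ii_dr {P : Polynomial (MvPolynomial (Fin (d + 1)) K)}
    (hP : ∀ k e, L.nm (algebraMap K Ω ((P.coeff k).coeff e)) ≤ 1) (r : Fin (d + 1)) (k : ℕ)
    (e : Fin (d + 1) →₀ ℕ) :
    L.nm (algebraMap K Ω (((dr r P).coeff k).coeff e)) ≤ 1 := by
  rw [chd_dr_coeff]
  exact GM.pd_int (F := K) (K := K) (hP k) r e

private theorem chd_ii_d {P : Polynomial (MvPolynomial (Fin (d + 1)) K)}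
    (hP : ∀ k e, L.nm (algebraMap K Ω ((P.coeff k).coeff e)) ≤ 1) (k : ℕ)
    (e : Fin (d + 1) →₀ ℕ) :
    L.nm (algebraMap K Ω (((Polynomial.derivative P).coeff k).coeff e)) ≤ 1 := by
  rw [Polynomial.coeff_derivative]
  have h1 : ((k : MvPolynomial (Fin (d + 1)) K) + 1) = MvPolynomial.C (((k + 1 : ℕ) : K)) := by
    rw [map_natCast, Nat.cast_add, Nat.cast_one]
  rw [h1, mul_comm, MvPolynomial.coeff_C_mul, map_mul, map_natCast, L.mul]
  exact mul_le_one₀ (L.nat_le _) (L.nonneg _) (hP _ _)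

/-- The coefficients of `tp` are integral. Proof: sums, products and derivatives of polynomials with integral coefficients. -/
theorem Pj.iT (h : Pj f L ψ) (r : Fin (d + 1)) (j : Fin N) (k : ℕ) (e : Fin (d + 1) →₀ ℕ) :
    L.nm (algebraMap K Ω (((ψ.tp r j).coeff k).coeff e)) ≤ 1 := by
  refine chd_ii_sub (chd_ii_mul (chd_ii_C h.iD) (chd_ii_sub
    (chd_ii_mul (chd_ii_dr (h.iA j) r) (chd_ii_d h.iG))
    (chd_ii_mul (chd_ii_d (h.iA j)) (chd_ii_dr h.iG r))))
    (chd_ii_mul (chd_ii_mul (h.iA j) (chd_ii_C (GM.pd_int (F := K) (K := K) h.iD r)))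
      (chd_ii_d h.iG)) k e

private theorem chd_lt (c ξ : Fin (d + 1) → Ω) (w : Ω) (j : Fin N) :
    (ψ.om Ω).lt c w ξ j = (∑ r, ξ r * pe c w (ψ.tp r j)) /
      (MvPolynomial.aeval c ψ.D ^ 2 * pe c w (Polynomial.derivative ψ.G)) := by
  have h1 : ∀ r, (ψ.om Ω).lt c w (Pi.single r 1) j = pe c w ((ψ.om Ω).tp r j) /
      (MvPolynomial.eval c (ψ.om Ω).D ^ 2 *
        pe c w (Polynomial.derivative (ψ.om Ω).G)) := by
    intro r
    rw [Prj.lt, Finset.sum_eq_single r]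
    · rw [Pi.single_eq_same, one_mul]
    · intro b _ hb
      rw [Pi.single_eq_of_ne hb, zero_mul]
    · intro h
      exact absurd (Finset.mem_univ r) h
  rw [Prj.lt, Finset.sum_div, Finset.sum_div]
  refine Finset.sum_congr rfl fun r _ => ?_
  rw [mul_div_assoc, ← h1, lt_map, mul_div_assoc]

/-- Proof: `lt_map` (`Gx/Ee.lean`, for every `ξ`: the definition of `lt`), `pe_le`, `iT`, `gy_one`. -/
theorem Pj.lt_le (h : Pj f L ψ) {c ξ : Fin (d + 1) → Ω} {w : Ω} (hc : ∀ r, L.nm (c r) ≤ 1)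
    (hw : L.nm w ≤ 1) (hG : pe c w ψ.G = 0) (hD : L.nm (MvPolynomial.aeval c ψ.D) = 1) {t : ℝ}
    (ht : 0 ≤ t) (hξ : ∀ r, L.nm (ξ r) ≤ t) (j : Fin N) :
    L.nm ((ψ.om Ω).lt c w ξ j) ≤ t := by
  have hg := h.gy_one hc hw (by rw [hG, L.zero]; exact zero_lt_one) hD
  rw [chd_lt, L.div, L.mul, L.pow, hD, hg, one_pow, mul_one, div_one]
  refine L.sum_le _ _ ht fun r _ => ?_
  rw [L.mul]
  exact (mul_le_of_le_one_right (L.nonneg _) (pe_le (h.iT r j) hc hw)).trans (hξ r)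

/-- **Second order.** Proof: `c = u (x)`, `w = y (x)`, `ξ = u (x') - c`, `ω = y (x') - w` (norms `≤ t`: `lv_close`). `pe_tay` for `G` (`G (c, w) = G (c', w') = 0`): `∑ ξ_r G_r + ω G_Y = O (t ^ 2)`; for `A j` and `C D`, with `A_j (c, w) = D (c) x_j`, `A_j (c', w') = D (c') x'_j`:
`∑ ξ_r (A_j)_r + ω (A_j)_Y = D (c) (x'_j - x_j) + (∑ ξ_r D_r (c)) x_j + O (t ^ 2)`. So `D (c) ^ 2 G_Y (x'_j - x_j) = ∑ ξ_r tp_rj (c, w) + O (t ^ 2)` (`x_j = A_j / D`), `D (c)` and `G_Y` are units (`gy_one`). -/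
theorem Pj.second (h : Pj f L ψ) {x x' : Fin N → Ω} (hx : ∀ j, L.nm (x j) ≤ 1)
    (hx' : ∀ j, L.nm (x' j) ≤ 1) (h0 : ∀ i, MvPolynomial.aeval x (f i) = 0)
    (h0' : ∀ i, MvPolynomial.aeval x' (f i) = 0)
    (hD : L.nm (MvPolynomial.aeval (ψ.uv x) ψ.D) = 1) {t : ℝ} (ht : 0 ≤ t) (ht1 : t < 1)
    (hn : ∀ j, L.nm (x' j - x j) ≤ t) (j : Fin N) :
    L.nm (x' j - x j - (ψ.om Ω).lt (ψ.uv x) (ψ.yv x) (ψ.uv x' - ψ.uv x) j) ≤ t ^ 2 := by
  obtain ⟨hc, hw⟩ := h.uv_le hx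
  obtain ⟨hc', hw'⟩ := h.uv_le hx'
  have hn1 : ∀ j, L.nm (x j - x' j) < 1 := fun j => by
    rw [L.sub_comm]
    exact (hn j).trans_lt ht1
  have hcc : ∀ r, L.nm (ψ.uv x r - ψ.uv x' r) < 1 := fun r => lv_lt (h.iu r) hn1
  have hD' := h.D_close hc hc' hcc hD
  have hx0 := chd_ne h hx hD
  have hx0' := chd_ne h hx' hD'
  obtain ⟨hG, hA⟩ := h.onX x hx0 h0
  obtain ⟨hG', hA'⟩ := h.onX x' hx0' h0'
  have hξ : ∀ r, L.nm ((ψ.uv x' - ψ.uv x) r) ≤ t := fun r => lv_close (h.iu r) ht hn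
  have hω : L.nm (ψ.yv x' - ψ.yv x) ≤ t := lv_close h.iy ht hn
  have hgy := h.gy_one hc hw (by rw [hG, L.zero]; exact zero_lt_one) hD
  rw [chd_lt]
  have TG := pe_tay h.iG hc hw ht ht1.le hξ hω
  have TA := pe_tay (h.iA j) hc hw ht ht1.le hξ hω
  have TD := pe_tay (chd_ii_C h.iD) hc hw ht ht1.le hξ hω
  have hAi : L.nm (pe (ψ.uv x) (ψ.yv x) (Polynomial.derivative (ψ.A j))) ≤ 1 :=
    pe_le (chd_ii_d (h.iA j)) hc hw
  have hδ : L.nm (∑ r, (ψ.uv x' - ψ.uv x) r *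
      MvPolynomial.aeval (ψ.uv x) (MvPolynomial.pderiv r ψ.D)) ≤ t := by
    refine L.sum_le _ _ ht fun r _ => ?_
    rw [L.mul]
    exact (mul_le_of_le_one_right (L.nonneg _)
      (GM.ae_le (F := K) (K := K) (GM.pd_int (F := K) (K := K) h.iD r) hc)).trans (hξ r)
  have hTD : ∀ r, pe (ψ.uv x) (ψ.yv x) (dr r (Polynomial.C ψ.D)) =
      MvPolynomial.aeval (ψ.uv x) (MvPolynomial.pderiv r ψ.D) := by
    intro r
    rw [chd_dr_C, pe_C]
  have htp : ∑ r, (ψ.uv x' - ψ.uv x) r * pe (ψ.uv x) (ψ.yv x) (ψ.tp r j) =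
      MvPolynomial.aeval (ψ.uv x) ψ.D *
        ((∑ r, (ψ.uv x' - ψ.uv x) r * pe (ψ.uv x) (ψ.yv x) (dr r (ψ.A j))) *
          pe (ψ.uv x) (ψ.yv x) (Polynomial.derivative ψ.G) -
        pe (ψ.uv x) (ψ.yv x) (Polynomial.derivative (ψ.A j)) *
          (∑ r, (ψ.uv x' - ψ.uv x) r * pe (ψ.uv x) (ψ.yv x) (dr r ψ.G))) -
      pe (ψ.uv x) (ψ.yv x) (ψ.A j) * (∑ r, (ψ.uv x' - ψ.uv x) r *
        MvPolynomial.aeval (ψ.uv x) (MvPolynomial.pderiv r ψ.D)) *
          pe (ψ.uv x) (ψ.yv x) (Polynomial.derivative ψ.G) := by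
    have h1 : ∀ r, (ψ.uv x' - ψ.uv x) r * pe (ψ.uv x) (ψ.yv x) (ψ.tp r j) =
        MvPolynomial.aeval (ψ.uv x) ψ.D *
          ((ψ.uv x' - ψ.uv x) r * pe (ψ.uv x) (ψ.yv x) (dr r (ψ.A j)) *
            pe (ψ.uv x) (ψ.yv x) (Polynomial.derivative ψ.G) -
          pe (ψ.uv x) (ψ.yv x) (Polynomial.derivative (ψ.A j)) *
            ((ψ.uv x' - ψ.uv x) r * pe (ψ.uv x) (ψ.yv x) (dr r ψ.G))) -
        pe (ψ.uv x) (ψ.yv x) (ψ.A j) * ((ψ.uv x' - ψ.uv x) r *
          MvPolynomial.aeval (ψ.uv x) (MvPolynomial.pderiv r ψ.D)) *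
            pe (ψ.uv x) (ψ.yv x) (Polynomial.derivative ψ.G) := by
      intro r
      rw [Prj.tp, map_sub, map_mul, map_sub, map_mul, map_mul, map_mul, map_mul, pe_C, pe_C]
      ring
    rw [Finset.sum_congr rfl fun r _ => h1 r, Finset.sum_sub_distrib, ← Finset.mul_sum,
      Finset.sum_sub_distrib, ← Finset.sum_mul, ← Finset.mul_sum, ← Finset.sum_mul,
      ← Finset.mul_sum]
  rw [add_sub_cancel, add_sub_cancel] at TG TA TD
  rw [htp]
  simp only [hTD] at TD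
  rw [Polynomial.derivative_C, map_zero, mul_zero, add_zero, pe_C, pe_C] at TD
  rw [hG, hG'] at TG
  rw [hA, hA' j] at TA
  rw [hA]
  generalize ∑ r, (ψ.uv x' - ψ.uv x) r *
      MvPolynomial.aeval (ψ.uv x) (MvPolynomial.pderiv r ψ.D) = δ at *
  generalize ∑ r, (ψ.uv x' - ψ.uv x) r * pe (ψ.uv x) (ψ.yv x) (dr r (ψ.A j)) = SA at *
  generalize ∑ r, (ψ.uv x' - ψ.uv x) r * pe (ψ.uv x) (ψ.yv x) (dr r ψ.G) = SG at *
  generalize MvPolynomial.aeval (ψ.uv x) ψ.D = D at *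
  generalize MvPolynomial.aeval (ψ.uv x') ψ.D = D' at *
  generalize pe (ψ.uv x) (ψ.yv x) (Polynomial.derivative (ψ.A j)) = AY at *
  generalize pe (ψ.uv x) (ψ.yv x) (Polynomial.derivative ψ.G) = GY at *
  generalize ψ.yv x' - ψ.yv x = ω at *
  have hD0 : D ≠ 0 := L.ne_zero (by rw [hD]; exact zero_lt_one)
  have hG0 : GY ≠ 0 := L.ne_zero (by rw [hgy]; exact zero_lt_one)
  have hE : L.nm (D * (x' j - x j) + δ * x j - (SA + ω * AY)) ≤ t ^ 2 := by
    have e1 : D * (x' j - x j) + δ * x j - (SA + ω * AY) =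
        (D' * x' j - (D * x j + (SA + ω * AY))) - (D' - (D + δ)) * x' j -
        δ * (x' j - x j) := by ring
    rw [e1]
    refine (L.sub _ _).trans (max_le ((L.sub _ _).trans (max_le TA ?_)) ?_)
    · rw [L.mul]
      exact (mul_le_of_le_one_right (L.nonneg _) (hx' j)).trans TD
    · rw [L.mul, pow_two]
      exact mul_le_mul hδ (hn j) (L.nonneg _) ht
  have hTG : L.nm (SG + ω * GY) ≤ t ^ 2 := by
    have e1 : (0 : Ω) - (0 + (SG + ω * GY)) = -(SG + ω * GY) := by ring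
    rw [e1, L.neg] at TG
    exact TG
  have e2 : x' j - x j - (D * (SA * GY - AY * SG) - D * x j * δ * GY) / (D ^ 2 * GY) =
      (D * GY * (D * (x' j - x j) + δ * x j - (SA + ω * AY)) +
        D * AY * (SG + ω * GY)) / (D ^ 2 * GY) := by
    field_simp
    ring
  rw [e2, L.div, L.mul (D ^ 2), L.pow, hD, hgy, one_pow, mul_one, div_one]
  refine (L.add _ _).trans (max_le ?_ ?_)
  · rw [L.mul, L.mul, hD, hgy, one_mul, one_mul]
    exact hE
  · rw [L.mul, L.mul, hD, one_mul]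
    exact (mul_le_of_le_one_left (L.nonneg _) hAi).trans hTG

end GX
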