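import Pool.Agent.Lib.MP_f80667_ag.Gx.Lt

/-! The polynomial `G (c, Y)` and its roots. -/

open MvPolynomial

namespace GX

section field

variable {κ : Type} [Field κ] {N d m : ℕ} {ι : Type} {f : ι → MvPolynomial (Fin N) κ}
  {ψ : Prj κ N d}

/-- Proof: `Polynomial.eval_map`, `aeval = eval` (for every polynomial). -/
theorem gc_pe (c : Fin (d + 1) → κ) (w : κ) (P : Polynomial (MvPolynomial (Fin (d + 1)) κ)) :
    (P.map (MvPolynomial.eval c)).eval w = pe c w P := by
  rw [Polynomial.eval_map, pe, Polynomial.coe_eval₂RingHom]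
  congr 1

theorem Prj.gc_eval (c : Fin (d + 1) → κ) (w : κ) : (ψ.gc c).eval w = pe c w ψ.G :=
  gc_pe c w ψ.G

theorem Prj.gc_der (c : Fin (d + 1) → κ) (w : κ) :
    (Polynomial.derivative (ψ.gc c)).eval w = pe c w (Polynomial.derivative ψ.G) := by
  rw [Prj.gc, Polynomial.derivative_map]
  exact gc_pe c w _

theorem Prj.Ok.gc_mon (h : ψ.Ok f) (c : Fin (d + 1) → κ) :
    (ψ.gc c).Monic ∧ (ψ.gc c).natDegree = ψ.G.natDegree :=
  ⟨h.mon.map _, h.mon.natDegree_map _⟩

/-- Proof: `bez` mapped to polynomials over `κ`, divided by `D (c)`. -/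
theorem Prj.Ok.gc_sep (h : ψ.Ok f) {c : Fin (d + 1) → κ} (hD : eval c ψ.D ≠ 0) :
    (ψ.gc c).Separable := by
  obtain ⟨B, B', hB⟩ := h.bez
  have h1 := congrArg (Polynomial.map (MvPolynomial.eval c)) hB
  rw [Polynomial.map_add, Polynomial.map_mul, Polynomial.map_mul, Polynomial.map_C,
    ← Polynomial.derivative_map] at h1
  refine ⟨Polynomial.C (eval c ψ.D)⁻¹ * B.map (MvPolynomial.eval c),
    Polynomial.C (eval c ψ.D)⁻¹ * B'.map (MvPolynomial.eval c), ?_⟩
  rw [mul_assoc, mul_assoc, ← mul_add]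
  have h2 : B.map (MvPolynomial.eval c) * ψ.gc c +
      B'.map (MvPolynomial.eval c) * Polynomial.derivative (ψ.gc c) =
      Polynomial.C (eval c ψ.D) := h1
  rw [h2, ← Polynomial.C_mul, inv_mul_cancel₀ hD, Polynomial.C_1]

theorem Prj.Ok.mem_gc (h : ψ.Ok f) {c : Fin (d + 1) → κ} {w : κ} :
    w ∈ (ψ.gc c).roots ↔ pe c w ψ.G = 0 := by
  rw [Polynomial.mem_roots (h.gc_mon c).1.ne_zero, Polynomial.IsRoot.def, Prj.gc_eval]

/-- Homogeneity of the roots. Proof: `(gc (s c)) (s Y) = s ^ n gc c (Y)` (`homG`, coefficientwise or by `pe_smul` over the polynomials), `Polynomial.roots` after scaling; if it is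
easier: both multisets have no multiple elements (`gc_sep`, `Polynomial.nodup_roots`; `D (s c) ≠ 0`) and the same elements (`mem_gc`, `pe_smul`). -/
theorem Prj.Ok.gc_smul (h : ψ.Ok f) {c : Fin (d + 1) → κ} (hD : eval c ψ.D ≠ 0) {s : κ}
    (hs : s ≠ 0) : (ψ.gc (s • c)).roots = (ψ.gc c).roots.map fun w => s * w := by
  have hD' : eval (s • c) ψ.D ≠ 0 := by
    obtain ⟨e, -, he⟩ := h.homD
    have h1 : (aeval (s • c) ψ.D : κ) = s ^ e * aeval c ψ.D := aeval_smul_hom he c s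
    have h2 : ∀ c' : Fin (d + 1) → κ, (aeval c' ψ.D : κ) = eval c' ψ.D := fun c' =>
      DFunLike.congr_fun (MvPolynomial.coe_aeval_eq_eval c') ψ.D
    rw [h2, h2] at h1
    rw [h1]
    exact mul_ne_zero (pow_ne_zero _ hs) hD
  have hinj : Function.Injective (fun w : κ => s * w) := mul_right_injective₀ hs
  refine (Multiset.Nodup.ext (Polynomial.nodup_roots (h.gc_sep hD'))
    ((Polynomial.nodup_roots (h.gc_sep hD)).map hinj)).2 fun w => ?_
  rw [h.mem_gc, Multiset.mem_map]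
  have key : ∀ w' : κ, pe (s • c) (s * w') ψ.G = 0 ↔ pe c w' ψ.G = 0 := by
    intro w'
    rw [pe_smul h.homG le_rfl c w' s]
    constructor
    · intro h1
      exact (mul_eq_zero.1 h1).resolve_left (pow_ne_zero _ hs)
    · intro h1
      rw [h1, mul_zero]
  constructor
  · intro hw
    refine ⟨s⁻¹ * w, h.mem_gc.2 ((key _).1 ?_), ?_⟩
    · rw [mul_inv_cancel_left₀ hs]
      exact hw
    · exact mul_inv_cancel_left₀ hs w
  · rintro ⟨w', hw', rfl⟩
    exact (key w').2 (h.mem_gc.1 hw')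

/-- The number of the roots. Proof: `gc_mon`, the hypothesis `hspl`; `Polynomial.nodup_roots`, `gc_sep`. -/
theorem Prj.Ok.gc_card (h : ψ.Ok f) (hspl : ∀ g : Polynomial κ, g ≠ 0 →
    g.natDegree ≤ ψ.G.natDegree → Multiset.card g.roots = g.natDegree) {c : Fin (d + 1) → κ}
    (hD : eval c ψ.D ≠ 0) : Multiset.card (ψ.gc c).roots = ψ.G.natDegree ∧
      (ψ.gc c).roots.Nodup := by
  obtain ⟨h1, h2⟩ := h.gc_mon c
  refine ⟨?_, Polynomial.nodup_roots (h.gc_sep hD)⟩
  rw [hspl _ h1.ne_zero h2.le, h2]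

end field

end GX
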