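import Pool.Agent.Lib.MP_f80667_ag.Gx.TsL

/-!
Roots over the integers of `M`.
-/

open ZC BE PE CV IntermediateField

namespace GX

variable {F : Type} [Field F] {N d : ℕ} {ι : Type} {f : ι → MvPolynomial (Fin N) F} {K Ω : Type}
  [Field K] [CharZero K] [Field Ω] [Algebra K Ω] [Algebra F K] [Algebra F Ω]
  [IsScalarTower F K Ω] [IsAlgClosure K Ω] {L : Ld K Ω} {ψ : Prj K N d}

section aux

omit [CharZero K] [IsAlgClosure K Ω]

private theorem tsla_prod {σ : Type} (s : Finset σ) (g : σ → Ω)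
    (h : ∀ i ∈ s, L.nm (g i) ≤ 1) : L.nm (∏ i ∈ s, g i) ≤ 1 := by
  classical
  induction s using Finset.induction_on with
  | empty =>
    rw [Finset.prod_empty, L.one]
  | insert a s ha ih =>
    rw [Finset.prod_insert ha, L.mul]
    exact mul_le_one₀ (h a (Finset.mem_insert_self _ _)) (L.nonneg _)
      (ih fun i hi => h i (Finset.mem_insert_of_mem hi))

private theorem tsla_ae {P : MvPolynomial (Fin (d + 1)) K}
    (hP : ∀ e, L.nm (algebraMap K Ω (P.coeff e)) ≤ 1) {c : Fin (d + 1) → Ω}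
    (hc : ∀ r, L.nm (c r) ≤ 1) : L.nm (MvPolynomial.aeval c P) ≤ 1 := by
  rw [MvPolynomial.aeval_def, MvPolynomial.eval₂_eq']
  refine L.sum_le _ _ zero_le_one fun e _ => ?_
  rw [L.mul]
  refine mul_le_one₀ (hP e) (L.nonneg _) (tsla_prod _ _ fun i _ => ?_)
  rw [L.pow]
  exact pow_le_one₀ (L.nonneg _) (hc i)

private theorem tsla_mem {M : IntermediateField K Ω} (P : MvPolynomial (Fin (d + 1)) K)
    {c : Fin (d + 1) → Ω} (hc : ∀ r, c r ∈ M) : MvPolynomial.aeval c P ∈ M := by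
  rw [MvPolynomial.aeval_def, MvPolynomial.eval₂_eq']
  exact sum_mem fun e _ => M.mul_mem (M.algebraMap_mem _)
    (prod_mem fun i _ => pow_mem (hc i) _)

/-- The polynomial in one variable over `c`. -/
private noncomputable def tslaQ (c : Fin (d + 1) → Ω)
    (P : Polynomial (MvPolynomial (Fin (d + 1)) K)) : Polynomial Ω :=
  P.map (MvPolynomial.aeval c : MvPolynomial (Fin (d + 1)) K →ₐ[K] Ω).toRingHom

private theorem tslaQ_eval (c : Fin (d + 1) → Ω) (w : Ω)
    (P : Polynomial (MvPolynomial (Fin (d + 1)) K)) : (tslaQ c P).eval w = pe c w P := by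
  rw [tslaQ, Polynomial.eval_map]
  rfl

private theorem tslaQ_coeff (c : Fin (d + 1) → Ω)
    (P : Polynomial (MvPolynomial (Fin (d + 1)) K)) (j : ℕ) :
    (tslaQ c P).coeff j = MvPolynomial.aeval c (P.coeff j) := by
  rw [tslaQ, Polynomial.coeff_map]
  rfl

private theorem tslaQ_der (c : Fin (d + 1) → Ω)
    (P : Polynomial (MvPolynomial (Fin (d + 1)) K)) :
    Polynomial.derivative (tslaQ c P) = tslaQ c (Polynomial.derivative P) := by
  rw [tslaQ, tslaQ, Polynomial.derivative_map]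

/-- The Taylor expansion of an integral polynomial. -/
private theorem tsla_exp {q : Polynomial Ω} (hq : ∀ j, L.nm (q.coeff j) ≤ 1) {a t : Ω}
    (ha : L.nm a ≤ 1) (ht : L.nm t ≤ 1) : ∃ z, L.nm z ≤ 1 ∧
      q.eval (a + t) = q.eval a + (Polynomial.derivative q).eval a * t + z * t ^ 2 := by
  have h1 : q ∈ Polynomial.lifts L.V.subtype := by
    rw [Polynomial.lifts_iff_coeff_lifts]
    exact fun j => ⟨⟨q.coeff j, hq j⟩, rfl⟩
  obtain ⟨P, rfl⟩ := (Polynomial.mem_lifts q).1 h1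
  obtain ⟨k, hk⟩ := Polynomial.binomExpansion P (⟨a, ha⟩ : L.V) (⟨t, ht⟩ : L.V)
  refine ⟨L.V.subtype k, k.2, ?_⟩
  have h2 := congrArg L.V.subtype hk
  rw [map_add, map_add, map_mul, map_mul, map_pow, ← Polynomial.eval_map_apply,
    ← Polynomial.eval_map_apply, ← Polynomial.eval_map_apply, ← Polynomial.derivative_map] at h2
  exact h2

/-- The value of an integral polynomial. -/
private theorem tsla_pe {P : Polynomial (MvPolynomial (Fin (d + 1)) K)}
    (hP : ∀ j e, L.nm (algebraMap K Ω ((P.coeff j).coeff e)) ≤ 1) {c : Fin (d + 1) → Ω}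
    (hc : ∀ r, L.nm (c r) ≤ 1) {w : Ω} (hw : L.nm w ≤ 1) : L.nm (pe c w P) ≤ 1 := by
  rw [pe_sum]
  refine L.sum_le _ _ zero_le_one fun j _ => ?_
  rw [L.mul, L.pow]
  exact mul_le_one₀ (tsla_ae (hP j) hc) (pow_nonneg (L.nonneg _) _)
    (pow_le_one₀ (L.nonneg _) hw)

private theorem tsla_dint {P : Polynomial (MvPolynomial (Fin (d + 1)) K)}
    (hP : ∀ j e, L.nm (algebraMap K Ω ((P.coeff j).coeff e)) ≤ 1) (j : ℕ)
    (e : Fin (d + 1) →₀ ℕ) :
    L.nm (algebraMap K Ω (((Polynomial.derivative P).coeff j).coeff e)) ≤ 1 := by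
  have h1 : ((Polynomial.derivative P).coeff j).coeff e =
      (P.coeff (j + 1)).coeff e * ((j + 1 : ℕ) : K) := by
    rw [Polynomial.coeff_derivative]
    have h2 : ((j : MvPolynomial (Fin (d + 1)) K) + 1) = MvPolynomial.C ((j + 1 : ℕ) : K) := by
      rw [map_natCast, Nat.cast_add, Nat.cast_one]
    rw [h2, mul_comm, MvPolynomial.coeff_C_mul, mul_comm]
  rw [h1, map_mul, map_natCast, L.mul]
  exact mul_le_one₀ (hP _ _) (L.nonneg _) (L.nat_le _)

/-- The derivative is a unit at a root modulo the maximal ideal. -/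
private theorem tsla_unit (hψ : Pj f L ψ) {c : Fin (d + 1) → Ω} (hc : ∀ r, L.nm (c r) ≤ 1)
    (hD : L.nm (MvPolynomial.aeval c ψ.D) = 1) {w : Ω} (hw : L.nm w ≤ 1)
    (h : L.nm (pe c w ψ.G) < 1) : L.nm (pe c w (Polynomial.derivative ψ.G)) = 1 := by
  obtain ⟨B, B', hB, hB', h1⟩ := hψ.bez
  have h2 := congrArg (pe c w) h1
  rw [map_add, map_mul, map_mul, pe_C] at h2
  have h3 : L.nm (pe c w B * pe c w ψ.G) < 1 := by
    rw [L.mul]
    exact mul_lt_one_of_nonneg_of_lt_one_right (tsla_pe hB hc hw) (L.nonneg _) h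
  have h4 : pe c w B' * pe c w (Polynomial.derivative ψ.G) =
      -(pe c w B * pe c w ψ.G) + MvPolynomial.aeval c ψ.D := by
    rw [← h2]
    ring
  have h5 : L.nm (pe c w B' * pe c w (Polynomial.derivative ψ.G)) = 1 := by
    rw [h4, L.add_eq (by rw [L.neg, hD]; exact h3), hD]
  have h6 := tsla_pe (tsla_dint hψ.iG) hc hw
  refine le_antisymm h6 ?_
  rw [← h5, L.mul]
  exact mul_le_of_le_one_left (L.nonneg _) (tsla_pe hB' hc hw)

private theorem tsla_root (hψ : Pj f L ψ) {c : Fin (d + 1) → Ω} (hc : ∀ r, L.nm (c r) ≤ 1)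
    {w : Ω} (h : pe c w ψ.G = 0) : L.nm w ≤ 1 := by
  refine L.root_le (f := tslaQ c ψ.G) (hψ.mon.map _) (fun j => ?_) ?_
  · rw [tslaQ_coeff]
    exact tsla_ae (hψ.iG j) hc
  · rw [tslaQ_eval]
    exact h

end aux

/-- **Hensel.** The root over `c` on the sheet of the approximate root `w₀`. Proof: `bez`: the derivative is a unit; `Ld` is complete on `M` (`Cv` Hensel lemma). -/
theorem root_over (hψ : Pj f L ψ) {M : IntermediateField K Ω} [FiniteDimensional K M]
    {c : Fin (d + 1) → Ω} (hc : Iv L M c) (hD : L.nm (MvPolynomial.aeval c ψ.D) = 1) {w₀ : Ω}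
    (hw : w₀ ∈ M) (hw1 : L.nm w₀ ≤ 1) (h : L.nm (pe c w₀ ψ.G) < 1) :
    ∃ w ∈ M, L.nm w ≤ 1 ∧ L.nm (w - w₀) < 1 ∧ pe c w ψ.G = 0 := by
  have h1 := tsla_unit hψ (fun r => (hc r).2) hD hw1 h
  obtain ⟨w, hwM, h2, h3⟩ := L.hens M inferInstance (tslaQ c ψ.G) (hψ.mon.map _)
    (fun j => by
      rw [tslaQ_coeff]
      exact ⟨tsla_mem _ fun r => (hc r).1, tsla_ae (hψ.iG j) fun r => (hc r).2⟩)
    w₀ hw hw1 (by
      rw [tslaQ_eval]
      exact h) (by
      rw [tslaQ_der, tslaQ_eval]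
      exact h1)
  rw [tslaQ_eval] at h2
  refine ⟨w, hwM, ?_, h3, h2⟩
  have h4 := L.add (w - w₀) w₀
  rw [sub_add_cancel] at h4
  exact h4.trans (max_le h3.le hw1)

/-- A root is integral. -/
theorem root_int' (hψ : Pj f L ψ) {c : Fin (d + 1) → Ω} (hc : ∀ r, L.nm (c r) ≤ 1) {w : Ω}
    (h : pe c w ψ.G = 0) : L.nm w ≤ 1 := tsla_root hψ hc h

/-- Two roots in the same residue class. -/
theorem root_uniq' (hψ : Pj f L ψ) {c : Fin (d + 1) → Ω} (hc : ∀ r, L.nm (c r) ≤ 1)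
    (hD : L.nm (MvPolynomial.aeval c ψ.D) = 1) {w w' : Ω} (hw : pe c w ψ.G = 0)
    (hw' : pe c w' ψ.G = 0) (h : L.nm (w' - w) < 1) : w' = w := by
  have hw1 := tsla_root hψ hc hw
  have h1 := tsla_unit hψ hc hD hw1 (by
    rw [hw, L.zero]
    exact zero_lt_one)
  obtain ⟨z, hz, h2⟩ := tsla_exp (L := L) (q := tslaQ c ψ.G) (fun j => by
    rw [tslaQ_coeff]
    exact tsla_ae (hψ.iG j) hc) hw1 h.le
  rw [add_sub_cancel, tslaQ_eval, tslaQ_eval, hw, hw', tslaQ_der, tslaQ_eval, zero_add] at h2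
  have h3 : L.nm (z * (w' - w)) < 1 := by
    rw [L.mul]
    exact mul_lt_one_of_nonneg_of_lt_one_right hz (L.nonneg _) h
  have h4 : L.nm (pe c w (Polynomial.derivative ψ.G) + z * (w' - w)) = 1 := by
    rw [L.add_eq' (by rw [h1]; exact h3), h1]
  have h5 : (pe c w (Polynomial.derivative ψ.G) + z * (w' - w)) * (w' - w) = 0 := by
    rw [h2]
    ring
  rcases mul_eq_zero.1 h5 with h6 | h6
  · rw [h6, L.zero] at h4
    exact absurd h4 zero_ne_one
  · exact sub_eq_zero.1 h6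

/-- The point over `(c, w)`. -/
theorem pt_over (hψ : Pj f L ψ) {c : Fin (d + 1) → Ω} {w : Ω} (hG : pe c w ψ.G = 0)
    (hD : MvPolynomial.aeval c ψ.D ≠ 0) {x : Fin N → Ω}
    (hx : ∀ j, x j = pe c w (ψ.A j) / MvPolynomial.aeval c ψ.D) :
    ψ.uv x = c ∧ ψ.yv x = w ∧ ∃ P : (Xf f).pt Ω, Co P x := by
  have hA : (fun j => pe c w (ψ.A j)) = (MvPolynomial.aeval c ψ.D) • x := by
    funext j
    rw [Pi.smul_apply, hx, smul_eq_mul, mul_div_cancel₀ _ hD]
  have h1 : ψ.uv x = c := by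
    funext r
    have h2 := hψ.inu c w hG r
    rw [hA, uv_smul, Pi.smul_apply, smul_eq_mul] at h2
    exact mul_left_cancel₀ hD h2
  have h2 : ψ.yv x = w := by
    have h3 := hψ.iny c w hG
    rw [hA, yv_smul] at h3
    exact mul_left_cancel₀ hD h3
  have h3 : x ≠ 0 := by
    rintro rfl
    have h4 : c = 0 := by
      rw [← h1]
      funext r
      rw [Prj.uv, lv]
      exact Finset.sum_eq_zero fun j _ => mul_zero _
    obtain ⟨e, he, hh⟩ := hψ.homD
    apply hD
    rw [h4, MvPolynomial.aeval_zero, MvPolynomial.constantCoeff_eq]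
    rw [hh.coeff_eq_zero (by rw [map_zero]; exact he.symm), map_zero]
  refine ⟨h1, h2, co_mk h3 fun i => ?_⟩
  obtain ⟨s, hs⟩ := hψ.inX
  obtain ⟨Q, hQ⟩ := hs i
  have h4 := congrArg (pe c w) hQ
  rw [map_mul, map_mul, hG, zero_mul, pe_C, map_pow] at h4
  have h5 := (mul_eq_zero.1 h4).resolve_left (pow_ne_zero s hD)
  have h6 : pe c w (MvPolynomial.aeval ψ.A (f i)) =
      MvPolynomial.aeval (fun j => pe c w (ψ.A j)) (f i) := by
    rw [MvPolynomial.aeval_def, MvPolynomial.aeval_def, MvPolynomial.eval₂_comp_left]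
    have h7 : (pe c w).comp (algebraMap F (Polynomial (MvPolynomial (Fin (d + 1)) K))) =
        algebraMap F Ω := by
      refine RingHom.ext fun a => ?_
      have h8 : algebraMap F (Polynomial (MvPolynomial (Fin (d + 1)) K)) a =
          Polynomial.C (MvPolynomial.C (algebraMap F K a)) := rfl
      rw [RingHom.comp_apply, h8, pe_C, MvPolynomial.aeval_C,
        ← IsScalarTower.algebraMap_apply F K Ω]
    rw [h7]
    rfl
  rw [h6, hA] at h5
  obtain ⟨e, he⟩ := hψ.hom i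
  rw [aeval_smul_hom he] at h5
  exact (mul_eq_zero.1 h5).resolve_left (pow_ne_zero e hD)

end GX
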