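import Pool.Agent.Lib.MP_f80667_ag.Gx.D
import Pool.Agent.Lib.MP_f80667_ag.Gx.XA
import Pool.Agent.Lib.MP_f80667_ag.Gx.Pr
import Pool.Agent.Lib.MP_f80667_ag.Gm.GlF
import Pool.Agent.Lib.MP_f80667_ag.Cv.Rcy

/-! The moving lemma in a chart. -/

open ZC BE PE CV IntermediateField

namespace GX

variable {F : Type} [Field F] {N : ℕ} {ι : Type} {f : ι → MvPolynomial (Fin N) F} {K Ω : Type}
  [Field K] [CharZero K] [Field Ω] [Algebra K Ω] [Algebra F K] [Algebra F Ω]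
  [IsScalarTower F K Ω] [IsAlgClosure K Ω] {L : Ld K Ω}

omit [CharZero K] [Algebra F K] [IsScalarTower F K Ω] [IsAlgClosure K Ω] in
/-- The points of the chart are points of the variety. -/
theorem Cht.ex {M : IntermediateField K Ω} {ρ n : ℕ} {g : Polynomial (Polynomial Ω)}
    {δ : Polynomial Ω} {A : Fin N → Polynomial (Polynomial Ω)} (hC : Cht f L M ρ n g δ A)
    {Q : Ω × Ω} (h1 : L.nm Q.1 ≤ 1) (h2 : L.nm Q.2 ≤ 1) (h3 : GM.ev₂ Q g = 0)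
    (h4 : L.nm (δ.eval Q.1) = 1) : (∃ j, L.nm (GM.ev₂ Q (A j)) = 1) ∧
      ∃ p : (Xf f).pt Ω, Co p fun j => GM.ev₂ Q (A j) := by
  obtain ⟨j, hj⟩ := hC.prim Q.1 Q.2 h1 h2 h3 h4
  refine ⟨⟨j, hj⟩, co_mk (fun h => ?_) fun i => ?_⟩
  · have h5 : GM.ev₂ Q (A j) = 0 := congrFun h j
    have h6 : L.nm (GM.ev₂ Q (A j)) = 1 := hj
    rw [h5, L.zero] at h6
    exact zero_ne_one h6
  · have hψ : ∀ c : F, GM.ev₂ Q (algebraMap F (Polynomial (Polynomial Ω)) c) =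
        algebraMap F Ω c := by
      intro c
      have e1 : algebraMap F (Polynomial (Polynomial Ω)) c =
        Polynomial.C (Polynomial.C (algebraMap F Ω c)) := rfl
      rw [e1]
      simp [GM.ev₂]
    rw [GM.gpk_eq (GM.ev₂ Q) hψ]
    obtain ⟨s, hs⟩ := hC.inX
    obtain ⟨B, hB⟩ := hs i
    have e2 := congrArg (GM.ev₂ Q) hB
    rw [map_mul, map_mul, h3, zero_mul] at e2
    refine (mul_eq_zero.1 e2).resolve_left fun e3 => ?_
    have e4 : GM.ev₂ Q (Polynomial.C (δ ^ s)) = δ.eval Q.1 ^ s := by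
      simp [GM.ev₂]
    rw [e4] at e3
    have e5 : δ.eval Q.1 = 0 := eq_zero_of_pow_eq_zero e3
    rw [e5, L.zero] at h4
    exact zero_ne_one h4

/-- **The moving lemma (LA) in a chart.** `P c` is the point above `c` on the sheet of the root `w₀`; `q`, `q'` are congruent
modulo `π ^ (s + u)`. `l = 1`: the difference of the cycles is a displacement of level `s` modulo rational equivalence; `l`
prime: it is `l` times one. -/
theorem la {M : IntermediateField K Ω} [FiniteDimensional K M] {ρ n : ℕ}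
    {g : Polynomial (Polynomial Ω)} {δ : Polynomial Ω} {A : Fin N → Polynomial (Polynomial Ω)}
    (hC : Cht f L M ρ n g δ A) {π : Ω} (hM : π ∈ M) (h0 : 0 < L.nm π) (h1 : L.nm π < 1)
    (hπ : ∀ x ∈ M, x ≠ 0 → ∃ k : ℤ, L.nm x = L.nm π ^ k) (hδ : L.nm (δ.eval 0) = 1) {w₀ : Ω}
    (hw : w₀ ∈ M) (hw1 : L.nm w₀ ≤ 1) (hw0 : L.nm (GM.ev₂ (0, w₀) g) < 1)
    {P : Ω → (Xf f).pt Ω} (hP : ∀ c, L.nm c < 1 → ∃ w, L.nm (w - w₀) < 1 ∧
      GM.ev₂ (c, w) g = 0 ∧ Co (P c) fun j => GM.ev₂ (c, w) (A j)) {q q' : Polynomial Ω}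
    (hq : Dpo L M q) (hq' : Dpo L M q') (hd : q.natDegree = q'.natDegree) {l u s : ℕ}
    (hs : (l = 1 ∧ u = 0 ∧ s ≠ 0) ∨
      (l.Prime ∧ L.nm (l : Ω) = L.nm π ^ u ∧ u < (l - 1) * s))
    (hqq : ∀ i, L.nm (q.coeff i - q'.coeff i) ≤ L.nm π ^ (s + u)) :
    ∃ z ∈ Dsp L (Xf f) (Nrh f L (L.nm π ^ s)) M,
      rcy P q - rcy P q' - l • z ∈ (Xf f).ratEq M Ω := by
  refine GM.la_co (V := Xf f) (Cx := Co) (nr := Nrh f L (L.nm π ^ s)) (A := A) hC.mc hC.ig hC.iδ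
    hC.iA hC.bez (fun Q h1 h2 h3 h4 => hC.ex h1 h2 h3 h4) (fun p p' x h1 h2 => co_eq h1 h2)
    (fun γ _ p x h => co_act γ h) (fun Φ pt h1 h2 => hC.gpm h1 h2) hM h0 h1 hπ
    (fun p p' x x' h1 h2 h3 h4 h5 h6 h7 => ⟨x, x', h1, h2, h3, h4, h5, h6, h7⟩) hδ hw hw1 hw0 hP
    hq hq' hs hqq

end GX
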