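import Pool.Agent.Lib.MP_f80667_ag.Gx.XB
import Pool.Agent.Lib.MP_f80667_ag.Gx.La

/-! The moving lemma for the arcs in the space of a projection: three points (JEN), two points (D1). -/

open ZC BE PE CV IntermediateField Polynomial

namespace GX

section gen

variable {F : Type} [Field F] {N d : ℕ} {ι : Type} {f : ι → MvPolynomial (Fin N) F} {K Ω : Type}
  [Field K] [CharZero K] [Field Ω] [Algebra K Ω] [Algebra F K] [Algebra F Ω]
  [IsScalarTower F K Ω] [IsAlgClosure K Ω] {L : Ld K Ω} {ψ : Prj K N d}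

/-- `p` is a uniformizer of an unramified field. -/
theorem um_val [L.Unr] {M : IntermediateField K Ω} (hM : Um L M) :
    ∀ x ∈ M, x ≠ 0 → ∃ k : ℤ, L.nm x = L.nm (L.p : Ω) ^ k := by
  obtain ⟨N', hN', hM'⟩ := hM
  exact fun x hx h0 => Ld.ur_unr hN' (hM' hx) h0

theorem um_lt [L.Unr] {M : IntermediateField K Ω} (hM : Um L M) {x : Ω} (hx : x ∈ M)
    (h : L.nm x < 1) : L.nm x ≤ L.nm (L.p : Ω) := by
  obtain ⟨N', hN', hM'⟩ := hM
  have h1 := Ld.ur_lt hN' (hM' hx) (i := 0) (by rw [pow_zero]; exact h)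
  rwa [zero_add, pow_one] at h1

theorem dl_pt [L.Unr] {M : IntermediateField K Ω} [FiniteDimensional K M] {s : ℕ}
    {P P' : (Xf f).pt Ω} (hP : Fp (Xf f) M P) (hP' : Fp (Xf f) M P')
    (h : Nrh f L (L.nm (L.p : Ω) ^ s) P P') :
    (Finsupp.single P 1 - Finsupp.single P' 1 : (Xf f).pt Ω →₀ ℤ) ∈ Dl f L s M :=
  dsp_pt hP hP' h

omit [CharZero K] [IsAlgClosure K Ω] in
/-- The projection of a point over `M`. -/
theorem Pj.uv_iv (h : Pj f L ψ) {M : IntermediateField K Ω} {x : Fin N → Ω} (hx : Iv L M x) :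
    Iv L M (ψ.uv x) ∧ ψ.yv x ∈ M ∧ L.nm (ψ.yv x) ≤ 1 := by
  obtain ⟨h1, h2⟩ := h.uv_le fun j => (hx j).2
  exact ⟨fun r => ⟨lv_mem _ fun j => (hx j).1, h1 r⟩, lv_mem _ fun j => (hx j).1, h2⟩

omit [CharZero K] [IsAlgClosure K Ω] in
/-- The linear arc. -/
theorem lin_arc {M : IntermediateField K Ω} {c₁ c₂ : Fin (d + 1) → Ω} (h₁ : Iv L M c₁)
    (h₂ : Iv L M c₂) {q : Ω} (hq : q ∈ M) (hq0 : 0 < L.nm q)
    (h : ∀ r, L.nm (c₂ r - c₁ r) ≤ L.nm q) : ∃ a : Fin (d + 1) → Polynomial Ω, Arc L M a ∧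
      ∀ r c, (a r).eval c = (c₂ r - c₁ r) / q * c + c₁ r := by
  refine ⟨fun r => C ((c₂ r - c₁ r) / q) * X + C (c₁ r), fun i j => ?_, fun r c => ?_⟩
  · rw [coeff_add, coeff_C_mul, coeff_X, coeff_C]
    rcases j with _ | _ | j
    · simp only [if_neg (show ¬ (1 = 0) by omega), if_true, mul_zero, zero_add]
      exact h₁ i
    · simp only [zero_add, if_true, if_neg (show ¬ (1 = 0) by omega), mul_one, add_zero]
      refine ⟨div_mem (sub_mem (h₂ i).1 (h₁ i).1) hq, ?_⟩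
      rw [L.div, div_le_one hq0]
      exact h i
    · rw [if_neg (by omega), if_neg (by omega), mul_zero, add_zero]
      exact ⟨zero_mem M, by rw [L.zero]; exact zero_le_one⟩
  · rw [eval_add, eval_mul, eval_C, eval_X, eval_C]

/-- **LA** for an arc in the space of a projection. -/
theorem la_ch (h : Pj f L ψ) {M : IntermediateField K Ω} [FiniteDimensional K M] {π : Ω}
    (hM : π ∈ M) (h0 : 0 < L.nm π) (h1 : L.nm π < 1)
    (hπ : ∀ x ∈ M, x ≠ 0 → ∃ k : ℤ, L.nm x = L.nm π ^ k) {a : Fin (d + 1) → Polynomial Ω}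
    (ha : Arc L M a) {w₀ : Ω} (hw : w₀ ∈ M) (hw1 : L.nm w₀ ≤ 1)
    (hD : L.nm (MvPolynomial.aeval (fun r => (a r).eval 0) ψ.D) = 1)
    (hG : L.nm (pe (fun r => (a r).eval 0) w₀ ψ.G) < 1) {P : Ω → (Xf f).pt Ω}
    (hP : ∀ c, L.nm c < 1 → ∃ w, L.nm (w - w₀) < 1 ∧
      GM.ev₂ (c, w) (ga a ψ.G) = 0 ∧ Co (P c) fun j => GM.ev₂ (c, w) (ga a (ψ.A j)))
    {q q' : Polynomial Ω} (hq : Dpo L M q) (hq' : Dpo L M q') (hd : q.natDegree = q'.natDegree)
    {l u s : ℕ} (hs : (l = 1 ∧ u = 0 ∧ s ≠ 0) ∨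
      (l.Prime ∧ L.nm (l : Ω) = L.nm π ^ u ∧ u < (l - 1) * s))
    (hqq : ∀ i, L.nm (q.coeff i - q'.coeff i) ≤ L.nm π ^ (s + u)) :
    ∃ z ∈ Dsp L (Xf f) (Nrh f L (L.nm π ^ s)) M,
      rcy P q - rcy P q' - l • z ∈ (Xf f).ratEq M Ω := by
  refine la (ch_of h ha (ρ := Finset.univ.sup fun r => (a r).natDegree)
    fun r => Finset.le_sup (f := fun r => (a r).natDegree) (Finset.mem_univ r)) hM h0 h1 hπ ?_ hw
    hw1 ?_ hP hq hq' hd hs hqq
  · rw [GM.ae_eval (F := K)]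
    exact hD
  · rw [ga_ev]
    exact hG

end gen

private theorem xe_coeff {Ω : Type} [Field Ω] (s t : Ω) (i : ℕ) :
    ((X - C s) * (X - C t) : Polynomial Ω).coeff i =
      if i = 0 then s * t else if i = 1 then -(s + t) else if i = 2 then 1 else 0 := by
  have h1 : ((X - C s) * (X - C t) : Polynomial Ω) = X ^ 2 + C (-(s + t)) * X + C (s * t) := by
    rw [C_neg, C_add, C_mul]
    ring
  rw [h1, coeff_add, coeff_add, coeff_X_pow, coeff_C_mul, coeff_X, coeff_C]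
  by_cases h0 : i = 0
  · subst h0
    simp
  · by_cases h2 : i = 1
    · subst h2
      simp
    · by_cases h3 : i = 2
      · subst h3
        simp
      · rw [if_neg h3, if_neg (Ne.symm h2), if_neg h0, if_neg h0, if_neg h2]
        ring

private theorem xe_deg {Ω : Type} [Field Ω] (s t : Ω) :
    ((X - C s) * (X - C t) : Polynomial Ω).natDegree = 2 := by
  rw [natDegree_mul (X_sub_C_ne_zero s) (X_sub_C_ne_zero t), natDegree_X_sub_C,
    natDegree_X_sub_C]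

private theorem xe_dpo {K Ω : Type} [Field K] [Field Ω] [Algebra K Ω]
    {L : Ld K Ω} {M : IntermediateField K Ω} {s t : Ω}
    (hs : s ∈ M) (ht : t ∈ M) (hs1 : L.nm s < 1) (ht1 : L.nm t < 1) :
    Dpo L M ((X - C s) * (X - C t)) where
  monic := (monic_X_sub_C s).mul (monic_X_sub_C t)
  mem i := by
    rw [xe_coeff]
    split_ifs
    · exact mul_mem hs ht
    · exact neg_mem (add_mem hs ht)
    · exact one_mem M
    · exact zero_mem M
  lt i hi := by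
    rw [xe_deg] at hi
    rw [xe_coeff]
    split_ifs
    · rw [L.mul]
      exact mul_lt_one_of_nonneg_of_lt_one_left (L.nonneg _) hs1 ht1.le
    · rw [L.neg]
      exact (L.add _ _).trans_lt (max_lt hs1 ht1)
    · omega
    · rw [L.zero]
      exact zero_lt_one

private theorem xe_dpo1 {K Ω : Type} [Field K] [Field Ω] [Algebra K Ω]
    {L : Ld K Ω} {M : IntermediateField K Ω} {c : Ω} (hc : c ∈ M) (hc1 : L.nm c < 1) :
    Dpo L M (X - C c) where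
  monic := monic_X_sub_C c
  mem i := by
    rw [coeff_sub, coeff_X, coeff_C]
    split_ifs
    · exact sub_mem (one_mem M) hc
    · exact sub_mem (one_mem M) (zero_mem M)
    · exact sub_mem (zero_mem M) hc
    · exact sub_mem (zero_mem M) (zero_mem M)
  lt i hi := by
    rw [natDegree_X_sub_C] at hi
    obtain rfl : i = 0 := by omega
    rw [coeff_sub, coeff_X_zero, coeff_C_zero, zero_sub, L.neg]
    exact hc1

private theorem xe_two {K Ω : Type} [Field K] [Field Ω] [Algebra K Ω]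
    {L : Ld K Ω} (hp : 2 < L.p) : L.nm (2 : Ω) = 1 := by
  have h1 : ¬ L.p ∣ 2 := fun h => absurd (Nat.le_of_dvd two_pos h) (not_le.2 hp)
  have h2 := L.nat_unit h1
  rwa [Nat.cast_ofNat] at h2

private theorem xe_half {K Ω : Type} [Field K] [Field Ω] [Algebra K Ω]
    {L : Ld K Ω} (hp : 2 < L.p) (x : Ω) : L.nm (x / 2) = L.nm x := by
  rw [L.div, xe_two hp, div_one]

section main

variable {F : Type} [Field F] {N d : ℕ} {ι : Type} {f : ι → MvPolynomial (Fin N) F} {K Ω : Type}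
  [Field K] [CharZero K] [Field Ω] [Algebra K Ω] [Algebra F K] [Algebra F Ω]
  [IsScalarTower F K Ω] [IsAlgClosure K Ω] {L : Ld K Ω} {ψ : Prj K N d}

/-- **JEN.** -/
theorem x_jen [L.Unr] (hψ : Pj f L ψ) (hp : 2 < L.p)
    {M : IntermediateField K Ω} (hM : Um L M) {x₁ x₂ x₃ : Fin N → Ω} (h₁ : Iv L M x₁)
    (h₂ : Iv L M x₂) (h₃ : Iv L M x₃) (hD : L.nm (MvPolynomial.aeval (ψ.uv x₁) ψ.D) = 1)
    (h₁₂ : ∀ i, L.nm (x₂ i - x₁ i) < 1) (h₁₃ : ∀ i, L.nm (x₃ i - x₁ i) < 1)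
    (h : ∀ r, L.nm (2 * ψ.uv x₃ r - ψ.uv x₁ r - ψ.uv x₂ r) ≤ L.nm (L.p : Ω) ^ 2)
    {P₁ P₂ P₃ : (Xf f).pt Ω} (hP₁ : Co P₁ x₁) (hP₂ : Co P₂ x₂) (hP₃ : Co P₃ x₃) :
    (Finsupp.single P₁ 1 + Finsupp.single P₂ 1 - Finsupp.single P₃ 2 : (Xf f).pt Ω →₀ ℤ) ∈
      Dl f L 2 M ⊔ (Xf f).ratEq M Ω := by
  have hfd : FiniteDimensional K M := hM.fd
  have hpos := L.p_pos
  have hp0 : (L.p : Ω) ≠ 0 := L.ne_zero hpos
  have hle : L.nm (L.p : Ω) ≤ 1 := L.lt.le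
  have hpM : (L.p : Ω) ∈ M := IntermediateField.natCast_mem M L.p
  have h2M : (2 : Ω) ∈ M := by
    have h := IntermediateField.natCast_mem M 2
    rwa [Nat.cast_ofNat] at h
  have h2n := xe_two hp
  have h20 : (2 : Ω) ≠ 0 := L.ne_zero (by rw [h2n]; exact zero_lt_one)
  have hsq : L.nm (L.p : Ω) ^ 2 ≤ L.nm (L.p : Ω) := by
    rw [pow_two]
    exact mul_le_of_le_one_left hpos.le hle
  have hsq1 : L.nm (L.p : Ω) ^ 2 < 1 := hsq.trans_lt L.lt
  have h00 : L.nm (0 : Ω) < 1 := by rw [L.zero]; exact zero_lt_one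
  have hx1 : ∀ i, L.nm (x₁ i) ≤ 1 := fun i => (h₁ i).2
  have hx2 : ∀ i, L.nm (x₂ i) ≤ 1 := fun i => (h₂ i).2
  have hx3 : ∀ i, L.nm (x₃ i) ≤ 1 := fun i => (h₃ i).2
  obtain ⟨hu1, hy1, hy1'⟩ := hψ.uv_iv h₁
  obtain ⟨hu2, -, -⟩ := hψ.uv_iv h₂
  obtain ⟨hu3, -, -⟩ := hψ.uv_iv h₃
  have hDne : MvPolynomial.aeval (ψ.uv x₁) ψ.D ≠ 0 := L.ne_zero (by rw [hD]; exact zero_lt_one)
  have hu12 : ∀ r, L.nm (ψ.uv x₂ r - ψ.uv x₁ r) ≤ L.nm (L.p : Ω) := fun r =>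
    um_lt hM (sub_mem (hu2 r).1 (hu1 r).1) (lv_lt (hψ.iu r) h₁₂)
  obtain ⟨a, hArc, hae⟩ := lin_arc hu1 hu2 hpM hpos hu12
  have ha0 : (fun r => (a r).eval 0) = ψ.uv x₁ := funext fun r => by rw [hae]; ring
  have hap : ∀ r, (a r).eval (L.p : Ω) = ψ.uv x₂ r := fun r => by
    rw [hae, div_mul_cancel₀ _ hp0]
    ring
  have hah : ∀ r, (a r).eval ((L.p : Ω) / 2) = (ψ.uv x₁ r + ψ.uv x₂ r) / 2 := fun r => by
    rw [hae]
    field_simp
    ring
  have hD0 : L.nm (MvPolynomial.aeval (fun r => (a r).eval 0) ψ.D) = 1 := by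
    rw [ha0]
    exact hD
  have hG0 : L.nm (pe (fun r => (a r).eval 0) (ψ.yv x₁) ψ.G) < 1 := by
    rw [ha0, (hψ.pt_eq (co_ne hP₁) (co_zero hP₁) hDne).1]
    exact h00
  obtain ⟨P, hPa, hPb, hPc, hPd⟩ := exists_br hψ hArc hy1 hy1' hD0 hG0
  have hP0 : P₁ = P 0 := hPc 0 h00 P₁ x₁ hP₁ hx1 (fun r => (congrFun ha0 r).symm)
    (by rw [sub_self]; exact h00)
  have hPp : P₂ = P (L.p : Ω) := hPc _ L.lt P₂ x₂ hP₂ hx2 (fun r => (hap r).symm)
    (lv_lt hψ.iy h₁₂)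
  have hph : L.nm ((L.p : Ω) / 2) < 1 := by
    rw [xe_half hp]
    exact L.lt
  obtain ⟨z, hz, hz'⟩ := la_ch hψ hpM hpos L.lt (um_val hM) hArc hy1 hy1' hD0 hG0 hPa
    (xe_dpo (zero_mem M) hpM h00 L.lt)
    (xe_dpo (div_mem hpM h2M) (div_mem hpM h2M) hph hph)
    (by rw [xe_deg, xe_deg]) (l := 1) (u := 0) (s := 2) (Or.inl ⟨rfl, rfl, two_ne_zero⟩)
    (fun i => by
      rw [xe_coeff, xe_coeff, add_zero]
      split_ifs
      · have h5 : (0 : Ω) * L.p - L.p / 2 * (L.p / 2) = -(L.p * L.p / (2 * 2)) := by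
          field_simp
          ring
        rw [h5, L.neg, L.div, L.mul, L.mul, h2n, pow_two]
        simp
      · have h5 : -(0 + (L.p : Ω)) - -((L.p : Ω) / 2 + L.p / 2) = 0 := by
          field_simp
          ring
        rw [h5, L.zero]
        exact pow_nonneg hpos.le 2
      · rw [sub_self, L.zero]
        exact pow_nonneg hpos.le 2
      · rw [sub_self, L.zero]
        exact pow_nonneg hpos.le 2)
  rw [rcy_mul _ (X_sub_C_ne_zero _) (X_sub_C_ne_zero _),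
    rcy_mul _ (X_sub_C_ne_zero _) (X_sub_C_ne_zero _), rcy_X_sub, rcy_X_sub, rcy_X_sub, ← hP0,
    ← hPp, one_smul] at hz'
  -- the midpoint
  obtain ⟨x, hPx, hx, hxp, hux, hyx⟩ := hPd _ hph
  have hu3x : ∀ r, L.nm (ψ.uv x₃ r - ψ.uv x r) ≤ L.nm (L.p : Ω) ^ 2 := fun r => by
    have h5 : ψ.uv x₃ r - ψ.uv x r = (2 * ψ.uv x₃ r - ψ.uv x₁ r - ψ.uv x₂ r) / 2 := by
      rw [hux, hah]
      field_simp
      ring
    rw [h5, xe_half hp]
    exact h r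
  have hD3 : L.nm (MvPolynomial.aeval (ψ.uv x₃) ψ.D) = 1 :=
    hψ.D_close (fun r => (hu1 r).2) (fun r => (hu3 r).2) (fun r => by
      have h5 := lv_lt (hψ.iu r) h₁₃
      rw [L.sub_comm] at h5
      exact h5) hD
  have hxx : ∀ j, L.nm (x j - x₃ j) < 1 := fun j => by
    rw [L.sub_comm]
    refine hψ.sheet hx3 hx (co_ne hP₃) (co_ne hPx) (co_zero hP₃) (co_zero hPx) hD3
      (fun r => (hu3x r).trans_lt hsq1) ?_ j
    have h5 : ψ.yv x₃ - ψ.yv x = (ψ.yv x₃ - ψ.yv x₁) - (ψ.yv x - ψ.yv x₁) := by ring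
    rw [h5]
    exact (L.sub _ _).trans_lt (max_lt (lv_lt hψ.iy h₁₃) hyx)
  have hnr := hψ.near hx3 hx (co_zero hP₃) (co_zero hPx) hD3 hxx (pow_nonneg hpos.le 2)
    fun r => by
      rw [L.sub_comm]
      exact hu3x r
  have hn : Nrh f L (L.nm (L.p : Ω) ^ 2) P₃ (P ((L.p : Ω) / 2)) :=
    nrh_symm (nrh_mk hsq1 hPx hP₃ hx hx3 hxp hnr)
  have hF3 : Fp (Xf f) M P₃ := fp_co hP₃ fun i => (h₃ i).1
  have hFh : Fp (Xf f) M (P ((L.p : Ω) / 2)) := by
    intro γ hγ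
    rw [hPb γ hγ _ hph]
    congr 1
    exact (IntermediateField.mem_fixingSubgroup_iff M γ).1 hγ _ (div_mem hpM h2M)
  have hd := dl_pt hF3 hFh hn
  -- the sum
  have hfin : (Finsupp.single P₁ 1 + Finsupp.single P₂ 1 - Finsupp.single P₃ 2 :
      (Xf f).pt Ω →₀ ℤ) = (z - (2 : ℤ) • (Finsupp.single P₃ 1 -
        Finsupp.single (P ((L.p : Ω) / 2)) 1)) +
      (Finsupp.single P₁ 1 + Finsupp.single P₂ 1 - (Finsupp.single (P ((L.p : Ω) / 2)) 1 +
        Finsupp.single (P ((L.p : Ω) / 2)) 1) - z) := by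
    have h5 : (Finsupp.single P₃ 2 : (Xf f).pt Ω →₀ ℤ) = (2 : ℤ) • Finsupp.single P₃ 1 := by
      rw [Finsupp.smul_single, smul_eq_mul, mul_one]
    rw [h5, smul_sub, two_smul ℤ (Finsupp.single (P ((L.p : Ω) / 2)) (1 : ℤ))]
    abel
  rw [hfin]
  exact AddSubgroup.add_mem_sup (sub_mem hz (zsmul_mem hd 2)) hz'

/-- **D1** for two points. -/
theorem d1_two [L.Unr] (hψ : Pj f L ψ) {M : IntermediateField K Ω} (hM : Um L M)
    {x x' : Fin N → Ω} (hx : Iv L M x) (hx' : Iv L M x')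
    (hD : L.nm (MvPolynomial.aeval (ψ.uv x) ψ.D) = 1)
    {P P' : (Xf f).pt Ω} (hP : Co P x) (hP' : Co P' x') {l u s : ℕ} (hlp : l.Prime)
    (hu : L.nm (l : Ω) = L.nm (L.p : Ω) ^ u) (hus : u < (l - 1) * s)
    (h : ∀ i, L.nm (x' i - x i) ≤ L.nm (L.p : Ω) ^ (s + u)) :
    ∃ z ∈ Dl f L s M, (Finsupp.single P' 1 - Finsupp.single P 1 : (Xf f).pt Ω →₀ ℤ) - l • z ∈
      (Xf f).ratEq M Ω := by
  have hfd : FiniteDimensional K M := hM.fd
  have hpos := L.p_pos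
  have hp0 : (L.p : Ω) ≠ 0 := L.ne_zero hpos
  have hpM : (L.p : Ω) ∈ M := IntermediateField.natCast_mem M L.p
  have h00 : L.nm (0 : Ω) < 1 := by rw [L.zero]; exact zero_lt_one
  have hs0 : s ≠ 0 := by
    rintro rfl
    omega
  obtain ⟨e, he⟩ : ∃ e : Ω, e = (L.p : Ω) ^ (s + u) := ⟨_, rfl⟩
  have heM : e ∈ M := by
    rw [he]
    exact pow_mem hpM _
  have he0 : e ≠ 0 := by
    rw [he]
    exact pow_ne_zero _ hp0
  have hen : L.nm e = L.nm (L.p : Ω) ^ (s + u) := by rw [he, L.pow]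
  have hepos : 0 < L.nm e := by
    rw [hen]
    exact pow_pos hpos _
  have he1 : L.nm e < 1 := by
    rw [hen]
    exact pow_lt_one₀ hpos.le L.lt (by omega)
  have hx1 : ∀ i, L.nm (x i) ≤ 1 := fun i => (hx i).2
  obtain ⟨hux, hyx, hyx'⟩ := hψ.uv_iv hx
  obtain ⟨hux', -, -⟩ := hψ.uv_iv hx'
  have hDne : MvPolynomial.aeval (ψ.uv x) ψ.D ≠ 0 := L.ne_zero (by rw [hD]; exact zero_lt_one)
  have h' : ∀ i, L.nm (x' i - x i) ≤ L.nm e := fun i => by
    rw [hen]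
    exact h i
  have huu : ∀ r, L.nm (ψ.uv x' r - ψ.uv x r) ≤ L.nm e := fun r =>
    lv_close (hψ.iu r) hepos.le h'
  obtain ⟨a, hArc, hae⟩ := lin_arc hux hux' heM hepos huu
  have ha0 : (fun r => (a r).eval 0) = ψ.uv x := funext fun r => by rw [hae]; ring
  have hap : ∀ r, (a r).eval e = ψ.uv x' r := fun r => by
    rw [hae, div_mul_cancel₀ _ he0]
    ring
  have hD0 : L.nm (MvPolynomial.aeval (fun r => (a r).eval 0) ψ.D) = 1 := by
    rw [ha0]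
    exact hD
  have hG0 : L.nm (pe (fun r => (a r).eval 0) (ψ.yv x) ψ.G) < 1 := by
    rw [ha0, (hψ.pt_eq (co_ne hP) (co_zero hP) hDne).1]
    exact h00
  obtain ⟨Q, hQa, -, hQc, -⟩ := exists_br hψ hArc hyx hyx' hD0 hG0
  have hP0 : P = Q 0 := hQc 0 h00 P x hP hx1 (fun r => (congrFun ha0 r).symm)
    (by rw [sub_self]; exact h00)
  have hPe : P' = Q e := hQc _ he1 P' x' hP' (fun i => (hx' i).2) (fun r => (hap r).symm)
    ((lv_close hψ.iy hepos.le h').trans_lt he1)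
  obtain ⟨z, hz, hz'⟩ := la_ch hψ hpM hpos L.lt (um_val hM) hArc hyx hyx' hD0 hG0 hQa
    (xe_dpo1 heM he1) (xe_dpo1 (zero_mem M) h00)
    (by rw [natDegree_X_sub_C, natDegree_X_sub_C]) (l := l) (u := u) (s := s)
    (Or.inr ⟨hlp, hu, hus⟩)
    (fun i => by
      rw [coeff_sub, coeff_sub, coeff_C, coeff_C]
      by_cases hi : i = 0
      · rw [if_pos hi, if_pos hi, ← hen]
        have h5 : (X : Polynomial Ω).coeff i - e - ((X : Polynomial Ω).coeff i - 0) = -e := by ring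
        rw [h5, L.neg]
      · rw [if_neg hi, if_neg hi, sub_self, L.zero]
        exact pow_nonneg hpos.le _)
  rw [rcy_X_sub, rcy_X_sub, ← hP0, ← hPe] at hz'
  exact ⟨z, hz, hz'⟩

end main

end GX
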