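import Pool.Agent.Lib.MP_f80667_ag.Gx.PjE

/-! Descent of the relations. -/

open MvPolynomial

namespace GX

private theorem pjkb_lin {F κ : Type} [Field F] [Field κ] [Algebra F κ] {σ : Type}
    (l : κ →ₗ[F] F) :
    ∃ L : MvPolynomial σ κ →ₗ[F] MvPolynomial σ F, ∀ g m, coeff m (L g) = l (coeff m g) := by
  choose L hL using fun g : MvPolynomial σ κ => exists_lc l g
  refine ⟨{ toFun := L, map_add' := fun x y => ?_, map_smul' := fun c x => ?_ }, hL⟩
  · ext m
    rw [hL, coeff_add, map_add, coeff_add, hL, hL]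
  · ext m
    rw [hL, coeff_smul, map_smul, RingHom.id_apply, coeff_smul, hL]

private theorem pjkb_mul {F κ : Type} [Field F] [Field κ] [Algebra F κ] {σ : Type}
    (l : κ →ₗ[F] F) (L : MvPolynomial σ κ →ₗ[F] MvPolynomial σ F)
    (hL : ∀ g m, coeff m (L g) = l (coeff m g))
    (a : MvPolynomial σ κ) (q : MvPolynomial σ F) :
    L (a * map (algebraMap F κ) q) = L a * q := by
  classical
  ext m
  rw [hL, coeff_mul, coeff_mul, map_sum]
  refine Finset.sum_congr rfl fun x _ => ?_
  rw [hL, coeff_map, mul_comm (coeff x.1 a), ← Algebra.smul_def, map_smul, smul_eq_mul,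
    mul_comm]

private theorem pjkb_mon {F κ : Type} [Field F] [Field κ] [Algebra F κ] {σ : Type}
    (l : κ →ₗ[F] F) (L : MvPolynomial σ κ →ₗ[F] MvPolynomial σ F)
    (hL : ∀ g m, coeff m (L g) = l (coeff m g)) (u : σ →₀ ℕ) (c : κ) :
    L (monomial u c) = monomial u (l c) := by
  classical
  ext m
  rw [hL, coeff_monomial, coeff_monomial]
  split_ifs
  · rfl
  · exact map_zero l

private theorem pjkb_lf {F κ : Type} [Field F] [Field κ] [Algebra F κ] {N : ℕ} (u : Fin N → F) :
    lf (fun j => algebraMap F κ (u j)) = map (algebraMap F κ) (lf u) := by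
  unfold lf
  rw [map_sum]
  refine Finset.sum_congr rfl fun j _ => ?_
  rw [map_mul, map_C, map_X]

private theorem pjkb_cu {F κ : Type} [Field F] [Field κ] [Algebra F κ] {N d : ℕ}
    (l : κ →ₗ[F] F)
    (L : MvPolynomial (Fin (d + 1)) κ →ₗ[F] MvPolynomial (Fin (d + 1)) F)
    (hL : ∀ g m, coeff m (L g) = l (coeff m g))
    (M : MvPolynomial (Fin N) κ →ₗ[F] MvPolynomial (Fin N) F)
    (hM : ∀ g m, coeff m (M g) = l (coeff m g)) (U : Fin (d + 1) → Fin N → F)
    (a : MvPolynomial (Fin (d + 1)) κ) :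
    M (cu (fun r j => algebraMap F κ (U r j)) a) = cu U (L a) := by
  induction a using MvPolynomial.induction_on' with
  | monomial u c =>
    have h1 : cu (fun r j => algebraMap F κ (U r j)) (monomial u c) =
        C c * map (algebraMap F κ) (u.prod fun r k => lf (U r) ^ k) := by
      unfold cu
      rw [aeval_monomial, map_finsuppProd]
      congr 1
      refine Finsupp.prod_congr fun r _ => ?_
      rw [pjkb_lf, map_pow]
    have h2 : cu U (monomial u (l c)) = C (l c) * (u.prod fun r k => lf (U r) ^ k) := by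
      unfold cu
      rw [aeval_monomial]
      rfl
    have h3 : M (C c) = C (l c) := pjkb_mon l M hM 0 c
    rw [pjkb_mon l L hL, h1, h2, pjkb_mul l M hM, h3]
  | add p q hp hq => rw [map_add, map_add, hp, hq, map_add, map_add]

private theorem pjkb_ex {F κ : Type} [Field F] [Field κ] [Algebra F κ] {σ : Type}
    {D : MvPolynomial σ κ} {c : σ → κ} (hD : eval c D ≠ 0) :
    ∃ l : κ →ₗ[F] F, ∀ D0 : MvPolynomial σ F, (∀ m, coeff m D0 = l (coeff m D)) →
      aeval c D0 ≠ 0 := by
  classical
  by_contra hcon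
  push Not at hcon
  let b := Module.Basis.ofVectorSpace F κ
  have hz : ∀ l : κ →ₗ[F] F,
      ∑ m ∈ D.support, algebraMap F κ (l (coeff m D)) * ∏ i ∈ m.support, c i ^ m i = 0 := by
    intro l
    obtain ⟨D0, h0, h1⟩ := hcon l
    rw [← h1, aeval_def, eval₂_eq]
    have hsub : D0.support ⊆ D.support := by
      intro m hm
      rw [mem_support_iff] at hm ⊢
      intro h2
      apply hm
      rw [h0, h2, map_zero]
    rw [← Finset.sum_subset hsub]
    · refine Finset.sum_congr rfl fun m _ => ?_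
      rw [h0]
    · intro m _ hm
      rw [← h0, notMem_support_iff.1 hm, map_zero, zero_mul]
  let T : Finset _ := D.support.biUnion fun m => (b.repr (coeff m D)).support
  have hc : ∀ m ∈ D.support, coeff m D = ∑ i ∈ T, algebraMap F κ (b.coord i (coeff m D)) * b i := by
    intro m hm
    have h1 := b.linearCombination_repr (coeff m D)
    rw [Finsupp.linearCombination_apply, Finsupp.sum_of_support_subset (s := T)] at h1
    · conv_lhs => rw [← h1]
      refine Finset.sum_congr rfl fun i _ => ?_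
      rw [Algebra.smul_def]
      rfl
    · exact Finset.subset_biUnion_of_mem (fun m => (b.repr (coeff m D)).support) hm
    · intro i _
      exact zero_smul _ _
  apply hD
  rw [eval_eq]
  have h2 : ∑ m ∈ D.support, coeff m D * ∏ i ∈ m.support, c i ^ m i =
      ∑ i ∈ T, (∑ m ∈ D.support, algebraMap F κ (b.coord i (coeff m D)) *
        ∏ i ∈ m.support, c i ^ m i) * b i := by
    simp only [Finset.sum_mul]
    rw [Finset.sum_comm]
    refine Finset.sum_congr rfl fun m hm => ?_
    conv_lhs => rw [hc m hm]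
    rw [Finset.sum_mul]
    refine Finset.sum_congr rfl fun i _ => ?_
    ring
  rw [h2]
  refine Finset.sum_eq_zero fun i _ => ?_
  rw [hz, zero_mul]

/-- **Descent.** Proof: there is an `F`-linear functional `l : κ → F` such that the coefficientwise image `D0` of `D` is not `0` at `c` (write the coefficients of `D` in a basis `e_i` of `κ / F`: `D = ∑ e_i D_i`); `jf_coeff`. -/
theorem desc {F κ : Type} [Field F] [Field κ] [Algebra F κ] {N d m : ℕ} {ι : Type}
    {f : ι → MvPolynomial (Fin N) F} {U : Fin (d + 1) → Fin N → F} {g v : MvPolynomial (Fin N) F}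
    {D : MvPolynomial (Fin (d + 1)) κ} {a : Fin m → MvPolynomial (Fin (d + 1)) κ}
    (h : cu (fun r j => algebraMap F κ (U r j)) D * map (algebraMap F κ) g -
      ∑ i, cu (fun r j => algebraMap F κ (U r j)) (a i) * map (algebraMap F κ) v ^ (i : ℕ) ∈
        jf κ f) {c : Fin (d + 1) → κ} (hD : eval c D ≠ 0) :
    ∃ (D0 : MvPolynomial (Fin (d + 1)) F) (a0 : Fin m → MvPolynomial (Fin (d + 1)) F),
      aeval c D0 ≠ 0 ∧
        cu U D0 * g - ∑ i, cu U (a0 i) * v ^ (i : ℕ) ∈ Ideal.span (Set.range f) := by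
  obtain ⟨l, hl⟩ := pjkb_ex (F := F) hD
  obtain ⟨L, hL⟩ := pjkb_lin (σ := Fin (d + 1)) l
  obtain ⟨M, hM⟩ := pjkb_lin (σ := Fin N) l
  refine ⟨L D, fun i => L (a i), hl _ (hL D), jf_coeff l h fun m => ?_⟩
  rw [← hM]
  congr 1
  rw [map_sub, map_sum, pjkb_mul l M hM, pjkb_cu l L hL M hM]
  congr 1
  refine Finset.sum_congr rfl fun i _ => ?_
  rw [← map_pow, pjkb_mul l M hM, pjkb_cu l L hL M hM]

end GX
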