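import Pool.Agent.Lib.MP_f80667_ag.Gx.Al

/-! Values of polynomials in `R[c_0, .., c_d][Y]`. -/

open MvPolynomial

namespace GX

section ring

variable {R S : Type} [CommRing R] [CommRing S] [Algebra R S] {N d : ℕ}

theorem pe_C (c : Fin (d + 1) → S) (w : S) (a : MvPolynomial (Fin (d + 1)) R) :
    pe c w (Polynomial.C a) = aeval c a := by
  rw [pe, Polynomial.coe_eval₂RingHom, Polynomial.eval₂_C]
  rfl

theorem pe_X (c : Fin (d + 1) → S) (w : S) :
    pe c w (Polynomial.X : Polynomial (MvPolynomial (Fin (d + 1)) R)) = w := by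
  rw [pe, Polynomial.coe_eval₂RingHom, Polynomial.eval₂_X]

/-- The value is the sum of the values of the terms. -/
theorem pe_sum (c : Fin (d + 1) → S) (w : S) (P : Polynomial (MvPolynomial (Fin (d + 1)) R)) :
    pe c w P = ∑ j ∈ Finset.range (P.natDegree + 1), aeval c (P.coeff j) * w ^ j := by
  rw [pe, Polynomial.coe_eval₂RingHom, Polynomial.eval₂_eq_sum_range]
  rfl

/-- Homomorphisms. -/
theorem pe_hom {S' : Type} [CommRing S'] [Algebra R S'] (φ : S →ₐ[R] S')
    (c : Fin (d + 1) → S) (w : S) (P : Polynomial (MvPolynomial (Fin (d + 1)) R)) :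
    φ (pe c w P) = pe (fun r => φ (c r)) (φ w) P := by
  rw [pe_sum, pe_sum, map_sum]
  refine Finset.sum_congr rfl fun j _ => ?_
  rw [map_mul, map_pow, ← AlgHom.comp_apply, MvPolynomial.comp_aeval]

/-- Change of the ring of coefficients. -/
theorem pe_map {R' : Type} [CommRing R'] [Algebra R R'] [Algebra R' S] [IsScalarTower R R' S]
    (c : Fin (d + 1) → S) (w : S) (P : Polynomial (MvPolynomial (Fin (d + 1)) R)) :
    pe c w (P.map (MvPolynomial.map (algebraMap R R'))) = pe c w P := by
  rw [pe, pe, Polynomial.coe_eval₂RingHom, Polynomial.coe_eval₂RingHom, Polynomial.eval₂_map]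
  congr 1
  refine RingHom.ext fun a => ?_
  exact MvPolynomial.aeval_map_algebraMap R' c a

theorem lf_aeval (a : Fin N → R) (x : Fin N → S) : aeval x (lf a) = lv a x := by
  rw [lf, lv, map_sum]
  refine Finset.sum_congr rfl fun j _ => ?_
  rw [map_mul, aeval_X, ← MvPolynomial.algebraMap_eq, AlgHom.commutes]

/-- The value of `cp P` at `x` is the value of `P` at `(u (x), y (x))`. -/
theorem cp_aeval (ψ : Prj R N d) (P : Polynomial (MvPolynomial (Fin (d + 1)) R))
    (x : Fin N → S) : aeval x (ψ.cp P) = pe (ψ.uv x) (ψ.yv x) P := by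
  rw [Prj.cp, pe_hom]
  simp only [lf_aeval]
  rfl

/-- The value of a composition. -/
theorem pe_aeval (A : Fin N → Polynomial (MvPolynomial (Fin (d + 1)) R))
    (F : MvPolynomial (Fin N) R) (c : Fin (d + 1) → S) (w : S) :
    pe c w (aeval A F) = aeval (fun j => pe c w (A j)) F := by
  rw [MvPolynomial.aeval_def, MvPolynomial.aeval_def, MvPolynomial.eval₂_comp_left]
  have h : (pe c w).comp (algebraMap R (Polynomial (MvPolynomial (Fin (d + 1)) R))) =
      algebraMap R S := by
    refine RingHom.ext fun a => ?_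
    rw [RingHom.comp_apply, Polynomial.algebraMap_apply, pe_C, AlgHom.commutes]
  rw [h]
  rfl

theorem lv_add (a : Fin N → R) (x y : Fin N → S) : lv a (x + y) = lv a x + lv a y := by
  rw [lv, lv, lv, ← Finset.sum_add_distrib]
  exact Finset.sum_congr rfl fun j _ => mul_add _ _ _

theorem lv_smul (a : Fin N → R) (x : Fin N → S) (t : S) : lv a (t • x) = t * lv a x := by
  rw [lv, lv, Finset.mul_sum]
  exact Finset.sum_congr rfl fun j _ => mul_left_comm _ _ _

theorem uv_add (ψ : Prj R N d) (x y : Fin N → S) : ψ.uv (x + y) = ψ.uv x + ψ.uv y :=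
  funext fun _ => lv_add _ _ _

theorem uv_smul (ψ : Prj R N d) (x : Fin N → S) (t : S) : ψ.uv (t • x) = t • ψ.uv x :=
  funext fun _ => lv_smul _ _ _

theorem yv_add (ψ : Prj R N d) (x y : Fin N → S) : ψ.yv (x + y) = ψ.yv x + ψ.yv y :=
  lv_add _ _ _

theorem yv_smul (ψ : Prj R N d) (x : Fin N → S) (t : S) : ψ.yv (t • x) = t * ψ.yv x :=
  lv_smul _ _ _

/-- Linear forms after a change of the ring. -/
theorem lv_map {R' : Type} [CommRing R'] [Algebra R R'] [Algebra R' S] [IsScalarTower R R' S]
    (a : Fin N → R) (x : Fin N → S) :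
    lv (fun j => algebraMap R R' (a j)) x = lv a x := by
  rw [lv, lv]
  refine Finset.sum_congr rfl fun j _ => ?_
  rw [← IsScalarTower.algebraMap_apply R R' S]

theorem uv_map {R' : Type} [CommRing R'] [Algebra R R'] [Algebra R' S] [IsScalarTower R R' S]
    (ψ : Prj R N d) (x : Fin N → S) : (ψ.map (algebraMap R R')).uv x = ψ.uv x :=
  funext fun _ => lv_map _ _

theorem yv_map {R' : Type} [CommRing R'] [Algebra R R'] [Algebra R' S] [IsScalarTower R R' S]
    (ψ : Prj R N d) (x : Fin N → S) : (ψ.map (algebraMap R R')).yv x = ψ.yv x :=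
  lv_map _ _

/-- The value of a homogeneous polynomial. -/
theorem aeval_smul_hom {σ : Type} {e : ℕ} {F : MvPolynomial σ R} (hF : F.IsHomogeneous e)
    (x : σ → S) (t : S) : aeval (t • x) F = t ^ e * aeval x F := by
  rw [MvPolynomial.aeval_def, MvPolynomial.aeval_def, MvPolynomial.eval₂_eq,
    MvPolynomial.eval₂_eq, Finset.mul_sum]
  refine Finset.sum_congr rfl fun m hm => ?_
  have h1 : m.degree = e := by
    by_contra h
    exact mem_support_iff.1 hm (hF.coeff_eq_zero h)
  have h3 : ∏ i ∈ m.support, (t • x) i ^ m i = t ^ e * ∏ i ∈ m.support, x i ^ m i := by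
    rw [← h1, Finsupp.degree_apply, ← Finset.prod_pow_eq_pow_sum, ← Finset.prod_mul_distrib]
    exact Finset.prod_congr rfl fun i _ => mul_pow _ _ _
  rw [h3]
  ring

/-- Homogeneity in `(c, w)`: if the coefficient of `Y ^ j` is homogeneous of degree `n - j` and the degree in `Y` is at most `n`. -/
theorem pe_smul {n : ℕ} {P : Polynomial (MvPolynomial (Fin (d + 1)) R)}
    (hP : ∀ j, (P.coeff j).IsHomogeneous (n - j)) (hn : P.natDegree ≤ n) (c : Fin (d + 1) → S)
    (w t : S) : pe (t • c) (t * w) P = t ^ n * pe c w P := by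
  rw [pe_sum, pe_sum, Finset.mul_sum]
  refine Finset.sum_congr rfl fun j hj => ?_
  have h1 : j ≤ n := by
    have := Finset.mem_range.1 hj
    omega
  rw [aeval_smul_hom (hP j)]
  have h2 : t ^ n = t ^ (n - j) * t ^ j := by
    rw [← pow_add]
    congr 1
    omega
  rw [h2, mul_pow]
  ring

end ring

end GX
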