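import Pool.Agent.Lib.MP_f80667_ag.Gx.PjL

/-! The discriminant. -/

open MvPolynomial

namespace GX

variable {F κ : Type} [Field F] [Field κ] [Algebra F κ] {N d : ℕ} {ι : Type}

/-- Proof: the product of the `T - a` divides `p`, so it is `p`. -/
theorem sep_of_roots {p : Polynomial κ} (hp : p.Monic) {Z : Finset κ} (hZ : ∀ a ∈ Z, p.eval a = 0)
    (h : p.natDegree ≤ Z.card) : p.Separable := by
  have hp0 : p ≠ 0 := hp.ne_zero
  have hle : Z.val ≤ p.roots := by
    rw [Multiset.le_iff_subset Z.nodup]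
    intro a ha
    rw [Polynomial.mem_roots hp0]
    exact hZ a ha
  have hc1 : p.roots.card ≤ Z.val.card := le_trans (Polynomial.card_roots' p) h
  have he : Z.val = p.roots := Multiset.eq_of_le_of_card_le hle hc1
  have hcard : p.roots.card = p.natDegree := by
    refine le_antisymm (Polynomial.card_roots' p) ?_
    rw [← he]
    exact h
  have hprod := Polynomial.prod_multiset_X_sub_C_of_monic_of_roots_card_eq hp hcard
  rw [← he] at hprod
  rw [← hprod]
  exact (Polynomial.separable_prod_X_sub_C_iff' (f := fun a : κ => a) (s := Z)).2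
    fun x _ y _ hxy => hxy

/-- The discriminant. Proof: the resultant of `G` and its derivative (`Polynomial.exists_mul_add_mul_eq_C_resultant`, `Polynomial.resultant_map_map`, `Polynomial.resultant_eq_zero_iff`); `G = 1`: `D = 1`. -/
theorem exists_disc {G : Polynomial (MvPolynomial (Fin (d + 1)) F)} (hG : G.Monic)
    {c : Fin (d + 1) → κ}
    (hs : (G.map (aeval c : MvPolynomial (Fin (d + 1)) F →ₐ[F] κ).toRingHom).Separable) :
    ∃ (D : MvPolynomial (Fin (d + 1)) F) (B B' : Polynomial (MvPolynomial (Fin (d + 1)) F)),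
      B * G + B' * Polynomial.derivative G = Polynomial.C D ∧ aeval c D ≠ 0 := by
  by_cases hm : G.natDegree = 0
  · have hG1 : G = 1 := hG.natDegree_eq_zero.1 hm
    refine ⟨1, 1, 0, ?_, ?_⟩
    · rw [hG1, one_mul, zero_mul, add_zero, map_one]
    · rw [map_one]
      exact one_ne_zero
  obtain ⟨B, B', -, -, hB⟩ := Polynomial.exists_mul_add_mul_eq_C_resultant
    (m := G.natDegree) (n := (Polynomial.derivative G).natDegree) G (Polynomial.derivative G)
    le_rfl le_rfl (Or.inl hm)
  refine ⟨_, B, B', by rw [mul_comm B, mul_comm B', hB], ?_⟩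
  obtain ⟨φ, hφ⟩ : ∃ φ : MvPolynomial (Fin (d + 1)) F →+* κ,
      φ = (aeval c : MvPolynomial (Fin (d + 1)) F →ₐ[F] κ).toRingHom := ⟨_, rfl⟩
  rw [← hφ] at hs
  change (aeval c : MvPolynomial (Fin (d + 1)) F →ₐ[F] κ).toRingHom _ ≠ 0
  rw [← hφ, ← Polynomial.resultant_map_map]
  have hd : (Polynomial.derivative G).map φ = Polynomial.derivative (G.map φ) :=
    (Polynomial.derivative_map G φ).symm
  have hgm : (G.map φ).Monic := hG.map φ
  have hgd : (G.map φ).natDegree = G.natDegree := hG.natDegree_map φ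
  obtain ⟨k, hk⟩ := Nat.exists_eq_add_of_le
    (Polynomial.natDegree_map_le (f := φ) (p := Polynomial.derivative G))
  rw [hk, Polynomial.resultant_add_right_deg _ _ _ _ _ le_rfl, ← hgd]
  have hlc : (G.map φ).coeff (G.map φ).natDegree = 1 := hgm
  rw [hlc, one_pow, one_mul, hd]
  intro h0
  exact (Polynomial.resultant_eq_zero_iff.1 h0).2 hs

end GX
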