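import Pool.Agent.Lib.MP_f80667_ag.Gx.PjL

/-! The projection is in order. -/

open MvPolynomial

namespace GX

variable {F : Type} [Field F] {N d : ℕ} {ι : Type} {f : ι → MvPolynomial (Fin N) F}

private theorem pjn_clC (U : Fin (d + 1) → Fin N → F) (V : Fin N → F)
    (a : MvPolynomial (Fin (d + 1)) F) : cl U V (Polynomial.C a) = cu U a := by
  simp only [cl, pe, cu, Polynomial.coe_eval₂RingHom, Polynomial.eval₂_C]
  rfl

private theorem pjn_clX (U : Fin (d + 1) → Fin N → F) (V : Fin N → F) :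
    cl U V Polynomial.X = lf V := by
  simp only [cl, pe, Polynomial.coe_eval₂RingHom, Polynomial.eval₂_X]

private theorem pjn_cuX (U : Fin (d + 1) → Fin N → F) (r : Fin (d + 1)) :
    cu U (X r) = lf (U r) := by
  simp only [cu, aeval_X]

private theorem pjn_cuC (U : Fin (d + 1) → Fin N → F) (a : F) :
    cu U (C a) = C a := by
  simp only [cu, aeval_C]
  rfl

private theorem pjn_hom {p : MvPolynomial (Fin N) F} {e : ℕ} (hp : p.IsHomogeneous e)
    (q : MvPolynomial (Fin N) F) : aeval (fun j => q * X j) p = q ^ e * p := by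
  rw [aeval_def, eval₂_eq']
  have h1 : ∀ m ∈ p.support,
      (algebraMap F (MvPolynomial (Fin N) F)) (p.coeff m) * ∏ i, (q * X i) ^ m i =
        q ^ e * (C (p.coeff m) * ∏ i, (X i : MvPolynomial (Fin N) F) ^ m i) := by
    intro m hm
    have h2 : ∑ i, m i = e := by
      have h3 := hp (mem_support_iff.1 hm)
      rw [Pi.one_def, ← Finsupp.degree_eq_weight_one] at h3
      rw [← h3, Finsupp.degree_eq_sum]
    have h4 : ∏ i, (q * X i) ^ m i = q ^ e * ∏ i, (X i : MvPolynomial (Fin N) F) ^ m i := by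
      rw [← h2, ← Finset.prod_pow_eq_pow_sum, ← Finset.prod_mul_distrib]
      exact Finset.prod_congr rfl fun i _ => mul_pow _ _ _
    rw [h4, algebraMap_eq]
    ring
  rw [Finset.sum_congr rfl h1, ← Finset.mul_sum]
  have h5 : ∑ m ∈ p.support, C (p.coeff m) * ∏ i, (X i : MvPolynomial (Fin N) F) ^ m i = p := by
    have h6 := eval₂_eq' (C : F →+* MvPolynomial (Fin N) F) X p
    rw [← h6, eval₂_eta]
  rw [h5]

private theorem pjn_clA (U : Fin (d + 1) → Fin N → F) (V : Fin N → F)
    (A : Fin N → Polynomial (MvPolynomial (Fin (d + 1)) F)) (p : MvPolynomial (Fin N) F) :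
    cl U V (aeval A p) = aeval (fun j => cl U V (A j)) p := by
  induction p using MvPolynomial.induction_on with
  | C a =>
    rw [aeval_C, aeval_C]
    have h1 : algebraMap F (Polynomial (MvPolynomial (Fin (d + 1)) F)) a =
        Polynomial.C (C a) := rfl
    rw [h1, pjn_clC, pjn_cuC]
    rfl
  | add p q hp hq => rw [map_add, map_add, map_add, hp, hq]
  | mul_X p i hp => rw [map_mul, map_mul, map_mul, hp, aeval_X, aeval_X]

private theorem pjn_congr {I : Ideal (MvPolynomial (Fin N) F)} {a b : Fin N → MvPolynomial (Fin N) F}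
    (h : ∀ j, a j - b j ∈ I) (p : MvPolynomial (Fin N) F) : aeval a p - aeval b p ∈ I := by
  induction p using MvPolynomial.induction_on with
  | C c => rw [aeval_C, aeval_C, sub_self]; exact I.zero_mem
  | add p q hp hq =>
    rw [map_add, map_add]
    have := I.add_mem hp hq
    rwa [show aeval a p - aeval b p + (aeval a q - aeval b q) =
      aeval a p + aeval a q - (aeval b p + aeval b q) from by ring] at this
  | mul_X p i hp =>
    rw [map_mul, map_mul, aeval_X, aeval_X]
    have h1 := I.add_mem (I.mul_mem_right (a i) hp) (I.mul_mem_left (aeval b p) (h i))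
    rwa [show (aeval a p - aeval b p) * a i + aeval b p * (a i - b i) =
      aeval a p * a i - aeval b p * b i from by ring] at h1

private theorem pjn_lin (U : Fin (d + 1) → Fin N → F) (V : Fin N → F)
    {I : Ideal (MvPolynomial (Fin N) F)} {D : MvPolynomial (Fin (d + 1)) F}
    {A : Fin N → Polynomial (MvPolynomial (Fin (d + 1)) F)}
    (h : ∀ j, cl U V (A j) - cu U D * X j ∈ I) (w : Fin N → F) :
    cl U V (∑ j, Polynomial.C (C (w j)) * A j) - cu U D * lf w ∈ I := by
  have h1 : cl U V (∑ j, Polynomial.C (C (w j)) * A j) - cu U D * lf w =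
      ∑ j, C (w j) * (cl U V (A j) - cu U D * X j) := by
    rw [map_sum, lf, Finset.mul_sum, ← Finset.sum_sub_distrib]
    refine Finset.sum_congr rfl fun j _ => ?_
    rw [map_mul, pjn_clC, pjn_cuC]
    ring
  rw [h1]
  exact I.sum_mem fun j _ => I.mul_mem_left _ (h j)

/-- **The projection is in order.** Proof: `ψ = (U, V, G, D, A)`, `A_j` from `hA`; the conditions are the divisibilities by `G` of polynomials whose images under `cl` are in `(f)`: `f_i (A) ↦ f_i (D x) = D ^ e f_i`. All exponents `s` are `0`. -/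
theorem ok_of (hf : ∀ i, ∃ e, (f i).IsHomogeneous e) {U : Fin (d + 1) → Fin N → F}
    {V : Fin N → F} {G : Polynomial (MvPolynomial (Fin (d + 1)) F)} (hm : G.Monic)
    (hk : ∀ Q, cl U V Q ∈ Ideal.span (Set.range f) ↔ G ∣ Q)
    (hh : ∀ j, (G.coeff j).IsHomogeneous (G.natDegree - j)) {D : MvPolynomial (Fin (d + 1)) F}
    (hD : ∃ e, e ≠ 0 ∧ D.IsHomogeneous e)
    (hB : ∃ B B', B * G + B' * Polynomial.derivative G = Polynomial.C D)
    (hA : ∀ j, ∃ A, cl U V A - cu U D * X j ∈ Ideal.span (Set.range f)) :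
    ∃ ψ : Prj F N d, ψ.Ok f ∧ ψ.u = U ∧ ψ.D = D := by
  choose A hA' using hA
  refine ⟨⟨U, V, G, D, A⟩, ⟨hm, hh, hD, hB, ⟨0, fun k => ?_⟩, ⟨0, fun k j => ?_⟩,
    ⟨0, fun i => ?_⟩, fun r => ?_, ?_⟩, rfl, rfl⟩
  · rw [pow_zero, one_mul]
    exact (hk G).2 dvd_rfl
  · rw [pow_zero, one_mul]
    have h1 := hA' j
    rw [← pjn_clC U V D] at h1
    exact h1
  · show G ∣ Polynomial.C (D ^ 0) * aeval A (f i)
    rw [pow_zero, map_one, one_mul, ← hk, pjn_clA]
    obtain ⟨e, he⟩ := hf i
    have h1 := pjn_congr hA' (f i)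
    rw [pjn_hom he] at h1
    have h2 : (cu U D) ^ e * f i ∈ Ideal.span (Set.range f) :=
      Ideal.mul_mem_left _ _ (Ideal.subset_span ⟨i, rfl⟩)
    have h3 := Ideal.add_mem _ h1 h2
    rwa [sub_add_cancel] at h3
  · show G ∣ ∑ j, Polynomial.C (C (U r j)) * A j - Polynomial.C (D * X r)
    rw [← hk, map_sub, pjn_clC, map_mul, pjn_cuX]
    exact pjn_lin U V hA' (U r)
  · show G ∣ ∑ j, Polynomial.C (C (V j)) * A j - Polynomial.C D * Polynomial.X
    rw [← hk, map_sub, map_mul, pjn_clC, pjn_clX]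
    exact pjn_lin U V hA' V

end GX
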