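import Pool.Agent.Lib.MP_f80667_ag.Gx.PjNb
import Pool.Agent.Lib.MP_f80667_ag.Gx.PjN
import Pool.Agent.Lib.MP_f80667_ag.Gx.PjKb
import Pool.Agent.Lib.MP_f80667_ag.Gx.PjLc
import Pool.Agent.Lib.MP_f80667_ag.Gx.PjM
import Pool.Agent.Lib.MP_f80667_ag.Gx.PjMb
import Pool.Agent.Lib.MP_f80667_ag.Gx.PjMc

/-! A projection for every point. -/

open MvPolynomial

namespace GX

variable {F : Type} [Field F] {N d : ℕ} {ι : Type} {f : ι → MvPolynomial (Fin N) F}

private theorem pjnc_C (U : Fin (d + 1) → Fin N → F) (V : Fin N → F)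
    (p : MvPolynomial (Fin (d + 1)) F) : cl U V (Polynomial.C p) = cu U p :=
  Polynomial.eval₂_C _ _

private theorem pjnc_X (U : Fin (d + 1) → Fin N → F) (V : Fin N → F) :
    cl U V Polynomial.X = lf V := Polynomial.eval₂_X _ _

private theorem pjnc_lf {κ : Type} [Field κ] [Algebra F κ] (a : Fin N → F) (x : Fin N → κ) :
    aeval x (lf a) = lv a x := by
  simp only [lf, lv, map_sum, map_mul, aeval_C, aeval_X]

private theorem pjnc_ev {κ : Type} [Field κ] [Algebra F κ] (U : Fin (d + 1) → Fin N → F)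
    (V : Fin N → F) (x : Fin N → κ) (Q : Polynomial (MvPolynomial (Fin (d + 1)) F)) :
    aeval x (cl U V Q) = (Q.map (aeval (fun r => lv (U r) x) :
      MvPolynomial (Fin (d + 1)) F →ₐ[F] κ).toRingHom).eval (lv V x) := by
  rw [Polynomial.eval_map]
  change (aeval x : MvPolynomial (Fin N) F →ₐ[F] κ).toRingHom (Polynomial.eval₂ _ (lf V) Q) = _
  rw [Polynomial.hom_eval₂]
  have h1 : (aeval x : MvPolynomial (Fin N) F →ₐ[F] κ).toRingHom (lf V) = lv V x := pjnc_lf V x
  have h2 : (aeval x : MvPolynomial (Fin N) F →ₐ[F] κ).toRingHom.comp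
      (aeval (fun r => lf (U r)) : MvPolynomial (Fin (d + 1)) F →ₐ[F] _).toRingHom =
        (aeval (fun r => lv (U r) x) : MvPolynomial (Fin (d + 1)) F →ₐ[F] κ).toRingHom := by
    refine MvPolynomial.ringHom_ext (fun a => ?_) fun r => ?_
    · change aeval x (aeval _ (C a)) = aeval _ (C a)
      rw [aeval_C, aeval_C]
      exact aeval_C x a
    · change aeval x (aeval _ (X r)) = aeval _ (X r)
      rw [aeval_X, aeval_X]
      exact pjnc_lf _ _
  rw [h1]
  exact congrArg (fun φ => Polynomial.eval₂ φ (lv V x) Q) h2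

private theorem pjnc_zero {κ : Type} [Field κ] [Algebra F κ] {x : Fin N → κ}
    (hx : ∀ i, aeval x (f i) = 0) {g : MvPolynomial (Fin N) F}
    (hg : g ∈ Ideal.span (Set.range f)) : aeval x g = 0 := by
  have h1 : Ideal.span (Set.range f) ≤ RingHom.ker (aeval x : MvPolynomial (Fin N) F →ₐ[F] κ) := by
    rw [Ideal.span_le]
    rintro _ ⟨i, rfl⟩
    exact hx i
  exact h1 hg

/-- **A projection for every point.** Proof: `exists_uv`, `exists_G`; `desc` for `g = x_j` and for `g = v ^ m`, `m = card Z`: the degree of `G` is at most `m` (`G` divides `D' Y ^ m - ∑ a_i Y ^ i`); `G (U y, Y)` has the `m` roots `V x`, `x ∈ Z`, so it is separable (`sep_of_roots`); `exists_disc`,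
`hom_disc`, `hom_den`; `D` = the product of the two homogeneous polynomials and a variable `c_r` with `U_r y ≠ 0`; `ok_of`. -/
theorem exists_at [CharZero F] (hf : Nsg f d) {κ : Type} [Field κ] [Algebra F κ]
    [IsAlgClosed κ] [Algebra.IsAlgebraic F κ] {y : Fin N → κ} (hy : y ≠ 0)
    (h0 : ∀ i, aeval y (f i) = 0)
    (hT : Module.finrank κ (tgs (fun i => map (algebraMap F κ) (f i)) y) ≤ d + 1) :
    ∃ ψ : Prj F N d, ψ.Ok f ∧ aeval (ψ.uv y) ψ.D ≠ 0 := by
  classical
  obtain ⟨U, V, Z, D, hfin, hne, hZ, hV, hD, hrel⟩ := exists_uv hf hy h0 hT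
  obtain ⟨G, hm, hk, hh⟩ := exists_G hf hfin V
  obtain ⟨c, hc⟩ : ∃ c : Fin (d + 1) → κ, c = fun r => lv (U r) y := ⟨_, rfl⟩
  rw [← hc] at hne hD
  have hdesc : ∀ g : MvPolynomial (Fin N) F, ∃ (D0 : MvPolynomial (Fin (d + 1)) F)
      (a0 : Fin Z.card → MvPolynomial (Fin (d + 1)) F), aeval c D0 ≠ 0 ∧
        cu U D0 * g - ∑ i, cu U (a0 i) * lf V ^ (i : ℕ) ∈ Ideal.span (Set.range f) := fun g => by
    obtain ⟨a, ha⟩ := hrel (map (algebraMap F κ) g)
    exact desc ha hD
  -- the degree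
  have hdeg : G.natDegree ≤ Z.card := by
    obtain ⟨D1, a1, hD1, h1⟩ := hdesc (lf V ^ Z.card)
    have hD10 : D1 ≠ 0 := fun h => hD1 (by rw [h, map_zero])
    obtain ⟨Q, hQ⟩ : ∃ Q : Polynomial (MvPolynomial (Fin (d + 1)) F),
      Q = Polynomial.C D1 * Polynomial.X ^ Z.card -
        ∑ i : Fin Z.card, Polynomial.C (a1 i) * Polynomial.X ^ (i : ℕ) := ⟨_, rfl⟩
    have hdvd : G ∣ Q := by
      rw [← hk, hQ, map_sub, map_mul, map_pow, map_sum, pjnc_C, pjnc_X]
      simp only [map_mul, map_pow, pjnc_C, pjnc_X]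
      exact h1
    have hlow : (∑ i : Fin Z.card, Polynomial.C (a1 i) * Polynomial.X ^ (i : ℕ)).degree <
        (Z.card : WithBot ℕ) := by
      refine (Polynomial.degree_sum_le _ _).trans_lt ?_
      rw [Finset.sup_lt_iff (WithBot.bot_lt_coe _)]
      intro i _
      exact (Polynomial.degree_C_mul_X_pow_le _ _).trans_lt (by exact_mod_cast i.2)
    have hdQ : Q.degree = (Z.card : WithBot ℕ) := by
      rw [hQ, Polynomial.degree_sub_eq_left_of_degree_lt, Polynomial.degree_C_mul_X_pow _ hD10]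
      rw [Polynomial.degree_C_mul_X_pow _ hD10]
      exact hlow
    have hQ0 : Q ≠ 0 := fun h => by
      rw [h, Polynomial.degree_zero] at hdQ
      exact WithBot.bot_ne_coe hdQ
    have h2 := Polynomial.natDegree_le_of_dvd hdvd hQ0
    rwa [Polynomial.natDegree_eq_of_degree_eq_some hdQ] at h2
  -- the roots
  have hs : (G.map (aeval c : MvPolynomial (Fin (d + 1)) F →ₐ[F] κ).toRingHom).Separable := by
    refine sep_of_roots (hm.map _) (Z := Z.image fun x => lv V x) (fun a ha => ?_) ?_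
    · obtain ⟨x, hx, rfl⟩ := Finset.mem_image.1 ha
      have h1 := pjnc_zero (hZ x hx).1 ((hk G).2 dvd_rfl)
      rw [pjnc_ev] at h1
      have h2 : (fun r => lv (U r) x) = c := by
        rw [hc]
        exact funext (hZ x hx).2
      rw [h2] at h1
      exact h1
    · rw [Finset.card_image_of_injOn fun x hx x' hx' h => hV x hx x' hx' h, hm.natDegree_map]
      exact hdeg
  obtain ⟨D2, B, B', hB, hD2⟩ := exists_disc hm hs
  obtain ⟨E1, A1, A1', e1, hE1, hA1, hE10⟩ := hom_disc hh hB hD2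
  -- the denominator
  choose Dj aj hDj haj using fun j : Fin N => hdesc (X j)
  have hden : ∀ j : Fin N, ∃ A, cl U V A - cu U (∏ j, Dj j) * X j ∈
      Ideal.span (Set.range f) := fun j => by
    refine ⟨Polynomial.C (∏ j' ∈ Finset.univ.erase j, Dj j') *
      ∑ i, Polynomial.C (aj j i) * Polynomial.X ^ (i : ℕ), ?_⟩
    have h1 := (Ideal.span (Set.range f)).neg_mem
      ((Ideal.span (Set.range f)).mul_mem_left (cu U (∏ j' ∈ Finset.univ.erase j, Dj j')) (haj j))
    rw [← Finset.mul_prod_erase _ _ (Finset.mem_univ j), map_mul, map_sum, pjnc_C]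
    simp only [map_mul, map_pow, pjnc_C, pjnc_X]
    have h2 : -(cu U (∏ j' ∈ Finset.univ.erase j, Dj j') *
        (cu U (Dj j) * X j - ∑ i, cu U (aj j i) * lf V ^ (i : ℕ))) =
        cu U (∏ j' ∈ Finset.univ.erase j, Dj j') * ∑ i, cu U (aj j i) * lf V ^ (i : ℕ) -
          cu U (Dj j) * cu U (∏ j' ∈ Finset.univ.erase j, Dj j') * X j := by ring
    rw [← h2]
    exact h1
  have hprod : aeval c (∏ j, Dj j) ≠ 0 := by
    rw [map_prod]
    exact Finset.prod_ne_zero_iff.2 fun j _ => hDj j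
  obtain ⟨E2, e2, hE2, hA2, hE20⟩ := hom_den hf.hom hden hprod
  obtain ⟨r, hr⟩ := Function.ne_iff.1 hne
  have hok := ok_of hf.hom (U := U) (V := V) hm hk hh (D := E1 * E2 * X r)
    ⟨e1 + e2 + 1, Nat.succ_ne_zero _, (hE1.mul hE2).mul (isHomogeneous_X F r)⟩
    ⟨Polynomial.C (E2 * X r) * A1, Polynomial.C (E2 * X r) * A1', by
      rw [mul_assoc, mul_assoc, ← mul_add, hA1, ← Polynomial.C_mul]
      congr 1
      ring⟩ (fun j => by
        obtain ⟨A, hA⟩ := hA2 j
        refine ⟨Polynomial.C (E1 * X r) * A, ?_⟩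
        have h1 := (Ideal.span (Set.range f)).mul_mem_left (cu U (E1 * X r)) hA
        have h2 : cl U V (Polynomial.C (E1 * X r) * A) - cu U (E1 * E2 * X r) * X j =
            cu U (E1 * X r) * (cl U V A - cu U E2 * X j) := by
          rw [map_mul (cl U V), pjnc_C]
          simp only [map_mul]
          ring
        rw [h2]
        exact h1)
  obtain ⟨ψ, hψ, hu, hd⟩ := hok
  refine ⟨ψ, hψ, ?_⟩
  have h1 : (ψ.uv y : Fin (d + 1) → κ) = c := by
    rw [hc, ← hu]
    rfl
  rw [h1, hd, map_mul, map_mul, aeval_X]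
  exact mul_ne_zero (mul_ne_zero hE10 hE20) hr

end GX
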