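import Pool.Agent.Lib.MP_f80667_ag.Gx.PjO
import Pool.Agent.Lib.MP_f80667_ag.Gx.PjNc

/-! The projections cover the variety. -/

open MvPolynomial

namespace GX

variable {F : Type} [Field F] {N d : ℕ} {ι : Type} {f : ι → MvPolynomial (Fin N) F}

/-- **A nonsingular projective variety is covered by projections.** -/
theorem Nsg.exists_prj [CharZero F] (hf : Nsg f d) :
    ∃ (m : ℕ) (ψ : Fin m → Prj F N d), (∀ i, (ψ i).Ok f) ∧ Cov f ψ := by
  refine cov_of (κ := AlgebraicClosure F) fun y hy h0 => exists_at hf hy h0 (hf.nsg y ⟨hy, fun i => ?_⟩)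
  have h := h0 i
  rw [aeval_def, ← eval_map] at h
  exact h

end GX
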