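import Pool.Agent.Lib.MP_f80667_ag.Gx.Pe

/-! The dual basis. -/

open MvPolynomial

namespace GX

section ring

variable {R S : Type} [CommRing R] [CommRing S] [Algebra R S] {N d : ℕ} (ψ : Prj R N d)

theorem bt_pe (c : Fin (d + 1) → S) (w : S) (j : ℕ) : pe c w (ψ.bt j) =
    ∑ k ∈ Finset.range (ψ.G.natDegree - j), aeval c (ψ.G.coeff (j + 1 + k)) * w ^ k := by
  rw [Prj.bt, map_sum]
  refine Finset.sum_congr rfl fun k _ => ?_
  rw [map_mul, map_pow, pe_C, pe_X]

omit [Algebra R S] in
/-- The recursion for the double sum. -/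
private theorem ebx_step (a : ℕ → S) (w w' : S) (n : ℕ) :
    ∑ j ∈ Finset.range (n + 1), (∑ k ∈ Finset.range (n + 1 - j), a (j + 1 + k) * w ^ k) * w' ^ j =
      ∑ j ∈ Finset.range n, (∑ k ∈ Finset.range (n - j), a (j + 1 + k) * w ^ k) * w' ^ j +
        a (n + 1) * ∑ j ∈ Finset.range (n + 1), w' ^ j * w ^ (n - j) := by
  have h1 : ∀ j ∈ Finset.range (n + 1),
      (∑ k ∈ Finset.range (n + 1 - j), a (j + 1 + k) * w ^ k) * w' ^ j =
      (∑ k ∈ Finset.range (n - j), a (j + 1 + k) * w ^ k) * w' ^ j +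
        a (n + 1) * (w' ^ j * w ^ (n - j)) := by
    intro j hj
    have hj' : j ≤ n := by
      have := Finset.mem_range.1 hj
      omega
    have h2 : n + 1 - j = (n - j) + 1 := by omega
    have h3 : j + 1 + (n - j) = n + 1 := by omega
    rw [h2, Finset.sum_range_succ, h3]
    ring
  rw [Finset.sum_congr rfl h1, Finset.sum_add_distrib, ← Finset.mul_sum,
    Finset.sum_range_succ (fun j => (∑ k ∈ Finset.range (n - j), a (j + 1 + k) * w ^ k) * w' ^ j),
    Nat.sub_self, Finset.range_zero, Finset.sum_empty, zero_mul, add_zero]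

omit [Algebra R S] in
private theorem ebx_sub (a : ℕ → S) (w w' : S) (n : ℕ) :
    (w' - w) * ∑ j ∈ Finset.range n, (∑ k ∈ Finset.range (n - j), a (j + 1 + k) * w ^ k) * w' ^ j =
      ∑ m ∈ Finset.range (n + 1), a m * w' ^ m - ∑ m ∈ Finset.range (n + 1), a m * w ^ m := by
  induction n with
  | zero => simp
  | succ n ih =>
    have h1 := geom_sum₂_mul w' w (n + 1)
    simp only [Nat.add_sub_cancel] at h1
    rw [ebx_step, Finset.sum_range_succ (fun m => a m * w' ^ m),
      Finset.sum_range_succ (fun m => a m * w ^ m)]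
    linear_combination ih + a (n + 1) * h1

omit [Algebra R S] in
private theorem ebx_der (a : ℕ → S) (w : S) (n : ℕ) :
    ∑ j ∈ Finset.range n, (∑ k ∈ Finset.range (n - j), a (j + 1 + k) * w ^ k) * w ^ j =
      ∑ m ∈ Finset.range n, a (m + 1) * (m + 1) * w ^ m := by
  induction n with
  | zero => simp
  | succ n ih =>
    have h1 : ∑ j ∈ Finset.range (n + 1), w ^ j * w ^ (n - j) = (n + 1) * w ^ n := by
      have h2 : ∀ j ∈ Finset.range (n + 1), w ^ j * w ^ (n - j) = w ^ n := by
        intro j hj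
        have := Finset.mem_range.1 hj
        rw [← pow_add]
        congr 1
        omega
      rw [Finset.sum_congr rfl h2, Finset.sum_const, Finset.card_range, nsmul_eq_mul]
      push_cast
      ring
    rw [ebx_step, ih, h1, Finset.sum_range_succ (fun m : ℕ => a (m + 1) * ((m : S) + 1) * w ^ m)]
    ring

/-- Proof: `bt_pe`, `pe_sum` for `G`; with `a_m = aeval c (G.coeff m)` both sides are `∑_{m = 1}^n a_m (w' ^ m - w ^ m)`: the pairs `(j, k)` with `j + k = m - 1`
(`geom_sum₂`: `Commute.geom_sum₂_mul` or `(w' - w) ∑_{j < m} w' ^ j w ^ (m - 1 - j) = w' ^ m - w ^ m`). -/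
theorem bt_sub (c : Fin (d + 1) → S) (w w' : S) :
    (w' - w) * ∑ j ∈ Finset.range ψ.G.natDegree, pe c w (ψ.bt j) * w' ^ j =
      pe c w' ψ.G - pe c w ψ.G := by
  simp only [bt_pe]
  rw [pe_sum, pe_sum]
  exact ebx_sub (fun m => aeval c (ψ.G.coeff m)) w w' ψ.G.natDegree

/-- Proof: `bt_pe`; both sides are `∑ m a_m w ^ (m - 1)`. -/
theorem bt_der (c : Fin (d + 1) → S) (w : S) :
    ∑ j ∈ Finset.range ψ.G.natDegree, pe c w (ψ.bt j) * w ^ j =
      pe c w (Polynomial.derivative ψ.G) := by
  have h1 : (Polynomial.derivative ψ.G).natDegree < ψ.G.natDegree + 1 :=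
    (Polynomial.natDegree_derivative_le _).trans_lt (by omega)
  have h2 : pe c w (Polynomial.derivative ψ.G) = ∑ m ∈ Finset.range (ψ.G.natDegree + 1),
      aeval c ((Polynomial.derivative ψ.G).coeff m) * w ^ m := by
    rw [pe, Polynomial.coe_eval₂RingHom, Polynomial.eval₂_eq_sum_range' _ h1]
    rfl
  simp only [bt_pe]
  rw [h2, Finset.sum_range_succ, Polynomial.coeff_derivative,
    Polynomial.coeff_eq_zero_of_natDegree_lt (Nat.lt_succ_self _), zero_mul, map_zero, zero_mul,
    add_zero]
  refine (ebx_der (fun m => aeval c (ψ.G.coeff m)) w ψ.G.natDegree).trans ?_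
  refine Finset.sum_congr rfl fun m _ => ?_
  rw [Polynomial.coeff_derivative, map_mul, map_add, map_natCast, map_one]

/-- Homogeneity. Proof: `bt_pe`, `homG`: `a_m (s c) = s ^ (n - m) a_m (c)` and `n - (j + 1 + k) + k = n - 1 - j`. -/
theorem bt_smul (hom : ∀ j, (ψ.G.coeff j).IsHomogeneous (ψ.G.natDegree - j))
    (c : Fin (d + 1) → S) (w s : S) {j : ℕ} (hj : j < ψ.G.natDegree) :
    pe (s • c) (s * w) (ψ.bt j) = s ^ (ψ.G.natDegree - 1 - j) * pe c w (ψ.bt j) := by
  rw [bt_pe, bt_pe, Finset.mul_sum]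
  refine Finset.sum_congr rfl fun k hk => ?_
  have hk' := Finset.mem_range.1 hk
  rw [aeval_smul_hom (hom _)]
  have h1 : s ^ (ψ.G.natDegree - 1 - j) = s ^ (ψ.G.natDegree - (j + 1 + k)) * s ^ k := by
    rw [← pow_add]
    congr 1
    omega
  rw [h1, mul_pow]
  ring

/-- Homogeneity of the derivative. Proof: `pe_smul` with `n - 1`. -/
theorem gy_smul (hom : ∀ j, (ψ.G.coeff j).IsHomogeneous (ψ.G.natDegree - j))
    (c : Fin (d + 1) → S) (w s : S) :
    pe (s • c) (s * w) (Polynomial.derivative ψ.G) =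
      s ^ (ψ.G.natDegree - 1) * pe c w (Polynomial.derivative ψ.G) := by
  refine pe_smul (fun j => ?_) (Polynomial.natDegree_derivative_le _) c w s
  rw [Polynomial.coeff_derivative]
  have h1 : ((j : MvPolynomial (Fin (d + 1)) R) + 1).IsHomogeneous 0 := by
    have h2 : ((j : MvPolynomial (Fin (d + 1)) R) + 1) = C ((j : R) + 1) := by
      rw [map_add, map_natCast, map_one]
    rw [h2]
    exact isHomogeneous_C _ _
  have h3 := (hom (j + 1)).mul h1
  rwa [add_zero, show ψ.G.natDegree - (j + 1) = ψ.G.natDegree - 1 - j by omega] at h3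

end ring

/-- The `β_j` are linearly independent on the roots. Proof: `q (Y) = ∑_{j < n} V_j β_j (Y)` (`β_j (Y) = ∑_{k < n - j} a_{j + 1 + k} Y ^ k`, of degree `n - 1 - j` with leading coefficient `a_n = 1`) is a polynomial of degree
`< n` with `n` different roots, so it is `0` (`Polynomial.eq_zero_of_natDegree_lt_card_of_eval_eq_zero` or `Polynomial.card_roots'`); strong induction on `j`: the coefficient of `Y ^ (n - 1 - j)` of `q` is `V_j` if `V_i = 0` for `i < j`. -/
theorem bt_inj {κ : Type} [Field κ] {g : Polynomial κ} (hg : g.Monic)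
    (hc : Multiset.card g.roots = g.natDegree) (hn : g.roots.Nodup) (V : ℕ → κ)
    (h : ∀ w ∈ g.roots, ∑ j ∈ Finset.range g.natDegree,
      (∑ k ∈ Finset.range (g.natDegree - j), g.coeff (j + 1 + k) * w ^ k) * V j = 0) :
    ∀ j < g.natDegree, V j = 0 := by
  classical
  intro j₀ hj₀
  let q : Polynomial κ := ∑ j ∈ Finset.range g.natDegree,
    (∑ k ∈ Finset.range (g.natDegree - j), Polynomial.C (g.coeff (j + 1 + k)) * Polynomial.X ^ k) *
      Polynomial.C (V j)
  have hco : ∀ m, q.coeff m = ∑ j ∈ Finset.range g.natDegree,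
      (if m < g.natDegree - j then g.coeff (j + 1 + m) else 0) * V j := by
    intro m
    change (∑ j ∈ Finset.range g.natDegree, _ : Polynomial κ).coeff m = _
    rw [Polynomial.finsetSum_coeff]
    refine Finset.sum_congr rfl fun j _ => ?_
    rw [Polynomial.coeff_mul_C, Polynomial.finsetSum_coeff]
    simp only [Polynomial.coeff_C_mul, Polynomial.coeff_X_pow, mul_ite, mul_one, mul_zero]
    rw [Finset.sum_ite_eq]
    simp only [Finset.mem_range]
  have hq : q = 0 := by
    refine Polynomial.eq_zero_of_natDegree_lt_card_of_eval_eq_zero' q g.roots.toFinset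
      (fun w hw => ?_) ?_
    · rw [← h w (Multiset.mem_toFinset.1 hw)]
      change (∑ j ∈ Finset.range g.natDegree, _ : Polynomial κ).eval w = _
      rw [Polynomial.eval_finsetSum]
      refine Finset.sum_congr rfl fun j _ => ?_
      rw [Polynomial.eval_mul, Polynomial.eval_C, Polynomial.eval_finsetSum]
      congr 1
      refine Finset.sum_congr rfl fun k _ => ?_
      rw [Polynomial.eval_mul, Polynomial.eval_C, Polynomial.eval_pow, Polynomial.eval_X]
    · rw [Multiset.toFinset_card_of_nodup hn, hc]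
      have h1 : q.natDegree ≤ g.natDegree - 1 := by
        rw [Polynomial.natDegree_le_iff_coeff_eq_zero]
        intro m hm
        rw [hco]
        refine Finset.sum_eq_zero fun j _ => ?_
        rw [if_neg (by omega), zero_mul]
      omega
  induction j₀ using Nat.strong_induction_on with
  | _ j₀ ih =>
    have h1 := hco (g.natDegree - 1 - j₀)
    rw [hq, Polynomial.coeff_zero, Finset.sum_eq_single j₀] at h1
    · rw [if_pos (by omega), show j₀ + 1 + (g.natDegree - 1 - j₀) = g.natDegree by omega,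
        hg.coeff_natDegree, one_mul] at h1
      exact h1.symm
    · intro i hi hne
      have hi' := Finset.mem_range.1 hi
      rcases lt_or_gt_of_ne hne with hlt | hgt
      · rw [ih i hlt hi', mul_zero]
      · rw [if_neg (by omega), zero_mul]
    · intro hn'
      exact absurd (Finset.mem_range.2 hj₀) hn'

end GX
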