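import Pool.Agent.Lib.MP_f80667_ag.Gx.ChC

/-! Lifts of points. -/

open ZC BE PE CV IntermediateField

namespace GX

variable {F : Type} [Field F] {N d m : ℕ} {ι : Type} {f : ι → MvPolynomial (Fin N) F}
  {K Ω : Type} [Field K] [CharZero K] [Field Ω] [Algebra K Ω] [Algebra F K] [Algebra F Ω]
  [IsScalarTower F K Ω] [IsAlgClosure K Ω] {L : Ld K Ω} {ψ : Fin m → Prj K N d}

/-- **LIFT.** Proof: `hc`: a projection `ψ i` with `D (u (x))` a unit; `c = u (x)`, `w₀ = y (x)`: `nm G (c, w₀) < 1` and `nm (A_j (c, w₀) - D (c) x_j) < 1` (`onR`); `Pj.root`: `w`; `x' = pt c w` (`pt_iv`); `A_j (c, w) ≡ A_j (c, w₀)` (`pe_close` with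
`t = nm (w - w₀) < 1`), divide by `D (c)`. -/
theorem exists_lift (hP : ∀ i, Pj f L (ψ i)) (hc : Cvr f L ψ) {M : IntermediateField K Ω}
    {x : Fin N → Ω} (hx : Iv L M x) (h1 : ∃ i, L.nm (x i) = 1)
    (h0 : ∀ i, L.nm (MvPolynomial.aeval x (f i)) < 1) :
    ∃ x' : Fin N → Ω, Iv L M x' ∧ (∀ i, MvPolynomial.aeval x' (f i) = 0) ∧
      ∀ j, L.nm (x' j - x j) < 1 := by
  have hx1 : ∀ j, L.nm (x j) ≤ 1 := fun j => (hx j).2
  obtain ⟨i, hi⟩ := hc x hx1 h1 h0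
  obtain ⟨hG, hA⟩ := (hP i).onR x hx1 h1 h0
  obtain ⟨hu, hy⟩ := (hP i).uv_le hx1
  have hcM : Iv L M ((ψ i).uv x) := fun r => ⟨lv_mem _ fun j => (hx j).1, hu r⟩
  have hyM : (ψ i).yv x ∈ M := lv_mem _ fun j => (hx j).1
  obtain ⟨w, hw, hw1, hwG, hww⟩ := (hP i).root hcM hi hyM hy hG
  obtain ⟨k1, -, -, k4, -, -⟩ := (hP i).pt_iv hcM hw hw1 hwG hi
  refine ⟨_, k1, k4, fun j => ?_⟩
  have hDne : MvPolynomial.aeval ((ψ i).uv x) (ψ i).D ≠ 0 :=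
    L.ne_zero (by rw [hi]; exact zero_lt_one)
  have e : ((ψ i).om Ω).pt ((ψ i).uv x) w j - x j =
      (MvPolynomial.aeval ((ψ i).uv x) (ψ i).D)⁻¹ *
        ((pe ((ψ i).uv x) w ((ψ i).A j) - pe ((ψ i).uv x) ((ψ i).yv x) ((ψ i).A j)) +
          (pe ((ψ i).uv x) ((ψ i).yv x) ((ψ i).A j) -
            MvPolynomial.aeval ((ψ i).uv x) (ψ i).D * x j)) := by
    rw [om_pt]
    field_simp
    ring
  rw [e, L.mul, L.inv, hi, inv_one, one_mul]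
  refine (L.add _ _).trans_lt (max_lt ?_ (hA j))
  exact (pe_close ((hP i).iA j) hu hw1 hu hy (L.nonneg _)
    (fun r => by rw [sub_self, L.zero]; exact L.nonneg _) le_rfl).trans_lt (hww.trans_lt hG)

end GX
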