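import Pool.Agent.Lib.MP_f80667_ag.Gx.ChC
import Pool.Agent.Lib.MP_f80667_ag.Gm.GxBb
import Pool.Agent.Lib.MP_f80667_ag.Gm.GpL

/-!
The chart of a projection and an arc. `ga a P`: the polynomial `P (a (z), Y)`.
-/

open ZC BE PE CV IntermediateField Polynomial

namespace GX

section ga

variable {K Ω : Type} [Field K] [Field Ω] [Algebra K Ω] {d : ℕ}

/-- The polynomial `P (a (z), Y)`. -/
noncomputable def ga (a : Fin (d + 1) → Polynomial Ω) :
    Polynomial (MvPolynomial (Fin (d + 1)) K) →+* Polynomial (Polynomial Ω) :=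
  Polynomial.mapRingHom
    (MvPolynomial.aeval a : MvPolynomial (Fin (d + 1)) K →ₐ[K] Polynomial Ω).toRingHom

theorem ga_coeff (a : Fin (d + 1) → Polynomial Ω) (P : Polynomial (MvPolynomial (Fin (d + 1)) K))
    (j : ℕ) : (ga a P).coeff j = MvPolynomial.aeval a (P.coeff j) :=
  Polynomial.coeff_map _ _

theorem ga_C (a : Fin (d + 1) → Polynomial Ω) (P : MvPolynomial (Fin (d + 1)) K) :
    ga a (Polynomial.C P) = Polynomial.C (MvPolynomial.aeval a P) :=
  Polynomial.map_C _

/-- The value is the value of `P` at `(a (c), w)`. -/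
theorem ga_ev (a : Fin (d + 1) → Polynomial Ω) (P : Polynomial (MvPolynomial (Fin (d + 1)) K))
    (c w : Ω) : GM.ev₂ (c, w) (ga a P) = pe (fun r => (a r).eval c) w P := by
  have h : (GM.ev₂ (c, w)).comp (ga a) = pe (R := K) (fun r => (a r).eval c) w := by
    refine Polynomial.ringHom_ext' (RingHom.ext fun Q => ?_) ?_
    · change GM.ev₂ (c, w) (ga a (Polynomial.C Q)) = pe (fun r => (a r).eval c) w (Polynomial.C Q)
      rw [ga_C, pe_C, ← GM.ae_eval (F := K)]
      change Polynomial.eval c (Polynomial.eval (Polynomial.C w)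
        (Polynomial.C (MvPolynomial.aeval a Q))) = _
      rw [Polynomial.eval_C]
    · change GM.ev₂ (c, w) (ga a Polynomial.X) = pe (fun r => (a r).eval c) w Polynomial.X
      rw [pe_X, ga, Polynomial.coe_mapRingHom, Polynomial.map_X]
      change Polynomial.eval c (Polynomial.eval (Polynomial.C w) Polynomial.X) = _
      rw [Polynomial.eval_X, Polynomial.eval_C]
  exact DFunLike.congr_fun h P

theorem ga_der (a : Fin (d + 1) → Polynomial Ω) (P : Polynomial (MvPolynomial (Fin (d + 1)) K)) :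
    Polynomial.derivative (ga a P) = ga a (Polynomial.derivative P) :=
  Polynomial.derivative_map _ _

private theorem xc_deg {σ : Type} (a : σ → Polynomial Ω) {ρ : ℕ}
    (ha : ∀ r, (a r).natDegree ≤ ρ) {Q : MvPolynomial σ K} {e : ℕ} (hQ : Q.IsHomogeneous e) :
    (MvPolynomial.aeval a Q : Polynomial Ω).natDegree ≤ e * ρ := by
  rw [MvPolynomial.aeval_def, MvPolynomial.eval₂_eq]
  refine Polynomial.natDegree_sum_le_of_forall_le _ _ fun D hD => ?_
  have h1 := hQ (MvPolynomial.mem_support_iff.1 hD)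
  rw [Polynomial.algebraMap_apply]
  refine (Polynomial.natDegree_C_mul_le _ _).trans ?_
  refine (Polynomial.natDegree_prod_le _ _).trans ?_
  have h2 : ∀ i ∈ D.support, (a i ^ D i).natDegree ≤ D i * ρ := fun i _ =>
    (Polynomial.natDegree_pow_le).trans (Nat.mul_le_mul_left _ (ha i))
  refine (Finset.sum_le_sum h2).trans ?_
  rw [← Finset.sum_mul]
  refine Nat.mul_le_mul_right _ (le_of_eq ?_)
  rw [← h1, Finsupp.weight_apply]
  simp [Finsupp.sum]

private theorem xc_mem {σ : Type} (M : IntermediateField K Ω) {a : σ → Polynomial Ω}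
    (ha : ∀ r j, (a r).coeff j ∈ M) (Q : MvPolynomial σ K) (j : ℕ) :
    (MvPolynomial.aeval a Q : Polynomial Ω).coeff j ∈ M := by
  induction Q using MvPolynomial.induction_on generalizing j with
  | C c =>
    rw [MvPolynomial.aeval_C, Polynomial.algebraMap_apply, Polynomial.coeff_C]
    split_ifs
    · exact M.algebraMap_mem c
    · exact M.zero_mem
  | add p q hp hq =>
    rw [map_add, Polynomial.coeff_add]
    exact M.add_mem (hp j) (hq j)
  | mul_X p i hp =>
    rw [map_mul, MvPolynomial.aeval_X, Polynomial.coeff_mul]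
    exact sum_mem fun x _ => M.mul_mem (hp _) (ha _ _)

end ga

section ch

variable {F : Type} [Field F] {N d : ℕ} {ι : Type} {f : ι → MvPolynomial (Fin N) F} {K Ω : Type}
  [Field K] [Field Ω] [Algebra K Ω] [Algebra F K] [Algebra F Ω] [IsScalarTower F K Ω]
  {L : Ld K Ω} {ψ : Prj K N d}

theorem ga_I₂ {M : IntermediateField K Ω} {a : Fin (d + 1) → Polynomial Ω} (ha : Arc L M a)
    {P : Polynomial (MvPolynomial (Fin (d + 1)) K)}
    (hP : ∀ j e, L.nm (algebraMap K Ω ((P.coeff j).coeff e)) ≤ 1) : I₂ L M (ga a P) := by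
  intro i j
  rw [ga_coeff]
  exact ⟨xc_mem M (fun r k => (ha r k).1) _ _,
    GM.lp_arc (F := K) (K := K) (hP i) (fun r k => (ha r k).2) j⟩

/-- **The chart of a projection and an arc.** -/
theorem ch_of (h : Pj f L ψ) {M : IntermediateField K Ω} {a : Fin (d + 1) → Polynomial Ω}
    (ha : Arc L M a) {ρ : ℕ} (hρ : ∀ r, (a r).natDegree ≤ ρ) :
    Cht f L M ρ ψ.G.natDegree (ga a ψ.G) (MvPolynomial.aeval a ψ.D) fun j => ga a (ψ.A j) where
  mc := by
    refine ⟨h.mon.map _, h.mon.natDegree_map _, fun j => ?_⟩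
    rw [ga_coeff]
    exact xc_deg a hρ (h.homG j)
  ig := ga_I₂ ha h.iG
  iδ j := by
    have h1 : I₂ L M (ga a (Polynomial.C ψ.D)) := ga_I₂ ha fun j e => by
      rw [Polynomial.coeff_C]
      split_ifs
      · exact h.iD e
      · rw [MvPolynomial.coeff_zero, map_zero, L.zero]
        exact zero_le_one
    have h2 := h1 0 j
    rwa [ga_coeff, Polynomial.coeff_C_zero] at h2
  iA j := ga_I₂ ha (h.iA j)
  bez := by
    obtain ⟨B, B', hB, hB', h1⟩ := h.bez
    refine ⟨ga a B, ga a B', ga_I₂ ha hB, ga_I₂ ha hB', ?_⟩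
    rw [ga_der, ← map_mul, ← map_mul, ← map_add, h1, ga_C]
  inX := by
    obtain ⟨s, hs⟩ := h.inX
    refine ⟨s, fun i => ?_⟩
    have h1 := map_dvd (ga a) (hs i)
    rw [map_mul, ga_C, map_pow] at h1
    have h2 : ga a (MvPolynomial.aeval ψ.A (f i)) =
        MvPolynomial.aeval (fun j => ga a (ψ.A j)) (f i) := by
      generalize f i = Q
      induction Q using MvPolynomial.induction_on with
      | C c =>
        rw [MvPolynomial.aeval_C, MvPolynomial.aeval_C,
          IsScalarTower.algebraMap_apply F K (Polynomial (MvPolynomial (Fin (d + 1)) K)),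
          IsScalarTower.algebraMap_apply F K (Polynomial (Polynomial Ω)),
          Polynomial.algebraMap_apply, ga_C, MvPolynomial.algebraMap_apply, MvPolynomial.aeval_C,
          Polynomial.algebraMap_apply]
        rfl
      | add p q hp hq => rw [map_add, map_add, map_add, hp, hq]
      | mul_X p i hp =>
        rw [map_mul, map_mul, map_mul, hp, MvPolynomial.aeval_X, MvPolynomial.aeval_X]
    rwa [h2] at h1
  prim c w hc hw hg hδ := by
    rw [ga_ev] at hg
    rw [GM.ae_eval (F := K)] at hδ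
    have hc1 : ∀ r, L.nm ((a r).eval c) ≤ 1 := fun r => L.eval_le (fun i => (ha r i).2) hc
    obtain ⟨-, ⟨j, hj⟩, -⟩ := h.pt_iv (M := ⊤) (fun r => ⟨IntermediateField.mem_top, hc1 r⟩)
      IntermediateField.mem_top hw hg hδ
    refine ⟨j, ?_⟩
    rw [om_pt, L.div, hδ, div_one] at hj
    rwa [ga_ev]

end ch

end GX
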