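import Pool.Agent.Lib.MP_f80667_ag.Gm.GwC
import Pool.Agent.Lib.MP_f80667_ag.Gx.D

/-!
Projective varieties over number fields: the statements. `V` is a valuation ring of `Ω`.

* `Srd f V P P'`: the points `P`, `P'` of the variety `f = 0` have the same reduction. `Zrd f V z`: the reduction of the
  cycle `z` is `0`: over each point of the reduction the sum of the coefficients is `0`.
* `Dvk f V K`: every cycle over `K` with reduction `0` is, for all `m ≠ 0`, rationally equivalent to `m` times a cycle over `K` with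
  reduction `0`.
-/

open ZC BE PE CV IntermediateField IsDedekindDomain NumberField

namespace GX

section defs

variable {F : Type} [Field F] {N : ℕ} {ι : Type} (f : ι → MvPolynomial (Fin N) F) {Ω : Type}
  [Field Ω] [Algebra F Ω] (V : ValuationSubring Ω)

/-- The points have the same reduction. -/
def Srd (P P' : (Xf f).pt Ω) : Prop :=
  ∃ x x' : Fin N → Ω, Co P x ∧ Co P' x' ∧ GM.Pmv V x ∧ GM.Pmv V x' ∧
    ∀ i, x i - x' i ∈ V.nonunits

open Classical in
/-- The reduction of the cycle is `0`. -/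
def Zrd (z : (Xf f).pt Ω →₀ ℤ) : Prop :=
  ∀ Q : (Xf f).pt Ω, ∑ P ∈ z.support.filter (fun P => Srd f V P Q), z P = 0

/-- The cycles over `K` with reduction `0` are divisible. -/
def Dvk (K : Type) [Field K] [Algebra F K] [Algebra K Ω] [IsScalarTower F K Ω] : Prop :=
  ∀ m : ℕ, m ≠ 0 → ∀ z ∈ (Xf f).cyc K Ω, Zrd f V z →
    ∃ z' ∈ (Xf f).cyc K Ω, Zrd f V z' ∧ z - m • z' ∈ (Xf f).ratEq K Ω

end defs

section loc

variable {F : Type} [Field F] {N : ℕ} {ι : Type} {f : ι → MvPolynomial (Fin N) F} {K Ω : Type}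
  [Field K] [CharZero K] [Field Ω] [Algebra K Ω] [Algebra F K] [Algebra F Ω]
  [IsScalarTower F K Ω] [IsAlgClosure K Ω] {L : Ld K Ω}

/-- Proof: as `GM.srd_iff` in `Gm/GwC.lean`. -/
theorem srd_iff {P P' : (Xf f).pt Ω} : Srd f L.V P P' ↔ ∃ r < 1, Nrh f L r P P' := by
  constructor
  · rintro ⟨x, x', h1, h2, h3, h4, h5⟩
    obtain ⟨h3, h3'⟩ := GM.pmv_iff.1 h3
    obtain ⟨h4, h4'⟩ := GM.pmv_iff.1 h4
    have hne : Nonempty (Fin N) := ⟨h3'.choose⟩
    obtain ⟨i₀, hi₀⟩ := Finite.exists_max fun i => L.nm (x i - x' i)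
    exact ⟨_, GM.non_iff.1 (h5 i₀), x, x', h1, h2, h3, h4, h3', h4', hi₀⟩
  · rintro ⟨r, hr, x, x', h1, h2, h3, h4, h3', h4', h5⟩
    exact ⟨x, x', h1, h2, GM.pmv_iff.2 ⟨h3, h3'⟩, GM.pmv_iff.2 ⟨h4, h4'⟩,
      fun i => GM.non_iff.2 ((h5 i).trans_lt hr)⟩

/-- Proof: as `GM.zrd_iff` in `Gm/GwC.lean`. -/
theorem zrd_iff {z : (Xf f).pt Ω →₀ ℤ} : Zrd f L.V z ↔ Zr f L z := by
  classical
  unfold Zrd Zr
  refine forall_congr' fun Q => ?_
  have h : ∀ P ∈ z.support, Srd f L.V P Q ↔ ∃ r < 1, Nrh f L r P Q := fun P _ => srd_iff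
  rw [Finset.filter_congr h]

end loc

end GX
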