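import Pool.Agent.Lib.MP_f80667_ag.Gx.TsD
import Pool.Agent.Lib.MP_f80667_ag.Cv.Rcy
import Pool.Agent.Lib.MP_f80667_ag.Gx.XHc

/-!
Consequences of the moving lemma.
-/

open ZC BE PE CV IntermediateField

namespace GX

variable {F : Type} [Field F] {N d m : ℕ} {ι : Type} {f : ι → MvPolynomial (Fin N) F} {K Ω : Type}
  [Field K] [CharZero K] [Field Ω] [Algebra K Ω] [Algebra F K] [Algebra F Ω]
  [IsScalarTower F K Ω] [IsAlgClosure K Ω] {L : Ld K Ω}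

/-- **JEN.** The points with the coordinates `x₁`, `x₂`, `x₃` on one sheet, the projection of `x₃` is the midpoint of those of `x₁` and `x₂` modulo `p ^ 2`. -/
theorem jen [L.Unr] {ψ : Prj K N d} (hψ : Pj f L ψ) (hp : 2 < L.p)
    {M : IntermediateField K Ω} (hM : Um L M) {x₁ x₂ x₃ : Fin N → Ω} (h₁ : Iv L M x₁)
    (h₂ : Iv L M x₂) (h₃ : Iv L M x₃) (hD : L.nm (MvPolynomial.aeval (ψ.uv x₁) ψ.D) = 1)
    (h₁₂ : ∀ i, L.nm (x₂ i - x₁ i) < 1) (h₁₃ : ∀ i, L.nm (x₃ i - x₁ i) < 1)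
    (h : ∀ r, L.nm (2 * ψ.uv x₃ r - ψ.uv x₁ r - ψ.uv x₂ r) ≤ L.nm (L.p : Ω) ^ 2)
    {P₁ P₂ P₃ : (Xf f).pt Ω} (hP₁ : Co P₁ x₁) (hP₂ : Co P₂ x₂) (hP₃ : Co P₃ x₃) :
    (Finsupp.single P₁ 1 + Finsupp.single P₂ 1 - Finsupp.single P₃ 2 : (Xf f).pt Ω →₀ ℤ) ∈
      Dl f L 2 M ⊔ (Xf f).ratEq M Ω := by
  exact x_jen hψ hp hM h₁ h₂ h₃ hD h₁₂ h₁₃ h hP₁ hP₂ hP₃

/-- **D1.** Displacements are divisible by `l`. -/
theorem d1 [L.Unr] (hf : Hm f) {ψ : Fin m → Prj K N d} (hψ : ∀ i, Pj f L (ψ i))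
    (hc : Cvr f L ψ) {l u s : ℕ} (hl : l.Prime) (hu : L.nm (l : Ω) = L.nm (L.p : Ω) ^ u)
    (hus : u < (l - 1) * s) :
    ∀ z ∈ Dl f L (s + u) ⊥, ∃ z' ∈ Dl f L s ⊥, z - l • z' ∈ (Xf f).ratEq K Ω := by
  exact x_d1 hf hψ hc hl hu hus

/-- **ZR.** Cycles with reduction `0` are displacements. -/
theorem zr [L.Unr] (hf : Hm f) {ψ : Fin m → Prj K N d} (hψ : ∀ i, Pj f L (ψ i))
    (hc : Cvr f L ψ) {z : (Xf f).pt Ω →₀ ℤ} (hz : z ∈ (Xf f).cyc K Ω) (h : Zr f L z) :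
    z ∈ Dl f L 1 ⊥ ⊔ (Xf f).ratEq K Ω := by
  exact x_zr hf hψ hc hz h

/-- Displacements are cycles with reduction `0`. -/
theorem dl_zr (hf : Hm f) {z : (Xf f).pt Ω →₀ ℤ} (hz : z ∈ Dl f L 1 ⊥) :
    z ∈ (Xf f).cyc K Ω ∧ Zr f L z := by
  exact x_dl_zr hf hz

end GX
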