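import Pool.Agent.Lib.MP_f80667_ag.Gx.TsFl
import Pool.Agent.Lib.MP_f80667_ag.Gx.TeB

/-!
The local theorem.
-/

open ZC BE PE CV IntermediateField

namespace GX

variable {F : Type} [Field F] {N d m : ℕ} {ι : Type} {f : ι → MvPolynomial (Fin N) F} {K Ω : Type}
  [Field K] [CharZero K] [Field Ω] [Algebra K Ω] [Algebra F K] [Algebra F Ω]
  [IsScalarTower F K Ω] [IsAlgClosure K Ω] {L : Ld K Ω} {ψ : Fin m → Prj K N d}

/-- The hypotheses of the local theorem: homogeneous equations, integral projections which cover the variety, the reductions over the fields `kI` which contain the residue field of `K` exist and have no functions `T`. -/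
structure Gdx (f : ι → MvPolynomial (Fin N) F) (L : Ld K Ω) (ψ : Fin m → Prj K N d) : Prop where
  hm : Hm f
  pj : ∀ i, Pj f L (ψ i)
  cv : Cvr f L ψ
  hp : ∀ i, (ψ i).G.natDegree < L.p
  h2 : 2 < L.p
  red : ∀ R : ℕ, R ≠ 0 → (∀ x : K, L.nm (algebraMap K Ω x) ≤ 1 →
    ∀ r, L.rs.Hv (algebraMap K Ω x) r → r ∈ GM.kI L R) →
    ∃ (f' : ι → MvPolynomial (Fin N) (GM.kI L R))
    (ψ' : Fin m → Prj (GM.kI L R) N d), (∀ i, ∃ e, (f' i).IsHomogeneous e) ∧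
      Rdx f L (GM.kI L R) ψ f' ψ' ∧ Nft f' ψ'

/-- Proof: as `GM.dl_le`. -/
theorem dl_le [L.Unr] (h : Gdx f L ψ) {z : (Xf f).pt Ω →₀ ℤ}
    (hz : z ∈ Dl f L 1 (⊥ : IntermediateField K Ω)) :
    ∃ z₁ ∈ Dl f L 1 (⊥ : IntermediateField K Ω), ∃ z₂ ∈ Dl f L 2 (⊥ : IntermediateField K Ω),
      z - L.p • z₁ - z₂ ∈ (Xf f).ratEq K Ω := by
  let H : AddSubgroup ((Xf f).pt Ω →₀ ℤ) := (Dl f L 2 (⊥ : IntermediateField K Ω) ⊔
    (Xf f).ratEq K Ω) ⊔ (Dl f L 1 (⊥ : IntermediateField K Ω)).map (nsmulAddMonoidHom L.p)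
  have hlm : Lm f L (QuotientAddGroup.mk' H) := by
    refine ⟨fun y hy => ?_, fun y hy => ?_, fun y hy => ?_⟩
    · exact (QuotientAddGroup.eq_zero_iff y).2
        ((le_sup_right.trans le_sup_left : (Xf f).ratEq K Ω ≤ H) hy)
    · exact (QuotientAddGroup.eq_zero_iff y).2
        ((le_sup_left.trans le_sup_left : Dl f L 2 (⊥ : IntermediateField K Ω) ≤ H) hy)
    · rw [← map_nsmul]
      exact (QuotientAddGroup.eq_zero_iff _).2 ((le_sup_right :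
        (Dl f L 1 (⊥ : IntermediateField K Ω)).map (nsmulAddMonoidHom L.p) ≤ H) ⟨y, hy, rfl⟩)
  have h1 : z ∈ H := (QuotientAddGroup.eq_zero_iff z).1 (lam_zero h.hm h.hp h.h2 h.red hlm hz)
  obtain ⟨y, hy, w, ⟨z₁, hz₁, rfl⟩, rfl⟩ := AddSubgroup.mem_sup.1 h1
  obtain ⟨z₂, hz₂, r, hr, rfl⟩ := AddSubgroup.mem_sup.1 hy
  refine ⟨z₁, hz₁, z₂, hz₂, ?_⟩
  have e : z₂ + r + nsmulAddMonoidHom L.p z₁ - L.p • z₁ - z₂ = r := by
    change z₂ + r + L.p • z₁ - L.p • z₁ - z₂ = r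
    abel
  rw [e]
  exact hr

/-- Displacements are divisible by every prime. -/
private theorem teC_div [L.Unr] (h : Gdx f L ψ) {l : ℕ} (hl : l.Prime)
    {z : (Xf f).pt Ω →₀ ℤ} (hz : z ∈ Dl f L 1 (⊥ : IntermediateField K Ω)) :
    ∃ z' ∈ Dl f L 1 (⊥ : IntermediateField K Ω), z - l • z' ∈ (Xf f).ratEq K Ω := by
  by_cases hlp : l = L.p
  · subst hlp
    obtain ⟨z₁, h₁, z₂, h₂, h3⟩ := dl_le h hz
    have h2 := h.h2
    obtain ⟨z', h', h4⟩ := d1 h.hm h.pj h.cv (l := L.p) (u := 1) (s := 1) hl (by rw [pow_one])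
      (by omega) z₂ h₂
    refine ⟨z₁ + z', add_mem h₁ h', ?_⟩
    have e : z - L.p • (z₁ + z') = (z - L.p • z₁ - z₂) + (z₂ - L.p • z') := by
      rw [nsmul_add]
      abel
    rw [e]
    exact add_mem h3 h4
  · have hnd : ¬ L.p ∣ l := fun hd =>
      (hl.eq_one_or_self_of_dvd _ hd).elim L.pp.ne_one fun h1 => hlp h1.symm
    exact d1 h.hm h.pj h.cv (u := 0) (s := 1) hl (by rw [pow_zero]; exact L.nat_unit hnd)
      (by have := hl.two_le; omega) z hz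

/-- Proof: as `GM.dl_div`, `GM.dl_divm`. -/
theorem dl_divm [L.Unr] (h : Gdx f L ψ) (n : ℕ) (hn : n ≠ 0) :
    ∀ z ∈ Dl f L 1 (⊥ : IntermediateField K Ω),
      ∃ z' ∈ Dl f L 1 (⊥ : IntermediateField K Ω), z - n • z' ∈ (Xf f).ratEq K Ω := by
  induction n using Nat.recOnMul with
  | zero => exact absurd rfl hn
  | one => exact fun d hd => ⟨d, hd, by rw [one_nsmul, sub_self]; exact zero_mem _⟩
  | prime l hl => exact fun d hd => teC_div h hl hd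
  | mul a b iha ihb =>
    intro d hd
    obtain ⟨d₁, h₁, e₁⟩ := iha (left_ne_zero_of_mul hn) d hd
    obtain ⟨d₂, h₂, e₂⟩ := ihb (right_ne_zero_of_mul hn) d₁ h₁
    refine ⟨d₂, h₂, ?_⟩
    have e : d - (a * b) • d₂ = (d - a • d₁) + a • (d₁ - b • d₂) := by
      rw [nsmul_sub, mul_nsmul']
      abel
    rw [e]
    exact add_mem e₁ (nsmul_mem e₂ a)

/-- **The local theorem.** Proof: `zr`, `dl_divm`, `dl_zr`. -/
theorem loc [L.Unr] (h : Gdx f L ψ) {z : (Xf f).pt Ω →₀ ℤ} (hz : z ∈ (Xf f).cyc K Ω)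
    (hr : Zr f L z) {n : ℕ} (hn : n ≠ 0) :
    ∃ z' ∈ (Xf f).cyc K Ω, Zr f L z' ∧ z - n • z' ∈ (Xf f).ratEq K Ω := by
  obtain ⟨d, hd, r, hrr, rfl⟩ := AddSubgroup.mem_sup.1 (zr h.hm h.pj h.cv hz hr)
  obtain ⟨d', hd', e⟩ := dl_divm h n hn d hd
  obtain ⟨h1, h2⟩ := dl_zr h.hm hd'
  refine ⟨d', h1, h2, ?_⟩
  have e' : d + r - n • d' = (d - n • d') + r := by abel
  rw [e']
  exact add_mem e hrr

end GX
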