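import Pool.Agent.Lib.MP_f80667_ag.Gx.Rd
import Pool.Agent.Lib.MP_f80667_ag.Gx.Cb

/-!
The data over a valuation ring.

* `iO F V`: the valuation ring of `F` under the valuation ring `V` of `Ω` and its homomorphism to `V`; `rdO F V`: the reduction.
* `Dat V f ψ f₀ ψ₀`: `f₀` and `ψ₀` are `f` and `ψ` over the valuation ring, the projections are good and cover over the valuation ring.
-/

open ZC BE PE CV IntermediateField

namespace GX

section defs

variable (F : Type) [Field F] {Ω : Type} [Field Ω] [Algebra F Ω] (V : ValuationSubring Ω)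

/-- The homomorphism of the valuation rings. -/
def iO : (V.comap (algebraMap F Ω)) →+* V where
  toFun x := ⟨algebraMap F Ω x, x.2⟩
  map_one' := Subtype.ext (map_one (algebraMap F Ω))
  map_mul' _ _ := Subtype.ext (map_mul (algebraMap F Ω) _ _)
  map_zero' := Subtype.ext (map_zero (algebraMap F Ω))
  map_add' _ _ := Subtype.ext (map_add (algebraMap F Ω) _ _)

/-- The reduction. -/
noncomputable def rdO : (V.comap (algebraMap F Ω)) →+* IsLocalRing.ResidueField V :=
  (IsLocalRing.residue V).comp (iO F V)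

variable {F} {N d m : ℕ} {ι : Type}

/-- `f₀` and `ψ₀` are `f` and `ψ` over the valuation ring. -/
structure Dat (f : ι → MvPolynomial (Fin N) F) (ψ : Fin m → Prj F N d)
    (f₀ : ι → MvPolynomial (Fin N) (V.comap (algebraMap F Ω)))
    (ψ₀ : Fin m → Prj (V.comap (algebraMap F Ω)) N d) : Prop where
  mf : ∀ i, MvPolynomial.map (V.comap (algebraMap F Ω)).subtype (f₀ i) = f i
  mp : ∀ i, (ψ₀ i).map (V.comap (algebraMap F Ω)).subtype = ψ i
  hom : ∀ i, ∃ e, (f₀ i).IsHomogeneous e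
  ok : ∀ i, (ψ₀ i).Ok f₀
  cov : Cov f₀ ψ₀

end defs

section gen

variable {R S S' : Type} [CommRing R] [CommRing S] [CommRing S'] [Algebra R S] [Algebra R S']
  {N d : ℕ}

private theorem dt_ext {a b : Prj R N d} (hu : a.u = b.u) (hy : a.y = b.y) (hG : a.G = b.G)
    (hD : a.D = b.D) (hA : a.A = b.A) : a = b := by
  cases a
  cases b
  cases hu
  cases hy
  cases hG
  cases hD
  cases hA
  rfl

private theorem dt_lv (φ : S →ₐ[R] S') (a : Fin N → R) (x : Fin N → S) :
    φ (lv a x) = lv a fun j => φ (x j) := by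
  rw [lv, lv, map_sum]
  refine Finset.sum_congr rfl fun j _ => ?_
  rw [map_mul, AlgHom.commutes]

private theorem dt_pe (φ : S →ₐ[R] S') (ψ : Prj R N d) (x : Fin N → S)
    (P : Polynomial (MvPolynomial (Fin (d + 1)) R)) :
    φ (pe (ψ.uv x) (ψ.yv x) P) =
      pe (ψ.uv fun j => φ (x j)) (ψ.yv fun j => φ (x j)) P := by
  rw [pe_hom]
  have h1 : (fun r => φ (ψ.uv x r)) = ψ.uv fun j => φ (x j) := funext fun r => dt_lv φ _ x
  have h2 : φ (ψ.yv x) = ψ.yv fun j => φ (x j) := dt_lv φ _ x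
  rw [h1, h2]

private theorem dt_tw {R' : Type} [CommRing R'] [Algebra R R'] [Algebra R' S]
    [IsScalarTower R R' S] (ψ : Prj R N d) (x : Fin N → S)
    (P : Polynomial (MvPolynomial (Fin (d + 1)) R)) :
    pe ((ψ.map (algebraMap R R')).uv x) ((ψ.map (algebraMap R R')).yv x)
      (P.map (MvPolynomial.map (algebraMap R R'))) = pe (ψ.uv x) (ψ.yv x) P := by
  rw [uv_map, yv_map, pe_map]

private theorem dt_twD {R' : Type} [CommRing R'] [Algebra R R'] [Algebra R' S]
    [IsScalarTower R R' S] (ψ : Prj R N d) (x : Fin N → S) :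
    MvPolynomial.aeval ((ψ.map (algebraMap R R')).uv x) (ψ.map (algebraMap R R')).D =
      MvPolynomial.aeval (ψ.uv x) ψ.D := by
  rw [uv_map]
  exact MvPolynomial.aeval_map_algebraMap R' (ψ.uv x) ψ.D

end gen

section loc

variable {F : Type} [Field F] {N d m : ℕ} {ι : Type} {f : ι → MvPolynomial (Fin N) F}
  {K Ω : Type} [Field K] [Field Ω] [Algebra K Ω] [Algebra F K] [Algebra F Ω]
  [IsScalarTower F K Ω] {L : Ld K Ω} {ψ : Fin m → Prj F N d}
  {f₀ : ι → MvPolynomial (Fin N) (L.V.comap (algebraMap F Ω))}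
  {ψ₀ : Fin m → Prj (L.V.comap (algebraMap F Ω)) N d}

/-- The reduction in terms of `L`. Proof: the definition of `Rs.Hv` for `L.rs`. -/
theorem rdO_hv (x : L.V.comap (algebraMap F Ω)) :
    L.rs.Hv (algebraMap F Ω (x : F)) (rdO F L.V x) :=
  ⟨x.2, rfl⟩

private theorem dt_nm (x : L.V.comap (algebraMap F Ω)) :
    L.nm (algebraMap K Ω (algebraMap F K (x : F))) ≤ 1 := by
  rw [← IsScalarTower.algebraMap_apply F K Ω]
  exact x.2

private theorem dt_hvK (x : L.V.comap (algebraMap F Ω)) :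
    L.rs.Hv (algebraMap K Ω (algebraMap F K (x : F))) (rdO F L.V x) := by
  rw [← IsScalarTower.algebraMap_apply F K Ω]
  exact rdO_hv x

private theorem dt_K (h : Dat L.V f ψ f₀ ψ₀) (i : Fin m) :
    (ψ i).map (algebraMap F K) =
      (ψ₀ i).map ((algebraMap F K).comp (L.V.comap (algebraMap F Ω)).subtype) := by
  rw [← h.mp i, Prj.map_map]

private theorem dt_okF (h : Dat L.V f ψ f₀ ψ₀) (i : Fin m) : (ψ i).Ok f := by
  have h1 := (h.ok i).map (L.V.comap (algebraMap F Ω)).subtype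
  have e2 : (fun i => MvPolynomial.map (L.V.comap (algebraMap F Ω)).subtype (f₀ i)) = f :=
    funext h.mf
  rw [h.mp i, e2] at h1
  exact h1

/-- The data over the valuation ring of `Ω`. -/
private theorem dt_V (h : Dat L.V f ψ f₀ ψ₀) (i : Fin m) :
    ((ψ₀ i).map (iO F L.V)).map (algebraMap L.V Ω) =
      ((ψ i).map (algebraMap F K)).map (algebraMap K Ω) := by
  rw [dt_K h i, Prj.map_map, Prj.map_map]
  have e : (algebraMap L.V Ω).comp (iO F L.V) = (algebraMap K Ω).comp
      ((algebraMap F K).comp (L.V.comap (algebraMap F Ω)).subtype) := by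
    refine RingHom.ext fun x => ?_
    exact IsScalarTower.algebraMap_apply F K Ω (x : F)
  rw [e]

private theorem dt_pV (h : Dat L.V f ψ f₀ ψ₀) (i : Fin m) (x : Fin N → Ω) :
    pe (((ψ i).map (algebraMap F K)).uv x) (((ψ i).map (algebraMap F K)).yv x)
        ((ψ i).map (algebraMap F K)).G =
      pe (((ψ₀ i).map (iO F L.V)).uv x) (((ψ₀ i).map (iO F L.V)).yv x)
        ((ψ₀ i).map (iO F L.V)).G ∧
    (∀ j, pe (((ψ i).map (algebraMap F K)).uv x) (((ψ i).map (algebraMap F K)).yv x)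
        (((ψ i).map (algebraMap F K)).A j) =
      pe (((ψ₀ i).map (iO F L.V)).uv x) (((ψ₀ i).map (iO F L.V)).yv x)
        (((ψ₀ i).map (iO F L.V)).A j)) ∧
    MvPolynomial.aeval (((ψ i).map (algebraMap F K)).uv x) ((ψ i).map (algebraMap F K)).D =
      MvPolynomial.aeval (((ψ₀ i).map (iO F L.V)).uv x) ((ψ₀ i).map (iO F L.V)).D := by
  obtain ⟨a, ha⟩ : ∃ a, a = (ψ i).map (algebraMap F K) := ⟨_, rfl⟩
  obtain ⟨b, hb⟩ : ∃ b, b = (ψ₀ i).map (iO F L.V) := ⟨_, rfl⟩
  have e : b.map (algebraMap L.V Ω) = a.map (algebraMap K Ω) := by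
    rw [ha, hb]
    exact dt_V h i
  rw [← ha, ← hb]
  refine ⟨?_, fun j => ?_, ?_⟩
  · rw [← dt_tw (R' := Ω) a x a.G, ← dt_tw (R' := Ω) b x b.G]
    change pe _ _ (a.map (algebraMap K Ω)).G = pe _ _ (b.map (algebraMap L.V Ω)).G
    rw [e]
  · rw [← dt_tw (R' := Ω) a x (a.A j), ← dt_tw (R' := Ω) b x (b.A j)]
    change pe _ _ ((a.map (algebraMap K Ω)).A j) = pe _ _ ((b.map (algebraMap L.V Ω)).A j)
    rw [e]
  · rw [← dt_twD (R' := Ω) a x, ← dt_twD (R' := Ω) b x, e]

/-- The residues of the coordinates. -/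
private noncomputable def dtr (x : Fin N → Ω) (hx : ∀ i, L.nm (x i) ≤ 1) : Fin N → L.κ :=
  fun j => IsLocalRing.residue L.V ⟨x j, hx j⟩

private theorem dtr_hv (x : Fin N → Ω) (hx : ∀ i, L.nm (x i) ≤ 1) (j : Fin N) :
    L.rs.Hv (x j) (dtr (L := L) x hx j) := ⟨hx j, rfl⟩

private theorem dt_hv (ρ : Prj L.V N d) (x : Fin N → Ω) (hx : ∀ i, L.nm (x i) ≤ 1)
    (P : Polynomial (MvPolynomial (Fin (d + 1)) L.V)) :
    L.rs.Hv (pe (ρ.uv x) (ρ.yv x) P)
      (pe (ρ.uv (dtr (L := L) x hx)) (ρ.yv (dtr (L := L) x hx)) P) := by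
  have h1 := dt_pe (Algebra.ofId L.V Ω) ρ (fun j => (⟨x j, hx j⟩ : L.V)) P
  have h2 := dt_pe (Algebra.ofId L.V L.κ) ρ (fun j => (⟨x j, hx j⟩ : L.V)) P
  have e1 : (fun j => (Algebra.ofId L.V Ω) (⟨x j, hx j⟩ : L.V)) = x := rfl
  have e2 : (fun j => (Algebra.ofId L.V L.κ) (⟨x j, hx j⟩ : L.V)) = dtr (L := L) x hx := rfl
  rw [e1] at h1
  rw [e2] at h2
  rw [← h1, ← h2]
  exact ⟨(pe (ρ.uv fun j => (⟨x j, hx j⟩ : L.V)) (ρ.yv fun j => (⟨x j, hx j⟩ : L.V)) P).2, rfl⟩

private theorem dt_hvD (ρ : Prj L.V N d) (x : Fin N → Ω) (hx : ∀ i, L.nm (x i) ≤ 1) :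
    L.rs.Hv (MvPolynomial.aeval (ρ.uv x) ρ.D)
      (MvPolynomial.aeval (ρ.uv (dtr (L := L) x hx)) ρ.D) := by
  have h1 := dt_hv ρ x hx (Polynomial.C ρ.D)
  rwa [pe_C, pe_C] at h1

private theorem dt_hvf (h : Dat L.V f ψ f₀ ψ₀) (x : Fin N → Ω) (hx : ∀ i, L.nm (x i) ≤ 1)
    (i : ι) : L.rs.Hv (MvPolynomial.aeval x (f i))
      (MvPolynomial.aeval (dtr (L := L) x hx) (MvPolynomial.map (iO F L.V) (f₀ i))) := by
  have e : MvPolynomial.map (algebraMap F Ω) (f i) =
      MvPolynomial.map (algebraMap L.V Ω) (MvPolynomial.map (iO F L.V) (f₀ i)) := by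
    rw [← h.mf i, MvPolynomial.map_map, MvPolynomial.map_map]
    rfl
  have e1 : MvPolynomial.aeval x (f i) =
      MvPolynomial.aeval x (MvPolynomial.map (iO F L.V) (f₀ i)) := by
    rw [← MvPolynomial.aeval_map_algebraMap Ω x (f i), e, MvPolynomial.aeval_map_algebraMap]
  have h1 := MvPolynomial.comp_aeval_apply (R := L.V) (fun j => (⟨x j, hx j⟩ : L.V))
    (Algebra.ofId L.V Ω) (MvPolynomial.map (iO F L.V) (f₀ i))
  have h2 := MvPolynomial.comp_aeval_apply (R := L.V) (fun j => (⟨x j, hx j⟩ : L.V))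
    (Algebra.ofId L.V L.κ) (MvPolynomial.map (iO F L.V) (f₀ i))
  have e3 : (fun j => (Algebra.ofId L.V Ω) (⟨x j, hx j⟩ : L.V)) = x := rfl
  have e4 : (fun j => (Algebra.ofId L.V L.κ) (⟨x j, hx j⟩ : L.V)) = dtr (L := L) x hx := rfl
  rw [e3] at h1
  rw [e4] at h2
  rw [e1, ← h1, ← h2]
  exact ⟨(MvPolynomial.aeval (fun j => (⟨x j, hx j⟩ : L.V))
    (MvPolynomial.map (iO F L.V) (f₀ i))).2, rfl⟩

private theorem dt_zero (h : Dat L.V f ψ f₀ ψ₀) (x : Fin N → Ω) (hx : ∀ i, L.nm (x i) ≤ 1)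
    (h0 : ∀ i, L.nm (MvPolynomial.aeval x (f i)) < 1) (i : ι) :
    MvPolynomial.aeval (dtr (L := L) x hx) (MvPolynomial.map (iO F L.V) (f₀ i)) = 0 :=
  (dt_hvf h x hx i).uniq (L.hv_zero.2 (h0 i))

/-- The projections over `K` are good over the integers. Proof: the coefficients of `ψ i` are in `L.V` (`L.nm ≤ 1`); `hom`, `mon`, `homG`, `homD`, `bez`: `Ok.map` to `K` (`Prj.map_map`), the coefficients of `B`, `B'` over the valuation ring are integral; `onX`: `Ok.on_pt` over `Ω` for `ψ₀ i` mapped to `Ω`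
(or `h.ok i` with `S = Ω`: an algebra over the valuation ring); `inX`: `Ok.map`; `inu`, `iny`: `Ok.in_A`; `ok`: `Ok.map` to `Ω`; `onR`: `Ok.on_pt` with `S = L.κ` (as an algebra over the valuation ring by `rdO`) at the residues of the coordinates. It may be simplest to give `Ω`, `L.V`, `L.κ` the
structure of an algebra over the valuation ring by `RingHom.toAlgebra` and to use `pe_hom` for `L.V → Ω`, `L.V → L.κ`: all values are in `L.V`. -/
theorem Dat.pj (h : Dat L.V f ψ f₀ ψ₀) (i : Fin m) : Pj f L ((ψ i).map (algebraMap F K)) := by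
  have okF := dt_okF h i
  have okK := okF.map (algebraMap F K)
  refine ⟨?_, ?_, ?_, ?_, ?_, ?_, okK.mon, okK.homG, okK.homD, ?_, ?_, ?_, ?_, ?_, ?_, ?_⟩
  · intro r j
    rw [dt_K h i]
    exact dt_nm ((ψ₀ i).u r j)
  · intro j
    rw [dt_K h i]
    exact dt_nm ((ψ₀ i).y j)
  · intro j e
    rw [dt_K h i]
    change L.nm (algebraMap K Ω ((((ψ₀ i).G.map (MvPolynomial.map ((algebraMap F K).comp
      (L.V.comap (algebraMap F Ω)).subtype))).coeff j).coeff e)) ≤ 1
    rw [Polynomial.coeff_map, MvPolynomial.coeff_map]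
    exact dt_nm (((ψ₀ i).G.coeff j).coeff e)
  · intro e
    rw [dt_K h i]
    change L.nm (algebraMap K Ω ((MvPolynomial.map ((algebraMap F K).comp
      (L.V.comap (algebraMap F Ω)).subtype) (ψ₀ i).D).coeff e)) ≤ 1
    rw [MvPolynomial.coeff_map]
    exact dt_nm ((ψ₀ i).D.coeff e)
  · intro i' j e
    rw [dt_K h i]
    change L.nm (algebraMap K Ω (((((ψ₀ i).A i').map (MvPolynomial.map ((algebraMap F K).comp
      (L.V.comap (algebraMap F Ω)).subtype))).coeff j).coeff e)) ≤ 1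
    rw [Polynomial.coeff_map, MvPolynomial.coeff_map]
    exact dt_nm ((((ψ₀ i).A i').coeff j).coeff e)
  · intro i'
    obtain ⟨e, he⟩ := h.hom i'
    refine ⟨e, ?_⟩
    rw [← h.mf i']
    exact he.map _
  · obtain ⟨B, B', h1⟩ := (h.ok i).bez
    refine ⟨B.map (MvPolynomial.map ((algebraMap F K).comp
      (L.V.comap (algebraMap F Ω)).subtype)), B'.map (MvPolynomial.map ((algebraMap F K).comp
      (L.V.comap (algebraMap F Ω)).subtype)), ?_, ?_, ?_⟩
    · intro j e
      rw [Polynomial.coeff_map, MvPolynomial.coeff_map]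
      exact dt_nm ((B.coeff j).coeff e)
    · intro j e
      rw [Polynomial.coeff_map, MvPolynomial.coeff_map]
      exact dt_nm ((B'.coeff j).coeff e)
    · have h2 := congrArg (Polynomial.map (MvPolynomial.map ((algebraMap F K).comp
        (L.V.comap (algebraMap F Ω)).subtype))) h1
      rw [Polynomial.map_add, Polynomial.map_mul, Polynomial.map_mul, Polynomial.map_C,
        ← Polynomial.derivative_map] at h2
      rw [dt_K h i]
      exact h2
  · intro x hx h0
    obtain ⟨k, hk⟩ := Function.ne_iff.1 hx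
    obtain ⟨h1, h2⟩ := okF.on_pt h0 (Ne.isUnit hk)
    refine ⟨?_, fun j => ?_⟩
    · rw [← h1]
      exact dt_tw (R' := K) (ψ i) x (ψ i).G
    · rw [dt_twD (R' := K) (ψ i) x, ← h2 j]
      exact dt_tw (R' := K) (ψ i) x ((ψ i).A j)
  · obtain ⟨s, hs⟩ := okK.inX
    refine ⟨s, fun i' => ?_⟩
    have h1 := hs i'
    rw [MvPolynomial.aeval_map_algebraMap] at h1
    exact h1
  · intro c w hG
    exact (okK.in_A hG).1
  · intro c w hG
    exact (okK.in_A hG).2.1
  · have h1 := okF.map (algebraMap F Ω)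
    rw [Prj.map_map, ← IsScalarTower.algebraMap_eq F K Ω]
    exact h1
  · intro x hx hk h0
    obtain ⟨k, hk⟩ := hk
    have okV := (h.ok i).map (iO F L.V)
    have hku : IsUnit (dtr (L := L) x hx k) := Ne.isUnit ((L.hv_ne (dtr_hv x hx k)).2 hk)
    obtain ⟨h1, h2⟩ := okV.on_pt (dt_zero h x hx h0) hku
    obtain ⟨h3, h4, h5⟩ := dt_pV h i x
    refine ⟨?_, fun j => ?_⟩
    · rw [← L.hv_zero, h3, ← h1]
      exact dt_hv _ x hx _
    · rw [← L.hv_zero, h4 j, h5]
      have h6 := (dt_hv ((ψ₀ i).map (iO F L.V)) x hx (((ψ₀ i).map (iO F L.V)).A j)).sub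
        ((dt_hvD ((ψ₀ i).map (iO F L.V)) x hx).mul (dtr_hv x hx j))
      rw [h2 j, sub_self] at h6
      exact h6

/-- Proof: `Cov.top` with `S = L.κ` at the residues of the coordinates: not all of the residues of the `D_i (u_i (x))` are `0`. -/
theorem Dat.cvr (h : Dat L.V f ψ f₀ ψ₀) : Cvr f L fun i => (ψ i).map (algebraMap F K) := by
  intro x hx hk h0
  obtain ⟨k, hk⟩ := hk
  have hku : IsUnit (dtr (L := L) x hx k) := Ne.isUnit ((L.hv_ne (dtr_hv x hx k)).2 hk)
  have h1 := (h.cov.map (iO F L.V)).top (dt_zero h x hx h0) hku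
  by_contra hne
  have h2 : ∀ i, MvPolynomial.aeval (((ψ₀ i).map (iO F L.V)).uv (dtr (L := L) x hx))
      ((ψ₀ i).map (iO F L.V)).D = 0 := by
    intro i
    by_contra h3
    refine hne ⟨i, ?_⟩
    rw [(dt_pV h i x).2.2]
    exact (L.hv_ne (dt_hvD ((ψ₀ i).map (iO F L.V)) x hx)).1 h3
  have h4 : Ideal.span (Set.range fun i =>
      MvPolynomial.aeval (((ψ₀ i).map (iO F L.V)).uv (dtr (L := L) x hx))
        ((ψ₀ i).map (iO F L.V)).D) ≤ ⊥ := by
    refine Ideal.span_le.2 ?_
    rintro _ ⟨i, rfl⟩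
    exact h2 i
  rw [h1] at h4
  exact bot_ne_top (top_le_iff.1 h4)

/-- The reduction over a subfield which contains the residues. Proof: `φ : V.comap .. →+* k`, `rdO` with values in `k` (`RingHom.codRestrict`, `hk` with `rdO_hv`); `f' = map φ f₀`, `ψ' = ψ₀.map φ`; `Ok.map`, `Cov.map`, `Dat.pj`; the coefficients: `rdO_hv`, `mf`, `mp`. -/
theorem Dat.rdx (h : Dat L.V f ψ f₀ ψ₀) {k : Subfield L.κ} (hk : ∀ x : F,
    L.nm (algebraMap F Ω x) ≤ 1 → ∀ r, L.rs.Hv (algebraMap F Ω x) r → r ∈ k) :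
    ∃ (f' : ι → MvPolynomial (Fin N) k) (ψ' : Fin m → Prj k N d),
      Rdx f L k (fun i => (ψ i).map (algebraMap F K)) f' ψ' := by
  obtain ⟨φ, hφ⟩ : ∃ φ : (L.V.comap (algebraMap F Ω)) →+* k, ∀ x, ((φ x : k) : L.κ) =
      rdO F L.V x :=
    ⟨(rdO F L.V).codRestrict k fun x => hk x x.2 _ (rdO_hv x), fun x => rfl⟩
  have hv : ∀ x : L.V.comap (algebraMap F Ω),
      L.rs.Hv (algebraMap F Ω (x : F)) ((φ x : k) : L.κ) := by
    intro x
    rw [hφ x]
    exact rdO_hv x
  have hvK : ∀ x : L.V.comap (algebraMap F Ω),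
      L.rs.Hv (algebraMap K Ω (algebraMap F K (x : F))) ((φ x : k) : L.κ) := by
    intro x
    rw [hφ x]
    exact dt_hvK x
  refine ⟨fun i => MvPolynomial.map φ (f₀ i), fun i => (ψ₀ i).map φ, fun i => h.pj i, ?_, ?_, ?_,
    fun i => (h.ok i).map φ, h.cov.map φ, ?_⟩
  · intro i e
    rw [← h.mf i, MvPolynomial.coeff_map, MvPolynomial.coeff_map]
    exact hv _
  · intro i
    rw [dt_K h i]
    refine ⟨fun r j => hvK _, fun j => hvK _, fun j e => ?_, fun e => ?_, fun i' j e => ?_⟩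
    · change L.rs.Hv (algebraMap K Ω ((((ψ₀ i).G.map (MvPolynomial.map ((algebraMap F K).comp
        (L.V.comap (algebraMap F Ω)).subtype))).coeff j).coeff e))
        (((((ψ₀ i).G.map (MvPolynomial.map φ)).coeff j).coeff e : k) : L.κ)
      rw [Polynomial.coeff_map, MvPolynomial.coeff_map, Polynomial.coeff_map,
        MvPolynomial.coeff_map]
      exact hvK _
    · change L.rs.Hv (algebraMap K Ω ((MvPolynomial.map ((algebraMap F K).comp
        (L.V.comap (algebraMap F Ω)).subtype) (ψ₀ i).D).coeff e))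
        (((MvPolynomial.map φ (ψ₀ i).D).coeff e : k) : L.κ)
      rw [MvPolynomial.coeff_map, MvPolynomial.coeff_map]
      exact hvK _
    · change L.rs.Hv (algebraMap K Ω (((((ψ₀ i).A i').map (MvPolynomial.map
        ((algebraMap F K).comp (L.V.comap (algebraMap F Ω)).subtype))).coeff j).coeff e))
        ((((((ψ₀ i).A i').map (MvPolynomial.map φ)).coeff j).coeff e : k) : L.κ)
      rw [Polynomial.coeff_map, MvPolynomial.coeff_map, Polynomial.coeff_map,
        MvPolynomial.coeff_map]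
      exact hvK _
  · intro i
    rw [dt_K h i]
    have h1 : ((ψ₀ i).G.map (MvPolynomial.map φ)).natDegree = (ψ₀ i).G.natDegree :=
      (h.ok i).mon.natDegree_map _
    have h2 : ((ψ₀ i).G.map (MvPolynomial.map ((algebraMap F K).comp
        (L.V.comap (algebraMap F Ω)).subtype))).natDegree = (ψ₀ i).G.natDegree :=
      (h.ok i).mon.natDegree_map _
    exact h1.trans h2.symm
  · intro i
    obtain ⟨e, he⟩ := h.hom i
    exact ⟨e, he.map φ⟩

/-- The reduction is unique. Proof: coefficientwise, `Rs.Hv.uniq`, `rdO_hv`. -/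
theorem Dat.rdx_eq (h : Dat L.V f ψ f₀ ψ₀) {k : Subfield L.κ}
    {f' : ι → MvPolynomial (Fin N) k} {ψ' : Fin m → Prj k N d}
    (hr : Rdx f L k (fun i => (ψ i).map (algebraMap F K)) f' ψ') (i : ι) (i' : Fin m) :
    MvPolynomial.map (algebraMap k L.κ) (f' i) = MvPolynomial.map (rdO F L.V) (f₀ i) ∧
      (ψ' i').map (algebraMap k L.κ) = (ψ₀ i').map (rdO F L.V) := by
  constructor
  · refine MvPolynomial.ext _ _ fun e => ?_
    rw [MvPolynomial.coeff_map, MvPolynomial.coeff_map]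
    have h1 := hr.rf i e
    rw [← h.mf i, MvPolynomial.coeff_map] at h1
    exact h1.uniq (rdO_hv _)
  · have hj := hr.rj i'
    rw [dt_K h i'] at hj
    refine dt_ext ?_ ?_ ?_ ?_ ?_
    · funext r j
      exact (hj.u r j).uniq (dt_hvK _)
    · funext j
      exact (hj.y j).uniq (dt_hvK _)
    · refine Polynomial.ext fun j => MvPolynomial.ext _ _ fun e => ?_
      have h1 := hj.G j e
      change L.rs.Hv (algebraMap K Ω ((((ψ₀ i').G.map (MvPolynomial.map ((algebraMap F K).comp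
        (L.V.comap (algebraMap F Ω)).subtype))).coeff j).coeff e)) _ at h1
      rw [Polynomial.coeff_map, MvPolynomial.coeff_map] at h1
      change (((ψ' i').G.map (MvPolynomial.map (algebraMap k L.κ))).coeff j).coeff e =
        (((ψ₀ i').G.map (MvPolynomial.map (rdO F L.V))).coeff j).coeff e
      rw [Polynomial.coeff_map, MvPolynomial.coeff_map, Polynomial.coeff_map,
        MvPolynomial.coeff_map]
      exact h1.uniq (dt_hvK _)
    · refine MvPolynomial.ext _ _ fun e => ?_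
      have h1 := hj.D e
      change L.rs.Hv (algebraMap K Ω ((MvPolynomial.map ((algebraMap F K).comp
        (L.V.comap (algebraMap F Ω)).subtype) (ψ₀ i').D).coeff e)) _ at h1
      rw [MvPolynomial.coeff_map] at h1
      change (MvPolynomial.map (algebraMap k L.κ) (ψ' i').D).coeff e =
        (MvPolynomial.map (rdO F L.V) (ψ₀ i').D).coeff e
      rw [MvPolynomial.coeff_map, MvPolynomial.coeff_map]
      exact h1.uniq (dt_hvK _)
    · funext i''
      refine Polynomial.ext fun j => MvPolynomial.ext _ _ fun e => ?_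
      have h1 := hj.A i'' j e
      change L.rs.Hv (algebraMap K Ω (((((ψ₀ i').A i'').map (MvPolynomial.map
        ((algebraMap F K).comp (L.V.comap (algebraMap F Ω)).subtype))).coeff j).coeff e)) _ at h1
      rw [Polynomial.coeff_map, MvPolynomial.coeff_map] at h1
      change ((((ψ' i').A i'').map (MvPolynomial.map (algebraMap k L.κ))).coeff j).coeff e =
        ((((ψ₀ i').A i'').map (MvPolynomial.map (rdO F L.V))).coeff j).coeff e
      rw [Polynomial.coeff_map, MvPolynomial.coeff_map, Polynomial.coeff_map,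
        MvPolynomial.coeff_map]
      exact h1.uniq (dt_hvK _)

end loc

end GX
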