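import Pool.Agent.Lib.MP_f80667_ag.Gx.ChB

/-! Roots over the points of a chart: Hensel's lemma. -/

open ZC BE PE CV IntermediateField

namespace GX

variable {F : Type} [Field F] {N d : ℕ} {ι : Type} {f : ι → MvPolynomial (Fin N) F} {K Ω : Type}
  [Field K] [Field Ω] [Algebra K Ω] [Algebra F K] [Algebra F Ω] [IsScalarTower F K Ω]
  {L : Ld K Ω} {ψ : Prj K N d}

/-- `G (c, Y)`. -/
private noncomputable def chq {K Ω : Type} [Field K] [Field Ω] [Algebra K Ω] {d : ℕ}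
    (c : Fin (d + 1) → Ω) (P : Polynomial (MvPolynomial (Fin (d + 1)) K)) : Polynomial Ω :=
  P.map (MvPolynomial.aeval c : MvPolynomial (Fin (d + 1)) K →ₐ[K] Ω).toRingHom

private theorem chq_eval {K Ω : Type} [Field K] [Field Ω] [Algebra K Ω] {d : ℕ}
    (c : Fin (d + 1) → Ω) (w : Ω) (P : Polynomial (MvPolynomial (Fin (d + 1)) K)) :
    (chq c P).eval w = pe c w P := by
  rw [chq, Polynomial.eval_map, pe, Polynomial.coe_eval₂RingHom]

private theorem chq_der {K Ω : Type} [Field K] [Field Ω] [Algebra K Ω] {d : ℕ}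
    (c : Fin (d + 1) → Ω) (w : Ω) (P : Polynomial (MvPolynomial (Fin (d + 1)) K)) :
    (Polynomial.derivative (chq c P)).eval w = pe c w (Polynomial.derivative P) := by
  rw [chq, Polynomial.derivative_map]
  exact chq_eval c w (Polynomial.derivative P)

private theorem chq_le {K Ω : Type} [Field K] [Field Ω] [Algebra K Ω] {L : Ld K Ω} {d : ℕ}
    {c : Fin (d + 1) → Ω} {P : Polynomial (MvPolynomial (Fin (d + 1)) K)}
    (hP : ∀ j e, L.nm (algebraMap K Ω ((P.coeff j).coeff e)) ≤ 1)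
    (hc : ∀ r, L.nm (c r) ≤ 1) (i : ℕ) : L.nm ((chq c P).coeff i) ≤ 1 := by
  rw [chq, Polynomial.coeff_map]
  exact GM.ae_le (hP i) hc

private theorem ch_pow {K Ω : Type} [Field K] [Field Ω] [Algebra K Ω] (L : Ld K Ω) {w ω : Ω}
    (hw : L.nm w ≤ 1) (hω : L.nm ω ≤ 1) (j : ℕ) :
    ∃ z, L.nm z ≤ 1 ∧ (w + ω) ^ j = w ^ j + j * w ^ (j - 1) * ω + z * ω ^ 2 := by
  induction j with
  | zero =>
    refine ⟨0, ?_, ?_⟩
    · rw [L.zero]
      exact zero_le_one
    · rw [Nat.cast_zero, pow_zero, pow_zero]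
      ring
  | succ j ih =>
    obtain ⟨z, hz, h1⟩ := ih
    refine ⟨j * w ^ (j - 1) + (w + ω) * z, ?_, ?_⟩
    · refine (L.add _ _).trans (max_le ?_ ?_)
      · rw [L.mul, L.pow]
        exact mul_le_one₀ (L.nat_le j) (pow_nonneg (L.nonneg _) _)
          (pow_le_one₀ (L.nonneg _) hw)
      · rw [L.mul]
        exact mul_le_one₀ ((L.add _ _).trans (max_le hw hω)) (L.nonneg _) hz
    · rcases j with _ | j
      · rw [pow_zero, pow_zero, Nat.cast_zero] at h1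
        have h2 : z * ω ^ 2 = 0 := by linear_combination -h1
        rw [Nat.cast_zero, zero_add, pow_one, pow_one, Nat.cast_one, Nat.sub_self, pow_zero]
        linear_combination (-(w + ω)) * h2
      · rw [pow_succ (w + ω) (j + 1), h1, Nat.add_sub_cancel, Nat.add_sub_cancel]
        push_cast
        ring

private theorem ch_tay {K Ω : Type} [Field K] [Field Ω] [Algebra K Ω] (L : Ld K Ω)
    {q : Polynomial Ω} (hq : ∀ i, L.nm (q.coeff i) ≤ 1) {w ω : Ω}
    (hw : L.nm w ≤ 1) (hω : L.nm ω ≤ 1) : ∃ z, L.nm z ≤ 1 ∧ q.eval (w + ω) =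
      q.eval w + (Polynomial.derivative q).eval w * ω + z * ω ^ 2 := by
  choose z hz h1 using ch_pow L hw hω
  refine ⟨∑ e ∈ q.support, q.coeff e * z e, ?_, ?_⟩
  · refine L.sum_le _ _ zero_le_one fun e _ => ?_
    rw [L.mul]
    exact mul_le_one₀ (hq e) (L.nonneg _) (hz e)
  · rw [Polynomial.derivative_eval, Polynomial.eval_eq_sum, Polynomial.eval_eq_sum,
      Polynomial.sum, Polynomial.sum, Polynomial.sum, Finset.sum_mul, Finset.sum_mul,
      ← Finset.sum_add_distrib, ← Finset.sum_add_distrib]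
    refine Finset.sum_congr rfl fun e _ => ?_
    rw [h1 e]
    ring

private theorem ch_prod {K Ω : Type} [Field K] [Field Ω] [Algebra K Ω] (L : Ld K Ω)
    (s : Multiset Ω) (w : Ω) (h : ∀ a ∈ s, 1 ≤ L.nm (w - a)) :
    1 ≤ L.nm ((s.map fun a => w - a).prod) := by
  induction s using Multiset.induction_on with
  | empty => rw [Multiset.map_zero, Multiset.prod_zero, L.one]
  | cons a s ih =>
    rw [Multiset.map_cons, Multiset.prod_cons, L.mul]
    exact one_le_mul_of_one_le_of_one_le (h a (Multiset.mem_cons_self a s))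
      (ih fun b hb => h b (Multiset.mem_cons_of_mem hb))

/-- Proof: `bez`: `B G + B' G_Y = D` at `(c, w)`, `pe_le`. -/
theorem Pj.gy_one (h : Pj f L ψ) {c : Fin (d + 1) → Ω} {w : Ω} (hc : ∀ r, L.nm (c r) ≤ 1)
    (hw : L.nm w ≤ 1) (hG : L.nm (pe c w ψ.G) < 1)
    (hD : L.nm (MvPolynomial.aeval c ψ.D) = 1) :
    L.nm (pe c w (Polynomial.derivative ψ.G)) = 1 := by
  obtain ⟨B, B', hB, hB', h1⟩ := h.bez
  have h2 := congrArg (pe c w) h1
  rw [map_add, map_mul, map_mul, pe_C] at h2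
  have h3 : L.nm (pe c w B * pe c w ψ.G) < 1 := by
    rw [L.mul]
    exact mul_lt_one_of_nonneg_of_lt_one_right (pe_le hB hc hw) (L.nonneg _) hG
  have h4 : L.nm (pe c w B' * pe c w (Polynomial.derivative ψ.G)) = 1 := by
    rw [← hD]
    refine L.eq_of_close ?_
    rw [hD, ← h2, sub_add_cancel_right, L.neg]
    exact h3
  have h5 : L.nm (pe c w (Polynomial.derivative ψ.G)) ≤ 1 := by
    rw [← chq_der]
    refine L.eval_le (fun i => ?_) hw
    rw [Polynomial.coeff_derivative, L.mul]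
    refine mul_le_one₀ (chq_le h.iG hc _) (L.nonneg _) ?_
    have h6 := L.nat_le (i + 1)
    rwa [Nat.cast_succ] at h6
  rw [L.mul] at h4
  refine le_antisymm h5 ?_
  rw [← h4]
  exact mul_le_of_le_one_left (L.nonneg _) (pe_le hB' hc hw)

/-- Taylor in `Y`. Proof: `Polynomial.binomExpansion` for `G (c, Y) = ψ.G.map (aeval c)` (or powers: `(w + ω) ^ j - w ^ j - j w ^ (j - 1) ω` is `ω ^ 2` times an integral element), `z` integral. -/
theorem Pj.tay (h : Pj f L ψ) {c : Fin (d + 1) → Ω} {w ω : Ω} (hc : ∀ r, L.nm (c r) ≤ 1)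
    (hw : L.nm w ≤ 1) (hω : L.nm ω ≤ 1) : ∃ z, L.nm z ≤ 1 ∧ pe c (w + ω) ψ.G =
      pe c w ψ.G + pe c w (Polynomial.derivative ψ.G) * ω + z * ω ^ 2 := by
  obtain ⟨z, hz, h1⟩ := ch_tay L (q := chq c ψ.G) (chq_le h.iG hc) hw hω
  refine ⟨z, hz, ?_⟩
  rw [chq_eval, chq_eval, chq_der] at h1
  exact h1

/-- Proof: `tay` at `w` with `ω = w' - w`: `0 = (G_Y + z ω) ω` and `G_Y + z ω` is a unit (`gy_one`). -/
theorem Pj.root_uniq (h : Pj f L ψ) {c : Fin (d + 1) → Ω} {w w' : Ω}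
    (hc : ∀ r, L.nm (c r) ≤ 1) (hD : L.nm (MvPolynomial.aeval c ψ.D) = 1) (hw : L.nm w ≤ 1)
    (hw' : L.nm w' ≤ 1) (hG : pe c w ψ.G = 0) (hG' : pe c w' ψ.G = 0)
    (hww : L.nm (w - w') < 1) : w = w' := by
  obtain ⟨z, hz, h1⟩ := h.tay (w := w) (ω := w' - w) hc hw ((L.sub _ _).trans (max_le hw' hw))
  rw [add_sub_cancel, hG, hG'] at h1
  by_contra hne
  have h2 : w' - w ≠ 0 := fun h0 => hne (sub_eq_zero.1 h0).symm
  have h3 : (pe c w (Polynomial.derivative ψ.G)) = -(z * (w' - w)) := by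
    refine mul_right_cancel₀ h2 ?_
    linear_combination -h1
  have h4 := h.gy_one hc hw (by rw [hG, L.zero]; exact zero_lt_one) hD
  rw [h3, L.neg, L.mul] at h4
  have h5 : L.nm z * L.nm (w' - w) < 1 :=
    mul_lt_one_of_nonneg_of_lt_one_right hz (L.nonneg _) (by rw [L.sub_comm]; exact hww)
  exact absurd h4 h5.ne

/-- Proof: `tay` at `w` with `ω = w₀ - w`: `G (c, w₀) = (G_Y + z ω) ω` and `G_Y + z ω` is a unit. -/
theorem Pj.root_le (h : Pj f L ψ) {c : Fin (d + 1) → Ω} {w w₀ : Ω}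
    (hc : ∀ r, L.nm (c r) ≤ 1) (hD : L.nm (MvPolynomial.aeval c ψ.D) = 1) (hw : L.nm w ≤ 1)
    (hw₀ : L.nm w₀ ≤ 1) (hG : pe c w ψ.G = 0) (hww : L.nm (w - w₀) < 1) :
    L.nm (w - w₀) ≤ L.nm (pe c w₀ ψ.G) := by
  obtain ⟨z, hz, h1⟩ := h.tay (w := w) (ω := w₀ - w) hc hw ((L.sub _ _).trans (max_le hw₀ hw))
  rw [add_sub_cancel, hG] at h1
  have h2 : pe c w₀ ψ.G = (z * (w₀ - w) + pe c w (Polynomial.derivative ψ.G)) * (w₀ - w) := by
    rw [h1]
    ring
  have h4 := h.gy_one hc hw (by rw [hG, L.zero]; exact zero_lt_one) hD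
  have h5 : L.nm (z * (w₀ - w)) < 1 := by
    rw [L.mul]
    exact mul_lt_one_of_nonneg_of_lt_one_right hz (L.nonneg _) (by rw [L.sub_comm]; exact hww)
  rw [h2, L.mul, L.add_eq (by rw [h4]; exact h5), h4, one_mul, L.sub_comm]

/-- **Hensel.** Proof: `Ω` is algebraically closed: `G (c, Y) = ∏ (Y - w_i)` with integral `w_i` (monic with integral coefficients: `L.nm (w_i) ≤ 1`), so one of the `w_i` has `nm (w₀ - w_i) < 1`. It is the only root near `w₀` (`root_uniq`), so it is fixed by the group of `M`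
(`pe_act`): it is in `M` (`mem_of_fix`, see `fp_mem` in `Gx/XA.lean`); `root_le`. -/
theorem Pj.root [CharZero K] [IsAlgClosure K Ω] (h : Pj f L ψ) {M : IntermediateField K Ω}
    {c : Fin (d + 1) → Ω} (hc : Iv L M c) (hD : L.nm (MvPolynomial.aeval c ψ.D) = 1) {w₀ : Ω}
    (hw : w₀ ∈ M) (hw₀ : L.nm w₀ ≤ 1) (hG : L.nm (pe c w₀ ψ.G) < 1) :
    ∃ w ∈ M, L.nm w ≤ 1 ∧ pe c w ψ.G = 0 ∧ L.nm (w - w₀) ≤ L.nm (pe c w₀ ψ.G) := by
  have hΩ : IsAlgClosed Ω := IsAlgClosure.isAlgClosed K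
  have hc1 : ∀ r, L.nm (c r) ≤ 1 := fun r => (hc r).2
  have hm : (chq c ψ.G).Monic := h.mon.map _
  obtain ⟨w, hwr, hww⟩ : ∃ w ∈ (chq c ψ.G).roots, L.nm (w₀ - w) < 1 := by
    by_contra hno
    have h1 : 1 ≤ L.nm (((chq c ψ.G).roots.map fun a => w₀ - a).prod) := by
      refine ch_prod L _ _ fun a ha => ?_
      by_contra hlt
      exact hno ⟨a, ha, not_le.1 hlt⟩
    rw [← (IsAlgClosed.splits (chq c ψ.G)).eval_eq_prod_roots_of_monic hm, chq_eval] at h1
    exact absurd hG (not_lt.2 h1)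
  have h0 : pe c w ψ.G = 0 := by
    rw [← chq_eval]
    exact (Polynomial.mem_roots hm.ne_zero).1 hwr
  have hw1 : L.nm w ≤ 1 := L.root_le hm (chq_le h.iG hc1) (by rw [chq_eval]; exact h0)
  have hww' : L.nm (w - w₀) < 1 := by
    rw [L.sub_comm]
    exact hww
  refine ⟨w, mem_of_fix M fun γ hγ => ?_, hw1, h0, h.root_le hc1 hD hw1 hw₀ h0 hww'⟩
  have hfix : ∀ y ∈ M, γ y = y := fun y hy => (IntermediateField.mem_fixingSubgroup_iff M γ).1 hγ y hy
  have h2 := congrArg γ h0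
  rw [pe_act, map_zero] at h2
  have h3 : (fun r => γ (c r)) = c := funext fun r => hfix _ (hc r).1
  rw [h3] at h2
  refine (h.root_uniq hc1 hD hw1 (by rw [L.act]; exact hw1) h0 h2 ?_).symm
  have h4 : w - γ w = (w - w₀) - γ (w - w₀) := by
    rw [map_sub, hfix w₀ hw]
    ring
  rw [h4]
  refine (L.sub _ _).trans_lt (max_lt hww' ?_)
  rw [L.act]
  exact hww'

end GX
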