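import Pool.Agent.Lib.MP_f80667_ag.Gx.Al
import Pool.Agent.Lib.MP_f80667_ag.Gm.AlD

/-!
The functions on the pairs (point, tangent vector).

* `Ft f ψ T`: a function `T` with values in an abelian group which is additive in the tangent vector, homogeneous, `0` on the radial
  vectors and satisfies the relations of the curves `G_i (a(z), Y) = 0`.
* `Fv f ψ ℓ`: the same for functions with values in the field, linear in the tangent vector.
-/

open MvPolynomial

namespace GX

variable {κ : Type} [Field κ] {N d m : ℕ} {ι : Type}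

/-- The values of an arc. -/
noncomputable def av {σ : Type} (a : σ → Polynomial κ) (c : κ) : σ → κ := fun i => (a i).eval c

/-- The values of the derivative of an arc. -/
noncomputable def dv {σ : Type} (a : σ → Polynomial κ) (c : κ) : σ → κ :=
  fun i => (Polynomial.derivative (a i)).eval c

open Classical in
/-- `T` is additive in the tangent vector, homogeneous, `0` on the radial vectors and satisfies the relations of the curves. -/
structure Ft {B : Type} [AddCommGroup B] (f : ι → MvPolynomial (Fin N) κ)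
    (ψ : Fin m → Prj κ N d) (T : (Fin N → κ) → (Fin N → κ) → B) : Prop where
  add : ∀ x t t', Tg f x t → Tg f x t' → T x (t + t') = T x t + T x t'
  hom : ∀ x t (c : κ), c ≠ 0 → Tg f x t → T (c • x) (c • t) = T x t
  rad : ∀ x (c : κ), Zp f x → T x (c • x) = 0
  crv : ∀ (i : Fin m) (a : Fin (d + 1) → Polynomial κ) (ρ j : ℕ) (S : Finset κ) (τ : κ),
    (∀ r, (a r).natDegree ≤ ρ) → j * ρ < S.card → (∀ c ∈ S, eval (av a c) (ψ i).D ≠ 0) →
    ∑ c ∈ S, (((ψ i).gc (av a c)).roots.map fun w => T ((ψ i).pt (av a c) w)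
      ((τ * w ^ j * (∏ c' ∈ S.erase c, (c - c'))⁻¹) • (ψ i).lt (av a c) w (dv a c))).sum = 0

open Classical in
/-- The same for functions with values in `κ`, linear in the tangent vector. -/
structure Fv (f : ι → MvPolynomial (Fin N) κ) (ψ : Fin m → Prj κ N d)
    (ℓ : (Fin N → κ) → (Fin N → κ) → κ) : Prop where
  add : ∀ x t t', Tg f x t → Tg f x t' → ℓ x (t + t') = ℓ x t + ℓ x t'
  smul : ∀ x t (c : κ), Tg f x t → ℓ x (c • t) = c * ℓ x t
  hom : ∀ x t (c : κ), c ≠ 0 → Tg f x t → ℓ (c • x) (c • t) = ℓ x t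
  rad : ∀ x (c : κ), Zp f x → ℓ x (c • x) = 0
  crv : ∀ (i : Fin m) (a : Fin (d + 1) → Polynomial κ) (ρ j : ℕ) (S : Finset κ),
    (∀ r, (a r).natDegree ≤ ρ) → j * ρ < S.card → (∀ c ∈ S, eval (av a c) (ψ i).D ≠ 0) →
    ∑ c ∈ S, (∏ c' ∈ S.erase c, (c - c'))⁻¹ *
      (((ψ i).gc (av a c)).roots.map fun w => w ^ j *
        ℓ ((ψ i).pt (av a c) w) ((ψ i).lt (av a c) w (dv a c))).sum = 0

end GX
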