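import Pool.Agent.Lib.MP_f80667_ag.Gx.XA
import Pool.Agent.Lib.MP_f80667_ag.Gx.Ft
import Pool.Agent.Lib.MP_f80667_ag.Gm.GsC

/-!
The function `T` of a homomorphism `λ` from the cycles to an abelian group which is `0` on the cycles rationally equivalent to `0` and on the displacements of
level `2`; projective varieties.

* `Lm f L lam`: the hypotheses on `lam`.
* `vl L lam M R s P P'`: `s⁻¹ lam (tr ([P'] - [P]))`, the trace from `Mu L M R s` to `K`.
* `Tv L lam M R y u b`: `b` is the value of `T` at the point `y` and the tangent vector `u`. `Tf L lam M R f' y u`: the function `T`.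
-/

open ZC BE PE CV IntermediateField

namespace GX

variable {F : Type} [Field F] {N : ℕ} {ι : Type} (f : ι → MvPolynomial (Fin N) F) {K Ω : Type}
  [Field K] [CharZero K] [Field Ω] [Algebra K Ω] [Algebra F K] [Algebra F Ω]
  [IsScalarTower F K Ω] [IsAlgClosure K Ω] (L : Ld K Ω)

/-- The hypotheses on `lam`. -/
structure Lm {B : Type} [AddCommGroup B] (lam : ((Xf f).pt Ω →₀ ℤ) →+ B) : Prop where
  rat : ∀ z ∈ (Xf f).ratEq K Ω, lam z = 0
  two : ∀ z ∈ Dl f L 2 (⊥ : IntermediateField K Ω), lam z = 0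
  tor : ∀ z ∈ Dl f L 1 (⊥ : IntermediateField K Ω), L.p • lam z = 0

variable {f} in
/-- `s⁻¹ lam (tr ([P'] - [P]))`. -/
noncomputable def vl {B : Type} [AddCommGroup B] (lam : ((Xf f).pt Ω →₀ ℤ) →+ B)
    (M : IntermediateField K Ω) (R s : ℕ) (P P' : (Xf f).pt Ω) : B :=
  ((s : ZMod L.p)⁻¹).val •
    lam (rtr (Xf f) ⊥ (GM.Mu L M R s) (Finsupp.single P' 1 - Finsupp.single P 1))

variable {f} in
/-- `b` is the value of `T` at `y`, `u`. -/
def Tv {B : Type} [AddCommGroup B] (lam : ((Xf f).pt Ω →₀ ℤ) →+ B)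
    (M : IntermediateField K Ω) (R : ℕ) (y u : Fin N → GM.kI L R) (b : B) : Prop :=
  ∃ s : ℕ, ¬ L.p ∣ s ∧ ∃ (x x' : Fin N → Ω) (P P' : (Xf f).pt Ω), Iv L (GM.Mu L M R s) x ∧
    Iv L (GM.Mu L M R s) x' ∧ Co P x ∧ Co P' x' ∧ GM.Rdv L (GM.kI L R) x y ∧
    (∀ i, L.rs.Hv ((x' i - x i) / (L.p : Ω)) (u i : L.κ)) ∧ b = vl L lam M R s P P'

open Classical in
variable {f} in
/-- The function `T`. -/
noncomputable def Tf {B : Type} [AddCommGroup B] (lam : ((Xf f).pt Ω →₀ ℤ) →+ B)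
    (M : IntermediateField K Ω) (R : ℕ) (f' : ι → MvPolynomial (Fin N) (GM.kI L R))
    (y u : Fin N → GM.kI L R) : B :=
  if h : Tg f' y u ∧ ∃ b, Tv L lam M R y u b then h.2.choose else 0

end GX
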