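import Pool.Agent.Lib.MP_f80667_ag.Gx.Pe

/-! Values at dual numbers. `du a b = a + b ε`, `dn x t = x + t ε`. -/

open MvPolynomial TrivSqZeroExt

namespace GX

section ring

variable {R S : Type} [CommRing R] [CommRing S] [Algebra R S] {N d : ℕ}

/-- The dual number `a + b ε`. -/
def du (a b : S) : DualNumber S := TrivSqZeroExt.inl a + TrivSqZeroExt.inr b

/-- The vector `x + t ε`. -/
def dn {σ : Type} (x t : σ → S) : σ → DualNumber S := fun j => du (x j) (t j)

private theorem fst_du (a b : S) : (du a b).fst = a := by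
  rw [du, TrivSqZeroExt.fst_add, TrivSqZeroExt.fst_inl, TrivSqZeroExt.fst_inr, add_zero]

private theorem snd_du (a b : S) : (du a b).snd = b := by
  rw [du, TrivSqZeroExt.snd_add, TrivSqZeroExt.snd_inl, TrivSqZeroExt.snd_inr, zero_add]

theorem du_add (a b a' b' : S) : du a b + du a' b' = du (a + a') (b + b') := by
  refine TrivSqZeroExt.ext ?_ ?_
  · rw [TrivSqZeroExt.fst_add, fst_du, fst_du, fst_du]
  · rw [TrivSqZeroExt.snd_add, snd_du, snd_du, snd_du]

theorem du_mul (a b a' b' : S) : du a b * du a' b' = du (a * a') (a * b' + a' * b) := by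
  refine TrivSqZeroExt.ext ?_ ?_
  · rw [TrivSqZeroExt.fst_mul, fst_du, fst_du, fst_du]
  · rw [TrivSqZeroExt.snd_mul, snd_du, snd_du, snd_du, fst_du, fst_du, smul_eq_mul,
      op_smul_eq_mul, mul_comm b a']

theorem du_map (r : R) : algebraMap R (DualNumber S) r = du (algebraMap R S r) 0 := by
  rw [du, TrivSqZeroExt.inr_zero, add_zero]
  rfl

theorem du_inj {a b a' b' : S} : du a b = du a' b' ↔ a = a' ∧ b = b' := by
  constructor
  · intro h
    have h1 := congrArg TrivSqZeroExt.fst h
    have h2 := congrArg TrivSqZeroExt.snd h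
    rw [fst_du, fst_du] at h1
    rw [snd_du, snd_du] at h2
    exact ⟨h1, h2⟩
  · rintro ⟨rfl, rfl⟩
    rfl

theorem du_zero : (0 : DualNumber S) = du 0 0 := by
  rw [du, TrivSqZeroExt.inr_zero, TrivSqZeroExt.inl_zero, add_zero]

private theorem du_one : (1 : DualNumber S) = du 1 0 := by
  rw [du, TrivSqZeroExt.inr_zero, TrivSqZeroExt.inl_one, add_zero]

private theorem du_sum {κ : Type} (s : Finset κ) (a b : κ → S) :
    ∑ j ∈ s, du (a j) (b j) = du (∑ j ∈ s, a j) (∑ j ∈ s, b j) := by
  classical
  induction s using Finset.induction_on with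
  | empty =>
    rw [Finset.sum_empty, Finset.sum_empty, Finset.sum_empty]
    exact du_zero
  | insert i s hi ih =>
    rw [Finset.sum_insert hi, Finset.sum_insert hi, Finset.sum_insert hi, ih, du_add]

theorem du_unit {a b : S} (ha : IsUnit a) : IsUnit (du a b) := by
  obtain ⟨c, hc⟩ := ha.exists_right_inv
  refine IsUnit.of_mul_eq_one (du c (-(c * c * b))) ?_
  rw [du_mul, du_one, du_inj]
  refine ⟨hc, ?_⟩
  have h : a * -(c * c * b) + c * b = c * b * (1 - a * c) := by ring
  rw [h, hc, sub_self, mul_zero]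

/-- Proof: induction on `P` (`pderiv_mul`, `pderiv_X`, `du_mul`, ..). -/
theorem aeval_dn {σ : Type} [Fintype σ] (x t : σ → S) (P : MvPolynomial σ R) :
    aeval (dn x t) P = du (aeval x P) (∑ j, aeval x (pderiv j P) * t j) := by
  classical
  induction P using MvPolynomial.induction_on with
  | C r =>
    rw [← MvPolynomial.algebraMap_eq, AlgHom.commutes, AlgHom.commutes, du_map, du_inj]
    refine ⟨rfl, (Finset.sum_eq_zero fun j _ => ?_).symm⟩
    rw [MvPolynomial.algebraMap_eq, pderiv_C, map_zero, zero_mul]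
  | add p q hp hq =>
    rw [map_add, map_add, hp, hq, du_add, ← Finset.sum_add_distrib]
    congr 1
    refine Finset.sum_congr rfl fun j _ => ?_
    rw [map_add, map_add, add_mul]
  | mul_X p i hp =>
    rw [map_mul, map_mul, aeval_X, aeval_X, hp, dn, du_mul, du_inj]
    refine ⟨rfl, ?_⟩
    have h : ∀ j, aeval x (pderiv j (p * X i)) * t j =
        (if j = i then aeval x p * t i else 0) + x i * (aeval x (pderiv j p) * t j) := by
      intro j
      rw [pderiv_mul, map_add, map_mul, map_mul, aeval_X, pderiv_X]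
      by_cases hij : j = i
      · subst hij
        rw [Pi.single_eq_same, map_one, if_pos rfl]
        ring
      · rw [Pi.single_eq_of_ne (Ne.symm hij), map_zero, if_neg hij]
        ring
    rw [Finset.sum_congr rfl fun j _ => h j, Finset.sum_add_distrib, ← Finset.mul_sum,
      Finset.sum_ite_eq' Finset.univ i, if_pos (Finset.mem_univ i)]

private theorem dr_add (r : Fin (d + 1)) (P Q : Polynomial (MvPolynomial (Fin (d + 1)) R)) :
    dr r (P + Q) = dr r P + dr r Q := by
  rw [dr, dr, dr]
  refine Polynomial.sum_add_index P Q _ (fun j => ?_) fun j a b => ?_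
  · rw [map_zero, map_zero, zero_mul]
  · rw [map_add, map_add, add_mul]

private theorem dr_mon (r : Fin (d + 1)) (n : ℕ) (a : MvPolynomial (Fin (d + 1)) R) :
    dr r (Polynomial.C a * Polynomial.X ^ n) = Polynomial.C (pderiv r a) * Polynomial.X ^ n := by
  rw [dr, Polynomial.C_mul_X_pow_eq_monomial, Polynomial.sum_monomial_index]
  rw [map_zero, map_zero, zero_mul]

/-- Proof: induction on `P`: both sides are additive in `P` (`dr` is additive: `Polynomial.sum_add_index`), for `C a * X ^ j` from `aeval_dn`. -/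
theorem pe_dn (c ξ : Fin (d + 1) → S) (w ω : S)
    (P : Polynomial (MvPolynomial (Fin (d + 1)) R)) :
    pe (dn c ξ) (du w ω) P = du (pe c w P) (∑ r, ξ r * pe c w (dr r P) +
      ω * pe c w (Polynomial.derivative P)) := by
  induction P using Polynomial.induction_on with
  | C a =>
    have h : ∀ r, dr r (Polynomial.C a) = Polynomial.C (pderiv r a) := by
      intro r
      have h1 := dr_mon r 0 a
      rwa [pow_zero, mul_one, mul_one] at h1
    rw [pe_C, pe_C, Polynomial.derivative_C, map_zero, mul_zero, add_zero, aeval_dn]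
    congr 1
    refine Finset.sum_congr rfl fun r _ => ?_
    rw [h, pe_C, mul_comm]
  | add P Q hP hQ =>
    rw [map_add, map_add, hP, hQ, du_add, Polynomial.derivative_add, map_add]
    congr 1
    have h : ∀ r, ξ r * pe c w (dr r (P + Q)) =
        ξ r * pe c w (dr r P) + ξ r * pe c w (dr r Q) := by
      intro r
      rw [dr_add, map_add, mul_add]
    rw [Finset.sum_congr rfl fun r _ => h r, Finset.sum_add_distrib]
    ring
  | monomial n a ih =>
    have h : Polynomial.C a * Polynomial.X ^ (n + 1) =
        Polynomial.C a * Polynomial.X ^ n *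
          (Polynomial.X : Polynomial (MvPolynomial (Fin (d + 1)) R)) := by
      rw [pow_succ, mul_assoc]
    have h2 : ∀ r, dr r (Polynomial.C a * Polynomial.X ^ (n + 1)) =
        dr r (Polynomial.C a * Polynomial.X ^ n) * Polynomial.X := by
      intro r
      rw [dr_mon, dr_mon, pow_succ, mul_assoc]
    have h3 : ∀ r, ξ r * pe c w (dr r (Polynomial.C a * Polynomial.X ^ (n + 1))) =
        w * (ξ r * pe c w (dr r (Polynomial.C a * Polynomial.X ^ n))) := by
      intro r
      rw [h2, map_mul, pe_X]
      ring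
    rw [Finset.sum_congr rfl fun r _ => h3 r, ← Finset.mul_sum, h]
    generalize Polynomial.C a * Polynomial.X ^ n = Q at ih ⊢
    rw [map_mul, map_mul, ih, pe_X, pe_X, du_mul, Polynomial.derivative_mul,
      Polynomial.derivative_X, mul_one, map_add, map_mul, pe_X]
    congr 1
    ring

theorem lv_dn (a : Fin N → R) (x t : Fin N → S) : lv a (dn x t) = du (lv a x) (lv a t) := by
  rw [lv, lv, lv, ← du_sum]
  refine Finset.sum_congr rfl fun j _ => ?_
  rw [dn, du_map, du_mul, mul_zero, add_zero]

theorem uv_dn (ψ : Prj R N d) (x t : Fin N → S) : ψ.uv (dn x t) = dn (ψ.uv x) (ψ.uv t) :=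
  funext fun _ => lv_dn _ _ _

theorem yv_dn (ψ : Prj R N d) (x t : Fin N → S) : ψ.yv (dn x t) = du (ψ.yv x) (ψ.yv t) :=
  lv_dn _ _ _

end ring

end GX
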