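import Pool.Agent.Lib.MP_f80667_ag.Gx.Ca
import Pool.Agent.Lib.MP_f80667_ag.Gx.Db

/-! The points and the tangent vectors over a point of the projective space. -/

open MvPolynomial

namespace GX

section field

variable {κ : Type} [Field κ] {N d m : ℕ} {ι : Type} {f : ι → MvPolynomial (Fin N) κ}
  {ψ : Prj κ N d}

private theorem lt_ae {σ : Type} (x : σ → κ) (P : MvPolynomial σ κ) : aeval x P = eval x P :=
  rfl

private theorem lt_ne {x : Fin N → κ} (hx : x ≠ 0) : ∃ k, x k ≠ 0 := by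
  by_contra h
  exact hx (funext fun k => by_contra fun hk => h ⟨k, hk⟩)

/-- Tangent vectors are points over the dual numbers. Proof: `aeval_dn` (`du_inj`, `du_zero`), `aeval = eval`. -/
theorem tg_iff {x t : Fin N → κ} : Tg f x t ↔ x ≠ 0 ∧ ∀ i, aeval (dn x t) (f i) = 0 := by
  rw [Tg, Zp]
  have h : ∀ i, aeval (dn x t) (f i) = 0 ↔
      eval x (f i) = 0 ∧ ∑ j, eval x (pderiv j (f i)) * t j = 0 := by
    intro i
    rw [aeval_dn, du_zero, du_inj]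
    rfl
  constructor
  · rintro ⟨⟨h1, h2⟩, h3⟩
    exact ⟨h1, fun i => (h i).2 ⟨h2 i, h3 i⟩⟩
  · rintro ⟨h1, h2⟩
    exact ⟨⟨h1, fun i => ((h i).1 (h2 i)).1⟩, fun i => ((h i).1 (h2 i)).2⟩

theorem tg_add {x t t' : Fin N → κ} (h : Tg f x t) (h' : Tg f x t') : Tg f x (t + t') := by
  refine ⟨h.1, fun i => ?_⟩
  have h1 : ∑ j, eval x (pderiv j (f i)) * (t + t') j =
      ∑ j, eval x (pderiv j (f i)) * t j + ∑ j, eval x (pderiv j (f i)) * t' j := by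
    rw [← Finset.sum_add_distrib]
    exact Finset.sum_congr rfl fun j _ => mul_add _ _ _
  rw [h1, h.2 i, h'.2 i, add_zero]

theorem tg_smul {x t : Fin N → κ} (h : Tg f x t) (s : κ) : Tg f x (s • t) := by
  refine ⟨h.1, fun i => ?_⟩
  have h1 : ∑ j, eval x (pderiv j (f i)) * (s • t) j =
      s * ∑ j, eval x (pderiv j (f i)) * t j := by
    rw [Finset.mul_sum]
    exact Finset.sum_congr rfl fun j _ => mul_left_comm _ _ _
  rw [h1, h.2 i, mul_zero]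

theorem zp_smul (hf : ∀ i, ∃ e, (f i).IsHomogeneous e) {x : Fin N → κ} (h : Zp f x) {s : κ}
    (hs : s ≠ 0) : Zp f (s • x) := by
  refine ⟨smul_ne_zero hs h.1, fun i => ?_⟩
  obtain ⟨e, he⟩ := hf i
  have h1 : eval (s • x) (f i) = s ^ e * eval x (f i) := aeval_smul_hom he x s
  rw [h1, h.2 i, mul_zero]

/-- Proof: the derivatives are homogeneous, or `tg_iff`: `dn (s x) (s t)` is the multiple by `du s 0`. -/
theorem tg_hom (hf : ∀ i, ∃ e, (f i).IsHomogeneous e) {x t : Fin N → κ} (h : Tg f x t) {s : κ}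
    (hs : s ≠ 0) : Tg f (s • x) (s • t) := by
  rw [tg_iff] at h ⊢
  refine ⟨smul_ne_zero hs h.1, fun i => ?_⟩
  obtain ⟨e, he⟩ := hf i
  have h1 : dn (s • x) (s • t) = du s 0 • dn x t := by
    funext j
    change du (s * x j) (s * t j) = du s 0 * du (x j) (t j)
    rw [du_mul, mul_zero, add_zero]
  rw [h1, aeval_smul_hom he, h.2 i, mul_zero]

/-- The radial vectors. Proof: `tg_iff`; `dn x (s x)` is the multiple of `dn x 0` by `du 1 s` (`aeval_smul_hom`); `aeval_dn` with `t = 0`. -/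
theorem tg_rad (hf : ∀ i, ∃ e, (f i).IsHomogeneous e) {x : Fin N → κ} (h : Zp f x) (s : κ) :
    Tg f x (s • x) := by
  rw [tg_iff]
  refine ⟨h.1, fun i => ?_⟩
  obtain ⟨e, he⟩ := hf i
  have h1 : dn x (s • x) = du 1 s • dn x 0 := by
    funext j
    change du (x j) (s * x j) = du 1 s * du (x j) 0
    rw [du_mul, mul_zero, zero_add, one_mul, mul_comm]
  have h2 : aeval (dn x 0) (f i) = 0 := by
    rw [aeval_dn, du_zero, du_inj]
    refine ⟨h.2 i, Finset.sum_eq_zero fun j _ => ?_⟩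
    rw [Pi.zero_apply, mul_zero]
  rw [h1, aeval_smul_hom he, h2, mul_zero]

/-- Proof: `D` is homogeneous of degree `≠ 0`. -/
theorem Prj.Ok.ne (h : ψ.Ok f) {c : Fin (d + 1) → κ} (hD : eval c ψ.D ≠ 0) : c ≠ 0 := by
  rintro rfl
  obtain ⟨e, he, hh⟩ := h.homD
  have h1 : eval ((0 : κ) • (0 : Fin (d + 1) → κ)) ψ.D = 0 ^ e * eval 0 ψ.D :=
    aeval_smul_hom hh 0 0
  rw [zero_smul, zero_pow he, zero_mul] at h1
  exact hD h1

/-- The points. Proof: `Ok.in_pt` with `S = κ`, `v = D (c)⁻¹`; `pt ≠ 0` because `u (pt) = c ≠ 0`. -/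
theorem Prj.Ok.pt_zp (h : ψ.Ok f) (hf : ∀ i, ∃ e, (f i).IsHomogeneous e) {c : Fin (d + 1) → κ}
    {w : κ} (hG : pe c w ψ.G = 0) (hD : eval c ψ.D ≠ 0) :
    Zp f (ψ.pt c w) ∧ ψ.uv (ψ.pt c w) = c ∧ ψ.yv (ψ.pt c w) = w := by
  have hv : (eval c ψ.D)⁻¹ * aeval c ψ.D = 1 := inv_mul_cancel₀ hD
  have hx : ψ.pt c w = fun j => (eval c ψ.D)⁻¹ * pe c w (ψ.A j) :=
    funext fun j => div_eq_inv_mul _ _
  obtain ⟨h1, h2, h3⟩ := h.in_pt hf hG hv hx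
  refine ⟨⟨?_, h1⟩, h2, h3⟩
  intro h0
  refine h.ne hD ?_
  rw [← h2, h0]
  funext r
  change lv (ψ.u r) 0 = 0
  rw [lv]
  exact Finset.sum_eq_zero fun j _ => by rw [Pi.zero_apply, mul_zero]

theorem Prj.Ok.gy_ne (h : ψ.Ok f) {c : Fin (d + 1) → κ} {w : κ} (hG : pe c w ψ.G = 0)
    (hD : eval c ψ.D ≠ 0) : pe c w (Polynomial.derivative ψ.G) ≠ 0 := by
  exact (h.gy_unit hG (isUnit_iff_ne_zero.2 hD)).ne_zero

private theorem lt_one : (1 : DualNumber κ) = du 1 0 := by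
  rw [du, TrivSqZeroExt.inr_zero, TrivSqZeroExt.inl_one, add_zero]

private theorem lt_sum (c : Fin (d + 1) → κ) (w : κ) (ξ : Fin (d + 1) → κ) (j : Fin N) :
    ψ.lt c w ξ j = (eval c ψ.D * ((∑ r, ξ r * pe c w (dr r (ψ.A j))) *
      pe c w (Polynomial.derivative ψ.G) - pe c w (Polynomial.derivative (ψ.A j)) *
        (∑ r, ξ r * pe c w (dr r ψ.G))) - pe c w (ψ.A j) *
          (∑ r, eval c (pderiv r ψ.D) * ξ r) * pe c w (Polynomial.derivative ψ.G)) /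
      (eval c ψ.D ^ 2 * pe c w (Polynomial.derivative ψ.G)) := by
  rw [Prj.lt]
  congr 1
  have h : ∀ r, ξ r * pe c w (ψ.tp r j) = eval c ψ.D * (ξ r * pe c w (dr r (ψ.A j)) *
      pe c w (Polynomial.derivative ψ.G) - pe c w (Polynomial.derivative (ψ.A j)) *
        (ξ r * pe c w (dr r ψ.G))) - pe c w (ψ.A j) *
          (eval c (pderiv r ψ.D) * ξ r) * pe c w (Polynomial.derivative ψ.G) := by
    intro r
    rw [Prj.tp, map_sub, map_mul, map_sub, map_mul, map_mul, map_mul, map_mul, pe_C, pe_C,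
      lt_ae, lt_ae]
    ring
  rw [Finset.sum_congr rfl fun r _ => h r, Finset.sum_sub_distrib, ← Finset.mul_sum,
    Finset.sum_sub_distrib, ← Finset.sum_mul, ← Finset.mul_sum, ← Finset.sum_mul,
    ← Finset.mul_sum]

/-- The tangent vectors. Proof: let `ω = - (∑ ξ_r G_r (c, w)) / G_Y (c, w)` (`G_r = dr r G`, `gy_ne`); by `pe_dn` `G` is `0` at the dual point `(dn c ξ, du w ω)`; `v` the inverse of `D (dn c ξ) = du (D (c)) (∑ ..)`,
`v = du (D (c)⁻¹) (- (∑ ξ_r D_r (c)) / D (c) ^ 2)`; `Ok.in_pt` with `S = DualNumber κ`: the point `x̃ = v A` is on the variety, `u (x̃) = dn c ξ`; by `pe_dn` for the `A j` and the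
definition of `tp` (`field_simp`) `x̃ = dn (pt c w) (lt c w ξ)`; `tg_iff`, `uv_dn`, `du_inj`. -/
theorem Prj.Ok.lt_tg (h : ψ.Ok f) (hf : ∀ i, ∃ e, (f i).IsHomogeneous e) {c : Fin (d + 1) → κ}
    {w : κ} (hG : pe c w ψ.G = 0) (hD : eval c ψ.D ≠ 0) (ξ : Fin (d + 1) → κ) :
    Tg f (ψ.pt c w) (ψ.lt c w ξ) ∧ ψ.uv (ψ.lt c w ξ) = ξ := by
  have hg := h.gy_ne hG hD
  have hsum : ψ.lt c w ξ = fun j => (eval c ψ.D * ((∑ r, ξ r * pe c w (dr r (ψ.A j))) *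
      pe c w (Polynomial.derivative ψ.G) - pe c w (Polynomial.derivative (ψ.A j)) *
        (∑ r, ξ r * pe c w (dr r ψ.G))) - pe c w (ψ.A j) *
          (∑ r, eval c (pderiv r ψ.D) * ξ r) * pe c w (Polynomial.derivative ψ.G)) /
      (eval c ψ.D ^ 2 * pe c w (Polynomial.derivative ψ.G)) := funext fun j => lt_sum c w ξ j
  obtain ⟨ω, hω⟩ : ∃ ω, ω * pe c w (Polynomial.derivative ψ.G) =
      -(∑ r, ξ r * pe c w (dr r ψ.G)) := ⟨_, div_mul_cancel₀ _ hg⟩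
  have hG' : pe (dn c ξ) (du w ω) ψ.G = 0 := by
    rw [pe_dn, hG, hω, add_neg_cancel, ← du_zero]
  have hDd : aeval (dn c ξ) ψ.D = du (eval c ψ.D) (∑ r, eval c (pderiv r ψ.D) * ξ r) :=
    aeval_dn c ξ ψ.D
  have hv : du (eval c ψ.D)⁻¹ (-(∑ r, eval c (pderiv r ψ.D) * ξ r) / eval c ψ.D ^ 2) *
      aeval (dn c ξ) ψ.D = 1 := by
    rw [hDd, du_mul, lt_one, du_inj]
    refine ⟨inv_mul_cancel₀ hD, ?_⟩
    field_simp
    ring
  have hx : dn (ψ.pt c w) (ψ.lt c w ξ) = fun j =>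
      du (eval c ψ.D)⁻¹ (-(∑ r, eval c (pderiv r ψ.D) * ξ r) / eval c ψ.D ^ 2) *
        pe (dn c ξ) (du w ω) (ψ.A j) := by
    funext j
    rw [hsum, pe_dn, du_mul]
    change du (pe c w (ψ.A j) / eval c ψ.D) _ = _
    rw [du_inj]
    refine ⟨div_eq_inv_mul _ _, ?_⟩
    have h1 : ω = -(∑ r, ξ r * pe c w (dr r ψ.G)) / pe c w (Polynomial.derivative ψ.G) := by
      rw [← hω, mul_div_cancel_right₀ _ hg]
    rw [h1]
    field_simp
    ring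
  obtain ⟨h1, h2, -⟩ := h.in_pt hf hG' hv hx
  refine ⟨tg_iff.2 ⟨(h.pt_zp hf hG hD).1.1, h1⟩, ?_⟩
  rw [uv_dn] at h2
  funext r
  have h3 := congrFun h2 r
  exact (du_inj.1 h3).2

/-- Proof: `Ok.on_pt` with `S = κ`; some coordinate is not `0`. -/
theorem Prj.Ok.pt_eq (h : ψ.Ok f) {x : Fin N → κ} (hx : Zp f x)
    (hD : eval (ψ.uv x) ψ.D ≠ 0) :
    pe (ψ.uv x) (ψ.yv x) ψ.G = 0 ∧ ψ.pt (ψ.uv x) (ψ.yv x) = x := by
  obtain ⟨k, hk⟩ := lt_ne hx.1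
  obtain ⟨h1, h2⟩ := h.on_pt (x := x) hx.2 (isUnit_iff_ne_zero.2 hk)
  refine ⟨h1, funext fun j => ?_⟩
  rw [Prj.pt, h2 j]
  exact mul_div_cancel_left₀ _ hD

/-- Every tangent vector is of this form. Proof: `tg_iff`; `Ok.on_pt` with `S = DualNumber κ` at `dn x t` (`du_unit`: a coordinate which is not `0`); with `c = u (x)`, `w = y (x)`, `ξ = u (t)`, `ω = y (t)` (`uv_dn`,
`yv_dn`) `pe_dn` gives `∑ ξ_r G_r + ω G_Y = 0` and for every `j` the equation `∑ ξ_r (A_j)_r + ω (A_j)_Y = D (c) t_j + (∑ ξ_r D_r (c)) x_j`; solve for `t_j` (`x_j = A_j / D` by `pt_eq`),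
`gy_ne`, `field_simp`. -/
theorem Prj.Ok.lt_eq (h : ψ.Ok f) {x t : Fin N → κ} (ht : Tg f x t)
    (hD : eval (ψ.uv x) ψ.D ≠ 0) : ψ.lt (ψ.uv x) (ψ.yv x) (ψ.uv t) = t := by
  obtain ⟨k, hk⟩ := lt_ne ht.1.1
  have hu : IsUnit (dn x t k) := du_unit (isUnit_iff_ne_zero.2 hk)
  obtain ⟨h1, h2⟩ := h.on_pt (x := dn x t) (tg_iff.1 ht).2 hu
  obtain ⟨hG, -⟩ := h.pt_eq ht.1 hD
  obtain ⟨-, h2'⟩ := h.on_pt (x := x) ht.1.2 (isUnit_iff_ne_zero.2 hk)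
  have hg := h.gy_ne hG hD
  rw [uv_dn, yv_dn, pe_dn, du_zero, du_inj] at h1
  funext j
  have h3 := h2 j
  have h4 : dn x t j = du (x j) (t j) := rfl
  rw [uv_dn, yv_dn, pe_dn, aeval_dn, h4, du_mul, du_inj] at h3
  rw [lt_sum]
  have hA : pe (ψ.uv x) (ψ.yv x) (ψ.A j) = eval (ψ.uv x) ψ.D * x j := h2' j
  have hS : ∑ r, ψ.uv t r * pe (ψ.uv x) (ψ.yv x) (dr r (ψ.A j)) +
      ψ.yv t * pe (ψ.uv x) (ψ.yv x) (Polynomial.derivative (ψ.A j)) =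
      eval (ψ.uv x) ψ.D * t j + x j * ∑ r, eval (ψ.uv x) (pderiv r ψ.D) * ψ.uv t r := h3.2
  have hT : ∑ r, ψ.uv t r * pe (ψ.uv x) (ψ.yv x) (dr r ψ.G) =
      -(ψ.yv t * pe (ψ.uv x) (ψ.yv x) (Polynomial.derivative ψ.G)) := eq_neg_of_add_eq_zero_left h1.2
  have hS' : ∑ r, ψ.uv t r * pe (ψ.uv x) (ψ.yv x) (dr r (ψ.A j)) =
      eval (ψ.uv x) ψ.D * t j + x j * ∑ r, eval (ψ.uv x) (pderiv r ψ.D) * ψ.uv t r -
      ψ.yv t * pe (ψ.uv x) (ψ.yv x) (Polynomial.derivative (ψ.A j)) := eq_sub_of_add_eq hS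
  rw [hT, hS', hA, div_eq_iff (mul_ne_zero (pow_ne_zero 2 hD) hg)]
  ring

theorem Prj.lt_add (c : Fin (d + 1) → κ) (w : κ) (ξ ξ' : Fin (d + 1) → κ) :
    ψ.lt c w (ξ + ξ') = ψ.lt c w ξ + ψ.lt c w ξ' := by
  funext j
  change ψ.lt c w (ξ + ξ') j = ψ.lt c w ξ j + ψ.lt c w ξ' j
  rw [Prj.lt, Prj.lt, Prj.lt, ← add_div, ← Finset.sum_add_distrib]
  congr 1
  exact Finset.sum_congr rfl fun r _ => add_mul _ _ _

theorem Prj.lt_smul (c : Fin (d + 1) → κ) (w s : κ) (ξ : Fin (d + 1) → κ) :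
    ψ.lt c w (s • ξ) = s • ψ.lt c w ξ := by
  funext j
  change ψ.lt c w (s • ξ) j = s * ψ.lt c w ξ j
  rw [Prj.lt, Prj.lt, mul_div_assoc', Finset.mul_sum]
  congr 1
  exact Finset.sum_congr rfl fun r _ => mul_assoc _ _ _

/-- Homogeneity. Proof: `x = pt c w` satisfies `u (s x) = s c`, `y (s x) = s w` (`pt_zp`, `uv_smul`, `yv_smul`), `s x` is a point (`zp_smul`), `D (s c) = s ^ e D (c)`: `pt_eq` for `s x`; `lt_eq` for the tangent
vector `s t` at `s x` (`lt_tg`, `tg_hom`). -/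
theorem Prj.Ok.pt_smul (h : ψ.Ok f) (hf : ∀ i, ∃ e, (f i).IsHomogeneous e)
    {c : Fin (d + 1) → κ} {w s : κ} (hG : pe c w ψ.G = 0) (hD : eval c ψ.D ≠ 0) (hs : s ≠ 0) :
    pe (s • c) (s * w) ψ.G = 0 ∧ eval (s • c) ψ.D ≠ 0 ∧
      ψ.pt (s • c) (s * w) = s • ψ.pt c w ∧
        ∀ ξ, ψ.lt (s • c) (s * w) (s • ξ) = s • ψ.lt c w ξ := by
  obtain ⟨hx, hu, hy⟩ := h.pt_zp hf hG hD
  have hx' : Zp f (s • ψ.pt c w) := zp_smul hf hx hs
  have hu' : ψ.uv (s • ψ.pt c w) = s • c := by rw [uv_smul, hu]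
  have hy' : ψ.yv (s • ψ.pt c w) = s * w := by rw [yv_smul, hy]
  obtain ⟨e, -, he⟩ := h.homD
  have hD1 : eval (s • c) ψ.D = s ^ e * eval c ψ.D := aeval_smul_hom he c s
  have hD' : eval (s • c) ψ.D ≠ 0 := by
    rw [hD1]
    exact mul_ne_zero (pow_ne_zero e hs) hD
  have h1 := h.pt_eq hx' (by rwa [hu'])
  rw [hu', hy'] at h1
  refine ⟨h1.1, hD', h1.2, fun ξ => ?_⟩
  obtain ⟨ht, hξ⟩ := h.lt_tg hf hG hD ξ
  have h2 := h.lt_eq (tg_hom hf ht hs) (by rwa [hu'])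
  rw [hu', hy', uv_smul, hξ] at h2
  exact h2

/-- Proof: `x = pt c w` is a tangent vector at `x` (`tg_rad` with `s = 1`), `lt_eq`, `pt_zp`. -/
theorem Prj.Ok.lt_rad (h : ψ.Ok f) (hf : ∀ i, ∃ e, (f i).IsHomogeneous e)
    {c : Fin (d + 1) → κ} {w : κ} (hG : pe c w ψ.G = 0) (hD : eval c ψ.D ≠ 0) :
    ψ.lt c w c = ψ.pt c w := by
  obtain ⟨hx, hu, hy⟩ := h.pt_zp hf hG hD
  have h1 : Tg f (ψ.pt c w) ((1 : κ) • ψ.pt c w) := tg_rad hf hx 1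
  rw [one_smul] at h1
  have h2 := h.lt_eq h1 (by rwa [hu])
  rwa [hu, hy] at h2

/-- Proof: `Cov.top` with `S = κ`: not all generators are `0`. -/
theorem Cov.exists_ne {ψ : Fin m → Prj κ N d} (h : Cov f ψ) {x : Fin N → κ} (hx : Zp f x) :
    ∃ i, eval ((ψ i).uv x) (ψ i).D ≠ 0 := by
  by_contra h0
  obtain ⟨k, hk⟩ := lt_ne hx.1
  have h1 := h.top (x := x) hx.2 (isUnit_iff_ne_zero.2 hk)
  have h2 : Ideal.span (Set.range fun i => aeval ((ψ i).uv x) (ψ i).D) = ⊥ := by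
    rw [Ideal.span_eq_bot]
    rintro _ ⟨i, rfl⟩
    exact by_contra fun hi => h0 ⟨i, hi⟩
  rw [h2] at h1
  exact bot_ne_top h1

end field

end GX
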