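import Pool.Agent.Lib.MP_f80667_ag.Gx.ChA
import Pool.Agent.Lib.MP_f80667_ag.Gx.Gc
import Pool.Agent.Lib.MP_f80667_ag.Gx.XA

/-! The points of a chart. -/

open ZC BE PE CV IntermediateField

namespace GX

variable {F : Type} [Field F] {N d : ℕ} {ι : Type} {f : ι → MvPolynomial (Fin N) F} {K Ω : Type}
  [Field K] [Field Ω] [Algebra K Ω] [Algebra F K] [Algebra F Ω] [IsScalarTower F K Ω]
  {L : Ld K Ω} {ψ : Prj K N d}

theorem om_uv (x : Fin N → Ω) : (ψ.om Ω).uv x = ψ.uv x := by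
  exact uv_map ψ x

theorem om_yv (x : Fin N → Ω) : (ψ.om Ω).yv x = ψ.yv x := by
  exact yv_map ψ x

theorem om_D (c : Fin (d + 1) → Ω) :
    MvPolynomial.eval c (ψ.om Ω).D = MvPolynomial.aeval c ψ.D := by
  change MvPolynomial.eval c (MvPolynomial.map (algebraMap K Ω) ψ.D) = _
  rw [MvPolynomial.eval_map, MvPolynomial.aeval_def]

theorem om_G (c : Fin (d + 1) → Ω) (w : Ω) : pe c w (ψ.om Ω).G = pe c w ψ.G := by
  exact pe_map c w ψ.G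

theorem om_dG (c : Fin (d + 1) → Ω) (w : Ω) :
    pe c w (Polynomial.derivative (ψ.om Ω).G) = pe c w (Polynomial.derivative ψ.G) := by
  change pe c w (Polynomial.derivative (ψ.G.map (MvPolynomial.map (algebraMap K Ω)))) = _
  rw [Polynomial.derivative_map]
  exact pe_map c w (Polynomial.derivative ψ.G)

theorem om_pt (c : Fin (d + 1) → Ω) (w : Ω) (j : Fin N) :
    (ψ.om Ω).pt c w j = pe c w (ψ.A j) / MvPolynomial.aeval c ψ.D := by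
  have h1 : pe c w ((ψ.om Ω).A j) = pe c w (ψ.A j) := pe_map c w (ψ.A j)
  rw [Prj.pt, h1, om_D]

theorem om_zp {x : Fin N → Ω} : Zp (fun i => MvPolynomial.map (algebraMap F Ω) (f i)) x ↔
    x ≠ 0 ∧ ∀ i, MvPolynomial.aeval x (f i) = 0 := by
  have h1 : ∀ i, MvPolynomial.eval x (MvPolynomial.map (algebraMap F Ω) (f i)) =
      MvPolynomial.aeval x (f i) := fun i => by
    rw [MvPolynomial.eval_map, MvPolynomial.aeval_def]
  unfold Zp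
  simp only [h1]

theorem om_hom (h : ∀ i, ∃ e, (f i).IsHomogeneous e) (i : ι) :
    ∃ e, (MvPolynomial.map (algebraMap F Ω) (f i)).IsHomogeneous e := by
  obtain ⟨e, he⟩ := h i
  exact ⟨e, he.map _⟩

/-- The coordinates `u`, `y` of integral points are integral. Proof: `lv_le`. -/
theorem Pj.uv_le (h : Pj f L ψ) {x : Fin N → Ω} (hx : ∀ j, L.nm (x j) ≤ 1) :
    (∀ r, L.nm (ψ.uv x r) ≤ 1) ∧ L.nm (ψ.yv x) ≤ 1 := by
  exact ⟨fun r => lv_le (h.iu r) hx, lv_le h.iy hx⟩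

/-- Proof: `D` is homogeneous of degree `≠ 0`: `hom_lt`. -/
theorem Pj.prim (h : Pj f L ψ) {c : Fin (d + 1) → Ω} (hc : ∀ r, L.nm (c r) ≤ 1)
    (hD : L.nm (MvPolynomial.aeval c ψ.D) = 1) : ∃ r, L.nm (c r) = 1 := by
  by_contra hcon
  push Not at hcon
  obtain ⟨e, he, hh⟩ := h.homD
  have h1 := hom_lt (L := L) h.iD he hh fun r => lt_of_le_of_ne (hc r) (hcon r)
  rw [hD] at h1
  exact lt_irrefl _ h1

/-- **The points over `c`.** Proof: `Ok.pt_zp` for `ψ.om Ω` (`h.ok`, `om_G`, `om_D`); integral: `pe_le`, `D (c)` is a unit; over `M`: `pe_mem`; primitive: otherwise `u (pt) = c` has norms `< 1` (`lv_lt`), `prim`. -/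
theorem Pj.pt_iv (h : Pj f L ψ) {M : IntermediateField K Ω} {c : Fin (d + 1) → Ω} {w : Ω}
    (hc : Iv L M c) (hw : w ∈ M) (hw1 : L.nm w ≤ 1) (hG : pe c w ψ.G = 0)
    (hD : L.nm (MvPolynomial.aeval c ψ.D) = 1) :
    Iv L M ((ψ.om Ω).pt c w) ∧ (∃ j, L.nm ((ψ.om Ω).pt c w j) = 1) ∧
      (ψ.om Ω).pt c w ≠ 0 ∧ (∀ i, MvPolynomial.aeval ((ψ.om Ω).pt c w) (f i) = 0) ∧
        ψ.uv ((ψ.om Ω).pt c w) = c ∧ ψ.yv ((ψ.om Ω).pt c w) = w := by
  have hDne : MvPolynomial.eval c (ψ.om Ω).D ≠ 0 := by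
    rw [om_D]
    exact L.ne_zero (by rw [hD]; exact one_pos)
  obtain ⟨hz, hu, hy⟩ := h.ok.pt_zp (om_hom h.hom) (c := c) (w := w)
    (by rw [om_G]; exact hG) hDne
  have hu' : ψ.uv ((ψ.om Ω).pt c w) = c := by
    rw [← om_uv]
    exact hu
  have hy' : ψ.yv ((ψ.om Ω).pt c w) = w := by
    rw [← om_yv]
    exact hy
  have hI : Iv L M ((ψ.om Ω).pt c w) := by
    intro j
    rw [om_pt]
    refine ⟨M.div_mem (pe_mem (ψ.A j) (fun r => (hc r).1) hw)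
      (aev_mem ψ.D fun r => (hc r).1), ?_⟩
    rw [L.div, hD, div_one]
    exact pe_le (h.iA j) (fun r => (hc r).2) hw1
  refine ⟨hI, ?_, (om_zp.1 hz).1, (om_zp.1 hz).2, hu', hy'⟩
  by_contra hcon
  push Not at hcon
  obtain ⟨r, hr⟩ := h.prim (fun r => (hc r).2) hD
  have h1 := lv_lt (L := L) (h.iu r) (x := (ψ.om Ω).pt c w) (x' := 0) fun j => by
    rw [Pi.zero_apply, sub_zero]
    exact lt_of_le_of_ne (hI j).2 (hcon j)
  have h2 : lv (ψ.u r) (0 : Fin N → Ω) = 0 := by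
    rw [lv]
    exact Finset.sum_eq_zero fun j _ => mul_zero _
  have h3 : lv (ψ.u r) ((ψ.om Ω).pt c w) = c r := congrFun hu' r
  rw [h2, h3, sub_zero, hr] at h1
  exact lt_irrefl _ h1

/-- Proof: `onX`. -/
theorem Pj.pt_eq (h : Pj f L ψ) {x : Fin N → Ω} (hx : x ≠ 0)
    (h0 : ∀ i, MvPolynomial.aeval x (f i) = 0) (hD : MvPolynomial.aeval (ψ.uv x) ψ.D ≠ 0) :
    pe (ψ.uv x) (ψ.yv x) ψ.G = 0 ∧ (ψ.om Ω).pt (ψ.uv x) (ψ.yv x) = x := by
  have h1 := h.ok.pt_eq (om_zp.2 ⟨hx, h0⟩) (by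
    change MvPolynomial.eval ((ψ.om Ω).uv x) (ψ.om Ω).D ≠ 0
    rw [om_uv, om_D]
    exact hD)
  have h2 : pe ((ψ.om Ω).uv x) ((ψ.om Ω).yv x) (ψ.om Ω).G = 0 ∧
      (ψ.om Ω).pt ((ψ.om Ω).uv x) ((ψ.om Ω).yv x) = x := h1
  rw [om_uv, om_yv, om_G] at h2
  exact h2

/-- Proof: `GM.ae_close` for `D`. -/
theorem Pj.D_close (h : Pj f L ψ) {c c' : Fin (d + 1) → Ω} (hc : ∀ r, L.nm (c r) ≤ 1)
    (hc' : ∀ r, L.nm (c' r) ≤ 1) (hcc : ∀ r, L.nm (c r - c' r) < 1)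
    (hD : L.nm (MvPolynomial.aeval c ψ.D) = 1) : L.nm (MvPolynomial.aeval c' ψ.D) = 1 := by
  obtain ⟨r, -, hr⟩ := Finset.exists_max_image Finset.univ (fun r => L.nm (c r - c' r))
    ⟨0, Finset.mem_univ _⟩
  have h1 : L.nm (MvPolynomial.aeval c ψ.D - MvPolynomial.aeval c' ψ.D) ≤
      L.nm (c r - c' r) :=
    GM.ae_close h.iD hc hc' (L.nonneg _) fun i => hr i (Finset.mem_univ _)
  rw [← hD]
  refine L.eq_of_close ?_
  rw [L.sub_comm, hD]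
  exact h1.trans_lt (hcc r)

/-- Proof: `pe_close` for `A j` and `C D`; `a / b - a' / b' = (a (b' - b) + b (a - a')) / (b b')`. -/
theorem Pj.pt_close (h : Pj f L ψ) {c c' : Fin (d + 1) → Ω} {w w' : Ω}
    (hc : ∀ r, L.nm (c r) ≤ 1) (hw : L.nm w ≤ 1) (hc' : ∀ r, L.nm (c' r) ≤ 1)
    (hw' : L.nm w' ≤ 1) (hD : L.nm (MvPolynomial.aeval c ψ.D) = 1)
    (hD' : L.nm (MvPolynomial.aeval c' ψ.D) = 1) {t : ℝ} (ht : 0 ≤ t)
    (hcc : ∀ r, L.nm (c r - c' r) ≤ t) (hww : L.nm (w - w') ≤ t) (j : Fin N) :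
    L.nm ((ψ.om Ω).pt c w j - (ψ.om Ω).pt c' w' j) ≤ t := by
  have h0 : MvPolynomial.aeval c ψ.D ≠ 0 := L.ne_zero (by rw [hD]; exact one_pos)
  have h0' : MvPolynomial.aeval c' ψ.D ≠ 0 := L.ne_zero (by rw [hD']; exact one_pos)
  have h1 : pe c w (ψ.A j) / MvPolynomial.aeval c ψ.D -
      pe c' w' (ψ.A j) / MvPolynomial.aeval c' ψ.D =
      (pe c w (ψ.A j) * (MvPolynomial.aeval c' ψ.D - MvPolynomial.aeval c ψ.D) +
        MvPolynomial.aeval c ψ.D * (pe c w (ψ.A j) - pe c' w' (ψ.A j))) /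
        (MvPolynomial.aeval c ψ.D * MvPolynomial.aeval c' ψ.D) := by
    rw [div_sub_div _ _ h0 h0']
    congr 1
    ring
  have h2 : L.nm (MvPolynomial.aeval c' ψ.D - MvPolynomial.aeval c ψ.D) ≤ t := by
    rw [L.sub_comm]
    exact GM.ae_close h.iD hc hc' ht hcc
  have h3 : L.nm (pe c w (ψ.A j) - pe c' w' (ψ.A j)) ≤ t :=
    pe_close (h.iA j) hc hw hc' hw' ht hcc hww
  have h4 : L.nm (pe c w (ψ.A j)) ≤ 1 := pe_le (h.iA j) hc hw
  rw [om_pt, om_pt, h1, L.div, L.mul (MvPolynomial.aeval c ψ.D), hD, hD', mul_one, div_one]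
  refine (L.add _ _).trans (max_le ?_ ?_)
  · rw [L.mul]
    exact (mul_le_of_le_one_left (L.nonneg _) h4).trans h2
  · rw [L.mul, hD, one_mul]
    exact h3

theorem pt_act (γ : Ω ≃ₐ[K] Ω) (c : Fin (d + 1) → Ω) (w : Ω) (j : Fin N) :
    γ ((ψ.om Ω).pt c w j) = (ψ.om Ω).pt (fun r => γ (c r)) (γ w) j := by
  rw [om_pt, om_pt, map_div₀, pe_act, ← pe_C c w ψ.D, pe_act, pe_C]

end GX
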