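import Pool.Agent.Lib.MP_f80667_ag.Gm.GsA
import Pool.Agent.Lib.MP_f80667_ag.Gx.ChB

/-!
Residues of projections.

* `Rdj L k ψ ψ'`: the coefficients of `ψ'` over the subfield `k` of `L.κ` are the residues of those of `ψ`.
* `Rdx f L k ψ f' ψ'`: `f'` and `ψ'` are the residues of `f` and `ψ`; the projections are good over the integers and over `k` and cover.
-/

open ZC BE PE CV IntermediateField

namespace GX

section defs

variable {F : Type} [Field F] {N d m : ℕ} {ι : Type} (f : ι → MvPolynomial (Fin N) F)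
  {K Ω : Type} [Field K] [Field Ω] [Algebra K Ω] [Algebra F K] [Algebra F Ω]
  [IsScalarTower F K Ω] (L : Ld K Ω) (k : Subfield L.κ)

/-- The coefficients of `ψ'` are the residues of the coefficients of `ψ`. -/
structure Rdj (ψ : Prj K N d) (ψ' : Prj k N d) : Prop where
  u : ∀ r j, L.rs.Hv (algebraMap K Ω (ψ.u r j)) ((ψ'.u r j : k) : L.κ)
  y : ∀ j, L.rs.Hv (algebraMap K Ω (ψ.y j)) ((ψ'.y j : k) : L.κ)
  G : ∀ j e, L.rs.Hv (algebraMap K Ω ((ψ.G.coeff j).coeff e))
    (((ψ'.G.coeff j).coeff e : k) : L.κ)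
  D : ∀ e, L.rs.Hv (algebraMap K Ω (ψ.D.coeff e)) ((ψ'.D.coeff e : k) : L.κ)
  A : ∀ i j e, L.rs.Hv (algebraMap K Ω (((ψ.A i).coeff j).coeff e))
    ((((ψ'.A i).coeff j).coeff e : k) : L.κ)

/-- `f'`, `ψ'` are the residues of `f`, `ψ`. -/
structure Rdx (ψ : Fin m → Prj K N d) (f' : ι → MvPolynomial (Fin N) k)
    (ψ' : Fin m → Prj k N d) : Prop where
  pj : ∀ i, Pj f L (ψ i)
  rf : ∀ i, GM.Rdp L k (f i) (f' i)
  rj : ∀ i, Rdj L k (ψ i) (ψ' i)
  deg : ∀ i, (ψ' i).G.natDegree = (ψ i).G.natDegree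
  ok : ∀ i, (ψ' i).Ok f'
  cov : Cov f' ψ'
  hom : ∀ i, ∃ e, (f' i).IsHomogeneous e

end defs

section val

variable {F : Type} [Field F] {N d m : ℕ} {ι : Type} {f : ι → MvPolynomial (Fin N) F}
  {K Ω : Type} [Field K] [Field Ω] [Algebra K Ω] [Algebra F K] [Algebra F Ω]
  [IsScalarTower F K Ω] {L : Ld K Ω} {k : Subfield L.κ} {ψ : Prj K N d} {ψ' : Prj k N d}

private theorem grd_sum {α : Type} (S : Finset α) {f : α → Ω} {r : α → k}
    (h : ∀ i ∈ S, L.rs.Hv (f i) (r i : L.κ)) :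
    L.rs.Hv (∑ i ∈ S, f i) ((∑ i ∈ S, r i : k) : L.κ) := by
  classical
  induction S using Finset.induction_on with
  | empty =>
    rw [Finset.sum_empty, Finset.sum_empty]
    exact Rs.Hv.zero
  | insert a S ha ih =>
    rw [Finset.sum_insert ha, Finset.sum_insert ha]
    exact (h a (Finset.mem_insert_self a S)).add
      (ih fun i hi => h i (Finset.mem_insert_of_mem hi))

private theorem grd_pe {S : Type} [CommRing S] {R : Type} [CommRing R] [Algebra R S]
    (P : Polynomial (MvPolynomial (Fin (d + 1)) R)) (c : Fin (d + 1) → S) (w : S) {n : ℕ}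
    (hn : P.natDegree < n) :
    pe c w P = ∑ j ∈ Finset.range n, MvPolynomial.aeval c (P.coeff j) * w ^ j := by
  rw [pe_sum]
  refine Finset.sum_subset (fun j hj => ?_) fun j _ hj => ?_
  · rw [Finset.mem_range] at hj ⊢
    omega
  · rw [Finset.mem_range] at hj
    rw [Polynomial.coeff_eq_zero_of_natDegree_lt (by omega), map_zero, zero_mul]

private theorem grd_ne {a : Ω} {b : k} (h : L.rs.Hv a (b : L.κ)) : L.nm a = 1 ↔ b ≠ 0 := by
  rw [← L.hv_ne h]
  constructor
  · intro h1 h2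
    exact h1 (by rw [h2]; rfl)
  · intro h1 h2
    exact h1 (Subtype.ext h2)

private theorem grd_div {a a' : Ω} {b b' : k} (h : L.rs.Hv a (b : L.κ))
    (h' : L.rs.Hv a' (b' : L.κ)) (hb : b' ≠ 0) : L.rs.Hv (a / a') ((b / b' : k) : L.κ) := by
  have h1 : ((b / b' : k) : L.κ) = (b : L.κ) / (b' : L.κ) := by
    change k.subtype (b / b') = _
    rw [map_div₀]
    rfl
  rw [h1]
  exact h.div h' fun h2 => hb (Subtype.ext h2)

/-- Proof: `GM.Rdp.aeval` with `F = K` for the coefficients (`pe_sum` for both sides; the degrees may be different: sum over a common range), `Rs.Hv` of sums and products. -/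
theorem rd_pe {P : Polynomial (MvPolynomial (Fin (d + 1)) K)}
    {P' : Polynomial (MvPolynomial (Fin (d + 1)) k)}
    (h : ∀ j e, L.rs.Hv (algebraMap K Ω ((P.coeff j).coeff e)) (((P'.coeff j).coeff e : k) : L.κ))
    {c : Fin (d + 1) → Ω} {c' : Fin (d + 1) → k} (hc : GM.Rdv L k c c') {w : Ω} {w' : k}
    (hw : L.rs.Hv w (w' : L.κ)) : L.rs.Hv (pe c w P) ((pe c' w' P' : k) : L.κ) := by
  have h1 := grd_pe P c w (n := max P.natDegree P'.natDegree + 1) (by omega)
  have h2 := grd_pe P' c' w' (n := max P.natDegree P'.natDegree + 1) (by omega)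
  rw [h1, h2]
  refine grd_sum _ fun j _ => ?_
  exact (GM.Rdp.aeval (h j) hc).mul (hw.pow j)

theorem rd_lv {a : Fin N → K} {a' : Fin N → k}
    (h : ∀ j, L.rs.Hv (algebraMap K Ω (a j)) ((a' j : k) : L.κ)) {x : Fin N → Ω}
    {x' : Fin N → k} (hx : GM.Rdv L k x x') : L.rs.Hv (lv a x) ((lv a' x' : k) : L.κ) := by
  rw [lv, lv]
  exact grd_sum _ fun j _ => (h j).mul (hx j)

theorem Rdj.uv (h : Rdj L k ψ ψ') {x : Fin N → Ω} {x' : Fin N → k} (hx : GM.Rdv L k x x') :
    GM.Rdv L k (ψ.uv x) (ψ'.uv x') := by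
  exact fun r => rd_lv (h.u r) hx

theorem Rdj.yv (h : Rdj L k ψ ψ') {x : Fin N → Ω} {x' : Fin N → k} (hx : GM.Rdv L k x x') :
    L.rs.Hv (ψ.yv x) ((ψ'.yv x' : k) : L.κ) := by
  exact rd_lv h.y hx

theorem Rdj.Dv (h : Rdj L k ψ ψ') {c : Fin (d + 1) → Ω} {c' : Fin (d + 1) → k}
    (hc : GM.Rdv L k c c') :
    L.rs.Hv (MvPolynomial.aeval c ψ.D) ((MvPolynomial.eval c' ψ'.D : k) : L.κ) := by
  exact GM.Rdp.aeval h.D hc

/-- Proof: the residue is not `0` if and only if the norm is `1`. -/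
theorem Rdj.D_one (h : Rdj L k ψ ψ') {c : Fin (d + 1) → Ω} {c' : Fin (d + 1) → k}
    (hc : GM.Rdv L k c c') :
    L.nm (MvPolynomial.aeval c ψ.D) = 1 ↔ MvPolynomial.eval c' ψ'.D ≠ 0 := by
  exact grd_ne (h.Dv hc)

/-- Proof: `om_pt`, `rd_pe`, `Rdj.Dv`, quotient of residues. -/
theorem Rdj.pt (h : Rdj L k ψ ψ') {c : Fin (d + 1) → Ω} {c' : Fin (d + 1) → k}
    (hc : GM.Rdv L k c c') {w : Ω} {w' : k} (hw : L.rs.Hv w (w' : L.κ))
    (hD : MvPolynomial.eval c' ψ'.D ≠ 0) :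
    GM.Rdv L k ((ψ.om Ω).pt c w) (ψ'.pt c' w') := by
  intro j
  rw [om_pt]
  exact grd_div (rd_pe (h.A j) hc hw) (h.Dv hc) hD

private theorem grd_Rsub {P Q : MvPolynomial (Fin (d + 1)) K} {P' Q' : MvPolynomial (Fin (d + 1)) k}
    (h : GM.Rdp L k P P') (h' : GM.Rdp L k Q Q') : GM.Rdp L k (P - Q) (P' - Q') := by
  intro e
  rw [MvPolynomial.coeff_sub, MvPolynomial.coeff_sub, map_sub]
  exact (h e).sub (h' e)

private theorem grd_Rmul {P Q : MvPolynomial (Fin (d + 1)) K} {P' Q' : MvPolynomial (Fin (d + 1)) k}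
    (h : GM.Rdp L k P P') (h' : GM.Rdp L k Q Q') : GM.Rdp L k (P * Q) (P' * Q') := by
  classical
  intro e
  rw [MvPolynomial.coeff_mul, MvPolynomial.coeff_mul, map_sum]
  simp only [map_mul]
  exact grd_sum _ fun x _ => (h x.1).mul (h' x.2)

private theorem grd_Rsum {α : Type} (S : Finset α) {P : α → MvPolynomial (Fin (d + 1)) K}
    {P' : α → MvPolynomial (Fin (d + 1)) k} (h : ∀ i ∈ S, GM.Rdp L k (P i) (P' i)) :
    GM.Rdp L k (∑ i ∈ S, P i) (∑ i ∈ S, P' i) := by
  intro e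
  rw [MvPolynomial.coeff_sum, MvPolynomial.coeff_sum, map_sum]
  exact grd_sum _ fun i hi => h i hi e

private theorem grd_Rnat {P : MvPolynomial (Fin (d + 1)) K} {P' : MvPolynomial (Fin (d + 1)) k}
    (h : GM.Rdp L k P P') (n : ℕ) :
    GM.Rdp L k (P * ((n : ℕ) : MvPolynomial (Fin (d + 1)) K))
      (P' * ((n : ℕ) : MvPolynomial (Fin (d + 1)) k)) := by
  have h0 : GM.Rdp L k (MvPolynomial.C (n : K) : MvPolynomial (Fin (d + 1)) K)
      (MvPolynomial.C (n : k)) := by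
    classical
    intro e
    rw [MvPolynomial.coeff_C, MvPolynomial.coeff_C]
    split_ifs with h1
    · rw [map_natCast]
      have h2 : (((n : k)) : L.κ) = (n : L.κ) := by
        change k.subtype (n : k) = _
        rw [map_natCast]
      rw [h2]
      exact Rs.Hv.nat n
    · rw [map_zero]
      exact Rs.Hv.zero
  have h1 := grd_Rmul h h0
  rwa [map_natCast, map_natCast] at h1

/-- The coefficients of `P'` are the residues of those of `P`. -/
private def Grq (L : Ld K Ω) (k : Subfield L.κ) (P : Polynomial (MvPolynomial (Fin (d + 1)) K))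
    (P' : Polynomial (MvPolynomial (Fin (d + 1)) k)) : Prop :=
  ∀ j, GM.Rdp L k (P.coeff j) (P'.coeff j)

private theorem grd_sub {P Q : Polynomial (MvPolynomial (Fin (d + 1)) K)}
    {P' Q' : Polynomial (MvPolynomial (Fin (d + 1)) k)} (h : Grq L k P P') (h' : Grq L k Q Q') :
    Grq L k (P - Q) (P' - Q') := by
  intro j
  rw [Polynomial.coeff_sub, Polynomial.coeff_sub]
  exact grd_Rsub (h j) (h' j)

private theorem grd_mul {P Q : Polynomial (MvPolynomial (Fin (d + 1)) K)}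
    {P' Q' : Polynomial (MvPolynomial (Fin (d + 1)) k)} (h : Grq L k P P') (h' : Grq L k Q Q') :
    Grq L k (P * Q) (P' * Q') := by
  intro j
  rw [Polynomial.coeff_mul, Polynomial.coeff_mul]
  exact grd_Rsum _ fun x _ => grd_Rmul (h x.1) (h' x.2)

private theorem grd_C {P : MvPolynomial (Fin (d + 1)) K} {P' : MvPolynomial (Fin (d + 1)) k}
    (h : GM.Rdp L k P P') : Grq L k (Polynomial.C P) (Polynomial.C P') := by
  intro j
  rw [Polynomial.coeff_C, Polynomial.coeff_C]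
  split_ifs
  · exact h
  · intro e
    rw [MvPolynomial.coeff_zero, MvPolynomial.coeff_zero, map_zero]
    exact Rs.Hv.zero

private theorem grd_der {P : Polynomial (MvPolynomial (Fin (d + 1)) K)}
    {P' : Polynomial (MvPolynomial (Fin (d + 1)) k)} (h : Grq L k P P') :
    Grq L k (Polynomial.derivative P) (Polynomial.derivative P') := by
  intro j
  rw [Polynomial.coeff_derivative, Polynomial.coeff_derivative]
  have h1 := grd_Rnat (h (j + 1)) (j + 1)
  rwa [Nat.cast_add, Nat.cast_add, Nat.cast_one, Nat.cast_one] at h1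

private theorem grd_dr {R : Type} [CommRing R] (r : Fin (d + 1))
    (P : Polynomial (MvPolynomial (Fin (d + 1)) R)) (j : ℕ) :
    (dr r P).coeff j = MvPolynomial.pderiv r (P.coeff j) := by
  rw [dr, Polynomial.sum_def, Polynomial.finsetSum_coeff]
  simp only [Polynomial.coeff_C_mul, Polynomial.coeff_X_pow, mul_ite, mul_one, mul_zero]
  rw [Finset.sum_ite_eq]
  split_ifs with h
  · rfl
  · rw [Polynomial.notMem_support_iff.1 h, map_zero]

private theorem grd_drq {P : Polynomial (MvPolynomial (Fin (d + 1)) K)}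
    {P' : Polynomial (MvPolynomial (Fin (d + 1)) k)} (h : Grq L k P P') (r : Fin (d + 1)) :
    Grq L k (dr r P) (dr r P') := by
  intro j
  rw [grd_dr, grd_dr]
  exact (h j).pderiv r

/-- The derivatives. Proof: the coefficients of `dr r P` and `derivative P` are integers times coefficients of `P`. -/
theorem rd_tp (h : Rdj L k ψ ψ') (r : Fin (d + 1)) (j : Fin N) (i : ℕ)
    (e : Fin (d + 1) →₀ ℕ) : L.rs.Hv (algebraMap K Ω (((ψ.tp r j).coeff i).coeff e))
      ((((ψ'.tp r j).coeff i).coeff e : k) : L.κ) := by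
  have hD : GM.Rdp L k ψ.D ψ'.D := h.D
  have hG : Grq L k ψ.G ψ'.G := h.G
  have hA : Grq L k (ψ.A j) (ψ'.A j) := h.A j
  have h1 : Grq L k (ψ.tp r j) (ψ'.tp r j) :=
    grd_sub (grd_mul (grd_C hD) (grd_sub (grd_mul (grd_drq hA r) (grd_der hG))
      (grd_mul (grd_der hA) (grd_drq hG r))))
      (grd_mul (grd_mul hA (grd_C (hD.pderiv r))) (grd_der hG))
  exact h1 i e

private theorem grd_drm {R R' : Type} [CommRing R] [CommRing R'] (φ : R →+* R')
    (r : Fin (d + 1)) (P : Polynomial (MvPolynomial (Fin (d + 1)) R)) :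
    dr r (P.map (MvPolynomial.map φ)) = (dr r P).map (MvPolynomial.map φ) := by
  refine Polynomial.ext fun j => ?_
  rw [grd_dr, Polynomial.coeff_map, Polynomial.coeff_map, grd_dr, MvPolynomial.pderiv_map]

private theorem grd_tpm {R R' : Type} [CommRing R] [CommRing R'] (φ : R →+* R')
    (ψ : Prj R N d) (r : Fin (d + 1)) (j : Fin N) :
    (ψ.map φ).tp r j = (ψ.tp r j).map (MvPolynomial.map φ) := by
  have hA : (ψ.map φ).A j = (ψ.A j).map (MvPolynomial.map φ) := rfl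
  have hG : (ψ.map φ).G = ψ.G.map (MvPolynomial.map φ) := rfl
  have hD : (ψ.map φ).D = MvPolynomial.map φ ψ.D := rfl
  rw [Prj.tp, Prj.tp, hA, hG, hD, grd_drm, grd_drm]
  simp only [Polynomial.map_sub, Polynomial.map_mul, Polynomial.map_C, Polynomial.derivative_map,
    MvPolynomial.pderiv_map]

/-- Proof: `rd_tp`, `rd_pe`; the denominator `D (c) ^ 2 G_Y (c, w)` has a residue which is not `0`. -/
theorem Rdj.lt (h : Rdj L k ψ ψ') {c : Fin (d + 1) → Ω} {c' : Fin (d + 1) → k}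
    (hc : GM.Rdv L k c c') {w : Ω} {w' : k} (hw : L.rs.Hv w (w' : L.κ))
    (hD : MvPolynomial.eval c' ψ'.D ≠ 0)
    (hG : pe c' w' (Polynomial.derivative ψ'.G) ≠ 0) {ξ : Fin (d + 1) → Ω}
    {ξ' : Fin (d + 1) → k} (hξ : GM.Rdv L k ξ ξ') :
    GM.Rdv L k ((ψ.om Ω).lt c w ξ) (ψ'.lt c' w' ξ') := by
  intro j
  have hG' : Grq L k ψ.G ψ'.G := h.G
  have h1 : ∀ r, L.rs.Hv (pe c w ((ψ.om Ω).tp r j)) ((pe c' w' (ψ'.tp r j) : k) : L.κ) := by
    intro r
    have h2 : (ψ.om Ω).tp r j =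
        (ψ.tp r j).map (MvPolynomial.map (algebraMap K Ω)) := grd_tpm _ ψ r j
    rw [h2, pe_map]
    exact rd_pe (rd_tp h r j) hc hw
  have h3 := om_D (ψ := ψ) c
  have h4 := om_dG (ψ := ψ) c w
  have h5 : L.rs.Hv (pe c w (Polynomial.derivative ψ.G))
      ((pe c' w' (Polynomial.derivative ψ'.G) : k) : L.κ) :=
    rd_pe (grd_der hG') hc hw
  change L.rs.Hv ((∑ r, ξ r * pe c w ((ψ.om Ω).tp r j)) /
    (MvPolynomial.eval c (ψ.om Ω).D ^ 2 * pe c w (Polynomial.derivative (ψ.om Ω).G))) _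
  rw [h3, h4]
  exact grd_div (grd_sum _ fun r _ => (hξ r).mul (h1 r)) (((h.Dv hc).pow 2).mul h5)
    (mul_ne_zero (pow_ne_zero 2 hD) hG)

end val

end GX
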