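import Pool.Agent.Lib.MP_f80667_ag.Gx.XA
import Pool.Agent.Lib.MP_f80667_ag.Gx.Ft
import Pool.Agent.Lib.MP_f80667_ag.Gx.Rd
import Pool.Agent.Lib.MP_f80667_ag.Gx.Lt
import Pool.Agent.Lib.MP_f80667_ag.Gx.Gc
import Pool.Agent.Lib.MP_f80667_ag.Gm.GsAs

/-!
`Nft f' ψ'`: every function `T` (`Ft`) is `0`. The reductions `Rdj`, `Rdx` are in `Gx/Rd`.
-/

open ZC BE PE CV IntermediateField

namespace GX

section

variable {κ : Type} [Field κ] {N d m : ℕ} {ι : Type}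

/-- The functions `T` are `0`. -/
def Nft (f : ι → MvPolynomial (Fin N) κ) (ψ : Fin m → Prj κ N d) : Prop :=
  ∀ (B : Type) [AddCommGroup B] (T : (Fin N → κ) → (Fin N → κ) → B), Ft f ψ T →
    ∀ x t, Tg f x t → T x t = 0

end

section

variable {F : Type} [Field F] {N d m : ℕ} {ι : Type} {f : ι → MvPolynomial (Fin N) F} {K Ω : Type}
  [Field K] [Field Ω] [Algebra K Ω] [Algebra F K] [Algebra F Ω] [IsScalarTower F K Ω]
  {L : Ld K Ω} {k : Subfield L.κ}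

/-- The projections cover. -/
theorem Rdx.cv {ψ : Fin m → Prj K N d} {f' : ι → MvPolynomial (Fin N) k}
    {ψ' : Fin m → Prj k N d} (h : Rdx f L k ψ f' ψ') {y : Fin N → k} (hy : Zp f' y) :
    ∃ i, MvPolynomial.eval ((ψ' i).uv y) (ψ' i).D ≠ 0 := h.cov.exists_ne hy

end

end GX
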