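import Pool.Agent.Lib.MP_f80667_ag.Gx.Ec
import Pool.Agent.Lib.MP_f80667_ag.Gx.Eb

/-! The compatible system of polynomials. -/

open MvPolynomial

namespace GX

variable {κ : Type} [Field κ] {N d m : ℕ} {ι : Type} {f : ι → MvPolynomial (Fin N) κ}
  {ψ : Fin m → Prj κ N d}

/-- Proof: `c = u (x)`, `w = y (x)`, `ξ = u (t)`: the sum over `j < n` of `β_j (c, w) (sj j c ξ)` is the sum over the roots `w'` of `gc c` of `(∑_j β_j (c, w) w' ^ j) ℓ (pt c w') (lt c w' ξ)`; the bracket is `0` for `w' ≠ w` (`bt_sub`, `mem_gc`) and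
`G_Y (c, w)` for `w' = w` (`bt_der`); the roots are different (`gc_sep`, `Polynomial.nodup_roots`), `w` is a root (`pt_eq`); `pt c w = x`, `lt c w ξ = t` (`pt_eq`, `lt_eq`). -/
theorem Prj.Ok.ev_eq {ψ : Prj κ N d} (h : ψ.Ok f) {ℓ : (Fin N → κ) → (Fin N → κ) → κ}
    {P : ℕ → Fin (d + 1) → MvPolynomial (Fin (d + 1)) κ}
    (hP : ∀ j < ψ.G.natDegree, ∀ c ξ, eval c ψ.D ≠ 0 →
      ψ.sj ℓ j c ξ = ∑ r, eval c (P j r) * ξ r)
    {x t : Fin N → κ} (ht : Tg f x t) (hD : eval (ψ.uv x) ψ.D ≠ 0) :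
    ψ.ev P x t = ψ.gy x * ℓ x t := by
  have hpt := h.pt_eq ht.1 hD
  have hlt := h.lt_eq ht hD
  have hnd : (ψ.gc (ψ.uv x)).roots.Nodup := Polynomial.nodup_roots (h.gc_sep hD)
  obtain ⟨R, hR⟩ : ∃ R : Finset κ, R.1 = (ψ.gc (ψ.uv x)).roots := ⟨⟨_, hnd⟩, rfl⟩
  have hmem : ∀ w, w ∈ R ↔ pe (ψ.uv x) w ψ.G = 0 := fun w => by
    rw [← h.mem_gc, ← hR, Finset.mem_val]
  have hsj : ∀ j, ψ.sj ℓ j (ψ.uv x) (ψ.uv t) = ∑ w ∈ R, w ^ j *
      ℓ (ψ.pt (ψ.uv x) w) (ψ.lt (ψ.uv x) w (ψ.uv t)) := fun j => by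
    rw [Prj.sj, ← hR]
    rfl
  have h1 : ψ.ev P x t = ∑ w ∈ R, (∑ j ∈ Finset.range ψ.G.natDegree,
      pe (ψ.uv x) (ψ.yv x) (ψ.bt j) * w ^ j) *
        ℓ (ψ.pt (ψ.uv x) w) (ψ.lt (ψ.uv x) w (ψ.uv t)) := by
    rw [Prj.ev]
    simp only [Finset.sum_mul]
    rw [Finset.sum_comm]
    refine Finset.sum_congr rfl fun j hj => ?_
    rw [← hP j (Finset.mem_range.1 hj) _ _ hD, hsj, Finset.mul_sum]
    exact Finset.sum_congr rfl fun w _ => by ring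
  rw [h1, Finset.sum_eq_single (ψ.yv x)]
  · rw [bt_der, hpt.2, hlt, Prj.gy]
  · intro w hw hne
    have h2 := bt_sub ψ (ψ.uv x) (ψ.yv x) w
    rw [(hmem w).1 hw, hpt.1, sub_zero] at h2
    rw [(mul_eq_zero.1 h2).resolve_left (sub_ne_zero.2 hne), zero_mul]
  · intro hw
    exact absurd ((hmem _).2 hpt.1) hw

/-- **The compatible system.** Proof: `P i j r` from `Fv.poly` if `j < n_i` and `D_i ≠ 0`, `0` otherwise; `ev_eq`; `ovl` from `ev_eq` twice; `rad` from `ev_eq` with `t = x` (`tg_rad` with `s = 1`, `Fv.rad`). -/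
theorem Fv.sy [Infinite κ] (hf : ∀ i, ∃ e, (f i).IsHomogeneous e) (h : ∀ i, (ψ i).Ok f)
    {p : ℕ} (hp : p.Prime) [CharP κ p] (hpf : ∀ x : κ, ∃ y, y ^ p = x)
    {ℓ : (Fin N → κ) → (Fin N → κ) → κ} (hℓ : Fv f ψ ℓ) :
    ∃ P : Pv κ m d, Sy f ψ P ∧ ∀ i x t, Tg f x t → eval ((ψ i).uv x) (ψ i).D ≠ 0 →
      (ψ i).ev (P i) x t = (ψ i).gy x * ℓ x t := by
  have hex : ∀ i, ∃ Q : ℕ → Fin (d + 1) → MvPolynomial (Fin (d + 1)) κ,
      (∀ j r, (Q j r).IsHomogeneous (j - 1)) ∧ (∀ r, Q 0 r = 0) ∧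
      (∀ j r, (ψ i).G.natDegree ≤ j → Q j r = 0) ∧ (∀ j r, (ψ i).D = 0 → Q j r = 0) ∧
      ∀ j < (ψ i).G.natDegree, ∀ c ξ, eval c (ψ i).D ≠ 0 →
        (ψ i).sj ℓ j c ξ = ∑ r, eval c (Q j r) * ξ r := by
    intro i
    by_cases h0 : (ψ i).D = 0
    · refine ⟨fun _ _ => 0, fun _ _ => isHomogeneous_zero _ _ _, fun _ => rfl,
        fun _ _ _ => rfl, fun _ _ _ => rfl, fun j _ c ξ hc => ?_⟩
      rw [h0, map_zero] at hc
      exact absurd rfl hc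
    · obtain ⟨Q, hQ1, hQ2, hQ3⟩ := Fv.poly hf h hp hpf hℓ i h0
      refine ⟨fun j r => if j < (ψ i).G.natDegree then Q j r else 0, fun j r => ?_, fun r => ?_,
        fun j r hj => ?_, fun j r h1 => absurd h1 h0, fun j hj c ξ hc => ?_⟩
      · change (if j < (ψ i).G.natDegree then Q j r else 0).IsHomogeneous (j - 1)
        split_ifs
        · exact hQ1 j r
        · exact isHomogeneous_zero _ _ _
      · change (if 0 < (ψ i).G.natDegree then Q 0 r else 0) = 0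
        rw [hQ2, ite_self]
      · exact if_neg (by omega)
      · rw [hQ3 j c ξ hc]
        simp only [if_pos hj]
  choose P hP1 hP2 hP3 hP4 hP5 using hex
  have hev : ∀ i x t, Tg f x t → eval ((ψ i).uv x) (ψ i).D ≠ 0 →
      (ψ i).ev (P i) x t = (ψ i).gy x * ℓ x t := fun i x t ht hD =>
    (h i).ev_eq (hP5 i) ht hD
  refine ⟨P, ⟨hP1, hP2, hP3, hP4, fun i x hx hD => ?_, fun i i' x t ht hD hD' => ?_⟩, hev⟩
  · have h1 := tg_rad hf hx (1 : κ)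
    have h2 := hℓ.rad x 1 hx
    rw [one_smul] at h1 h2
    rw [hev i x x h1 hD, h2, mul_zero]
  · rw [hev i x t ht hD, hev i' x t ht hD']
    ring

end GX
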