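import Pool.Agent.Lib.MP_f80667_ag.Gx.Ee

/-! Compatible systems over a larger field. -/

open MvPolynomial

namespace GX

variable {κ : Type} [Field κ] {N d m : ℕ} {ι : Type} {f : ι → MvPolynomial (Fin N) κ}
  {ψ : Fin m → Prj κ N d}

theorem Prj.ev_add (ψ : Prj κ N d) (P : ℕ → Fin (d + 1) → MvPolynomial (Fin (d + 1)) κ)
    (x t t' : Fin N → κ) : ψ.ev P x (t + t') = ψ.ev P x t + ψ.ev P x t' := by
  rw [Prj.ev, Prj.ev, Prj.ev, ← Finset.sum_add_distrib, uv_add]
  refine Finset.sum_congr rfl fun j _ => ?_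
  rw [← mul_add, ← Finset.sum_add_distrib]
  congr 1
  refine Finset.sum_congr rfl fun r _ => ?_
  rw [Pi.add_apply, mul_add]

theorem Prj.ev_smul (ψ : Prj κ N d) (P : ℕ → Fin (d + 1) → MvPolynomial (Fin (d + 1)) κ)
    (x t : Fin N → κ) (s : κ) : ψ.ev P x (s • t) = s * ψ.ev P x t := by
  rw [Prj.ev, Prj.ev, Finset.mul_sum, uv_smul]
  refine Finset.sum_congr rfl fun j _ => ?_
  have h : ∑ r, eval (ψ.uv x) (P j r) * (s • ψ.uv t) r =
      s * ∑ r, eval (ψ.uv x) (P j r) * ψ.uv t r := by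
    rw [Finset.mul_sum]
    refine Finset.sum_congr rfl fun r _ => ?_
    rw [Pi.smul_apply, smul_eq_mul, mul_left_comm]
  rw [h, mul_left_comm]

private theorem ef_sum (ψ : Prj κ N d) (P : ℕ → Fin (d + 1) → MvPolynomial (Fin (d + 1)) κ)
    (x : Fin N → κ) {τ : Type} (s : Finset τ) (a : τ → κ) (v : τ → Fin N → κ) :
    ψ.ev P x (∑ r ∈ s, a r • v r) = ∑ r ∈ s, a r * ψ.ev P x (v r) := by
  classical
  induction s using Finset.induction_on with
  | empty =>
    rw [Finset.sum_empty, Finset.sum_empty]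
    have h := ψ.ev_smul P x 0 0
    rwa [zero_smul, zero_mul] at h
  | insert i s hi ih =>
    rw [Finset.sum_insert hi, Finset.sum_insert hi, Prj.ev_add, Prj.ev_smul, ih]

private theorem ef_single (ψ : Prj κ N d) (c : Fin (d + 1) → κ) (w : κ) (r : Fin (d + 1))
    (j : Fin N) : ψ.lt c w (Pi.single r 1) j = pe c w (ψ.tp r j) /
      (eval c ψ.D ^ 2 * pe c w (Polynomial.derivative ψ.G)) := by
  rw [Prj.lt, Finset.sum_eq_single r]
  · rw [Pi.single_eq_same, one_mul]
  · intro b _ hb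
    rw [Pi.single_eq_of_ne hb, zero_mul]
  · intro h
    exact absurd (Finset.mem_univ r) h

/-- Every tangent vector is the combination of the tangent vectors over the `e_r`. Proof: `lt_eq`; `u (t) = ∑ u_r (t) e_r`, `lt_add`, `lt_smul`. -/
theorem Prj.Ok.lt_sum {ψ : Prj κ N d} (h : ψ.Ok f) {x t : Fin N → κ} (ht : Tg f x t)
    (hD : eval (ψ.uv x) ψ.D ≠ 0) :
    t = ∑ r, ψ.uv t r • ψ.lt (ψ.uv x) (ψ.yv x) (Pi.single r 1) := by
  have h1 := h.lt_eq ht hD
  have h2 : ψ.lt (ψ.uv x) (ψ.yv x) (ψ.uv t) =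
      ∑ r, ψ.uv t r • ψ.lt (ψ.uv x) (ψ.yv x) (Pi.single r 1) := by
    funext j
    rw [Finset.sum_apply, Prj.lt, Finset.sum_div]
    refine Finset.sum_congr rfl fun r _ => ?_
    rw [Pi.smul_apply, ef_single, smul_eq_mul, mul_div_assoc]
  rw [← h2, h1]

private theorem ef_id (ψ : Prj κ N d) : ψ.map (algebraMap κ κ) = ψ := by
  have h : (MvPolynomial.map (algebraMap κ κ) :
      MvPolynomial (Fin (d + 1)) κ →+* MvPolynomial (Fin (d + 1)) κ) = RingHom.id _ := by
    refine RingHom.ext fun a => ?_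
    exact MvPolynomial.map_id a
  cases ψ
  unfold Prj.map
  congr 1
  · change Polynomial.map (MvPolynomial.map (algebraMap κ κ)) _ = _
    rw [h, Polynomial.map_id]
  · exact MvPolynomial.map_id _
  · funext j
    change Polynomial.map (MvPolynomial.map (algebraMap κ κ)) _ = _
    rw [h, Polynomial.map_id]

private theorem ef_gy (ψ : Prj κ N d) (x : Fin N → κ) :
    aeval x (ψ.cp (Polynomial.derivative ψ.G)) = ψ.gy x := by
  rw [← gy_map, ef_id]

private theorem ef_ev (ψ : Prj κ N d) (P : ℕ → Fin (d + 1) → MvPolynomial (Fin (d + 1)) κ)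
    (x t : Fin N → κ) : aeval (Sum.elim x t : Fin N ⊕ Fin N → κ) (ψ.evq P) = ψ.ev P x t := by
  rw [evq_aeval, ef_id]
  congr 1
  funext j r
  exact MvPolynomial.map_id _

private theorem ef_D {S : Type} [Field S] [Algebra κ S] (ψ : Prj κ N d) (x : Fin N → S) :
    aeval x (ψ.cp (Polynomial.C ψ.D)) = aeval (ψ.uv x) ψ.D := by
  rw [cp_aeval, pe_C]

private theorem ef_inl {S : Type} [Field S] [Algebra κ S] (x t : Fin N → S)
    (Q : MvPolynomial (Fin N) κ) :
    aeval (Sum.elim x t : Fin N ⊕ Fin N → S) (rename Sum.inl Q) = aeval x Q := by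
  rw [aeval_rename, Sum.elim_comp_inl]

/-- The principle: an identity at all points over the small field. -/
private theorem ef_key {κ' : Type} [Field κ'] [Algebra κ κ'] [Infinite κ] {ψ : Prj κ N d}
    (h : ψ.Ok f) (hspl : ∀ g : Polynomial κ, g ≠ 0 → g.natDegree ≤ ψ.G.natDegree →
      Multiset.card g.roots = g.natDegree) (E : MvPolynomial (Fin N ⊕ Fin N) κ)
    (r : Fin (d + 1))
    (hE : ∀ (c : Fin (d + 1) → κ) (w : κ), eval c ψ.D ≠ 0 → pe c w ψ.G = 0 →
      aeval (Sum.elim (ψ.pt c w) (ψ.lt c w (Pi.single r 1)) : Fin N ⊕ Fin N → κ) E = 0)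
    {x : Fin N → κ'} (hx : Zp (fun i => MvPolynomial.map (algebraMap κ κ') (f i)) x)
    (hD : eval ((ψ.map (algebraMap κ κ')).uv x) (ψ.map (algebraMap κ κ')).D ≠ 0) :
    aeval (Sum.elim x ((ψ.map (algebraMap κ κ')).lt ((ψ.map (algebraMap κ κ')).uv x)
      ((ψ.map (algebraMap κ κ')).yv x) (Pi.single r 1)) : Fin N ⊕ Fin N → κ') E = 0 := by
  have hok := h.map (algebraMap κ κ')
  obtain ⟨hG, hpt⟩ := hok.pt_eq hx hD
  have hgy := hok.gy_ne hG hD
  generalize hc : (ψ.map (algebraMap κ κ')).uv x = c at *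
  generalize hw : (ψ.map (algebraMap κ κ')).yv x = w at *
  have hG' : pe c w ψ.G = 0 := by
    have h1 : pe c w (ψ.G.map (MvPolynomial.map (algebraMap κ κ'))) = 0 := hG
    rwa [pe_map] at h1
  have hgy' : pe c w (Polynomial.derivative ψ.G) ≠ 0 := by
    have h1 : pe c w (Polynomial.derivative (ψ.G.map (MvPolynomial.map (algebraMap κ κ')))) ≠ 0 :=
      hgy
    rwa [Polynomial.derivative_map, pe_map] at h1
  have hD' : aeval c ψ.D ≠ 0 := by
    have h1 : eval c (MvPolynomial.map (algebraMap κ κ') ψ.D) ≠ 0 := hD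
    rwa [eval_map'] at h1
  have hD0 : ψ.D ≠ 0 := by
    intro h0
    rw [h0, map_zero] at hD'
    exact hD' rfl
  obtain ⟨e, Φ, hΦ⟩ := exists_pb ψ r E
  have hdvd : ψ.G ∣ Φ := by
    refine dens h.mon hD0 h.bez hspl fun c w hc hw => ?_
    have h1 := hΦ κ c w hc (h.gy_ne hw hc)
    have h2 : (Sum.elim (fun j => pe c w (ψ.A j) / aeval c ψ.D) fun j =>
        pe c w (ψ.tp r j) / (aeval c ψ.D ^ 2 * pe c w (Polynomial.derivative ψ.G)) :
          Fin N ⊕ Fin N → κ) = Sum.elim (ψ.pt c w) (ψ.lt c w (Pi.single r 1)) := by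
      congr 1
      funext j
      exact (ef_single ψ c w r j).symm
    rw [h2, hE c w hc hw, mul_zero] at h1
    exact h1
  obtain ⟨q, rfl⟩ := hdvd
  have h3 := hΦ κ' c w hD' hgy'
  rw [map_mul, hG', zero_mul] at h3
  have h4 := (mul_eq_zero.1 h3.symm).resolve_left
    (pow_ne_zero _ (mul_ne_zero (pow_ne_zero _ hD') hgy'))
  have h5 : (Sum.elim (fun j => pe c w (ψ.A j) / aeval c ψ.D) fun j =>
      pe c w (ψ.tp r j) / (aeval c ψ.D ^ 2 * pe c w (Polynomial.derivative ψ.G)) :
        Fin N ⊕ Fin N → κ') =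
      Sum.elim x ((ψ.map (algebraMap κ κ')).lt c w (Pi.single r 1)) := by
    congr 1
    · rw [← hpt]
      funext j
      exact (pt_map ψ c w j).symm
    · funext j
      exact (lt_map ψ c w r j).symm
  rw [h5] at h4
  exact h4

/-- **Compatible systems over a larger field.** Proof. `ovl`: let `x`, `t` be over `κ'`. The polynomial `E = (g_i' ev_i - g_i ev_i') D_i' (u_i')` in the coordinates of the point and of the
vector (`evq`; `g_i = rename Sum.inl (cp (G_i)_Y)`, `rename Sum.inl (cp (C D_i'))`); let `r` be given and `e`, `Φ` from `exists_pb (ψ i) r E`. For `c`, `w` over `κ` with `D_i (c) ≠ 0`, `G_i (c, w) = 0`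
the pair `(pt c w, lt c w e_r)` is a tangent vector (`Ok.lt_tg`), so `E` is `0` there (`hP.ovl`, or `D_i' = 0`) and `Φ (c, w) = 0` (`exists_pb` with `κ' = κ`); `dens`: `G_i ∣ Φ` (`D_i ≠ 0` because `D_i (u_i (x)) ≠ 0`). So `Φ = 0` at `c = u_i (x)`,
`w = y_i (x)` over `κ'` (`Ok.pt_eq` for the mapped projection, `Ok.map`), and `E` is `0` at `(x, lt c w e_r)` (`pt_map`, `lt_map`, `gy_ne`), so `g_i' ev_i = g_i ev_i'` there because `D_i' (u_i' (x)) ≠ 0`; linearity: `lt_sum`, `ev_add`, `ev_smul`. `rad`: the same with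
`E = rename (Sum.elim Sum.inl Sum.inl) (evq)` (value `ev_i x x`) and any `r`. The other fields: `MvPolynomial.map` is injective, `Polynomial.natDegree_map_eq_of_injective`. -/
theorem Sy.up {κ' : Type} [Field κ'] [Algebra κ κ'] [Infinite κ]
    (hf : ∀ i, ∃ e, (f i).IsHomogeneous e) (h : ∀ i, (ψ i).Ok f)
    (hspl : ∀ i, ∀ g : Polynomial κ, g ≠ 0 → g.natDegree ≤ (ψ i).G.natDegree →
      Multiset.card g.roots = g.natDegree) {P : Pv κ m d} (hP : Sy f ψ P) :
    Sy (fun i => MvPolynomial.map (algebraMap κ κ') (f i))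
      (fun i => (ψ i).map (algebraMap κ κ'))
      fun i j r => MvPolynomial.map (algebraMap κ κ') (P i j r) where
  hom i j r := (hP.hom i j r).map _
  zero i r := by rw [hP.zero, map_zero]
  big i j r hj := by
    have h1 : ((ψ i).map (algebraMap κ κ')).G.natDegree = (ψ i).G.natDegree :=
      (h i).mon.natDegree_map _
    rw [h1] at hj
    rw [hP.big i j r hj, map_zero]
  triv i j r hD := by
    have h1 : (ψ i).D = 0 := by
      apply MvPolynomial.map_injective (algebraMap κ κ') (algebraMap κ κ').injective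
      rw [map_zero]
      exact hD
    rw [hP.triv i j r h1, map_zero]
  rad i x hx hD := by
    have h1 := ef_key (h i) (hspl i)
      (rename (Sum.elim Sum.inl Sum.inl : Fin N ⊕ Fin N → Fin N ⊕ Fin N) ((ψ i).evq (P i)))
      0 (fun c w hc hw => ?_) hx hD
    · have h2 : ∀ t : Fin N → κ', (Sum.elim x t : Fin N ⊕ Fin N → κ') ∘
          (Sum.elim Sum.inl Sum.inl : Fin N ⊕ Fin N → Fin N ⊕ Fin N) = Sum.elim x x := by
        intro t
        funext j
        rcases j with j | j <;> rfl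
      rw [aeval_rename, h2, evq_aeval] at h1
      exact h1
    · have h2 : ∀ x t : Fin N → κ, (Sum.elim x t : Fin N ⊕ Fin N → κ) ∘
          (Sum.elim Sum.inl Sum.inl : Fin N ⊕ Fin N → Fin N ⊕ Fin N) = Sum.elim x x := by
        intro x t
        funext j
        rcases j with j | j <;> rfl
      obtain ⟨hz, hu, -⟩ := (h i).pt_zp hf hw hc
      rw [aeval_rename, h2, ef_ev]
      exact hP.rad i _ hz (by rwa [hu])
  ovl i i' x t ht hD hD' := by
    have hok := (h i).map (algebraMap κ κ')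
    have key : ∀ r, ((ψ i').map (algebraMap κ κ')).gy x *
        ((ψ i).map (algebraMap κ κ')).ev
          (fun j r => MvPolynomial.map (algebraMap κ κ') (P i j r)) x
          (((ψ i).map (algebraMap κ κ')).lt (((ψ i).map (algebraMap κ κ')).uv x)
            (((ψ i).map (algebraMap κ κ')).yv x) (Pi.single r 1)) =
        ((ψ i).map (algebraMap κ κ')).gy x *
        ((ψ i').map (algebraMap κ κ')).ev
          (fun j r => MvPolynomial.map (algebraMap κ κ') (P i' j r)) x
          (((ψ i).map (algebraMap κ κ')).lt (((ψ i).map (algebraMap κ κ')).uv x)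
            (((ψ i).map (algebraMap κ κ')).yv x) (Pi.single r 1)) := by
      intro r
      have h1 := ef_key (h i) (hspl i)
        ((rename Sum.inl ((ψ i').cp (Polynomial.derivative (ψ i').G)) * (ψ i).evq (P i) -
          rename Sum.inl ((ψ i).cp (Polynomial.derivative (ψ i).G)) * (ψ i').evq (P i')) *
          rename Sum.inl ((ψ i').cp (Polynomial.C (ψ i').D)))
        r (fun c w hc hw => ?_) ht.1 hD
      · rw [map_mul, map_sub, map_mul, map_mul, ef_inl, ef_inl, ef_inl, evq_aeval, evq_aeval,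
          ef_D, ← gy_map, ← gy_map] at h1
        have h2 : aeval ((ψ i').uv x) (ψ i').D ≠ 0 := by
          have h3 : eval (((ψ i').map (algebraMap κ κ')).uv x)
            (MvPolynomial.map (algebraMap κ κ') (ψ i').D) ≠ 0 := hD'
          rwa [eval_map', uv_map] at h3
        exact sub_eq_zero.1 ((mul_eq_zero.1 h1).resolve_right h2)
      · obtain ⟨hz, hu, -⟩ := (h i).pt_zp hf hw hc
        obtain ⟨htg, -⟩ := (h i).lt_tg hf hw hc (Pi.single r 1)
        rw [map_mul, map_sub, map_mul, map_mul, ef_inl, ef_inl, ef_inl, ef_ev, ef_ev,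
          ef_D, ef_gy, ef_gy]
        by_cases h2 : eval ((ψ i').uv ((ψ i).pt c w)) (ψ i').D = 0
        · have h3 : aeval ((ψ i').uv ((ψ i).pt c w)) (ψ i').D = 0 := h2
          rw [h3, mul_zero]
        · rw [hP.ovl i i' _ _ htg (by rwa [hu]) h2, sub_self, zero_mul]
    rw [hok.lt_sum ht hD, ef_sum, ef_sum, Finset.mul_sum, Finset.mul_sum]
    refine Finset.sum_congr rfl fun r _ => ?_
    rw [mul_left_comm, key r, mul_left_comm]

end GX
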