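import Pool.Agent.Lib.MP_f80667_ag.Gx.Ea
import Pool.Agent.Lib.MP_f80667_ag.Gx.Ed
import Pool.Agent.Lib.MP_f80667_ag.Gx.Ef

/-! The functions vanish. -/

open MvPolynomial

namespace GX

variable {κ : Type} [Field κ] {N d m : ℕ} {ι : Type} {f : ι → MvPolynomial (Fin N) κ}
  {ψ : Fin m → Prj κ N d}

/-- **The functions vanish.** Proof: otherwise `Ft.exists_fv`: `ℓ` with `ℓ x t ≠ 0`; `Fv.sy`: the compatible system `P`; `Sy.up`, `hN`: its image over `κ'` is `0`, so `P = 0` (`MvPolynomial.map_injective`); `Cov.exists_ne`: a projection with `D_i (u_i (x)) ≠ 0`;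
`0 = ev 0 x t = gy x * ℓ x t` and `gy x ≠ 0` (`pt_eq`, `gy_ne`). -/
theorem Ft.zero {κ' : Type} [Field κ'] [Algebra κ κ'] [Infinite κ] {p : ℕ} (hp : p.Prime)
    [CharP κ p] (hpf : ∀ x : κ, ∃ y, y ^ p = x)
    (hspl : ∀ i, ∀ g : Polynomial κ, g ≠ 0 → g.natDegree ≤ (ψ i).G.natDegree →
      Multiset.card g.roots = g.natDegree)
    (hf : ∀ i, ∃ e, (f i).IsHomogeneous e) (h : ∀ i, (ψ i).Ok f) (hc : Cov f ψ)
    (hN : Nf (fun i => MvPolynomial.map (algebraMap κ κ') (f i))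
      fun i => (ψ i).map (algebraMap κ κ'))
    {B : Type} [AddCommGroup B] {T : (Fin N → κ) → (Fin N → κ) → B} (hT : Ft f ψ T)
    {x t : Fin N → κ} (ht : Tg f x t) : T x t = 0 := by
  by_contra h1
  obtain ⟨ℓ, hℓ, hne⟩ := hT.exists_fv hf h ht h1
  obtain ⟨P, hP, hev⟩ := Fv.sy hf h hp hpf hℓ
  have h2 := hN _ (hP.up (κ' := κ') hf h hspl)
  have h3 : ∀ i j r, P i j r = 0 := by
    intro i j r
    refine MvPolynomial.map_injective _ (algebraMap κ κ').injective ?_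
    rw [map_zero]
    exact h2 i j r
  obtain ⟨i, hi⟩ := hc.exists_ne ht.1
  have h4 := hev i x t ht hi
  have h5 : (ψ i).ev (P i) x t = 0 := by
    unfold Prj.ev
    refine Finset.sum_eq_zero fun j _ => ?_
    rw [Finset.sum_eq_zero fun r _ => ?_, mul_zero]
    rw [h3 i j r, map_zero, zero_mul]
  rw [h5] at h4
  rcases mul_eq_zero.1 h4.symm with h6 | h6
  · exact (h i).gy_ne ((h i).pt_eq ht.1 hi).1 hi h6
  · exact hne h6

end GX
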