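import Pool.Agent.Lib.MP_f80667_ag.Gx.Dt
import Pool.Agent.Lib.MP_f80667_ag.Gx.Eg

/-! The functions on the tangent vectors vanish if there are no compatible systems modulo the maximal ideal. -/

open ZC BE PE CV IntermediateField

namespace GX

variable {F : Type} [Field F] {N d m : ℕ} {ι : Type} (f : ι → MvPolynomial (Fin N) F)
  {K Ω : Type} [Field K] [Field Ω] [Algebra K Ω] [Algebra F K] [Algebra F Ω]
  [IsScalarTower F K Ω] (L : Ld K Ω)

/-- The functions on the pairs (point, tangent vector) over the subfields of `L.κ` vanish. -/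
def Alg (ψ : Fin m → Prj K N d) : Prop :=
  ∀ k : Subfield L.κ, Infinite k → (∀ x : k, ∃ y, y ^ L.p = x) →
    (∀ g : Polynomial k, g ≠ 0 → g.natDegree < L.p → Multiset.card g.roots = g.natDegree) →
    ∀ (f' : ι → MvPolynomial (Fin N) k) (ψ' : Fin m → Prj k N d), Rdx f L k ψ f' ψ' →
      ∀ (B : Type) [AddCommGroup B] (T : (Fin N → k) → (Fin N → k) → B), Ft f' ψ' T →
        ∀ x t, Tg f' x t → T x t = 0

variable {f L}

/-- The residues of the coefficients of `f`. -/
private theorem al2_f {g : MvPolynomial (Fin N) F}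
    {g₀ : MvPolynomial (Fin N) (L.V.comap (algebraMap F Ω))}
    (hm : MvPolynomial.map (L.V.comap (algebraMap F Ω)).subtype g₀ = g) {k : Subfield L.κ}
    {g' : MvPolynomial (Fin N) k} (hr : GM.Rdp L k g g') :
    MvPolynomial.map (algebraMap k L.κ) g' = MvPolynomial.map (rdO F L.V) g₀ := by
  subst hm
  ext e
  have h1 := hr e
  rw [MvPolynomial.coeff_map] at h1
  rw [MvPolynomial.coeff_map, MvPolynomial.coeff_map]
  exact h1.uniq (rdO_hv (L := L) (g₀.coeff e))

/-- The residues of the coefficients of a projection. -/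
private theorem al2_p {ψ : Prj F N d} {ψ₀ : Prj (L.V.comap (algebraMap F Ω)) N d}
    (hm : ψ₀.map (L.V.comap (algebraMap F Ω)).subtype = ψ) {k : Subfield L.κ} {ψ' : Prj k N d}
    (hr : Rdj L k (ψ.map (algebraMap F K)) ψ') :
    ψ'.map (algebraMap k L.κ) = ψ₀.map (rdO F L.V) := by
  subst hm
  have key : ∀ (x : L.V.comap (algebraMap F Ω)) (r : k),
      L.rs.Hv (algebraMap K Ω (algebraMap F K (x : F))) (r : L.κ) →
        algebraMap k L.κ r = rdO F L.V x := by
    intro x r h
    rw [← IsScalarTower.algebraMap_apply] at h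
    exact h.uniq (rdO_hv x)
  have h1 : (ψ'.map (algebraMap k L.κ)).u = (ψ₀.map (rdO F L.V)).u := by
    funext r j
    exact key _ _ (hr.u r j)
  have h2 : (ψ'.map (algebraMap k L.κ)).y = (ψ₀.map (rdO F L.V)).y := by
    funext j
    exact key _ _ (hr.y j)
  have h3 : (ψ'.map (algebraMap k L.κ)).G = (ψ₀.map (rdO F L.V)).G := by
    refine Polynomial.ext fun j => MvPolynomial.ext _ _ fun e => ?_
    have h := hr.G j e
    simp only [Prj.map, Polynomial.coeff_map, MvPolynomial.coeff_map] at h ⊢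
    exact key _ _ h
  have h4 : (ψ'.map (algebraMap k L.κ)).D = (ψ₀.map (rdO F L.V)).D := by
    refine MvPolynomial.ext _ _ fun e => ?_
    have h := hr.D e
    simp only [Prj.map, MvPolynomial.coeff_map] at h ⊢
    exact key _ _ h
  have h5 : (ψ'.map (algebraMap k L.κ)).A = (ψ₀.map (rdO F L.V)).A := by
    funext i
    refine Polynomial.ext fun j => MvPolynomial.ext _ _ fun e => ?_
    have h := hr.A i j e
    simp only [Prj.map, Polynomial.coeff_map, MvPolynomial.coeff_map] at h ⊢
    exact key _ _ h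
  exact (Prj.mk.injEq _ _ _ _ _ _ _ _ _ _).mpr ⟨h1, h2, h3, h4, h5⟩

/-- Proof: `Ft.zero` with `κ = k`, `κ' = L.κ` (`Rdx.ok`, `cov`, `hom`, `deg`; `L.char_κ` for the characteristic of `k`); the hypothesis `Nf` by `Dat.rdx_eq`. The degree of `(ψ' i).G` is the degree of `(ψ i).G`. -/
theorem alg_of {ψ : Fin m → Prj F N d}
    {f₀ : ι → MvPolynomial (Fin N) (L.V.comap (algebraMap F Ω))}
    {ψ₀ : Fin m → Prj (L.V.comap (algebraMap F Ω)) N d} (h : Dat L.V f ψ f₀ ψ₀)
    (hn : ∀ i, (ψ i).G.natDegree < L.p)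
    (hN : Nf (fun i => MvPolynomial.map (rdO F L.V) (f₀ i)) fun i => (ψ₀ i).map (rdO F L.V)) :
    Alg f L fun i => (ψ i).map (algebraMap F K) := by
  intro k hinf hpf hspl f' ψ' hr B _ T hT x t ht
  have hch : CharP L.κ L.p := L.char_κ
  have hck : CharP k L.p := RingHom.charP (algebraMap k L.κ) (algebraMap k L.κ).injective L.p
  have e1 : (fun i => MvPolynomial.map (algebraMap k L.κ) (f' i)) =
      fun i => MvPolynomial.map (rdO F L.V) (f₀ i) := by
    funext i
    exact al2_f (h.mf i) (hr.rf i)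
  have e2 : (fun i => (ψ' i).map (algebraMap k L.κ)) = fun i => (ψ₀ i).map (rdO F L.V) := by
    funext i
    exact al2_p (h.mp i) (hr.rj i)
  refine Ft.zero (κ' := L.κ) L.pp hpf (fun i g hg hd => hspl g hg (hd.trans_lt ?_)) hr.hom hr.ok
    hr.cov ?_ hT ht
  · rw [hr.deg i]
    exact (Polynomial.natDegree_map_le).trans_lt (hn i)
  · rw [e1, e2]
    exact hN

end GX
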