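import Pool.Agent.Lib.MP_f80667_ag.Gx.Eb
import Pool.Agent.Lib.MP_f80667_ag.Gx.Ef

/-! Compatible systems are global forms. -/

open MvPolynomial

namespace GX

variable {κ : Type} [Field κ] {N d m : ℕ} {ι : Type} {f : ι → MvPolynomial (Fin N) κ}
  {ψ : Fin m → Prj κ N d}

/-- Homogeneity. Proof: term by term: `bt_smul` (`s ^ (n - 1 - j)`), `hP` (`s ^ (j - 1)`, `aeval_smul_hom`), `uv_smul` (`s`); for `j = 0` both sides are `0`, for `1 ≤ j < n` `n - 1 - j + (j - 1) + 1 = n - 1`. -/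
theorem Prj.ev_hom {ψ : Prj κ N d} (h : ψ.Ok f)
    {P : ℕ → Fin (d + 1) → MvPolynomial (Fin (d + 1)) κ} (hP : ∀ j r, (P j r).IsHomogeneous (j - 1))
    (h0 : ∀ r, P 0 r = 0) (x t : Fin N → κ) (s : κ) :
    ψ.ev P (s • x) (s • t) = s ^ (ψ.G.natDegree - 1) * ψ.ev P x t := by
  rw [Prj.ev, Prj.ev, Finset.mul_sum]
  refine Finset.sum_congr rfl fun j hj => ?_
  have hj' := Finset.mem_range.1 hj
  rcases Nat.eq_zero_or_pos j with rfl | hpos
  · simp only [h0, map_zero, zero_mul, Finset.sum_const_zero, mul_zero]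
  rw [uv_smul, uv_smul, yv_smul, bt_smul ψ h.homG _ _ _ hj']
  have h1 : ∑ r, eval (s • ψ.uv x) (P j r) * (s • ψ.uv t) r =
      s ^ j * ∑ r, eval (ψ.uv x) (P j r) * ψ.uv t r := by
    rw [Finset.mul_sum]
    refine Finset.sum_congr rfl fun r _ => ?_
    have h2 : eval (s • ψ.uv x) (P j r) = s ^ (j - 1) * eval (ψ.uv x) (P j r) :=
      aeval_smul_hom (hP j r) (ψ.uv x) s
    have h3 : s ^ j = s ^ (j - 1) * s := by
      rw [← pow_succ]
      congr 1
      omega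
    rw [h2, h3, Pi.smul_apply, smul_eq_mul]
    ring
  have h4 : s ^ (ψ.G.natDegree - 1) = s ^ (ψ.G.natDegree - 1 - j) * s ^ j := by
    rw [← pow_add]
    congr 1
    omega
  rw [h1, h4]
  ring

open Classical in
/-- The form. -/
private noncomputable def ehl (ψ : Fin m → Prj κ N d) (P : Pv κ m d) (x t : Fin N → κ) : κ :=
  if h : ∃ i, eval ((ψ i).uv x) (ψ i).D ≠ 0 then
    (ψ h.choose).ev (P h.choose) x t / (ψ h.choose).gy x else 0

private theorem ehx_gy (h : ∀ i, (ψ i).Ok f) {x : Fin N → κ} (hx : Zp f x) {i : Fin m}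
    (hD : eval ((ψ i).uv x) (ψ i).D ≠ 0) : (ψ i).gy x ≠ 0 :=
  (h i).gy_ne ((h i).pt_eq hx hD).1 hD

private theorem ehl_eq (h : ∀ i, (ψ i).Ok f) {P : Pv κ m d} (hP : Sy f ψ P) {i : Fin m}
    {x t : Fin N → κ} (ht : Tg f x t) (hD : eval ((ψ i).uv x) (ψ i).D ≠ 0) :
    (ψ i).ev (P i) x t = (ψ i).gy x * ehl ψ P x t := by
  have hex : ∃ i, eval ((ψ i).uv x) (ψ i).D ≠ 0 := ⟨i, hD⟩
  rw [ehl, dif_pos hex, mul_div_assoc']
  rw [eq_div_iff (ehx_gy h ht.1 hex.choose_spec), mul_comm]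
  exact hP.ovl i hex.choose x t ht hD hex.choose_spec

/-- **Compatible systems are global forms.** Proof: `ℓ x t = ev (P i) x t / gy_i x` where `i` is chosen (depending on `x` only) with `D_i (u_i (x)) ≠ 0` (`0` if there is none). By `ovl` any such `i` gives the same value for tangent vectors (`gy ≠ 0`: `pt_eq`,
`gy_ne`). `hom`: `ev_hom`, `gy_smul`, `D_i (s u) = s ^ e D_i (u)`. `rad`: `Sy.rad`, `ev_smul`, `tg_rad`. `reg` near `y`: `Cov.exists_ne` gives `i` with `D_i (u_i (y)) ≠ 0`; `Q = cp (C D_i) * cp (G_i)_Y`,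
`A j = cp (C D_i) * ∑_{k < n} cp (bt k) * ∑_r cp (C (P i k r)) * C (u_r j)` (`cp_aeval`). -/
theorem Sy.frm (hf : ∀ i, ∃ e, (f i).IsHomogeneous e) (h : ∀ i, (ψ i).Ok f) (hc : Cov f ψ)
    {P : Pv κ m d} (hP : Sy f ψ P) :
    ∃ ℓ, Frm f ℓ ∧ ∀ i x t, Tg f x t → eval ((ψ i).uv x) (ψ i).D ≠ 0 →
      (ψ i).ev (P i) x t = (ψ i).gy x * ℓ x t := by
  have hcv := hc
  refine ⟨ehl ψ P, ⟨fun x t c hc ht => ?_, fun x c hx => ?_, fun y hy => ?_⟩,
    fun i x t ht hD => ehl_eq h hP ht hD⟩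
  · obtain ⟨i, hD⟩ := hcv.exists_ne ht.1
    obtain ⟨e, -, he⟩ := (h i).homD
    have hD1 : eval (c • (ψ i).uv x) (ψ i).D = c ^ e * eval ((ψ i).uv x) (ψ i).D :=
      aeval_smul_hom he ((ψ i).uv x) c
    have hD' : eval ((ψ i).uv (c • x)) (ψ i).D ≠ 0 := by
      rw [uv_smul, hD1]
      exact mul_ne_zero (pow_ne_zero e hc) hD
    have h1 := ehl_eq h hP (tg_hom hf ht hc) hD'
    have hg : (ψ i).gy (c • x) = c ^ ((ψ i).G.natDegree - 1) * (ψ i).gy x := by
      rw [Prj.gy, Prj.gy, uv_smul, yv_smul]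
      exact gy_smul (ψ i) (h i).homG _ _ _
    rw [Prj.ev_hom (h i) (hP.hom i) (hP.zero i) x t c, ehl_eq h hP ht hD, hg, mul_assoc] at h1
    exact (mul_left_cancel₀ (ehx_gy h ht.1 hD)
      (mul_left_cancel₀ (pow_ne_zero _ hc) h1)).symm
  · obtain ⟨i, hD⟩ := hcv.exists_ne hx
    have h1 := ehl_eq h hP (tg_rad hf hx c) hD
    rw [Prj.ev_smul, hP.rad i x hx hD, mul_zero] at h1
    exact (mul_eq_zero.1 h1.symm).resolve_left (ehx_gy h hx hD)
  · obtain ⟨i, hD⟩ := hcv.exists_ne hy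
    have hev : ∀ (x : Fin N → κ) (Q : Polynomial (MvPolynomial (Fin (d + 1)) κ)),
        eval x ((ψ i).cp Q) = pe ((ψ i).uv x) ((ψ i).yv x) Q := fun x Q =>
      cp_aeval (ψ i) Q x
    have hevC : ∀ (x : Fin N → κ) (Q : MvPolynomial (Fin (d + 1)) κ),
        eval x ((ψ i).cp (Polynomial.C Q)) = eval ((ψ i).uv x) Q := fun x Q => by
      rw [hev, pe_C]
      rfl
    refine ⟨(ψ i).cp (Polynomial.C (ψ i).D) * (ψ i).cp (Polynomial.derivative (ψ i).G),
      fun j => (ψ i).cp (Polynomial.C (ψ i).D) * ∑ k ∈ Finset.range (ψ i).G.natDegree,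
        (ψ i).cp ((ψ i).bt k) * ∑ r, (ψ i).cp (Polynomial.C (P i k r)) * C ((ψ i).u r j),
      ?_, fun x t ht hQ => ?_⟩
    · rw [map_mul, hevC, hev]
      exact mul_ne_zero hD (ehx_gy h hy hD)
    · rw [map_mul, hevC, hev] at hQ ⊢
      have hDx : eval ((ψ i).uv x) (ψ i).D ≠ 0 := left_ne_zero_of_mul hQ
      have h1 := ehl_eq h hP ht hDx
      rw [Prj.gy] at h1
      rw [mul_assoc, ← h1, Prj.ev]
      have h2 : ∀ j, eval x ((ψ i).cp (Polynomial.C (ψ i).D) *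
          ∑ k ∈ Finset.range (ψ i).G.natDegree, (ψ i).cp ((ψ i).bt k) *
            ∑ r, (ψ i).cp (Polynomial.C (P i k r)) * C ((ψ i).u r j)) * t j =
          eval ((ψ i).uv x) (ψ i).D * ∑ k ∈ Finset.range (ψ i).G.natDegree,
            pe ((ψ i).uv x) ((ψ i).yv x) ((ψ i).bt k) *
              ∑ r, eval ((ψ i).uv x) (P i k r) * ((ψ i).u r j * t j) := by
        intro j
        rw [map_mul, hevC, map_sum, mul_assoc, Finset.sum_mul]
        congr 1
        refine Finset.sum_congr rfl fun k _ => ?_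
        rw [map_mul, hev, map_sum, mul_assoc, Finset.sum_mul]
        congr 1
        refine Finset.sum_congr rfl fun r _ => ?_
        rw [map_mul, hevC, eval_C, mul_assoc]
      rw [Finset.sum_congr rfl fun j _ => h2 j, ← Finset.mul_sum, Finset.sum_comm]
      congr 1
      refine Finset.sum_congr rfl fun k _ => ?_
      rw [← Finset.mul_sum, Finset.sum_comm]
      congr 1
      refine Finset.sum_congr rfl fun r _ => ?_
      rw [← Finset.mul_sum]
      rfl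

/-- Proof: `Sy.frm`, so `ev (P i) x t = 0` for all tangent vectors with `D_i ≠ 0`. If `D_i = 0`: `triv`; if `n_i ≤ j`: `big`. For `c` with `D_i (c) ≠ 0`, `w` a root of `gc c` and `ξ = e_r` the tangent vector `(pt c w, lt c w ξ)` (`Ok.lt_tg`, `Ok.pt_zp`) gives
`∑_j β_j (c, w) P_jr (c) = 0`; `bt_inj` for `gc c` (`gc_card`, `bt_pe`; the coefficients of `gc c` are `aeval c (G.coeff k)`): `P_jr (c) = 0`. So `D_i P_jr` vanishes at all `c`: `P_jr = 0` (`MvPolynomial.funext`). -/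
theorem nf_of [Infinite κ] (hf : ∀ i, ∃ e, (f i).IsHomogeneous e) (h : ∀ i, (ψ i).Ok f)
    (hc : Cov f ψ) (hspl : ∀ i, ∀ g : Polynomial κ, g ≠ 0 →
      g.natDegree ≤ (ψ i).G.natDegree → Multiset.card g.roots = g.natDegree) (hN : NoFrm f) :
    Nf f ψ := by
  intro P hP i j r
  by_cases hD0 : (ψ i).D = 0
  · exact hP.triv i j r hD0
  by_cases hj : (ψ i).G.natDegree ≤ j
  · exact hP.big i j r hj
  obtain ⟨ℓ, hℓ, hev⟩ := hP.frm hf h hc
  have key : ∀ c, eval c (ψ i).D ≠ 0 → eval c (P i j r) = 0 := by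
    intro c hD
    obtain ⟨hcard, hnd⟩ := (h i).gc_card (hspl i) hD
    obtain ⟨hmon, hdeg⟩ := (h i).gc_mon c
    have h1 := bt_inj hmon (hcard.trans hdeg.symm) hnd (fun k => eval c (P i k r)) ?_
      j (by rw [hdeg]; omega)
    · exact h1
    intro w hw
    have hG := (h i).mem_gc.1 hw
    obtain ⟨-, hu, hy⟩ := (h i).pt_zp hf hG hD
    obtain ⟨ht, hξ⟩ := (h i).lt_tg hf hG hD (Pi.single r 1)
    have hD' : eval ((ψ i).uv ((ψ i).pt c w)) (ψ i).D ≠ 0 := by rwa [hu]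
    have h2 := hev i _ _ ht hD'
    rw [hN ℓ hℓ _ _ ht, mul_zero, Prj.ev, hu, hy, hξ] at h2
    rw [hdeg, ← h2]
    refine Finset.sum_congr rfl fun k _ => ?_
    have h3 : ∑ r', eval c (P i k r') * (Pi.single r (1 : κ) : Fin (d + 1) → κ) r' =
        eval c (P i k r) := by
      rw [Finset.sum_eq_single r]
      · rw [Pi.single_eq_same, mul_one]
      · intro r' _ hne
        rw [Pi.single_eq_of_ne hne, mul_zero]
      · intro hr
        exact absurd (Finset.mem_univ r) hr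
    rw [h3, bt_pe]
    congr 1
    refine Finset.sum_congr rfl fun l _ => ?_
    rw [Prj.gc, Polynomial.coeff_map]
    rfl
  have h4 : (ψ i).D * P i j r = 0 := by
    refine MvPolynomial.funext fun c => ?_
    rw [map_mul, map_zero]
    by_cases hD : eval c (ψ i).D = 0
    · rw [hD, zero_mul]
    · rw [key c hD, mul_zero]
  exact (mul_eq_zero.1 h4).resolve_left hD0

end GX
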