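import Pool.Agent.Lib.MP_f80667_ag.Gx.Pe

/-! The equations of a projection at points with coordinates in an algebra. -/

open MvPolynomial

namespace GX

section ring

variable {R S : Type} [CommRing R] [CommRing S] [Algebra R S] {N d m : ℕ} {ι : Type}
  {f : ι → MvPolynomial (Fin N) R} {ψ : Prj R N d}

/-- An element of the ideal vanishes at the common zeros. Proof: the ideal is contained in the kernel of `aeval x`
(`Ideal.span_le`, `RingHom.mem_ker`). -/
theorem span_zero {x : Fin N → S} (hx : ∀ i, aeval x (f i) = 0) {P : MvPolynomial (Fin N) R}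
    (hP : P ∈ Ideal.span (Set.range f)) : aeval x P = 0 := by
  have h : Ideal.span (Set.range f) ≤ RingHom.ker (aeval x : MvPolynomial (Fin N) R →ₐ[R] S).toRingHom := by
    refine Ideal.span_le.2 ?_
    rintro _ ⟨i, rfl⟩
    exact hx i
  exact h hP

/-- The equations on the variety. Proof: evaluate `onG` and `onA` at `x` (`span_zero`, `cp_aeval`, `pe_C`); `x k ^ s` is a unit. -/
theorem Prj.Ok.on_pt (h : ψ.Ok f) {x : Fin N → S} (hx : ∀ i, aeval x (f i) = 0) {k : Fin N}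
    (hk : IsUnit (x k)) : pe (ψ.uv x) (ψ.yv x) ψ.G = 0 ∧
      ∀ j, pe (ψ.uv x) (ψ.yv x) (ψ.A j) = aeval (ψ.uv x) ψ.D * x j := by
  constructor
  · obtain ⟨s, hs⟩ := h.onG
    have h1 := span_zero hx (hs k)
    rw [map_mul, map_pow, aeval_X, cp_aeval] at h1
    exact (hk.pow s).mul_right_eq_zero.1 h1
  · intro j
    obtain ⟨s, hs⟩ := h.onA
    have h1 := span_zero hx (hs k j)
    rw [map_mul, map_pow, aeval_X, map_sub, map_mul, aeval_X, cp_aeval, cp_aeval, pe_C] at h1
    exact sub_eq_zero.1 ((hk.pow s).mul_right_eq_zero.1 h1)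

/-- The equations on the hypersurface. Proof: evaluate `inX`, `inu`, `iny` at `(c, w)`: `G` divides, so the value is `0` (`pe_aeval`, `pe_C`, `pe_X`). -/
theorem Prj.Ok.in_A (h : ψ.Ok f) {c : Fin (d + 1) → S} {w : S} (hG : pe c w ψ.G = 0) :
    (∀ r, ψ.uv (fun j => pe c w (ψ.A j)) r = aeval c ψ.D * c r) ∧
      ψ.yv (fun j => pe c w (ψ.A j)) = aeval c ψ.D * w ∧
        ∃ s, ∀ i, aeval c ψ.D ^ s * aeval (fun j => pe c w (ψ.A j)) (f i) = 0 := by
  have h0 : ∀ P : Polynomial (MvPolynomial (Fin (d + 1)) R), ψ.G ∣ P → pe c w P = 0 := by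
    rintro _ ⟨q, rfl⟩
    rw [map_mul, hG, zero_mul]
  refine ⟨fun r => ?_, ?_, ?_⟩
  · have h1 := h0 _ (h.inu r)
    rw [map_sub, map_sum, pe_C, map_mul, aeval_X, sub_eq_zero] at h1
    rw [← h1, Prj.uv, lv]
    refine Finset.sum_congr rfl fun j _ => ?_
    rw [map_mul, pe_C, ← MvPolynomial.algebraMap_eq, AlgHom.commutes]
  · have h1 := h0 _ h.iny
    rw [map_sub, map_sum, map_mul, pe_C, pe_X, sub_eq_zero] at h1
    rw [← h1, Prj.yv, lv]
    refine Finset.sum_congr rfl fun j _ => ?_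
    rw [map_mul, pe_C, ← MvPolynomial.algebraMap_eq, AlgHom.commutes]
  · obtain ⟨s, hs⟩ := h.inX
    refine ⟨s, fun i => ?_⟩
    have h1 := h0 _ (hs i)
    rwa [map_mul, pe_C, map_pow, pe_aeval] at h1

/-- The point with the coordinates `v A_j (c, w)`, `v D (c) = 1`. Proof: `in_A`; `D (c)` is a unit; `f i (v A) = v ^ e f i (A)`
(`aeval_smul_hom`); `uv_smul`, `yv_smul`. -/
theorem Prj.Ok.in_pt (h : ψ.Ok f) (hf : ∀ i, ∃ e, (f i).IsHomogeneous e)
    {c : Fin (d + 1) → S} {w v : S} (hG : pe c w ψ.G = 0) (hv : v * aeval c ψ.D = 1)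
    {x : Fin N → S} (hx : x = fun j => v * pe c w (ψ.A j)) :
    (∀ i, aeval x (f i) = 0) ∧ ψ.uv x = c ∧ ψ.yv x = w := by
  obtain ⟨h1, h2, s, h3⟩ := h.in_A hG
  have hx' : x = v • fun j => pe c w (ψ.A j) := by
    rw [hx]
    rfl
  refine ⟨fun i => ?_, ?_, ?_⟩
  · obtain ⟨e, he⟩ := hf i
    rw [hx', aeval_smul_hom he]
    have h4 : aeval (fun j => pe c w (ψ.A j)) (f i) = 0 := by
      calc aeval (fun j => pe c w (ψ.A j)) (f i)
          = (v * aeval c ψ.D) ^ s * aeval (fun j => pe c w (ψ.A j)) (f i) := by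
            rw [hv, one_pow, one_mul]
        _ = v ^ s * (aeval c ψ.D ^ s * aeval (fun j => pe c w (ψ.A j)) (f i)) := by
            rw [mul_pow, mul_assoc]
        _ = 0 := by rw [h3 i, mul_zero]
    rw [h4, mul_zero]
  · rw [hx', uv_smul]
    funext r
    rw [Pi.smul_apply, h1 r, smul_eq_mul, ← mul_assoc, hv, one_mul]
  · rw [hx', yv_smul, h2, ← mul_assoc, hv, one_mul]

/-- The derivative is invertible where `D` is. Proof: `bez` at `(c, w)`. -/
theorem Prj.Ok.gy_unit (h : ψ.Ok f) {c : Fin (d + 1) → S} {w : S} (hG : pe c w ψ.G = 0)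
    (hD : IsUnit (aeval c ψ.D)) : IsUnit (pe c w (Polynomial.derivative ψ.G)) := by
  obtain ⟨B, B', hB⟩ := h.bez
  have h1 := congrArg (pe c w) hB
  rw [map_add, map_mul, map_mul, hG, mul_zero, zero_add, pe_C] at h1
  rw [← h1] at hD
  exact isUnit_of_mul_isUnit_right hD

/-- The denominators generate the unit ideal. Proof: evaluate the identity of `Cov` at `x` (`Ideal.mem_sup`, `Ideal.map` under `aeval x`; `span_zero`, `cp_aeval`,
`pe_C`): the unit `x k ^ s` is in the ideal. -/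
theorem Cov.top {ψ : Fin m → Prj R N d} (h : Cov f ψ) {x : Fin N → S}
    (hx : ∀ i, aeval x (f i) = 0) {k : Fin N} (hk : IsUnit (x k)) :
    Ideal.span (Set.range fun i => aeval ((ψ i).uv x) (ψ i).D) = ⊤ := by
  obtain ⟨s, hs⟩ := h
  obtain ⟨a, ha, b, hb, hab⟩ := Submodule.mem_sup.1 (hs k)
  have h1 : Ideal.span (Set.range fun i => (ψ i).cp (Polynomial.C (ψ i).D)) ≤
      Ideal.comap (aeval x : MvPolynomial (Fin N) R →ₐ[R] S).toRingHom
        (Ideal.span (Set.range fun i => aeval ((ψ i).uv x) (ψ i).D)) := by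
    refine Ideal.span_le.2 ?_
    rintro _ ⟨i, rfl⟩
    change aeval x ((ψ i).cp (Polynomial.C (ψ i).D)) ∈ Ideal.span (Set.range fun i => aeval ((ψ i).uv x) (ψ i).D)
    rw [cp_aeval, pe_C]
    exact Ideal.subset_span ⟨i, rfl⟩
  have h2 : aeval x b ∈ Ideal.span (Set.range fun i => aeval ((ψ i).uv x) (ψ i).D) := h1 hb
  have h3 := congrArg (aeval x) hab
  rw [map_add, span_zero hx ha, zero_add, map_pow, aeval_X] at h3
  rw [h3] at h2
  exact Ideal.eq_top_of_isUnit_mem _ h2 (hk.pow s)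

end ring

end GX
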