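import Pool.Agent.Lib.MP_f80667_ag.Gx.Wb
import Pool.Agent.Lib.MP_f80667_ag.Gx.Ca
import Pool.Agent.Lib.MP_f80667_ag.Gx.Dt

/-! Reduction of tests. -/

open MvPolynomial

namespace GX

section red

variable {R V κ : Type} [CommRing R] [CommRing V] [Field κ] [Algebra R V] [Algebra R κ]
  {N d m : ℕ} {ι : Type} {f : ι → MvPolynomial (Fin N) R} {ψ : Fin m → Prj R N d}

/-- The value after a homomorphism. -/
private theorem wc_eval {σ : Type} (φ : V →ₐ[R] κ) (P : MvPolynomial σ R) (x : σ → V) :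
    eval (fun j => φ (x j)) (MvPolynomial.map (algebraMap R κ) P) = φ (aeval x P) := by
  rw [← AlgHom.comp_apply, MvPolynomial.comp_aeval, aeval_def, eval_map]

/-- Linear forms after a homomorphism. -/
private theorem wc_lv {S S' : Type} [CommRing S] [CommRing S'] [Algebra R S] [Algebra R S']
    (φ : S →ₐ[R] S') (a : Fin N → R) (x : Fin N → S) :
    φ (lv a x) = lv a fun j => φ (x j) := by
  rw [lv, lv, map_sum]
  refine Finset.sum_congr rfl fun j _ => ?_
  rw [map_mul, AlgHom.commutes]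

/-- The linear forms `u_r` after a homomorphism to a field. -/
private theorem wc_uv (φ : V →ₐ[R] κ) (ψ : Prj R N d) (x : Fin N → V) :
    (ψ.map (algebraMap R κ)).uv (fun j => φ (x j)) = fun r => φ (ψ.uv x r) := by
  rw [uv_map]
  funext r
  exact (wc_lv φ (ψ.u r) x).symm

/-- A test over a ring which is valid after every reduction. -/
structure Vr' (f : ι → MvPolynomial (Fin N) R) (ψ : Fin m → Prj R N d) (τ : Tst V N m) :
    Prop where
  ne : ∃ j, IsUnit (τ.x j)
  zp : ∀ i, aeval τ.x (f i) = 0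
  D : IsUnit (aeval ((ψ τ.i).uv τ.x) (ψ τ.i).D)
  tg : τ.b = true → ∀ i, ∑ j, aeval τ.x (pderiv j (f i)) * τ.t j = 0
  D' : τ.b = true → IsUnit (aeval ((ψ τ.i').uv τ.x) (ψ τ.i').D)

/-- Proof: apply the homomorphism to all equations; units go to elements which are not `0`. -/
theorem Vr'.val (φ : V →ₐ[R] κ) {τ : Tst V N m} (h : Vr' f ψ τ) :
    Val (fun i => MvPolynomial.map (algebraMap R κ) (f i))
      (fun i => (ψ i).map (algebraMap R κ)) (τ.map φ) := by
  have hz : Zp (fun i => MvPolynomial.map (algebraMap R κ) (f i)) (τ.map φ).x := by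
    constructor
    · intro h0
      obtain ⟨j, hj⟩ := h.ne
      exact (hj.map φ).ne_zero (congrFun h0 j)
    · intro i
      have h1 : eval (fun j => φ (τ.x j)) (MvPolynomial.map (algebraMap R κ) (f i)) = 0 := by
        rw [wc_eval, h.zp i, map_zero]
      exact h1
  have hD : ∀ i, IsUnit (aeval ((ψ i).uv τ.x) (ψ i).D) →
      eval (((ψ i).map (algebraMap R κ)).uv (τ.map φ).x) ((ψ i).map (algebraMap R κ)).D ≠ 0 := by
    intro i hi
    have h1 : ((ψ i).map (algebraMap R κ)).uv (τ.map φ).x = fun r => φ ((ψ i).uv τ.x r) :=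
      wc_uv φ (ψ i) τ.x
    rw [h1]
    have h2 : eval (fun r => φ ((ψ i).uv τ.x r)) (MvPolynomial.map (algebraMap R κ) (ψ i).D) ≠
        0 := by
      rw [wc_eval]
      exact (hi.map φ).ne_zero
    exact h2
  refine ⟨hz, hD _ h.D, fun hb => ⟨hz, fun i => ?_⟩, fun hb => hD _ (h.D' hb)⟩
  have h1 := congrArg φ (h.tg hb i)
  rw [map_sum, map_zero] at h1
  rw [← h1]
  refine Finset.sum_congr rfl fun j _ => ?_
  rw [map_mul, ← wc_eval φ (pderiv j (f i)) τ.x, ← pderiv_map]
  rfl

/-- **Reduction.** Proof: `nf_det` for the tests `(τ k).map φ` (`Vr'.val`); the determinant is the image of the unit (`RingHom.map_det`, `row_hom`, `row_map`). -/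
theorem nf_red (φ : V →ₐ[R] κ) (hm : ∀ i, (ψ i).G.Monic) {s : Finset (Ix d m)}
    (hs : ∀ k, Idx (fun i => (ψ i).map (algebraMap R κ)) k → k ∈ s) (τ : s → Tst V N m)
    (hτ : ∀ k, Vr' f ψ (τ k))
    (hd : IsUnit (Matrix.of fun k k' : s => row ψ (τ k) (k' : Ix d m)).det) :
    Nf (fun i => MvPolynomial.map (algebraMap R κ) (f i))
      fun i => (ψ i).map (algebraMap R κ) := by
  refine nf_det hs (fun k => (τ k).map φ) (fun k => (hτ k).val φ) ?_
  have h1 : (Matrix.of fun k k' : s =>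
      row (fun i => (ψ i).map (algebraMap R κ)) ((τ k).map φ) (k' : Ix d m)) =
      φ.mapMatrix (Matrix.of fun k k' : s => row ψ (τ k) (k' : Ix d m)) := by
    ext k k'
    rw [Matrix.of_apply, AlgHom.mapMatrix_apply, Matrix.map_apply, Matrix.of_apply, row_map hm,
      row_hom]
  rw [h1, ← AlgHom.map_det]
  exact (hd.map φ).ne_zero

end red

section tower

variable {F E Ω O V : Type} [Field F] [Field E] [Field Ω] [CommRing O] [CommRing V]
  [Algebra F E] [Algebra F Ω] [Algebra O F] [Algebra O V] [Algebra O Ω] [IsScalarTower O F Ω]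
  {N d m : ℕ} {ι : Type}

omit [Algebra O F] [IsScalarTower O F Ω] in
/-- Units of the valuation ring. -/
private theorem wc_unit (j : V →ₐ[O] Ω) (hj : Function.Injective j) (σ : E →ₐ[F] Ω) {v w : V}
    {a : E} (ha : a ≠ 0) (hv : j v = σ a) (hw : j w = σ a⁻¹) : IsUnit v := by
  refine IsUnit.of_mul_eq_one w (hj ?_)
  rw [map_mul, hv, hw, ← map_mul, mul_inv_cancel₀ ha, map_one, map_one]

/-- The values in the tower. -/
private theorem wc_ev (j : V →ₐ[O] Ω) (σ : E →ₐ[F] Ω) {n : ℕ} {P : MvPolynomial (Fin n) O}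
    {P' : MvPolynomial (Fin n) F} (hP : MvPolynomial.map (algebraMap O F) P = P')
    {y : Fin n → V} {x : Fin n → E} (hy : ∀ i, j (y i) = σ (x i)) :
    j (aeval y P) = σ (eval x (MvPolynomial.map (algebraMap F E) P')) := by
  have h1 : j (aeval y P) = aeval (fun i => j (y i)) P := by
    rw [← AlgHom.comp_apply, MvPolynomial.comp_aeval]
  have h2 : σ (aeval x P') = aeval (fun i => σ (x i)) P' := by
    rw [← AlgHom.comp_apply, MvPolynomial.comp_aeval]
  rw [h1, eval_map, ← aeval_def, h2, ← hP, aeval_map_algebraMap]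
  congr 1
  exact congrArg _ (funext hy)

/-- The linear forms in the tower. -/
private theorem wc_uvt (j : V →ₐ[O] Ω) (σ : E →ₐ[F] Ω) {ψ₀ : Prj O N d} {ψ : Prj F N d}
    (hψ : ψ₀.map (algebraMap O F) = ψ) {y : Fin N → V} {x : Fin N → E}
    (hy : ∀ i, j (y i) = σ (x i)) (r : Fin (d + 1)) :
    j (ψ₀.uv y r) = σ ((ψ.map (algebraMap F E)).uv x r) := by
  have h1 : j (ψ₀.uv y r) = ψ₀.uv (fun i => j (y i)) r := wc_lv j (ψ₀.u r) y
  have h2 : σ (ψ.uv x r) = ψ.uv (fun i => σ (x i)) r := wc_lv σ (ψ.u r) x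
  rw [h1, uv_map, h2, ← hψ, uv_map]
  exact congrArg (fun z => ψ₀.uv z r) (funext hy)

variable {f : ι → MvPolynomial (Fin N) F} {ψ : Fin m → Prj F N d}
  {f₀ : ι → MvPolynomial (Fin N) O} {ψ₀ : Fin m → Prj O N d}

/-- The rows in the tower. -/
private theorem wc_row (j : V →ₐ[O] Ω) (σ : E →ₐ[F] Ω) (hm₀ : ∀ i, (ψ₀ i).G.Monic)
    (hm : ∀ i, (ψ i).G.Monic) (mp : ∀ i, (ψ₀ i).map (algebraMap O F) = ψ i)
    {τ : Tst E N m} {τ' : Tst V N m} (hτ : τ'.map j = τ.map σ) (k : Ix d m) :
    j (row ψ₀ τ' k) = σ (row (fun i => (ψ i).map (algebraMap F E)) τ k) := by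
  have h1 : (fun i => (ψ₀ i).map (algebraMap O F)) = ψ := funext mp
  rw [row_hom, row_map hm, row_hom, hτ, ← h1, row_map hm₀]

/-- The tests over the valuation ring are valid. -/
private theorem wc_vr (j : V →ₐ[O] Ω) (hj : Function.Injective j) (σ : E →ₐ[F] Ω)
    (mf : ∀ i, MvPolynomial.map (algebraMap O F) (f₀ i) = f i)
    (mp : ∀ i, (ψ₀ i).map (algebraMap O F) = ψ i) {τ : Tst E N m} {τ' : Tst V N m}
    (hi : τ'.i = τ.i) (hi' : τ'.i' = τ.i') (hb : τ'.b = τ.b)
    (hx : ∀ i, j (τ'.x i) = σ (τ.x i)) (ht : ∀ i, j (τ'.t i) = σ (τ.t i))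
    (hv : Val (fun i => MvPolynomial.map (algebraMap F E) (f i))
      (fun i => (ψ i).map (algebraMap F E)) τ)
    (z1 : ∀ i, ∃ w : V, j w = σ (τ.x i)⁻¹)
    (z2 : ∀ i, ∃ w : V, j w = σ (eval (((ψ i).map (algebraMap F E)).uv τ.x)
      ((ψ i).map (algebraMap F E)).D)⁻¹) : Vr' f₀ ψ₀ τ' := by
  have hD : ∀ i, eval (((ψ i).map (algebraMap F E)).uv τ.x) ((ψ i).map (algebraMap F E)).D ≠
      0 → IsUnit (aeval ((ψ₀ i).uv τ'.x) (ψ₀ i).D) := by
    intro i h0
    obtain ⟨w, hw⟩ := z2 i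
    refine wc_unit j hj σ h0 ?_ hw
    have h1 : MvPolynomial.map (algebraMap O F) (ψ₀ i).D = (ψ i).D := congrArg Prj.D (mp i)
    exact wc_ev j σ h1 fun r => wc_uvt j σ (mp i) hx r
  refine ⟨?_, fun i => ?_, ?_, fun hb' i => ?_, fun hb' => ?_⟩
  · obtain ⟨i, h0⟩ := Function.ne_iff.1 hv.zp.1
    obtain ⟨w, hw⟩ := z1 i
    exact ⟨i, wc_unit j hj σ h0 (hx i) hw⟩
  · apply hj
    rw [wc_ev j σ (mf i) hx, hv.zp.2 i, map_zero, map_zero]
  · rw [hi]
    exact hD _ hv.D
  · apply hj
    rw [map_sum, map_zero, ← map_zero σ, ← (hv.tg (hb ▸ hb')).2 i, map_sum]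
    refine Finset.sum_congr rfl fun l _ => ?_
    rw [map_mul, map_mul, ht, pderiv_map]
    congr 1
    refine wc_ev j σ ?_ hx
    rw [← pderiv_map, mf]
  · rw [hi']
    exact hD _ (hv.D' (hb ▸ hb'))

end tower

section place

variable {F : Type} [Field F] {N d m : ℕ} {ι : Type} {f : ι → MvPolynomial (Fin N) F}
  {ψ : Fin m → Prj F N d}

/-- **Places with integral tests.** Proof: `exists_idx` for `ψ` over `F`: `s` (the same set for the projections over the algebraic closure `E`: `D_i ≠ 0` and the degrees do not change); `exists_tst` over `E`: `τ`. `Z`: the coordinates of the `(τ k).x`, `(τ k).t`, for every `k` the inverse of a coordinate of `(τ k).x` which is not `0`, the inverses of `D_i (u_i (x))`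
and of `D_i' (u_i' (x))` (if it is not `0`), the inverse of the determinant. Let `V`, `σ` be given: the tests `τ' k` over `V` with the coordinates `σ (..)`; `V` is an algebra over the valuation ring `O` of `F` by `iO F V` (`RingHom.toAlgebra`), `Ω` too. `Vr'` for `f₀`, `ψ₀` (equations in `V ⊂ Ω`: injective; `mf`, `mp`; over `E` they hold by `Val`;
`σ` is a homomorphism over `F`); the determinant over `V` is mapped to `σ` of the determinant (`row_hom`, `row_map`, `RingHom.map_det`) whose inverse is in `V`: it is a unit. `nf_red` with `κ = ResidueField V`, `φ` the residue map. `Idx` for the reduced projections implies `Idx` for `ψ` (if `D_i = 0` then its reduction is `0`; the degrees of monic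
polynomials do not change). -/
theorem exists_nf (hN : Nf (fun i => MvPolynomial.map (algebraMap F (AlgebraicClosure F)) (f i))
      fun i => (ψ i).map (algebraMap F (AlgebraicClosure F))) (hm : ∀ i, (ψ i).G.Monic) :
    ∃ Z : Finset (AlgebraicClosure F), ∀ (Ω : Type) [Field Ω] [Algebra F Ω]
      (V : ValuationSubring Ω) (σ : AlgebraicClosure F →ₐ[F] Ω), (∀ z ∈ Z, σ z ∈ V) →
      ∀ (f₀ : ι → MvPolynomial (Fin N) (V.comap (algebraMap F Ω)))
        (ψ₀ : Fin m → Prj (V.comap (algebraMap F Ω)) N d), Dat V f ψ f₀ ψ₀ →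
        Nf (fun i => MvPolynomial.map (rdO F V) (f₀ i)) fun i => (ψ₀ i).map (rdO F V) := by
  classical
  obtain ⟨s, hs⟩ := exists_idx ψ
  have hsE : ∀ k, k ∈ s ↔ Idx (fun i => (ψ i).map (algebraMap F (AlgebraicClosure F))) k := by
    intro k
    rw [hs k]
    have h1 : ((ψ k.1).map (algebraMap F (AlgebraicClosure F))).G.natDegree =
        (ψ k.1).G.natDegree := (hm k.1).natDegree_map _
    have h2 : ((ψ k.1).map (algebraMap F (AlgebraicClosure F))).D = 0 ↔ (ψ k.1).D = 0 :=
      map_eq_zero_iff (MvPolynomial.map (algebraMap F (AlgebraicClosure F)))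
        (MvPolynomial.map_injective _ (algebraMap F (AlgebraicClosure F)).injective)
    exact and_congr (not_congr h2.symm) (and_congr_right fun _ =>
      and_congr_left fun _ => by rw [← h1])
  obtain ⟨τ, hτ, hdet⟩ := exists_tst hsE hN
  refine ⟨(Finset.univ.image fun p : s × Fin N => (τ p.1).x p.2) ∪
    (Finset.univ.image fun p : s × Fin N => (τ p.1).t p.2) ∪
    (Finset.univ.image fun p : s × Fin N => ((τ p.1).x p.2)⁻¹) ∪
    (Finset.univ.image fun p : s × Fin m =>
      (eval (((ψ p.2).map (algebraMap F (AlgebraicClosure F))).uv (τ p.1).x)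
        ((ψ p.2).map (algebraMap F (AlgebraicClosure F))).D)⁻¹) ∪
    {((Matrix.of fun k k' : s =>
      row (fun i => (ψ i).map (algebraMap F (AlgebraicClosure F))) (τ k) (k' : Ix d m)).det)⁻¹},
    ?_⟩
  intro Ω _ _ V σ hσ f₀ ψ₀ hDat
  have hx : ∀ k j, σ ((τ k).x j) ∈ V := fun k j => hσ _ (by
    simp only [Finset.mem_union, Finset.mem_image, Finset.mem_univ, true_and]
    exact Or.inl (Or.inl (Or.inl (Or.inl ⟨(k, j), rfl⟩))))
  have ht : ∀ k j, σ ((τ k).t j) ∈ V := fun k j => hσ _ (by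
    simp only [Finset.mem_union, Finset.mem_image, Finset.mem_univ, true_and]
    exact Or.inl (Or.inl (Or.inl (Or.inr ⟨(k, j), rfl⟩))))
  have z1 : ∀ k j, σ ((τ k).x j)⁻¹ ∈ V := fun k j => hσ _ (by
    simp only [Finset.mem_union, Finset.mem_image, Finset.mem_univ, true_and]
    exact Or.inl (Or.inl (Or.inr ⟨(k, j), rfl⟩)))
  have z2 : ∀ k i, σ (eval (((ψ i).map (algebraMap F (AlgebraicClosure F))).uv (τ k).x)
      ((ψ i).map (algebraMap F (AlgebraicClosure F))).D)⁻¹ ∈ V := fun k i => hσ _ (by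
    simp only [Finset.mem_union, Finset.mem_image, Finset.mem_univ, true_and]
    exact Or.inl (Or.inr ⟨(k, i), rfl⟩))
  have z3 : σ ((Matrix.of fun k k' : s => row (fun i => (ψ i).map
      (algebraMap F (AlgebraicClosure F))) (τ k) (k' : Ix d m)).det)⁻¹ ∈ V := hσ _ (by
    exact Finset.mem_union_right _ (Finset.mem_singleton_self _))
  let _ : Algebra (V.comap (algebraMap F Ω)) V := (iO F V).toAlgebra
  let _ : Algebra (V.comap (algebraMap F Ω)) Ω :=
    ((algebraMap F Ω).comp (V.comap (algebraMap F Ω)).subtype).toAlgebra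
  let _ : Algebra (V.comap (algebraMap F Ω)) (IsLocalRing.ResidueField V) := (rdO F V).toAlgebra
  have _ : IsScalarTower (V.comap (algebraMap F Ω)) F Ω := IsScalarTower.of_algebraMap_eq fun _ => rfl
  let j : V →ₐ[V.comap (algebraMap F Ω)] Ω := { V.subtype with commutes' := fun _ => rfl }
  let φ : V →ₐ[V.comap (algebraMap F Ω)] IsLocalRing.ResidueField V :=
    { IsLocalRing.residue V with commutes' := fun _ => rfl }
  have hj : Function.Injective j := Subtype.val_injective
  let τ' : s → Tst V N m := fun k =>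
    { b := (τ k).b
      i := (τ k).i
      i' := (τ k).i'
      x := fun l => ⟨σ ((τ k).x l), hx k l⟩
      t := fun l => ⟨σ ((τ k).t l), ht k l⟩ }
  have hm₀ : ∀ i, (ψ₀ i).G.Monic := fun i => (hDat.ok i).mon
  refine nf_red φ hm₀ (s := s) ?_ τ' ?_ ?_
  · intro k hk
    refine (hs k).2 ⟨?_, hk.2.1, ?_, hk.2.2.2⟩
    · intro h0
      refine hk.1 ?_
      have h1 : MvPolynomial.map (V.comap (algebraMap F Ω)).subtype (ψ₀ k.1).D = 0 :=
        (congrArg Prj.D (hDat.mp k.1)).trans h0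
      have h2 : (ψ₀ k.1).D = 0 := by
        refine MvPolynomial.map_injective (V.comap (algebraMap F Ω)).subtype
          Subtype.val_injective ?_
        rw [h1, map_zero]
      have h3 : MvPolynomial.map (rdO F V) (ψ₀ k.1).D = 0 := by rw [h2, map_zero]
      exact h3
    · have h1 : ((ψ₀ k.1).map (rdO F V)).G.natDegree = (ψ₀ k.1).G.natDegree :=
        (hm₀ k.1).natDegree_map _
      have h2 : ((ψ₀ k.1).map (V.comap (algebraMap F Ω)).subtype).G.natDegree =
          (ψ₀ k.1).G.natDegree := (hm₀ k.1).natDegree_map _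
      rw [hDat.mp] at h2
      rw [h2, ← h1]
      exact hk.2.2.1
  · intro k
    exact wc_vr j hj σ hDat.mf hDat.mp rfl rfl rfl (fun _ => rfl) (fun _ => rfl) (hτ k)
      (fun l => ⟨⟨_, z1 k l⟩, rfl⟩) fun i => ⟨⟨_, z2 k i⟩, rfl⟩
  · refine wc_unit j hj σ hdet ?_ (w := ⟨_, z3⟩) rfl
    rw [AlgHom.map_det, AlgHom.map_det]
    congr 1
    ext k k'
    exact wc_row j σ hm₀ hm hDat.mp rfl (k' : Ix d m)

end place

end GX
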