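import Pool.Agent.Lib.MP_f80667_ag.Gx.Dt

/-! The data are defined over the valuation rings of almost all places. -/

open MvPolynomial

namespace GX

/-- Polynomials with coefficients in a subring. Proof: `MvPolynomial.mem_range_map_iff_coeffs_subset` or the sum of the monomials. -/
theorem mv_lift {F : Type} [Field F] {σ : Type} (O : ValuationSubring F)
    (P : MvPolynomial σ F) (h : ∀ e, P.coeff e ∈ O) :
    ∃ P₀ : MvPolynomial σ O, MvPolynomial.map O.subtype P₀ = P := by
  refine ⟨∑ e ∈ P.support, monomial e ⟨P.coeff e, h e⟩, ?_⟩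
  rw [map_sum]
  have h1 : ∀ e ∈ P.support, MvPolynomial.map O.subtype (monomial e ⟨P.coeff e, h e⟩) =
      monomial e (P.coeff e) := fun e _ => MvPolynomial.map_monomial _ _ _
  rw [Finset.sum_congr rfl h1]
  exact P.support_sum_monomial_coeff

/-- Proof: `mv_lift` for the coefficients. -/
theorem pmv_lift {F : Type} [Field F] {σ : Type} (O : ValuationSubring F)
    (P : Polynomial (MvPolynomial σ F)) (h : ∀ j e, (P.coeff j).coeff e ∈ O) :
    ∃ P₀ : Polynomial (MvPolynomial σ O), P₀.map (MvPolynomial.map O.subtype) = P := by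
  choose q hq using fun j => mv_lift O (P.coeff j) (h j)
  refine ⟨∑ j ∈ P.support, Polynomial.C (q j) * Polynomial.X ^ j, ?_⟩
  rw [Polynomial.map_sum]
  have h1 : ∀ j ∈ P.support, (Polynomial.C (q j) * Polynomial.X ^ j).map
      (MvPolynomial.map O.subtype) = Polynomial.C (P.coeff j) * Polynomial.X ^ j := by
    intro j _
    rw [Polynomial.map_mul, Polynomial.map_C, Polynomial.map_pow, Polynomial.map_X, hq]
  rw [Finset.sum_congr rfl h1]
  exact P.as_sum_support_C_mul_X_pow.symm

/-- A property holds for all valuation rings which contain a suitable finite set. -/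
private def Wev {F : Type} [Field F] (p : ValuationSubring F → Prop) : Prop :=
  ∃ Z : Finset F, ∀ O : ValuationSubring F, (∀ z ∈ Z, z ∈ O) → p O

section ev

variable {F : Type} [Field F]

private theorem Wev.mono {p q : ValuationSubring F → Prop} (h : Wev p) (hq : ∀ O, p O → q O) :
    Wev q := by
  obtain ⟨Z, hZ⟩ := h
  exact ⟨Z, fun O hO => hq O (hZ O hO)⟩

private theorem Wev.of {p : ValuationSubring F → Prop} (h : ∀ O, p O) : Wev p :=
  ⟨∅, fun O _ => h O⟩

private theorem Wev.and {p q : ValuationSubring F → Prop} (hp : Wev p) (hq : Wev q) :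
    Wev fun O => p O ∧ q O := by
  classical
  obtain ⟨Z, hZ⟩ := hp
  obtain ⟨Z', hZ'⟩ := hq
  exact ⟨Z ∪ Z', fun O hO => ⟨hZ O fun z hz => hO z (Finset.mem_union_left _ hz),
    hZ' O fun z hz => hO z (Finset.mem_union_right _ hz)⟩⟩

private theorem Wev.fs {α : Type} {p : α → ValuationSubring F → Prop} (s : Finset α)
    (hp : ∀ a, Wev (p a)) : Wev fun O => ∀ a ∈ s, p a O := by
  classical
  choose Z hZ using hp
  exact ⟨s.biUnion Z, fun O hO a ha =>
    hZ a O fun z hz => hO z (Finset.mem_biUnion.mpr ⟨a, ha, hz⟩)⟩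

private theorem Wev.all {α : Type} [Finite α] {p : α → ValuationSubring F → Prop}
    (hp : ∀ a, Wev (p a)) : Wev fun O => ∀ a, p a O := by
  classical
  have := Fintype.ofFinite α
  exact (Wev.fs Finset.univ hp).mono fun O h a => h a (Finset.mem_univ a)

private theorem wev_mem (z : F) : Wev fun O => z ∈ O :=
  ⟨{z}, fun _ hO => hO z (Finset.mem_singleton_self z)⟩

private theorem wev_mc {σ : Type} (P : MvPolynomial σ F) : Wev fun O => ∀ e, P.coeff e ∈ O := by
  classical
  refine (Wev.fs P.support fun e => wev_mem (P.coeff e)).mono fun O h e => ?_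
  by_cases he : e ∈ P.support
  · exact h e he
  · rw [MvPolynomial.notMem_support_iff.mp he]
    exact O.zero_mem

private theorem wev_mv {σ : Type} (P : MvPolynomial σ F) :
    Wev fun O => ∃ P₀ : MvPolynomial σ O, MvPolynomial.map O.subtype P₀ = P :=
  (wev_mc P).mono fun O h => mv_lift O P h

private theorem wev_pmv {σ : Type} (P : Polynomial (MvPolynomial σ F)) :
    Wev fun O => ∃ P₀ : Polynomial (MvPolynomial σ O),
      P₀.map (MvPolynomial.map O.subtype) = P := by
  classical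
  refine (Wev.fs P.support fun j => wev_mc (P.coeff j)).mono fun O h => pmv_lift O P fun j e => ?_
  by_cases hj : j ∈ P.support
  · exact h j hj e
  · rw [Polynomial.notMem_support_iff.mp hj, MvPolynomial.coeff_zero]
    exact O.zero_mem

private theorem mvi {σ : Type} (O : ValuationSubring F) :
    Function.Injective (MvPolynomial.map O.subtype : MvPolynomial σ O → MvPolynomial σ F) :=
  MvPolynomial.map_injective _ Subtype.val_injective

private theorem pmvi {σ : Type} (O : ValuationSubring F) :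
    Function.Injective (Polynomial.map (MvPolynomial.map O.subtype) :
      Polynomial (MvPolynomial σ O) → Polynomial (MvPolynomial σ F)) :=
  Polynomial.map_injective _ (mvi O)

private theorem wd_hom {σ : Type} (O : ValuationSubring F) {P : MvPolynomial σ O} {e : ℕ}
    (h : (MvPolynomial.map O.subtype P).IsHomogeneous e) : P.IsHomogeneous e := by
  intro a ha
  refine h ?_
  rw [MvPolynomial.coeff_map]
  intro h0
  exact ha (Subtype.val_injective h0)

/-- The ideal of `f` over the valuation ring. -/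
private theorem wev_span {N : ℕ} {ι : Type} [Finite ι] {f : ι → MvPolynomial (Fin N) F}
    {P : MvPolynomial (Fin N) F} (hP : P ∈ Ideal.span (Set.range f)) :
    Wev fun O => ∀ f₀ : ι → MvPolynomial (Fin N) O,
      (∀ i, MvPolynomial.map O.subtype (f₀ i) = f i) →
        ∀ P₀ : MvPolynomial (Fin N) O, MvPolynomial.map O.subtype P₀ = P →
          P₀ ∈ Ideal.span (Set.range f₀) := by
  classical
  have := Fintype.ofFinite ι
  obtain ⟨c, hc⟩ := Ideal.mem_span_range_iff_exists_fun.mp hP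
  refine (Wev.all fun i => wev_mv (c i)).mono fun O h f₀ hf₀ P₀ hP₀ => ?_
  choose c₀ hc₀ using h
  refine Ideal.mem_span_range_iff_exists_fun.mpr ⟨c₀, mvi O ?_⟩
  rw [map_sum, hP₀, ← hc]
  refine Finset.sum_congr rfl fun i _ => ?_
  rw [map_mul, hc₀, hf₀]

/-- Divisibility over the valuation ring. -/
private theorem wev_dvd {σ : Type} {G P : Polynomial (MvPolynomial σ F)} (h : G ∣ P) :
    Wev fun O => ∀ G₀ P₀ : Polynomial (MvPolynomial σ O),
      G₀.map (MvPolynomial.map O.subtype) = G → P₀.map (MvPolynomial.map O.subtype) = P →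
        G₀ ∣ P₀ := by
  obtain ⟨Q, hQ⟩ := h
  refine (wev_pmv Q).mono fun O h G₀ P₀ hG hP => ?_
  obtain ⟨Q₀, hQ₀⟩ := h
  refine ⟨Q₀, pmvi O ?_⟩
  rw [Polynomial.map_mul, hG, hP, hQ₀, hQ]

end ev

/-- The composition after the change of the ring. -/
private theorem wd_aeval {R R' : Type} [CommRing R] [CommRing R'] {N d : ℕ} (φ : R →+* R')
    (A : Fin N → Polynomial (MvPolynomial (Fin (d + 1)) R)) (F : MvPolynomial (Fin N) R) :
    (aeval A F).map (MvPolynomial.map φ) =
      aeval (fun j => (A j).map (MvPolynomial.map φ)) (MvPolynomial.map φ F) := by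
  have h : (Polynomial.mapRingHom (MvPolynomial.map φ)).comp
        (aeval A : MvPolynomial (Fin N) R →ₐ[R]
          Polynomial (MvPolynomial (Fin (d + 1)) R)).toRingHom =
      (aeval (fun j => (A j).map (MvPolynomial.map φ)) : MvPolynomial (Fin N) R' →ₐ[R']
          Polynomial (MvPolynomial (Fin (d + 1)) R')).toRingHom.comp (MvPolynomial.map φ) := by
    apply MvPolynomial.ringHom_ext
    · intro a
      change (aeval A (C a)).map (MvPolynomial.map φ) = aeval _ (MvPolynomial.map φ (C a))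
      rw [MvPolynomial.map_C, MvPolynomial.aeval_C, MvPolynomial.aeval_C,
        Polynomial.algebraMap_apply, Polynomial.algebraMap_apply, Polynomial.map_C,
        MvPolynomial.algebraMap_eq, MvPolynomial.algebraMap_eq, MvPolynomial.map_C]
    · intro j
      change (aeval A (X j)).map (MvPolynomial.map φ) = aeval _ (MvPolynomial.map φ (X j))
      rw [MvPolynomial.map_X, MvPolynomial.aeval_X, MvPolynomial.aeval_X]
  exact DFunLike.congr_fun h F

variable {F : Type} [Field F] {N d m : ℕ} {ι : Type} {f : ι → MvPolynomial (Fin N) F}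

/-- The lift of the projection. -/
private theorem wev_prj (ψ : Prj F N d) :
    Wev fun O => ∃ ψ₀ : Prj O N d, ψ₀.map O.subtype = ψ := by
  refine ((((Wev.all fun r => Wev.all fun j => wev_mem (ψ.u r j)).and
    (Wev.all fun j => wev_mem (ψ.y j))).and (wev_pmv ψ.G)).and
      ((wev_mv ψ.D).and (Wev.all fun j => wev_pmv (ψ.A j)))).mono fun O h => ?_
  obtain ⟨⟨⟨hu, hy⟩, G₀, hG⟩, ⟨D₀, hD⟩, hA⟩ := h
  choose A₀ hA₀ using hA
  refine ⟨⟨fun r j => ⟨ψ.u r j, hu r j⟩, fun j => ⟨ψ.y j, hy j⟩, G₀, D₀, A₀⟩, ?_⟩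
  obtain ⟨u, y, G, D, A⟩ := ψ
  have h1 : (fun j => (A₀ j).map (MvPolynomial.map O.subtype)) = A := funext hA₀
  unfold Prj.map
  congr 1

/-- For one projection. Proof: the set `Z` of the coefficients of the `f i`, of `ψ`, of the polynomials `B`, `B'` in `bez`, of the polynomials `a_i` with `X k ^ s * cp G = ∑ a_i f_i` (`Ideal.mem_span_range_iff_exists_fun`, `ι` is finite), the same for `onA`, and of the quotients in `inX`, `inu`, `iny`. Over `O`: lifts
of all these polynomials (`mv_lift`, `pmv_lift`); the identities hold over `O` because `MvPolynomial.map O.subtype` and `Polynomial.map` of it are injective (`cp_map`, `map_aeval`). `G` over `O` is monic and has the same degree (`Polynomial.monic_of_injective`), `IsHomogeneous`: by injectivity. -/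
theorem exists_ok [Finite ι] {ψ : Prj F N d} (h : ψ.Ok f) :
    ∃ Z : Finset F, ∀ O : ValuationSubring F, (∀ z ∈ Z, z ∈ O) →
      ∀ f₀ : ι → MvPolynomial (Fin N) O, (∀ i, MvPolynomial.map O.subtype (f₀ i) = f i) →
        ∃ ψ₀ : Prj O N d, ψ₀.map O.subtype = ψ ∧ ψ₀.Ok f₀ := by
  obtain ⟨B, B', hB⟩ := h.bez
  obtain ⟨s, hs⟩ := h.onG
  obtain ⟨s', hs'⟩ := h.onA
  obtain ⟨t, ht⟩ := h.inX
  have e1 := (wev_pmv B).and (wev_pmv B')
  have e2 := Wev.all fun k => wev_span (hs k)
  have e3 := Wev.all fun k => Wev.all fun j => wev_span (hs' k j)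
  have e4 := Wev.all fun i => wev_dvd (ht i)
  have e5 := Wev.all fun r => wev_dvd (h.inu r)
  have e6 := wev_dvd h.iny
  refine ((wev_prj ψ).and (e1.and (e2.and (e3.and (e4.and (e5.and e6)))))).mono ?_
  rintro O ⟨⟨ψ₀, hψ⟩, ⟨⟨B₀, hB₀⟩, B₀', hB₀'⟩, g2, g3, g4, g5, g6⟩ f₀ hf₀
  have hG : ψ₀.G.map (MvPolynomial.map O.subtype) = ψ.G := congrArg Prj.G hψ
  have hD : MvPolynomial.map O.subtype ψ₀.D = ψ.D := congrArg Prj.D hψ
  have hA : ∀ j, (ψ₀.A j).map (MvPolynomial.map O.subtype) = ψ.A j := fun j =>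
    congrFun (congrArg Prj.A hψ) j
  have hu : ∀ r j, O.subtype (ψ₀.u r j) = ψ.u r j := fun r j =>
    congrFun (congrFun (congrArg Prj.u hψ) r) j
  have hy : ∀ j, O.subtype (ψ₀.y j) = ψ.y j := fun j => congrFun (congrArg Prj.y hψ) j
  have hcp : ∀ P : Polynomial (MvPolynomial (Fin (d + 1)) O),
      MvPolynomial.map O.subtype (ψ₀.cp P) = ψ.cp (P.map (MvPolynomial.map O.subtype)) := by
    intro P
    rw [← cp_map, hψ]
  refine ⟨ψ₀, hψ, ?_⟩
  refine
    { mon := ?_
      homG := ?_
      homD := ?_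
      bez := ⟨B₀, B₀', pmvi O ?_⟩
      onG := ⟨s, fun k => g2 k f₀ hf₀ _ ?_⟩
      onA := ⟨s', fun k j => g3 k j f₀ hf₀ _ ?_⟩
      inX := ⟨t, fun i => g4 i _ _ hG ?_⟩
      inu := fun r => g5 r _ _ hG ?_
      iny := g6 _ _ hG ?_ }
  · exact Polynomial.monic_of_injective (mvi O) (by rw [hG]; exact h.mon)
  · intro j
    have h1 : ψ₀.G.natDegree = ψ.G.natDegree := by
      rw [← hG, Polynomial.natDegree_map_eq_of_injective (mvi O)]
    refine wd_hom O ?_
    rw [← Polynomial.coeff_map, hG, h1]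
    exact h.homG j
  · obtain ⟨e, he, h1⟩ := h.homD
    exact ⟨e, he, wd_hom O (by rw [hD]; exact h1)⟩
  · rw [Polynomial.map_add, Polynomial.map_mul, Polynomial.map_mul, Polynomial.map_C,
      ← Polynomial.derivative_map, hG, hD, hB₀, hB₀', hB]
  · rw [map_mul, map_pow, MvPolynomial.map_X, hcp, hG]
  · rw [map_mul, map_pow, MvPolynomial.map_X, map_sub, map_mul, MvPolynomial.map_X, hcp, hcp, hA,
      Polynomial.map_C, hD]
  · rw [Polynomial.map_mul, Polynomial.map_C, map_pow, hD, wd_aeval, hf₀, funext hA]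
  · rw [Polynomial.map_sub, Polynomial.map_sum, Polynomial.map_C, map_mul, MvPolynomial.map_X, hD]
    congr 1
    refine Finset.sum_congr rfl fun j _ => ?_
    rw [Polynomial.map_mul, Polynomial.map_C, MvPolynomial.map_C, hA, hu]
  · rw [Polynomial.map_sub, Polynomial.map_sum, Polynomial.map_mul, Polynomial.map_C,
      Polynomial.map_X, hD]
    congr 1
    refine Finset.sum_congr rfl fun j _ => ?_
    rw [Polynomial.map_mul, Polynomial.map_C, MvPolynomial.map_C, hA, hy]

/-- Proof: `exists_ok` for every projection, the coefficients of `f` and of the polynomials in the identities of `Cov` (`Ideal.mem_sup`, `Ideal.mem_span_range_iff_exists_fun`). -/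
theorem exists_dat [Finite ι] {ψ : Fin m → Prj F N d} (hf : ∀ i, ∃ e, (f i).IsHomogeneous e)
    (h : ∀ i, (ψ i).Ok f) (hc : Cov f ψ) :
    ∃ Z : Finset F, ∀ (Ω : Type) [Field Ω] [Algebra F Ω] (V : ValuationSubring Ω),
      (∀ z ∈ Z, algebraMap F Ω z ∈ V) → ∃ f₀ ψ₀, Dat V f ψ f₀ ψ₀ := by
  obtain ⟨s, hs⟩ := hc
  have e1 : Wev fun O : ValuationSubring F => ∀ i, ∃ P₀ : MvPolynomial (Fin N) O,
      MvPolynomial.map O.subtype P₀ = f i := Wev.all fun i => wev_mv (f i)
  have e2 : Wev fun O : ValuationSubring F => ∀ i' : Fin m, ∀ f₀ : ι → MvPolynomial (Fin N) O,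
      (∀ i, MvPolynomial.map O.subtype (f₀ i) = f i) →
        ∃ ψ₀ : Prj O N d, ψ₀.map O.subtype = ψ i' ∧ ψ₀.Ok f₀ := Wev.all fun i' => exists_ok (h i')
  have e3 : Wev fun O : ValuationSubring F => ∀ k : Fin N, ∀ (f₀ : ι → MvPolynomial (Fin N) O)
      (ψ₀ : Fin m → Prj O N d), (∀ i, MvPolynomial.map O.subtype (f₀ i) = f i) →
        (∀ i, (ψ₀ i).map O.subtype = ψ i) →
          X k ^ s ∈ Ideal.span (Set.range f₀) ⊔
            Ideal.span (Set.range fun i => (ψ₀ i).cp (Polynomial.C (ψ₀ i).D)) := by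
    refine Wev.all fun k => ?_
    obtain ⟨a, ha, b, hb, hab⟩ := Submodule.mem_sup.mp (hs k)
    refine (((wev_mv a).and (wev_mv b)).and ((wev_span ha).and (wev_span hb))).mono ?_
    rintro O ⟨⟨⟨a₀, ha₀⟩, b₀, hb₀⟩, h1, h2⟩ f₀ ψ₀ hf₀ hψ₀
    have h3 : X k ^ s = a₀ + b₀ := by
      apply mvi O
      rw [map_add, ha₀, hb₀, map_pow, MvPolynomial.map_X, hab]
    rw [h3]
    refine Submodule.add_mem_sup (h1 f₀ hf₀ a₀ ha₀) (h2 _ (fun i => ?_) b₀ hb₀)
    have hD : MvPolynomial.map O.subtype (ψ₀ i).D = (ψ i).D := congrArg Prj.D (hψ₀ i)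
    rw [← cp_map, hψ₀, Polynomial.map_C, hD]
  obtain ⟨Z, hZ⟩ := e1.and (e2.and e3)
  refine ⟨Z, fun Ω _ _ V hV => ?_⟩
  obtain ⟨g1, g2, g3⟩ := hZ (V.comap (algebraMap F Ω)) fun z hz =>
    ValuationSubring.mem_comap.mpr (hV z hz)
  choose f₀ hf₀ using g1
  choose ψ₀ hψ₀ hok using fun i' => g2 i' f₀ hf₀
  refine ⟨f₀, ψ₀, hf₀, hψ₀, fun i => ?_, hok, s, fun k => g3 k f₀ ψ₀ hf₀ hψ₀⟩
  obtain ⟨e, he⟩ := hf i
  exact ⟨e, wd_hom _ (by rw [hf₀]; exact he)⟩

end GX
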