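import Pool.Agent.Lib.MP_f80667_ag.Gm.GwE
import Pool.Agent.Lib.MP_f80667_ag.Gx.Wc
import Pool.Agent.Lib.MP_f80667_ag.Gx.Wd
import Pool.Agent.Lib.MP_f80667_ag.Gx.Eh

/-! Almost all places. -/

open ZC BE PE CV IntermediateField IsDedekindDomain NumberField

namespace GX

variable {F : Type} [Field F] [NumberField F] {N d m : ℕ} {ι : Type} [Finite ι]
  {f : ι → MvPolynomial (Fin N) F} {ψ : Fin m → Prj F N d}

omit [Finite ι] in
/-- Algebraic numbers are integral at almost all places. Proof: the minimal polynomial over `F` is monic and its coefficients are integral at almost all `v` (`gln_le`, `GM.mem_v`); `σ z` is a root; `V` is integrally closed. -/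
theorem fin_alg (z : AlgebraicClosure F) :
    {v : HeightOneSpectrum (𝓞 F) | ¬ ∀ V : ValuationSubring (AlgebraicClosure (FK F v)),
      V.comap (algebraMap (FK F v) _) = CV.Iv v →
        ∀ σ : AlgebraicClosure F →ₐ[F] AlgebraicClosure (FK F v), σ z ∈ V}.Finite := by
  have hz : IsIntegral F z := Algebra.IsIntegral.isIntegral z
  refine ((minpoly F z).support.finite_toSet.biUnion (t := fun j =>
    {v : HeightOneSpectrum (𝓞 F) | ¬ v.valuation F ((minpoly F z).coeff j) ≤ 1})
    fun j _ => gln_le _).subset fun v hv => ?_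
  by_contra hcon
  refine hv fun V hV σ => ?_
  have h1 : ∀ j, v.valuation F ((minpoly F z).coeff j) ≤ 1 := by
    intro j
    by_contra hj
    refine hcon (Set.mem_biUnion (x := j) ?_ hj)
    refine Finset.mem_coe.2 (Polynomial.mem_support_iff.2 fun h0 => hj ?_)
    rw [h0, map_zero]
    exact zero_le
  have h2 : (↑((minpoly F z).map (algebraMap F (AlgebraicClosure (FK F v)))).coeffs :
      Set (AlgebraicClosure (FK F v))) ⊆ V.toSubring := by
    intro c hc
    obtain ⟨j, -, rfl⟩ := Polynomial.mem_coeffs_iff.1 (Finset.mem_coe.1 hc)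
    rw [Polynomial.coeff_map]
    exact GM.mem_v hV (h1 j)
  have h3 : IsIntegral V (σ z) := by
    refine ⟨Polynomial.toSubring _ V.toSubring h2,
      (Polynomial.monic_toSubring _ _ h2).2 ((minpoly.monic hz).map _), ?_⟩
    have h4 := Polynomial.map_toSubring
      ((minpoly F z).map (algebraMap F (AlgebraicClosure (FK F v)))) V.toSubring h2
    rw [← Polynomial.eval_map]
    have h5 : (Polynomial.toSubring _ V.toSubring h2).map
        (algebraMap V (AlgebraicClosure (FK F v))) =
          (minpoly F z).map (algebraMap F (AlgebraicClosure (FK F v))) := h4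
    rw [h5, Polynomial.eval_map_algebraMap, Polynomial.aeval_algHom_apply, minpoly.aeval,
      map_zero]
  obtain ⟨y, hy⟩ := IsIntegrallyClosed.isIntegral_iff.1 h3
  rw [← hy]
  exact y.2

/-- There are no compatible systems over the algebraic closure. Proof: `nf_of` over `AlgebraicClosure F` (`Ok.map`, `Cov.map`, `IsAlgClosed.splits`: the number of the roots). -/
theorem nf_bar (hf : ∀ i, ∃ e, (f i).IsHomogeneous e) (h : ∀ i, (ψ i).Ok f) (hc : Cov f ψ)
    (hN : NoFrm fun i => MvPolynomial.map (algebraMap F (AlgebraicClosure F)) (f i)) :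
    Nf (fun i => MvPolynomial.map (algebraMap F (AlgebraicClosure F)) (f i))
      fun i => (ψ i).map (algebraMap F (AlgebraicClosure F)) := by
  have : Infinite (AlgebraicClosure F) := Infinite.of_injective _
    (algebraMap F (AlgebraicClosure F)).injective
  refine nf_of (fun i => ?_) (fun i => (h i).map _) (hc.map _) (fun i g _ _ => ?_) hN
  · obtain ⟨e, he⟩ := hf i
    exact ⟨e, he.map _⟩
  · exact Polynomial.splits_iff_card_roots.1 (IsAlgClosed.splits g)

/-- **Almost all places are good.** Proof: as `GM.almost` in `Gm/GwE.lean`: `exists_dat`, `exists_nf` (`nf_bar`) with finite sets of numbers: integral at almost all `v` (`gln_le`, `GM.mem_v`; `fin_alg`); `gln_unr`, `gln_one` for the product of `2` and of the factorials of the degrees: `p` is larger than `2` and than the degrees, `GM.urp_of`.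
An embedding `σ` exists (`IsAlgClosed.lift`). -/
theorem almost (hf : ∀ i, ∃ e, (f i).IsHomogeneous e) (h : ∀ i, (ψ i).Ok f) (hc : Cov f ψ)
    (hN : NoFrm fun i => MvPolynomial.map (algebraMap F (AlgebraicClosure F)) (f i)) :
    {v : HeightOneSpectrum (𝓞 F) | ¬ ∀ V : ValuationSubring (AlgebraicClosure (FK F v)),
      V.comap (algebraMap (FK F v) _) = CV.Iv v →
        (∃ f₀ ψ₀, Dat V f ψ f₀ ψ₀ ∧
          Nf (fun i => MvPolynomial.map (rdO F V) (f₀ i)) fun i => (ψ₀ i).map (rdO F V)) ∧
          ∃ p : ℕ, 2 < p ∧ (∀ i, (ψ i).G.natDegree < p) ∧ GM.Urp V (FK F v) p}.Finite := by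
  obtain ⟨Z₁, hZ₁⟩ := exists_dat hf h hc
  obtain ⟨Z₂, hZ₂⟩ := exists_nf (nf_bar hf h hc hN) fun i => (h i).mon
  have hA : (⋃ z ∈ Z₁, {v : HeightOneSpectrum (𝓞 F) | ¬ v.valuation F z ≤ 1}).Finite :=
    Z₁.finite_toSet.biUnion fun z _ => gln_le z
  have hB := Z₂.finite_toSet.biUnion fun z _ => fin_alg z
  obtain ⟨n, hn⟩ : ∃ n : ℕ, n = 2 + ∑ i, (ψ i).G.natDegree := ⟨_, rfl⟩
  have hn0 : ((n.factorial : ℕ) : F) ≠ 0 := Nat.cast_ne_zero.2 n.factorial_ne_zero
  refine (((hA.union hB).union (gln_unr (F := F))).union (gln_one hn0)).subset fun v hv => ?_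
  by_contra hcon
  simp only [Set.mem_union, not_or] at hcon
  obtain ⟨⟨⟨h3, h4⟩, h5⟩, h6⟩ := hcon
  have h5 : ∃ p : ℕ, p.Prime ∧ v.valuation F (p : F) = WithZero.exp (-1 : ℤ) := not_not.1 h5
  have h6 : v.valuation F ((n.factorial : ℕ) : F) = 1 := not_not.1 h6
  obtain ⟨p, hp, hvp⟩ := h5
  have hnp : n < p := by
    by_contra hle
    obtain ⟨a, ha⟩ := (hp.dvd_factorial (n := n)).2 (not_lt.1 hle)
    have h7 : v.valuation F ((a : ℕ) : F) ≤ 1 := by
      have e : algebraMap (𝓞 F) F ((a : ℕ) : 𝓞 F) = ((a : ℕ) : F) := map_natCast _ _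
      rw [← e]
      exact v.valuation_le_one _
    rw [ha, Nat.cast_mul, map_mul, hvp] at h6
    have h9 : (WithZero.exp (-1 : ℤ) : WithZero (Multiplicative ℤ)) < 1 := by
      rw [← WithZero.exp_zero, WithZero.exp_lt_exp]
      omega
    exact absurd h6 (mul_lt_one_of_lt_of_le h9 h7).ne
  refine hv fun V hV => ⟨?_, p, by omega, fun i => ?_, GM.urp_of hV hp hvp⟩
  · have hz₁ : ∀ z ∈ Z₁, algebraMap F (AlgebraicClosure (FK F v)) z ∈ V := by
      intro z hz
      refine GM.mem_v hV ?_
      by_contra hz'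
      exact h3 (Set.mem_biUnion (x := z) hz hz')
    obtain ⟨f₀, ψ₀, hD⟩ := hZ₁ _ V hz₁
    have σ : AlgebraicClosure F →ₐ[F] AlgebraicClosure (FK F v) := IsAlgClosed.lift
    refine ⟨f₀, ψ₀, hD, hZ₂ _ V σ (fun z hz => ?_) f₀ ψ₀ hD⟩
    by_contra hz'
    exact h4 (Set.mem_biUnion (x := z) hz fun hall => hz' (hall V hV σ))
  · refine lt_of_le_of_lt ?_ hnp
    rw [hn]
    have := Finset.single_le_sum (f := fun i => (ψ i).G.natDegree) (fun _ _ => Nat.zero_le _)
      (Finset.mem_univ i)
    omega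

end GX
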