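import Pool.Agent.Lib.MP_f80667_ag.Gx.TeC
import Pool.Agent.Lib.MP_f80667_ag.Gx.VD
import Pool.Agent.Lib.MP_f80667_ag.Gx.VE
import Pool.Agent.Lib.MP_f80667_ag.Gx.Al2

/-! The theorems for projective varieties without `1`-forms. -/

open ZC BE PE CV IntermediateField IsDedekindDomain NumberField

namespace GX

section loc

variable {F : Type} [Field F] {N d m : ℕ} {ι : Type} {f : ι → MvPolynomial (Fin N) F}
  {K Ω : Type} [Field K] [CharZero K] [Field Ω] [Algebra K Ω] [Algebra F K] [Algebra F Ω]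
  [IsScalarTower F K Ω] [IsAlgClosure K Ω] {L : Ld K Ω} {ψ : Fin m → Prj F N d}
  {f₀ : ι → MvPolynomial (Fin N) (L.V.comap (algebraMap F Ω))}
  {ψ₀ : Fin m → Prj (L.V.comap (algebraMap F Ω)) N d}

/-- The hypotheses of the local theorem. Proof: `Dat.pj`, `Dat.cvr`, `Dat.rdx`, `alg_of` for the fields `kI`. -/
theorem gdx_of (h : Dat L.V f ψ f₀ ψ₀) (hn : ∀ i, (ψ i).G.natDegree < L.p) (h2 : 2 < L.p)
    (hN : Nf (fun i => MvPolynomial.map (rdO F L.V) (f₀ i)) fun i => (ψ₀ i).map (rdO F L.V)) :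
    Gdx f L fun i => (ψ i).map (algebraMap F K) where
  hm i := by
    obtain ⟨e, he⟩ := h.hom i
    refine ⟨e, ?_⟩
    rw [← h.mf i]
    exact he.map _
  pj := h.pj
  cv := h.cvr
  hp i := by
    have h1 : ((ψ i).map (algebraMap F K)).G.natDegree ≤ (ψ i).G.natDegree :=
      Polynomial.natDegree_map_le
    exact h1.trans_lt (hn i)
  h2 := h2
  red R hR hk := by
    obtain ⟨f', ψ', hx⟩ := h.rdx (k := GM.kI L R) (by
      intro x hx1 r hr
      rw [IsScalarTower.algebraMap_apply F K Ω] at hx1 hr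
      exact hk _ hx1 r hr)
    refine ⟨f', ψ', hx.hom, hx, ?_⟩
    have h0 : 0 ∉ GM.Jc L.p L.pp := fun h => h (dvd_zero _)
    have hinf : Infinite (GM.kI L R) := by
      refine GM.kJ_inf hR fun b => ⟨L.p * b + 1, ?_, ?_⟩
      · intro hd
        have h4 := (Nat.dvd_add_right (dvd_mul_right L.p b)).1 hd
        exact L.pp.one_lt.ne' (Nat.dvd_one.1 h4)
      · have := Nat.le_mul_of_pos_left b L.pp.pos
        omega
    have hspl : ∀ g : Polynomial (GM.kI L R), g ≠ 0 → g.natDegree < L.p →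
        Multiset.card g.roots = g.natDegree := by
      intro g hg hd
      refine GM.kJ_spl hR h0 (n := L.p - 1) ?_ g hg (by omega)
      intro e he0 he hdv
      have := Nat.le_of_dvd (Nat.pos_of_ne_zero he0) hdv
      have := L.pp.pos
      omega
    intro B _ T hT x t ht
    exact alg_of (K := K) h hn hN (GM.kI L R) hinf (fun x => GM.kJ_root hR h0 x) hspl f' ψ' hx B T hT
      x t ht

/-- **The local theorem.** -/
theorem locV [L.Unr] (h : Dat L.V f ψ f₀ ψ₀) (hn : ∀ i, (ψ i).G.natDegree < L.p)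
    (h2 : 2 < L.p)
    (hN : Nf (fun i => MvPolynomial.map (rdO F L.V) (f₀ i)) fun i => (ψ₀ i).map (rdO F L.V)) :
    Dvk f L.V K := by
  intro k hk z hz hr
  obtain ⟨z', h1, h3, h4⟩ := loc (gdx_of (K := K) h hn h2 hN) hz (zrd_iff.1 hr) hk
  exact ⟨z', h1, zrd_iff.2 h3, h4⟩

end loc

/-- **The local theorem** for the completions of number fields. -/
theorem fin_loc {F₀ : Type} [Field F₀] [NumberField F₀] {v : HeightOneSpectrum (𝓞 F₀)}
    {F : Type} [Field F] [Algebra F (FK F₀ v)] {N d m : ℕ} {ι : Type}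
    {f : ι → MvPolynomial (Fin N) F} {ψ : Fin m → Prj F N d}
    {V : ValuationSubring (AlgebraicClosure (FK F₀ v))}
    (hV : V.comap (algebraMap (FK F₀ v) _) = CV.Iv v) {p : ℕ} (hu : GM.Urp V (FK F₀ v) p)
    (h2 : 2 < p) (hn : ∀ i, (ψ i).G.natDegree < p)
    {f₀ : ι → MvPolynomial (Fin N) (V.comap (algebraMap F (AlgebraicClosure (FK F₀ v))))}
    {ψ₀ : Fin m → Prj (V.comap (algebraMap F (AlgebraicClosure (FK F₀ v)))) N d}
    (h : Dat V f ψ f₀ ψ₀)
    (hN : Nf (fun i => MvPolynomial.map (rdO F V) (f₀ i)) fun i => (ψ₀ i).map (rdO F V)) :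
    Dvk f V (FK F₀ v) := by
  have hch : CharZero (FK F₀ v) :=
    charZero_of_injective_algebraMap (algebraMap F₀ (FK F₀ v)).injective
  obtain ⟨L, hL⟩ := exists_ldI v
  have h1 : V.comap (algebraMap (FK F₀ v) _) = Ok L := by
    rw [hV]
    exact SetLike.ext fun x => (hL x).symm
  obtain rfl := GM.v_uniq L V h1
  obtain ⟨rfl, hU⟩ := GM.urp_unr hu
  exact locV h hn h2 hN

/-- **Almost all places.** -/
theorem fin_all {F : Type} [Field F] [NumberField F] {N d m : ℕ} {ι : Type} [Finite ι]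
    {f : ι → MvPolynomial (Fin N) F} {ψ : Fin m → Prj F N d}
    (hf : ∀ i, ∃ e, (f i).IsHomogeneous e) (h : ∀ i, (ψ i).Ok f) (hc : Cov f ψ)
    (hN : NoFrm fun i => MvPolynomial.map (algebraMap F (AlgebraicClosure F)) (f i)) :
    {v : HeightOneSpectrum (𝓞 F) | ¬ ∀ V : ValuationSubring (AlgebraicClosure (FK F v)),
      V.comap (algebraMap (FK F v) _) = CV.Iv v → Dvk f V (FK F v)}.Finite := by
  refine (almost hf h hc hN).subset fun v hv h' => hv fun V hV => ?_
  obtain ⟨⟨f₀, ψ₀, h1, h3⟩, p, h2, hn, hu⟩ := h' V hV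
  exact fin_loc hV hu h2 hn h1 h3

end GX
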