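import Pool.Agent.Lib.MP_f80667_ag.Gm.GxB
import Pool.Agent.Lib.MP_f80667_ag.Gx.D
import Pool.Agent.Lib.MP_f80667_ag.Gx.Pe

/-! Values of polynomials with integral coefficients. -/

open ZC BE PE CV IntermediateField

namespace GX

variable {K Ω : Type} [Field K] [Field Ω] [Algebra K Ω] {L : Ld K Ω} {N d : ℕ}

private theorem cha_pow {x y : Ω} (hx : L.nm x ≤ 1) (hy : L.nm y ≤ 1) {r : ℝ} (hr : 0 ≤ r)
    (h : L.nm (x - y) ≤ r) (k : ℕ) : L.nm (x ^ k - y ^ k) ≤ r := by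
  induction k with
  | zero =>
    rw [pow_zero, pow_zero, sub_self, (L.zero_iff 0).2 rfl]
    exact hr
  | succ i ih =>
    have h1 : x ^ (i + 1) - y ^ (i + 1) = x * (x ^ i - y ^ i) + (x - y) * y ^ i := by ring
    rw [h1]
    refine (L.add _ _).trans (max_le ?_ ?_)
    · rw [L.mul]
      exact (mul_le_of_le_one_left (L.nonneg _) hx).trans ih
    · rw [L.mul, L.pow]
      exact (mul_le_of_le_one_right (L.nonneg _) (pow_le_one₀ (L.nonneg _) hy)).trans h

private theorem cha_sum {ι : Type} (s : Finset ι) (f : ι → Ω) (h : ∀ i ∈ s, L.nm (f i) < 1) :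
    L.nm (∑ i ∈ s, f i) < 1 := by
  classical
  induction s using Finset.induction_on with
  | empty =>
    rw [Finset.sum_empty, (L.zero_iff 0).2 rfl]
    exact zero_lt_one
  | insert a s ha ih =>
    rw [Finset.sum_insert ha]
    exact (L.add _ _).trans_lt (max_lt (h a (Finset.mem_insert_self _ _))
      (ih fun i hi => h i (Finset.mem_insert_of_mem hi)))

/-- Proof: `GM.ae_le` with `F = K` (or `pe_sum`), `L.sum_le`. -/
theorem pe_le {P : Polynomial (MvPolynomial (Fin (d + 1)) K)}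
    (hP : ∀ j e, L.nm (algebraMap K Ω ((P.coeff j).coeff e)) ≤ 1) {c : Fin (d + 1) → Ω} {w : Ω}
    (hc : ∀ r, L.nm (c r) ≤ 1) (hw : L.nm w ≤ 1) : L.nm (pe c w P) ≤ 1 := by
  rw [pe_sum]
  refine L.sum_le _ _ zero_le_one fun j _ => ?_
  rw [L.mul, L.pow]
  exact mul_le_one₀ (GM.ae_le (hP j) hc) (pow_nonneg (L.nonneg _) j)
    (pow_le_one₀ (L.nonneg _) hw)

/-- Proof: `GM.ae_close`, `pe_sum`. -/
theorem pe_close {P : Polynomial (MvPolynomial (Fin (d + 1)) K)}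
    (hP : ∀ j e, L.nm (algebraMap K Ω ((P.coeff j).coeff e)) ≤ 1) {c c' : Fin (d + 1) → Ω}
    {w w' : Ω} (hc : ∀ r, L.nm (c r) ≤ 1) (hw : L.nm w ≤ 1) (hc' : ∀ r, L.nm (c' r) ≤ 1)
    (hw' : L.nm w' ≤ 1) {t : ℝ} (ht : 0 ≤ t) (h : ∀ r, L.nm (c r - c' r) ≤ t)
    (h' : L.nm (w - w') ≤ t) : L.nm (pe c w P - pe c' w' P) ≤ t := by
  rw [pe_sum, pe_sum, ← Finset.sum_sub_distrib]
  refine L.sum_le _ _ ht fun j _ => ?_
  have h1 : MvPolynomial.aeval c (P.coeff j) * w ^ j -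
      MvPolynomial.aeval c' (P.coeff j) * w' ^ j =
      MvPolynomial.aeval c (P.coeff j) * (w ^ j - w' ^ j) +
        (MvPolynomial.aeval c (P.coeff j) - MvPolynomial.aeval c' (P.coeff j)) * w' ^ j := by
    ring
  rw [h1]
  refine (L.add _ _).trans (max_le ?_ ?_)
  · rw [L.mul]
    exact (mul_le_of_le_one_left (L.nonneg _) (GM.ae_le (hP j) hc)).trans
      (cha_pow hw hw' ht h' j)
  · rw [L.mul, L.pow]
    exact (mul_le_of_le_one_right (L.nonneg _) (pow_le_one₀ (L.nonneg _) hw')).trans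
      (GM.ae_close (hP j) hc hc' ht h)

private theorem cha_aev {M : IntermediateField K Ω} {σ : Type} (P : MvPolynomial σ K) {c : σ → Ω}
    (hc : ∀ r, c r ∈ M) : MvPolynomial.aeval c P ∈ M := by
  rw [MvPolynomial.aeval_def, MvPolynomial.eval₂_eq]
  exact sum_mem fun e _ => mul_mem (IntermediateField.algebraMap_mem M _)
    (prod_mem fun i _ => pow_mem (hc i) _)

theorem pe_mem {M : IntermediateField K Ω} (P : Polynomial (MvPolynomial (Fin (d + 1)) K))
    {c : Fin (d + 1) → Ω} {w : Ω} (hc : ∀ r, c r ∈ M) (hw : w ∈ M) : pe c w P ∈ M := by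
  rw [pe_sum]
  exact sum_mem fun j _ => mul_mem (cha_aev _ hc) (pow_mem hw j)

theorem aev_mem {M : IntermediateField K Ω} {σ : Type} (P : MvPolynomial σ K) {c : σ → Ω}
    (hc : ∀ r, c r ∈ M) : MvPolynomial.aeval c P ∈ M :=
  cha_aev P hc

/-- Proof: `pe_hom`. -/
theorem pe_act (γ : Ω ≃ₐ[K] Ω) (P : Polynomial (MvPolynomial (Fin (d + 1)) K))
    (c : Fin (d + 1) → Ω) (w : Ω) : γ (pe c w P) = pe (fun r => γ (c r)) (γ w) P :=
  pe_hom (γ : Ω →ₐ[K] Ω) c w P

theorem lv_le {a : Fin N → K} (ha : ∀ j, L.nm (algebraMap K Ω (a j)) ≤ 1) {x : Fin N → Ω}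
    (hx : ∀ j, L.nm (x j) ≤ 1) : L.nm (lv a x) ≤ 1 := by
  rw [lv]
  refine L.sum_le _ _ zero_le_one fun j _ => ?_
  rw [L.mul]
  exact mul_le_one₀ (ha j) (L.nonneg _) (hx j)

theorem lv_close {a : Fin N → K} (ha : ∀ j, L.nm (algebraMap K Ω (a j)) ≤ 1)
    {x x' : Fin N → Ω} {t : ℝ} (ht : 0 ≤ t) (h : ∀ j, L.nm (x j - x' j) ≤ t) :
    L.nm (lv a x - lv a x') ≤ t := by
  rw [lv, lv, ← Finset.sum_sub_distrib]
  refine L.sum_le _ _ ht fun j _ => ?_
  rw [← mul_sub, L.mul]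
  exact (mul_le_of_le_one_left (L.nonneg _) (ha j)).trans (h j)

/-- Proof: `lv_close` with a maximum of the norms (`N = 0`: the value is `0`). -/
theorem lv_lt {a : Fin N → K} (ha : ∀ j, L.nm (algebraMap K Ω (a j)) ≤ 1)
    {x x' : Fin N → Ω} (h : ∀ j, L.nm (x j - x' j) < 1) : L.nm (lv a x - lv a x') < 1 := by
  rw [lv, lv, ← Finset.sum_sub_distrib]
  refine cha_sum _ _ fun j _ => ?_
  rw [← mul_sub, L.mul]
  exact (mul_le_of_le_one_left (L.nonneg _) (ha j)).trans_lt (h j)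

theorem lv_mem {M : IntermediateField K Ω} (a : Fin N → K) {x : Fin N → Ω}
    (hx : ∀ j, x j ∈ M) : lv a x ∈ M := by
  rw [lv]
  exact sum_mem fun j _ => mul_mem (IntermediateField.algebraMap_mem M _) (hx j)

theorem lv_act (γ : Ω ≃ₐ[K] Ω) (a : Fin N → K) (x : Fin N → Ω) :
    γ (lv a x) = lv a fun j => γ (x j) := by
  rw [lv, lv, map_sum]
  refine Finset.sum_congr rfl fun j _ => ?_
  rw [map_mul, AlgEquiv.commutes]

/-- The values of homogeneous polynomials of degree `≠ 0` at small vectors. Proof: `GM.ae_close` with `y = 0` and the maximum of the norms, or by monomials. -/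
theorem hom_lt {P : MvPolynomial (Fin (d + 1)) K}
    (hP : ∀ e, L.nm (algebraMap K Ω (P.coeff e)) ≤ 1) {e : ℕ} (he : e ≠ 0)
    (h : P.IsHomogeneous e) {c : Fin (d + 1) → Ω} (hc : ∀ r, L.nm (c r) < 1) :
    L.nm (MvPolynomial.aeval c P) < 1 := by
  obtain ⟨i, -, hi⟩ := Finset.exists_max_image Finset.univ (fun r => L.nm (c r))
    ⟨0, Finset.mem_univ 0⟩
  have h0 : MvPolynomial.aeval (fun _ => (0 : Ω)) P = 0 := by
    rw [MvPolynomial.aeval_zero', MvPolynomial.constantCoeff_eq, h.coeff_eq_zero, map_zero]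
    rw [map_zero]
    exact he.symm
  have h1 := GM.ae_close (L := L) (G := P) hP (x := c) (y := fun _ => 0) (fun r => (hc r).le)
    (fun r => by
      rw [(L.zero_iff 0).2 rfl]
      exact zero_le_one) (L.nonneg (c i)) fun r => by
      rw [sub_zero]
      exact hi r (Finset.mem_univ r)
  rw [h0, sub_zero] at h1
  exact h1.trans_lt (hc i)

end GX
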