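import Pool.Agent.Lib.MP_f80667_ag.Gx.Gc
import Pool.Agent.Lib.MP_f80667_ag.Gx.Ft

/-! From functions with values in an abelian group to functions with values in the field. -/

open MvPolynomial

namespace GX

variable {κ : Type} [Field κ] {N d m : ℕ} {ι : Type} {f : ι → MvPolynomial (Fin N) κ}
  {ψ : Fin m → Prj κ N d}

/-- The additive maps from the field to `B`. -/
private def EaH (κ B : Type) [Field κ] [AddCommGroup B] : Type := κ →+ B

private noncomputable instance {B : Type} [AddCommGroup B] : AddCommGroup (EaH κ B) :=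
  inferInstanceAs (AddCommGroup (κ →+ B))

private def eaApp {B : Type} [AddCommGroup B] (φ : EaH κ B) (x : κ) : B :=
  (show κ →+ B from φ) x

private theorem eaApp_add {B : Type} [AddCommGroup B] (φ χ : EaH κ B) (x : κ) :
    eaApp (φ + χ) x = eaApp φ x + eaApp χ x := rfl

private theorem eaApp_zero {B : Type} [AddCommGroup B] (x : κ) :
    eaApp (0 : EaH κ B) x = 0 := rfl

private theorem eaApp_map_add {B : Type} [AddCommGroup B] (φ : EaH κ B) (x y : κ) :
    eaApp φ (x + y) = eaApp φ x + eaApp φ y := AddMonoidHom.map_add (φ : κ →+ B) x y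

private theorem eaApp_map_zero {B : Type} [AddCommGroup B] (φ : EaH κ B) :
    eaApp φ 0 = 0 := AddMonoidHom.map_zero (φ : κ →+ B)

private theorem ea_ext {B : Type} [AddCommGroup B] {φ χ : EaH κ B}
    (h : ∀ x, eaApp φ x = eaApp χ x) : φ = χ := by
  have h1 : (φ : κ →+ B) = (χ : κ →+ B) := AddMonoidHom.ext h
  exact h1

private noncomputable instance {B : Type} [AddCommGroup B] : SMul κ (EaH κ B) :=
  ⟨fun t φ => (φ : κ →+ B).comp (AddMonoidHom.mulLeft t)⟩

private theorem eaApp_smul {B : Type} [AddCommGroup B] (t : κ) (φ : EaH κ B) (x : κ) :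
    eaApp (t • φ) x = eaApp φ (t * x) := rfl

private noncomputable instance {B : Type} [AddCommGroup B] : Module κ (EaH κ B) where
  one_smul φ := ea_ext fun x => by rw [eaApp_smul, one_mul]
  mul_smul a b φ := ea_ext fun x => by
    rw [eaApp_smul, eaApp_smul, eaApp_smul]
    congr 1
    ring
  smul_zero a := ea_ext fun x => by
    rw [eaApp_smul, eaApp_zero, eaApp_zero]
  smul_add a φ χ := ea_ext fun x => by
    rw [eaApp_smul, eaApp_add, eaApp_add, eaApp_smul, eaApp_smul]
  add_smul a b φ := ea_ext fun x => by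
    rw [eaApp_smul, eaApp_add, eaApp_smul, eaApp_smul, add_mul, eaApp_map_add]
  zero_smul φ := ea_ext fun x => by
    rw [eaApp_smul, zero_mul, eaApp_map_zero, eaApp_zero]

/-- The value at `x` as an additive map. -/
private noncomputable def eaEv (B : Type) [AddCommGroup B] (x : κ) : EaH κ B →+ B where
  toFun φ := eaApp φ x
  map_zero' := eaApp_zero x
  map_add' φ χ := eaApp_add φ χ x

open Classical in
/-- The additive map `s ↦ T x (s t)`. -/
private noncomputable def EaL {B : Type} [AddCommGroup B]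
    {T : (Fin N → κ) → (Fin N → κ) → B} (hT : Ft f ψ T) (x t : Fin N → κ) : EaH κ B :=
  if ht : Tg f x t then
    (AddMonoidHom.mk' (fun s : κ => T x (s • t)) fun a b => by
      rw [add_smul]
      exact hT.add x _ _ (tg_smul ht a) (tg_smul ht b) : κ →+ B)
  else 0

private theorem eaL_app {B : Type} [AddCommGroup B]
    {T : (Fin N → κ) → (Fin N → κ) → B} (hT : Ft f ψ T) {x t : Fin N → κ} (ht : Tg f x t)
    (s : κ) : eaApp (EaL hT x t) s = T x (s • t) := by
  unfold EaL
  rw [dif_pos ht]
  rfl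

/-- **From `B` to `κ`.** Proof as `GM.Ft.exists_fv` in `Gm/GsDf.lean` (copy it, with its private definitions `HB`, `Lam`): `H = (κ →+ B)` is a vector space over `κ`, `Λ x t = (s ↦ T x (s t))` is linear in `t` for
tangent vectors `t`, the relation `crv` for all `τ` is a relation in `H`; a linear functional `χ` with `χ (Λ x₀ t₀) ≠ 0`; `ℓ x t = χ (Λ x t)`. The vectors in `crv` are tangent vectors: `Ok.lt_tg`, `Ok.mem_gc`. `tg_add`, `tg_smul`, `tg_hom`,
`tg_rad` are in `Gx/Lt.lean`. For `rad`: `Λ x (c x) = 0` because of `T x (s c x) = 0`. -/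
theorem Ft.exists_fv {B : Type} [AddCommGroup B] (hf : ∀ i, ∃ e, (f i).IsHomogeneous e)
    (h : ∀ i, (ψ i).Ok f) {T : (Fin N → κ) → (Fin N → κ) → B} (hT : Ft f ψ T)
    {x₀ t₀ : Fin N → κ} (h₀ : Tg f x₀ t₀) (h₁ : T x₀ t₀ ≠ 0) : ∃ ℓ, Fv f ψ ℓ ∧ ℓ x₀ t₀ ≠ 0 := by
  classical
  have hL : EaL hT x₀ t₀ ≠ 0 := by
    intro hz
    apply h₁
    have h2 := eaL_app hT h₀ 1
    rw [hz, eaApp_zero, one_smul] at h2
    exact h2.symm
  obtain ⟨χ, hχ⟩ : ∃ χ : Module.Dual κ (EaH κ B), χ (EaL hT x₀ t₀) ≠ 0 := by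
    by_contra hcon
    push Not at hcon
    exact hL ((Module.forall_dual_apply_eq_zero_iff κ _).1 hcon)
  refine ⟨fun x t => χ (EaL hT x t), ⟨?_, ?_, ?_, ?_, ?_⟩, hχ⟩
  · intro x t t' ht ht'
    have h2 : EaL hT x (t + t') = EaL hT x t + EaL hT x t' := ea_ext fun s => by
      rw [eaApp_add, eaL_app hT (tg_add ht ht'), eaL_app hT ht, eaL_app hT ht', smul_add]
      exact hT.add x _ _ (tg_smul ht s) (tg_smul ht' s)
    simp only [h2, map_add]
  · intro x t c ht
    have h2 : EaL hT x (c • t) = c • EaL hT x t := ea_ext fun s => by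
      rw [eaApp_smul, eaL_app hT (tg_smul ht c), eaL_app hT ht, smul_smul, mul_comm]
    simp only [h2, map_smul, smul_eq_mul]
  · intro x t c hc ht
    have h2 : EaL hT (c • x) (c • t) = EaL hT x t := ea_ext fun s => by
      rw [eaL_app hT (tg_hom hf ht hc), eaL_app hT ht, smul_comm]
      exact hT.hom x _ c hc (tg_smul ht s)
    simp only [h2]
  · intro x c hx
    have h2 : EaL hT x (c • x) = 0 := ea_ext fun s => by
      rw [eaL_app hT (tg_rad hf hx c), eaApp_zero, smul_smul]
      exact hT.rad x (s * c) hx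
    simp only [h2, map_zero]
  · intro i a ρ j S ha hj hS
    have h2 : ∑ c ∈ S, (∏ c' ∈ S.erase c, (c - c'))⁻¹ •
        (((ψ i).gc (av a c)).roots.map fun w => w ^ j • EaL hT ((ψ i).pt (av a c) w)
          ((ψ i).lt (av a c) w (dv a c))).sum = 0 := by
      refine ea_ext fun τ => ?_
      rw [eaApp_zero]
      have h3 := hT.crv i a ρ j S τ ha hj hS
      have h4 : eaEv B τ (∑ c ∈ S, (∏ c' ∈ S.erase c, (c - c'))⁻¹ •
        (((ψ i).gc (av a c)).roots.map fun w => w ^ j • EaL hT ((ψ i).pt (av a c) w)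
          ((ψ i).lt (av a c) w (dv a c))).sum) = 0 := by
        rw [map_sum, ← h3]
        refine Finset.sum_congr rfl fun c hc => ?_
        rw [Multiset.smul_sum, map_multiset_sum, Multiset.map_map, Multiset.map_map]
        refine congrArg Multiset.sum (Multiset.map_congr rfl fun w hw => ?_)
        have h5 := ((h i).lt_tg hf ((h i).mem_gc.1 hw) (hS c hc) (dv a c)).1
        change eaApp ((∏ c' ∈ S.erase c, (c - c'))⁻¹ • w ^ j • EaL hT ((ψ i).pt (av a c) w)
          ((ψ i).lt (av a c) w (dv a c))) τ = _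
        rw [eaApp_smul, eaApp_smul, eaL_app hT h5]
        congr 2
        ring
      exact h4
    have h6 := congrArg χ h2
    rw [map_zero, map_sum] at h6
    rw [← h6]
    refine Finset.sum_congr rfl fun c hc => ?_
    rw [map_smul, smul_eq_mul, map_multiset_sum, Multiset.map_map]
    congr 1
    refine congrArg Multiset.sum (Multiset.map_congr rfl fun w hw => ?_)
    change _ = χ (w ^ j • EaL hT ((ψ i).pt (av a c) w) ((ψ i).lt (av a c) w (dv a c)))
    rw [map_smul, smul_eq_mul]

end GX
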