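import Pool.Agent.Lib.MP_f80667_ag.Gm.AlC
import Pool.Agent.Lib.MP_f80667_ag.Gm.PlC
import Pool.Agent.Lib.MP_f80667_ag.Gx.Gc
import Pool.Agent.Lib.MP_f80667_ag.Gx.Ft

/-! The sums over the points of a fibre are polynomials. -/

open MvPolynomial

namespace GX

variable {κ : Type} [Field κ] {N d m : ℕ} {ι : Type} {f : ι → MvPolynomial (Fin N) κ}
  {ψ : Fin m → Prj κ N d}

/-- The sum over the points over `c`. -/
noncomputable def Prj.sj (ψ : Prj κ N d) (ℓ : (Fin N → κ) → (Fin N → κ) → κ) (j : ℕ)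
    (c ξ : Fin (d + 1) → κ) : κ :=
  ((ψ.gc c).roots.map fun w => w ^ j * ℓ (ψ.pt c w) (ψ.lt c w ξ)).sum

private theorem ec_hom_eval {σ : Type} {φ : MvPolynomial σ κ} {n : ℕ} (h : φ.IsHomogeneous n)
    (t : κ) (b : σ → κ) : eval (t • b) φ = t ^ n * eval b φ := by
  rw [eval_eq, eval_eq, Finset.mul_sum]
  refine Finset.sum_congr rfl fun d hd => ?_
  have hdeg : ∑ i ∈ d.support, d i = n := by
    have h1 : d.degree = n := by
      by_contra h2
      exact mem_support_iff.1 hd (h.coeff_eq_zero h2)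
    rwa [Finsupp.degree_apply] at h1
  rw [← hdeg, ← Finset.prod_pow_eq_pow_sum]
  simp only [Pi.smul_apply, smul_eq_mul, mul_pow, Finset.prod_mul_distrib]
  ring

/-- Proof: `lt_add`, `lt_smul`, `Ok.lt_tg` (`Ok.mem_gc`) for `add` and `smul`; `arc`: `GM.dd_poly` (`GM.dd`) with the set `{c | D (a(c)) ≠ 0}` and `crv`. -/
theorem Fv.ar (hf : ∀ i, ∃ e, (f i).IsHomogeneous e) (h : ∀ i, (ψ i).Ok f)
    {ℓ : (Fin N → κ) → (Fin N → κ) → κ} (hℓ : Fv f ψ ℓ) (i : Fin m) (j : ℕ) :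
    GM.Ar (ψ i).D j ((ψ i).sj ℓ j) := by
  refine ⟨?_, ?_, ?_⟩
  · intro b hb u u'
    simp only [Prj.sj]
    rw [← Multiset.sum_map_add]
    refine congrArg Multiset.sum (Multiset.map_congr rfl fun w hw => ?_)
    have hG := (h i).mem_gc.1 hw
    rw [Prj.lt_add, hℓ.add _ _ _ ((h i).lt_tg hf hG hb u).1 ((h i).lt_tg hf hG hb u').1]
    ring
  · intro b hb u t
    simp only [Prj.sj]
    rw [← Multiset.sum_map_mul_left]
    refine congrArg Multiset.sum (Multiset.map_congr rfl fun w hw => ?_)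
    have hG := (h i).mem_gc.1 hw
    rw [Prj.lt_smul, hℓ.smul _ _ _ ((h i).lt_tg hf hG hb u).1]
    ring
  · intro ρ a ha
    exact GM.dd_poly {c | eval (av a c) (ψ i).D ≠ 0}
      (fun c => (ψ i).sj ℓ j (av a c) (dv a c)) (j * ρ)
      fun s hs hc => hℓ.crv i a ρ j s ha hc fun c hc => hs (Finset.mem_coe.2 hc)

/-- Proof: `crv` with the arc `c + z ξ` (`ρ = 1`), `S = {0}`. -/
theorem Fv.sj_zero {ℓ : (Fin N → κ) → (Fin N → κ) → κ} (hℓ : Fv f ψ ℓ) (i : Fin m)
    {c : Fin (d + 1) → κ} (hD : eval c (ψ i).D ≠ 0) (ξ : Fin (d + 1) → κ) :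
    (ψ i).sj ℓ 0 c ξ = 0 := by
  let a : Fin (d + 1) → Polynomial κ :=
    fun r => Polynomial.C (ξ r) * Polynomial.X + Polynomial.C (c r)
  have ha : av a 0 = c := by
    funext r
    simp [av, a]
  have hd : dv a 0 = ξ := by
    funext r
    simp [dv, a]
  have h1 := hℓ.crv i a 1 0 {0} (fun r => Polynomial.natDegree_linear_le) (by simp) (by
    intro c' hc'
    rw [Finset.mem_singleton.1 hc', ha]
    exact hD)
  simpa [Prj.sj, ha, hd] using h1

/-- Proof: `Ok.gc_smul`, `Ok.pt_smul`, `Fv.hom` (`Ok.lt_tg`). -/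
theorem Fv.sj_smul (hf : ∀ i, ∃ e, (f i).IsHomogeneous e) (h : ∀ i, (ψ i).Ok f)
    {ℓ : (Fin N → κ) → (Fin N → κ) → κ} (hℓ : Fv f ψ ℓ) (i : Fin m) (j : ℕ)
    {c : Fin (d + 1) → κ} (hD : eval c (ψ i).D ≠ 0) (ξ : Fin (d + 1) → κ) {s : κ} (hs : s ≠ 0) :
    (ψ i).sj ℓ j (s • c) (s • ξ) = s ^ j * (ψ i).sj ℓ j c ξ := by
  simp only [Prj.sj]
  rw [(h i).gc_smul hD hs, Multiset.map_map, ← Multiset.sum_map_mul_left]
  refine congrArg Multiset.sum (Multiset.map_congr rfl fun w hw => ?_)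
  have hG := (h i).mem_gc.1 hw
  obtain ⟨-, -, h3, h4⟩ := (h i).pt_smul hf hG hD hs
  rw [Function.comp_apply, h3, h4, hℓ.hom _ _ _ hs ((h i).lt_tg hf hG hD ξ).1, mul_pow]
  ring

/-- **The polynomials.** Proof: as `GM.Hy.pj_hpoly` (`Gm/AlE.lean`): `Ar.planar` gives a polynomial `g` for every `j`, `r`; for `j = 0` take `0` (`sj_zero`), otherwise the homogeneous component of degree `j - 1` of `g`:
by `sj_smul` `s g (s c) = s ^ j g (c)` for all `s ≠ 0` and all `c` with `D (c) ≠ 0`. Linearity in `ξ`: `ξ = ∑ ξ_r e_r` and `Fv.ar` (`add`, `smul`). -/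
theorem Fv.poly [Infinite κ] (hf : ∀ i, ∃ e, (f i).IsHomogeneous e) (h : ∀ i, (ψ i).Ok f)
    {p : ℕ} (hp : p.Prime) [CharP κ p] (hpf : ∀ x : κ, ∃ y, y ^ p = x)
    {ℓ : (Fin N → κ) → (Fin N → κ) → κ} (hℓ : Fv f ψ ℓ) (i : Fin m) (h0 : (ψ i).D ≠ 0) :
    ∃ P : ℕ → Fin (d + 1) → MvPolynomial (Fin (d + 1)) κ,
      (∀ j r, (P j r).IsHomogeneous (j - 1)) ∧ (∀ r, P 0 r = 0) ∧
      ∀ j c ξ, eval c (ψ i).D ≠ 0 → (ψ i).sj ℓ j c ξ = ∑ r, eval c (P j r) * ξ r := by
  obtain ⟨e, -, he⟩ := (h i).homD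
  have key : ∀ (j : ℕ) (r : Fin (d + 1)), ∃ g : MvPolynomial (Fin (d + 1)) κ,
      g.IsHomogeneous (j - 1) ∧ (j = 0 → g = 0) ∧
        ∀ b, eval b (ψ i).D ≠ 0 → (ψ i).sj ℓ j b (Pi.single r 1) = eval b g := by
    intro j r
    rcases Nat.eq_zero_or_pos j with hj | hj
    · subst hj
      refine ⟨0, isHomogeneous_zero _ _ _, fun _ => rfl, fun b hb => ?_⟩
      rw [hℓ.sj_zero i hb, map_zero]
    obtain ⟨g, hgb⟩ := (hℓ.ar hf h i j).planar h0 he hp hpf r
    refine ⟨homogeneousComponent (j - 1) g, homogeneousComponent_isHomogeneous _ _,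
      fun h => absurd h (by omega), fun b hbD => ?_⟩
    rw [hgb b hbD]
    have hpt : ∀ t : κ, t * eval (t • b) g = t ^ j * eval b g := by
      intro t
      by_cases ht : t = 0
      · subst ht
        rw [zero_mul, zero_pow (by omega), zero_mul]
      · have h2 : eval (t • b) (ψ i).D ≠ 0 := by
          rw [ec_hom_eval he]
          exact mul_ne_zero (pow_ne_zero _ ht) hbD
        rw [← hgb _ h2, ← hgb b hbD, ← (hℓ.ar hf h i j).smul _ h2,
          ← hℓ.sj_smul hf h i j hbD _ ht]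
    obtain ⟨c, hc⟩ : ∃ c : ℕ → κ, c = fun r => eval b (homogeneousComponent r g) := ⟨_, rfl⟩
    have hexp : ∀ t : κ, eval (t • b) g =
        ∑ r ∈ Finset.range (g.totalDegree + 1), t ^ r * c r := by
      intro t
      conv_lhs => rw [← sum_homogeneousComponent g]
      rw [map_sum]
      refine Finset.sum_congr rfl fun r _ => ?_
      rw [ec_hom_eval (homogeneousComponent_isHomogeneous r g), hc]
    have hpol : (∑ r ∈ Finset.range (g.totalDegree + 1),
        Polynomial.C (c r) * Polynomial.X ^ (r + 1)) =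
          Polynomial.C (eval b g) * (Polynomial.X ^ j : Polynomial κ) := by
      apply Polynomial.funext
      intro t
      have := hpt t
      rw [hexp, Finset.mul_sum] at this
      simp only [Polynomial.eval_finsetSum, Polynomial.eval_mul, Polynomial.eval_C,
        Polynomial.eval_pow, Polynomial.eval_X]
      rw [mul_comm (eval b g), ← this]
      refine Finset.sum_congr rfl fun r _ => ?_
      ring
    have hco := congrArg (fun q => q.coeff j) hpol
    simp only [Polynomial.finsetSum_coeff, Polynomial.coeff_C_mul, Polynomial.coeff_X_pow,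
      if_true, mul_one] at hco
    rw [← hco]
    by_cases hr : j - 1 ∈ Finset.range (g.totalDegree + 1)
    · rw [Finset.sum_eq_single_of_mem (j - 1) hr]
      · rw [if_pos (by omega), mul_one, hc]
      · intro r _ hr'
        rw [if_neg (by omega), mul_zero]
    · have hr2 : g.totalDegree < j - 1 := by
        rw [Finset.mem_range] at hr
        omega
      rw [homogeneousComponent_eq_zero _ _ hr2, map_zero]
      refine Finset.sum_eq_zero fun r hr' => ?_
      rw [if_neg, mul_zero]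
      intro h
      apply hr
      have : j - 1 = r := by omega
      rwa [this]
  choose P hP1 hP2 hP3 using key
  refine ⟨P, hP1, fun r => hP2 0 r rfl, fun j c ξ hD => ?_⟩
  have hAr := hℓ.ar hf h i j
  obtain ⟨L, hL⟩ : ∃ L : (Fin (d + 1) → κ) →ₗ[κ] κ, ∀ u, L u = (ψ i).sj ℓ j c u :=
    ⟨{ toFun := fun u => (ψ i).sj ℓ j c u
       map_add' := hAr.add _ hD
       map_smul' := fun t u => hAr.smul _ hD u t }, fun _ => rfl⟩
  rw [← hL, LinearMap.pi_apply_eq_sum_univ L]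
  refine Finset.sum_congr rfl fun r _ => ?_
  have h5 : (fun r' : Fin (d + 1) => if r = r' then (1 : κ) else 0) = Pi.single r 1 := by
    funext r'
    rw [Pi.single_apply]
    by_cases h : r = r'
    · rw [if_pos h, if_pos h.symm]
    · rw [if_neg h, if_neg (Ne.symm h)]
  rw [h5, hL, hP3 j r c hD, smul_eq_mul, mul_comm]

end GX
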