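import Pool.Agent.Lib.MP_f80667_ag.Gm.GwA
import Pool.Agent.Lib.MP_f80667_ag.Gx.Al

/-! Smooth hypersurfaces: divisibility by the equation. -/

open MvPolynomial

namespace GX

variable {κ : Type} [Field κ] {N n : ℕ} {G : MvPolynomial (Fin N) κ}

/-- Powers of the variables are in the ideal of the partial derivatives. -/
def Smd (G : MvPolynomial (Fin N) κ) : Prop :=
  ∃ s : ℕ, ∀ i, (X i : MvPolynomial (Fin N) κ) ^ s ∈ Ideal.span (Set.range fun j => pderiv j G)

private theorem hya_X {i j : Fin N} (hij : i ≠ j) :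
    ¬ (X i : MvPolynomial (Fin N) κ) ∣ X j := by
  rintro ⟨Q, hQ⟩
  have h := congrArg (eval (fun l => if l = i then (0 : κ) else 1)) hQ
  rw [map_mul, eval_X, eval_X, if_pos rfl, if_neg hij.symm, zero_mul] at h
  exact one_ne_zero h

theorem hy_ne (hN : 1 ≤ N) (hs : Smd G) : G ≠ 0 := by
  rintro rfl
  obtain ⟨s, h⟩ := hs
  have h1 := h ⟨0, hN⟩
  have h2 : Ideal.span (Set.range fun j => pderiv j (0 : MvPolynomial (Fin N) κ)) = ⊥ := by
    rw [Ideal.span_eq_bot]
    rintro _ ⟨j, rfl⟩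
    exact map_zero _
  rw [h2, Ideal.mem_bot] at h1
  exact pow_ne_zero s (X_ne_zero _) h1

/-- Proof: if `H ^ 2` divides `G` then `H` divides all partial derivatives (`Derivation.leibniz`), so it divides `X i ^ s` and `X j ^ s`, `i ≠ j`: it is a unit (`X i`, `X j` are different primes). -/
theorem hy_sqf (hN : 2 ≤ N) (hs : Smd G) : Squarefree G := by
  intro H hH
  obtain ⟨Q, hQ⟩ := hH
  obtain ⟨s, h⟩ := hs
  have hd : ∀ j, H ∣ pderiv j G := by
    intro j
    rw [hQ, pderiv_mul, pderiv_mul]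
    exact ⟨(pderiv j H + pderiv j H) * Q + H * pderiv j Q, by ring⟩
  have hX : ∀ i, H ∣ (X i : MvPolynomial (Fin N) κ) ^ s := by
    intro i
    have h1 : Ideal.span (Set.range fun j => pderiv j G) ≤ Ideal.span {H} := by
      rw [Ideal.span_le]
      rintro _ ⟨j, rfl⟩
      exact Ideal.mem_span_singleton.2 (hd j)
    exact Ideal.mem_span_singleton.1 (h1 (h i))
  obtain ⟨a, -, ha⟩ := (dvd_prime_pow (X_prime (i := (⟨0, by omega⟩ : Fin N))) s).1 (hX ⟨0, by omega⟩)
  rcases Nat.eq_zero_or_pos a with rfl | h0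
  · rw [pow_zero] at ha
    exact (associated_one_iff_isUnit.1 ha)
  · exfalso
    have h1 : (X (⟨0, by omega⟩ : Fin N) : MvPolynomial (Fin N) κ) ∣
        X (⟨1, by omega⟩ : Fin N) ^ s :=
      ((dvd_pow_self _ h0.ne').trans ha.symm.dvd).trans (hX _)
    exact hya_X (by simp) (X_prime.dvd_of_dvd_pow h1)

/-- Proof: for every variable `X i ^ 1 * P` vanishes on the zero set of `G`, so `(X i * P) ^ k` is a multiple of `G` (Nullstellensatz: `vanishingIdeal_zeroLocus_eq_radical`), `G ∣ X i * P` (`hy_sqf`, `isRadical_iff_squarefree_of_ne_zero`). With two different variables: a prime factor of `G` which does not divide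
`P` divides `X i` and `X j` (squarefree: it is enough that every prime factor of `G` divides `P`; or: `G ∣ gcd (X i * P, X j * P) = P`; or work with `IsRelPrime`/`IsCoprime` of `X i`, `X j`: `GCDMonoid`). -/
theorem hy_dvd [IsAlgClosed κ] (hN : 2 ≤ N) (hs : Smd G) {P : MvPolynomial (Fin N) κ}
    (hP : ∀ x, x ≠ 0 → eval x G = 0 → eval x P = 0) : G ∣ P := by
  have hG0 : G ≠ 0 := hy_ne (by omega) hs
  have hrad : IsRadical G := (isRadical_iff_squarefree_of_ne_zero hG0).2 (hy_sqf hN hs)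
  have hX : ∀ i, G ∣ X i * P := by
    intro i
    have h1 : X i * P ∈ (Ideal.span {G}).radical := by
      rw [← MvPolynomial.vanishingIdeal_zeroLocus_eq_radical (K := κ)]
      intro x hx
      rw [MvPolynomial.zeroLocus_span] at hx
      rw [map_mul, aeval_X]
      by_cases h0 : x = 0
      · rw [h0, Pi.zero_apply, zero_mul]
      · have h2 : aeval x P = 0 := by
          have e : ∀ Q : MvPolynomial (Fin N) κ, aeval x Q = eval x Q := fun Q => by
            rw [aeval_eq_eval₂Hom]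
            rfl
          have h3 := hx G (Set.mem_singleton G)
          rw [e] at h3 ⊢
          exact hP x h0 h3
        rw [h2, mul_zero]
    obtain ⟨n, hn⟩ := h1
    exact hrad n _ (Ideal.mem_span_singleton.1 hn)
  obtain ⟨Q, hQ⟩ := hX ⟨0, by omega⟩
  obtain ⟨R, hR⟩ := hX ⟨1, by omega⟩
  have h1 : X (⟨0, by omega⟩ : Fin N) * R = X (⟨1, by omega⟩ : Fin N) * Q := by
    refine mul_left_cancel₀ hG0 ?_
    calc G * (X (⟨0, by omega⟩ : Fin N) * R) = X (⟨0, by omega⟩ : Fin N) * (G * R) := by ring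
      _ = X (⟨1, by omega⟩ : Fin N) * (X (⟨0, by omega⟩ : Fin N) * P) := by
        rw [← hR]
        ring
      _ = G * (X (⟨1, by omega⟩ : Fin N) * Q) := by
        rw [hQ]
        ring
  have h2 : (X (⟨0, by omega⟩ : Fin N) : MvPolynomial (Fin N) κ) ∣ Q :=
    (X_prime.dvd_or_dvd ⟨R, h1.symm⟩).resolve_left (hya_X (by simp))
  obtain ⟨Q', rfl⟩ := h2
  refine ⟨Q', mul_left_cancel₀ (X_ne_zero (⟨0, by omega⟩ : Fin N)) ?_⟩
  rw [hQ]
  ring

end GX
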