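import Pool.Agent.Lib.MP_f80667_ag.Gx.HyA

/-! Smooth hypersurfaces: the variables do not divide the equation. -/

open MvPolynomial

namespace GX

variable {κ : Type} [Field κ] {N n : ℕ} {G : MvPolynomial (Fin N) κ}

/-- Proof: let `G = X i * B`, `B` is homogeneous of degree `n - 1`. All partial derivatives are in the ideal `(X i, B)`, so `X j ^ s` and `X k ^ s` (`i`, `j`, `k` different) are; put `X i = 0` (`aeval` with `0` at `i`): `B₀ ∣ X j ^ s`, `B₀ ∣ X k ^ s`, so `B₀` is a unit, but it is homogeneous of degree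
`n - 1 ≥ 1`. -/
theorem hy_X (hN : 3 ≤ N) (h2 : 2 ≤ n) (hG : G.IsHomogeneous n) (hs : Smd G) (i : Fin N) :
    ¬ X i ∣ G := by
  classical
  rintro ⟨B, hB⟩
  obtain ⟨s, hs⟩ := hs
  obtain ⟨j, hj, k, hk, hjk⟩ : ∃ j ∈ (Finset.univ : Finset (Fin N)).erase i,
      ∃ k ∈ (Finset.univ : Finset (Fin N)).erase i, j ≠ k := by
    refine Finset.one_lt_card.1 ?_
    rw [Finset.card_erase_of_mem (Finset.mem_univ i), Finset.card_univ, Fintype.card_fin]
    omega
  obtain ⟨φ, hφi, hφ⟩ : ∃ φ : MvPolynomial (Fin N) κ →ₐ[κ] MvPolynomial (Fin N) κ,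
      φ (X i) = 0 ∧ ∀ l, l ≠ i → φ (X l) = X l :=
    ⟨aeval fun l => if l = i then 0 else X l, by rw [aeval_X, if_pos rfl],
      fun l hl => by rw [aeval_X, if_neg hl]⟩
  have hdv : ∀ l, l ≠ i → φ B ∣ X l ^ s := by
    intro l hl
    have h1 : Ideal.span (Set.range fun j => pderiv j G) ≤
        (Ideal.span {φ B}).comap (φ : MvPolynomial (Fin N) κ →+* MvPolynomial (Fin N) κ) := by
      rw [Ideal.span_le]
      rintro _ ⟨m, rfl⟩
      change φ (pderiv m G) ∈ Ideal.span {φ B}
      rw [Ideal.mem_span_singleton, hB, Derivation.leibniz, smul_eq_mul, smul_eq_mul, map_add,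
        map_mul, map_mul, hφi, zero_mul, zero_add]
      exact dvd_mul_right _ _
    have h2 : φ (X l ^ s) ∈ Ideal.span {φ B} := h1 (hs l)
    rw [Ideal.mem_span_singleton, map_pow, hφ l hl] at h2
    exact h2
  have hu : IsUnit (φ B) := by
    have h1 : IsRelPrime (X j : MvPolynomial (Fin N) κ) (X k) :=
      X_prime.irreducible.isRelPrime_iff_not_dvd.2 fun h => hjk (X_dvd_X.1 h)
    exact (h1.pow (m := s) (n := s)) (hdv j (Finset.ne_of_mem_erase hj))
      (hdv k (Finset.ne_of_mem_erase hk))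
  have hc : constantCoeff (φ B) = constantCoeff B := by
    have h1 : (constantCoeff (R := κ) (σ := Fin N)).comp
        (φ : MvPolynomial (Fin N) κ →+* MvPolynomial (Fin N) κ) = constantCoeff := by
      refine ringHom_ext (fun r => ?_) fun m => ?_
      · change constantCoeff (φ (C r)) = constantCoeff (C r)
        rw [← algebraMap_eq, φ.commutes]
      · change constantCoeff (φ (X m)) = constantCoeff (X m)
        by_cases hm : m = i
        · rw [hm, hφi, map_zero, constantCoeff_X]
        · rw [hφ m hm]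
    exact congrArg (fun f => f B) h1
  have h0 : constantCoeff B ≠ 0 := by
    rw [← hc]
    exact (hu.map constantCoeff).ne_zero
  apply h0
  have h3 : coeff (Finsupp.single i 1 + 0) (X i * B) = coeff 0 B := coeff_X_mul 0 i B
  rw [add_zero, ← hB, hG.coeff_eq_zero (by rw [Finsupp.degree_single]; omega)] at h3
  rw [constantCoeff_eq, ← h3]

/-- Proof: induction on `s`: `G ∣ X i * P`: `X i` is prime and does not divide `G` (`hy_X`): `G * Q = X i * P`, so `X i ∣ Q`. -/
theorem hy_mul (hN : 3 ≤ N) (h2 : 2 ≤ n) (hG : G.IsHomogeneous n) (hs : Smd G) (i : Fin N)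
    (s : ℕ) {P : MvPolynomial (Fin N) κ} (h : G ∣ X i ^ s * P) : G ∣ P := by
  have h1 : IsRelPrime (X i : MvPolynomial (Fin N) κ) G :=
    X_prime.irreducible.isRelPrime_iff_not_dvd.2 (hy_X hN h2 hG hs i)
  exact (h1.pow_left (m := s)).symm.dvd_of_dvd_mul_left h

end GX
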