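import Mathlib

/-! The Koszul relation for powers of three variables. -/

open MvPolynomial

namespace GX

/-- The coefficient of a multiple of `X a ^ s` at a monomial with exponent `< s` at `a`. -/
private theorem coeff_X_pow_mul_zero {κ : Type} [CommRing κ] {N : ℕ} {a : Fin N} {s : ℕ}
    {d : Fin N →₀ ℕ} (hd : d a < s) (C : MvPolynomial (Fin N) κ) :
    coeff d (X a ^ s * C) = 0 := by
  rw [X_pow_eq_monomial, coeff_monomial_mul', if_neg]
  intro hle
  have h1 := hle a
  rw [Finsupp.single_eq_same] at h1
  omega

/-- Proof: a monomial of `C₁` which is not in the ideal `(X i ^ s, X j ^ s)` has exponents `< s` at `i` and at `j`; so has its product with `X k ^ s`, which does not appear in the other two terms (`coeff_mul_monomial'`, `X_pow_eq_monomial`). Then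
`mem_ideal_span_monomial_image` (or split `C₁` into the sum of the monomials with exponent `≥ s` at `i` and the others), `Ideal.mem_span_pair`. -/
theorem kz3 {κ : Type} [CommRing κ] {N : ℕ} {i j k : Fin N} (hij : i ≠ j) (hik : i ≠ k)
    (hjk : j ≠ k) {s : ℕ} {C₁ C₂ C₃ : MvPolynomial (Fin N) κ}
    (h : X k ^ s * C₁ + X i ^ s * C₂ + X j ^ s * C₃ = 0) :
    ∃ D D' : MvPolynomial (Fin N) κ, C₁ = X i ^ s * D + X j ^ s * D' := by
  have hmem : C₁ ∈ Ideal.span ((fun e : Fin N →₀ ℕ => monomial e (1 : κ)) ''
      ({Finsupp.single i s, Finsupp.single j s} : Set (Fin N →₀ ℕ))) := by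
    rw [mem_ideal_span_monomial_image]
    intro d hd
    by_contra hcon
    have hdi : d i < s := by
      by_contra hge
      exact hcon ⟨Finsupp.single i s, by simp, by
        rw [Finsupp.single_le_iff]; omega⟩
    have hdj : d j < s := by
      by_contra hge
      exact hcon ⟨Finsupp.single j s, by simp, by
        rw [Finsupp.single_le_iff]; omega⟩
    have hc := congrArg (coeff (Finsupp.single k s + d)) h
    rw [coeff_add, coeff_add, coeff_zero] at hc
    have e1 : coeff (Finsupp.single k s + d) (X k ^ s * C₁) = coeff d C₁ := by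
      rw [X_pow_eq_monomial, coeff_monomial_mul, one_mul]
    have e2 : coeff (Finsupp.single k s + d) (X i ^ s * C₂) = 0 := by
      apply coeff_X_pow_mul_zero
      rw [Finsupp.add_apply, Finsupp.single_apply, if_neg (Ne.symm hik), zero_add]
      exact hdi
    have e3 : coeff (Finsupp.single k s + d) (X j ^ s * C₃) = 0 := by
      apply coeff_X_pow_mul_zero
      rw [Finsupp.add_apply, Finsupp.single_apply, if_neg (Ne.symm hjk), zero_add]
      exact hdj
    rw [e1, e2, e3, add_zero, add_zero] at hc
    exact (mem_support_iff.mp hd) hc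
  rw [Set.image_pair, Ideal.mem_span_pair] at hmem
  obtain ⟨a, b, hab⟩ := hmem
  refine ⟨a, b, ?_⟩
  rw [← hab, X_pow_eq_monomial, X_pow_eq_monomial, mul_comm a, mul_comm b]

end GX
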