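import Pool.Agent.Lib.MP_f80667_ag.Gx.HyA

/-! Regular functions on the cone over a smooth hypersurface without the vertex are polynomials. -/

open MvPolynomial

namespace GX

variable {κ : Type} [Field κ] [IsAlgClosed κ] {N n : ℕ} {G : MvPolynomial (Fin N) κ}

/-- Proof: the polynomials `Q` for which there is an `A` with `Q M = A` on the cone without `0` form an ideal; it contains `G` (`A = 0`). The common zeros are `{0}` by the hypothesis, so `X i ^ s` is in it for all `i` (`GM.nst` for the family of all elements of the ideal; if `GM.nst` gives one `s` for all `i`). -/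
theorem hy_pow (M : (Fin N → κ) → κ) (hM : ∀ y, y ≠ 0 → eval y G = 0 →
      ∃ Q A : MvPolynomial (Fin N) κ, eval y Q ≠ 0 ∧
        ∀ x, x ≠ 0 → eval x G = 0 → eval x Q * M x = eval x A) :
    ∃ (s : ℕ) (A : Fin N → MvPolynomial (Fin N) κ), ∀ i x, x ≠ 0 → eval x G = 0 →
      x i ^ s * M x = eval x (A i) := by
  obtain ⟨I, hI⟩ : ∃ I : Ideal (MvPolynomial (Fin N) κ), ∀ Q, Q ∈ I ↔
      ∃ A : MvPolynomial (Fin N) κ, ∀ x, x ≠ 0 → eval x G = 0 →
        eval x Q * M x = eval x A := by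
    refine ⟨{ carrier := {Q | ∃ A : MvPolynomial (Fin N) κ, ∀ x, x ≠ 0 → eval x G = 0 →
                eval x Q * M x = eval x A}
              add_mem' := ?_
              zero_mem' := ?_
              smul_mem' := ?_ }, fun Q => Iff.rfl⟩
    · rintro P Q ⟨A, hA⟩ ⟨B, hB⟩
      refine ⟨A + B, fun x h0 h1 => ?_⟩
      rw [map_add, map_add, add_mul, hA x h0 h1, hB x h0 h1]
    · exact ⟨0, fun x _ _ => by rw [map_zero, zero_mul]⟩
    · rintro P Q ⟨A, hA⟩
      refine ⟨P * A, fun x h0 h1 => ?_⟩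
      rw [smul_eq_mul, map_mul, map_mul, mul_assoc, hA x h0 h1]
  obtain ⟨s, hs⟩ := GM.nst (k := κ) (K := κ) (ι := {Q : MvPolynomial (Fin N) κ // Q ∈ I})
    (fun Q => Q.1) (fun x hx => by
      by_contra h0
      have hx' : ∀ Q ∈ I, eval x Q = 0 := by
        intro Q hQ
        have h1 := hx ⟨Q, hQ⟩
        rw [aeval_eq_eval] at h1
        exact h1
      have hG : eval x G = 0 := hx' G ((hI G).2 ⟨0, fun y _ hy => by
        rw [hy, zero_mul, map_zero]⟩)
      obtain ⟨Q, A, h1, h2⟩ := hM x h0 hG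
      exact h1 (hx' Q ((hI Q).2 ⟨A, h2⟩)))
  have h1 : ∀ i, (X i : MvPolynomial (Fin N) κ) ^ s ∈ I := by
    intro i
    have h2 : Ideal.span (Set.range fun Q : {Q : MvPolynomial (Fin N) κ // Q ∈ I} => Q.1) ≤ I := by
      rw [Ideal.span_le]
      rintro _ ⟨Q, rfl⟩
      exact Q.2
    exact h2 (hs i)
  choose A hA using fun i => (hI _).1 (h1 i)
  refine ⟨s, A, fun i x h0 hx => ?_⟩
  have h2 := hA i x h0 hx
  rwa [map_pow, eval_X] at h2

end GX
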