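import Pool.Agent.Lib.MP_f80667_ag.Gx.HyAb
import Pool.Agent.Lib.MP_f80667_ag.Gx.HyB
import Pool.Agent.Lib.MP_f80667_ag.Gx.HyC

/-! Regular functions on the cone over a smooth hypersurface without the vertex are polynomials. -/

open MvPolynomial

namespace GX

variable {κ : Type} [Field κ] [IsAlgClosed κ] {N n : ℕ} {G : MvPolynomial (Fin N) κ}

/-- **Extension.** Proof: `hy_pow`: `X i ^ s M = A i`. For `i ≠ j`: `X i ^ s A j - X j ^ s A i = G C_ij` (`hy_dvd`). For three different indices `0`, `1`, `2` (`N ≥ 3`): `X 2 ^ s C_01 + X 0 ^ s C_12 + X 1 ^ s C_20 = 0` (multiply by `G`), so by `kz3` `C_01 = X 0 ^ s D + X 1 ^ s D'`: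
`X 0 ^ s (A 1 - G D) = X 1 ^ s (A 0 + G D')`, so `X 0 ^ s` divides `A 0 + G D'` (`X 0`, `X 1` are different primes): `A 0 + G D' = X 0 ^ s B`. So `X 0 ^ s (M - B) = 0` on the cone. For every `k`: `X 0 ^ s (A k - X k ^ s B)` vanishes on the cone, so `G ∣ A k - X k ^ s B` (`hy_dvd`, `hy_mul`),
`X k ^ s (M - B) = 0` on the cone; for `x ≠ 0` some `x k ≠ 0`. -/
theorem hy_ext (hN : 3 ≤ N) (h2 : 2 ≤ n) (hG : G.IsHomogeneous n) (hs : Smd G)
    (M : (Fin N → κ) → κ) (hM : ∀ y, y ≠ 0 → eval y G = 0 →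
      ∃ Q A : MvPolynomial (Fin N) κ, eval y Q ≠ 0 ∧
        ∀ x, x ≠ 0 → eval x G = 0 → eval x Q * M x = eval x A) :
    ∃ B : MvPolynomial (Fin N) κ, ∀ x, x ≠ 0 → eval x G = 0 → M x = eval x B := by
  obtain ⟨s, A, hA⟩ := hy_pow M hM
  have hN2 : 2 ≤ N := by omega
  have hG0 : G ≠ 0 := hy_ne (by omega) hs
  have hdv : ∀ i j : Fin N, ∃ C, X i ^ s * A j - X j ^ s * A i = G * C := by
    intro i j
    refine hy_dvd hN2 hs fun x hx hx0 => ?_
    rw [map_sub, map_mul, map_mul, map_pow, map_pow, eval_X, eval_X, ← hA i x hx hx0,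
      ← hA j x hx hx0]
    ring
  obtain ⟨i0, hi0⟩ : ∃ i : Fin N, i.val = 0 := ⟨⟨0, by omega⟩, rfl⟩
  obtain ⟨i1, hi1⟩ : ∃ i : Fin N, i.val = 1 := ⟨⟨1, by omega⟩, rfl⟩
  obtain ⟨i2, hi2⟩ : ∃ i : Fin N, i.val = 2 := ⟨⟨2, by omega⟩, rfl⟩
  have h01 : i0 ≠ i1 := fun h => by rw [h, hi1] at hi0; exact one_ne_zero hi0
  have h02 : i0 ≠ i2 := fun h => by rw [h, hi2] at hi0; exact two_ne_zero hi0
  have h12 : i1 ≠ i2 := fun h => by rw [h, hi2] at hi1; omega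
  obtain ⟨C01, hC01⟩ := hdv i0 i1
  obtain ⟨C12, hC12⟩ := hdv i1 i2
  obtain ⟨C20, hC20⟩ := hdv i2 i0
  have hsum : X i2 ^ s * C01 + X i0 ^ s * C12 + X i1 ^ s * C20 = 0 := by
    have h : G * (X i2 ^ s * C01 + X i0 ^ s * C12 + X i1 ^ s * C20) = 0 := by
      linear_combination (-(X i2 ^ s : MvPolynomial (Fin N) κ)) * hC01 - X i0 ^ s * hC12 -
        X i1 ^ s * hC20
    exact (mul_eq_zero.1 h).resolve_left hG0
  obtain ⟨D, D', hD⟩ := kz3 h01 h02 h12 hsum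
  have hp : Prime (X i0 : MvPolynomial (Fin N) κ) := X_prime
  have hnd : ¬ (X i0 : MvPolynomial (Fin N) κ) ∣ X i1 ^ s := fun h =>
    h01 (X_dvd_X.1 (hp.dvd_of_dvd_pow h))
  have hd : (X i0 : MvPolynomial (Fin N) κ) ^ s ∣ X i1 ^ s * (A i0 + G * D') := by
    refine ⟨A i1 - G * D, ?_⟩
    rw [hD] at hC01
    linear_combination -hC01
  obtain ⟨B, hB⟩ := hp.pow_dvd_of_dvd_mul_left s hnd hd
  refine ⟨B, fun x hx hx0 => ?_⟩
  obtain ⟨k, hk⟩ : ∃ k, x k ≠ 0 := by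
    by_contra h
    push Not at h
    exact hx (funext h)
  have hdk : G ∣ X i0 ^ s * (A k - X k ^ s * B) := by
    refine hy_dvd hN2 hs fun y hy hy0 => ?_
    have h1 := congrArg (eval y) hB
    rw [map_add, map_mul, hy0, zero_mul, add_zero, map_mul, map_pow, eval_X, ← hA i0 y hy hy0] at h1
    rw [map_mul, map_sub, map_mul, map_pow, map_pow, eval_X, eval_X, ← hA k y hy hy0]
    linear_combination y k ^ s * h1
  obtain ⟨E, hE⟩ := hy_mul hN h2 hG hs i0 s hdk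
  have h1 := congrArg (eval x) hE
  rw [map_mul, hx0, zero_mul, map_sub, map_mul, map_pow, eval_X, ← hA k x hx hx0, ← mul_sub] at h1
  exact sub_eq_zero.1 ((mul_eq_zero.1 h1).resolve_left (pow_ne_zero _ hk))

end GX
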