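import Pool.Agent.Lib.MP_f80667_ag.Gx.HyCb

/-! The homogeneous form of the extension theorem. -/

open MvPolynomial

namespace GX

variable {κ : Type} [Field κ] [IsAlgClosed κ] {N n : ℕ} {G : MvPolynomial (Fin N) κ}

private theorem hcc_smul {F : MvPolynomial (Fin N) κ} {e : ℕ} (hF : F.IsHomogeneous e)
    (x : Fin N → κ) (t : κ) : eval (t • x) F = t ^ e * eval x F := by
  rw [MvPolynomial.eval_eq, MvPolynomial.eval_eq, Finset.mul_sum]
  refine Finset.sum_congr rfl fun m hm => ?_
  have h1 : m.degree = e := by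
    by_contra h
    exact mem_support_iff.1 hm (hF.coeff_eq_zero h)
  have h3 : ∏ i ∈ m.support, (t • x) i ^ m i = t ^ e * ∏ i ∈ m.support, x i ^ m i := by
    rw [← h1, Finsupp.degree_apply, ← Finset.prod_pow_eq_pow_sum, ← Finset.prod_mul_distrib]
    exact Finset.prod_congr rfl fun i _ => mul_pow _ _ _
  rw [h3]
  ring

/-- The homogeneous form. Proof: `hy_ext`; `B (c x) = c ^ k B (x)` for `c ≠ 0` and `x` on the cone: comparing the coefficients of the polynomial in `c` (`κ` is infinite) the component of degree `k` of `B` has the value `B (x)`; take it. -/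
theorem hy_exth (hN : 3 ≤ N) (h2 : 2 ≤ n) (hG : G.IsHomogeneous n) (hs : Smd G)
    (M : (Fin N → κ) → κ) (hM : ∀ y, y ≠ 0 → eval y G = 0 →
      ∃ Q A : MvPolynomial (Fin N) κ, eval y Q ≠ 0 ∧
        ∀ x, x ≠ 0 → eval x G = 0 → eval x Q * M x = eval x A) {k : ℕ}
    (hk : ∀ (c : κ) x, c ≠ 0 → x ≠ 0 → eval x G = 0 → M (c • x) = c ^ k * M x) :
    ∃ B : MvPolynomial (Fin N) κ, B.IsHomogeneous k ∧
      ∀ x, x ≠ 0 → eval x G = 0 → M x = eval x B := by
  classical
  obtain ⟨B, hB⟩ := hy_ext hN h2 hG hs M hM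
  refine ⟨homogeneousComponent k B, homogeneousComponent_isHomogeneous k B, fun x hx hx0 => ?_⟩
  obtain ⟨P, hP⟩ : ∃ P : Polynomial κ, P = (∑ i ∈ Finset.range (B.totalDegree + 1),
      Polynomial.C (eval x (homogeneousComponent i B)) * Polynomial.X ^ i) -
        Polynomial.C (M x) * Polynomial.X ^ k := ⟨_, rfl⟩
  have hroot : ∀ c : κ, c ≠ 0 → P.IsRoot c := by
    intro c hc
    have h1 : c • x ≠ 0 := smul_ne_zero hc hx
    have h3 : eval (c • x) G = 0 := by rw [hcc_smul hG, hx0, mul_zero]
    have h4 : c ^ k * M x = eval (c • x) B := by rw [← hk c x hc hx hx0, hB _ h1 h3]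
    have h5 : eval (c • x) B = ∑ i ∈ Finset.range (B.totalDegree + 1),
        eval x (homogeneousComponent i B) * c ^ i := by
      conv_lhs => rw [← sum_homogeneousComponent B]
      rw [map_sum]
      refine Finset.sum_congr rfl fun i _ => ?_
      rw [hcc_smul (homogeneousComponent_isHomogeneous i B), mul_comm]
    rw [Polynomial.IsRoot, hP, Polynomial.eval_sub, Polynomial.eval_finset_sum]
    simp only [Polynomial.eval_mul, Polynomial.eval_C, Polynomial.eval_pow, Polynomial.eval_X]
    rw [← h5, ← h4, mul_comm, sub_self]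
  have hP0 : P = 0 := by
    refine Polynomial.eq_zero_of_infinite_isRoot P ?_
    have h1 : ({0}ᶜ : Set κ).Infinite := (Set.finite_singleton (0 : κ)).infinite_compl
    exact h1.mono fun c hc => hroot c hc
  have hc := congrArg (fun q : Polynomial κ => q.coeff k) hP0
  simp only [hP, Polynomial.coeff_sub, Polynomial.finset_sum_coeff, Polynomial.coeff_C_mul,
    Polynomial.coeff_X_pow, mul_ite, mul_one, mul_zero, Polynomial.coeff_zero, if_true] at hc
  rw [Finset.sum_ite_eq] at hc
  by_cases hkd : k ∈ Finset.range (B.totalDegree + 1)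
  · rw [if_pos hkd] at hc
    exact (sub_eq_zero.1 hc).symm
  · rw [if_neg hkd] at hc
    have h6 : B.totalDegree < k := by
      rw [Finset.mem_range] at hkd
      omega
    rw [homogeneousComponent_eq_zero k B h6, map_zero]
    exact (sub_eq_zero.1 hc).symm

end GX
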