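import Pool.Agent.Lib.MP_f80667_ag.Gx.HyA
import Pool.Agent.Lib.MP_f80667_ag.Gm.KoB

/-! Syzygies of the partial derivatives. -/

open MvPolynomial

namespace GX

variable {κ : Type} [Field κ] {N n : ℕ} {G : MvPolynomial (Fin N) κ}

private theorem hyD_hc {n : ℕ} {G : MvPolynomial (Fin N) κ} (hG : G.IsHomogeneous n)
    (S : MvPolynomial (Fin N) κ) (k : ℕ) :
    homogeneousComponent (n + k) (G * S) = G * homogeneousComponent k S := by
  have h1 : ∀ r, homogeneousComponent (n + k) (G * homogeneousComponent r S) =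
      if r = k then G * homogeneousComponent k S else 0 := by
    intro r
    have h2 : G * homogeneousComponent r S ∈ homogeneousSubmodule (Fin N) κ (n + r) :=
      hG.mul (homogeneousComponent_isHomogeneous r S)
    rw [homogeneousComponent_of_mem h2]
    by_cases h : r = k
    · rw [if_pos h, if_pos (by omega), h]
    · rw [if_neg h, if_neg (by omega)]
  conv_lhs => rw [← sum_homogeneousComponent S, Finset.mul_sum, map_sum]
  simp only [h1]
  rw [Finset.sum_ite_eq']
  split_ifs with h
  · rfl
  · rw [Finset.mem_range] at h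
    rw [homogeneousComponent_eq_zero k S (by omega), mul_zero]

/-- Proof: copy of `GM.Hy.R_zero` (`Gm/AlG.lean`) which uses of `Hy` only: `2 ≤ n`, `4 ≤ N`, `n ≠ 0` in `κ`, `G` homogeneous of degree `n`, `smooth` (`Smd G`): `R_ij G_l + R_jl G_i + R_li G_j = G S`, Euler's formula, `syz_zero`. -/
theorem hy_R (h2 : 2 ≤ n) (hN : 4 ≤ N) (hn : (n : κ) ≠ 0) (hG : G.IsHomogeneous n)
    (hs : Smd G) {R : Fin N → Fin N → MvPolynomial (Fin N) κ}
    (hR : ∀ i m, (R i m).IsHomogeneous (n - 2))
    (hc : ∀ i j l, i ≠ j → j ≠ l → l ≠ i →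
      G ∣ R i j * pderiv l G + R j l * pderiv i G + R l i * pderiv j G) {i j : Fin N}
    (hij : i ≠ j) : R i j = 0 := by
  classical
  -- two further indices
  have hcard : 2 ≤ (((Finset.univ : Finset (Fin N)).erase i).erase j).card := by
    rw [Finset.card_erase_of_mem (Finset.mem_erase.2 ⟨hij.symm, Finset.mem_univ j⟩),
      Finset.card_erase_of_mem (Finset.mem_univ i), Finset.card_univ, Fintype.card_fin]
    omega
  obtain ⟨l, hl, s, hs1, hls⟩ := Finset.one_lt_card.1 (by omega :
    1 < (((Finset.univ : Finset (Fin N)).erase i).erase j).card)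
  have hlj : l ≠ j := Finset.ne_of_mem_erase hl
  have hli : l ≠ i := Finset.ne_of_mem_erase (Finset.mem_of_mem_erase hl)
  have hsj : s ≠ j := Finset.ne_of_mem_erase hs1
  have hsi : s ≠ i := Finset.ne_of_mem_erase (Finset.mem_of_mem_erase hs1)
  have hpd : ∀ a : Fin N, (pderiv a G).IsHomogeneous (n - 1) := fun a => hG.pderiv
  have hG0 : G ≠ 0 := hy_ne (by omega) hs
  -- the quotient, homogeneous
  obtain ⟨S, hSh, hSE⟩ : ∃ S : MvPolynomial (Fin N) κ,
      (∀ a : Fin N, (S * X a).IsHomogeneous (n - 2)) ∧
      R i j * pderiv l G + R j l * pderiv i G + R l i * pderiv j G = G * S := by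
    obtain ⟨S, hS⟩ := hc i j l hij hlj.symm hli
    have hE : (R i j * pderiv l G + R j l * pderiv i G + R l i * pderiv j G).IsHomogeneous
        (n - 2 + (n - 1)) :=
      (((hR i j).mul (hpd l)).add ((hR j l).mul (hpd i))).add ((hR l i).mul (hpd j))
    by_cases hn3 : 3 ≤ n
    · refine ⟨homogeneousComponent (n - 3) S, fun a => ?_, ?_⟩
      · have h1 := (homogeneousComponent_isHomogeneous (n - 3) S).mul (isHomogeneous_X κ a)
        rwa [show n - 3 + 1 = n - 2 by omega] at h1
      · rw [← hyD_hc hG S (n - 3), ← hS]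
        have h1 := homogeneousComponent_of_mem (m := n + (n - 3)) (n := n - 2 + (n - 1))
          ((mem_homogeneousSubmodule _ _).2 hE)
        rw [h1, if_pos (by omega)]
    · refine ⟨0, fun a => ?_, ?_⟩
      · rw [zero_mul]
        exact isHomogeneous_zero _ _ _
      · rw [mul_zero]
        by_contra hne
        have hS0 : S ≠ 0 := by
          rintro rfl
          rw [mul_zero] at hS
          exact hne hS
        have h1 := hE.totalDegree hne
        rw [hS, totalDegree_mul_of_isDomain hG0 hS0, hG.totalDegree hG0] at h1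
        omega
  -- the syzygy
  obtain ⟨c, hcd⟩ : ∃ c : Fin N → MvPolynomial (Fin N) κ, c = fun a =>
      (if a = l then C (n : κ) * R i j else 0) + (if a = i then C (n : κ) * R j l else 0) +
        (if a = j then C (n : κ) * R l i else 0) - S * X a := ⟨_, rfl⟩
  have hch : ∀ a, (c a).IsHomogeneous (n - 2) := by
    intro a
    rw [hcd]
    have h1 : ∀ (q : Prop) [Decidable q] (Q : MvPolynomial (Fin N) κ), Q.IsHomogeneous (n - 2) →
        (if q then C (n : κ) * Q else 0).IsHomogeneous (n - 2) := by
      intro q _ Q hQ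
      split_ifs
      · have h2 := (isHomogeneous_C (Fin N) (n : κ)).mul hQ
        rwa [zero_add] at h2
      · exact isHomogeneous_zero _ _ _
    exact (((h1 _ _ (hR i j)).add (h1 _ _ (hR j l))).add (h1 _ _ (hR l i))).sub (hSh a)
  have hsum : ∑ a, c a * pderiv a G = 0 := by
    have hE : ∑ a, (X a : MvPolynomial (Fin N) κ) * pderiv a G = C (n : κ) * G := by
      have h1 := hG.sum_X_mul_pderiv
      rw [h1, nsmul_eq_mul]
      simp
    have h2 : ∑ a, S * X a * pderiv a G = S * (C (n : κ) * G) := by
      rw [← hE, Finset.mul_sum]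
      exact Finset.sum_congr rfl fun a _ => mul_assoc _ _ _
    rw [hcd]
    simp only [sub_mul, add_mul, ite_mul, zero_mul, Finset.sum_sub_distrib, Finset.sum_add_distrib,
      Finset.sum_ite_eq', Finset.mem_univ, if_true]
    rw [h2]
    linear_combination C (n : κ) * hSE
  obtain ⟨e, he⟩ := hs
  have hz := GM.syz_zero (b := fun a => pderiv a G) (c := c) he hpd hch (by omega) hsum
  have hcs := hz s
  have hS0 : S = 0 := by
    rw [hcd] at hcs
    simp only [if_neg hls.symm, if_neg hsi, if_neg hsj, zero_add, zero_sub, neg_eq_zero] at hcs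
    exact (mul_eq_zero.1 hcs).resolve_right (X_ne_zero s)
  have hcl := hz l
  rw [hcd] at hcl
  simp only [if_true, if_neg hli, if_neg hlj, add_zero, hS0, zero_mul, sub_zero] at hcl
  refine (mul_eq_zero.1 hcl).resolve_left fun h => hn ?_
  exact (map_eq_zero_iff C (C_injective (Fin N) κ)).1 h

end GX
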