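import Pool.Agent.Lib.MP_f80667_ag.Gx.Lt

/-! Forms are linear; the tangent vectors of a hypersurface. -/

open MvPolynomial

namespace GX

variable {κ : Type} [Field κ] {N n : ℕ} {G : MvPolynomial (Fin N) κ}

/-- The tangent vector `G_m e_i - G_i e_m`. -/
noncomputable def hyt (G : MvPolynomial (Fin N) κ) (i m : Fin N) (x : Fin N → κ) : Fin N → κ :=
  eval x (pderiv m G) • Pi.single i 1 - eval x (pderiv i G) • Pi.single m 1

/-- Linearity. Proof: `reg` near `x`. -/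
theorem frm_add {ι : Type} {f : ι → MvPolynomial (Fin N) κ} {ℓ : (Fin N → κ) → (Fin N → κ) → κ}
    (h : Frm f ℓ) {x t t' : Fin N → κ} (ht : Tg f x t) (ht' : Tg f x t') :
    ℓ x (t + t') = ℓ x t + ℓ x t' := by
  obtain ⟨Q, A, hQ, hA⟩ := h.reg x ht.1
  refine mul_left_cancel₀ hQ ?_
  rw [mul_add, hA x _ (tg_add ht ht') hQ, hA x t ht hQ, hA x t' ht' hQ, ← Finset.sum_add_distrib]
  exact Finset.sum_congr rfl fun j _ => by rw [Pi.add_apply, mul_add]

/-- Proof: `reg` near `x`. -/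
theorem frm_smul {ι : Type} {f : ι → MvPolynomial (Fin N) κ}
    {ℓ : (Fin N → κ) → (Fin N → κ) → κ} (h : Frm f ℓ) {x t : Fin N → κ} (ht : Tg f x t) (c : κ) :
    ℓ x (c • t) = c * ℓ x t := by
  obtain ⟨Q, A, hQ, hA⟩ := h.reg x ht.1
  refine mul_left_cancel₀ hQ ?_
  rw [hA x _ (tg_smul ht c) hQ, mul_left_comm, hA x t ht hQ, Finset.mul_sum]
  exact Finset.sum_congr rfl fun j _ => by rw [Pi.smul_apply, smul_eq_mul, mul_left_comm]

theorem hyt_tg {i m : Fin N} {x : Fin N → κ} (hx : x ≠ 0) (h0 : eval x G = 0) :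
    Tg (fun _ : Unit => G) x (hyt G i m x) := by
  refine ⟨⟨hx, fun _ => h0⟩, fun _ => ?_⟩
  simp only [hyt, Pi.sub_apply, Pi.smul_apply, smul_eq_mul, mul_sub, Finset.sum_sub_distrib]
  rw [Finset.sum_eq_single i, Finset.sum_eq_single m, Pi.single_eq_same, Pi.single_eq_same]
  · ring
  · intro b _ hb
    rw [Pi.single_eq_of_ne hb, mul_zero, mul_zero]
  · intro hs
    exact absurd (Finset.mem_univ m) hs
  · intro b _ hb
    rw [Pi.single_eq_of_ne hb, mul_zero, mul_zero]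
  · intro hs
    exact absurd (Finset.mem_univ i) hs

end GX
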