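import Pool.Agent.Lib.MP_f80667_ag.Gx.HyCc
import Pool.Agent.Lib.MP_f80667_ag.Gx.HyDb

/-! The polynomials of a form on a smooth hypersurface. -/

open MvPolynomial

namespace GX

variable {κ : Type} [Field κ] {N n : ℕ} {G : MvPolynomial (Fin N) κ}

private theorem hyDc_hom {P : MvPolynomial (Fin N) κ} {k : ℕ} (hP : P.IsHomogeneous k) (c : κ)
    (x : Fin N → κ) : eval (c • x) P = c ^ k * eval x P := by
  rw [eval_eq', eval_eq', Finset.mul_sum]
  refine Finset.sum_congr rfl fun d hd => ?_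
  have h1 : d.degree = k := by
    by_contra h
    exact (mem_support_iff.1 hd) (hP.coeff_eq_zero h)
  have h2 : ∏ i, (c • x) i ^ d i = c ^ k * ∏ i, x i ^ d i := by
    rw [← h1, Finsupp.degree_eq_sum, ← Finset.prod_pow_eq_pow_sum, ← Finset.prod_mul_distrib]
    refine Finset.prod_congr rfl fun i _ => ?_
    rw [Pi.smul_apply, smul_eq_mul, mul_pow]
  rw [h2]
  ring

private theorem hyDc_smul {ι : Type} {f : ι → MvPolynomial (Fin N) κ} {x t : Fin N → κ}
    (ht : Tg f x t) (c : κ) : Tg f x (c • t) := by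
  refine ⟨ht.1, fun i => ?_⟩
  have h1 : ∑ j, eval x (pderiv j (f i)) * (c • t) j =
      c * ∑ j, eval x (pderiv j (f i)) * t j := by
    rw [Finset.mul_sum]
    refine Finset.sum_congr rfl fun j _ => ?_
    rw [Pi.smul_apply, smul_eq_mul]
    ring
  rw [h1, ht.2 i, mul_zero]

private theorem hyDc_add {ι : Type} {f : ι → MvPolynomial (Fin N) κ} {x t t' : Fin N → κ}
    (ht : Tg f x t) (ht' : Tg f x t') : Tg f x (t + t') := by
  refine ⟨ht.1, fun i => ?_⟩
  have h1 : ∑ j, eval x (pderiv j (f i)) * (t + t') j =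
      ∑ j, eval x (pderiv j (f i)) * t j + ∑ j, eval x (pderiv j (f i)) * t' j := by
    rw [← Finset.sum_add_distrib]
    refine Finset.sum_congr rfl fun j _ => ?_
    rw [Pi.add_apply]
    ring
  rw [h1, ht.2 i, ht'.2 i, add_zero]

private theorem hyDc_sum (A : Fin N → MvPolynomial (Fin N) κ) (i m : Fin N) (x : Fin N → κ) :
    ∑ j, eval x (A j) * hyt G i m x j =
      eval x (A i) * eval x (pderiv m G) - eval x (A m) * eval x (pderiv i G) := by
  classical
  have h1 : ∀ j, eval x (A j) * hyt G i m x j =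
      (if j = i then eval x (A j) * eval x (pderiv m G) else 0) -
        (if j = m then eval x (A j) * eval x (pderiv i G) else 0) := fun j => by
    unfold hyt
    rw [Pi.sub_apply, Pi.smul_apply, Pi.smul_apply, Pi.single_apply, Pi.single_apply, smul_eq_mul,
      smul_eq_mul]
    split_ifs <;> ring
  rw [Finset.sum_congr rfl fun j _ => h1 j, Finset.sum_sub_distrib, Finset.sum_ite_eq',
    Finset.sum_ite_eq', if_pos (Finset.mem_univ i), if_pos (Finset.mem_univ m)]

/-- Proof: `hy_exth` for `M x = ℓ x (hyt G i m x)` and `k = n - 2`: locally `Q M = ∑ A_j (hyt)_j` (`reg`; multiply by `Q` to get it also where `Q = 0`), `M (c x) = ℓ (c x) (c (c ^ (n - 2) hyt)) = c ^ (n - 2) M x` (`Frm.hom`, `frm_smul`). The cyclic relation: `G_l hyt i j + G_i hyt j l + G_j hyt l i = 0`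
(`frm_add`, `frm_smul`), `hy_dvd`. -/
theorem hy_exR [IsAlgClosed κ] (h2 : 2 ≤ n) (hN : 3 ≤ N) (hG : G.IsHomogeneous n) (hs : Smd G)
    {ℓ : (Fin N → κ) → (Fin N → κ) → κ} (h : Frm (fun _ : Unit => G) ℓ) :
    ∃ R : Fin N → Fin N → MvPolynomial (Fin N) κ, (∀ i m, (R i m).IsHomogeneous (n - 2)) ∧
      (∀ i m x, x ≠ 0 → eval x G = 0 → ℓ x (hyt G i m x) = eval x (R i m)) ∧
      ∀ i j l, i ≠ j → j ≠ l → l ≠ i →
        G ∣ R i j * pderiv l G + R j l * pderiv i G + R l i * pderiv j G := by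
  have hT : ∀ i m x, x ≠ 0 → eval x G = 0 → Tg (fun _ : Unit => G) x (hyt G i m x) :=
    fun i m x hx h0 => hyt_tg hx h0
  have key : ∀ i m, ∃ B : MvPolynomial (Fin N) κ, B.IsHomogeneous (n - 2) ∧
      ∀ x, x ≠ 0 → eval x G = 0 → ℓ x (hyt G i m x) = eval x B := by
    intro i m
    refine hy_exth hN h2 hG hs (fun x => ℓ x (hyt G i m x)) ?_ ?_
    · intro y hy h0
      obtain ⟨Q, A, hQ, hA⟩ := h.reg y ⟨hy, fun _ => h0⟩
      refine ⟨Q ^ 2, Q * (A i * pderiv m G - A m * pderiv i G), ?_, fun x hx hx0 => ?_⟩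
      · rw [map_pow]
        exact pow_ne_zero 2 hQ
      · rw [map_pow, map_mul, map_sub, map_mul, map_mul, ← hyDc_sum A i m x]
        by_cases hQx : eval x Q = 0
        · rw [hQx]
          ring
        · rw [← hA x _ (hT i m x hx hx0) hQx]
          ring
    · intro c x hc hx hx0
      have h1 : hyt G i m (c • x) = c • (c ^ (n - 2) • hyt G i m x) := by
        unfold hyt
        rw [hyDc_hom hG.pderiv c x, hyDc_hom hG.pderiv c x, show n - 1 = n - 2 + 1 by omega]
        funext j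
        simp only [Pi.sub_apply, Pi.smul_apply, smul_eq_mul]
        ring
      change ℓ (c • x) (hyt G i m (c • x)) = c ^ (n - 2) * ℓ x (hyt G i m x)
      rw [h1, h.hom x _ c hc (hyDc_smul (hT i m x hx hx0) _), frm_smul h (hT i m x hx hx0)]
  choose R hR1 hR2 using key
  refine ⟨R, hR1, fun i m x hx h0 => hR2 i m x hx h0, fun i j l _ _ _ => ?_⟩
  refine hy_dvd (by omega) hs fun x hx h0 => ?_
  rw [map_add, map_add, map_mul, map_mul, map_mul, ← hR2 i j x hx h0, ← hR2 j l x hx h0,
    ← hR2 l i x hx h0]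
  have t1 := hyDc_smul (hT i j x hx h0) (eval x (pderiv l G))
  have t2 := hyDc_smul (hT j l x hx h0) (eval x (pderiv i G))
  have t3 := hyDc_smul (hT l i x hx h0) (eval x (pderiv j G))
  have h1 : ℓ x (hyt G i j x) * eval x (pderiv l G) + ℓ x (hyt G j l x) * eval x (pderiv i G) +
      ℓ x (hyt G l i x) * eval x (pderiv j G) =
      ℓ x (eval x (pderiv l G) • hyt G i j x + eval x (pderiv i G) • hyt G j l x +
        eval x (pderiv j G) • hyt G l i x) := by
    rw [frm_add h (hyDc_add t1 t2) t3, frm_add h t1 t2, frm_smul h (hT i j x hx h0),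
      frm_smul h (hT j l x hx h0), frm_smul h (hT l i x hx h0)]
    ring
  have h3 : eval x (pderiv l G) • hyt G i j x + eval x (pderiv i G) • hyt G j l x +
        eval x (pderiv j G) • hyt G l i x = (0 : κ) • hyt G i j x := by
    unfold hyt
    funext k
    simp only [Pi.sub_apply, Pi.add_apply, Pi.smul_apply, smul_eq_mul]
    ring
  rw [h1, h3, frm_smul h (hT i j x hx h0), zero_mul]

end GX
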