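import Pool.Agent.Lib.MP_f80667_ag.Gx.HyD
import Pool.Agent.Lib.MP_f80667_ag.Gx.HyDc

/-! There are no global `1`-forms on smooth hypersurfaces of dimension `≥ 2`. -/

open MvPolynomial

namespace GX

variable {κ : Type} [Field κ] {N n : ℕ} {G : MvPolynomial (Fin N) κ}

/-- **No forms.** Proof: `hy_exR`, `hy_R`: `ℓ x (hyt G i m x) = 0` for `i ≠ m`. For a tangent vector `t` at `x` some `G_m (x) ≠ 0` (`Smd`: otherwise `x i ^ s = 0` for all `i`), and `G_m t = ∑_{i ≠ m} t_i hyt G i m x` (at the coordinate `m`: `∑_{i ≠ m} - t_i G_i = t_m G_m`); `frm_add`,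
`frm_smul` (sums by induction). -/
theorem nofrm_hy [IsAlgClosed κ] (h2 : 2 ≤ n) (hN : 4 ≤ N) (hn : (n : κ) ≠ 0)
    (hG : G.IsHomogeneous n) (hs : Smd G) : NoFrm fun _ : Unit => G := by
  intro ℓ h x t ht
  have hx : x ≠ 0 := ht.1.1
  have h0 : eval x G = 0 := ht.1.2 ()
  obtain ⟨R, hR, hRe, hRc⟩ := hy_exR h2 (by omega) hG hs h
  -- some partial derivative does not vanish
  obtain ⟨m, hm⟩ : ∃ m, eval x (pderiv m G) ≠ 0 := by
    by_contra hcon
    push Not at hcon
    apply hx
    funext i
    obtain ⟨s, hs1⟩ := hs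
    have h3 : Ideal.span (Set.range fun j => pderiv j G) ≤ RingHom.ker (eval x) := by
      rw [Ideal.span_le]
      rintro _ ⟨j, rfl⟩
      exact hcon j
    have h4 : eval x ((X i : MvPolynomial (Fin N) κ) ^ s) = 0 := h3 (hs1 i)
    rw [map_pow, eval_X] at h4
    by_contra hne
    exact pow_ne_zero s (show x i ≠ 0 from hne) h4
  obtain ⟨Q, A, hQ, hA⟩ := h.reg x ht.1
  -- the relation on the coefficients
  have h5 : ∀ i, eval x (A i) * eval x (pderiv m G) = eval x (A m) * eval x (pderiv i G) := by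
    intro i
    by_cases him : i = m
    · rw [him]
    · have h6 := hA x _ (hyt_tg (i := i) (m := m) hx h0) hQ
      rw [hRe i m x hx h0, hy_R h2 hN hn hG hs hR hRc him, map_zero, mul_zero] at h6
      simp only [hyt, Pi.sub_apply, Pi.smul_apply, smul_eq_mul, mul_sub,
        Finset.sum_sub_distrib] at h6
      rw [Finset.sum_eq_single i, Finset.sum_eq_single m, Pi.single_eq_same, Pi.single_eq_same,
        mul_one, mul_one] at h6
      · exact (sub_eq_zero.1 h6.symm)
      · intro b _ hb
        rw [Pi.single_eq_of_ne hb, mul_zero, mul_zero]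
      · intro hs
        exact absurd (Finset.mem_univ m) hs
      · intro b _ hb
        rw [Pi.single_eq_of_ne hb, mul_zero, mul_zero]
      · intro hs
        exact absurd (Finset.mem_univ i) hs
  have h7 : eval x (pderiv m G) * (eval x Q * ℓ x t) = 0 := by
    rw [hA x t ht hQ, Finset.mul_sum]
    have h8 : ∀ j, eval x (pderiv m G) * (eval x (A j) * t j) =
        eval x (A m) * (eval x (pderiv j G) * t j) := by
      intro j
      linear_combination t j * h5 j
    rw [Finset.sum_congr rfl fun j _ => h8 j, ← Finset.mul_sum, ht.2 (), mul_zero]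
  exact (mul_eq_zero.1 ((mul_eq_zero.1 h7).resolve_left hm)).resolve_left hQ

end GX
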