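import Mathlib

/-! The factors of a homogeneous polynomial are homogeneous. -/

open MvPolynomial

namespace GX

variable {F : Type} [Field F] {N n : ℕ}

private noncomputable def hyeG : MvPolynomial (Fin N) F →ₐ[F] Polynomial (MvPolynomial (Fin N) F) :=
  MvPolynomial.aeval (fun i => Polynomial.C (X i) * Polynomial.X)

private theorem hye_mono (s : Fin N →₀ ℕ) (c : F) :
    hyeG (monomial s c) = Polynomial.monomial s.degree (monomial s c) := by
  unfold hyeG
  rw [MvPolynomial.aeval_monomial]
  have h1 : (s.prod fun i k => (Polynomial.C (X i : MvPolynomial (Fin N) F) * Polynomial.X) ^ k)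
      = Polynomial.C (s.prod fun i k => (X i : MvPolynomial (Fin N) F) ^ k)
        * Polynomial.X ^ s.degree := by
    simp only [Finsupp.prod, mul_pow, Finset.prod_mul_distrib, map_prod, map_pow]
    rw [Finset.prod_pow_eq_pow_sum]
    rfl
  rw [h1, ← Polynomial.C_mul_X_pow_eq_monomial, MvPolynomial.monomial_eq, map_mul, ← mul_assoc]
  congr 2

private theorem hye_coeff (A : MvPolynomial (Fin N) F) (k : ℕ) :
    (hyeG A).coeff k = homogeneousComponent k A := by
  induction A using MvPolynomial.induction_on' with
  | monomial s c =>
    rw [hye_mono, Polynomial.coeff_monomial]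
    split_ifs with h
    · rw [homogeneousComponent_eq_self]
      exact isHomogeneous_monomial c h
    · symm
      rw [homogeneousComponent_of_mem (m := k) (n := s.degree)
        ((mem_homogeneousSubmodule _ _).2 (isHomogeneous_monomial c rfl))]
      rw [if_neg]
      intro h'
      exact h h'.symm
  | add p q hp hq => rw [map_add, Polynomial.coeff_add, hp, hq, map_add]

private theorem hye_hom {A : MvPolynomial (Fin N) F} {a : ℕ} {P : MvPolynomial (Fin N) F}
    (h : hyeG A = Polynomial.monomial a P) : A.IsHomogeneous a := by
  have h1 : A = homogeneousComponent a A := by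
    conv_lhs => rw [← sum_homogeneousComponent A]
    have h2 : ∀ k, k ≠ a → homogeneousComponent k A = 0 := by
      intro k hk
      rw [← hye_coeff, h, Polynomial.coeff_monomial, if_neg (Ne.symm hk)]
    by_cases ha : a ∈ Finset.range (A.totalDegree + 1)
    · rw [Finset.sum_eq_single a (fun k _ hk => h2 k hk) (fun h' => absurd ha h')]
    · rw [Finset.sum_eq_zero, homogeneousComponent_eq_zero]
      · simpa using ha
      · intro k hk
        exact h2 k (fun h' => ha (h' ▸ hk))
  rw [h1]
  exact homogeneousComponent_isHomogeneous a A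

private theorem hye_inj {A : MvPolynomial (Fin N) F} (h : hyeG A = 0) : A = 0 := by
  have h1 : A.IsHomogeneous 0 := hye_hom (P := 0) (by simpa using h)
  have h2 := hye_coeff A 0
  rw [h, Polynomial.coeff_zero, homogeneousComponent_eq_self h1] at h2
  exact h2.symm

private theorem hye_split {R : Type*} [CommRing R] [IsDomain R] {P Q : Polynomial R} {n : ℕ} {c : R}
    (hP : P ≠ 0) (hQ : Q ≠ 0) (h : P * Q = Polynomial.monomial n c) :
    P.natTrailingDegree = P.natDegree ∧ Q.natTrailingDegree = Q.natDegree
      ∧ P.natDegree + Q.natDegree = n := by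
  have hc : c ≠ 0 := by
    rintro rfl
    rw [map_zero] at h
    exact mul_ne_zero hP hQ h
  have h1 := Polynomial.natDegree_mul hP hQ
  have h2 := Polynomial.natTrailingDegree_mul hP hQ
  rw [h, Polynomial.natDegree_monomial_eq n hc] at h1
  rw [h, Polynomial.natTrailingDegree_monomial hc] at h2
  have h3 := Polynomial.natTrailingDegree_le_natDegree P
  have h4 := Polynomial.natTrailingDegree_le_natDegree Q
  omega

private theorem hye_mon {R : Type*} [CommRing R] {P : Polynomial R}
    (h : P.natTrailingDegree = P.natDegree) :
    P = Polynomial.monomial P.natDegree P.leadingCoeff := by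
  ext k
  rw [Polynomial.coeff_monomial]
  split_ifs with hk
  · rw [← hk]; rfl
  · rcases lt_or_gt_of_ne hk with h' | h'
    · exact Polynomial.coeff_eq_zero_of_natDegree_lt h'
    · exact Polynomial.coeff_eq_zero_of_lt_natTrailingDegree (by omega)

/-- The factors of a homogeneous polynomial are homogeneous. Proof: the products of the components of lowest and of highest degree. -/
theorem hom_fac {A B : MvPolynomial (Fin N) F} (h0 : A * B ≠ 0) (h : (A * B).IsHomogeneous n) :
    ∃ a b, a + b = n ∧ A.IsHomogeneous a ∧ B.IsHomogeneous b := by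
  have hA : hyeG A ≠ 0 := fun h' => h0 (by rw [hye_inj h', zero_mul])
  have hB : hyeG B ≠ 0 := fun h' => h0 (by rw [hye_inj h', mul_zero])
  have h1 : hyeG A * hyeG B = Polynomial.monomial n (A * B) := by
    rw [← map_mul]
    ext1 k
    rw [hye_coeff, Polynomial.coeff_monomial]
    split_ifs with hk
    · rw [← hk, homogeneousComponent_eq_self h]
    · rw [homogeneousComponent_of_mem (m := k) (n := n) ((mem_homogeneousSubmodule _ _).2 h)]
      rw [if_neg]
      intro h'
      exact hk h'.symm
  obtain ⟨h2, h3, h4⟩ := hye_split hA hB h1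
  exact ⟨_, _, h4, hye_hom (hye_mon h2), hye_hom (hye_mon h3)⟩

end GX
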