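import Mathlib

/-! Two forms in three variables have a common zero. -/

open MvPolynomial

namespace GX

variable {F : Type} [Field F] {N : ℕ}

/-- The homomorphism which puts the first `k` variables to `0`. -/
private noncomputable def tfk (F : Type) [Field F] (N k : ℕ) :
    MvPolynomial (Fin N) F →ₐ[F] MvPolynomial (Fin N) F :=
  aeval fun i => if (i : ℕ) < k then 0 else X i

private theorem tfk_X (k : ℕ) (i : Fin N) :
    tfk F N k (X i) = if (i : ℕ) < k then 0 else X i := aeval_X _ _

private theorem tfk_le (k : ℕ) : RingHom.ker (tfk F N k) ≤ RingHom.ker (tfk F N (k + 1)) := by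
  intro P hP
  rw [RingHom.mem_ker] at hP ⊢
  have h : (tfk F N (k + 1)).comp (tfk F N k) = tfk F N (k + 1) := by
    refine MvPolynomial.algHom_ext fun i => ?_
    rw [AlgHom.comp_apply, tfk_X]
    split_ifs with h
    · rw [map_zero, tfk_X, if_pos (by omega)]
    · rfl
  rw [← h, AlgHom.comp_apply, hP, map_zero]

private theorem tfk_lt {k : ℕ} (hk : k < N) :
    RingHom.ker (tfk F N k) < RingHom.ker (tfk F N (k + 1)) := by
  refine lt_of_le_of_ne (tfk_le k) fun h => ?_
  have h1 : (X ⟨k, hk⟩ : MvPolynomial (Fin N) F) ∈ RingHom.ker (tfk F N (k + 1)) := by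
    rw [RingHom.mem_ker, tfk_X, if_pos (by show k < k + 1; omega)]
  rw [← h, RingHom.mem_ker, tfk_X, if_neg (by show ¬ k < k; omega)] at h1
  exact X_ne_zero _ h1

private theorem tfk_height {k : ℕ} (hk : k ≤ N) : (k : ℕ∞) ≤ (RingHom.ker (tfk F N k)).height := by
  induction k with
  | zero => exact zero_le
  | succ k ih =>
    have h1 : (RingHom.ker (tfk F N k)).IsPrime := RingHom.ker_isPrime _
    have h2 : (RingHom.ker (tfk F N (k + 1))).IsPrime := RingHom.ker_isPrime _
    have h3 := Ideal.height_add_one_le_of_lt_of_isPrime (tfk_lt (F := F) (show k < N by omega))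
    refine le_trans ?_ h3
    push_cast
    exact add_le_add_left (ih (by omega)) 1

/-- Two homogeneous polynomials of positive degree in at least three variables. Proof: let `X i ^ s ∈ (A, B)` for all `i`. Then every polynomial is a combination of the monomials with exponents `< s` with coefficients in the subalgebra `F[A, B]` (induction on the degree: a monomial with an exponent `≥ s` is in `(A, B)`; its homogeneous component of
the expression `P A + Q B` has `P`, `Q` homogeneous of smaller degree), so the ring is algebraic over `Algebra.adjoin F {A, B}` and its transcendence degree `N` is at most `2` (`Algebra.trdeg_le_cardinalMk`, `MvPolynomial.trdeg_of_isDomain`). -/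
theorem two_forms (hN : 3 ≤ N) {A B : MvPolynomial (Fin N) F} {a b : ℕ} (ha : a ≠ 0)
    (hb : b ≠ 0) (hA : A.IsHomogeneous a) (hB : B.IsHomogeneous b) {s : ℕ}
    (h : ∀ i, (X i : MvPolynomial (Fin N) F) ^ s ∈ Ideal.span {A, B}) : False := by
  have hp : (RingHom.ker (tfk F N N)).IsPrime := RingHom.ker_isPrime _
  have hX : ∀ i : Fin N, (X i : MvPolynomial (Fin N) F) ∈ RingHom.ker (tfk F N N) := by
    intro i
    rw [RingHom.mem_ker, tfk_X, if_pos i.2]
  have hC : ∀ P : MvPolynomial (Fin N) F, tfk F N N P = C (coeff 0 P) := by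
    intro P
    have h1 : tfk F N N = (Algebra.ofId F (MvPolynomial (Fin N) F)).comp
        (aeval (0 : Fin N → F) : MvPolynomial (Fin N) F →ₐ[F] F) := by
      refine MvPolynomial.algHom_ext fun i => ?_
      rw [tfk_X, if_pos i.2, AlgHom.comp_apply, aeval_X, Pi.zero_apply, map_zero]
    rw [h1, AlgHom.comp_apply, aeval_zero]
    rfl
  have hAB : Ideal.span {A, B} ≤ RingHom.ker (tfk F N N) := by
    rw [Ideal.span_le]
    rintro P (rfl | rfl)
    · rw [SetLike.mem_coe, RingHom.mem_ker, hC, hA.coeff_eq_zero, C_0]
      simpa using ha.symm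
    · rw [SetLike.mem_coe, RingHom.mem_ker, hC, hB.coeff_eq_zero, C_0]
      simpa using hb.symm
  have hmin : RingHom.ker (tfk F N N) ∈ (Ideal.span ({A, B} : Set (MvPolynomial (Fin N) F))).minimalPrimes := by
    refine ⟨⟨hp, hAB⟩, ?_⟩
    rintro q ⟨hq, hq2⟩ _ P hP
    have hXq : ∀ i : Fin N, (X i : MvPolynomial (Fin N) F) ∈ q := fun i =>
      hq.mem_of_pow_mem s (hq2 (h i))
    have h1 : P - C (coeff 0 P) ∈ q := by
      have h2 : P - C (coeff 0 P) ∈ Ideal.span (Set.range (X : Fin N → MvPolynomial (Fin N) F)) := by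
        clear hP
        induction P using MvPolynomial.induction_on with
        | C a => rw [coeff_C, if_pos rfl, sub_self]; exact Ideal.zero_mem _
        | add p q hp hq =>
          rw [coeff_add, C_add, add_sub_add_comm]
          exact Ideal.add_mem _ hp hq
        | mul_X p i _ =>
          rw [show coeff 0 (p * X i) = 0 from by
            rw [← constantCoeff_eq, map_mul, constantCoeff_X, mul_zero], C_0, sub_zero]
          exact Ideal.mul_mem_left _ _ (Ideal.subset_span ⟨i, rfl⟩)
      exact (Ideal.span_le.2 (by rintro _ ⟨i, rfl⟩; exact hXq i)) h2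
    rw [RingHom.mem_ker, hC] at hP
    rwa [hP, sub_zero] at h1
  have h1 := Ideal.height_le_card_of_mem_minimalPrimes_span (Set.toFinite _) hmin
  have h2 : ((({A, B} : Set (MvPolynomial (Fin N) F)).ncard : ℕ) : ℕ∞) ≤ (2 : ℕ) := by
    exact_mod_cast Set.ncard_insert_le A {B} |>.trans (by rw [Set.ncard_singleton])
  have h3 := (tfk_height (F := F) (le_refl N)).trans (h1.trans h2)
  have h4 : N ≤ 2 := by exact_mod_cast h3
  omega

end GX
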