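import Pool.Agent.Lib.MP_f80667_ag.Gx.HyAb
import Pool.Agent.Lib.MP_f80667_ag.Gx.HyE
import Pool.Agent.Lib.MP_f80667_ag.Gx.HyEb

/-! The equation of a smooth hypersurface is irreducible. -/

open MvPolynomial

namespace GX

variable {F : Type} [Field F] {N n : ℕ} {G : MvPolynomial (Fin N) F}

private theorem hyec_unit {A : MvPolynomial (Fin N) F} (h : A.IsHomogeneous 0) (h0 : A ≠ 0) :
    IsUnit A := by
  have h1 := totalDegree_eq_zero_iff_eq_C.1 ((totalDegree_zero_iff_isHomogeneous _).2 h)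
  rw [h1]
  refine IsUnit.map C (IsUnit.mk0 _ fun h2 => h0 ?_)
  rw [h1, h2, C_0]

/-- Proof: `G = A B` with `A`, `B` not units: homogeneous of positive degree (`hom_fac`); the partial derivatives are in `(A, B)`: `two_forms`. -/
theorem hy_irr (hN : 3 ≤ N) (h2 : 2 ≤ n) (hG : G.IsHomogeneous n) (hs : Smd G) :
    Irreducible G := by
  have h0 : G ≠ 0 := hy_ne (by omega) hs
  refine irreducible_iff.2 ⟨fun hu => ?_, fun A B hAB => ?_⟩
  · have h1 : G.totalDegree = 0 := (isUnit_iff_totalDegree_of_isReduced.1 hu).2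
    have h3 := hG.totalDegree h0
    omega
  · by_contra hcon
    rw [not_or] at hcon
    have hAB0 : A * B ≠ 0 := hAB ▸ h0
    have hA0 : A ≠ 0 := fun h => hAB0 (by rw [h, zero_mul])
    have hB0 : B ≠ 0 := fun h => hAB0 (by rw [h, mul_zero])
    obtain ⟨a, b, -, hA, hB⟩ := hom_fac hAB0 (hAB ▸ hG)
    have ha : a ≠ 0 := by
      rintro rfl
      exact hcon.1 (hyec_unit hA hA0)
    have hb : b ≠ 0 := by
      rintro rfl
      exact hcon.2 (hyec_unit hB hB0)
    obtain ⟨s, hs⟩ := hs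
    refine two_forms hN ha hb hA hB (s := s) fun i => ?_
    refine Ideal.span_le.2 ?_ (hs i)
    rintro _ ⟨j, rfl⟩
    change pderiv j G ∈ _
    rw [hAB, Derivation.leibniz, smul_eq_mul, smul_eq_mul]
    exact add_mem (Ideal.mul_mem_right _ _ (Ideal.subset_span (Set.mem_insert _ _)))
      (Ideal.mul_mem_right _ _ (Ideal.subset_span (Set.mem_insert_of_mem _ rfl)))

end GX
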