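import Pool.Agent.Lib.MP_f80667_ag.Gx.HyEc

/-! The dimension of a smooth hypersurface. -/

open MvPolynomial

namespace GX

variable {F : Type} [Field F] {N n : ℕ} {G : MvPolynomial (Fin N) F}

private theorem hyed_deg {k : Fin N} (P : MvPolynomial {j : Fin N // j ≠ k} F) :
    degreeOf k (rename (Subtype.val : {j : Fin N // j ≠ k} → Fin N) P) = 0 := by
  classical
  by_contra h
  have h1 := mem_vars_rename _ _ (mem_vars_iff_degreeOf_ne_zero.2 h)
  obtain ⟨j, -, hj⟩ := h1
  exact j.2 hj

private theorem hyed_trdeg (hirr : Irreducible G) {k : Fin N} (hk : G.degreeOf k ≠ 0) :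
    Algebra.trdeg F (MvPolynomial (Fin N) F ⧸ Ideal.span {G}) = (N - 1 : ℕ) := by
  classical
  have h0 : G ≠ 0 := hirr.ne_zero
  have hp : (Ideal.span {G}).IsPrime := (Ideal.span_singleton_prime h0).2 hirr.prime
  have hdom : IsDomain (MvPolynomial (Fin N) F ⧸ Ideal.span {G}) := Ideal.Quotient.isDomain _
  have hN : 0 < N := Nat.pos_of_ne_zero fun h => by
    subst h
    exact k.elim0
  have hae : ∀ {σ : Type} (g : σ → Fin N) (P : MvPolynomial σ F),
      aeval (fun j => Ideal.Quotient.mk (Ideal.span {G}) (X (g j))) P =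
        Ideal.Quotient.mk (Ideal.span {G}) (rename g P) := by
    intro σ g P
    have h1 : (aeval fun j => Ideal.Quotient.mk (Ideal.span {G}) (X (g j))) =
        (Ideal.Quotient.mkₐ F (Ideal.span {G})).comp (rename g) := by
      refine algHom_ext fun j => ?_
      rw [aeval_X, AlgHom.comp_apply, rename_X]
      rfl
    rw [h1]
    rfl
  have hle : ((N - 1 : ℕ) : Cardinal) ≤
      Algebra.trdeg F (MvPolynomial (Fin N) F ⧸ Ideal.span {G}) := by
    have hx : AlgebraicIndependent F fun j : {j : Fin N // j ≠ k} =>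
        Ideal.Quotient.mk (Ideal.span {G}) (X (j : Fin N)) := by
      rw [algebraicIndependent_iff_injective_aeval, injective_iff_map_eq_zero]
      intro P hP
      rw [hae, Ideal.Quotient.eq_zero_iff_mem, Ideal.mem_span_singleton] at hP
      obtain ⟨Q, hQ⟩ := hP
      by_contra hP0
      have h2 : rename (Subtype.val : {j : Fin N // j ≠ k} → Fin N) P ≠ 0 := fun h =>
        hP0 (rename_injective _ Subtype.val_injective (by rw [h, map_zero]))
      have hQ0 : Q ≠ 0 := fun h => h2 (by rw [hQ, h, mul_zero])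
      have h3 := degreeOf_mul_eq (n := k) h0 hQ0
      rw [← hQ, hyed_deg] at h3
      omega
    have h1 := hx.cardinalMk_le_trdeg
    rw [Cardinal.mk_fintype] at h1
    have h2 : Fintype.card {j : Fin N // j ≠ k} = N - 1 := by
      rw [Fintype.card_subtype_compl, Fintype.card_fin, Fintype.card_unique]
    rwa [h2] at h1
  have hlt : Algebra.trdeg F (MvPolynomial (Fin N) F ⧸ Ideal.span {G}) < (N : Cardinal) := by
    by_contra hcon
    rw [not_lt] at hcon
    obtain ⟨x, hx⟩ : ∃ x : Fin N → MvPolynomial (Fin N) F ⧸ Ideal.span {G},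
        x = fun j => Ideal.Quotient.mk (Ideal.span {G}) (X j) := ⟨_, rfl⟩
    have hx' : ∀ P, aeval x P = Ideal.Quotient.mk (Ideal.span {G}) P := by
      intro P
      rw [hx]
      have h1 := hae id P
      rw [rename_id, AlgHom.id_apply] at h1
      exact h1
    have halg : Algebra.IsAlgebraic (Algebra.adjoin F (Set.range x))
        (MvPolynomial (Fin N) F ⧸ Ideal.span {G}) := by
      refine ⟨fun a => ?_⟩
      have ha : a ∈ Algebra.adjoin F (Set.range x) := by
        obtain ⟨P, rfl⟩ := Ideal.Quotient.mk_surjective a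
        rw [Algebra.adjoin_range_eq_range_aeval]
        exact ⟨P, hx' P⟩
      exact isAlgebraic_algebraMap (⟨a, ha⟩ : Algebra.adjoin F (Set.range x))
    have hcon' : Cardinal.mk (Fin N) ≤
        Algebra.trdeg F (MvPolynomial (Fin N) F ⧸ Ideal.span {G}) := by
      rw [Cardinal.mk_fin]
      exact hcon
    have hb := Algebra.IsAlgebraic.isTranscendenceBasis_of_le_trdeg_of_finite F x hcon'
    have h1 := hb.1
    rw [algebraicIndependent_iff_injective_aeval] at h1
    refine h0 (h1 ?_)
    rw [hx', map_zero, Ideal.Quotient.eq_zero_iff_mem]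
    exact Ideal.mem_span_singleton_self G
  obtain ⟨m, hm⟩ := Cardinal.lt_aleph0.1 (hlt.trans (Cardinal.natCast_lt_aleph0))
  rw [hm] at hle hlt ⊢
  rw [Nat.cast_le] at hle
  rw [Nat.cast_lt] at hlt
  rw [show m = N - 1 by omega]

/-- Proof: `G` is irreducible and contains some variable `X k`; the other variables are algebraically independent modulo `G` (a multiple of `G` contains `X k`) and `X k` is algebraic over them: a transcendence basis with `N - 1` elements (`IsTranscendenceBasis.cardinalMk_eq_trdeg`). -/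
theorem hy_trdeg (hN : 3 ≤ N) (h2 : 2 ≤ n) (hG : G.IsHomogeneous n) (hs : Smd G) :
    Algebra.trdeg F (MvPolynomial (Fin N) F ⧸ Ideal.span (Set.range fun _ : Unit => G)) =
      (N - 1 : ℕ) := by
  have hirr := hy_irr hN h2 hG hs
  have hk : ∃ k, G.degreeOf k ≠ 0 := by
    by_contra hcon
    push Not at hcon
    obtain ⟨d, hd⟩ := support_nonempty.2 hirr.ne_zero
    have h1 := hG (mem_support_iff.1 hd)
    have h3 : d = 0 := by
      ext j
      have h4 := monomial_le_degreeOf j hd
      rw [hcon j] at h4
      exact Nat.le_zero.1 h4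
    rw [h3, map_zero] at h1
    omega
  obtain ⟨k, hk⟩ := hk
  rw [Set.range_const]
  exact hyed_trdeg hirr hk

end GX
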