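import Pool.Agent.Lib.MP_f80667_ag.Gx.Al

/-!
Nonsingular projective varieties.

* `tgs f x`: the tangent space at `x` of the cone over the variety `f = 0`.
* `Nsg f d`: `f = 0` is a nonsingular projective variety of dimension `d`.
* `jf S f`: the ideal generated by the `f_i` in the polynomial ring over the algebra `S`. `ju U y`: the ideal generated by the linear polynomials `U_r (x - y)`.
* `gu`: the generic matrix. `jg f d y`: the ideal generated by `f` and the `U_r (x - y)`, `U` the generic matrix.
* `cu U`: the homomorphism `c_r ↦ U_r x`.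
-/

open MvPolynomial

namespace GX

section

variable {κ : Type} [Field κ] {N : ℕ} {ι : Type}

/-- The tangent space (of the cone over the variety `f = 0`) at `x`. -/
def tgs (f : ι → MvPolynomial (Fin N) κ) (x : Fin N → κ) : Submodule κ (Fin N → κ) where
  carrier := {t | ∀ i, ∑ j, eval x (pderiv j (f i)) * t j = 0}
  add_mem' := by
    intro a b ha hb i
    simp only [Pi.add_apply, mul_add, Finset.sum_add_distrib]
    rw [ha i, hb i, add_zero]
  zero_mem' := by
    intro i
    simp only [Pi.zero_apply, mul_zero, Finset.sum_const_zero]
  smul_mem' := by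
    intro c a ha i
    simp only [Pi.smul_apply, smul_eq_mul]
    rw [show (∑ j, eval x (pderiv j (f i)) * (c * a j)) =
      c * ∑ j, eval x (pderiv j (f i)) * a j from by
        rw [Finset.mul_sum]
        exact Finset.sum_congr rfl fun j _ => by ring, ha i, mul_zero]

theorem mem_tgs {f : ι → MvPolynomial (Fin N) κ} {x t : Fin N → κ} :
    t ∈ tgs f x ↔ ∀ i, ∑ j, eval x (pderiv j (f i)) * t j = 0 := Iff.rfl

end

section

variable {F : Type} [Field F] {N : ℕ} {ι : Type}

/-- `f = 0` is a nonsingular projective variety of dimension `d`: the `f_i` are homogeneous and generate a prime ideal, the transcendence degree of the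
homogeneous coordinate ring is `d + 1`, and at all points over the algebraic closure the tangent space of the cone has
dimension at most `d + 1` (the rank of the Jacobian matrix is at least `N - 1 - d`). -/
structure Nsg (f : ι → MvPolynomial (Fin N) F) (d : ℕ) : Prop where
  hom : ∀ i, ∃ e, (f i).IsHomogeneous e
  prime : (Ideal.span (Set.range f)).IsPrime
  dim : Algebra.trdeg F (MvPolynomial (Fin N) F ⧸ Ideal.span (Set.range f)) = (d + 1 : ℕ)
  nsg : ∀ x : Fin N → AlgebraicClosure F,
    Zp (fun i => map (algebraMap F (AlgebraicClosure F)) (f i)) x →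
      Module.finrank (AlgebraicClosure F)
        (tgs (fun i => map (algebraMap F (AlgebraicClosure F)) (f i)) x) ≤ d + 1

/-- The ideal generated by the `f_i` in the polynomial ring over `S`. -/
noncomputable def jf (S : Type) [CommRing S] [Algebra F S] (f : ι → MvPolynomial (Fin N) F) :
    Ideal (MvPolynomial (Fin N) S) :=
  Ideal.span (Set.range fun i => map (algebraMap F S) (f i))

/-- The ideal generated by the linear polynomials `U_r (x - y)`. -/
noncomputable def ju {R : Type} [CommRing R] {d : ℕ} (U : Fin (d + 1) → Fin N → R)
    (y : Fin N → R) : Ideal (MvPolynomial (Fin N) R) :=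
  Ideal.span (Set.range fun r => ∑ j, C (U r j) * (X j - C (y j)))

/-- The generic matrix. -/
noncomputable def gu (R : Type) [CommRing R] (d N : ℕ) :
    Fin (d + 1) → Fin N → MvPolynomial (Fin (d + 1) × Fin N) R := fun r j => X (r, j)

/-- The homomorphism `c_r ↦ U_r x`. -/
noncomputable def cu {R : Type} [CommRing R] {d : ℕ} (U : Fin (d + 1) → Fin N → R) :
    MvPolynomial (Fin (d + 1)) R →ₐ[R] MvPolynomial (Fin N) R := aeval fun r => lf (U r)

/-- The ideal generated by `f` and the `U_r (x - y)`, `U` the generic matrix. -/
noncomputable def jg (f : ι → MvPolynomial (Fin N) F) (d : ℕ) (y : Fin N → F) :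
    Ideal (MvPolynomial (Fin N) (MvPolynomial (Fin (d + 1) × Fin N) F)) :=
  jf (MvPolynomial (Fin (d + 1) × Fin N) F) f ⊔ ju (gu F d N) fun j => C (y j)

theorem jf_self (f : ι → MvPolynomial (Fin N) F) : jf F f = Ideal.span (Set.range f) := by
  unfold jf
  congr 2
  funext i
  exact MvPolynomial.map_id (f i)

/-- Proof: `Ideal.map_span`, `MvPolynomial.map_map`. -/
theorem jf_map (f : ι → MvPolynomial (Fin N) F) {S S' : Type} [CommRing S] [CommRing S']
    [Algebra F S] [Algebra F S'] (φ : S →ₐ[F] S') :
    (jf S f).map (map φ.toRingHom) = jf S' f := by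
  unfold jf
  rw [Ideal.map_span, ← Set.range_comp]
  congr 2
  funext i
  simp only [Function.comp_apply, MvPolynomial.map_map]
  have h : φ.toRingHom.comp (algebraMap F S) = algebraMap F S' := φ.comp_algebraMap
  rw [h]

/-- Proof: as `jf_map`. -/
theorem jf_jf (f : ι → MvPolynomial (Fin N) F) (S S' : Type) [Field S] [CommRing S']
    [Algebra F S] [Algebra F S'] [Algebra S S'] [IsScalarTower F S S'] :
    jf S' (fun i => map (algebraMap F S) (f i)) = jf S' f := by
  unfold jf
  congr 2
  funext i
  rw [MvPolynomial.map_map, ← IsScalarTower.algebraMap_eq]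

/-- A nonzero polynomial over an extension of an infinite field `F` is not `0` at a point over `F`. Proof: induction on the number of the variables, or `MvPolynomial.funext_set`. -/
theorem exists_pt {κ : Type} [Field κ] [Algebra F κ] [Infinite F] {σ : Type} [Finite σ]
    {p : MvPolynomial σ κ} (hp : p ≠ 0) : ∃ x : σ → F, eval (fun i => algebraMap F κ (x i)) p ≠ 0 := by
  by_contra hcon
  push Not at hcon
  refine hp (MvPolynomial.funext_set (fun _ => Set.range (algebraMap F κ))
    (fun _ => Set.infinite_range_of_injective (algebraMap F κ).injective) fun x hx => ?_)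
  have hx' : ∀ i, ∃ y : F, algebraMap F κ y = x i := fun i => (Set.mem_univ_pi.mp hx) i
  choose y hy using hx'
  have hxy : x = fun i => algebraMap F κ (y i) := funext fun i => (hy i).symm
  rw [hxy, hcon y, map_zero]

end

end GX
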