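import Pool.Agent.Lib.MP_f80667_ag.Gx.HyEd
import Pool.Agent.Lib.MP_f80667_ag.Gx.PjA

/-! Smooth hypersurfaces are nonsingular varieties. -/

open MvPolynomial

namespace GX

variable {F : Type} [Field F] {N n : ℕ} {G : MvPolynomial (Fin N) F}

/-- Some partial derivative is not `0` at a point. -/
private theorem hyee_ne {κ : Type} [Field κ] [Algebra F κ] (hs : Smd G) {x : Fin N → κ}
    (hx : x ≠ 0) : ∃ j, eval x (pderiv j (map (algebraMap F κ) G)) ≠ 0 := by
  by_contra hcon
  push Not at hcon
  obtain ⟨s, hs⟩ := hs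
  refine hx (funext fun i => ?_)
  have h1 : Ideal.span (Set.range fun j => pderiv j G) ≤
      RingHom.ker ((eval x).comp (map (algebraMap F κ))) := by
    rw [Ideal.span_le]
    rintro _ ⟨j, rfl⟩
    change eval x (map (algebraMap F κ) (pderiv j G)) = 0
    rw [← pderiv_map]
    exact hcon j
  have h2 : eval x (map (algebraMap F κ) (X i ^ s)) = 0 := h1 (hs i)
  rw [map_pow, map_X, map_pow, eval_X] at h2
  exact eq_zero_of_pow_eq_zero h2

/-- Proof: `hy_irr` (`Ideal.span_singleton_prime`), `hy_trdeg`; `nsg`: the tangent space is the kernel of a linear form which is not `0` (`Smd` over the algebraic closure: apply `MvPolynomial.map`). -/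
theorem nsg_hy (hN : 3 ≤ N) (h2 : 2 ≤ n) (hG : G.IsHomogeneous n) (hs : Smd G) :
    Nsg (fun _ : Unit => G) (N - 2) := by
  classical
  have hirr := hy_irr hN h2 hG hs
  have hN2 : N - 2 + 1 = N - 1 := by omega
  refine ⟨fun _ => ⟨n, hG⟩, ?_, ?_, fun x hx => ?_⟩
  · rw [Set.range_const]
    exact (Ideal.span_singleton_prime hirr.ne_zero).2 hirr.prime
  · rw [hy_trdeg hN h2 hG hs, hN2]
  · obtain ⟨j₀, hj₀⟩ := hyee_ne hs hx.1
    have h1 : tgs (fun _ : Unit => map (algebraMap F (AlgebraicClosure F)) G) x ≠ ⊤ := by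
      refine fun htop => hj₀ ?_
      have h3 : (Pi.single j₀ 1 : Fin N → AlgebraicClosure F) ∈
          tgs (fun _ : Unit => map (algebraMap F (AlgebraicClosure F)) G) x := by
        rw [htop]
        exact Submodule.mem_top
      have h4 := mem_tgs.1 h3 ()
      rw [Finset.sum_eq_single j₀] at h4
      · rwa [Pi.single_eq_same, mul_one] at h4
      · intro j _ hj
        rw [Pi.single_eq_of_ne hj, mul_zero]
      · intro h5
        exact absurd (Finset.mem_univ _) h5
    have h3 := Submodule.finrank_lt h1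
    rw [Module.finrank_fin_fun] at h3
    rw [hN2]
    exact Nat.le_sub_one_of_lt h3

end GX
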