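import Pool.Agent.Lib.MP_f80667_ag.Gx.HyDd
import Pool.Agent.Lib.MP_f80667_ag.Gx.HyEe
import Pool.Agent.Lib.MP_f80667_ag.Gx.PjP
import Pool.Agent.Lib.MP_f80667_ag.Gx.VF

/-! Smooth hypersurfaces over number fields. -/

open MvPolynomial ZC BE IsDedekindDomain NumberField

namespace GX

theorem smd_map {κ κ' : Type} [Field κ] [Field κ'] (φ : κ →+* κ') {N : ℕ}
    {G : MvPolynomial (Fin N) κ} (h : Smd G) : Smd (MvPolynomial.map φ G) := by
  obtain ⟨s, hs⟩ := h
  refine ⟨s, fun i => ?_⟩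
  have h1 := Ideal.mem_map_of_mem (MvPolynomial.map φ) (hs i)
  rw [map_pow, map_X, Ideal.map_span, ← Set.range_comp] at h1
  rw [show (fun j => pderiv j (MvPolynomial.map φ G)) =
    (MvPolynomial.map φ) ∘ fun j => pderiv j G from funext fun j => pderiv_map]
  exact h1

/-- The partial derivatives have only the common zero `0`. -/
theorem smd_iff {κ K : Type} [Field κ] [Field K] [Algebra κ K] [IsAlgClosed K] {N : ℕ}
    {G : MvPolynomial (Fin N) κ}
    (h : ∀ x : Fin N → K, (∀ j, aeval x (pderiv j G) = 0) → x = 0) : Smd G :=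
  GM.nst (fun j => pderiv j G) h

/-- The reduction kernel of a smooth hypersurface of dimension `≥ 2` is divisible at almost all places. -/
theorem fin_hy {F : Type} [Field F] [NumberField F] {N n : ℕ} (hN : 4 ≤ N) (h2 : 2 ≤ n)
    {G : MvPolynomial (Fin N) F} (hG : G.IsHomogeneous n)
    (hs : ∀ x : Fin N → AlgebraicClosure F, (∀ j, aeval x (pderiv j G) = 0) → x = 0) :
    {v : HeightOneSpectrum (𝓞 F) | ¬ ∀ V : ValuationSubring (AlgebraicClosure (FK F v)),
      V.comap (algebraMap (FK F v) _) = CV.Iv v → Dvk (fun _ : Unit => G) V (FK F v)}.Finite := by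
  have hS : Smd G := smd_iff hs
  have hn : Nsg (fun _ : Unit => G) (N - 2) := nsg_hy (by omega) h2 hG hS
  obtain ⟨m, ψ, h1, h2'⟩ := hn.exists_prj
  refine fin_all hn.hom h1 h2' ?_
  exact nofrm_hy h2 hN (Nat.cast_ne_zero.2 (by omega)) (hG.map _) (smd_map _ hS)

end GX
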