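import Pool.Agent.Lib.MP_f80667_ag.Gx.PjA

/-! Transcendence degree of a quotient. -/

open MvPolynomial

namespace GX

variable {F : Type} [Field F]

private theorem trd_coeff_aux {A : Type} [CommRing A] [IsDomain A] [Algebra F A] {g : A}
    (hg : g ≠ 0) {s : ℕ} {z : Fin s → A ⧸ Ideal.span {g}} (hz : AlgebraicIndependent F z)
    {w : Fin s → A} (hw : ∀ i, Ideal.Quotient.mkₐ F (Ideal.span {g}) (w i) = z i) (k : ℕ) :
    ∀ P : Polynomial (Algebra.adjoin F (Set.range w)), Polynomial.aeval g P = 0 →
      P.coeff k = 0 := by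
  have h0 : ∀ P : Polynomial (Algebra.adjoin F (Set.range w)), Polynomial.aeval g P = 0 →
      P.coeff 0 = 0 := by
    intro P hP
    have hdec := Polynomial.divX_mul_X_add P
    have h1 : Polynomial.aeval g P.divX * g + (P.coeff 0 : A) = 0 := by
      have h2 := congrArg (Polynomial.aeval g) hdec
      rw [hP, map_add, map_mul, Polynomial.aeval_X, Polynomial.aeval_C] at h2
      exact h2
    have hmem : (P.coeff 0 : A) ∈ Ideal.span {g} := by
      have h3 : (P.coeff 0 : A) = -(Polynomial.aeval g P.divX) * g := by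
        linear_combination h1
      rw [h3]
      exact Ideal.mul_mem_left _ _ (Ideal.subset_span (Set.mem_singleton g))
    obtain ⟨q, hq⟩ : ∃ q : MvPolynomial (Fin s) F, aeval w q = (P.coeff 0 : A) := by
      have h4 : ∀ a : A, a ∈ Algebra.adjoin F (Set.range w) →
          ∃ q : MvPolynomial (Fin s) F, aeval w q = a := by
        intro a ha
        rw [Algebra.adjoin_range_eq_range_aeval] at ha
        exact ha
      exact h4 _ (P.coeff 0).2
    have hzw : (fun i => Ideal.Quotient.mkₐ F (Ideal.span {g}) (w i)) = z := funext hw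
    have hq0 : aeval z q = 0 := by
      have h5 : Ideal.Quotient.mkₐ F (Ideal.span {g}) (aeval w q) = 0 := by
        rw [hq]
        exact Ideal.Quotient.eq_zero_iff_mem.mpr hmem
      have h6 : Ideal.Quotient.mkₐ F (Ideal.span {g}) (aeval w q) = aeval z q := by
        rw [← AlgHom.comp_apply, comp_aeval, hzw]
      rw [← h6]
      exact h5
    have hq1 : q = 0 := hz (by rw [hq0, map_zero])
    apply Subtype.ext
    rw [← hq, hq1, map_zero]
    rfl
  induction k with
  | zero => exact h0
  | succ k ih =>
    intro P hP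
    have hdec := Polynomial.divX_mul_X_add P
    rw [h0 P hP, Polynomial.C_0, add_zero] at hdec
    have h1 : Polynomial.aeval g P.divX * g = 0 := by
      have h2 := congrArg (Polynomial.aeval g) hdec
      rw [hP, map_mul, Polynomial.aeval_X] at h2
      exact h2
    have h2 : Polynomial.aeval g P.divX = 0 := (mul_eq_zero.mp h1).resolve_right hg
    have h3 := ih P.divX h2
    rw [Polynomial.coeff_divX] at h3
    exact h3

/-- Proof: let `z'` be lifts of the `z_i`. Then `z'` and `g` are algebraically independent: a relation `Q (z', g) = 0`, `Q ≠ 0`, can be divided by the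
power of the last variable `T` in `Q` (`A` is a domain, `g ≠ 0`); modulo `g` it is `Q (z, 0) = 0`, so `Q (Z, 0) = 0` and `T` divides `Q`. So `s + 1 ≤ trdeg A ≤ n + 1`.
(`MvPolynomial.finSuccEquiv` or `Polynomial (MvPolynomial (Fin s) F)` and `AlgebraicIndependent.option_iff..`; `AlgebraicIndependent.cardinalMk_le_trdeg`.) -/
theorem trd_quot {A : Type} [CommRing A] [IsDomain A] [Algebra F A] {n : ℕ}
    (hA : Algebra.trdeg F A ≤ (n + 1 : ℕ)) {g : A} (hg : g ≠ 0) {s : ℕ}
    {z : Fin s → A ⧸ Ideal.span {g}} (hz : AlgebraicIndependent F z) : s ≤ n := by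
  have hlift : ∀ i, ∃ y : A, Ideal.Quotient.mkₐ F (Ideal.span {g}) y = z i := fun i =>
    Ideal.Quotient.mkₐ_surjective F (Ideal.span {g}) (z i)
  choose w hw using hlift
  have hzw : (Ideal.Quotient.mkₐ F (Ideal.span {g})) ∘ w = z := funext hw
  have hwi : AlgebraicIndependent F w := by
    refine AlgebraicIndependent.of_comp (Ideal.Quotient.mkₐ F (Ideal.span {g})) ?_
    rw [hzw]
    exact hz
  have htr : Transcendental (Algebra.adjoin F (Set.range w)) g := by
    intro halg
    obtain ⟨P, hP, hP0⟩ := halg
    apply hP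
    ext1 k
    rw [trd_coeff_aux hg hz hw k P hP0, Polynomial.coeff_zero]
  have hopt := (hwi.option_iff_transcendental g).mpr htr
  have hle := hopt.cardinalMk_le_trdeg.trans hA
  rw [Cardinal.mk_fintype, Fintype.card_option, Fintype.card_fin] at hle
  have h2 : s + 1 ≤ n + 1 := by exact_mod_cast hle
  omega

end GX
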