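import Pool.Agent.Lib.MP_f80667_ag.Gx.PjA

/-! A homomorphism which is not injective. -/

open MvPolynomial

namespace GX

variable {F : Type} [Field F]

/-- Proof: `B` trivial: `p = 1`. Otherwise `exists_integral_inj_algHom_of_fg F B`: `B` is integral over `F[z_1, .., z_s]`, `s ≤ n` by `hB`. If `φ` is injective, there is a
prime ideal `q` of `MvPolynomial τ B` with `q ∩ MvPolynomial σ F = 0` (`Ideal.exists_comap_eq_of_mem_minimalPrimes_of_injective`); the domain `D = MvPolynomial τ B / q` is
integral over the subalgebra generated by the images of `z` and of the variables `τ`: `trdeg D ≤ s + card τ` (`Algebra.IsAlgebraic.trdeg_le_cardinalMk`), and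
the images of the variables `σ` are algebraically independent in `D`: `card σ ≤ trdeg D`. -/
theorem not_inj {B : Type} [CommRing B] [Algebra F B] [Algebra.FiniteType F B] {n : ℕ}
    (hB : ∀ (s : ℕ) (z : Fin s → B), AlgebraicIndependent F z → s ≤ n) {σ τ : Type} [Fintype σ]
    [Fintype τ] (h : n + Fintype.card τ < Fintype.card σ)
    (φ : MvPolynomial σ F →ₐ[F] MvPolynomial τ B) : ∃ p, p ≠ 0 ∧ φ p = 0 := by
  by_contra hcon
  push Not at hcon
  have hφ : Function.Injective φ := by
    rw [injective_iff_map_eq_zero]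
    intro p hp
    by_contra hp0
    exact hcon p hp0 hp
  have hnt : Nontrivial B := by
    by_contra hB'
    rw [not_nontrivial_iff_subsingleton] at hB'
    have h2 : (1 : MvPolynomial τ B) = 0 := by
      rw [← map_one (C : B →+* MvPolynomial τ B), Subsingleton.elim (1 : B) 0, map_zero]
    have h3 : φ 1 = 0 := by rw [map_one, h2]
    exact hcon 1 one_ne_zero h3
  obtain ⟨s, g, ginj, gint⟩ := exists_integral_inj_algHom_of_fg F B
  have hs : s ≤ n := by
    refine hB s (fun i => g (X i)) ?_
    have h1 : aeval (R := F) (fun i => g (X i)) = g := by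
      apply MvPolynomial.algHom_ext
      intro i
      rw [aeval_X]
    unfold AlgebraicIndependent
    rw [h1]
    exact ginj
  have hbot : (⊥ : Ideal (MvPolynomial σ F)) ∈ minimalPrimes (MvPolynomial σ F) := by
    rw [IsDomain.minimalPrimes_eq_singleton_bot]
    exact Set.mem_singleton _
  obtain ⟨q, hq, hqc⟩ := Ideal.exists_comap_eq_of_mem_minimalPrimes_of_injective
    (f := φ.toRingHom) hφ ⊥ hbot
  have hdom : IsDomain (MvPolynomial τ B ⧸ q) := Ideal.Quotient.isDomain q
  set D := MvPolynomial τ B ⧸ q with hD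
  set π : MvPolynomial τ B →ₐ[F] D := Ideal.Quotient.mkₐ F q with hπ
  set c : B →ₐ[F] MvPolynomial τ B := IsScalarTower.toAlgHom F B (MvPolynomial τ B) with hc
  have hcb : ∀ b : B, c b = C b := fun b => rfl
  let x : Fin s ⊕ τ → D := Sum.elim (fun i => π (c (g (X i)))) (fun t => π (X t))
  have hxl : ∀ i, x (Sum.inl i) = π (c (g (X i))) := fun i => rfl
  have hxr : ∀ t, x (Sum.inr t) = π (X t) := fun t => rfl
  set S := Algebra.adjoin F (Set.range x) with hS
  have hmem : ∀ j, x j ∈ S := fun j => Algebra.subset_adjoin ⟨j, rfl⟩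
  let g' : MvPolynomial (Fin s) F →ₐ[F] S := aeval fun i => (⟨x (Sum.inl i), hmem _⟩ : S)
  have hg' : S.val.comp g' = (π.comp c).comp g := by
    apply MvPolynomial.algHom_ext
    intro i
    rw [AlgHom.comp_apply, aeval_X]
    rfl
  have hintB : ∀ b : B, IsIntegral S (π (c b)) := by
    intro b
    obtain ⟨p, hp1, hp2⟩ := gint b
    refine ⟨p.map g'.toRingHom, hp1.map _, ?_⟩
    rw [Polynomial.eval₂_map]
    have h1 : (algebraMap S D).comp g'.toRingHom = ((π.comp c).toRingHom).comp g.toRingHom := by
      ext r
      · exact RingHom.congr_fun (congrArg AlgHom.toRingHom hg') (C r)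
      · exact RingHom.congr_fun (congrArg AlgHom.toRingHom hg') (X r)
    rw [h1]
    have h2 : π (c b) = (π.comp c).toRingHom b := rfl
    rw [h2, ← Polynomial.hom_eval₂]
    have h3 : Polynomial.eval₂ g.toRingHom b p = 0 := hp2
    rw [h3, map_zero]
  have hint : ∀ f : MvPolynomial τ B, IsIntegral S (π f) := by
    intro f
    induction f using MvPolynomial.induction_on with
    | C b => exact hintB b
    | add f₁ f₂ h₁ h₂ =>
      rw [map_add]
      exact h₁.add h₂
    | mul_X f t h₁ =>
      rw [map_mul]
      refine h₁.mul ?_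
      have h4 : π (X t) = algebraMap S D ⟨x (Sum.inr t), hmem _⟩ := rfl
      rw [h4]
      exact isIntegral_algebraMap
  have halg : Algebra.IsAlgebraic S D := by
    constructor
    intro d
    obtain ⟨f, rfl⟩ := Ideal.Quotient.mk_surjective d
    exact (hint f).isAlgebraic
  have htr : Algebra.trdeg F D ≤ Cardinal.mk (Set.range x) :=
    Algebra.IsAlgebraic.trdeg_le_cardinalMk F (Set.range x)
  have hy : AlgebraicIndependent F fun i : σ => π (φ (X i)) := by
    have h1 : aeval (R := F) (fun i : σ => π (φ (X i))) = π.comp φ := by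
      apply MvPolynomial.algHom_ext
      intro i
      rw [aeval_X]
      rfl
    unfold AlgebraicIndependent
    rw [h1, injective_iff_map_eq_zero]
    intro p hp
    have h2 : φ p ∈ q := Ideal.Quotient.eq_zero_iff_mem.mp hp
    have h3 : p ∈ q.comap φ.toRingHom := h2
    rw [hqc] at h3
    exact (Submodule.mem_bot _).mp h3
  have hcard := hy.cardinalMk_le_trdeg
  have hfin : Cardinal.mk σ ≤ Cardinal.mk (Fin s ⊕ τ) := hcard.trans (htr.trans Cardinal.mk_range_le)
  rw [Cardinal.mk_fintype, Cardinal.mk_fintype, Nat.cast_le, Fintype.card_sum,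
    Fintype.card_fin] at hfin
  omega

end GX
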