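import Pool.Agent.Lib.MP_f80667_ag.Gx.PjC

/-! Generic linear forms: all coordinates, all matrices. -/

open MvPolynomial

namespace GX

variable {F : Type} [Field F] {N d : ℕ} {ι : Type} {f : ι → MvPolynomial (Fin N) F}

private theorem pjcb_map {S : Type} [CommRing S] [Algebra F S] (U : Fin (d + 1) → Fin N → S)
    {g : MvPolynomial (Fin N) (MvPolynomial (Fin (d + 1) × Fin N) F)}
    (hg : g ∈ jf (MvPolynomial (Fin (d + 1) × Fin N) F) f ⊔
      Ideal.span (Set.range fun r => lf (gu F d N r))) :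
    map (aeval (fun q : Fin (d + 1) × Fin N => U q.1 q.2) :
      MvPolynomial (Fin (d + 1) × Fin N) F →ₐ[F] S).toRingHom g ∈
        jf S f ⊔ Ideal.span (Set.range fun r => lf (U r)) := by
  have h := Ideal.mem_map_of_mem (map (aeval (fun q : Fin (d + 1) × Fin N => U q.1 q.2) :
      MvPolynomial (Fin (d + 1) × Fin N) F →ₐ[F] S).toRingHom) hg
  rw [Ideal.map_sup, jf_map, Ideal.map_span, ← Set.range_comp] at h
  have h1 : (⇑(map (aeval (fun q : Fin (d + 1) × Fin N => U q.1 q.2) :
      MvPolynomial (Fin (d + 1) × Fin N) F →ₐ[F] S).toRingHom) ∘ fun r => lf (gu F d N r)) =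
        fun r => (lf (U r) : MvPolynomial (Fin N) S) := by
    funext r
    simp only [Function.comp_apply, lf, map_sum, map_mul, map_C, map_X]
    refine Finset.sum_congr rfl fun j _ => ?_
    have h2 : (aeval (fun q : Fin (d + 1) × Fin N => U q.1 q.2) :
      MvPolynomial (Fin (d + 1) × Fin N) F →ₐ[F] S).toRingHom (gu F d N r j) = U r j := by
      change aeval _ (X (r, j)) = _
      rw [aeval_X]
    rw [h2]
  rw [h1] at h
  exact h

/-- For all coordinates and all matrices. Proof: the product of the `h` of `exists_hk`; apply the homomorphism `U_rj ↦ U r j` to the coefficients (`jf_map`). -/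
theorem exists_h1 (hf : Nsg f d) :
    ∃ h : MvPolynomial (Fin (d + 1) × Fin N) F, h ≠ 0 ∧
      ∀ (S : Type) [CommRing S] [Algebra F S] (U : Fin (d + 1) → Fin N → S) (k : Fin N), ∃ s,
        C (aeval (fun q : Fin (d + 1) × Fin N => U q.1 q.2) h) * X k ^ s ∈
          jf S f ⊔ Ideal.span (Set.range fun r => lf (U r)) := by
  choose h h0 s hs using fun k => exists_hk hf k
  refine ⟨∏ k, h k, Finset.prod_ne_zero_iff.2 fun k _ => h0 k, fun S _ _ U k => ⟨s k, ?_⟩⟩
  have h1 : C (∏ k, h k) * X k ^ s k ∈ jf (MvPolynomial (Fin (d + 1) × Fin N) F) f ⊔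
      Ideal.span (Set.range fun r => lf (gu F d N r)) := by
    rw [← Finset.mul_prod_erase _ _ (Finset.mem_univ k), map_mul, mul_comm (C (h k)), mul_assoc]
    exact Ideal.mul_mem_left _ _ (hs k)
  have h2 := pjcb_map U h1
  rw [map_mul, map_C, map_pow, map_X] at h2
  exact h2

end GX
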