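import Pool.Agent.Lib.MP_f80667_ag.Gx.PjA

/-! Forms without a common zero: the coordinate ring is finite over the ring of the forms. -/

open MvPolynomial

namespace GX

variable {R : Type} [CommRing R] {N d : ℕ} {ι : Type} {f : ι → MvPolynomial (Fin N) R}

section

attribute [local instance] MvPolynomial.gradedAlgebra

/-- The components of a member of an ideal generated by homogeneous polynomials. -/
private theorem comp_mem {f : ι → MvPolynomial (Fin N) R} (hf : ∀ i, ∃ e, (f i).IsHomogeneous e)
    {a : MvPolynomial (Fin N) R} (ha : a ∈ Ideal.span (Set.range f)) (n : ℕ) :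
    homogeneousComponent n a ∈ Ideal.span (Set.range f) := by
  have h := Ideal.homogeneous_span (homogeneousSubmodule (Fin N) R) (Set.range f) (by
    rintro _ ⟨i, rfl⟩
    obtain ⟨e, he⟩ := hf i
    exact ⟨e, he⟩)
  have h1 := h n ha
  rwa [show (DirectSum.decompose (homogeneousSubmodule (Fin N) R) a n :
    MvPolynomial (Fin N) R) = homogeneousComponent n a from
      decomposition.decompose'_apply a n] at h1

private theorem lf_hom (a : Fin N → R) : (lf a).IsHomogeneous 1 := by
  unfold lf
  refine IsHomogeneous.sum _ _ _ fun j _ => ?_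
  have h := (isHomogeneous_C (Fin N) (a j)).mul (isHomogeneous_X R j)
  rwa [zero_add] at h

private theorem comp_mul {b l : MvPolynomial (Fin N) R} (hl : l.IsHomogeneous 1) (n : ℕ) :
    homogeneousComponent (n + 1) (b * l) = homogeneousComponent n b * l := by
  have h := DirectSum.coe_decompose_mul_of_right_mem_of_le (homogeneousSubmodule (Fin N) R)
    (a := b) (b := l) (i := 1) (n := n + 1) hl (by omega)
  rw [Nat.add_sub_cancel] at h
  rwa [show (DirectSum.decompose (homogeneousSubmodule (Fin N) R) (b * l) (n + 1) :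
    MvPolynomial (Fin N) R) = homogeneousComponent (n + 1) (b * l) from
      decomposition.decompose'_apply (b * l) (n + 1),
    show (DirectSum.decompose (homogeneousSubmodule (Fin N) R) b n :
    MvPolynomial (Fin N) R) = homogeneousComponent n b from
      decomposition.decompose'_apply b n] at h

private theorem comp_mul0 {b l : MvPolynomial (Fin N) R} (hl : l.IsHomogeneous 1) :
    homogeneousComponent 0 (b * l) = 0 := by
  have h := DirectSum.coe_decompose_mul_of_right_mem_of_not_le
    (homogeneousSubmodule (Fin N) R) (a := b) (b := l) (i := 1) (n := 0) hl (by omega)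
  rwa [show (DirectSum.decompose (homogeneousSubmodule (Fin N) R) (b * l) 0 :
    MvPolynomial (Fin N) R) = homogeneousComponent 0 (b * l) from
      decomposition.decompose'_apply (b * l) 0] at h

end

/-- **Finiteness.** Proof: the monomials of degree `< N s`, `s` a common exponent, generate `R[x] / (f)` over `R[c]`: a monomial of degree `n ≥ N s` is a multiple of some `x_k ^ s`, so it is
in `(f, U x)`, and its component of degree `n` gives `g = ∑ b_r (U_r x)` modulo `(f)` with `b_r` homogeneous of degree `n - 1` (the ideal `(f)` is homogeneous); induction on `n`. -/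
theorem fin_low (hf : ∀ i, ∃ e, (f i).IsHomogeneous e) {U : Fin (d + 1) → Fin N → R}
    (hU : ∀ k, ∃ s, (X k : MvPolynomial (Fin N) R) ^ s ∈
      Ideal.span (Set.range f) ⊔ Ideal.span (Set.range fun r => lf (U r))) :
    ((Ideal.Quotient.mk (Ideal.span (Set.range f))).comp (cu U).toRingHom).Finite := by
  classical
  have hcomp : ∀ a ∈ Ideal.span (Set.range f), ∀ n,
      homogeneousComponent n a ∈ Ideal.span (Set.range f) := fun a ha n => comp_mem hf ha n
  obtain ⟨I, hI⟩ : ∃ I, I = Ideal.span (Set.range f) := ⟨_, rfl⟩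
  rw [← hI] at hU hcomp ⊢
  choose s hs using hU
  obtain ⟨φ, hφ⟩ : ∃ φ : MvPolynomial (Fin (d + 1)) R →+* MvPolynomial (Fin N) R ⧸ I,
    φ = (Ideal.Quotient.mk I).comp (cu U).toRingHom := ⟨_, rfl⟩
  rw [← hφ]
  have hC : ∀ c : R, φ (C c) = Ideal.Quotient.mk I (C c) := by
    intro c
    rw [hφ]
    change Ideal.Quotient.mk I (cu U (C c)) = _
    congr 1
    exact (cu U).commutes c
  have hX : ∀ r, φ (X r) = Ideal.Quotient.mk I (lf (U r)) := by
    intro r
    rw [hφ]
    change Ideal.Quotient.mk I (cu U (X r)) = _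
    congr 1
    exact aeval_X _ _
  let _ : Algebra (MvPolynomial (Fin (d + 1)) R) (MvPolynomial (Fin N) R ⧸ I) := φ.toAlgebra
  have hsm : ∀ (c : MvPolynomial (Fin (d + 1)) R) (x : MvPolynomial (Fin N) R ⧸ I),
    c • x = φ c * x := fun c x => rfl
  obtain ⟨V, hV⟩ : ∃ V : Submodule (MvPolynomial (Fin (d + 1)) R) (MvPolynomial (Fin N) R ⧸ I),
    V = Submodule.span _ (Set.range fun e : (∀ k, Fin (s k)) =>
      Ideal.Quotient.mk I (monomial (Finsupp.equivFunOnFinite.symm fun k => (e k : ℕ)) 1)) :=
    ⟨_, rfl⟩
  have hred : ∀ n (g : MvPolynomial (Fin N) R), g.IsHomogeneous n →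
      (∀ (m : Fin N →₀ ℕ) (k : Fin N), m.degree = n → s k ≤ m k →
        Ideal.Quotient.mk I (monomial m 1) ∈ V) → Ideal.Quotient.mk I g ∈ V := by
    intro n g hg h
    rw [g.as_sum, map_sum]
    refine V.sum_mem fun m hm => ?_
    have h1 : monomial m (coeff m g) = C (coeff m g) * monomial m (1 : R) := by
      rw [C_mul_monomial, mul_one]
    rw [h1, map_mul, ← hC, ← hsm]
    refine V.smul_mem _ ?_
    by_cases h2 : ∀ k, m k < s k
    · rw [hV]
      refine Submodule.subset_span ⟨fun k => ⟨m k, h2 k⟩, ?_⟩
      change Ideal.Quotient.mk I (monomial (Finsupp.equivFunOnFinite.symm fun k => m k) 1) = _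
      rw [show (Finsupp.equivFunOnFinite.symm fun k => m k) = m from
        Finsupp.equivFunOnFinite.symm_apply_apply m]
    · push Not at h2
      obtain ⟨k, hk⟩ := h2
      refine h m k ?_ hk
      have h3 := hg (mem_support_iff.1 hm)
      rw [← h3, Finsupp.degree_eq_weight_one]
      rfl
  have hdec : ∀ (m : Fin N →₀ ℕ) (k : Fin N), s k ≤ m k → ∃ a ∈ I,
      ∃ b : Fin (d + 1) → MvPolynomial (Fin N) R,
        monomial m 1 = a + ∑ r, b r * lf (U r) := by
    intro m k hk
    have h1 : monomial m (1 : R) = monomial (m - Finsupp.single k (s k)) 1 * X k ^ s k := by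
      rw [X_pow_eq_monomial, monomial_mul, one_mul, tsub_add_cancel_of_le]
      rwa [Finsupp.single_le_iff]
    have h2 : monomial m (1 : R) ∈ I ⊔ Ideal.span (Set.range fun r => lf (U r)) := by
      rw [h1]
      exact Ideal.mul_mem_left _ _ (hs k)
    obtain ⟨a, ha, j, hj, h3⟩ := Submodule.mem_sup.1 h2
    obtain ⟨b, hb⟩ := Ideal.mem_span_range_iff_exists_fun.1 hj
    exact ⟨a, ha, b, by rw [← h3, ← hb]⟩
  have hself : ∀ m : Fin N →₀ ℕ, homogeneousComponent m.degree (monomial m (1 : R)) =
      monomial m 1 := by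
    intro m
    have h1 : (monomial m (1 : R)).IsHomogeneous m.degree := isHomogeneous_monomial 1 rfl
    rw [homogeneousComponent_of_mem h1, if_pos rfl]
  have key : ∀ n (g : MvPolynomial (Fin N) R), g.IsHomogeneous n →
      Ideal.Quotient.mk I g ∈ V := by
    intro n
    induction n with
    | zero =>
      intro g hg
      refine hred 0 g hg fun m k hm hk => ?_
      obtain ⟨a, ha, b, hab⟩ := hdec m k hk
      have h1 := hself m
      rw [hm] at h1
      rw [← h1, hab, map_add, map_sum, Finset.sum_eq_zero fun r _ => comp_mul0 (lf_hom (U r)),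
        add_zero, Ideal.Quotient.eq_zero_iff_mem.2 (hcomp a ha 0)]
      exact V.zero_mem
    | succ n ih =>
      intro g hg
      refine hred (n + 1) g hg fun m k hm hk => ?_
      obtain ⟨a, ha, b, hab⟩ := hdec m k hk
      have h1 := hself m
      rw [hm] at h1
      rw [← h1, hab, map_add, map_sum, map_add,
        Ideal.Quotient.eq_zero_iff_mem.2 (hcomp a ha (n + 1)), zero_add, map_sum]
      refine V.sum_mem fun r _ => ?_
      rw [comp_mul (lf_hom (U r)), mul_comm, map_mul, ← hX, ← hsm]
      exact V.smul_mem _ (ih _ (homogeneousComponent_isHomogeneous n (b r)))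
  have htop : V = ⊤ := by
    rw [eq_top_iff]
    rintro x -
    obtain ⟨g, rfl⟩ := Ideal.Quotient.mk_surjective x
    rw [← sum_homogeneousComponent g, map_sum]
    exact V.sum_mem fun i _ => key i _ (homogeneousComponent_isHomogeneous i g)
  refine Module.finite_def.2 ?_
  rw [← htop, hV]
  exact Submodule.fg_span (Set.finite_range _)

end GX
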