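import Pool.Agent.Lib.MP_f80667_ag.Gx.PjA

/-! Functionals. -/

open MvPolynomial

namespace GX

variable {F : Type} [Field F] {N : ℕ} {ι : Type} {f : ι → MvPolynomial (Fin N) F}

/-- A coefficientwise image of a polynomial under an `F`-linear functional `l : κ → F`. Proof: `∑ monomial m (l (coeff m g))` over the support. -/
theorem exists_lc {κ : Type} [Field κ] [Algebra F κ] {σ : Type} (l : κ →ₗ[F] F)
    (g : MvPolynomial σ κ) : ∃ g0 : MvPolynomial σ F, ∀ m, coeff m g0 = l (coeff m g) := by
  classical
  refine ⟨∑ m ∈ g.support, monomial m (l (coeff m g)), fun m => ?_⟩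
  rw [coeff_sum]
  simp only [coeff_monomial]
  rw [Finset.sum_ite_eq' g.support m fun m => l (coeff m g)]
  by_cases h : m ∈ g.support
  · rw [if_pos h]
  · rw [if_neg h, notMem_support_iff.1 h, map_zero]

private theorem pje_mul {κ : Type} [Field κ] [Algebra F κ] {σ : Type} (l : κ →ₗ[F] F)
    {L : MvPolynomial σ κ → MvPolynomial σ F} (hL : ∀ g m, coeff m (L g) = l (coeff m g))
    (a : MvPolynomial σ κ) (q : MvPolynomial σ F) :
    L (a * map (algebraMap F κ) q) = L a * q := by
  classical
  ext m
  rw [hL, coeff_mul, coeff_mul, map_sum]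
  refine Finset.sum_congr rfl fun x _ => ?_
  rw [hL, coeff_map, mul_comm (coeff x.1 a), ← Algebra.smul_def, map_smul, smul_eq_mul,
    mul_comm]

/-- `(f) κ[x]` and functionals. Proof: write `g = ∑ h_i f_i`; the coefficientwise image of `h_i f_i` is (image of `h_i`) times `f_i` because the coefficients of `f_i` are in `F`. -/
theorem jf_coeff {κ : Type} [Field κ] [Algebra F κ] (l : κ →ₗ[F] F) {g : MvPolynomial (Fin N) κ}
    (hg : g ∈ jf κ f) {g0 : MvPolynomial (Fin N) F} (h : ∀ m, coeff m g0 = l (coeff m g)) :
    g0 ∈ Ideal.span (Set.range f) := by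
  choose L hL using fun g : MvPolynomial (Fin N) κ => exists_lc l g
  have key : ∀ x ∈ Ideal.span (Set.range fun i => map (algebraMap F κ) (f i)),
      ∀ a : MvPolynomial (Fin N) κ, L (a * x) ∈ Ideal.span (Set.range f) := by
    intro x hx
    induction hx using Submodule.span_induction with
    | mem x hx =>
      intro a
      obtain ⟨i, rfl⟩ := hx
      change L (a * map (algebraMap F κ) (f i)) ∈ _
      rw [pje_mul l hL]
      exact Ideal.mul_mem_left _ _ (Ideal.subset_span ⟨i, rfl⟩)
    | zero =>
      intro a
      have h1 : L (a * 0) = 0 := by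
        ext m
        rw [hL, mul_zero, coeff_zero, map_zero, coeff_zero]
      rw [h1]
      exact Ideal.zero_mem _
    | add x y _ _ hx hy =>
      intro a
      have h1 : L (a * (x + y)) = L (a * x) + L (a * y) := by
        ext m
        rw [hL, mul_add, coeff_add, map_add, coeff_add, hL, hL]
      rw [h1]
      exact Ideal.add_mem _ (hx a) (hy a)
    | smul b x _ hx =>
      intro a
      rw [smul_eq_mul, ← mul_assoc]
      exact hx (a * b)
  have h1 : g0 = L (1 * g) := by
    ext m
    rw [h, hL, one_mul]
  rw [h1]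
  exact key g hg 1

end GX
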