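import Pool.Agent.Lib.MP_f80667_ag.Gx.PjE

/-! In characteristic `0` a prime ideal stays radical over the algebraic closure. -/

open MvPolynomial
open scoped TensorProduct

namespace GX

variable {F : Type} [Field F] {N : ℕ} {ι : Type} {f : ι → MvPolynomial (Fin N) F}

private theorem red_aux [CharZero F] (K0 : Type) [Field K0] [Algebra F K0] (κ : Type) [Field κ]
    [Algebra F κ] [Algebra.IsAlgebraic F κ] : IsReduced (K0 ⊗[F] κ) := by
  refine IsReduced.tensorProduct_of_flat_of_forall_fg ?_
  intro B hB
  haveI : Algebra.IsAlgebraic F B := Algebra.IsAlgebraic.of_injective B.val Subtype.val_injective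
  letI : Field B := (isField_of_isIntegral_of_isField' (R := F) (S := B) (Field.toIsField F)).toField
  haveI : Algebra.IsSeparable F B := inferInstance
  haveI : Algebra.FormallyUnramified F B := Algebra.FormallyUnramified.of_isSeparable F B
  haveI : Algebra.FiniteType F B := B.fg_iff_finiteType.mp hB
  haveI : Algebra.EssFiniteType F B := inferInstance
  haveI : Algebra.FormallyUnramified K0 (K0 ⊗[F] B) := inferInstance
  haveI : Algebra.EssFiniteType K0 (K0 ⊗[F] B) := inferInstance
  exact Algebra.FormallyUnramified.isReduced_of_field K0 (K0 ⊗[F] B)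

/-- **Radical.** Proof (1): `Q` the fraction field of `F[x] / (f)`; `Q ⊗ κ` is reduced (`IsReduced.tensorProduct_of_flat_of_forall_fg`: it is enough to treat finite subextensions `B` of `κ / F`, they are separable, `Q ⊗ B` is unramified over `Q`,
`Algebra.FormallyUnramified.isReduced_of_field`), and the kernel of `κ[x] → Q ⊗ κ` is `(f) κ[x]` (a basis of `κ / F`). Proof (2): `g ^ n ∈ (f) κ[x]`, the coefficients of `g` are in a finite Galois extension `F'` of
`F` with basis `e_i`; the conjugates `σ g` are in the radical too, so `Tr (e_i g)` (a polynomial over `F`) has a power in `(f) κ[x] ∩ F[x] = (f)` (`jf_coeff`), so it is in `(f)`, and `g` is a combination of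
the `Tr (e_i g)` (the trace form is nondegenerate). -/
theorem jf_radical [CharZero F] (hp : (Ideal.span (Set.range f)).IsPrime) (κ : Type) [Field κ]
    [Algebra F κ] [Algebra.IsAlgebraic F κ] : (jf κ f).IsRadical := by
  haveI := hp
  haveI hr : IsReduced (κ ⊗[F] FractionRing (MvPolynomial (Fin N) F ⧸ Ideal.span (Set.range f))) := by
    haveI := red_aux (F := F) (FractionRing (MvPolynomial (Fin N) F ⧸ Ideal.span (Set.range f))) κ
    exact isReduced_of_injective (Algebra.TensorProduct.comm F κ
      (FractionRing (MvPolynomial (Fin N) F ⧸ Ideal.span (Set.range f))))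
      (Algebra.TensorProduct.comm F κ _).injective
  have hm2 : Function.Injective (Algebra.TensorProduct.map (AlgHom.id F κ)
      (IsScalarTower.toAlgHom F (MvPolynomial (Fin N) F ⧸ Ideal.span (Set.range f))
        (FractionRing (MvPolynomial (Fin N) F ⧸ Ideal.span (Set.range f))))) :=
    Module.Flat.lTensor_preserves_injective_linearMap (M := κ)
      (IsScalarTower.toAlgHom F (MvPolynomial (Fin N) F ⧸ Ideal.span (Set.range f))
        (FractionRing (MvPolynomial (Fin N) F ⧸ Ideal.span (Set.range f)))).toLinearMap
      (IsFractionRing.injective _ _)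
  haveI hA : IsReduced (κ ⊗[F] (MvPolynomial (Fin N) F ⧸ Ideal.span (Set.range f))) :=
    isReduced_of_injective _ hm2
  have hk := Algebra.TensorProduct.lTensor_ker (A := κ)
    (Ideal.Quotient.mkₐ F (Ideal.span (Set.range f))) (Ideal.Quotient.mkₐ_surjective F _)
  have hI : RingHom.ker (Ideal.Quotient.mkₐ F (Ideal.span (Set.range f))) =
      Ideal.span (Set.range f) := Ideal.Quotient.mkₐ_ker F _
  rw [hI] at hk
  -- membership in `jf`
  have hj : ∀ g : MvPolynomial (Fin N) κ, g ∈ jf κ f ↔
      Algebra.TensorProduct.map (AlgHom.id F κ) (Ideal.Quotient.mkₐ F (Ideal.span (Set.range f)))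
        ((algebraTensorAlgEquiv F κ).symm g) = 0 := by
    intro g
    rw [← RingHom.mem_ker, hk]
    have h1 : jf κ f = (((Ideal.span (Set.range f)).map
        (Algebra.TensorProduct.includeRight : MvPolynomial (Fin N) F →ₐ[F] κ ⊗[F] _)).map
        (algebraTensorAlgEquiv (σ := Fin N) F κ).toRingEquiv) := by
      unfold jf
      rw [Ideal.map_span, Ideal.map_span, ← Set.range_comp, ← Set.range_comp]
      congr 2
      funext i
      simp
    rw [h1]
    constructor
    · intro h
      obtain ⟨x, hx, rfl⟩ := (Ideal.mem_map_of_equiv _ _).mp h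
      simpa using hx
    · intro h
      exact (Ideal.mem_map_of_equiv _ _).mpr ⟨_, h, by simp⟩
  intro g hg
  obtain ⟨n, hn⟩ := hg
  rw [hj] at hn ⊢
  rw [map_pow, map_pow] at hn
  exact IsNilpotent.eq_zero ⟨n, hn⟩

end GX
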