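import Pool.Agent.Lib.MP_f80667_ag.Gx.PjA

/-! The generic fibre is reduced outside of the point `y`. -/

open MvPolynomial

namespace GX

variable {κ : Type} [Field κ] {N d : ℕ} {ι : Type} {f : ι → MvPolynomial (Fin N) κ}

private theorem pjF_lin (R : Type) [CommRing R] (φ : κ →+* R) (y : Fin N → κ) (j : Fin N) :
    map φ (X j - C (y j)) = (X j - C (φ (y j)) : MvPolynomial (Fin N) R) := by
  rw [map_sub, map_X, map_C]

private theorem pjF_aux {Az Sz : Type} [CommRing Az] [CommRing Sz] [IsReduced Az]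
    {y : Fin N → κ} (k : Fin N) (α : MvPolynomial (Fin N) κ →+* Az) (hα : ∀ i, α (f i) = 0)
    (zi : Az) (hz : α (X k - C (y k)) * zi = 1)
    (can : MvPolynomial (Fin N) (MvPolynomial (Fin (d + 1) × Fin N) κ) →+* Sz)
    (hcan : ∀ q ∈ jg f d y, can q = 0) (θ : Az →+* Sz)
    (hθ : ∀ p : MvPolynomial (Fin N) κ, θ (α p) = can (map C p))
    (h : MvPolynomial (Fin (d + 1) × Fin N) κ)
    (g : MvPolynomial (Fin N) (MvPolynomial (Fin (d + 1) × Fin N) κ))
    (hg : C h * g ^ 2 ∈ jg f d y) : can (C h * g) = 0 := by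
  classical
  obtain ⟨u, hu⟩ : ∃ u : Fin (d + 1) × Fin N →
      MvPolynomial (Fin (d + 1) × {j : Fin N // j ≠ k}) Az, u = fun q =>
    if hq : q.2 = k then - ∑ j : {j : Fin N // j ≠ k}, X (q.1, j) * C (α (X j.1 - C (y j.1)) * zi)
    else X (q.1, ⟨q.2, hq⟩) := ⟨_, rfl⟩
  have huk : ∀ r, u (r, k) =
      - ∑ j : {j : Fin N // j ≠ k}, X (r, j) * C (α (X j.1 - C (y j.1)) * zi) := by
    intro r
    rw [hu]
    simp
  have hun : ∀ r (j : {j : Fin N // j ≠ k}), u (r, j.1) = X (r, j) := by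
    intro r j
    rw [hu]
    simp [j.2]
  obtain ⟨ρ, hρ⟩ : ∃ ρ : MvPolynomial (Fin (d + 1) × Fin N) κ →+*
      MvPolynomial (Fin (d + 1) × {j : Fin N // j ≠ k}) Az,
      ρ = eval₂Hom ((C : Az →+* _).comp (α.comp C)) u := ⟨_, rfl⟩
  have hρC : ∀ a, ρ (C a) = C (α (C a)) := fun a => by
    rw [hρ, eval₂Hom_C]; rfl
  have hρX : ∀ q, ρ (X q) = u q := fun q => by
    rw [hρ, eval₂Hom_X']
  obtain ⟨φ, hφ⟩ : ∃ φ : MvPolynomial (Fin N) (MvPolynomial (Fin (d + 1) × Fin N) κ) →+*
      MvPolynomial (Fin (d + 1) × {j : Fin N // j ≠ k}) Az,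
      φ = eval₂Hom ρ (fun j => C (α (X j))) := ⟨_, rfl⟩
  have hφC : ∀ a, φ (C a) = ρ a := fun a => by rw [hφ, eval₂Hom_C]
  have hφX : ∀ j, φ (X j) = C (α (X j)) := fun j => by rw [hφ, eval₂Hom_X']
  obtain ⟨ψ, hψ⟩ : ∃ ψ : MvPolynomial (Fin (d + 1) × {j : Fin N // j ≠ k}) Az →+* Sz,
      ψ = eval₂Hom θ (fun q => can (C (X (q.1, q.2.1)))) := ⟨_, rfl⟩
  have hψC : ∀ a, ψ (C a) = θ a := fun a => by rw [hψ, eval₂Hom_C]
  have hψX : ∀ q, ψ (X q) = can (C (X (q.1, q.2.1))) := fun q => by rw [hψ, eval₂Hom_X']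
  -- `φ` on polynomials over `κ`
  have h1 : ∀ p : MvPolynomial (Fin N) κ, φ (map C p) = C (α p) := by
    intro p
    have e : φ.comp (map C) = (C : Az →+* _).comp α := by
      refine MvPolynomial.ringHom_ext (fun a => ?_) (fun j => ?_)
      · rw [RingHom.comp_apply, map_C, hφC, hρC]; rfl
      · rw [RingHom.comp_apply, map_X, hφX]; rfl
    exact congrArg (fun F => F p) (congrArg DFunLike.coe e)
  have hlin : ∀ j, φ (X j - C (C (y j))) = C (α (X j - C (y j))) := by
    intro j
    rw [← h1, pjF_lin]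
  -- `φ` vanishes on the ideal
  have h2 : ∀ q ∈ jg f d y, φ q = 0 := by
    have : jg f d y ≤ RingHom.ker φ := by
      refine sup_le ?_ ?_
      · unfold jf
        rw [Ideal.span_le]
        rintro _ ⟨i, rfl⟩
        rw [SetLike.mem_coe, RingHom.mem_ker]
        have := h1 (f i)
        rw [hα i, map_zero] at this
        exact this
      · unfold ju
        rw [Ideal.span_le]
        rintro _ ⟨r, rfl⟩
        rw [SetLike.mem_coe, RingHom.mem_ker, map_sum]
        have e : ∀ j, φ (C (gu κ d N r j) * (X j - C (C (y j)))) =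
            u (r, j) * C (α (X j - C (y j))) := by
          intro j
          rw [map_mul, hlin, hφC]
          unfold gu
          rw [hρX]
        rw [Finset.sum_congr rfl fun j _ => e j, Fintype.sum_eq_add_sum_subtype_ne _ k, huk,
          neg_mul, Finset.sum_mul, neg_add_eq_zero]
        refine Finset.sum_congr rfl fun j _ => ?_
        rw [hun, mul_assoc, ← map_mul C]
        congr 2
        rw [mul_assoc, mul_comm zi, hz, mul_one]
    intro q hq
    exact this hq
  -- `ψ (φ q)` is the class of `q`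
  have h3 : ∀ q, ψ (φ q) = can q := by
    intro q
    have hw : can (X k - C (C (y k))) * θ zi = 1 := by
      have e : can (X k - C (C (y k))) = θ (α (X k - C (y k))) := by
        rw [hθ, pjF_lin]
      rw [e, ← map_mul, hz, map_one]
    have hsum : ∀ r, can (C (X (r, k))) = - ∑ j : {j : Fin N // j ≠ k},
        can (C (X (r, j.1))) * θ (α (X j.1 - C (y j.1)) * zi) := by
      intro r
      have e1 : can (∑ j, C (gu κ d N r j) * (X j - C (C (y j)))) = 0 :=
        hcan _ (Ideal.mem_sup_right (Ideal.subset_span ⟨r, rfl⟩))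
      rw [map_sum, Fintype.sum_eq_add_sum_subtype_ne _ k] at e1
      have e2 : ∀ j, can (C (gu κ d N r j) * (X j - C (C (y j)))) =
          can (C (X (r, j))) * θ (α (X j - C (y j))) := by
        intro j
        rw [map_mul, hθ, pjF_lin]
        rfl
      rw [Finset.sum_congr rfl fun j _ => e2 _, e2] at e1
      have e3 := eq_neg_of_add_eq_zero_left e1
      have e4 : can (C (X (r, k))) = can (C (X (r, k))) * θ (α (X k - C (y k))) * θ zi := by
        rw [mul_assoc, ← map_mul θ, hz, map_one, mul_one]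
      rw [e4, e3, neg_mul, Finset.sum_mul]
      congr 1
      refine Finset.sum_congr rfl fun j _ => ?_
      rw [map_mul θ, mul_assoc]
    have e : ψ.comp φ = can := by
      refine MvPolynomial.ringHom_ext (fun a => ?_) (fun j => ?_)
      · have e' : ψ.comp ρ = can.comp C := by
          refine MvPolynomial.ringHom_ext (fun b => ?_) (fun qq => ?_)
          · rw [RingHom.comp_apply, hρC, hψC, hθ, map_C]; rfl
          · obtain ⟨r, j⟩ := qq
            rw [RingHom.comp_apply, hρX, RingHom.comp_apply]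
            by_cases hj : j = k
            · subst hj
              rw [huk, hsum, map_neg, map_sum]
              congr 1
              refine Finset.sum_congr rfl fun j _ => ?_
              rw [map_mul, hψX, hψC]
            · rw [hun r ⟨j, hj⟩, hψX]
        rw [RingHom.comp_apply, hφC]
        exact congrArg (fun F => F a) (congrArg DFunLike.coe e')
      · rw [RingHom.comp_apply, hφX, hψC, hθ, map_X]
    exact congrArg (fun F => F q) (congrArg DFunLike.coe e)
  have h4 : φ (C h * g) = 0 := by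
    have e : φ (C h * g) ^ 2 = 0 := by
      rw [← map_pow, show (C h * g) ^ 2 = C h * (C h * g ^ 2) by ring, map_mul, h2 _ hg, mul_zero]
    exact pow_eq_zero_iff (two_ne_zero) |>.mp e
  rw [← h3, h4, map_zero]

private theorem pjF_loc {P : Type} [CommRing P] (J : Ideal P) (z : P) :
    ∃ (T : Type) (_ : CommRing T) (can : P →+* T), (∀ q ∈ J, can q = 0) ∧ IsUnit (can z) ∧
      ∀ q, can q = 0 → ∃ s, z ^ s * q ∈ J := by
  refine ⟨Localization.Away (Ideal.Quotient.mk J z), inferInstance,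
    (algebraMap (P ⧸ J) (Localization.Away (Ideal.Quotient.mk J z))).comp (Ideal.Quotient.mk J),
    fun q hq => ?_, ?_, fun q hq => ?_⟩
  · rw [RingHom.comp_apply, Ideal.Quotient.eq_zero_iff_mem.mpr hq, map_zero]
  · exact IsLocalization.Away.algebraMap_isUnit (Ideal.Quotient.mk J z)
  · rw [RingHom.comp_apply,
      IsLocalization.map_eq_zero_iff (Submonoid.powers (Ideal.Quotient.mk J z))] at hq
    obtain ⟨⟨_, s, rfl⟩, hm⟩ := hq
    refine ⟨s, ?_⟩
    rw [← Ideal.Quotient.eq_zero_iff_mem, map_mul, map_pow]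
    exact hm

private theorem pjF_locA {P : Type} [CommRing P] (I : Ideal P) (hI : I.IsRadical) (z : P) :
    ∃ (T : Type) (_ : CommRing T) (_ : IsReduced T) (α : P →+* T) (zi : T),
      (∀ q ∈ I, α q = 0) ∧ α z * zi = 1 ∧
      ∀ (T' : Type) [CommRing T'] (γ : P →+* T'), (∀ q ∈ I, γ q = 0) → IsUnit (γ z) →
        ∃ θ : T →+* T', ∀ p, θ (α p) = γ p := by
  have hred : IsReduced (P ⧸ I) := (Ideal.isRadical_iff_quotient_reduced I).mp hI
  refine ⟨Localization.Away (Ideal.Quotient.mk I z), inferInstance, inferInstance,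
    (algebraMap (P ⧸ I) (Localization.Away (Ideal.Quotient.mk I z))).comp (Ideal.Quotient.mk I),
    IsLocalization.Away.invSelf (Ideal.Quotient.mk I z), fun q hq => ?_, ?_, ?_⟩
  · rw [RingHom.comp_apply, Ideal.Quotient.eq_zero_iff_mem.mpr hq, map_zero]
  · exact IsLocalization.Away.mul_invSelf (Ideal.Quotient.mk I z)
  · intro T' _ γ h1 h2
    have h3 : IsUnit (Ideal.Quotient.lift I γ h1 (Ideal.Quotient.mk I z)) := by
      rw [Ideal.Quotient.lift_mk]
      exact h2
    refine ⟨IsLocalization.Away.lift (Ideal.Quotient.mk I z) h3, fun p => ?_⟩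
    rw [RingHom.comp_apply, IsLocalization.Away.lift_eq, Ideal.Quotient.lift_mk]

/-- **The generic fibre.** Proof: `z = x_k - y_k`, `A_z` the localization of `κ[x] / (f)` away from `z`: it is reduced; so is `E = A_z[U_rj, j ≠ k]`. Let `φ : κ[U][x] → E`, `x ↦ x`, `U_rj ↦ U_rj` for `j ≠ k`,
`U_rk ↦ - ∑ U_rj (x_j - y_j) / z` (`j ≠ k`): `φ` is `0` on `jg f d y`. Let `S` be the quotient of `κ[U][x]` modulo `jg f d y`, `S_z` the localization away from `z`, `ψ : E → S_z` the natural map, `ψ (φ (q)) = q` in `S_z` for all `q` (`U_r (x - y) = 0` in `S`).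
`φ (h g) ^ 2 = 0`, so `φ (h g) = 0`, so `h g = 0` in `S_z`. -/
theorem sq_mem (hf : (Ideal.span (Set.range f)).IsRadical) {y : Fin N → κ}
    {h : MvPolynomial (Fin (d + 1) × Fin N) κ}
    {g : MvPolynomial (Fin N) (MvPolynomial (Fin (d + 1) × Fin N) κ)}
    (hg : C h * g ^ 2 ∈ jg f d y) (k : Fin N) :
    ∃ s, (X k - C (C (y k))) ^ s * (C h * g) ∈ jg f d y := by
  obtain ⟨Az, _, _, α, zi, ha1, ha2, ha3⟩ := pjF_locA (Ideal.span (Set.range f)) hf
    (X k - C (y k))
  obtain ⟨Sz, _, can, hc1, hc2, hc3⟩ := pjF_loc (jg f d y) (X k - C (C (y k)))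
  obtain ⟨θ, hθ⟩ := ha3 Sz (can.comp (map C)) (fun q hq => by
      have : Ideal.span (Set.range f) ≤ RingHom.ker (can.comp (map C)) := by
        rw [Ideal.span_le]
        rintro _ ⟨i, rfl⟩
        rw [SetLike.mem_coe, RingHom.mem_ker, RingHom.comp_apply]
        exact hc1 _ (Ideal.mem_sup_left (Ideal.subset_span ⟨i, rfl⟩))
      exact this hq)
    (by rw [RingHom.comp_apply, pjF_lin]; exact hc2)
  exact hc3 _ (pjF_aux k α (fun i => ha1 _ (Ideal.subset_span ⟨i, rfl⟩)) zi ha2 can hc1 θ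
    (fun p => by rw [hθ, RingHom.comp_apply]) h g hg)

end GX
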