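import Pool.Agent.Lib.MP_f80667_ag.Gx.PjA

/-! Taylor's formula. -/

open MvPolynomial

namespace GX

variable {κ : Type} [Field κ] {N d : ℕ} {ι : Type} {f : ι → MvPolynomial (Fin N) κ}

/-- Taylor's formula modulo the square of the ideal of the point `y`, over a `κ`-algebra `S`. Proof: induction on the polynomial. -/
theorem taylor_sq (S : Type) [CommRing S] [Algebra κ S] (y : Fin N → κ)
    (g : MvPolynomial (Fin N) κ) :
    map (algebraMap κ S) g - C (algebraMap κ S (eval y g)) -
      ∑ j, C (algebraMap κ S (eval y (pderiv j g))) * (X j - C (algebraMap κ S (y j))) ∈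
      Ideal.span (Set.range fun j : Fin N => X j - C (algebraMap κ S (y j))) ^ 2 := by
  induction g using MvPolynomial.induction_on with
  | C a =>
    have h : ∑ j, (C (algebraMap κ S (eval y (pderiv j (C a : MvPolynomial (Fin N) κ)))) *
        (X j - C (algebraMap κ S (y j))) : MvPolynomial (Fin N) S) = 0 := by
      refine Finset.sum_eq_zero fun j _ => ?_
      rw [pderiv_C, map_zero, map_zero, map_zero, zero_mul]
    rw [h, map_C, eval_C, sub_self, sub_zero]
    exact Submodule.zero_mem _
  | add p q hp hq =>
    have h : map (algebraMap κ S) (p + q) - C (algebraMap κ S (eval y (p + q))) -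
        ∑ j, C (algebraMap κ S (eval y (pderiv j (p + q)))) * (X j - C (algebraMap κ S (y j))) =
        (map (algebraMap κ S) p - C (algebraMap κ S (eval y p)) -
          ∑ j, C (algebraMap κ S (eval y (pderiv j p))) * (X j - C (algebraMap κ S (y j)))) +
        (map (algebraMap κ S) q - C (algebraMap κ S (eval y q)) -
          ∑ j, C (algebraMap κ S (eval y (pderiv j q))) * (X j - C (algebraMap κ S (y j)))) := by
      have h1 : ∑ j, (C (algebraMap κ S (eval y (pderiv j (p + q)))) *
          (X j - C (algebraMap κ S (y j))) : MvPolynomial (Fin N) S) =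
          ∑ j, C (algebraMap κ S (eval y (pderiv j p))) * (X j - C (algebraMap κ S (y j))) +
          ∑ j, C (algebraMap κ S (eval y (pderiv j q))) * (X j - C (algebraMap κ S (y j))) := by
        rw [← Finset.sum_add_distrib]
        refine Finset.sum_congr rfl fun j _ => ?_
        rw [map_add (pderiv j), map_add (eval y), map_add (algebraMap κ S), map_add C, add_mul]
      rw [h1, map_add (map (algebraMap κ S)), map_add (eval y), map_add (algebraMap κ S), map_add C]
      ring
    rw [h]
    exact Ideal.add_mem _ hp hq
  | mul_X p i hp =>
    set I := Ideal.span (Set.range fun j : Fin N => (X j - C (algebraMap κ S (y j)) :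
      MvPolynomial (Fin N) S)) with hI
    set s := ∑ j, (C (algebraMap κ S (eval y (pderiv j p))) *
      (X j - C (algebraMap κ S (y j))) : MvPolynomial (Fin N) S) with hs
    have hx : ∀ j : Fin N, (X j - C (algebraMap κ S (y j)) : MvPolynomial (Fin N) S) ∈ I :=
      fun j => Ideal.subset_span ⟨j, rfl⟩
    have h1 : ∑ j, (C (algebraMap κ S (eval y (pderiv j (p * X i)))) *
        (X j - C (algebraMap κ S (y j))) : MvPolynomial (Fin N) S) =
        C (algebraMap κ S (y i)) * s + C (algebraMap κ S (eval y p)) *
          (X i - C (algebraMap κ S (y i))) := by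
      have h2 : ∀ j : Fin N, (C (algebraMap κ S (eval y (pderiv j (p * X i)))) *
          (X j - C (algebraMap κ S (y j))) : MvPolynomial (Fin N) S) =
          C (algebraMap κ S (y i)) * (C (algebraMap κ S (eval y (pderiv j p))) *
            (X j - C (algebraMap κ S (y j)))) +
          (if j = i then C (algebraMap κ S (eval y p)) * (X j - C (algebraMap κ S (y j)))
            else 0) := by
        intro j
        have h3 : pderiv j (p * X i) = pderiv j p * X i + p * pderiv j (X i) := by
          rw [Derivation.leibniz]
          simp only [smul_eq_mul]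
          ring
        rw [h3, map_add (eval y), map_mul (eval y), map_mul (eval y), eval_X]
        by_cases hj : j = i
        · subst hj
          rw [if_pos rfl, pderiv_X_self, map_one, mul_one, map_add (algebraMap κ S),
            map_mul (algebraMap κ S), map_add C, map_mul C]
          ring
        · rw [if_neg hj, pderiv_X_of_ne (Ne.symm hj), map_zero, mul_zero, add_zero,
            map_mul (algebraMap κ S), map_mul C]
          ring
      rw [Finset.sum_congr rfl fun j _ => h2 j, Finset.sum_add_distrib, ← Finset.mul_sum,
        Finset.sum_ite_eq' Finset.univ i, if_pos (Finset.mem_univ i)]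
    have hsI : s ∈ I := Ideal.sum_mem _ fun j _ => Ideal.mul_mem_left _ _ (hx j)
    have h4 : map (algebraMap κ S) p - C (algebraMap κ S (eval y p)) ∈ I := by
      have h5 := Ideal.add_mem _ (Ideal.pow_le_self two_ne_zero hp) hsI
      rwa [sub_add_cancel] at h5
    have h6 : map (algebraMap κ S) (p * X i) - C (algebraMap κ S (eval y (p * X i))) -
        ∑ j, C (algebraMap κ S (eval y (pderiv j (p * X i)))) * (X j - C (algebraMap κ S (y j))) =
        (map (algebraMap κ S) p - C (algebraMap κ S (eval y p))) *
          (X i - C (algebraMap κ S (y i))) +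
        C (algebraMap κ S (y i)) * (map (algebraMap κ S) p - C (algebraMap κ S (eval y p)) - s) := by
      rw [h1, map_mul (map (algebraMap κ S)), map_X, map_mul (eval y), eval_X,
        map_mul (algebraMap κ S), map_mul C]
      ring
    rw [h6]
    refine Ideal.add_mem _ ?_ (Ideal.mul_mem_left _ _ hp)
    rw [pow_two]
    exact Ideal.mul_mem_mul h4 (hx i)

end GX
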