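import Pool.Agent.Lib.MP_f80667_ag.Gx.PjG

/-! The generic fibre at the point `y`. -/

open MvPolynomial

namespace GX

variable {κ : Type} [Field κ] {N d : ℕ} {ι : Type} {f : ι → MvPolynomial (Fin N) κ}

/-- Linear algebra: if the orthogonal space of a family of vectors has dimension at most `n`, then the family and `n` further vectors contain a basis. -/
private theorem exists_rows (R : ι → Fin N → κ) (n : ℕ) (T : Submodule κ (Fin N → κ))
    (hT : ∀ t, t ∈ T ↔ ∀ i, ∑ j, R i j * t j = 0) (hn : Module.finrank κ T ≤ n) :
    ∃ (U : Fin n → Fin N → κ) (e : Fin N → ι ⊕ Fin n),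
      (Matrix.of fun k => Sum.elim R U (e k)).det ≠ 0 := by
  classical
  set V : Submodule κ (Fin N → κ) := Submodule.span κ (Set.range R) with hV
  have e1 : T = V.dualAnnihilator.comap (dotProductEquiv κ (Fin N)).toLinearMap := by
    ext t
    rw [hT, Submodule.mem_comap, Submodule.mem_dualAnnihilator]
    constructor
    · intro h w hw
      induction hw using Submodule.span_induction with
      | mem x hx =>
        obtain ⟨i, rfl⟩ := hx
        have := h i
        simp only [LinearEquiv.coe_coe, dotProductEquiv_apply_apply, dotProduct]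
        rw [← this]
        exact Finset.sum_congr rfl fun j _ => mul_comm _ _
      | zero => exact map_zero _
      | add x y _ _ hx hy => rw [map_add, hx, hy, add_zero]
      | smul c x _ hx => rw [map_smul, hx, smul_zero]
    · intro h i
      have := h (R i) (Submodule.subset_span ⟨i, rfl⟩)
      simp only [LinearEquiv.coe_coe, dotProductEquiv_apply_apply, dotProduct] at this
      rw [← this]
      exact Finset.sum_congr rfl fun j _ => mul_comm _ _
  have e2 : Module.finrank κ T = Module.finrank κ V.dualAnnihilator := by
    have e0 : T.map (dotProductEquiv κ (Fin N)).toLinearMap = V.dualAnnihilator := by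
      rw [e1]
      exact Submodule.map_comap_eq_of_surjective (dotProductEquiv κ (Fin N)).surjective _
    rw [← e0]
    exact ((dotProductEquiv κ (Fin N)).submoduleMap T).finrank_eq
  have e3 := Subspace.finrank_add_finrank_dualAnnihilator_eq V
  have e4 := Submodule.finrank_quotient_add_finrank V
  have e5 : Module.finrank κ ((Fin N → κ) ⧸ V) ≤ n := by omega
  set b := Module.finBasis κ ((Fin N → κ) ⧸ V)
  have h1 : ∀ q : (Fin N → κ) ⧸ V, ∃ x, V.mkQ x = q := V.mkQ_surjective
  choose s hs using h1
  set U : Fin n → Fin N → κ := fun r =>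
    if h : (r : ℕ) < Module.finrank κ ((Fin N → κ) ⧸ V) then s (b ⟨r, h⟩) else 0 with hU
  have h2 : Submodule.span κ (Set.range (Sum.elim R U)) = ⊤ := by
    rw [Set.Sum.elim_range, Submodule.span_union, ← hV, eq_top_iff]
    have h3 : (⊤ : Submodule κ ((Fin N → κ) ⧸ V)) ≤
        (Submodule.span κ (Set.range U)).map V.mkQ := by
      rw [← b.span_eq, Submodule.span_le]
      rintro _ ⟨i, rfl⟩
      refine ⟨U ⟨i, i.2.trans_le e5⟩, Submodule.subset_span ⟨_, rfl⟩, ?_⟩
      rw [hU]
      simp only [Fin.is_lt, dite_true, Fin.eta, hs]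
    intro x _
    obtain ⟨u, hu, hux⟩ := h3 (Submodule.mem_top (x := V.mkQ x))
    have h4 : x - u ∈ V := by
      rw [← Submodule.ker_mkQ V, LinearMap.mem_ker, map_sub, hux, sub_self]
    rw [show x = (x - u) + u from (sub_add_cancel _ _).symm]
    exact Submodule.add_mem_sup h4 hu
  obtain ⟨K, a, ha, hspan, hli⟩ := exists_linearIndependent' κ (Sum.elim R U)
  rw [h2] at hspan
  set B := Module.Basis.mk hli hspan.ge
  set c : K ≃ Fin N := B.indexEquiv (Pi.basisFun κ (Fin N))
  refine ⟨U, fun k => a (c.symm k), ?_⟩
  have h5 : LinearIndependent κ fun k : Fin N => Sum.elim R U (a (c.symm k)) :=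
    hli.comp _ c.symm.injective
  have h6 := (Matrix.linearIndependent_rows_iff_isUnit
    (A := Matrix.of fun k : Fin N => Sum.elim R U (a (c.symm k)))).1 h5
  exact ((Matrix.isUnit_iff_isUnit_det _).1 h6).ne_zero

/-- **The generic fibre at `y`.** Proof: linear algebra: `tgs f y` is the space orthogonal to the rows `∂ f_i (y)`, so the rows span a space of dimension `≥ N - d - 1`; choose a basis of `κ ^ N` which consists of rows `∂ f_i (y)`, `i ∈ I`,
and at most `d + 1` further vectors `b_r`. Let `H` be the matrix with the rows `∂ f_i (y)`, `i ∈ I`, and `U_r` (generic) instead of `b_r`, `h = det H`: it is not `0` because it is not `0` for `U_r = b_r`. `adjugate H * H = h`: so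
`h (x_j - y_j)` is a combination of the `∑ ∂_j f_i (y) (x_j - y_j)` (in `(f) + 𝔪 ^ 2` by `taylor_sq`) and the `U_r (x - y)`. -/
theorem exists_h3 {y : Fin N → κ} (h0 : ∀ i, eval y (f i) = 0)
    (hy : Module.finrank κ (tgs f y) ≤ d + 1) :
    ∃ h : MvPolynomial (Fin (d + 1) × Fin N) κ, h ≠ 0 ∧ ∀ j,
      C h * (X j - C (C (y j))) ∈ jg f d y ⊔
        Ideal.span (Set.range fun j : Fin N => X j - C (C (y j))) ^ 2 := by
  classical
  obtain ⟨U, e, he⟩ := exists_rows (fun i j => eval y (pderiv j (f i))) (d + 1) (tgs f y)
    (fun t => mem_tgs) hy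
  set H : Matrix (Fin N) (Fin N) (MvPolynomial (Fin (d + 1) × Fin N) κ) :=
    Matrix.of fun k j => Sum.elim (fun i => C (eval y (pderiv j (f i)))) (fun r => X (r, j)) (e k)
    with hH
  refine ⟨H.det, fun h => he ?_, fun j => ?_⟩
  · have h1 : (eval fun q : Fin (d + 1) × Fin N => U q.1 q.2) H.det = 0 := by rw [h, map_zero]
    rw [RingHom.map_det] at h1
    rw [← h1]
    congr 1
    ext k j
    rw [RingHom.mapMatrix_apply, Matrix.map_apply, hH, Matrix.of_apply, Matrix.of_apply]
    rcases e k with i | r
    · simp
    · simp
  · have h2 : ∀ k, ∑ l, C (H k l) * (X l - C (C (y l))) ∈ jg f d y ⊔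
        Ideal.span (Set.range fun j : Fin N => X j - C (C (y j))) ^ 2 := by
      intro k
      rcases hk : e k with i | r
      · have h3 := taylor_sq (MvPolynomial (Fin (d + 1) × Fin N) κ) y (f i)
        rw [h0 i, map_zero, map_zero, sub_zero] at h3
        have h4 : ∑ l, C (H k l) * (X l - C (C (y l))) =
            map (algebraMap κ (MvPolynomial (Fin (d + 1) × Fin N) κ)) (f i) -
            (map (algebraMap κ (MvPolynomial (Fin (d + 1) × Fin N) κ)) (f i) -
              ∑ j, C (algebraMap κ (MvPolynomial (Fin (d + 1) × Fin N) κ)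
                (eval y (pderiv j (f i)))) * (X j - C (algebraMap κ _ (y j)))) := by
          rw [sub_sub_cancel]
          refine Finset.sum_congr rfl fun l _ => ?_
          rw [hH, Matrix.of_apply, hk]
          rfl
        rw [h4]
        refine Ideal.sub_mem _ (Ideal.mem_sup_left (Ideal.mem_sup_left
          (Ideal.subset_span ⟨i, rfl⟩))) (Ideal.mem_sup_right h3)
      · have h4 : ∑ l, C (H k l) * (X l - C (C (y l))) =
            ∑ l, C (gu κ d N r l) * (X l - C (C (y l))) := by
          refine Finset.sum_congr rfl fun l _ => ?_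
          rw [hH, Matrix.of_apply, hk]
          rfl
        rw [h4]
        exact Ideal.mem_sup_left (Ideal.mem_sup_right (Ideal.subset_span ⟨r, rfl⟩))
    have h5 : C H.det * (X j - C (C (y j))) =
        ∑ k, C (H.adjugate j k) * ∑ l, C (H k l) * (X l - C (C (y l))) := by
      have h6 : ∀ l, ∑ k, H.adjugate j k * H k l = if j = l then H.det else 0 := by
        intro l
        have := congrFun (congrFun H.adjugate_mul j) l
        rw [Matrix.mul_apply, Matrix.smul_apply, Matrix.one_apply, smul_eq_mul, mul_ite, mul_one,
          mul_zero] at this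
        exact this
      calc C H.det * (X j - C (C (y j)))
          = ∑ l, C (if j = l then H.det else 0) *
            ((X l : MvPolynomial (Fin N) (MvPolynomial (Fin (d + 1) × Fin N) κ)) -
              C (C (y l))) := by
            rw [Finset.sum_eq_single j]
            · rw [if_pos rfl]
            · intro l _ hl
              rw [if_neg (Ne.symm hl), map_zero, zero_mul]
            · exact fun h => absurd (Finset.mem_univ _) h
        _ = ∑ l, ∑ k, C (H.adjugate j k) * (C (H k l) * (X l - C (C (y l)))) := by
            refine Finset.sum_congr rfl fun l _ => ?_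
            rw [← h6 l, map_sum, Finset.sum_mul]
            refine Finset.sum_congr rfl fun k _ => ?_
            rw [map_mul, mul_assoc]
        _ = _ := by
            rw [Finset.sum_comm]
            exact Finset.sum_congr rfl fun k _ => (Finset.mul_sum _ _ _).symm
    rw [h5]
    exact Ideal.sum_mem _ fun k _ => Ideal.mul_mem_left _ _ (h2 k)

end GX
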