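import Pool.Agent.Lib.MP_f80667_ag.Gx.PjA

/-! The generic fibre. -/

open MvPolynomial

namespace GX

variable {κ : Type} [Field κ] {N d : ℕ} {ι : Type} {f : ι → MvPolynomial (Fin N) κ}

/-- The ideal over the field of the rational functions of the generic matrix. -/
noncomputable abbrev jk (f : ι → MvPolynomial (Fin N) κ) (d : ℕ) (y : Fin N → κ) :
    Ideal (MvPolynomial (Fin N) (FractionRing (MvPolynomial (Fin (d + 1) × Fin N) κ))) :=
  (jg f d y).map (map (algebraMap (MvPolynomial (Fin (d + 1) × Fin N) κ)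
    (FractionRing (MvPolynomial (Fin (d + 1) × Fin N) κ))))

/-- Denominators. Proof: `IsLocalization` of polynomial rings (`MvPolynomial.isLocalization`), `IsLocalization.mem_map_algebraMap_iff`. -/
theorem mem_jk {y : Fin N → κ}
    {g : MvPolynomial (Fin N) (MvPolynomial (Fin (d + 1) × Fin N) κ)} :
    map (algebraMap (MvPolynomial (Fin (d + 1) × Fin N) κ)
      (FractionRing (MvPolynomial (Fin (d + 1) × Fin N) κ))) g ∈ jk f d y ↔
      ∃ h : MvPolynomial (Fin (d + 1) × Fin N) κ, h ≠ 0 ∧ C h * g ∈ jg f d y := by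
  have hinj : Function.Injective (algebraMap (MvPolynomial (Fin (d + 1) × Fin N) κ)
      (FractionRing (MvPolynomial (Fin (d + 1) × Fin N) κ))) :=
    IsFractionRing.injective _ _
  let alg : Algebra (MvPolynomial (Fin N) (MvPolynomial (Fin (d + 1) × Fin N) κ))
      (MvPolynomial (Fin N) (FractionRing (MvPolynomial (Fin (d + 1) × Fin N) κ))) :=
    MvPolynomial.algebraMvPolynomial
  constructor
  · intro hg
    have h1 := (IsLocalization.mem_map_algebraMap_iff
      ((nonZeroDivisors (MvPolynomial (Fin (d + 1) × Fin N) κ)).map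
        (C : _ →+* MvPolynomial (Fin N) (MvPolynomial (Fin (d + 1) × Fin N) κ)))
      (MvPolynomial (Fin N) (FractionRing (MvPolynomial (Fin (d + 1) × Fin N) κ)))
      (I := jg f d y)).1 hg
    obtain ⟨⟨⟨a, ha⟩, ⟨b, hb⟩⟩, h2⟩ := h1
    obtain ⟨m, hm, rfl⟩ := Submonoid.mem_map.1 hb
    refine ⟨m, nonZeroDivisors.ne_zero hm, ?_⟩
    have h3 : g * C m = a := map_injective _ hinj (by
      rw [map_mul]
      exact h2)
    rw [mul_comm, h3]
    exact ha
  · rintro ⟨h, h0, hh⟩
    have h1 := Ideal.mem_map_of_mem (map (algebraMap (MvPolynomial (Fin (d + 1) × Fin N) κ)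
      (FractionRing (MvPolynomial (Fin (d + 1) × Fin N) κ)))) hh
    rw [map_mul, map_C] at h1
    have h2 : algebraMap (MvPolynomial (Fin (d + 1) × Fin N) κ)
      (FractionRing (MvPolynomial (Fin (d + 1) × Fin N) κ)) h ≠ 0 := fun h3 =>
        h0 (hinj (h3.trans (map_zero _).symm))
    have h3 := Ideal.mul_mem_left _ (C (algebraMap (MvPolynomial (Fin (d + 1) × Fin N) κ)
      (FractionRing (MvPolynomial (Fin (d + 1) × Fin N) κ)) h)⁻¹) h1
    rwa [← mul_assoc, ← C_mul, inv_mul_cancel₀ h2, C_1, one_mul] at h3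

end GX
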