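import Pool.Agent.Lib.MP_f80667_ag.Gx.PjH
import Pool.Agent.Lib.MP_f80667_ag.Gx.PjF
import Pool.Agent.Lib.MP_f80667_ag.Gx.PjGb

/-! The generic fibre is reduced. -/

open MvPolynomial

namespace GX

private theorem PjHb_core {A : Type} [CommRing A] {N : ℕ} {J : Ideal A} {z : Fin N → A} {g : A}
    (h1 : ∀ k, ∃ s, z k ^ s * g ∈ J) (h2 : ∀ j, z j ∈ J ⊔ Ideal.span (Set.range z) ^ 2)
    (h3 : g ∈ Ideal.span (Set.range z)) : g ∈ J := by
  let K : Ideal A := Submodule.comap (LinearMap.mulRight A g) J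
  have hK : ∀ a, a ∈ K ↔ a * g ∈ J := fun a => Iff.rfl
  have hfg : (Ideal.span (Set.range z)).FG := Submodule.fg_span (Set.finite_range z)
  have hle : Ideal.span (Set.range z) ≤ K.radical := by
    rw [Ideal.span_le]
    rintro _ ⟨k, rfl⟩
    obtain ⟨s, hs⟩ := h1 k
    exact ⟨s, (hK _).2 hs⟩
  obtain ⟨t, ht⟩ := Ideal.exists_pow_le_of_le_radical_of_fg hle hfg
  have hsup : Ideal.span (Set.range z) ≤
      J ⊔ Ideal.span (Set.range z) • Ideal.span (Set.range z) := by
    rw [smul_eq_mul, ← sq, Ideal.span_le]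
    rintro _ ⟨k, rfl⟩
    exact h2 k
  obtain ⟨r, hr1, hr2⟩ := Submodule.exists_sub_one_mem_and_smul_le_of_fg_of_le_sup hfg le_rfl hsup
  have h4 : r * g ∈ J := hr2 (Submodule.smul_mem_pointwise_smul g r _ h3)
  have h5 : (r - 1) ^ t * g ∈ J := (hK _).1 (ht (Ideal.pow_mem_pow hr1 t))
  obtain ⟨q, hq⟩ : r ∣ (r - 1) ^ t - (-1) ^ t := by
    have h6 := sub_dvd_pow_sub_pow (r - 1) (-1) t
    rwa [sub_neg_eq_add, sub_add_cancel] at h6
  have h7 : (-1) ^ t * g ∈ J := by
    have h8 : (-1) ^ t * g = (r - 1) ^ t * g - q * (r * g) := by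
      linear_combination (-g) * hq
    rw [h8]
    exact J.sub_mem h5 (J.mul_mem_left _ h4)
  have h9 : g = (-1) ^ t * ((-1) ^ t * g) := by
    rw [← mul_assoc, ← mul_pow, neg_one_mul, neg_neg, one_pow, one_mul]
  rw [h9]
  exact J.mul_mem_left _ h7

private theorem PjHb_sub {A : Type} [CommRing A] {N : ℕ} (a : Fin N → A)
    (g : MvPolynomial (Fin N) A) :
    g - C (eval a g) ∈ Ideal.span (Set.range fun j : Fin N => X j - C (a j)) := by
  induction g using MvPolynomial.induction_on with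
  | C c => rw [eval_C, sub_self]; exact Submodule.zero_mem _
  | add p q hp hq =>
    have h : p + q - C (eval a (p + q)) = (p - C (eval a p)) + (q - C (eval a q)) := by
      rw [map_add, map_add]; ring
    rw [h]
    exact Ideal.add_mem _ hp hq
  | mul_X p n hp =>
    have h : p * X n - C (eval a (p * X n)) =
        X n * (p - C (eval a p)) + C (eval a p) * (X n - C (a n)) := by
      rw [map_mul, eval_X, map_mul]; ring
    rw [h]
    exact Ideal.add_mem _ (Ideal.mul_mem_left _ _ hp)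
      (Ideal.mul_mem_left _ _ (Ideal.subset_span ⟨n, rfl⟩))

attribute [local instance] MvPolynomial.algebraMvPolynomial in
private theorem PjHb_den {R S : Type} [CommRing R] [CommRing S] [Algebra R S]
    [IsLocalization (nonZeroDivisors R) S] {N : ℕ} (g : MvPolynomial (Fin N) S) :
    ∃ (c : R) (g0 : MvPolynomial (Fin N) R), c ∈ nonZeroDivisors R ∧
      map (algebraMap R S) g0 = C (algebraMap R S c) * g := by
  obtain ⟨⟨x, ⟨m, hm⟩⟩, hx⟩ := IsLocalization.surj
    (Submonoid.map (C (σ := Fin N)) (nonZeroDivisors R)) g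
  obtain ⟨c, hc, rfl⟩ := hm
  refine ⟨c, x, hc, ?_⟩
  have h1 : map (algebraMap R S) x = g * map (algebraMap R S) (C c) := hx.symm
  rw [h1, map_C, mul_comm]

variable {κ : Type} [Field κ] {N d : ℕ} {ι : Type} {f : ι → MvPolynomial (Fin N) κ}

private theorem PjHb_ker {y : Fin N → κ} (h0 : ∀ i, eval y (f i) = 0) :
    jk f d y ≤ RingHom.ker (eval fun j : Fin N =>
      algebraMap (MvPolynomial (Fin (d + 1) × Fin N) κ)
        (FractionRing (MvPolynomial (Fin (d + 1) × Fin N) κ)) (C (y j))) := by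
  unfold jk
  rw [Ideal.map_le_iff_le_comap]
  unfold jg
  refine sup_le ?_ ?_
  · unfold jf
    rw [Ideal.span_le]
    rintro _ ⟨i, rfl⟩
    rw [SetLike.mem_coe, Ideal.mem_comap, RingHom.mem_ker]
    simp only [MvPolynomial.map_map, eval_map]
    have h1 := eval₂_comp ((algebraMap (MvPolynomial (Fin (d + 1) × Fin N) κ)
      (FractionRing (MvPolynomial (Fin (d + 1) × Fin N) κ))).comp
      (algebraMap κ (MvPolynomial (Fin (d + 1) × Fin N) κ))) y (f i)
    rw [h0, map_zero] at h1
    exact h1.symm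
  · unfold ju
    rw [Ideal.span_le]
    rintro _ ⟨r, rfl⟩
    rw [SetLike.mem_coe, Ideal.mem_comap, RingHom.mem_ker]
    simp only [map_sum, map_mul, map_sub, map_C, map_X, eval_X, eval_C, sub_self, mul_zero,
      Finset.sum_const_zero]

/-- **The generic fibre is reduced.** Proof: it is enough that `g ^ 2 ∈ jk` implies `g ∈ jk`; clear the denominators of `g`, `mem_jk`: `C h * g ^ 2 ∈ jg f d y`; `sq_mem`: `z_k ^ s g ∈ jk` for all `k`, so `𝔪 ^ t g ⊆ jk`, `𝔪 = (z_k)`;
`exists_h3`: `𝔪 ≤ jk ⊔ 𝔪 ^ 2`, so the image `𝔪'` of `𝔪` in the quotient ring `R` is idempotent (`Ideal.isIdempotentElem_iff_of_fg`): `𝔪' = (e)`, `e g = 0`; the value of `g` at `y` has the square `0` (`jk` vanishes at `y`), so `g ∈ 𝔪' = (e)` and `g = e g = 0`. -/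
theorem jk_radical (hf : (Ideal.span (Set.range f)).IsRadical) {y : Fin N → κ}
    (h0 : ∀ i, eval y (f i) = 0) (hy : Module.finrank κ (tgs f y) ≤ d + 1) :
    (jk f d y).IsRadical := by
  classical
  rw [Ideal.isRadical_iff_pow_one_lt 2 one_lt_two]
  intro g hg
  have hunit : ∀ c : MvPolynomial (Fin (d + 1) × Fin N) κ, c ≠ 0 →
      IsUnit (C (algebraMap (MvPolynomial (Fin (d + 1) × Fin N) κ)
        (FractionRing (MvPolynomial (Fin (d + 1) × Fin N) κ)) c) :
        MvPolynomial (Fin N) (FractionRing (MvPolynomial (Fin (d + 1) × Fin N) κ))) := by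
    intro c hc
    apply IsUnit.map C
    rw [isUnit_iff_ne_zero]
    exact (map_ne_zero_iff _ (IsFractionRing.injective _ _)).2 hc
  -- denominators
  obtain ⟨c, g0, hc, hg0⟩ : ∃ (c : MvPolynomial (Fin (d + 1) × Fin N) κ)
      (g0 : MvPolynomial (Fin N) (MvPolynomial (Fin (d + 1) × Fin N) κ)), c ≠ 0 ∧
      map (algebraMap (MvPolynomial (Fin (d + 1) × Fin N) κ)
        (FractionRing (MvPolynomial (Fin (d + 1) × Fin N) κ))) g0 =
        C (algebraMap (MvPolynomial (Fin (d + 1) × Fin N) κ)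
          (FractionRing (MvPolynomial (Fin (d + 1) × Fin N) κ)) c) * g := by
    obtain ⟨c, g0, hc, hg0⟩ := PjHb_den (R := MvPolynomial (Fin (d + 1) × Fin N) κ) g
    exact ⟨c, g0, nonZeroDivisors.ne_zero hc, hg0⟩
  -- the powers
  have hz : ∀ j : Fin N, map (algebraMap (MvPolynomial (Fin (d + 1) × Fin N) κ)
        (FractionRing (MvPolynomial (Fin (d + 1) × Fin N) κ))) (X j - C (C (y j))) =
        X j - C (algebraMap (MvPolynomial (Fin (d + 1) × Fin N) κ)
        (FractionRing (MvPolynomial (Fin (d + 1) × Fin N) κ)) (C (y j))) := by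
    intro j
    rw [map_sub, map_X, map_C]
  have h1 : ∀ k : Fin N, ∃ s, (X k - C (algebraMap (MvPolynomial (Fin (d + 1) × Fin N) κ)
        (FractionRing (MvPolynomial (Fin (d + 1) × Fin N) κ)) (C (y k)))) ^ s * g ∈ jk f d y := by
    intro k
    have h2 : map (algebraMap (MvPolynomial (Fin (d + 1) × Fin N) κ)
        (FractionRing (MvPolynomial (Fin (d + 1) × Fin N) κ))) (g0 ^ 2) ∈ jk f d y := by
      rw [map_pow, hg0, mul_pow]
      exact Ideal.mul_mem_left _ _ hg
    obtain ⟨h, hh, h3⟩ := mem_jk.1 h2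
    obtain ⟨s, hs⟩ := sq_mem hf h3 k
    refine ⟨s, ?_⟩
    have h4 := Ideal.mem_map_of_mem (map (algebraMap (MvPolynomial (Fin (d + 1) × Fin N) κ)
      (FractionRing (MvPolynomial (Fin (d + 1) × Fin N) κ)))) hs
    rw [map_mul, map_pow, hz, map_mul, map_C, hg0] at h4
    rw [← Ideal.unit_mul_mem_iff_mem _ (hunit c hc), ← Ideal.unit_mul_mem_iff_mem _ (hunit h hh)]
    have h5 : C (algebraMap (MvPolynomial (Fin (d + 1) × Fin N) κ)
        (FractionRing (MvPolynomial (Fin (d + 1) × Fin N) κ)) h) *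
        (C (algebraMap (MvPolynomial (Fin (d + 1) × Fin N) κ)
        (FractionRing (MvPolynomial (Fin (d + 1) × Fin N) κ)) c) *
        ((X k - C (algebraMap (MvPolynomial (Fin (d + 1) × Fin N) κ)
        (FractionRing (MvPolynomial (Fin (d + 1) × Fin N) κ)) (C (y k)))) ^ s * g)) =
        (X k - C (algebraMap (MvPolynomial (Fin (d + 1) × Fin N) κ)
        (FractionRing (MvPolynomial (Fin (d + 1) × Fin N) κ)) (C (y k)))) ^ s *
        (C (algebraMap (MvPolynomial (Fin (d + 1) × Fin N) κ)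
        (FractionRing (MvPolynomial (Fin (d + 1) × Fin N) κ)) h) *
        (C (algebraMap (MvPolynomial (Fin (d + 1) × Fin N) κ)
        (FractionRing (MvPolynomial (Fin (d + 1) × Fin N) κ)) c) * g)) := by
      ring
    rw [h5]
    exact h4
  -- the point
  have h2 : ∀ j : Fin N, X j - C (algebraMap (MvPolynomial (Fin (d + 1) × Fin N) κ)
        (FractionRing (MvPolynomial (Fin (d + 1) × Fin N) κ)) (C (y j))) ∈ jk f d y ⊔
        Ideal.span (Set.range fun j : Fin N => X j - C (algebraMap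
          (MvPolynomial (Fin (d + 1) × Fin N) κ)
          (FractionRing (MvPolynomial (Fin (d + 1) × Fin N) κ)) (C (y j)))) ^ 2 := by
    intro j
    obtain ⟨h, hh, h3⟩ := exists_h3 h0 hy
    have h4 := Ideal.mem_map_of_mem (map (algebraMap (MvPolynomial (Fin (d + 1) × Fin N) κ)
      (FractionRing (MvPolynomial (Fin (d + 1) × Fin N) κ)))) (h3 j)
    rw [Ideal.map_sup, Ideal.map_pow, Ideal.map_span, ← Set.range_comp, map_mul, hz, map_C,
      Ideal.unit_mul_mem_iff_mem _ (hunit h hh)] at h4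
    have h5 : (⇑(map (algebraMap (MvPolynomial (Fin (d + 1) × Fin N) κ)
        (FractionRing (MvPolynomial (Fin (d + 1) × Fin N) κ)))) ∘
        fun j : Fin N => (X j - C (C (y j)) :
          MvPolynomial (Fin N) (MvPolynomial (Fin (d + 1) × Fin N) κ))) =
        fun j : Fin N => X j - C (algebraMap (MvPolynomial (Fin (d + 1) × Fin N) κ)
          (FractionRing (MvPolynomial (Fin (d + 1) × Fin N) κ)) (C (y j))) := funext hz
    rw [h5] at h4
    exact h4
  refine PjHb_core h1 h2 ?_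
  have h3 := PjHb_ker (d := d) h0 hg
  rw [RingHom.mem_ker, map_pow] at h3
  have h4 := PjHb_sub (fun j : Fin N => algebraMap (MvPolynomial (Fin (d + 1) × Fin N) κ)
        (FractionRing (MvPolynomial (Fin (d + 1) × Fin N) κ)) (C (y j))) g
  rw [pow_eq_zero_iff two_ne_zero] at h3
  rw [h3, map_zero, sub_zero] at h4
  exact h4

end GX
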