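import Pool.Agent.Lib.MP_f80667_ag.Gx.PjH
import Pool.Agent.Lib.MP_f80667_ag.Gx.PjD

/-! The generic fibre is finite. -/

open MvPolynomial

namespace GX

variable {κ : Type} [Field κ] {N d : ℕ} {ι : Type} {f : ι → MvPolynomial (Fin N) κ}

private theorem pjhc_lf {R R' : Type} [CommRing R] [CommRing R'] (φ : R →+* R') {N : ℕ}
    (a : Fin N → R) : map φ (lf a) = lf fun j => φ (a j) := by
  rw [lf, lf, map_sum]
  refine Finset.sum_congr rfl fun j _ => ?_
  rw [map_mul, map_C, map_X]

/-- The generic matrix over the field of fractions. -/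
private noncomputable def pjhcU (κ : Type) [Field κ] (d N : ℕ) : Fin (d + 1) → Fin N →
    FractionRing (MvPolynomial (Fin (d + 1) × Fin N) κ) := fun r j =>
  algebraMap (MvPolynomial (Fin (d + 1) × Fin N) κ)
    (FractionRing (MvPolynomial (Fin (d + 1) × Fin N) κ)) (X (r, j))

private theorem pjhc_jf (f : ι → MvPolynomial (Fin N) κ) (d : ℕ) :
    (jf (MvPolynomial (Fin (d + 1) × Fin N) κ) f).map
      (map (algebraMap (MvPolynomial (Fin (d + 1) × Fin N) κ)
        (FractionRing (MvPolynomial (Fin (d + 1) × Fin N) κ)))) =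
      jf (FractionRing (MvPolynomial (Fin (d + 1) × Fin N) κ)) f :=
  jf_map f (IsScalarTower.toAlgHom κ (MvPolynomial (Fin (d + 1) × Fin N) κ)
    (FractionRing (MvPolynomial (Fin (d + 1) × Fin N) κ)))

private theorem pjhc_jf_le (f : ι → MvPolynomial (Fin N) κ) (d : ℕ) (y : Fin N → κ) :
    jf (FractionRing (MvPolynomial (Fin (d + 1) × Fin N) κ)) f ≤ jk f d y := by
  rw [← pjhc_jf]
  exact Ideal.map_mono le_sup_left

private theorem pjhc_mem (f : ι → MvPolynomial (Fin N) κ) (d : ℕ) (y : Fin N → κ)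
    (r : Fin (d + 1)) :
    lf (pjhcU κ d N r) - C (∑ j, pjhcU κ d N r j *
      algebraMap κ (FractionRing (MvPolynomial (Fin (d + 1) × Fin N) κ)) (y j)) ∈ jk f d y := by
  have h1 : (∑ j, C (gu κ d N r j) * (X j - C (C (y j))) :
      MvPolynomial (Fin N) (MvPolynomial (Fin (d + 1) × Fin N) κ)) ∈ jg f d y :=
    Ideal.mem_sup_right (Ideal.subset_span ⟨r, rfl⟩)
  have h2 := Ideal.mem_map_of_mem (map (algebraMap (MvPolynomial (Fin (d + 1) × Fin N) κ)
    (FractionRing (MvPolynomial (Fin (d + 1) × Fin N) κ)))) h1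
  have h3 : map (algebraMap (MvPolynomial (Fin (d + 1) × Fin N) κ)
      (FractionRing (MvPolynomial (Fin (d + 1) × Fin N) κ)))
        (∑ j, C (gu κ d N r j) * (X j - C (C (y j)))) =
      lf (pjhcU κ d N r) - C (∑ j, pjhcU κ d N r j *
        algebraMap κ (FractionRing (MvPolynomial (Fin (d + 1) × Fin N) κ)) (y j)) := by
    rw [lf, map_sum, map_sum, ← Finset.sum_sub_distrib]
    refine Finset.sum_congr rfl fun j _ => ?_
    rw [map_mul, map_C, map_sub, map_X, map_C, C_mul, mul_sub]
    have h4 : algebraMap (MvPolynomial (Fin (d + 1) × Fin N) κ)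
        (FractionRing (MvPolynomial (Fin (d + 1) × Fin N) κ)) (C (y j)) =
        algebraMap κ (FractionRing (MvPolynomial (Fin (d + 1) × Fin N) κ)) (y j) := by
      rw [IsScalarTower.algebraMap_apply κ (MvPolynomial (Fin (d + 1) × Fin N) κ)
        (FractionRing (MvPolynomial (Fin (d + 1) × Fin N) κ)), MvPolynomial.algebraMap_eq]
    rw [h4]
    rfl
  rw [← h3]
  exact h2

/-- **The generic fibre is finite.** Proof: over `K = Frac κ[U]` the polynomial ring modulo `(f)` is finite over `K[c]` (`fin_low` for the `f_i` over `K`), so `x_j` satisfies a monic equation with coefficients in `K[c]`, `c = U x`; modulo `U (x - y)` the coefficients are the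
constants at `c = U y`. -/
theorem jk_int (hf : ∀ i, ∃ e, (f i).IsHomogeneous e)
    (h1 : ∀ k : Fin N, ∃ h : MvPolynomial (Fin (d + 1) × Fin N) κ, h ≠ 0 ∧ ∃ s,
      C h * X k ^ s ∈ jf (MvPolynomial (Fin (d + 1) × Fin N) κ) f ⊔
        Ideal.span (Set.range fun r => lf (gu κ d N r))) (y : Fin N → κ) (j : Fin N) :
    ∃ p : Polynomial (FractionRing (MvPolynomial (Fin (d + 1) × Fin N) κ)), p.Monic ∧
      Polynomial.aeval (X j) p ∈ jk f d y := by
  have hF : ∀ i, ∃ e, ((fun i => map (algebraMap κ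
      (FractionRing (MvPolynomial (Fin (d + 1) × Fin N) κ))) (f i)) i).IsHomogeneous e := by
    intro i
    obtain ⟨e, he⟩ := hf i
    exact ⟨e, he.map _⟩
  have hU : ∀ k, ∃ s, (X k : MvPolynomial (Fin N)
      (FractionRing (MvPolynomial (Fin (d + 1) × Fin N) κ))) ^ s ∈
      Ideal.span (Set.range fun i => map (algebraMap κ
        (FractionRing (MvPolynomial (Fin (d + 1) × Fin N) κ))) (f i)) ⊔
        Ideal.span (Set.range fun r => lf (pjhcU κ d N r)) := by
    intro k
    obtain ⟨h, hh, s, h2⟩ := h1 k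
    refine ⟨s, ?_⟩
    have h3 := Ideal.mem_map_of_mem (map (algebraMap (MvPolynomial (Fin (d + 1) × Fin N) κ)
      (FractionRing (MvPolynomial (Fin (d + 1) × Fin N) κ)))) h2
    rw [Ideal.map_sup, pjhc_jf, Ideal.map_span, ← Set.range_comp, map_mul, map_pow, map_C,
      map_X] at h3
    have h4 : (map (algebraMap (MvPolynomial (Fin (d + 1) × Fin N) κ)
        (FractionRing (MvPolynomial (Fin (d + 1) × Fin N) κ))) : MvPolynomial (Fin N) _ → _) ∘
        (fun r => lf (gu κ d N r)) = fun r => lf (pjhcU κ d N r) := by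
      funext r
      exact pjhc_lf _ _
    rw [h4] at h3
    have h5 : algebraMap (MvPolynomial (Fin (d + 1) × Fin N) κ)
        (FractionRing (MvPolynomial (Fin (d + 1) × Fin N) κ)) h ≠ 0 := fun h0 =>
      hh ((IsFractionRing.injective (MvPolynomial (Fin (d + 1) × Fin N) κ)
        (FractionRing (MvPolynomial (Fin (d + 1) × Fin N) κ))) (h0.trans (map_zero _).symm))
    have h6 := Ideal.mul_mem_left _ (C (algebraMap (MvPolynomial (Fin (d + 1) × Fin N) κ)
      (FractionRing (MvPolynomial (Fin (d + 1) × Fin N) κ)) h)⁻¹) h3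
    rw [← mul_assoc, ← C_mul, inv_mul_cancel₀ h5, C_1, one_mul] at h6
    exact h6
  have hfin := fin_low hF hU
  obtain ⟨P, hP, h2⟩ := hfin.to_isIntegral (Ideal.Quotient.mk _ (X j))
  refine ⟨P.map (eval fun r => ∑ j, pjhcU κ d N r j *
    algebraMap κ (FractionRing (MvPolynomial (Fin (d + 1) × Fin N) κ)) (y j)), hP.map _, ?_⟩
  rw [← Ideal.Quotient.eq_zero_iff_mem]
  have hle : Ideal.span (Set.range fun i => map (algebraMap κ
      (FractionRing (MvPolynomial (Fin (d + 1) × Fin N) κ))) (f i)) ≤ jk f d y :=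
    pjhc_jf_le f d y
  have h3 := congrArg (Ideal.Quotient.factor hle) h2
  rw [map_zero, Polynomial.hom_eval₂] at h3
  rw [Polynomial.aeval_def, Polynomial.hom_eval₂, Polynomial.eval₂_map]
  have h4 : (((Ideal.Quotient.mk (jk f d y)).comp (algebraMap
      (FractionRing (MvPolynomial (Fin (d + 1) × Fin N) κ)) (MvPolynomial (Fin N)
        (FractionRing (MvPolynomial (Fin (d + 1) × Fin N) κ))))).comp
      (eval fun r => ∑ j, pjhcU κ d N r j *
        algebraMap κ (FractionRing (MvPolynomial (Fin (d + 1) × Fin N) κ)) (y j))) =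
      (Ideal.Quotient.factor hle).comp ((Ideal.Quotient.mk _).comp
        (cu (pjhcU κ d N)).toRingHom) := by
    refine MvPolynomial.ringHom_ext (fun a => ?_) fun r => ?_
    · have e1 : (cu (pjhcU κ d N)) (C a) = C a := by
        rw [cu, aeval_C, MvPolynomial.algebraMap_eq]
      rw [RingHom.comp_apply, RingHom.comp_apply, RingHom.comp_apply, RingHom.comp_apply, eval_C]
      change _ = Ideal.Quotient.factor hle (Ideal.Quotient.mk _ ((cu (pjhcU κ d N)) (C a)))
      rw [e1, Ideal.Quotient.factor_mk, MvPolynomial.algebraMap_eq]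
    · have e1 : (cu (pjhcU κ d N)) (X r) = lf (pjhcU κ d N r) := by
        rw [cu, aeval_X]
      rw [RingHom.comp_apply, RingHom.comp_apply, RingHom.comp_apply, RingHom.comp_apply, eval_X]
      change _ = Ideal.Quotient.factor hle (Ideal.Quotient.mk _ ((cu (pjhcU κ d N)) (X r)))
      rw [e1, Ideal.Quotient.factor_mk, MvPolynomial.algebraMap_eq]
      exact ((Ideal.Quotient.mk_eq_mk_iff_sub_mem _ _).2 (pjhc_mem f d y r)).symm
  rw [h4]
  exact h3

end GX
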