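import Pool.Agent.Lib.MP_f80667_ag.Gx.PjA

/-! Separable polynomials. -/

open MvPolynomial

namespace GX

variable {κ : Type} [Field κ] {N d : ℕ} {ι : Type} {f : ι → MvPolynomial (Fin N) κ}

/-- A root of a monic polynomial modulo a radical ideal is a root of a separable polynomial in characteristic `0`. Proof: the radical of `p` (`UniqueFactorizationMonoid.radical` or the product of the irreducible factors) is squarefree, so it is
separable (`PerfectField.separable_iff_squarefree`), and `p` divides a power of it. -/
theorem sep_of_radical {K : Type} [Field K] [CharZero K] {A : Type} [CommRing A] [Algebra K A]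
    {J : Ideal A} (hJ : J.IsRadical) {a : A} {p : Polynomial K} (hp : p ≠ 0)
    (h : Polynomial.aeval a p ∈ J) :
    ∃ q : Polynomial K, q.Separable ∧ Polynomial.aeval a q ∈ J := by
  classical
  obtain ⟨n, hn⟩ := UniqueFactorizationMonoid.exists_dvd_radical_self_pow hp
  refine ⟨UniqueFactorizationMonoid.radical p,
    PerfectField.separable_iff_squarefree.2 UniqueFactorizationMonoid.squarefree_radical,
    hJ ⟨n, ?_⟩⟩
  obtain ⟨r, hr⟩ := hn
  rw [← map_pow, hr, map_mul]
  exact J.mul_mem_right _ h

end GX
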