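import Pool.Agent.Lib.MP_f80667_ag.Gx.PjH

/-! Specialization of the generic fibre. -/

open MvPolynomial

namespace GX

variable {κ : Type} [Field κ] {N d : ℕ} {ι : Type} {f : ι → MvPolynomial (Fin N) κ}

private theorem pji_aev {R S : Type} [CommRing R] [CommRing S] (φ : R →+* S) (j : Fin N)
    (P : Polynomial R) : map φ (Polynomial.aeval (X j : MvPolynomial (Fin N) R) P) =
      Polynomial.aeval (X j : MvPolynomial (Fin N) S) (P.map φ) := by
  rw [Polynomial.aeval_def, Polynomial.aeval_def, Polynomial.eval₂_map, Polynomial.hom_eval₂,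
    map_X]
  congr 1
  refine RingHom.ext fun a => ?_
  rw [RingHom.comp_apply, RingHom.comp_apply, MvPolynomial.algebraMap_eq,
    MvPolynomial.algebraMap_eq, map_C]

private theorem pji_ju {R S : Type} [CommRing R] [CommRing S] (φ : R →+* S)
    (U : Fin (d + 1) → Fin N → R) (y : Fin N → R) :
    (ju U y).map (map φ) = ju (fun r j => φ (U r j)) fun j => φ (y j) := by
  unfold ju
  rw [Ideal.map_span, ← Set.range_comp]
  congr 2
  funext r
  simp only [Function.comp_apply, map_sum, map_mul, map_sub, map_C, map_X]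

private theorem pji_nz {R Fr : Type} [CommRing R] [IsDomain R] [Field Fr] [Algebra R Fr]
    [IsFractionRing R Fr] (p : Polynomial Fr) : ∃ (P : Polynomial R) (b : R), b ≠ 0 ∧
      P.map (algebraMap R Fr) = Polynomial.C (algebraMap R Fr b) * p := by
  obtain ⟨b, hb, h⟩ := IsLocalization.integerNormalization_spec (nonZeroDivisors R) p
  refine ⟨_, b, nonZeroDivisors.ne_zero hb, h.trans ?_⟩
  rw [algebra_compatible_smul Fr b p, Polynomial.smul_eq_C_mul]

private theorem pji_clear {R Fr : Type} [CommRing R] [IsDomain R] [Field Fr] [Algebra R Fr]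
    [IsFractionRing R Fr] {p : Polynomial Fr} (hp : p.Separable) :
    ∃ (P A B : Polynomial R) (b c : R), c ≠ 0 ∧
      P.map (algebraMap R Fr) = Polynomial.C (algebraMap R Fr b) * p ∧
      A * P + B * Polynomial.derivative P = Polynomial.C c := by
  obtain ⟨A0, B0, hAB⟩ := hp
  obtain ⟨P, b, hb, hP⟩ := pji_nz (R := R) p
  obtain ⟨A, a, ha, hA⟩ := pji_nz (R := R) A0
  obtain ⟨B, b', hb', hB⟩ := pji_nz (R := R) B0
  refine ⟨P, Polynomial.C b' * A, Polynomial.C a * B, b, a * b' * b,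
    mul_ne_zero (mul_ne_zero ha hb') hb, hP, ?_⟩
  apply Polynomial.map_injective _ (IsFractionRing.injective R Fr)
  rw [Polynomial.map_add, Polynomial.map_mul, Polynomial.map_mul, Polynomial.map_mul,
    Polynomial.map_mul, ← Polynomial.derivative_map, hP, hA, hB, Polynomial.derivative_C_mul,
    Polynomial.map_C, Polynomial.map_C, Polynomial.map_C]
  simp only [map_mul]
  linear_combination (Polynomial.C (algebraMap R Fr a) * Polynomial.C (algebraMap R Fr b') *
    Polynomial.C (algebraMap R Fr b)) * hAB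

private theorem pji_sep {R F : Type} [CommRing R] [Field F] (φ : R →+* F) {P A B : Polynomial R}
    {c : R} (h : A * P + B * Polynomial.derivative P = Polynomial.C c) (hc : φ c ≠ 0) :
    (P.map φ).Separable := by
  have h2 := congrArg (Polynomial.map φ) h
  rw [Polynomial.map_add, Polynomial.map_mul, Polynomial.map_mul, Polynomial.map_C,
    ← Polynomial.derivative_map] at h2
  refine ⟨Polynomial.C (φ c)⁻¹ * A.map φ, Polynomial.C (φ c)⁻¹ * B.map φ, ?_⟩
  rw [mul_assoc, mul_assoc, ← mul_add, h2, ← Polynomial.C_mul, inv_mul_cancel₀ hc,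
    Polynomial.C_1]

private theorem pji_jg {R : Type} [CommRing R] [Algebra κ R] (y : Fin N → κ)
    (φ : MvPolynomial (Fin (d + 1) × Fin N) κ →ₐ[κ] R) :
    (jg f d y).map (map φ.toRingHom) =
      jf R f ⊔ ju (fun r i => φ.toRingHom (X (r, i))) fun i => algebraMap κ R (y i) := by
  have h1 : (fun i => φ.toRingHom (C (y i))) = fun i => algebraMap κ R (y i) :=
    funext fun i => φ.commutes (y i)
  unfold jg
  rw [Ideal.map_sup, pji_ju, jf_map f φ, h1]
  rfl

private theorem pji_key {y : Fin N → κ} {j : Fin N}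
    {P A B : Polynomial (MvPolynomial (Fin (d + 1) × Fin N) κ)}
    {c h1 : MvPolynomial (Fin (d + 1) × Fin N) κ}
    (hI : A * P + B * Polynomial.derivative P = Polynomial.C c)
    (h1m : C h1 * Polynomial.aeval (X j) P ∈ jg f d y)
    (φ : MvPolynomial (Fin (d + 1) × Fin N) κ →ₐ[κ] κ) (hφ : φ (c * h1) ≠ 0) :
    ∃ q : Polynomial κ, q.Separable ∧ Polynomial.aeval (X j) q ∈
      Ideal.span (Set.range f) ⊔ ju (fun r i => φ.toRingHom (X (r, i))) y := by
  rw [map_mul] at hφ
  obtain ⟨hU1, hU2⟩ := mul_ne_zero_iff.1 hφ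
  have hU1' : φ.toRingHom c ≠ 0 := hU1
  have hU2' : φ.toRingHom h1 ≠ 0 := hU2
  refine ⟨P.map φ.toRingHom, pji_sep φ.toRingHom hI hU1', ?_⟩
  have h3 := Ideal.mem_map_of_mem (map φ.toRingHom) h1m
  rw [pji_jg, jf_self, map_mul, map_C, pji_aev] at h3
  have h5 := Ideal.mul_mem_left _ (C (φ.toRingHom h1)⁻¹) h3
  rwa [← mul_assoc, ← C_mul, inv_mul_cancel₀ hU2', C_1, one_mul] at h5

/-- **Specialization.** Proof: clear the denominators: `P ∈ κ[U][T]` with `P = a p`, `a ≠ 0`; `A P + B P' = b` with `A`, `B ∈ κ[U][T]`, `b ≠ 0` (from `p.Separable`); `C c * P (x_j) ∈ jg f d y`, `c ≠ 0` (`mem_jk`). `h = a b c`; for a matrix `U` with `h (U) ≠ 0` apply the homomorphism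
`κ[U] → κ`: `q = P (U)`; it maps `jg f d y` to the ideal on the right side (`jf_map`, `jf_self`). -/
theorem exists_hj {y : Fin N → κ} {j : Fin N}
    {p : Polynomial (FractionRing (MvPolynomial (Fin (d + 1) × Fin N) κ))} (hp : p.Separable)
    (hj : Polynomial.aeval (X j) p ∈ jk f d y) :
    ∃ h : MvPolynomial (Fin (d + 1) × Fin N) κ, h ≠ 0 ∧ ∀ U : Fin (d + 1) → Fin N → κ,
      eval (fun q => U q.1 q.2) h ≠ 0 → ∃ q : Polynomial κ, q.Separable ∧
        Polynomial.aeval (X j) q ∈ Ideal.span (Set.range f) ⊔ ju U y := by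
  obtain ⟨P, A, B, b, c, hc, hP, hI⟩ :=
    pji_clear (R := MvPolynomial (Fin (d + 1) × Fin N) κ) hp
  have hg : map (algebraMap (MvPolynomial (Fin (d + 1) × Fin N) κ)
      (FractionRing (MvPolynomial (Fin (d + 1) × Fin N) κ)))
      (Polynomial.aeval (X j : MvPolynomial (Fin N) (MvPolynomial (Fin (d + 1) × Fin N) κ)) P) ∈
      jk f d y := by
    rw [pji_aev, hP, map_mul]
    exact Ideal.mul_mem_left _ _ hj
  obtain ⟨h1, h1ne, h1m⟩ := mem_jk.1 hg
  refine ⟨c * h1, mul_ne_zero hc h1ne, fun U hU => ?_⟩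
  obtain ⟨φ, hφ⟩ : ∃ φ : MvPolynomial (Fin (d + 1) × Fin N) κ →ₐ[κ] κ,
      φ = aeval fun q => U q.1 q.2 := ⟨_, rfl⟩
  have h2 : φ (c * h1) ≠ 0 := by
    rw [hφ]
    exact hU
  have h3 : (fun r i => φ.toRingHom (X (r, i))) = U := by
    funext r i
    rw [hφ]
    exact aeval_X _ _
  have h4 := pji_key hI h1m φ h2
  rwa [h3] at h4

end GX
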