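import Pool.Agent.Lib.MP_f80667_ag.Gx.PjI
import Pool.Agent.Lib.MP_f80667_ag.Gx.PjHb
import Pool.Agent.Lib.MP_f80667_ag.Gx.PjHc
import Pool.Agent.Lib.MP_f80667_ag.Gx.PjHd

/-! The fibres of a general projection are étale. -/

open MvPolynomial

namespace GX

variable {κ : Type} [Field κ] {N d : ℕ} {ι : Type} {f : ι → MvPolynomial (Fin N) κ}

/-- **The fibres of a general projection are étale.** Proof: `jk_radical`, `jk_int`, `sep_of_radical`, `exists_hj`; the product over `j`. -/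
theorem exists_h2 [CharZero κ] (hf : ∀ i, ∃ e, (f i).IsHomogeneous e)
    (hr : (Ideal.span (Set.range f)).IsRadical)
    (h1 : ∀ k : Fin N, ∃ h : MvPolynomial (Fin (d + 1) × Fin N) κ, h ≠ 0 ∧ ∃ s,
      C h * X k ^ s ∈ jf (MvPolynomial (Fin (d + 1) × Fin N) κ) f ⊔
        Ideal.span (Set.range fun r => lf (gu κ d N r))) {y : Fin N → κ}
    (h0 : ∀ i, eval y (f i) = 0) (hy : Module.finrank κ (tgs f y) ≤ d + 1) :
    ∃ h : MvPolynomial (Fin (d + 1) × Fin N) κ, h ≠ 0 ∧ ∀ U : Fin (d + 1) → Fin N → κ,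
      eval (fun q => U q.1 q.2) h ≠ 0 → ∀ j, ∃ q : Polynomial κ, q.Separable ∧
        Polynomial.aeval (X j) q ∈ Ideal.span (Set.range f) ⊔ ju U y := by
  classical
  choose p hp hp' using fun j => jk_int hf h1 y j
  have hq : ∀ j : Fin N, ∃ q : Polynomial (FractionRing (MvPolynomial (Fin (d + 1) × Fin N) κ)),
      q.Separable ∧ Polynomial.aeval (X j) q ∈ jk f d y := fun j =>
    sep_of_radical (jk_radical hr h0 hy) (hp j).ne_zero (hp' j)
  choose q hq hq' using hq
  choose h hh hU using fun j => exists_hj (hq j) (hq' j)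
  refine ⟨∏ j, h j, Finset.prod_ne_zero_iff.2 fun j _ => hh j, fun U hU' j => hU j U ?_⟩
  rw [map_prod] at hU'
  exact Finset.prod_ne_zero_iff.1 hU' j (Finset.mem_univ j)

end GX
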