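import Pool.Agent.Lib.MP_f80667_ag.Gx.PjA

/-! Étale fibres. -/

open MvPolynomial

namespace GX

variable {κ : Type} [Field κ] {N : ℕ} {J : Ideal (MvPolynomial (Fin N) κ)}

private theorem pjJ_red {A : Type} [CommRing A] [Algebra κ A] [Algebra.EssFiniteType κ A]
    (x : Fin N → A) (hx : Algebra.adjoin κ (Set.range x) = ⊤)
    (h : ∀ j, ∃ q : Polynomial κ, q.Separable ∧ Polynomial.aeval (x j) q = 0) :
    IsReduced A := by
  have hD : ∀ j, KaehlerDifferential.D κ A (x j) = 0 := by
    intro j
    obtain ⟨q, ⟨a, b, hab⟩, h1⟩ := h j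
    have h2 := Derivation.map_aeval (KaehlerDifferential.D κ A) q (x j)
    rw [h1, map_zero] at h2
    have h3 := congrArg (Polynomial.aeval (x j)) hab
    rw [map_add, map_mul, map_mul, h1, mul_zero, zero_add, map_one] at h3
    calc KaehlerDifferential.D κ A (x j)
        = (Polynomial.aeval (x j) b * Polynomial.aeval (x j) (Polynomial.derivative q)) •
          KaehlerDifferential.D κ A (x j) := by rw [h3, one_smul]
      _ = 0 := by rw [mul_smul, ← h2, smul_zero]
  have hz : ∀ y, KaehlerDifferential.D κ A y = 0 := by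
    intro y
    have h1 := Derivation.eqOn_adjoin (D1 := KaehlerDifferential.D κ A) (D2 := 0)
      (s := Set.range x) (by
        rintro _ ⟨j, rfl⟩
        exact hD j)
    rw [hx] at h1
    exact h1 Algebra.mem_top
  have hu : Algebra.FormallyUnramified κ A := by
    refine ⟨?_⟩
    have h1 := KaehlerDifferential.span_range_derivation κ A
    have h2 : Set.range (KaehlerDifferential.D κ A) ⊆ {0} := by
      rintro _ ⟨x, rfl⟩
      exact hz x
    have h3 : (⊤ : Submodule A (KaehlerDifferential κ A)) ≤ ⊥ := by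
      rw [← h1, Submodule.span_le]
      exact h2
    exact (Submodule.subsingleton_iff _).1 (subsingleton_of_bot_eq_top (le_antisymm bot_le h3))
  exact Algebra.FormallyUnramified.isReduced_of_field κ A

/-- Proof: the quotient ring is unramified over `κ`: `q (x_j) = 0` gives `q' (x_j) d x_j = 0` and `q' (x_j)` is a unit; `Algebra.FormallyUnramified.isReduced_of_field`. -/
theorem rad_of_sep (h : ∀ j, ∃ q : Polynomial κ, q.Separable ∧ Polynomial.aeval (X j) q ∈ J) :
    J.IsRadical := by
  rw [Ideal.isRadical_iff_quotient_reduced]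
  refine pjJ_red (κ := κ) (fun j : Fin N => Ideal.Quotient.mkₐ κ J (X j)) ?_ fun j => ?_
  · have h1 : (Set.range fun j : Fin N => Ideal.Quotient.mkₐ κ J (X j)) =
        Ideal.Quotient.mkₐ κ J '' Set.range (X : Fin N → MvPolynomial (Fin N) κ) := by
      rw [← Set.range_comp]
      rfl
    rw [h1, ← AlgHom.map_adjoin, MvPolynomial.adjoin_range_X, Algebra.map_top,
      AlgHom.range_eq_top]
    exact Ideal.Quotient.mkₐ_surjective κ J
  · obtain ⟨q, hs, hq⟩ := h j
    refine ⟨q, hs, ?_⟩
    rw [Polynomial.aeval_algHom_apply]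
    exact Ideal.Quotient.eq_zero_iff_mem.2 hq

/-- Proof: the coordinates of a zero are roots of the polynomials `q`. -/
theorem fin_of_sep (h : ∀ j, ∃ q : Polynomial κ, q.Separable ∧ Polynomial.aeval (X j) q ∈ J) :
    {x : Fin N → κ | ∀ g ∈ J, eval x g = 0}.Finite := by
  classical
  choose q hq hqJ using h
  refine (Set.Finite.pi (t := fun j => {y : κ | y ∈ (q j).roots.toFinset}) fun j =>
    Finset.finite_toSet (q j).roots.toFinset).subset ?_
  intro x hx j _
  have h1 := hx _ (hqJ j)
  have h2 : eval x (Polynomial.aeval (X j) (q j)) = (q j).eval (x j) := by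
    have h3 := Polynomial.hom_eval₂ (q j) (algebraMap κ (MvPolynomial (Fin N) κ))
      (eval x : MvPolynomial (Fin N) κ →+* κ) (X j)
    rw [Polynomial.aeval_def, h3, eval_X, Polynomial.eval₂_eq_eval_map]
    congr 1
    have h4 : (eval x : MvPolynomial (Fin N) κ →+* κ).comp
        (algebraMap κ (MvPolynomial (Fin N) κ)) = RingHom.id κ := by
      ext a
      exact eval_C a
    rw [h4, Polynomial.map_id]
  rw [h2] at h1
  exact Multiset.mem_toFinset.2 ((Polynomial.mem_roots (hq j).ne_zero).2 h1)

end GX
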