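import Pool.Agent.Lib.MP_f80667_ag.Gx.PjA

/-! Linear forms which separate points. -/

open MvPolynomial

namespace GX

variable {κ : Type} [Field κ] {N : ℕ} {J : Ideal (MvPolynomial (Fin N) κ)}

/-- A linear form over an infinite subfield which separates finitely many points. Proof: the finitely many polynomials `∑ (x_j - x'_j) V_j`, `x ≠ x'`, in `V` are not `0`, so is their product;
it is not `0` at a point of `F ^ N` (`F` is infinite; induction on the number of the variables or `MvPolynomial.funext_set`, ..). -/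
theorem exists_v {F : Type} [Field F] [Infinite F] [Algebra F κ] {Z : Set (Fin N → κ)}
    (hZ : Z.Finite) : ∃ V : Fin N → F, ∀ x ∈ Z, ∀ x' ∈ Z, lv V x = lv V x' → x = x' := by
  classical
  obtain ⟨S, hS⟩ : ∃ S : Finset ((Fin N → κ) × (Fin N → κ)), ∀ q, q ∈ S ↔
      (q.1 ∈ Z ∧ q.2 ∈ Z) ∧ q.1 ≠ q.2 := by
    refine ⟨((hZ.prod hZ).toFinset).filter fun q => q.1 ≠ q.2, fun q => ?_⟩
    rw [Finset.mem_filter, Set.Finite.mem_toFinset, Set.mem_prod]
  let P : (Fin N → κ) × (Fin N → κ) → MvPolynomial (Fin N) κ := fun q =>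
    ∑ j, C (q.1 j - q.2 j) * X j
  have hP : ∏ q ∈ S, P q ≠ 0 := by
    rw [Finset.prod_ne_zero_iff]
    intro q hq h0
    apply ((hS q).1 hq).2
    funext i
    have h1 := congrArg (eval (Pi.single i (1 : κ))) h0
    simp only [P, map_sum, map_mul, eval_C, eval_X, map_zero] at h1
    rw [Finset.sum_eq_single i, Pi.single_eq_same, mul_one] at h1
    · exact sub_eq_zero.1 h1
    · intro j _ hj
      rw [Pi.single_eq_of_ne hj, mul_zero]
    · intro h
      exact absurd (Finset.mem_univ i) h
  obtain ⟨V, hV⟩ := exists_pt (F := F) hP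
  refine ⟨V, fun x hx x' hx' h => ?_⟩
  by_contra hne
  rw [map_prod, Finset.prod_ne_zero_iff] at hV
  apply hV (x, x') ((hS (x, x')).2 ⟨⟨hx, hx'⟩, hne⟩)
  simp only [P, map_sum, map_mul, eval_C, eval_X]
  have h2 : lv V x - lv V x' = 0 := sub_eq_zero.2 h
  rw [← h2]
  unfold lv
  rw [← Finset.sum_sub_distrib]
  refine Finset.sum_congr rfl fun j _ => ?_
  ring

end GX
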