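import Pool.Agent.Lib.MP_f80667_ag.Gx.PjA

/-! Interpolation. -/

open MvPolynomial

namespace GX

variable {κ : Type} [Field κ] {N : ℕ} {J : Ideal (MvPolynomial (Fin N) κ)}

/-- Interpolation. Proof: the interpolation polynomial `q` (`Lagrange.interpolate`) with `q (v (x)) = g (x)` for `x ∈ Z`; `g - q (v)` is `0` on `Z`, so it is in the radical of `J` (`MvPolynomial.vanishingIdeal_zeroLocus_eq_radical`). -/
theorem interp [IsAlgClosed κ] (hJ : J.IsRadical) {Z : Finset (Fin N → κ)}
    (hZ : ∀ x, x ∈ Z ↔ ∀ g ∈ J, eval x g = 0) {v : MvPolynomial (Fin N) κ}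
    (hv : ∀ x ∈ Z, ∀ x' ∈ Z, eval x v = eval x' v → x = x') (g : MvPolynomial (Fin N) κ) :
    ∃ q : Polynomial κ, q.degree < Z.card ∧ g - Polynomial.aeval v q ∈ J := by
  classical
  have hinj : Set.InjOn (fun x : Fin N → κ => eval x v) (Z : Set (Fin N → κ)) :=
    fun x hx x' hx' h => hv x hx x' hx' h
  obtain ⟨q, hq⟩ : ∃ q : Polynomial κ, q =
    Lagrange.interpolate Z (fun x : Fin N → κ => eval x v) (fun x => eval x g) := ⟨_, rfl⟩
  refine ⟨q, ?_, ?_⟩
  · rw [hq]
    exact Lagrange.degree_interpolate_lt _ hinj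
  · have h1 : MvPolynomial.vanishingIdeal κ (MvPolynomial.zeroLocus κ J) = J := by
      rw [MvPolynomial.vanishingIdeal_zeroLocus_eq_radical]
      exact hJ.radical
    rw [← h1, MvPolynomial.mem_vanishingIdeal_iff]
    intro x hx
    have hxZ : x ∈ Z := by
      rw [hZ]
      intro p hp
      have h2 := (MvPolynomial.mem_zeroLocus_iff.1 hx) p hp
      rwa [MvPolynomial.aeval_eq_eval] at h2
    have h3 : Polynomial.eval (eval x v) q = eval x g := by
      rw [hq]
      exact Lagrange.eval_interpolate_at_node _ hinj hxZ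
    have h4 : ∀ r : Polynomial κ, eval x (Polynomial.aeval v r) = Polynomial.eval (eval x v) r := by
      intro r
      rw [Polynomial.aeval_def, Polynomial.hom_eval₂, Polynomial.eval₂_eq_eval_map]
      congr 1
      have h5 : (eval x).comp (algebraMap κ (MvPolynomial (Fin N) κ)) = RingHom.id κ := by
        ext a
        simp [MvPolynomial.algebraMap_eq]
      rw [h5, Polynomial.map_id]
    rw [MvPolynomial.aeval_eq_eval, map_sub, h4, h3, sub_self]

end GX
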