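import Pool.Agent.Lib.MP_f80667_ag.Gx.PjA

/-! The local generation by the powers of a linear form. -/

open MvPolynomial

namespace GX

private theorem PjK_abs {A Q : Type} [CommRing A] [CommRing Q] (φ : A →+* Q) (hφ : φ.Finite)
    (J : Ideal A) {m : ℕ} (w : Q)
    (h : ∀ g : Q, ∃ b : Fin m → A, g - ∑ i, φ (b i) * w ^ (i : ℕ) ∈ J.map φ) :
    ∃ D : A, D - 1 ∈ J ∧ ∀ g : Q, ∃ a : Fin m → A, φ D * g = ∑ i, φ (a i) * w ^ (i : ℕ) := by
  let _ : Algebra A Q := φ.toAlgebra
  have hsm : ∀ (a : A) (x : Q), a • x = φ a * x := fun a x => Algebra.smul_def a x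
  have hfin : Module.Finite A Q := hφ
  have hle : (⊤ : Submodule A Q) ≤
      Submodule.span A (Set.range fun i : Fin m => w ^ (i : ℕ)) ⊔ J • (⊤ : Submodule A Q) := by
    intro g _
    obtain ⟨b, hb⟩ := h g
    rw [Ideal.smul_top_eq_map]
    have e : g = (∑ i, φ (b i) * w ^ (i : ℕ)) + (g - ∑ i, φ (b i) * w ^ (i : ℕ)) := by ring
    rw [e]
    refine Submodule.add_mem_sup ?_ hb
    refine Submodule.sum_mem _ fun i _ => ?_
    rw [← hsm]
    exact Submodule.smul_mem _ _ (Submodule.subset_span ⟨i, rfl⟩)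
  obtain ⟨D, hD, hDN⟩ := Submodule.exists_sub_one_mem_and_smul_le_of_fg_of_le_sup
    (Module.Finite.fg_top) (le_refl _) hle
  refine ⟨D, hD, fun g => ?_⟩
  have hg : D • g ∈ Submodule.span A (Set.range fun i : Fin m => w ^ (i : ℕ)) :=
    hDN (Submodule.smul_mem_pointwise_smul g D ⊤ trivial)
  rw [Submodule.mem_span_range_iff_exists_fun] at hg
  obtain ⟨a, ha⟩ := hg
  refine ⟨a, ?_⟩
  rw [← hsm, ← ha]
  exact Finset.sum_congr rfl fun i _ => hsm _ _

/-- **Nakayama.** Proof: `Q = κ[x] / (f)` as a module over `κ[c]`, finite; `𝔫` the ideal of the point `U y`; `Q = ∑ κ[c] v ^ i + 𝔫 Q` because `ju U y` is generated by the `U_r x - U_r y`. `Submodule.exists_sub_one_mem_and_smul_le_of_fg_of_le_sup`. -/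
theorem nak {κ : Type} [Field κ] {N d m : ℕ} {ι : Type} {f : ι → MvPolynomial (Fin N) κ}
    {U : Fin (d + 1) → Fin N → κ} {y : Fin N → κ}
    (hfin : ((Ideal.Quotient.mk (Ideal.span (Set.range f))).comp (cu U).toRingHom).Finite)
    {v : MvPolynomial (Fin N) κ} (hg : ∀ g, ∃ q : Polynomial κ, q.degree < m ∧
      g - Polynomial.aeval v q ∈ Ideal.span (Set.range f) ⊔ ju U y) :
    ∃ D : MvPolynomial (Fin (d + 1)) κ, eval (fun r => ∑ j, U r j * y j) D ≠ 0 ∧ ∀ g,
      ∃ a : Fin m → MvPolynomial (Fin (d + 1)) κ,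
        cu U D * g - ∑ i, cu U (a i) * v ^ (i : ℕ) ∈ Ideal.span (Set.range f) := by
  set I : Ideal (MvPolynomial (Fin N) κ) := Ideal.span (Set.range f) with hI
  set φ : MvPolynomial (Fin (d + 1)) κ →+* MvPolynomial (Fin N) κ ⧸ I :=
    (Ideal.Quotient.mk I).comp (cu U).toRingHom with hφ
  have hφa : ∀ a, φ a = Ideal.Quotient.mk I (cu U a) := fun a => rfl
  have key : ∀ h ∈ ju U y, Ideal.Quotient.mk I h ∈
      (RingHom.ker (eval (fun r => ∑ j, U r j * y j))).map φ := by
    have hle : (ju U y).map (Ideal.Quotient.mk I) ≤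
        (RingHom.ker (eval (fun r => ∑ j, U r j * y j))).map φ := by
      unfold ju
      rw [Ideal.map_span, Ideal.span_le]
      rintro _ ⟨_, ⟨r, rfl⟩, rfl⟩
      have hmem : (X r - C (∑ j, U r j * y j) : MvPolynomial (Fin (d + 1)) κ) ∈
          RingHom.ker (eval (fun r => ∑ j, U r j * y j)) := by
        rw [RingHom.mem_ker, map_sub, eval_X, eval_C, sub_self]
      have h2 := Ideal.mem_map_of_mem φ hmem
      have e : cu U (X r - C (∑ j, U r j * y j)) = ∑ j, C (U r j) * (X j - C (y j)) := by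
        rw [map_sub]
        unfold cu
        rw [aeval_X, aeval_C]
        unfold lf
        rw [MvPolynomial.algebraMap_eq, map_sum, ← Finset.sum_sub_distrib]
        refine Finset.sum_congr rfl fun j _ => ?_
        rw [mul_sub, C_mul]
      rw [hφa, e] at h2
      exact h2
    intro h hh
    exact hle (Ideal.mem_map_of_mem _ hh)
  have hb : ∀ g : MvPolynomial (Fin N) κ ⧸ I, ∃ b : Fin m → MvPolynomial (Fin (d + 1)) κ,
      g - ∑ i, φ (b i) * (Ideal.Quotient.mk I v) ^ (i : ℕ) ∈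
        (RingHom.ker (eval (fun r => ∑ j, U r j * y j))).map φ := by
    intro g
    obtain ⟨g, rfl⟩ := Ideal.Quotient.mk_surjective g
    obtain ⟨q, hq, hqm⟩ := hg g
    refine ⟨fun i => C (q.coeff i), ?_⟩
    obtain ⟨s, hs, t, ht, hst⟩ := Submodule.mem_sup.mp hqm
    have e1 : ∑ i : Fin m, φ (C (q.coeff i)) * (Ideal.Quotient.mk I v) ^ (i : ℕ) =
        Ideal.Quotient.mk I (Polynomial.aeval v q) := by
      rw [Polynomial.aeval_def, Polynomial.eval₂_eq_sum,
        ← Polynomial.sum_fin (fun e a => algebraMap κ (MvPolynomial (Fin N) κ) a * v ^ e)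
          (fun i => by rw [map_zero, zero_mul]) hq, map_sum]
      refine Finset.sum_congr rfl fun i _ => ?_
      rw [map_mul, map_pow, hφa]
      congr 2
      unfold cu
      rw [aeval_C]
    have e : Ideal.Quotient.mk I g -
        ∑ i : Fin m, φ (C (q.coeff i)) * (Ideal.Quotient.mk I v) ^ (i : ℕ) =
          Ideal.Quotient.mk I t := by
      rw [e1, ← map_sub, ← hst, map_add, Ideal.Quotient.eq_zero_iff_mem.mpr hs, zero_add]
    rw [e]
    exact key t ht
  obtain ⟨D, hD, hDa⟩ := PjK_abs φ hfin _ (Ideal.Quotient.mk I v) hb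
  refine ⟨D, ?_, fun g => ?_⟩
  · rw [RingHom.mem_ker, map_sub, map_one, sub_eq_zero] at hD
    rw [hD]
    exact one_ne_zero
  · obtain ⟨a, ha⟩ := hDa (Ideal.Quotient.mk I g)
    refine ⟨a, ?_⟩
    rw [← Ideal.Quotient.eq_zero_iff_mem, map_sub, map_mul, map_sum, sub_eq_zero, ← hφa, ha]
    refine Finset.sum_congr rfl fun i _ => ?_
    rw [map_mul, map_pow, hφa]

end GX
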