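import Pool.Agent.Lib.MP_f80667_ag.Gx.PjA

/-! The equation of the hypersurface: definition. -/

open MvPolynomial

namespace GX

variable {F : Type} [Field F] {N d : ℕ} {ι : Type} {f : ι → MvPolynomial (Fin N) F}

/-- The polynomial in `x` which belongs to `Q (c, Y)`. -/
noncomputable def cl {R : Type} [CommRing R] (U : Fin (d + 1) → Fin N → R) (V : Fin N → R) :
    Polynomial (MvPolynomial (Fin (d + 1)) R) →+* MvPolynomial (Fin N) R :=
  pe (fun r => lf (U r)) (lf V)

end GX
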