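import Pool.Agent.Lib.MP_f80667_ag.Gx.PjL

/-! The forms are algebraically independent. -/

open MvPolynomial

namespace GX

variable {F : Type} [Field F] {N d : ℕ} {ι : Type} {f : ι → MvPolynomial (Fin N) F}

/-- The forms `U_r x` are algebraically independent on the cone. Proof: the ring `A` is integral over the subalgebra generated by the `d + 1` elements `U_r x` and has transcendence degree `d + 1`: `isTranscendenceBasis_of_le_trdeg_of_finite` (namespace `Algebra.IsAlgebraic`). -/
theorem cu_inj (hf : Nsg f d) {U : Fin (d + 1) → Fin N → F}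
    (hfin : ((Ideal.Quotient.mk (Ideal.span (Set.range f))).comp (cu U).toRingHom).Finite)
    {D : MvPolynomial (Fin (d + 1)) F} (hD : cu U D ∈ Ideal.span (Set.range f)) : D = 0 := by
  classical
  have hpr := hf.prime
  have hdim := hf.dim
  obtain ⟨I, hI⟩ : ∃ I : Ideal (MvPolynomial (Fin N) F), I = Ideal.span (Set.range f) := ⟨_, rfl⟩
  rw [← hI] at hfin hD hpr hdim
  haveI : I.IsPrime := hpr
  haveI : IsDomain (MvPolynomial (Fin N) F ⧸ I) := Ideal.Quotient.isDomain I
  obtain ⟨x, hx⟩ : ∃ x : Fin (d + 1) → (MvPolynomial (Fin N) F ⧸ I),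
      x = fun r => Ideal.Quotient.mk I (lf (U r)) := ⟨_, rfl⟩
  have hψ : ∀ p, Ideal.Quotient.mk I (cu U p) = aeval x p := by
    intro p
    have h : (Ideal.Quotient.mkₐ F I).comp (cu U) = aeval x := by
      apply MvPolynomial.algHom_ext
      intro r
      rw [AlgHom.comp_apply, cu, aeval_X, aeval_X, hx]
      rfl
    exact DFunLike.congr_fun h p
  have halg : Algebra.IsAlgebraic (Algebra.adjoin F (Set.range x))
      (MvPolynomial (Fin N) F ⧸ I) := by
    rw [Algebra.adjoin_range_eq_range_aeval]
    haveI : Algebra.IsIntegral ((aeval x : MvPolynomial (Fin (d + 1)) F →ₐ[F] _)).range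
        (MvPolynomial (Fin N) F ⧸ I) := by
      refine ⟨fun a => ?_⟩
      obtain ⟨p, hp, hp0⟩ := hfin.to_isIntegral a
      refine ⟨p.map (aeval x : MvPolynomial (Fin (d + 1)) F →ₐ[F]
        (MvPolynomial (Fin N) F ⧸ I)).rangeRestrict.toRingHom, hp.map _, ?_⟩
      rw [Polynomial.eval₂_map]
      rw [← hp0]
      congr 1
      ext q
      · change aeval x (C q) = Ideal.Quotient.mk I (cu U (C q))
        rw [hψ]
      · change aeval x (X q) = Ideal.Quotient.mk I (cu U (X q))
        rw [hψ]
    infer_instance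
  have hb := Algebra.IsAlgebraic.isTranscendenceBasis_of_le_trdeg_of_finite F x
    (by rw [hdim, Cardinal.mk_fin])
  have h0 : aeval x D = 0 := by
    rw [← hψ]
    exact Ideal.Quotient.eq_zero_iff_mem.2 hD
  exact hb.1 (by rw [h0, map_zero])

end GX
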