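import Pool.Agent.Lib.MP_f80667_ag.Gx.PjCb
import Pool.Agent.Lib.MP_f80667_ag.Gx.PjD
import Pool.Agent.Lib.MP_f80667_ag.Gx.PjEb
import Pool.Agent.Lib.MP_f80667_ag.Gx.PjIb
import Pool.Agent.Lib.MP_f80667_ag.Gx.PjJ
import Pool.Agent.Lib.MP_f80667_ag.Gx.PjJb
import Pool.Agent.Lib.MP_f80667_ag.Gx.PjJc
import Pool.Agent.Lib.MP_f80667_ag.Gx.PjK
import Pool.Agent.Lib.MP_f80667_ag.Gx.PjL

/-! A general projection. -/

open MvPolynomial

namespace GX

variable {F : Type} [Field F] {N d : ℕ} {ι : Type} {f : ι → MvPolynomial (Fin N) F}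

private theorem pjnb_lv {κ : Type} [Field κ] [Algebra F κ] (a : Fin N → F) (x : Fin N → κ) :
    eval x (lf fun j => algebraMap F κ (a j)) = lv a x := by
  simp only [lf, lv, map_sum, map_mul, eval_C, eval_X]

private theorem pjnb_map {κ : Type} [Field κ] [Algebra F κ] (a : Fin N → F) :
    map (algebraMap F κ) (lf a) = lf fun j => algebraMap F κ (a j) := by
  simp only [lf, map_sum, map_mul, map_C, map_X]

private theorem pjnb_unit {R : Type} [Field R] {I : Ideal (MvPolynomial (Fin N) R)} {a : R}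
    (ha : a ≠ 0) {g : MvPolynomial (Fin N) R} (h : C a * g ∈ I) : g ∈ I := by
  have h1 := I.mul_mem_left (C a⁻¹) h
  rwa [← mul_assoc, ← C_mul, inv_mul_cancel₀ ha, C_1, one_mul] at h1

private theorem pjnb_gu {κ : Type} [Field κ] [Algebra F κ]
    (p : MvPolynomial (Fin (d + 1) × Fin N) F) :
    aeval (fun q : Fin (d + 1) × Fin N => gu κ d N q.1 q.2) p = map (algebraMap F κ) p := by
  induction p using MvPolynomial.induction_on with
  | C a =>
    rw [aeval_C, map_C]
    rfl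
  | add p q hp hq => rw [map_add, map_add, hp, hq]
  | mul_X p i hp =>
    rw [map_mul, map_mul, hp, aeval_X, map_X]
    rfl

private theorem pjnb_sup {κ : Type} [Field κ] {I I' : Ideal (MvPolynomial (Fin N) κ)}
    {S S' : Set (MvPolynomial (Fin N) κ)} (hI : I = Ideal.span S) (hI' : I' = Ideal.span S')
    {x : Fin N → κ} (h : ∀ g ∈ S, eval x g = 0) (h' : ∀ g ∈ S', eval x g = 0)
    {g : MvPolynomial (Fin N) κ} (hg : g ∈ I ⊔ I') : eval x g = 0 := by
  subst hI hI'
  rw [← Ideal.span_union] at hg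
  have h1 : Ideal.span (S ∪ S') ≤ RingHom.ker (eval x) := by
    rw [Ideal.span_le]
    rintro g (hg | hg)
    · exact h g hg
    · exact h' g hg
  exact h1 hg

/-- **A general projection.** Proof: `exists_h1`, `jf_radical`, `exists_h2` over `κ` (the hypothesis `h1` from `exists_h1` for the generic matrix over `κ`, `jf_jf`), a matrix `U` over `F` with `h1 (U) h2 (U) ≠ 0` (`exists_pt`), `fin_low` over `F` and over `κ`; the ideal of the fibre of `y`
is radical with finitely many zeros (`rad_of_sep`, `fin_of_sep`), `V` = `exists_v`, `interp`, `nak`. -/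
theorem exists_uv [CharZero F] (hf : Nsg f d) {κ : Type} [Field κ] [Algebra F κ]
    [IsAlgClosed κ] [Algebra.IsAlgebraic F κ] {y : Fin N → κ} (hy : y ≠ 0)
    (h0 : ∀ i, aeval y (f i) = 0)
    (hT : Module.finrank κ (tgs (fun i => map (algebraMap F κ) (f i)) y) ≤ d + 1) :
    ∃ (U : Fin (d + 1) → Fin N → F) (V : Fin N → F) (Z : Finset (Fin N → κ))
      (D : MvPolynomial (Fin (d + 1)) κ),
      ((Ideal.Quotient.mk (Ideal.span (Set.range f))).comp (cu U).toRingHom).Finite ∧
      (fun r => lv (U r) y) ≠ (0 : Fin (d + 1) → κ) ∧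
      (∀ x ∈ Z, (∀ i, aeval x (f i) = 0) ∧ ∀ r, lv (U r) x = lv (U r) y) ∧
      (∀ x ∈ Z, ∀ x' ∈ Z, lv V x = lv V x' → x = x') ∧
      eval (fun r => lv (U r) y) D ≠ 0 ∧
      ∀ g : MvPolynomial (Fin N) κ, ∃ a : Fin Z.card → MvPolynomial (Fin (d + 1)) κ,
        cu (fun r j => algebraMap F κ (U r j)) D * g -
          ∑ i, cu (fun r j => algebraMap F κ (U r j)) (a i) *
            map (algebraMap F κ) (lf V) ^ (i : ℕ) ∈ jf κ f := by
  classical
  have hinf : Infinite F := CharZero.infinite F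
  have hκ : CharZero κ := charZero_of_injective_algebraMap (algebraMap F κ).injective
  obtain ⟨h1, h10, hh1⟩ := exists_h1 hf
  obtain ⟨f', hf'⟩ : ∃ f' : ι → MvPolynomial (Fin N) κ,
    f' = fun i => map (algebraMap F κ) (f i) := ⟨_, rfl⟩
  have hom' : ∀ i, ∃ e, (f' i).IsHomogeneous e := fun i => by
    obtain ⟨e, he⟩ := hf.hom i
    exact ⟨e, by rw [hf']; exact he.map _⟩
  have hspan : Ideal.span (Set.range f') = jf κ f := by rw [hf']; rfl
  have hr : (Ideal.span (Set.range f')).IsRadical := by rw [hspan]; exact jf_radical hf.prime κ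
  have h0' : ∀ i, eval y (f' i) = 0 := fun i => by
    rw [hf', eval_map]
    exact h0 i
  have hT' : Module.finrank κ (tgs f' y) ≤ d + 1 := by rw [hf']; exact hT
  have hg : ∀ k : Fin N, ∃ h : MvPolynomial (Fin (d + 1) × Fin N) κ, h ≠ 0 ∧ ∃ s,
      C h * X k ^ s ∈ jf (MvPolynomial (Fin (d + 1) × Fin N) κ) f' ⊔
        Ideal.span (Set.range fun r => lf (gu κ d N r)) := fun k => by
    obtain ⟨s, hs⟩ := hh1 (MvPolynomial (Fin (d + 1) × Fin N) κ) (gu κ d N) k
    rw [pjnb_gu] at hs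
    refine ⟨map (algebraMap F κ) h1, fun h => h10 ?_, s, ?_⟩
    · exact map_injective _ (algebraMap F κ).injective (h.trans (map_zero _).symm)
    · rw [hf', jf_jf]
      exact hs
  obtain ⟨h2, h20, hh2⟩ := exists_h2 (d := d) hom' hr hg h0' hT'
  have hp : map (algebraMap F κ) h1 * h2 ≠ 0 := mul_ne_zero
    (fun h => h10 (map_injective _ (algebraMap F κ).injective (h.trans (map_zero _).symm))) h20
  obtain ⟨u, hu⟩ := exists_pt (F := F) hp
  rw [map_mul] at hu
  obtain ⟨U, hU⟩ : ∃ U : Fin (d + 1) → Fin N → F, U = fun r j => u (r, j) := ⟨_, rfl⟩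
  obtain ⟨W, hW⟩ : ∃ W : Fin (d + 1) → Fin N → κ, W = fun r j => algebraMap F κ (U r j) :=
    ⟨_, rfl⟩
  have hal : aeval (fun q : Fin (d + 1) × Fin N => algebraMap F κ (U q.1 q.2)) h1 =
      algebraMap F κ (aeval (fun q : Fin (d + 1) × Fin N => U q.1 q.2) h1) :=
    aeval_algebraMap_apply κ (fun q : Fin (d + 1) × Fin N => U q.1 q.2) h1
  have hu1 : aeval (fun q : Fin (d + 1) × Fin N => U q.1 q.2) h1 ≠ 0 := by
    intro h
    apply left_ne_zero_of_mul hu
    rw [eval_map]
    have h3 : (fun q : Fin (d + 1) × Fin N => algebraMap F κ (u q)) =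
        fun q => algebraMap F κ (U q.1 q.2) := by rw [hU]
    rw [h3, ← aeval_def, hal, h, map_zero]
  have hu1' : aeval (fun q : Fin (d + 1) × Fin N => W q.1 q.2) h1 ≠ 0 := by
    rw [hW]
    change aeval (fun q : Fin (d + 1) × Fin N => algebraMap F κ (U q.1 q.2)) h1 ≠ 0
    rw [hal]
    exact fun h => hu1 ((map_eq_zero (algebraMap F κ)).1 h)
  have hu2 : eval (fun q : Fin (d + 1) × Fin N => W q.1 q.2) h2 ≠ 0 := by
    rw [hW, hU]
    exact right_ne_zero_of_mul hu
  have hF : ∀ k, ∃ s, (X k : MvPolynomial (Fin N) F) ^ s ∈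
      Ideal.span (Set.range f) ⊔ Ideal.span (Set.range fun r => lf (U r)) := fun k => by
    obtain ⟨s, hs⟩ := hh1 F U k
    rw [jf_self] at hs
    exact ⟨s, pjnb_unit hu1 hs⟩
  have hFκ : ∀ k, ∃ s, (X k : MvPolynomial (Fin N) κ) ^ s ∈
      Ideal.span (Set.range f') ⊔ Ideal.span (Set.range fun r => lf (W r)) := fun k => by
    obtain ⟨s, hs⟩ := hh1 κ W k
    rw [← hspan] at hs
    exact ⟨s, pjnb_unit hu1' hs⟩
  have hlv : ∀ (r : Fin (d + 1)) (x : Fin N → κ), eval x (lf (W r)) = lv (U r) x := fun r x => by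
    rw [hW]
    exact pjnb_lv (U r) x
  have hne : (fun r => lv (U r) y) ≠ (0 : Fin (d + 1) → κ) := by
    intro h
    apply hy
    funext k
    obtain ⟨s, hs⟩ := hFκ k
    have h3 := pjnb_sup rfl rfl (x := y) (by rintro _ ⟨i, rfl⟩; exact h0' i) (by
      rintro _ ⟨r, rfl⟩
      change eval y (lf (W r)) = 0
      rw [hlv]
      exact congrFun h r) hs
    rw [map_pow, eval_X] at h3
    by_contra h4
    exact pow_ne_zero s h4 h3
  have hsep := hh2 W hu2
  have hJ := rad_of_sep hsep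
  have hZ := fin_of_sep hsep
  obtain ⟨V, hV⟩ := exists_v (F := F) hZ
  have hv : ∀ x : Fin N → κ, eval x (map (algebraMap F κ) (lf V)) = lv V x := fun x => by
    rw [pjnb_map]
    exact pjnb_lv V x
  have hint := interp hJ (Z := hZ.toFinset) (fun x => by rw [Set.Finite.mem_toFinset]; rfl)
    (v := map (algebraMap F κ) (lf V)) (fun x hx x' hx' h => by
      rw [hv, hv] at h
      exact hV x ((Set.Finite.mem_toFinset hZ).1 hx) x' ((Set.Finite.mem_toFinset hZ).1 hx') h)
  obtain ⟨D, hD, hrel⟩ := nak (fin_low hom' hFκ) hint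
  refine ⟨U, V, hZ.toFinset, D, fin_low hf.hom hF, hne, fun x hx => ?_, fun x hx x' hx' h =>
    hV x ((Set.Finite.mem_toFinset hZ).1 hx) x' ((Set.Finite.mem_toFinset hZ).1 hx') h, ?_,
      fun g => ?_⟩
  · have hx1 : ∀ g ∈ Ideal.span (Set.range f') ⊔ ju W y, eval x g = 0 :=
      (Set.Finite.mem_toFinset hZ).1 hx
    refine ⟨fun i => ?_, fun r => ?_⟩
    · have h3 := hx1 _ (Ideal.mem_sup_left (Ideal.subset_span ⟨i, rfl⟩))
      rw [hf', eval_map] at h3
      exact h3
    · have h3 := hx1 _ (Ideal.mem_sup_right (Ideal.subset_span ⟨r, rfl⟩))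
      simp only [map_sum, map_mul, map_sub, eval_C, eval_X, mul_sub, Finset.sum_sub_distrib,
        hW] at h3
      exact sub_eq_zero.1 h3
  · rw [hW] at hD
    exact hD
  · obtain ⟨a, ha⟩ := hrel g
    refine ⟨a, ?_⟩
    subst hW
    exact hspan.le ha

end GX
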