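import Pool.Agent.Lib.MP_f80667_ag.Gx.PjA

/-! Finitely many projections. -/

open MvPolynomial

namespace GX

variable {F : Type} [Field F] {N d : ℕ} {ι : Type} {f : ι → MvPolynomial (Fin N) F}

private theorem pjO_cp {κ : Type} [Field κ] [Algebra F κ] (ψ : Prj F N d) (x : Fin N → κ) :
    aeval x (ψ.cp (Polynomial.C ψ.D)) = aeval (ψ.uv x) ψ.D := by
  have h1 : ψ.cp (Polynomial.C ψ.D) = aeval (fun r => lf (ψ.u r)) ψ.D := by
    unfold Prj.cp pe
    rw [Polynomial.coe_eval₂RingHom, Polynomial.eval₂_C]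
    rfl
  have h2 : ∀ r, aeval x (lf (ψ.u r)) = ψ.uv x r := by
    intro r
    unfold Prj.uv lv lf
    rw [map_sum]
    refine Finset.sum_congr rfl fun j _ => ?_
    rw [map_mul, aeval_C, aeval_X]
  rw [h1, comp_aeval_apply, funext h2]

/-- **Finitely many.** Proof: the ideal generated by the `f_i` and all `D (u (x))`, `ψ` in order, has no zero `x ≠ 0` over the algebraic closure (`hψ`), so it contains a power of every `X k` (`MvPolynomial.vanishingIdeal_zeroLocus_eq_radical`); each power is a combination of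
finitely many of the generators. -/
theorem cov_of {κ : Type} [Field κ] [Algebra F κ] [IsAlgClosed κ]
    (hψ : ∀ y : Fin N → κ, y ≠ 0 → (∀ i, aeval y (f i) = 0) →
      ∃ ψ : Prj F N d, ψ.Ok f ∧ aeval (ψ.uv y) ψ.D ≠ 0) :
    ∃ (m : ℕ) (ψ : Fin m → Prj F N d), (∀ i, (ψ i).Ok f) ∧ Cov f ψ := by
  classical
  obtain ⟨g, hg⟩ : ∃ g : {ψ : Prj F N d // ψ.Ok f} → MvPolynomial (Fin N) F,
      g = fun ψ => ψ.1.cp (Polynomial.C ψ.1.D) := ⟨_, rfl⟩
  obtain ⟨I, hI⟩ : ∃ I : Ideal (MvPolynomial (Fin N) F),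
      I = Ideal.span (Set.range f) ⊔ Ideal.span (Set.range g) := ⟨_, rfl⟩
  have h1 : ∀ x ∈ zeroLocus κ I, x = 0 := by
    intro x hx
    by_contra h0
    rw [mem_zeroLocus_iff, hI] at hx
    obtain ⟨ψ, hok, hD⟩ := hψ x h0
      (fun i => hx _ (Ideal.mem_sup_left (Ideal.subset_span ⟨i, rfl⟩)))
    apply hD
    rw [← pjO_cp]
    have h2 := hx (g ⟨ψ, hok⟩) (Ideal.mem_sup_right (Ideal.subset_span ⟨_, rfl⟩))
    rw [hg] at h2
    exact h2
  have h2 : ∀ k, ∃ n : ℕ, (X k : MvPolynomial (Fin N) F) ^ n ∈ I := by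
    intro k
    have h3 : (X k : MvPolynomial (Fin N) F) ∈ vanishingIdeal F (zeroLocus κ I) := by
      intro x hx
      rw [h1 x hx, aeval_X]
      rfl
    rw [vanishingIdeal_zeroLocus_eq_radical] at h3
    exact h3
  choose n hn using h2
  have h4 : (Ideal.span (Set.range g)).FG := IsNoetherian.noetherian _
  obtain ⟨T, hT, hT'⟩ := Submodule.fg_span_iff_fg_span_finset_subset _ |>.1 h4
  have h5 : ∀ t : T, ∃ ψ : {ψ : Prj F N d // ψ.Ok f}, g ψ = t := fun t => hT t.2
  choose q hq using h5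
  refine ⟨T.card, fun i => (q (T.equivFin.symm i)).1, fun i => (q (T.equivFin.symm i)).2,
    ∑ k, n k, fun k => ?_⟩
  have h6 : (Set.range fun i : Fin T.card => ((q (T.equivFin.symm i)).1).cp
      (Polynomial.C ((q (T.equivFin.symm i)).1).D)) = (T : Set (MvPolynomial (Fin N) F)) := by
    have h7 : ∀ t : T, ((q t).1).cp (Polynomial.C ((q t).1).D) = t := by
      intro t
      have h8 := hq t
      rw [hg] at h8
      exact h8
    ext p
    constructor
    · rintro ⟨i, rfl⟩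
      show ((q (T.equivFin.symm i)).1).cp (Polynomial.C ((q (T.equivFin.symm i)).1).D) ∈ _
      rw [h7]
      exact (T.equivFin.symm i).2
    · intro hp
      refine ⟨T.equivFin ⟨p, hp⟩, ?_⟩
      show ((q (T.equivFin.symm (T.equivFin ⟨p, hp⟩))).1).cp
        (Polynomial.C ((q (T.equivFin.symm (T.equivFin ⟨p, hp⟩))).1).D) = p
      rw [Equiv.symm_apply_apply, h7]
  rw [h6]
  have h9 : Ideal.span (Set.range g) = Ideal.span (T : Set (MvPolynomial (Fin N) F)) := hT'
  rw [← h9, ← hI]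
  exact Ideal.pow_mem_of_pow_mem I (hn k)
    (Finset.single_le_sum (f := n) (fun _ _ => Nat.zero_le _) (Finset.mem_univ k))

end GX
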