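import Pool.Agent.Lib.MP_f80667_ag.Gm.GyE
import Pool.Agent.Lib.MP_f80667_ag.Gx.Pr
import Pool.Agent.Lib.MP_f80667_ag.Gx.XC

/-!
The relation of the curves for a projection: the proof.
-/

open ZC BE PE CV IntermediateField GM

namespace GX

variable {F : Type} [Field F] {N d : ℕ} {ι : Type} {f : ι → MvPolynomial (Fin N) F} {K Ω : Type}
  [Field K] [CharZero K] [Field Ω] [Algebra K Ω] [Algebra F K] [Algebra F Ω]
  [IsScalarTower F K Ω] [IsAlgClosure K Ω] {L : Ld K Ω} {ψ : Prj K N d}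

omit [CharZero K] [IsAlgClosure K Ω] in
/-- Above the points where `δ` is a unit the curve is etale modulo the maximal ideal. -/
theorem Cht.good {M : IntermediateField K Ω} {ρ n : ℕ} {g : Polynomial (Polynomial Ω)}
    {δ : Polynomial Ω} {A : Fin N → Polynomial (Polynomial Ω)} (h : Cht f L M ρ n g δ A)
    {c w : Ω} (hc : L.nm c ≤ 1) (hw : L.nm w ≤ 1) (hδ : L.nm (δ.eval c) = 1)
    (hg : L.nm (ev₂ (c, w) g) < 1) : L.nm (ev₂ (c, w) (dY g)) = 1 := by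
  obtain ⟨B, B', hB, hB', h1⟩ := h.bez
  have hP : Ip L ((c, w) : Ω × Ω) := ⟨hc, hw⟩
  have h2 : ev₂ (c, w) B * ev₂ (c, w) g + ev₂ (c, w) B' * ev₂ (c, w) (dY g) = δ.eval c := by
    have h3 := congrArg (ev₂ ((c, w) : Ω × Ω)) h1
    rw [map_add, map_mul, map_mul] at h3
    refine h3.trans ?_
    simp [ev₂]
  have h4 : L.nm (ev₂ (c, w) B * ev₂ (c, w) g) < 1 := by
    rw [L.mul]
    exact mul_lt_one_of_nonneg_of_lt_one_right (ev_le (fun i j => (hB i j).2) hP)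
      (L.nonneg _) hg
  have h5 : L.nm (ev₂ (c, w) (dY g)) ≤ 1 :=
    ev_le (In₂.dY fun i j => (h.ig i j).2) hP
  refine le_antisymm h5 (not_lt.1 fun h6 => ?_)
  have h7 : L.nm (ev₂ (c, w) B' * ev₂ (c, w) (dY g)) < 1 := by
    rw [L.mul]
    exact mul_lt_one_of_nonneg_of_lt_one_right (ev_le (fun i j => (hB' i j).2) hP)
      (L.nonneg _) h6
  have h8 := (L.add (ev₂ (c, w) B * ev₂ (c, w) g) (ev₂ (c, w) B' * ev₂ (c, w) (dY g))).trans_lt
    (max_lt h4 h7)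
  rw [h2, hδ] at h8
  exact lt_irrefl _ h8

omit [CharZero K] [IsAlgClosure K Ω] [IsScalarTower F K Ω] [Algebra F K] in
/-- Proportional coordinates. -/
theorem co_prop {P : (Xf f).pt Ω} {x y : Fin N → Ω} (h : Co P x) {c : Ω} (hc : c ≠ 0)
    (hy : ∀ i, y i = c * x i) (h0 : ∀ i, MvPolynomial.aeval y (f i) = 0) : Co P y := by
  obtain ⟨Q, hQ, rfl⟩ := h
  have hy0 : y ≠ 0 := by
    intro h
    apply Q.ne
    funext i
    have h1 := hy i
    rw [h] at h1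
    exact (mul_eq_zero.1 h1.symm).resolve_left hc
  refine ⟨⟨y, hy0, h0⟩, ?_, rfl⟩
  rw [hQ]
  exact Quotient.sound ⟨c, hc, funext hy⟩

/-- **The relation of the curves (CR)** for a projection. -/
theorem ty_cr (hψ : Pj f L ψ) {M : IntermediateField K Ω} [FiniteDimensional K M] {π : Ω}
    (hM : π ∈ M) (h1 : L.nm π < 1)
    {a : Fin (d + 1) → Polynomial Ω} (ha : Arc L M a) {ρ : ℕ} (hρ : ∀ i, (a i).natDegree ≤ ρ)
    {S : Finset Ω} (hS : ∀ c ∈ S, c ∈ M ∧ L.nm c ≤ 1 ∧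
      L.nm (MvPolynomial.aeval (fun r => (a r).eval c) ψ.D) = 1)
    (hS' : ∀ c ∈ S, ∀ c' ∈ S, c ≠ c' → L.nm (c - c') = 1) {j : ℕ} (hj : j * ρ < S.card) {τ : Ω}
    (hτ : τ ∈ M) (hτ' : L.nm τ ≤ 1) {T : Finset (Ω × Ω)}
    (hT : ∀ q, q ∈ T ↔ q.1 ∈ S ∧ pe (fun r => (a r).eval q.1) q.2 ψ.G = 0)
    (hT' : ∀ q ∈ T, q.2 ∈ M) (hn : T.Nonempty) :
    ∃ (P P' : Ω × Ω → (Xf f).pt Ω) (x x' : Ω × Ω → Fin N → Ω),
      (∀ q ∈ T, (∀ i, x q i = pe (fun r => (a r).eval q.1) q.2 (ψ.A i) /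
          MvPolynomial.aeval (fun r => (a r).eval q.1) ψ.D) ∧
        Co (P q) (x q) ∧ Co (P' q) (x' q) ∧ Iv L M (x q) ∧ Iv L M (x' q) ∧
        (∀ i, L.nm (x' q i - x q i) ≤ L.nm π) ∧
        ∀ r, L.nm (ψ.uv (x' q) r - ((a r).eval q.1 +
          π * (τ * q.2 ^ j /
            (Polynomial.derivative (∏ c ∈ S, (Polynomial.X - Polynomial.C c))).eval q.1) *
            (Polynomial.derivative (a r)).eval q.1)) ≤ L.nm π ^ 2) ∧
      ∑ q ∈ T, (Finsupp.single (P' q) (1 : ℤ) - Finsupp.single (P q) 1) ∈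
        (Xf f).ratEq M Ω := by
  classical
  have hC := ch_of hψ ha hρ
  have hδ : ∀ c, (MvPolynomial.aeval a ψ.D : Polynomial Ω).eval c =
      MvPolynomial.aeval (fun r => (a r).eval c) ψ.D := fun c => GM.ae_eval (F := K) ..
  have hev : ∀ (P : Ω × Ω) (Q : Polynomial (MvPolynomial (Fin (d + 1)) K)),
      ev₂ P (ga a Q) = pe (fun r => (a r).eval P.1) P.2 Q := fun P Q => ga_ev a Q P.1 P.2
  have hD : Crd L M ρ ψ.G.natDegree (ga a ψ.G) S T :=
    { mc := hC.mc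
      ig := fun i j => (hC.ig i j).2
      rg := fun i j => (hC.ig i j).1
      mS := fun c hc => (hS c hc).1
      iS := fun c hc => (hS c hc).2.1
      dS := hS'
      good := fun c hc w hw h => hC.good (hS c hc).2.1 hw (by rw [hδ]; exact (hS c hc).2.2) h
      mT := fun q => by rw [hT q, hev]
      rT := hT' }
  have hnz : ∀ z : Ω, L.nm z = 1 → z ≠ 0 := by
    rintro z hz rfl
    rw [L.zero] at hz
    exact zero_ne_one hz
  have hπτ : L.nm (π * τ) ≤ L.nm π := by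
    rw [L.mul]
    exact mul_le_of_le_one_right (L.nonneg _) hτ'
  have hπτ1 : L.nm (π * τ) < 1 := hπτ.trans_lt h1
  obtain ⟨φ, hφ, hrat⟩ := hD.cr (Xf f) (M.mul_mem hM hτ) hπτ1 hj
  have hsq : L.nm (π * τ) ^ 2 ≤ L.nm π ^ 2 := pow_le_pow_left₀ (L.nonneg _) hπτ 2
  -- the values of the arc
  have hac : ∀ {c : Ω}, L.nm c ≤ 1 → ∀ r, L.nm ((a r).eval c) ≤ 1 := fun hc r =>
    L.eval_le (fun i => (ha r i).2) hc
  have hCa : ∀ r, In₂ L (Polynomial.C (a r)) := by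
    intro r i j
    rw [Polynomial.coeff_C]
    split_ifs
    · exact (ha r j).2
    · rw [Polynomial.coeff_zero, L.zero]
      exact zero_le_one
  have hRa : ∀ r, Rm M (Polynomial.C (a r)) := by
    intro r i j
    rw [Polynomial.coeff_C]
    split_ifs
    · exact (ha r j).1
    · rw [Polynomial.coeff_zero]
      exact M.zero_mem
  have hev1 : ∀ (P : Ω × Ω) (p : Polynomial Ω), ev₂ P (Polynomial.C p) = p.eval P.1 := by
    intro P p
    simp [ev₂]
  have hacm : ∀ {c : Ω}, c ∈ M → ∀ r, (a r).eval c ∈ M := by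
    intro c hc r
    have h2 := exists_up (hRa r)
    obtain ⟨A', hA'⟩ := h2
    have h3 := ev_up (algebraMap M Ω) ((⟨c, hc⟩, 0) : M × M) A'
    rw [hA'] at h3
    have h4 : ev₂ ((c, 0) : Ω × Ω) (Polynomial.C (a r)) =
        algebraMap M Ω (ev₂ ((⟨c, hc⟩, 0) : M × M) A') := by
      rw [← h3]
      rfl
    rw [hev1] at h4
    change (a r).eval ((c, 0) : Ω × Ω).1 ∈ M
    rw [h4]
    exact (ev₂ ((⟨c, hc⟩, 0) : M × M) A').2
  have haci : ∀ {c : Ω}, c ∈ M → L.nm c ≤ 1 → Iv L M (fun r => (a r).eval c) :=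
    fun hc hc1 r => ⟨hacm hc r, hac hc1 r⟩
  -- the points
  have hgood : ∀ {P : Ω × Ω}, Ip L P → ev₂ P (ga a ψ.G) = 0 →
      L.nm (MvPolynomial.aeval (fun r => (a r).eval P.1) ψ.D) = 1 →
      (ψ.om Ω).pt (fun r => (a r).eval P.1) P.2 ≠ 0 ∧
        (∀ i, MvPolynomial.aeval ((ψ.om Ω).pt (fun r => (a r).eval P.1) P.2) (f i) = 0) := by
    intro P hP h2 h3
    rw [hev] at h2
    obtain ⟨-, -, h4, h5, -, -⟩ := hψ.pt_iv (M := ⊤)
      (fun r => ⟨IntermediateField.mem_top, hac hP.1 r⟩) IntermediateField.mem_top hP.2 h2 h3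
    exact ⟨h4, h5⟩
  have hTD : ∀ q ∈ T, L.nm (MvPolynomial.aeval (fun r => (a r).eval q.1) ψ.D) = 1 :=
    fun q hq => (hS _ ((hD.mT q).1 hq).1).2.2
  have hΔ : ∀ q ∈ T, ∀ r, L.nm ((a r).eval (φ q).1 - (a r).eval q.1) ≤ L.nm (π * τ) := by
    intro q hq r
    obtain ⟨-, -, h4, h5, h6, -, -, -⟩ := hφ q hq
    have h2 := ev_sub_le (hCa r) (hD.ip hq) h4 h5 h6
    rwa [hev1, hev1] at h2
  have hφD : ∀ q ∈ T, L.nm (MvPolynomial.aeval (fun r => (a r).eval (φ q).1) ψ.D) = 1 := by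
    intro q hq
    obtain ⟨-, -, h4, -, -, -, -, -⟩ := hφ q hq
    refine hψ.D_close (fun r => hac (hD.ip hq).1 r) (fun r => hac h4.1 r) (fun r => ?_)
      (hTD q hq)
    rw [L.sub_comm]
    exact (hΔ q hq r).trans_lt hπτ1
  obtain ⟨q₀, hq₀⟩ := hn
  have hP₀ := hgood (hD.ip hq₀) ((hD.mT q₀).1 hq₀).2 (hTD q₀ hq₀)
  have hex : ∀ P : Ω × Ω, ∃ y : (Xf f).pt Ω, Ip L P → ev₂ P (ga a ψ.G) = 0 →
      L.nm (MvPolynomial.aeval (fun r => (a r).eval P.1) ψ.D) = 1 →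
        Co y ((ψ.om Ω).pt (fun r => (a r).eval P.1) P.2) := by
    intro P
    by_cases h2 : Ip L P ∧ ev₂ P (ga a ψ.G) = 0 ∧
        L.nm (MvPolynomial.aeval (fun r => (a r).eval P.1) ψ.D) = 1
    · have h3 := hgood h2.1 h2.2.1 h2.2.2
      exact ⟨Quotient.mk _ ⟨(ψ.om Ω).pt (fun r => (a r).eval P.1) P.2, h3.1, h3.2⟩,
        fun _ _ _ => ⟨_, rfl, rfl⟩⟩
    · exact ⟨Quotient.mk _ ⟨(ψ.om Ω).pt (fun r => (a r).eval q₀.1) q₀.2, hP₀.1, hP₀.2⟩,
        fun h3 h4 h5 => absurd ⟨h3, h4, h5⟩ h2⟩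
  choose pt hpt using hex
  have hΦ : ∀ P ∈ T ∪ T.image φ, Ip L P ∧ ev₂ P (ga a ψ.G) = 0 ∧
      L.nm (MvPolynomial.aeval (fun r => (a r).eval P.1) ψ.D) = 1 := by
    intro P hP
    rcases Finset.mem_union.1 hP with hP | hP
    · exact ⟨hD.ip hP, ((hD.mT P).1 hP).2, hTD P hP⟩
    · obtain ⟨q, hq, rfl⟩ := Finset.mem_image.1 hP
      obtain ⟨-, -, h4, -, -, h7, -, -⟩ := hφ q hq
      exact ⟨h4, h7, hφD q hq⟩
  refine ⟨pt, fun q => pt (φ q), fun q => (ψ.om Ω).pt (fun r => (a r).eval q.1) q.2,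
    fun q => (ψ.om Ω).pt (fun r => (a r).eval (φ q).1) (φ q).2, fun q hq => ?_, ?_⟩
  · obtain ⟨h2, h3, h4, h5, h6, h7, h8, h9⟩ := hφ q hq
    have hqz := (hD.mT q).1 hq
    have hqS := hS _ hqz.1
    have hI := hD.ip hq
    have hGq : pe (fun r => (a r).eval q.1) q.2 ψ.G = 0 := by
      rw [← hev]
      exact hqz.2
    have hGφ : pe (fun r => (a r).eval (φ q).1) (φ q).2 ψ.G = 0 := by
      rw [← hev]
      exact h7
    obtain ⟨hi, -, -, -, -, -⟩ := hψ.pt_iv (haci hqS.1 hqS.2.1) (hT' q hq) hI.2 hGq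
      (hTD q hq)
    obtain ⟨hi', -, -, -, hu', -⟩ := hψ.pt_iv (haci h2 h4.1) h3 h4.2 hGφ (hφD q hq)
    refine ⟨fun i => om_pt _ _ i, hpt q hI hqz.2 (hTD q hq), hpt _ h4 h7 (hφD q hq), hi, hi',
      fun i => ?_, fun r => ?_⟩
    · exact hψ.pt_close (fun r => hac h4.1 r) h4.2 (fun r => hac hI.1 r) hI.2 (hφD q hq)
        (hTD q hq) (L.nonneg _) (fun r => (hΔ q hq r).trans hπτ) (h6.trans hπτ) i
    · have hu : ψ.uv ((ψ.om Ω).pt (fun r => (a r).eval (φ q).1) (φ q).2) r =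
          (a r).eval (φ q).1 := congrFun hu' r
      change L.nm (ψ.uv ((ψ.om Ω).pt (fun r => (a r).eval (φ q).1) (φ q).2) r - _) ≤ _
      rw [hu]
      have ht := tay_nm (hCa r) hI h4 h5 h6
      have h10 : ev₂ q (dZ (Polynomial.C (a r))) = (Polynomial.derivative (a r)).eval q.1 := by
        rw [dZ_C, hev1]
      have h11 : ev₂ q (dY (Polynomial.C (a r))) = 0 := by
        simp [dY]
      rw [hev1, hev1, h10, h11, zero_mul, add_zero] at ht
      have hai : L.nm ((Polynomial.derivative (a r)).eval q.1) ≤ 1 := by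
        rw [← h10]
        exact ev_le (hCa r).dZ hI
      set m' := (Polynomial.derivative
        (∏ c ∈ S, (Polynomial.X - Polynomial.C c))).eval q.1 with hm'
      have e : (a r).eval (φ q).1 - ((a r).eval q.1 + π * (τ * q.2 ^ j / m') *
          (Polynomial.derivative (a r)).eval q.1) =
          ((a r).eval (φ q).1 - (a r).eval q.1 -
            (Polynomial.derivative (a r)).eval q.1 * ((φ q).1 - q.1)) +
          (Polynomial.derivative (a r)).eval q.1 *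
            ((φ q).1 - q.1 - π * τ * q.2 ^ j / m') := by
        ring
      rw [e]
      refine ((L.add _ _).trans (max_le ht ?_)).trans hsq
      rw [L.mul]
      exact (mul_le_of_le_one_left (L.nonneg _) hai).trans h8
  · refine hrat pt (hC.gpm (fun P hP => ?_) fun P hP => ?_)
    · rw [hδ]
      exact hnz _ (hΦ P hP).2.2
    · obtain ⟨h2, h3, h4⟩ := hΦ P hP
      have h5 : ∀ i, ev₂ P (ga a (ψ.A i)) =
          MvPolynomial.aeval (fun r => (a r).eval P.1) ψ.D *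
            (ψ.om Ω).pt (fun r => (a r).eval P.1) P.2 i := by
        intro i
        rw [hev, om_pt, mul_div_cancel₀ _ (hnz _ h4)]
      refine co_prop (hpt P h2 h3 h4) (hnz _ h4) h5 fun i => ?_
      obtain ⟨s, hs⟩ := hC.inX
      obtain ⟨B, hB⟩ := hs i
      have h6 := congrArg (ev₂ P) hB
      rw [map_mul, map_mul, h3, zero_mul, hev1, Polynomial.eval_pow, hδ] at h6
      have h7 := (mul_eq_zero.1 h6).resolve_left (pow_ne_zero _ (hnz _ h4))
      rw [← h7]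
      exact gpk_eq (ev₂ P) (fun c => by
        have h8 : algebraMap F (Polynomial (Polynomial Ω)) c =
          Polynomial.C (Polynomial.C (algebraMap F Ω c)) := rfl
        rw [h8, hev1, Polynomial.eval_C]) _ (f i)

end GX
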