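import Pool.Agent.Lib.MP_f80667_ag.Gx.TsD
import Pool.Agent.Lib.MP_f80667_ag.Gx.Ty

/-!
The relation of the curves for a projection.
-/

open ZC BE PE CV IntermediateField

namespace GX

variable {F : Type} [Field F] {N d : ℕ} {ι : Type} {f : ι → MvPolynomial (Fin N) F} {K Ω : Type}
  [Field K] [CharZero K] [Field Ω] [Algebra K Ω] [Algebra F K] [Algebra F Ω]
  [IsScalarTower F K Ω] [IsAlgClosure K Ω] {L : Ld K Ω} {ψ : Prj K N d}

/-- **The relation of the curves (CR).** `a` is an arc of degree `≤ ρ` over `M` in the space of the projection, `D (a(c))` is a unit for `c ∈ S` and all the points `q = (c, w) ∈ T`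
over `S` are rational over `M`. The points `P q` and `P' q` are congruent modulo `π`; the projection of the coordinates of `P' q` is `a(c) + π (τ w ^ j / m'(c)) a'(c)` modulo
`π ^ 2`, `m = ∏ (z - c)`. -/
theorem cr (hψ : Pj f L ψ) {M : IntermediateField K Ω} [FiniteDimensional K M] {π : Ω}
    (hM : π ∈ M) (h0 : 0 < L.nm π) (h1 : L.nm π < 1)
    (hπ : ∀ x ∈ M, x ≠ 0 → ∃ k : ℤ, L.nm x = L.nm π ^ k)
    {a : Fin (d + 1) → Polynomial Ω} (ha : Arc L M a) {ρ : ℕ} (hρ : ∀ i, (a i).natDegree ≤ ρ)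
    {S : Finset Ω} (hS : ∀ c ∈ S, c ∈ M ∧ L.nm c ≤ 1 ∧
      L.nm (MvPolynomial.aeval (fun r => (a r).eval c) ψ.D) = 1)
    (hS' : ∀ c ∈ S, ∀ c' ∈ S, c ≠ c' → L.nm (c - c') = 1) {j : ℕ} (hj : j * ρ < S.card) {τ : Ω}
    (hτ : τ ∈ M) (hτ' : L.nm τ ≤ 1) {T : Finset (Ω × Ω)}
    (hT : ∀ q, q ∈ T ↔ q.1 ∈ S ∧ pe (fun r => (a r).eval q.1) q.2 ψ.G = 0)
    (hT' : ∀ q ∈ T, q.2 ∈ M) (hn : T.Nonempty) :
    ∃ (P P' : Ω × Ω → (Xf f).pt Ω) (x x' : Ω × Ω → Fin N → Ω),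
      (∀ q ∈ T, (∀ i, x q i = pe (fun r => (a r).eval q.1) q.2 (ψ.A i) /
          MvPolynomial.aeval (fun r => (a r).eval q.1) ψ.D) ∧
        Co (P q) (x q) ∧ Co (P' q) (x' q) ∧ Iv L M (x q) ∧ Iv L M (x' q) ∧
        (∀ i, L.nm (x' q i - x q i) ≤ L.nm π) ∧
        ∀ r, L.nm (ψ.uv (x' q) r - ((a r).eval q.1 +
          π * (τ * q.2 ^ j /
            (Polynomial.derivative (∏ c ∈ S, (Polynomial.X - Polynomial.C c))).eval q.1) *
            (Polynomial.derivative (a r)).eval q.1)) ≤ L.nm π ^ 2) ∧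
      ∑ q ∈ T, (Finsupp.single (P' q) (1 : ℤ) - Finsupp.single (P q) 1) ∈
        (Xf f).ratEq M Ω :=
  ty_cr hψ hM h1 ha hρ hS hS' hj hτ hτ' hT hT' hn

end GX
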