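import Pool.Agent.Lib.MP_f80667_ag.Gx.TsLa
import Pool.Agent.Lib.MP_f80667_ag.Gx.ChD

/-!
Points over the integers of `M` on the sheets of a projection.
-/

open ZC BE PE CV IntermediateField

namespace GX

variable {F : Type} [Field F] {N d : ℕ} {ι : Type} {f : ι → MvPolynomial (Fin N) F} {K Ω : Type}
  [Field K] [CharZero K] [Field Ω] [Algebra K Ω] [Algebra F K] [Algebra F Ω]
  [IsScalarTower F K Ω] [IsAlgClosure K Ω] {L : Ld K Ω} {ψ : Prj K N d}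

/-- The point on the sheet of an approximate point. -/
theorem pt_near {k : Subfield L.κ} {ψ' : Prj k N d} {f' : ι → MvPolynomial (Fin N) k}
    (hψ : Pj f L ψ) (hr : Rdj L k ψ ψ') (ho : ψ'.Ok f') {M : IntermediateField K Ω}
    [FiniteDimensional K M] {y : Fin N → k} (hy : Zp f' y)
    (hD : MvPolynomial.eval (ψ'.uv y) ψ'.D ≠ 0) {x₀ : Fin N → Ω} (hx₀ : Iv L M x₀)
    (h₀ : GM.Rdv L k x₀ y) {c : Fin (d + 1) → Ω} (hc : Iv L M c)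
    (hcy : GM.Rdv L k c (ψ'.uv y)) :
    ∃ (x : Fin N → Ω) (P : (Xf f).pt Ω), Iv L M x ∧ Co P x ∧ ψ.uv x = c ∧
      GM.Rdv L k x y := by
  obtain ⟨hG, hpt⟩ := ho.pt_eq hy hD
  have hD1 : L.nm (MvPolynomial.aeval c ψ.D) = 1 := (hr.D_one hcy).2 hD
  have hw₀ : L.rs.Hv (ψ.yv x₀) ((ψ'.yv y : k) : L.κ) := hr.yv h₀
  have h1 : L.nm (pe c (ψ.yv x₀) ψ.G) < 1 := by
    have h2 := rd_pe hr.G hcy hw₀
    rw [hG] at h2
    exact L.hv_zero.1 h2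
  have hM : ψ.yv x₀ ∈ M := lv_mem _ fun j => (hx₀ j).1
  obtain ⟨w, hw, hw1, hwG, hww⟩ := hψ.root hc hD1 hM (L.hv_int hw₀) h1
  obtain ⟨k1, -, k3, k4, k5, -⟩ := hψ.pt_iv hc hw hw1 hwG hD1
  have hw' : L.rs.Hv w ((ψ'.yv y : k) : L.κ) := by
    have h3 := hw₀.add (L.hv_zero.2 (hww.trans_lt h1))
    rwa [add_sub_cancel, add_zero] at h3
  obtain ⟨P, hP⟩ := co_mk k3 k4
  refine ⟨_, P, k1, hP, k5, ?_⟩
  have h4 := hr.pt hcy hw' hD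
  rwa [hpt] at h4

/-- The distance of two points of one sheet is the distance of their projections. -/
theorem uv_near (hψ : Pj f L ψ) {x x' : Fin N → Ω} (hx : ∀ i, L.nm (x i) ≤ 1)
    (hx' : ∀ i, L.nm (x' i) ≤ 1) (h0 : ∀ i, MvPolynomial.aeval x (f i) = 0)
    (h0' : ∀ i, MvPolynomial.aeval x' (f i) = 0)
    (hD : L.nm (MvPolynomial.aeval (ψ.uv x) ψ.D) = 1) (h : ∀ i, L.nm (x' i - x i) < 1) {r : ℝ}
    (hr : 0 ≤ r) (hu : ∀ s, L.nm (ψ.uv x' s - ψ.uv x s) ≤ r) (i : Fin N) :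
    L.nm (x' i - x i) ≤ r := by
  exact hψ.near hx hx' h0 h0' hD h hr hu i

/-- **Second order.** The residue of `(x' - x) / π` is the tangent vector over the residue of `(u(x') - u(x)) / π`. Proof: `pe_taylor` for `G` and the `A_j`, `uv_near`. -/
theorem lt_res {k : Subfield L.κ} {ψ' : Prj k N d} {f' : ι → MvPolynomial (Fin N) k}
    (hψ : Pj f L ψ) (hr : Rdj L k ψ ψ') (ho : ψ'.Ok f') {y : Fin N → k} (hy : Zp f' y)
    (hD : MvPolynomial.eval (ψ'.uv y) ψ'.D ≠ 0) {x x' : Fin N → Ω}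
    (hx' : ∀ i, L.nm (x' i) ≤ 1) (h0 : ∀ i, MvPolynomial.aeval x (f i) = 0)
    (h0' : ∀ i, MvPolynomial.aeval x' (f i) = 0) (hxy : GM.Rdv L k x y)
    (h : ∀ i, L.nm (x' i - x i) < 1) {π : Ω} (hπ : 0 < L.nm π) (hπ1 : L.nm π < 1)
    {ξ : Fin (d + 1) → k}
    (hξ : ∀ s, L.rs.Hv ((ψ.uv x' s - ψ.uv x s) / π) (ξ s : L.κ)) (i : Fin N) :
    L.rs.Hv ((x' i - x i) / π) (((ψ'.lt (ψ'.uv y) (ψ'.yv y) ξ i : k)) : L.κ) := by
  have hπ0 : π ≠ 0 := L.ne_zero hπ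
  have hx : ∀ i, L.nm (x i) ≤ 1 := fun i => L.hv_int (hxy i)
  have hu := hr.uv hxy
  have hw := hr.yv hxy
  have hD1 : L.nm (MvPolynomial.aeval (ψ.uv x) ψ.D) = 1 := (hr.D_one hu).2 hD
  have hG := ho.gy_ne (ho.pt_eq hy hD).1 hD
  have h1 : ∀ s, L.nm (ψ.uv x' s - ψ.uv x s) ≤ L.nm π := by
    intro s
    have h2 := L.hv_int (hξ s)
    rwa [L.div, div_le_one hπ] at h2
  have h2 := hψ.near hx hx' h0 h0' hD1 h hπ.le h1
  have h3 := hψ.second hx hx' h0 h0' hD1 hπ.le hπ1 h2 i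
  have h4 : GM.Rdv L k (π⁻¹ • (ψ.uv x' - ψ.uv x)) ξ := by
    intro s
    have h5 := hξ s
    rwa [div_eq_inv_mul] at h5
  have h5 := hr.lt hu hw hD hG h4 i
  rw [Prj.lt_smul] at h5
  have h6 : L.rs.Hv (((x' i - x i) -
      (ψ.om Ω).lt (ψ.uv x) (ψ.yv x) (ψ.uv x' - ψ.uv x) i) / π) 0 := by
    refine L.hv_zero.2 ?_
    rw [L.div, div_lt_one hπ]
    refine h3.trans_lt ?_
    rw [sq]
    exact mul_lt_of_lt_one_left hπ hπ1
  have h7 := h6.add h5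
  rw [zero_add] at h7
  have h8 : ((x' i - x i) - (ψ.om Ω).lt (ψ.uv x) (ψ.yv x) (ψ.uv x' - ψ.uv x) i) / π +
      (π⁻¹ • (ψ.om Ω).lt (ψ.uv x) (ψ.yv x) (ψ.uv x' - ψ.uv x)) i = (x' i - x i) / π := by
    rw [Pi.smul_apply, smul_eq_mul, div_eq_inv_mul, div_eq_inv_mul]
    ring
  rwa [h8] at h7

end GX
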