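import Pool.Agent.Lib.MP_f80667_ag.Gx.TsE
import Pool.Agent.Lib.MP_f80667_ag.Gx.TsLb
import Pool.Agent.Lib.MP_f80667_ag.Gx.TeB

/-!
Four points.
-/

open ZC BE PE CV IntermediateField

namespace GX

variable {F : Type} [Field F] {N d m : ℕ} {ι : Type} {f : ι → MvPolynomial (Fin N) F} {K Ω : Type}
  [Field K] [CharZero K] [Field Ω] [Algebra K Ω] [Algebra F K] [Algebra F Ω]
  [IsScalarTower F K Ω] [IsAlgClosure K Ω] {L : Ld K Ω} {B : Type} [AddCommGroup B]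
  {lam : ((Xf f).pt Ω →₀ ℤ) →+ B} {M : IntermediateField K Ω} {R : ℕ} {ψ : Fin m → Prj K N d}
  {f' : ι → MvPolynomial (Fin N) (GM.kI L R)} {ψ' : Fin m → Prj (GM.kI L R) N d}

omit [CharZero K] [IsAlgClosure K Ω] in
private theorem tsef_fx {M : IntermediateField K Ω} {P₁ P₂ P₃ P₄ : (Xf f).pt Ω}
    (h₁ : Fp (Xf f) M P₁) (h₂ : Fp (Xf f) M P₂) (h₃ : Fp (Xf f) M P₃) (h₄ : Fp (Xf f) M P₄) :
    Fx M (Finsupp.single P₁ 1 + Finsupp.single P₄ 1 -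
      Finsupp.single P₂ 1 - Finsupp.single P₃ 1 : (Xf f).pt Ω →₀ ℤ) := by
  intro γ hγ
  rw [smul_sub, smul_sub, smul_add, fx_single h₁ 1 γ hγ, fx_single h₂ 1 γ hγ,
    fx_single h₃ 1 γ hγ, fx_single h₄ 1 γ hγ]

omit [CharZero K] [IsAlgClosure K Ω] in
/-- The values of the linear forms are integral. -/
private theorem tsef_uv {ψ : Prj K N d} (hψ : Pj f L ψ) {M : IntermediateField K Ω}
    {x : Fin N → Ω} (hx : Iv L M x) : Iv L M (ψ.uv x) := by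
  intro r
  have e : ψ.uv x r = ∑ j, algebraMap K Ω (ψ.u r j) * x j := rfl
  rw [e]
  refine ⟨M.sum_mem fun j _ => M.mul_mem (M.algebraMap_mem _) (hx j).1, ?_⟩
  refine L.sum_le _ _ zero_le_one fun j _ => ?_
  rw [L.mul]
  exact mul_le_one₀ (hψ.iu r j) (L.nonneg _) (hx j).2

/-- **Four points.** If `u(x₁) + u(x₄) = u(x₂) + u(x₃)` modulo `p ^ 2` for coordinates with the residue `y` then `lam` is `0` on the trace of
`[P₁] + [P₄] - [P₂] - [P₃]`. Proof: `x₅` over `(u(x₁) + u(x₄)) / 2` (`pt_near`); `jen` twice (`2 < p`); `rat_tr`, `dl_tr`, `hl.rat`, `hl.two` (compare `GM.four`). -/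
theorem four [L.Unr] (h2 : 2 < L.p) (hl : Lm f L lam) (hM : Um L M) (hR : L.Rf M R)
    (hx : Rdx f L (GM.kI L R) ψ f' ψ') {y : Fin N → GM.kI L R} (hy : Zp f' y) {i : Fin m}
    (hD : MvPolynomial.eval ((ψ' i).uv y) (ψ' i).D ≠ 0) {s : ℕ} (hs0 : ¬ L.p ∣ s)
    {x₁ x₂ x₃ x₄ : Fin N → Ω} (h₁ : Iv L (GM.Mu L M R s) x₁) (h₂ : Iv L (GM.Mu L M R s) x₂)
    (h₃ : Iv L (GM.Mu L M R s) x₃) (h₄ : Iv L (GM.Mu L M R s) x₄)
    (g₁ : GM.Rdv L (GM.kI L R) x₁ y) (g₂ : GM.Rdv L (GM.kI L R) x₂ y)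
    (g₃ : GM.Rdv L (GM.kI L R) x₃ y) (g₄ : GM.Rdv L (GM.kI L R) x₄ y)
    (h : ∀ r, L.nm ((ψ i).uv x₁ r + (ψ i).uv x₄ r - (ψ i).uv x₂ r - (ψ i).uv x₃ r) ≤
      L.nm (L.p : Ω) ^ 2)
    {P₁ P₂ P₃ P₄ : (Xf f).pt Ω} (hP₁ : Co P₁ x₁) (hP₂ : Co P₂ x₂) (hP₃ : Co P₃ x₃)
    (hP₄ : Co P₄ x₄) :
    lam (rtr (Xf f) ⊥ (GM.Mu L M R s) (Finsupp.single P₁ 1 + Finsupp.single P₄ 1 -
      Finsupp.single P₂ 1 - Finsupp.single P₃ 1)) = 0 := by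
  have hn : s ≠ 0 := fun h => hs0 (h ▸ dvd_zero _)
  have hMs : Um L (GM.Mu L M R s) := GM.mu_um hM hR.ne hn
  have hfd : FiniteDimensional K (GM.Mu L M R s) := hMs.fd
  have hψ := hx.pj i
  have hr := hx.rj i
  have h2' : L.nm ((2 : ℕ) : Ω) = 1 :=
    L.nat_unit (n := 2) fun h => absurd (Nat.le_of_dvd two_pos h) (not_le.2 h2)
  have h2n : L.nm (2 : Ω) = 1 := by
    rwa [Nat.cast_ofNat] at h2'
  have h2κ : ((2 : ℕ) : L.κ) ≠ 0 := (L.hv_ne (Rs.Hv.nat 2)).2 h2'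
  have h20 : (2 : Ω) ≠ 0 := L.ne_zero (by rw [h2n]; exact zero_lt_one)
  have hu₁ := tsef_uv hψ h₁
  have hu₄ := tsef_uv hψ h₄
  have hc : Iv L (GM.Mu L M R s) fun r => ((ψ i).uv x₁ r + (ψ i).uv x₄ r) / 2 := fun r => by
    refine ⟨IntermediateField.div_mem _ (IntermediateField.add_mem _ (hu₁ r).1 (hu₄ r).1) (by
      have h5 := (GM.Mu L M R s).natCast_mem 2
      rwa [Nat.cast_ofNat] at h5), ?_⟩
    rw [L.div, h2n, div_one]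
    exact (L.add _ _).trans (max_le (hu₁ r).2 (hu₄ r).2)
  have hcy : GM.Rdv L (GM.kI L R) (fun r => ((ψ i).uv x₁ r + (ψ i).uv x₄ r) / 2)
      ((ψ' i).uv y) := fun r => by
    have h3 := ((hr.uv g₁ r).add (hr.uv g₄ r)).div (Rs.Hv.nat 2) h2κ
    refine h3.congr (by rw [Nat.cast_ofNat]) ?_
    rw [div_eq_iff h2κ]
    push_cast
    ring
  obtain ⟨x₅, P₅, h₅, hP₅, hu₅, g₅⟩ := pt_near hψ hr (hx.ok i) hy hD h₁ g₁ hc hcy
  have hDn : ∀ x : Fin N → Ω, GM.Rdv L (GM.kI L R) x y →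
      L.nm (MvPolynomial.aeval ((ψ i).uv x) (ψ i).D) = 1 := fun x hxy => by
    refine (L.hv_ne (hr.Dv (hr.uv hxy))).1 fun h0 => hD ?_
    exact Subtype.ext h0
  have hcl : ∀ x x' : Fin N → Ω, GM.Rdv L (GM.kI L R) x y → GM.Rdv L (GM.kI L R) x' y →
      ∀ i, L.nm (x' i - x i) < 1 := fun x x' hxy hxy' i => (L.hv_sub (hxy' i) (hxy i)).1 rfl
  have hu5 : ∀ r, 2 * (ψ i).uv x₅ r = (ψ i).uv x₁ r + (ψ i).uv x₄ r := fun r => by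
    rw [hu₅]
    exact mul_div_cancel₀ _ h20
  have j1 := jen hψ h2 hMs h₁ h₄ h₅ (hDn x₁ g₁) (hcl x₁ x₄ g₁ g₄) (hcl x₁ x₅ g₁ g₅)
    (fun r => by
      rw [hu5 r, add_sub_cancel_left, sub_self, L.zero]
      exact pow_nonneg (L.nonneg _) 2) hP₁ hP₄ hP₅
  have j2 := jen hψ h2 hMs h₂ h₃ h₅ (hDn x₂ g₂) (hcl x₂ x₃ g₂ g₃) (hcl x₂ x₅ g₂ g₅)
    (fun r => by
      rw [hu5 r]
      exact h r) hP₂ hP₃ hP₅
  obtain ⟨z, hz⟩ : ∃ z : (Xf f).pt Ω →₀ ℤ, z = Finsupp.single P₁ 1 + Finsupp.single P₄ 1 -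
    Finsupp.single P₂ 1 - Finsupp.single P₃ 1 := ⟨_, rfl⟩
  rw [← hz]
  have hfx : Fx (GM.Mu L M R s) z := by
    rw [hz]
    exact tsef_fx (fp_co hP₁ fun i => (h₁ i).1) (fp_co hP₂ fun i => (h₂ i).1)
      (fp_co hP₃ fun i => (h₃ i).1) (fp_co hP₄ fun i => (h₄ i).1)
  have j3 := AddSubgroup.sub_mem _ j1 j2
  have h5 : (Finsupp.single P₁ 1 + Finsupp.single P₄ 1 - Finsupp.single P₅ 2 : (Xf f).pt Ω →₀ ℤ) -
      (Finsupp.single P₂ 1 + Finsupp.single P₃ 1 - Finsupp.single P₅ 2) = z := by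
    rw [hz]
    abel
  rw [h5] at j3
  obtain ⟨d', hd', r, hr', hdr⟩ := AddSubgroup.mem_sup.1 j3
  have hrf : Fx (GM.Mu L M R s) r := by
    intro γ hγ
    have h6 : r = z - d' := by rw [← hdr]; abel
    rw [h6, smul_sub, hfx γ hγ, dl_fx hd' γ hγ]
  rw [← hdr, map_add, map_add, hl.two _ (dl_tr hMs hd'), hl.rat _ (rat_tr hMs hr' hrf), add_zero]

end GX
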