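import Pool.Agent.Lib.MP_f80667_ag.Gx.TsEu

/-!
Homogeneity and radial vectors.
-/

open ZC BE PE CV IntermediateField

namespace GX

variable {F : Type} [Field F] {N d m : ℕ} {ι : Type} {f : ι → MvPolynomial (Fin N) F} {K Ω : Type}
  [Field K] [CharZero K] [Field Ω] [Algebra K Ω] [Algebra F K] [Algebra F Ω]
  [IsScalarTower F K Ω] [IsAlgClosure K Ω] {L : Ld K Ω} {B : Type} [AddCommGroup B]
  {lam : ((Xf f).pt Ω →₀ ℤ) →+ B} {M : IntermediateField K Ω} {R : ℕ} {ψ : Fin m → Prj K N d}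
  {f' : ι → MvPolynomial (Fin N) (GM.kI L R)} {ψ' : Fin m → Prj (GM.kI L R) N d}

/-- Near points from the data of `Tv`. -/
private theorem tser_nrh {x x' : Fin N → Ω} {P P' : (Xf f).pt Ω} {y u : Fin N → GM.kI L R}
    (hx : ∀ i, L.nm (x i) ≤ 1) (hx' : ∀ i, L.nm (x' i) ≤ 1) (hP : Co P x) (hP' : Co P' x')
    (hxy : GM.Rdv L (GM.kI L R) x y) (hy : y ≠ 0)
    (hu : ∀ i, L.rs.Hv ((x' i - x i) / (L.p : Ω)) (u i : L.κ)) :
    Nrh f L (L.nm (L.p : Ω)) P' P := by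
  have hp0 : 0 < L.nm (L.p : Ω) := L.p_pos
  have h1 : ∀ i, L.nm (x' i - x i) ≤ L.nm (L.p : Ω) := by
    intro i
    have h2 := L.hv_int (hu i)
    rw [div_eq_mul_inv, L.mul, L.inv, ← div_eq_mul_inv] at h2
    exact (div_le_one hp0).1 h2
  have h3 : ∃ i, L.nm (x i) = 1 := by
    obtain ⟨i, hi⟩ := Function.ne_iff.1 hy
    refine ⟨i, (L.hv_ne (hxy i)).1 fun h => hi ?_⟩
    exact Subtype.ext h
  obtain ⟨i, hi⟩ := h3
  refine ⟨x', x, hP', hP, hx', hx, ⟨i, ?_⟩, ⟨i, hi⟩, h1⟩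
  have h4 : L.rs.Hv (x' i) ((y i : GM.kI L R) : L.κ) := by
    obtain ⟨r, hr⟩ := L.hv_of (hx' i)
    have h5 := (L.hv_sub hr (hxy i)).2 ((h1 i).trans_lt L.lt)
    rw [← h5]
    exact hr
  refine (L.hv_ne h4).1 ((L.hv_ne (hxy i)).2 hi)

/-- A lift of a residue. -/
private theorem tser_lift (hR : L.Rf M R) (t : GM.kI L R) : ∃ s, ¬ L.p ∣ s ∧ s ≠ 0 ∧
    ∃ z ∈ L.Te (R * s), L.rs.Hv z (t : L.κ) := by
  have h0 : (0 : ℕ) ∉ GM.Jc L.p L.pp := fun h => h (dvd_zero _)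
  obtain ⟨s, hs, hz⟩ := GM.kJ_te hR.ne h0 (fun _ : Unit => t)
  refine ⟨s, hs, fun h => h0 (h ▸ hs), ?_⟩
  exact hz ()

private theorem tser_mem {s s' : ℕ} {z : Ω} (hz : z ∈ L.Te (R * s')) :
    z ∈ GM.Mu L M R (s * s') := by
  refine Ld.te_ur (Ld.te_dvd ?_ hz)
  exact mul_dvd_mul_left R (dvd_mul_left s' s)

/-- Homogeneity. Proof: multiply the coordinates with a lift of `t` (`GM.kJ_te`); the points do not change (`co_smul`); enlarge `s` (compare `GM.tv_hom`). -/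
theorem tv_hom [L.Unr] (hf : Hm f) (hl : Lm f L lam) (hM : Um L M) (hR : L.Rf M R)
    {y u : Fin N → GM.kI L R} (hy : y ≠ 0) {t : GM.kI L R} (ht : t ≠ 0) {b : B}
    (h : Tv L lam M R y u b) : Tv L lam M R (t • y) (t • u) b := by
  obtain ⟨s, hs, x, x', P, P', hx, hx', hP, hP', hxy, hu, hb⟩ := h
  obtain ⟨s', hs', hs0', z, hz, hzt⟩ := tser_lift hR t
  have hz1 : L.nm z = 1 := (L.hv_ne hzt).1 fun h => ht (Subtype.ext h)
  have hz0 : z ≠ 0 := L.ne_zero (by rw [hz1]; exact zero_lt_one)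
  have hzm : z ∈ GM.Mu L M R (s * s') := tser_mem hz
  refine ⟨s * s', fun h => ((Nat.Prime.dvd_mul L.pp).1 h).elim hs hs', fun i => z * x i,
    fun i => z * x' i, P, P', fun i => ⟨?_, ?_⟩, fun i => ⟨?_, ?_⟩, co_smul hf hP hz0,
    co_smul hf hP' hz0, fun i => hzt.mul (hxy i), fun i => ?_, ?_⟩
  · exact mul_mem hzm (GM.mu_mono s' (hx i).1)
  · rw [L.mul, hz1, one_mul]
    exact (hx i).2
  · exact mul_mem hzm (GM.mu_mono s' (hx' i).1)
  · rw [L.mul, hz1, one_mul]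
    exact (hx' i).2
  · have h1 : (z * x' i - z * x i) / (L.p : Ω) = z * ((x' i - x i) / (L.p : Ω)) := by ring
    rw [h1]
    exact hzt.mul (hu i)
  · rw [hb]
    exact (vl_up hl hM hR hs hs' (fp_co hP fun i => (hx i).1) (fp_co hP' fun i => (hx' i).1)
      (tser_nrh (fun i => (hx i).2) (fun i => (hx' i).2) hP hP' hxy hy hu)).symm

/-- Radial vectors. Proof: `x' = (1 + p t) x` are coordinates of the same point; `x` from `cov`, `GM.kJ_te`, `pt_near` (compare `GM.tv_rad`). -/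
theorem tv_rad [L.Unr] (hf : Hm f) (hM : Um L M) (hR : L.Rf M R)
    (hx : Rdx f L (GM.kI L R) ψ f' ψ') {y : Fin N → GM.kI L R} (hy : Zp f' y)
    (t : GM.kI L R) : Tv L lam M R y (t • y) 0 := by
  have h0 : Tg f' y 0 := ⟨hy, fun i => Finset.sum_eq_zero fun j _ => mul_zero _⟩
  obtain ⟨b, s, hs, x, x', P, P', hx1, -, hP, -, hxy, -, -⟩ := tv_ex (lam := lam) hM hR hx h0
  obtain ⟨s', hs', hs0', z, hz, hzt⟩ := tser_lift hR t
  have hzm : z ∈ GM.Mu L M R (s * s') := tser_mem hz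
  have hp0 : (L.p : Ω) ≠ 0 := L.ne_zero L.p_pos
  have hpz : L.nm ((L.p : Ω) * z) < 1 := by
    rw [L.mul]
    exact mul_lt_one_of_nonneg_of_lt_one_left (L.nonneg _) L.lt (L.hv_int hzt)
  have hc1 : L.nm (1 + (L.p : Ω) * z) ≤ 1 :=
    (L.add _ _).trans (max_le L.one.le hpz.le)
  have hc0 : 1 + (L.p : Ω) * z ≠ 0 := by
    intro h
    have h1 : (L.p : Ω) * z = -1 := by linear_combination h
    rw [h1, L.neg, L.one] at hpz
    exact lt_irrefl _ hpz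
  have hcm : 1 + (L.p : Ω) * z ∈ GM.Mu L M R (s * s') :=
    add_mem (one_mem _) (mul_mem (_root_.natCast_mem _ _) hzm)
  refine ⟨s * s', fun h => ((Nat.Prime.dvd_mul L.pp).1 h).elim hs hs', x,
    fun i => (1 + (L.p : Ω) * z) * x i, P, P, fun i => ⟨GM.mu_mono s' (hx1 i).1, (hx1 i).2⟩,
    fun i => ⟨mul_mem hcm (GM.mu_mono s' (hx1 i).1), ?_⟩, hP, co_smul hf hP hc0, hxy,
    fun i => ?_, ?_⟩
  · rw [L.mul]
    exact mul_le_one₀ hc1 (L.nonneg _) (hx1 i).2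
  · have h1 : ((1 + (L.p : Ω) * z) * x i - x i) / (L.p : Ω) = z * x i := by
      field_simp
      ring
    rw [h1]
    exact hzt.mul (hxy i)
  · rw [vl, sub_self, map_zero, map_zero, smul_zero]

/-- The value of `T`. -/
theorem tf_eq [L.Unr] (h2 : 2 < L.p) (hl : Lm f L lam) (hM : Um L M) (hR : L.Rf M R)
    (hx : Rdx f L (GM.kI L R) ψ f' ψ') {y u : Fin N → GM.kI L R} (hu : Tg f' y u) {b : B}
    (h : Tv L lam M R y u b) : Tf L lam M R f' y u = b := by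
  have h1 : Tg f' y u ∧ ∃ b, Tv L lam M R y u b := ⟨hu, b, h⟩
  rw [Tf, dif_pos h1]
  exact tv_uniq h2 hl hM hR hx hu.1 h1.2.choose_spec h

end GX
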