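import Pool.Agent.Lib.MP_f80667_ag.Gx.TsE
import Pool.Agent.Lib.MP_f80667_ag.Gx.TsLb
import Pool.Agent.Lib.MP_f80667_ag.Gm.GsJt

/-!
Existence of the values of `T`.
-/

open ZC BE PE CV IntermediateField

namespace GX

variable {F : Type} [Field F] {N d m : ℕ} {ι : Type} {f : ι → MvPolynomial (Fin N) F} {K Ω : Type}
  [Field K] [CharZero K] [Field Ω] [Algebra K Ω] [Algebra F K] [Algebra F Ω]
  [IsScalarTower F K Ω] [IsAlgClosure K Ω] {L : Ld K Ω} {B : Type} [AddCommGroup B]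
  {lam : ((Xf f).pt Ω →₀ ℤ) →+ B} {M : IntermediateField K Ω} {R : ℕ} {ψ : Fin m → Prj K N d}
  {f' : ι → MvPolynomial (Fin N) (GM.kI L R)} {ψ' : Fin m → Prj (GM.kI L R) N d}

omit [CharZero K] [IsAlgClosure K Ω] in
/-- A vector congruent to a vector with residue `y` has residue `y`. -/
private theorem tsex_rdv {k : Subfield L.κ} {n : ℕ} {x x' : Fin n → Ω} {y : Fin n → k}
    (hx : GM.Rdv L k x y) (h : ∀ i, L.nm (x' i - x i) < 1) : GM.Rdv L k x' y := by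
  intro i
  have h1 := (L.hv_zero.2 (h i)).add (hx i)
  rwa [sub_add_cancel, zero_add] at h1

omit [CharZero K] [IsAlgClosure K Ω] [Algebra F K] [Algebra F Ω] [IsScalarTower F K Ω] in
/-- Values of integral linear forms. -/
private theorem tsex_iv {a : Fin N → K} (ha : ∀ j, L.nm (algebraMap K Ω (a j)) ≤ 1)
    {M : IntermediateField K Ω} {x : Fin N → Ω} (hx : Iv L M x) :
    lv a x ∈ M ∧ L.nm (lv a x) ≤ 1 := by
  constructor
  · exact sum_mem fun j _ => mul_mem (M.algebraMap_mem _) (hx j).1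
  · refine L.sum_le _ _ zero_le_one fun j _ => ?_
    rw [L.mul]
    exact mul_le_one₀ (ha j) (L.nonneg _) (hx j).2

/-- Existence. Proof: `cov`: `i`; `GM.kJ_te`: `s` and lifts `x₀`, `t₀` of the coordinates of `y`, `u`; `pt_near` over `c = u(x₀)` and `c' = c + p u(t₀)` gives `x`, `x'`; `lt_res`, `Prj.Ok.lt_eq`
(compare `GM.tv_ex`). -/
theorem tv_ex [L.Unr] (hM : Um L M) (hR : L.Rf M R) (hx : Rdx f L (GM.kI L R) ψ f' ψ')
    {y u : Fin N → GM.kI L R} (h : Tg f' y u) : ∃ b, Tv L lam M R y u b := by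
  have hp0 : 0 < L.nm (L.p : Ω) := L.p_pos
  have hp1 : L.nm (L.p : Ω) < 1 := L.lt
  have hpn : (L.p : Ω) ≠ 0 := L.ne_zero hp0
  have h0 : (0 : ℕ) ∉ GM.Jc L.p L.pp := fun h => h (dvd_zero _)
  obtain ⟨i, hi⟩ := hx.cv h.1
  obtain ⟨s, hsJ, hf⟩ := GM.kJ_te hR.ne h0 (Sum.elim y u)
  have hps : ¬ L.p ∣ s := hsJ
  have hs0 : s ≠ 0 := fun h => h0 (h ▸ hsJ)
  choose g hf1 hf2 using hf
  have hU : Um L (GM.Mu L M R s) := GM.mu_um hM hR.ne hs0
  have hfd : FiniteDimensional K (GM.Mu L M R s) := hU.fd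
  have hx0 : Iv L (GM.Mu L M R s) (fun i => g (Sum.inl i)) := fun i =>
    ⟨Ld.te_ur (hf1 _), L.hv_int (hf2 (Sum.inl i))⟩
  have hu0 : Iv L (GM.Mu L M R s) (fun i => g (Sum.inr i)) := fun i =>
    ⟨Ld.te_ur (hf1 _), L.hv_int (hf2 (Sum.inr i))⟩
  have hy0 : GM.Rdv L (GM.kI L R) (fun i => g (Sum.inl i)) y := fun i => hf2 (Sum.inl i)
  have hv0 : GM.Rdv L (GM.kI L R) (fun i => g (Sum.inr i)) u := fun i => hf2 (Sum.inr i)
  generalize (fun i => g (Sum.inl i)) = x₀ at hx0 hy0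
  generalize (fun i => g (Sum.inr i)) = u₀ at hu0 hv0
  -- the first point
  obtain ⟨x, P, hxM, hP, hxu, hxy⟩ := pt_near (hx.pj i) (hx.rj i) (hx.ok i) h.1 hi hx0 hy0
    (c := (ψ i).uv x₀) (fun r => tsex_iv ((hx.pj i).iu r) hx0) ((hx.rj i).uv hy0)
  -- the second point
  have hpM : (L.p : Ω) ∈ GM.Mu L M R s := _root_.natCast_mem _ _
  have hc' : Iv L (GM.Mu L M R s) (fun r => (ψ i).uv x r + (L.p : Ω) * (ψ i).uv u₀ r) := by
    intro r
    have h1 := tsex_iv ((hx.pj i).iu r) hxM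
    have h2 := tsex_iv ((hx.pj i).iu r) hu0
    refine ⟨add_mem h1.1 (mul_mem hpM h2.1), (L.add _ _).trans (max_le h1.2 ?_)⟩
    rw [L.mul]
    exact mul_le_one₀ hp1.le (L.nonneg _) h2.2
  have hcy' : GM.Rdv L (GM.kI L R) (fun r => (ψ i).uv x r + (L.p : Ω) * (ψ i).uv u₀ r)
      ((ψ' i).uv y) := tsex_rdv ((hx.rj i).uv hxy) fun r => by
    rw [add_sub_cancel_left, L.mul]
    exact mul_lt_one_of_nonneg_of_lt_one_left (L.nonneg _) hp1 (tsex_iv ((hx.pj i).iu r) hu0).2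
  obtain ⟨x', P', hxM', hP', hxu', hxy'⟩ := pt_near (hx.pj i) (hx.rj i) (hx.ok i) h.1 hi hxM hxy
    hc' hcy'
  have hz : ∀ {z : Fin N → Ω} {Q : (Xf f).pt Ω}, Co Q z → ∀ e, MvPolynomial.aeval z (f e) = 0 := by
    rintro z Q ⟨q, -, rfl⟩ e
    exact q.eq e
  have hnear : ∀ e, L.nm (x' e - x e) < 1 := fun e => L.hv_zero.1 (by
    have h1 := (hxy' e).sub (hxy e)
    rwa [sub_self] at h1)
  have hres := lt_res (hx.pj i) (hx.rj i) (hx.ok i) h.1 hi (fun e => (hxM' e).2) (hz hP) (hz hP')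
    hxy hnear hp0 hp1 (ξ := (ψ' i).uv u) (fun r => by
      have h1 : ((ψ i).uv x' r - (ψ i).uv x r) / (L.p : Ω) = (ψ i).uv u₀ r := by
        rw [hxu']
        field_simp
        ring
      rw [h1]
      exact (hx.rj i).uv hv0 r)
  rw [(hx.ok i).lt_eq h hi] at hres
  exact ⟨vl L lam M R s P P', s, hps, x, x', P, P', hxM, hxM', hP, hP', hxy, hres, rfl⟩

end GX
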