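import Pool.Agent.Lib.MP_f80667_ag.Gx.TsEf
import Pool.Agent.Lib.MP_f80667_ag.Gx.TsEx
import Pool.Agent.Lib.MP_f80667_ag.Gx.ChA
import Pool.Agent.Lib.MP_f80667_ag.Gm.GsBh

/-!
Uniqueness and additivity of the values of `T`.
-/

open ZC BE PE CV IntermediateField

namespace GX

variable {F : Type} [Field F] {N d m : ℕ} {ι : Type} {f : ι → MvPolynomial (Fin N) F} {K Ω : Type}
  [Field K] [CharZero K] [Field Ω] [Algebra K Ω] [Algebra F K] [Algebra F Ω]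
  [IsScalarTower F K Ω] [IsAlgClosure K Ω] {L : Ld K Ω} {B : Type} [AddCommGroup B]
  {lam : ((Xf f).pt Ω →₀ ℤ) →+ B} {M : IntermediateField K Ω} {R : ℕ} {ψ : Fin m → Prj K N d}
  {f' : ι → MvPolynomial (Fin N) (GM.kI L R)} {ψ' : Fin m → Prj (GM.kI L R) N d}

private theorem eu_um (hM : Um L M) (hR : L.Rf M R) {s : ℕ} (hs : ¬ L.p ∣ s) :
    Um L (GM.Mu L M R s) :=
  GM.mu_um hM hR.ne fun h => hs (h ▸ dvd_zero _)

private theorem eu_lt [L.Unr] {M' : IntermediateField K Ω} (hM : Um L M') {z : Ω} (hz : z ∈ M')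
    (h : L.nm z < 1) : L.nm z ≤ L.nm (L.p : Ω) := by
  obtain ⟨N', hN', hM'⟩ := hM
  have h1 := PE.Ld.ur_lt hN' (hM' hz) (i := 0) (by rw [pow_zero]; exact h)
  rwa [zero_add, pow_one] at h1

private theorem eu_p0 (L : Ld K Ω) : (L.p : Ω) ≠ 0 := L.ne_zero L.p_pos

private theorem eu_le {z : Ω} {r : L.κ} (h : L.rs.Hv (z / (L.p : Ω)) r) :
    L.nm z ≤ L.nm (L.p : Ω) := by
  have h1 := L.hv_int h
  rw [L.div, div_le_one L.p_pos] at h1
  exact h1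

private theorem eu_rdv {n : ℕ} {k : Subfield L.κ} {x x' : Fin n → Ω} {y : Fin n → k}
    (hx : GM.Rdv L k x y) (h : ∀ i, L.nm (x' i - x i) < 1) : GM.Rdv L k x' y := by
  intro i
  have h1 := (hx i).add (L.hv_zero.2 (h i))
  rw [add_sub_cancel, add_zero] at h1
  exact h1

private theorem eu_near {k : Subfield L.κ} {x x' : Fin N → Ω} {y : Fin N → k} {u : Fin N → L.κ}
    (hx : GM.Rdv L k x y) (h : ∀ i, L.rs.Hv ((x' i - x i) / (L.p : Ω)) (u i)) :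
    GM.Rdv L k x' y :=
  eu_rdv hx fun i => (eu_le (h i)).trans_lt L.lt

private theorem eu_nrh {k : Subfield L.κ} {x x' : Fin N → Ω} {y : Fin N → k} {u : Fin N → L.κ}
    (hy : y ≠ 0) (hx : GM.Rdv L k x y) (h : ∀ i, L.rs.Hv ((x' i - x i) / (L.p : Ω)) (u i))
    {P P' : (Xf f).pt Ω} (hP : Co P x) (hP' : Co P' x') : Nrh f L (L.nm (L.p : Ω)) P' P := by
  have h1 := GM.rdv_prim hx hy
  have h2 := GM.rdv_prim (eu_near hx h) hy
  exact ⟨x', x, hP', hP, h2.1, h1.1, h2.2, h1.2, fun i => eu_le (h i)⟩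

private theorem eu_iv {M' : IntermediateField K Ω} {M'' : IntermediateField K Ω} (h : M' ≤ M'')
    {x : Fin N → Ω} (hx : Iv L M' x) : Iv L M'' x :=
  fun i => ⟨h (hx i).1, (hx i).2⟩

private theorem eu_uv {φ : Prj K N d} (hφ : Pj f L φ) {x₁ x₂ x₃ x₄ : Fin N → Ω} {t : ℝ}
    (ht : 0 ≤ t) (h : ∀ i, L.nm (x₁ i + x₄ i - x₂ i - x₃ i) ≤ t) (r : Fin (d + 1)) :
    L.nm (φ.uv x₁ r + φ.uv x₄ r - φ.uv x₂ r - φ.uv x₃ r) ≤ t := by
  have h1 := lv_close (L := L) (hφ.iu r) (x := x₁ + x₄) (x' := x₂ + x₃) ht (fun j => by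
    have e : (x₁ + x₄) j - (x₂ + x₃) j = x₁ j + x₄ j - x₂ j - x₃ j := by
      rw [Pi.add_apply, Pi.add_apply]
      ring
    rw [e]
    exact h j)
  rw [lv_add, lv_add] at h1
  have e : φ.uv x₁ r + φ.uv x₄ r - φ.uv x₂ r - φ.uv x₃ r =
      lv (φ.u r) x₁ + lv (φ.u r) x₄ - (lv (φ.u r) x₂ + lv (φ.u r) x₃) := by
    change lv _ _ + lv _ _ - lv _ _ - lv _ _ = _
    ring
  rw [e]
  exact h1

/-- Uniqueness. Proof: `cov`: `i`; raise both to `Mu (s s')` (`vl_up`), `four` for `x₁ = x'`, `x₂ = x`, `x₃ = x'₂`, `x₄ = x₂` (compare `GM.tv_uniq`). -/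
theorem tv_uniq [L.Unr] (h2 : 2 < L.p) (hl : Lm f L lam) (hM : Um L M) (hR : L.Rf M R)
    (hx : Rdx f L (GM.kI L R) ψ f' ψ') {y u : Fin N → GM.kI L R} (hy : Zp f' y) {b b' : B}
    (h : Tv L lam M R y u b) (h' : Tv L lam M R y u b') : b = b' := by
  obtain ⟨i, hD⟩ := hx.cv hy
  obtain ⟨s, hs1, x, x', P, P', hx1, hx', hP, hP', hxy, hu, rfl⟩ := h
  obtain ⟨s₂, hs2, x₂, x₂', P₂, P₂', hx2, hx2', hP2, hP2', hxy2, hu2, rfl⟩ := h'
  have hss : ¬ L.p ∣ s * s₂ := fun h => (L.pp.dvd_mul.1 h).elim hs1 hs2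
  have e1 := vl_up hl hM hR hs1 hs2 (fp_co hP fun i => (hx1 i).1) (fp_co hP' fun i => (hx' i).1)
    (eu_nrh hy.1 hxy hu hP hP')
  have e2 := vl_up hl hM hR hs2 hs1 (fp_co hP2 fun i => (hx2 i).1) (fp_co hP2' fun i => (hx2' i).1)
    (eu_nrh hy.1 hxy2 hu2 hP2 hP2')
  rw [mul_comm s₂ s] at e2
  have hm1 : GM.Mu L M R s ≤ GM.Mu L M R (s * s₂) := GM.mu_mono s₂
  have hm : GM.Mu L M R s₂ ≤ GM.Mu L M R (s * s₂) := by
    rw [mul_comm s s₂]
    exact GM.mu_mono s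
  have hx_ : Iv L (GM.Mu L M R (s * s₂)) x := eu_iv hm1 hx1
  have hx'_ : Iv L (GM.Mu L M R (s * s₂)) x' := eu_iv hm1 hx'
  have hx2_ : Iv L (GM.Mu L M R (s * s₂)) x₂ := eu_iv hm hx2
  have hx2'_ : Iv L (GM.Mu L M R (s * s₂)) x₂' := eu_iv hm hx2'
  have hM' : Um L (GM.Mu L M R (s * s₂)) := eu_um hM hR hss
  have hp0 : (L.p : Ω) ≠ 0 := eu_p0 L
  have h4 := four h2 hl hM hR hx hy hD hss hx'_ hx_ hx2'_ hx2_ (eu_near hxy hu) hxy
    (eu_near hxy2 hu2) hxy2 (eu_uv (hx.pj i) (pow_nonneg (L.nonneg _) 2) fun i => by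
      have h5 : x' i + x₂ i - x i - x₂' i =
          (L.p : Ω) * ((x' i - x i) / (L.p : Ω) - (x₂' i - x₂ i) / (L.p : Ω)) := by
        field_simp
        ring
      have h6 : (x' i - x i) / (L.p : Ω) - (x₂' i - x₂ i) / (L.p : Ω) ∈ GM.Mu L M R (s * s₂) :=
        sub_mem (div_mem (sub_mem (hx'_ i).1 (hx_ i).1) (_root_.natCast_mem _ _))
          (div_mem (sub_mem (hx2'_ i).1 (hx2_ i).1) (_root_.natCast_mem _ _))
      have h7 := eu_lt hM' h6 ((L.hv_sub (hu i) (hu2 i)).1 rfl)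
      rw [h5, L.mul, pow_two]
      exact mul_le_mul_of_nonneg_left h7 (L.nonneg _)) hP' hP hP2' hP2
  rw [← e1, ← e2]
  unfold vl
  congr 1
  have h8 : (Finsupp.single P' 1 - Finsupp.single P 1 : (Xf f).pt Ω →₀ ℤ) =
      (Finsupp.single P' 1 + Finsupp.single P₂ 1 - Finsupp.single P 1 - Finsupp.single P₂' 1) +
        (Finsupp.single P₂' 1 - Finsupp.single P₂ 1) := by
    abel
  rw [h8, map_add, map_add, h4, zero_add]

/-- Additivity. Proof: over a common field: `x`, `x'` and `x₂`, `x₂'`; `x₅` over `u(x') + u(x₂') - u(x₂)` (`pt_near`); the residue of `(x₅ - x) / p` is `u + u'` (`lt_res`, `lt_eq`);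
`four` (compare `GM.tv_add`). -/
theorem tv_add [L.Unr] (h2 : 2 < L.p) (hl : Lm f L lam) (hM : Um L M) (hR : L.Rf M R)
    (hx : Rdx f L (GM.kI L R) ψ f' ψ') {y u u' : Fin N → GM.kI L R} (hu : Tg f' y u)
    (hu' : Tg f' y u') {b b' : B} (h : Tv L lam M R y u b) (h' : Tv L lam M R y u' b') :
    Tv L lam M R y (u + u') (b + b') := by
  have hy : Zp f' y := hu.1
  obtain ⟨i₀, hD⟩ := hx.cv hy
  obtain ⟨s, hs1, x, x', P, P', hx1, hx', hP, hP', hxy, hu1, rfl⟩ := h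
  obtain ⟨s₂, hs2, x₂, x₂', P₂, P₂', hx2, hx2', hP2, hP2', hxy2, hu2, rfl⟩ := h'
  have hss : ¬ L.p ∣ s * s₂ := fun h => (L.pp.dvd_mul.1 h).elim hs1 hs2
  have e1 := vl_up hl hM hR hs1 hs2 (fp_co hP fun i => (hx1 i).1) (fp_co hP' fun i => (hx' i).1)
    (eu_nrh hy.1 hxy hu1 hP hP')
  have e2 := vl_up hl hM hR hs2 hs1 (fp_co hP2 fun i => (hx2 i).1) (fp_co hP2' fun i => (hx2' i).1)
    (eu_nrh hy.1 hxy2 hu2 hP2 hP2')
  rw [mul_comm s₂ s] at e2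
  have hm1 : GM.Mu L M R s ≤ GM.Mu L M R (s * s₂) := GM.mu_mono s₂
  have hm : GM.Mu L M R s₂ ≤ GM.Mu L M R (s * s₂) := by
    rw [mul_comm s s₂]
    exact GM.mu_mono s
  have hx_ : Iv L (GM.Mu L M R (s * s₂)) x := eu_iv hm1 hx1
  have hx'_ : Iv L (GM.Mu L M R (s * s₂)) x' := eu_iv hm1 hx'
  have hx2_ : Iv L (GM.Mu L M R (s * s₂)) x₂ := eu_iv hm hx2
  have hx2'_ : Iv L (GM.Mu L M R (s * s₂)) x₂' := eu_iv hm hx2'
  have hM' : Um L (GM.Mu L M R (s * s₂)) := eu_um hM hR hss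
  have hfd : FiniteDimensional K (GM.Mu L M R (s * s₂)) := hM'.fd
  have hp0 : (L.p : Ω) ≠ 0 := eu_p0 L
  have hx'y : GM.Rdv L (GM.kI L R) x' y := eu_near hxy hu1
  have hx2'y : GM.Rdv L (GM.kI L R) x₂' y := eu_near hxy2 hu2
  -- the projection of the fifth point
  have hcM : Iv L (GM.Mu L M R (s * s₂)) fun r =>
      (ψ i₀).uv x' r + ((ψ i₀).uv x₂' r - (ψ i₀).uv x₂ r) := by
    intro r
    have hiu := (hx.pj i₀).iu r
    refine ⟨add_mem (lv_mem _ fun j => (hx'_ j).1)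
      (sub_mem (lv_mem _ fun j => (hx2'_ j).1) (lv_mem _ fun j => (hx2_ j).1)), ?_⟩
    exact (L.add _ _).trans (max_le (lv_le hiu fun j => (hx'_ j).2)
      ((L.sub _ _).trans (max_le (lv_le hiu fun j => (hx2'_ j).2) (lv_le hiu fun j => (hx2_ j).2))))
  have hcy : GM.Rdv L (GM.kI L R) (fun r =>
      (ψ i₀).uv x' r + ((ψ i₀).uv x₂' r - (ψ i₀).uv x₂ r)) ((ψ' i₀).uv y) := by
    refine eu_rdv ((hx.rj i₀).uv hx'y) fun r => ?_
    rw [add_sub_cancel_left]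
    exact (L.hv_sub ((hx.rj i₀).uv hx2'y r) ((hx.rj i₀).uv hxy2 r)).1 rfl
  obtain ⟨x₃, P₃, hx3, hP3, hx3u, hx3y⟩ := pt_near (hx.pj i₀) (hx.rj i₀) (hx.ok i₀) hy hD hx'_
    hx'y hcM hcy
  have h4 := four h2 hl hM hR hx hy hD hss hx3 hx'_ hx2'_ hx2_ hx3y hx'y hx2'y hxy2
    (fun r => by
      have h5 : (ψ i₀).uv x₃ r + (ψ i₀).uv x₂ r - (ψ i₀).uv x' r - (ψ i₀).uv x₂' r = 0 := by
        rw [hx3u]
        ring
      rw [h5, L.zero]
      exact pow_nonneg (L.nonneg _) 2) hP3 hP' hP2' hP2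
  refine ⟨s * s₂, hss, x, x₃, P, P₃, hx_, hx3, hP, hP3, hxy, ?_, ?_⟩
  · have hw1 : GM.Rdv L (GM.kI L R) (fun i => (x' i - x i) / (L.p : Ω)) u := hu1
    have hw2 : GM.Rdv L (GM.kI L R) (fun i => (x₂' i - x₂ i) / (L.p : Ω)) u' := hu2
    have h5 := lt_res (hx.pj i₀) (hx.rj i₀) (hx.ok i₀) hy hD (fun i => (hx3 i).2)
      (co_zero hP) (co_zero hP3) hxy (fun i => (L.hv_sub (hx3y i) (hxy i)).1 rfl) L.p_pos L.lt
      (ξ := (ψ' i₀).uv u + (ψ' i₀).uv u') (fun r => by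
        refine (((hx.rj i₀).uv hw1 r).add ((hx.rj i₀).uv hw2 r)).congr ?_ rfl
        have e3 : ∀ z z' : Fin N → Ω, (ψ i₀).uv (fun i => (z' i - z i) / (L.p : Ω)) r =
            ((ψ i₀).uv z' r - (ψ i₀).uv z r) / (L.p : Ω) := by
          intro z z'
          change lv _ _ = (lv _ _ - lv _ _) / _
          rw [lv, lv, lv, ← Finset.sum_sub_distrib, Finset.sum_div]
          exact Finset.sum_congr rfl fun j _ => by ring
        rw [e3, e3, hx3u, ← add_div]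
        congr 1
        ring)
    rw [Prj.lt_add, (hx.ok i₀).lt_eq hu hD, (hx.ok i₀).lt_eq hu' hD] at h5
    exact h5
  · rw [← e1, ← e2]
    unfold vl
    rw [← smul_add]
    congr 1
    have h8 : (Finsupp.single P₃ 1 - Finsupp.single P 1 : (Xf f).pt Ω →₀ ℤ) =
        (Finsupp.single P₃ 1 + Finsupp.single P₂ 1 - Finsupp.single P' 1 - Finsupp.single P₂' 1) +
          (Finsupp.single P' 1 - Finsupp.single P 1 +
            (Finsupp.single P₂' 1 - Finsupp.single P₂ 1)) := by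
      abel
    rw [h8, map_add, map_add, h4, zero_add, map_add, map_add]

end GX
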