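import Pool.Agent.Lib.MP_f80667_ag.Gx.TsFc

/-!
The function `T` vanishes.
-/

open ZC BE PE CV IntermediateField

namespace GX

variable {F : Type} [Field F] {N d m : ℕ} {ι : Type} {f : ι → MvPolynomial (Fin N) F} {K Ω : Type}
  [Field K] [CharZero K] [Field Ω] [Algebra K Ω] [Algebra F K] [Algebra F Ω]
  [IsScalarTower F K Ω] [IsAlgClosure K Ω] {L : Ld K Ω} {B : Type} [AddCommGroup B]
  {lam : ((Xf f).pt Ω →₀ ℤ) →+ B} {M : IntermediateField K Ω} {R : ℕ} {ψ : Fin m → Prj K N d}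
  {f' : ι → MvPolynomial (Fin N) (GM.kI L R)} {ψ' : Fin m → Prj (GM.kI L R) N d}

/-- Proof: `tf_eq`, `tv_ex`, `tv_add`, `tv_hom`, `tv_rad`, `tf_crv`. -/
theorem tf_ft [L.Unr] (hf : Hm f) (hf' : ∀ i, ∃ e, (f' i).IsHomogeneous e)
    (hp : ∀ i, (ψ i).G.natDegree < L.p) (h2 : 2 < L.p) (hl : Lm f L lam) (hM : Um L M)
    (hR : L.Rf M R) (hx : Rdx f L (GM.kI L R) ψ f' ψ') : Ft f' ψ' (Tf L lam M R f') := by
  refine ⟨?_, ?_, ?_, ?_⟩
  · intro x t t' ht ht'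
    obtain ⟨b, hb⟩ := tv_ex (lam := lam) hM hR hx ht
    obtain ⟨b', hb'⟩ := tv_ex (lam := lam) hM hR hx ht'
    rw [tf_eq h2 hl hM hR hx ht hb, tf_eq h2 hl hM hR hx ht' hb',
      tf_eq h2 hl hM hR hx (tg_add ht ht') (tv_add h2 hl hM hR hx ht ht' hb hb')]
  · intro x t c hc ht
    obtain ⟨b, hb⟩ := tv_ex (lam := lam) hM hR hx ht
    rw [tf_eq h2 hl hM hR hx ht hb,
      tf_eq h2 hl hM hR hx (tg_hom hf' ht hc) (tv_hom hf hl hM hR ht.1.1 hc hb)]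
  · intro x c hx'
    exact tf_eq h2 hl hM hR hx (tg_rad hf' hx' c) (tv_rad hf hM hR hx hx' c)
  · intro i a ρ j S τ ha hj hS
    refine Eq.trans (Finset.sum_congr rfl fun c _ => ?_)
      (tf_crv hf hp h2 hl hM hR hx i a ρ j S τ ha hj hS)
    refine congrArg Multiset.sum (Multiset.map_congr rfl fun w _ => ?_)
    congr 5
    exact Finset.ext fun z => by simp only [Finset.mem_erase]

end GX
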