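import Pool.Agent.Lib.MP_f80667_ag.Gx.TsFd
import Pool.Agent.Lib.MP_f80667_ag.Gx.TeA

/-!
The relation of the curves for `T`.
-/

open ZC BE PE CV IntermediateField

namespace GX

variable {F : Type} [Field F] {N d m : ℕ} {ι : Type} {f : ι → MvPolynomial (Fin N) F} {K Ω : Type}
  [Field K] [CharZero K] [Field Ω] [Algebra K Ω] [Algebra F K] [Algebra F Ω]
  [IsScalarTower F K Ω] [IsAlgClosure K Ω] {L : Ld K Ω} {B : Type} [AddCommGroup B]
  {lam : ((Xf f).pt Ω →₀ ℤ) →+ B} {M : IntermediateField K Ω} {R : ℕ} {ψ : Fin m → Prj K N d}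
  {f' : ι → MvPolynomial (Fin N) (GM.kI L R)} {ψ' : Fin m → Prj (GM.kI L R) N d}

section res

omit [CharZero K] [IsAlgClosure K Ω] in
private theorem hv_sum {ι : Type} (S : Finset ι) {f : ι → Ω} {r : ι → L.κ}
    (h : ∀ i ∈ S, L.rs.Hv (f i) (r i)) : L.rs.Hv (∑ i ∈ S, f i) (∑ i ∈ S, r i) := by
  classical
  induction S using Finset.induction_on with
  | empty =>
    rw [Finset.sum_empty, Finset.sum_empty]
    exact Rs.Hv.zero
  | insert a S ha ih =>
    rw [Finset.sum_insert ha, Finset.sum_insert ha]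
    exact (h a (Finset.mem_insert_self a S)).add
      (ih fun i hi => h i (Finset.mem_insert_of_mem hi))

omit [CharZero K] [IsAlgClosure K Ω] in
private theorem hv_prod {ι : Type} (S : Finset ι) {f : ι → Ω} {r : ι → L.κ}
    (h : ∀ i ∈ S, L.rs.Hv (f i) (r i)) : L.rs.Hv (∏ i ∈ S, f i) (∏ i ∈ S, r i) := by
  classical
  induction S using Finset.induction_on with
  | empty =>
    rw [Finset.prod_empty, Finset.prod_empty]
    exact Rs.Hv.one
  | insert a S ha ih =>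
    rw [Finset.prod_insert ha, Finset.prod_insert ha]
    exact (h a (Finset.mem_insert_self a S)).mul
      (ih fun i hi => h i (Finset.mem_insert_of_mem hi))

omit [CharZero K] [IsAlgClosure K Ω] in
/-- The value of a polynomial. -/
private theorem hv_eval {k : Subfield L.κ} {f : Polynomial Ω} {h : Polynomial k}
    (hf : ∀ j, L.rs.Hv (f.coeff j) ((h.coeff j : k) : L.κ)) {x : Ω} {y : k}
    (hx : L.rs.Hv x (y : L.κ)) : L.rs.Hv (f.eval x) ((h.eval y : k) : L.κ) := by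
  have h1 : f.natDegree < max f.natDegree h.natDegree + 1 := by omega
  have h2 : h.natDegree < max f.natDegree h.natDegree + 1 := by omega
  rw [Polynomial.eval_eq_sum_range' h1, Polynomial.eval_eq_sum_range' h2]
  change L.rs.Hv _ (k.subtype _)
  rw [map_sum]
  refine hv_sum _ fun i _ => ?_
  rw [map_mul, map_pow]
  exact (hf i).mul (hx.pow i)

omit [CharZero K] [IsAlgClosure K Ω] in
private theorem hv_der {k : Subfield L.κ} {f : Polynomial Ω} {h : Polynomial k}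
    (hf : ∀ j, L.rs.Hv (f.coeff j) ((h.coeff j : k) : L.κ)) (j : ℕ) :
    L.rs.Hv ((Polynomial.derivative f).coeff j)
      (((Polynomial.derivative h).coeff j : k) : L.κ) := by
  rw [Polynomial.coeff_derivative, Polynomial.coeff_derivative]
  have h3 : (((h.coeff (j + 1)) * ((j : k) + 1) : k) : L.κ) =
      ((h.coeff (j + 1) : k) : L.κ) * ((j + 1 : ℕ) : L.κ) := by
    change k.subtype (h.coeff (j + 1) * ((j : k) + 1)) = _
    rw [map_mul, map_add, map_natCast, map_one, Nat.cast_succ]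
    rfl
  rw [h3, show (j : Ω) + 1 = ((j + 1 : ℕ) : Ω) by rw [Nat.cast_succ]]
  exact (hf (j + 1)).mul (Rs.Hv.nat _)

/-- The residues of the roots. -/
private theorem root_res {ψ : Prj K N d} {ψ' : Prj (GM.kI L R) N d}
    (hr : Rdj L (GM.kI L R) ψ ψ') (ho : ψ'.Ok f') (hp : ψ.G.natDegree < L.p) (hR : R ≠ 0)
    {c : Fin (d + 1) → Ω} {c' : Fin (d + 1) → GM.kI L R} (hc : GM.Rdv L (GM.kI L R) c c')
    {w : Ω} (hw1 : L.nm w ≤ 1) (hw : pe c w ψ.G = 0) :
    ∃ t : GM.kI L R, t ∈ (ψ'.gc c').roots ∧ L.rs.Hv w (t : L.κ) := by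
  obtain ⟨r, hr'⟩ := L.hv_of hw1
  have hle : GM.kI L R ≤ (⊤ : Subfield L.κ) := le_top
  obtain ⟨ι, hι⟩ : ∃ ι : GM.kI L R →+* (⊤ : Subfield L.κ),
      ∀ z, ((ι z : (⊤ : Subfield L.κ)) : L.κ) = (z : L.κ) :=
    ⟨Subfield.inclusion hle, fun z => rfl⟩
  have hG : ∀ j e, L.rs.Hv (algebraMap K Ω ((ψ.G.coeff j).coeff e))
      ((((ψ'.G.map (MvPolynomial.map ι)).coeff j).coeff e : (⊤ : Subfield L.κ)) : L.κ) := by
    intro j e
    rw [Polynomial.coeff_map, MvPolynomial.coeff_map, hι]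
    exact hr.G j e
  have hc' : GM.Rdv L ⊤ c (fun i => ι (c' i)) := fun i => by
    rw [hι]
    exact hc i
  have h2 := hv_pe hG hc' (w' := ⟨r, Subfield.mem_top r⟩) hr'
  rw [hw] at h2
  have h3 : pe (fun i => ι (c' i)) (⟨r, Subfield.mem_top r⟩ : (⊤ : Subfield L.κ))
      (ψ'.G.map (MvPolynomial.map ι)) = 0 := Subtype.ext (h2.uniq Rs.Hv.zero)
  have h4 : (MvPolynomial.eval (fun i => ι (c' i))).comp (MvPolynomial.map ι) =
      ι.comp (MvPolynomial.eval c') := by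
    ext x
    · simp
    · simp
  rw [← gc_pe, Polynomial.map_map, h4, ← Polynomial.map_map] at h3
  have h3' : ((ψ'.gc c').map ι).eval (⟨r, Subfield.mem_top r⟩ : (⊤ : Subfield L.κ)) = 0 := h3
  obtain ⟨hm, hd⟩ := ho.gc_mon c'
  have h0 : ψ'.gc c' ≠ 0 := hm.ne_zero
  have hdeg : (ψ'.gc c').natDegree ≤ ψ.G.natDegree := by
    rw [hd, Polynomial.natDegree_le_iff_coeff_eq_zero]
    intro n hn
    refine MvPolynomial.ext _ _ fun e => ?_
    have h5 := hr.G n e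
    rw [Polynomial.coeff_eq_zero_of_natDegree_lt hn, MvPolynomial.coeff_zero, map_zero] at h5
    rw [MvPolynomial.coeff_zero]
    exact Subtype.ext (h5.uniq Rs.Hv.zero)
  have hc0 : ∀ d, d ≠ 0 → d ≤ ψ.G.natDegree → d ∈ GM.Jc L.p L.pp := by
    intro d hd hdn hdvd
    have := Nat.le_of_dvd (Nat.pos_of_ne_zero hd) hdvd
    omega
  have h00 : (0 : ℕ) ∉ GM.Jc L.p L.pp := fun h => h (dvd_zero _)
  have hspl := GM.kJ_spl hR h00 hc0 (ψ'.gc c') h0 hdeg
  have h5 := Polynomial.C_leadingCoeff_mul_prod_multiset_X_sub_C hspl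
  rw [← h5, Polynomial.map_mul, Polynomial.eval_mul, mul_eq_zero] at h3'
  rcases h3' with h3' | h3'
  · rw [Polynomial.map_C, Polynomial.eval_C, map_eq_zero, Polynomial.leadingCoeff_eq_zero] at h3'
    exact absurd h3' h0
  · rw [Polynomial.map_multiset_prod, Polynomial.eval_multiset_prod, Multiset.prod_eq_zero_iff,
      Multiset.mem_map] at h3'
    obtain ⟨f, hf, hf0⟩ := h3'
    rw [Multiset.mem_map] at hf
    obtain ⟨f', hf', rfl⟩ := hf
    rw [Multiset.mem_map] at hf'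
    obtain ⟨t, ht, rfl⟩ := hf'
    rw [Polynomial.map_sub, Polynomial.map_X, Polynomial.map_C, Polynomial.eval_sub,
      Polynomial.eval_X, Polynomial.eval_C, sub_eq_zero] at hf0
    refine ⟨t, ht, ?_⟩
    have h6 := congrArg (fun z : (⊤ : Subfield L.κ) => (z : L.κ)) hf0
    simp only [hι] at h6
    rw [← h6]
    exact hr'

omit [CharZero K] [IsAlgClosure K Ω] in
private theorem ev_mem {M : IntermediateField K Ω} {f : Polynomial Ω} (hf : ∀ j, f.coeff j ∈ M)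
    {x : Ω} (hx : x ∈ M) : f.eval x ∈ M := by
  rw [Polynomial.eval_eq_sum_range]
  exact sum_mem fun i _ => mul_mem (hf i) (pow_mem hx i)

private theorem fc_alg {E : Type} [Field E] {x y p q e : E} (hp : p ≠ 0) :
    (x - y) / p - q * e = (x - (y + p * q * e)) / p := by
  rw [← sub_sub, sub_div (x - y), mul_assoc, mul_div_cancel_left₀ _ hp]

end res

open Classical in
/-- **The relation.** Proof: `lift_data`; `cr` over `Mu L M R s` for the set `S' = σ(S)` and the finite set `T` of all pairs `(c', w')`, `c' ∈ S'`, `G (a'(c'), w') = 0` (they are in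
`Mu L M R s`: `root_over`, `root_int'`, `root_uniq'`, the residue of `w'` is a root of `gc`); `q ↦` residues is a bijection from `T` to the pairs `(c, w)`, `c ∈ S`, `w` a root (the roots are
distinct: `gc_sep`; they are all in `kI`: `GM.kJ_spl`, degree `< p`). The residue of `x q` is `pt`; `lt_res` gives the residue of `(x' q - x q) / p`: `lt` of
`τ w ^ j / m'(c) a'(c)`, so `T = s⁻¹ lam (tr ([P'] - [P]))` (`tf_eq`, `lt_tg`); `rat_tr` and `hl.rat` (compare `GM.tf_crv`). -/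
theorem tf_crv [L.Unr] (hf : Hm f) (hp : ∀ i, (ψ i).G.natDegree < L.p) (h2 : 2 < L.p)
    (hl : Lm f L lam) (hM : Um L M) (hR : L.Rf M R) (hx : Rdx f L (GM.kI L R) ψ f' ψ')
    (i : Fin m) (a : Fin (d + 1) → Polynomial (GM.kI L R)) (ρ j : ℕ)
    (S : Finset (GM.kI L R)) (τ : GM.kI L R) (ha : ∀ r, (a r).natDegree ≤ ρ)
    (hj : j * ρ < S.card) (hS : ∀ c ∈ S, MvPolynomial.eval (av a c) (ψ' i).D ≠ 0) :
    ∑ c ∈ S, (((ψ' i).gc (av a c)).roots.map fun w =>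
      Tf L lam M R f' ((ψ' i).pt (av a c) w)
        ((τ * w ^ j * (∏ c' ∈ S.erase c, (c - c'))⁻¹) •
          (ψ' i).lt (av a c) w (dv a c))).sum = 0 := by
  have hf' : ∀ i, ∃ e, (f' i).IsHomogeneous e := fun i => by
    obtain ⟨e, he⟩ := hf i
    exact ⟨e, (hx.rf i).hom he⟩
  have hψ := hx.pj i
  have hr := hx.rj i
  have ho := hx.ok i
  obtain ⟨s, hs0, a', σ, τ', ha', had, hac, hσ, hτ, hττ, hroots⟩ :=
    lift_data hR (ψ' i) (a := a) (S := S) τ
  have hs1 : s ≠ 0 := by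
    rintro rfl
    exact hs0 (dvd_zero _)
  have hMM : Um L (GM.Mu L M R s) := GM.mu_um hM hR.ne hs1
  have hfd : FiniteDimensional K (GM.Mu L M R s) := hMM.fd
  have hτ1 : L.nm τ' ≤ 1 := L.hv_int hττ
  have hσ1 : ∀ c ∈ S, L.nm (σ c) ≤ 1 := fun c hc => L.hv_int (hσ c hc).2
  have hxI : ∀ c ∈ S, Iv L (GM.Mu L M R s) fun r => (a' r).eval (σ c) :=
    fun c hc i => ⟨ev_mem (fun j => (ha' i j).1) (hσ c hc).1,
      L.eval_le (fun j => (ha' i j).2) (hσ1 c hc)⟩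
  have hxv : ∀ c ∈ S, GM.Rdv L (GM.kI L R) (fun r => (a' r).eval (σ c)) (av a c) :=
    fun c hc i => hv_eval (hac i) (hσ c hc).2
  have hdv : ∀ c ∈ S, GM.Rdv L (GM.kI L R) (fun r => (Polynomial.derivative (a' r)).eval (σ c))
      (dv a c) := fun c hc i => hv_eval (hv_der (hac i)) (hσ c hc).2
  have hD : ∀ c ∈ S, L.nm (MvPolynomial.aeval (fun r => (a' r).eval (σ c)) (ψ i).D) = 1 := by
    intro c hc
    rw [nm_one_iff (hr.Dv (hxv c hc))]
    exact fun h => hS c hc (Subtype.ext h)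
  have hlift : ∀ c w, ∃ z : Ω, c ∈ S → w ∈ ((ψ' i).gc (av a c)).roots →
      z ∈ GM.Mu L M R s ∧ L.nm z ≤ 1 ∧ pe (fun r => (a' r).eval (σ c)) z (ψ i).G = 0 ∧
        L.rs.Hv z (w : L.κ) := by
    intro c w
    by_cases h : c ∈ S ∧ w ∈ ((ψ' i).gc (av a c)).roots
    · obtain ⟨w', hw', hw''⟩ := hroots c h.1 w h.2
      have h3 : L.nm (pe (fun r => (a' r).eval (σ c)) w' (ψ i).G) < 1 := by
        rw [nm_lt_iff (hv_pe hr.G (hxv c h.1) hw'')]
        rw [ho.mem_gc.1 h.2]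
        rfl
      obtain ⟨z, hz1, hz2, hz3, hz4⟩ := root_over hψ (hxI c h.1) (hD c h.1) hw' (L.hv_int hw'') h3
      refine ⟨z, fun _ _ => ⟨hz1, hz2, hz4, ?_⟩⟩
      obtain ⟨r, hr'⟩ := L.hv_of hz2
      have h5 := (L.hv_sub hr' hw'').2 hz3
      rw [← h5]
      exact hr'
    · exact ⟨0, fun h1 h2 => absurd ⟨h1, h2⟩ h⟩
  choose ω hω using hlift
  obtain ⟨I, hI⟩ : ∃ I : Finset (Σ _ : GM.kI L R, GM.kI L R),
      I = S.sigma fun c => ((ψ' i).gc (av a c)).roots.toFinset := ⟨_, rfl⟩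
  have hmI : ∀ q : (Σ _ : GM.kI L R, GM.kI L R), q ∈ I ↔
      q.1 ∈ S ∧ q.2 ∈ ((ψ' i).gc (av a q.1)).roots := by
    intro q
    rw [hI, Finset.mem_sigma, Multiset.mem_toFinset]
  obtain ⟨φ, hφ⟩ : ∃ φ : (Σ _ : GM.kI L R, GM.kI L R) → Ω × Ω,
      ∀ q, φ q = (σ q.1, ω q.1 q.2) := ⟨_, fun q => rfl⟩
  have hinjσ : ∀ c ∈ S, ∀ c' ∈ S, σ c = σ c' → c = c' := by
    intro c hc c' hc' h
    have h1 := (hσ c hc).2
    rw [h] at h1
    exact Subtype.ext (h1.uniq (hσ c' hc').2)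
  have hinj : ∀ q ∈ I, ∀ q' ∈ I, φ q = φ q' → q = q' := by
    rintro ⟨c, w⟩ hq ⟨c', w'⟩ hq' h
    rw [hmI] at hq hq'
    rw [hφ, hφ, Prod.mk.injEq] at h
    obtain ⟨h1, h2⟩ := h
    have h3 := hinjσ c hq.1 c' hq'.1 h1
    subst h3
    have h4 := (hω c w hq.1 hq.2).2.2.2
    have h2' : ω c w = ω c w' := h2
    rw [h2'] at h4
    have h5 : w = w' := Subtype.ext (h4.uniq (hω c w' hq'.1 hq'.2).2.2.2)
    rw [h5]
  have hT : ∀ q : Ω × Ω, q ∈ I.image φ ↔
      q.1 ∈ S.image σ ∧ pe (fun r => (a' r).eval q.1) q.2 (ψ i).G = 0 := by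
    rintro ⟨z, w⟩
    rw [Finset.mem_image, Finset.mem_image]
    constructor
    · rintro ⟨q, hq, h⟩
      rw [hφ, Prod.mk.injEq] at h
      obtain ⟨h1, h2⟩ := h
      rw [hmI] at hq
      refine ⟨⟨q.1, hq.1, h1⟩, ?_⟩
      have h3 := (hω q.1 q.2 hq.1 hq.2).2.2.1
      rw [← h1, ← h2]
      exact h3
    · rintro ⟨⟨c, hc, h1⟩, h2⟩
      have h1' : σ c = z := h1
      subst h1'
      have h2' : pe (fun r => (a' r).eval (σ c)) w (ψ i).G = 0 := h2
      have h3 : L.nm w ≤ 1 := root_int' hψ (fun r => (hxI c hc r).2) h2'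
      obtain ⟨t, ht, ht'⟩ := root_res hr ho (hp i) hR.ne (hxv c hc) h3 h2'
      refine ⟨⟨c, t⟩, (hmI _).2 ⟨hc, ht⟩, ?_⟩
      rw [hφ]
      obtain ⟨-, -, h4, h5⟩ := hω c t hc ht
      have h6 : ω c t = w := root_uniq' hψ (fun r => (hxI c hc r).2) (hD c hc) h2' h4
        ((L.hv_sub h5 ht').1 rfl)
      change (σ c, ω c t) = (σ c, w)
      rw [h6]
  have hT' : ∀ q ∈ I.image φ, q.2 ∈ GM.Mu L M R s := by
    intro q hq
    rw [Finset.mem_image] at hq
    obtain ⟨q', hq', rfl⟩ := hq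
    rw [hφ]
    rw [hmI] at hq'
    exact (hω q'.1 q'.2 hq'.1 hq'.2).1
  have hS1 : ∀ c ∈ S.image σ, c ∈ GM.Mu L M R s ∧ L.nm c ≤ 1 ∧
      L.nm (MvPolynomial.aeval (fun r => (a' r).eval c) (ψ i).D) = 1 := by
    intro z hz
    rw [Finset.mem_image] at hz
    obtain ⟨c, hc, rfl⟩ := hz
    exact ⟨(hσ c hc).1, hσ1 c hc, hD c hc⟩
  have hS2 : ∀ c ∈ S.image σ, ∀ c' ∈ S.image σ, c ≠ c' → L.nm (c - c') = 1 := by
    intro z hz z' hz' hne
    rw [Finset.mem_image] at hz hz'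
    obtain ⟨c, hc, rfl⟩ := hz
    obtain ⟨c', hc', rfl⟩ := hz'
    have h1 : (c : L.κ) ≠ (c' : L.κ) := fun h => hne (by rw [Subtype.ext h])
    have h2 : ¬ L.nm (σ c - σ c') < 1 := fun h =>
      h1 ((L.hv_sub (hσ c hc).2 (hσ c' hc').2).2 h)
    exact le_antisymm ((L.sub _ _).trans (max_le (hσ1 c hc) (hσ1 c' hc'))) (not_lt.1 h2)
  have hcard : j * ρ < (S.image σ).card := by
    rw [Finset.card_image_of_injOn fun c hc c' hc' h => hinjσ c hc c' hc' h]
    exact hj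
  have hval : ∀ x ∈ GM.Mu L M R s, x ≠ 0 → ∃ k : ℤ, L.nm x = L.nm (L.p : Ω) ^ k := by
    obtain ⟨N', hN', hM'⟩ := hMM
    exact fun x hx h0 => Ld.ur_unr hN' (hM' hx) h0
  rcases (I.image φ).eq_empty_or_nonempty with hE | hE
  · have hI0 : I = ∅ := Finset.image_eq_empty.1 hE
    refine Finset.sum_eq_zero fun c hc => ?_
    have h1 : ((ψ' i).gc (av a c)).roots = 0 := by
      refine Multiset.eq_zero_of_forall_notMem fun w hw => ?_
      have h3 : (⟨c, w⟩ : Σ _ : GM.kI L R, GM.kI L R) ∈ I := (hmI _).2 ⟨hc, hw⟩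
      rw [hI0] at h3
      exact absurd h3 (Finset.notMem_empty _)
    rw [h1, Multiset.map_zero, Multiset.sum_zero]
  obtain ⟨P, P', x, x', h1, h3⟩ := cr hψ (M := GM.Mu L M R s) (π := (L.p : Ω))
    (_root_.natCast_mem _ _) L.p_pos L.lt hval ha' (fun i => (had i).trans (ha i)) hS1 hS2 hcard
    hτ hτ1 hT hT' hE
  have hfx : ∀ q ∈ I.image φ, Fx (GM.Mu L M R s)
      (Finsupp.single (P' q) (1 : ℤ) - Finsupp.single (P q) 1 : (Xf f).pt Ω →₀ ℤ) := by
    intro q hq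
    obtain ⟨-, h4, h5, h6, h7, -, -⟩ := h1 q hq
    exact (fx_single (fp_co h5 fun i => (h7 i).1) 1).sub
      (fx_single (fp_co h4 fun i => (h6 i).1) 1)
  have hfx' : Fx (GM.Mu L M R s) (∑ q ∈ I.image φ,
      (Finsupp.single (P' q) (1 : ℤ) - Finsupp.single (P q) 1) : (Xf f).pt Ω →₀ ℤ) := by
    intro γ hγ
    rw [Finset.smul_sum]
    exact Finset.sum_congr rfl fun q hq => hfx q hq γ hγ
  have hsum : ∑ q ∈ I.image φ, vl L lam M R s (P q) (P' q) = 0 := by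
    unfold vl
    rw [← Finset.smul_sum, ← map_sum, ← map_sum, hl.rat _ (rat_tr hMM h3 hfx'), smul_zero]
  rw [← hsum, Finset.sum_image hinj, hI, Finset.sum_sigma]
  refine Finset.sum_congr rfl fun c hc => ?_
  have hnd := Polynomial.nodup_roots (ho.gc_sep (hS c hc))
  have h4 : ∀ g : GM.kI L R → B, (((ψ' i).gc (av a c)).roots.map g).sum =
      ∑ w ∈ ((ψ' i).gc (av a c)).roots.toFinset, g w := by
    intro g
    rw [Finset.sum, Multiset.toFinset_val, hnd.dedup]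
  rw [h4]
  refine Finset.sum_congr rfl fun w hw => ?_
  rw [Multiset.mem_toFinset] at hw
  have hq : (⟨c, w⟩ : Σ _ : GM.kI L R, GM.kI L R) ∈ I := (hmI _).2 ⟨hc, hw⟩
  have hq' : φ ⟨c, w⟩ ∈ I.image φ := Finset.mem_image_of_mem φ hq
  obtain ⟨h5, h6, h7, h8, h9, h10, h11⟩ := h1 _ hq'
  obtain ⟨hω1, hω2, hω3, hω4⟩ := hω c w hc hw
  have hφ' : φ ⟨c, w⟩ = (σ c, ω c w) := hφ _
  rw [hφ'] at h5 h6 h7 h8 h9 h10 h11 ⊢
  have hpe : pe (av a c) w (ψ' i).G = 0 := ho.mem_gc.1 hw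
  obtain ⟨hzp, huv, hyv⟩ := ho.pt_zp hf' hpe (hS c hc)
  obtain ⟨htg, -⟩ := ho.lt_tg hf' hpe (hS c hc) (dv a c)
  have hD0 : ((MvPolynomial.eval (av a c) (ψ' i).D : GM.kI L R) : L.κ) ≠ 0 :=
    fun h => hS c hc (Subtype.ext h)
  have hxx : GM.Rdv L (GM.kI L R) (x (σ c, ω c w)) ((ψ' i).pt (av a c) w) := by
    intro l
    rw [h5 l]
    exact hv_div (hv_pe (hr.A l) (hxv c hc) hω4) (hr.Dv (hxv c hc)) hD0
  have hDΩ : MvPolynomial.aeval (fun r => (a' r).eval (σ c)) (ψ i).D ≠ 0 := by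
    intro h
    have h12 := hD c hc
    rw [h, L.zero] at h12
    exact zero_ne_one h12
  obtain ⟨huvx, -, -⟩ := pt_over hψ hω3 hDΩ h5
  refine tf_eq h2 hl hM hR hx (tg_smul htg _) ⟨s, hs0, x (σ c, ω c w), x' (σ c, ω c w),
    P (σ c, ω c w), P' (σ c, ω c w), h8, h9, h6, h7, hxx, ?_, rfl⟩
  have hm0 : (∏ c' ∈ S.erase c, (c - c') : GM.kI L R) ≠ 0 := by
    rw [Finset.prod_ne_zero_iff]
    exact fun c' hc' => sub_ne_zero.2 (Finset.ne_of_mem_erase hc').symm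
  have hm1 : (Polynomial.derivative (∏ c ∈ S.image σ, (Polynomial.X - Polynomial.C c))).eval
      (σ c) = ∏ c' ∈ S.erase c, (σ c - σ c') := by
    have h9 : (∏ c ∈ S.image σ, (Polynomial.X - Polynomial.C c)) = Lagrange.nodal S σ := by
      rw [Lagrange.nodal_eq, Finset.prod_image fun c hc c' hc' h => hinjσ c hc c' hc' h]
    rw [h9, Lagrange.eval_nodal_derivative_eval_node_eq hc, Lagrange.eval_nodal]
  have hm2 : L.rs.Hv ((Polynomial.derivative (∏ c ∈ S.image σ,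
      (Polynomial.X - Polynomial.C c))).eval (σ c))
      ((∏ c' ∈ S.erase c, (c - c') : GM.kI L R) : L.κ) := by
    rw [hm1]
    change L.rs.Hv _ ((GM.kI L R).subtype (∏ c' ∈ S.erase c, (c - c')))
    rw [map_prod]
    exact hv_prod _ fun c' hc' => (hσ c hc).2.sub (hσ c' (Finset.mem_of_mem_erase hc')).2
  have hm3 : ((∏ c' ∈ S.erase c, (c - c') : GM.kI L R) : L.κ) ≠ 0 := fun h =>
    hm0 (Subtype.ext h)
  have hQ : L.rs.Hv (τ' * ω c w ^ j / (Polynomial.derivative (∏ c ∈ S.image σ,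
      (Polynomial.X - Polynomial.C c))).eval (σ c))
      ((τ * w ^ j * (∏ c' ∈ S.erase c, (c - c'))⁻¹ : GM.kI L R) : L.κ) := by
    refine ((hττ.mul (hω4.pow j)).div hm2 hm3).congr rfl ?_
    rw [div_eq_mul_inv]
    rfl
  have hp0 : (L.p : Ω) ≠ 0 := L.ne_zero L.p_pos
  have hξ : ∀ r, L.rs.Hv (((ψ i).uv (x' (σ c, ω c w)) r - (ψ i).uv (x (σ c, ω c w)) r) /
      (L.p : Ω)) ((((τ * w ^ j * (∏ c' ∈ S.erase c, (c - c'))⁻¹) • dv a c) r : GM.kI L R) :
        L.κ) := by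
    intro r
    have hB := hQ.mul (hdv c hc r)
    have h12 : L.rs.Hv (((ψ i).uv (x' (σ c, ω c w)) r - (ψ i).uv (x (σ c, ω c w)) r) /
        (L.p : Ω) - (τ' * ω c w ^ j / (Polynomial.derivative (∏ c ∈ S.image σ,
          (Polynomial.X - Polynomial.C c))).eval (σ c)) *
          (Polynomial.derivative (a' r)).eval (σ c)) 0 := by
      rw [L.hv_zero, huvx, fc_alg hp0, L.div, div_lt_one L.p_pos]
      refine (h11 r).trans_lt ?_
      rw [pow_two]
      exact mul_lt_of_lt_one_left L.p_pos L.lt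
    have h13 := h12.add hB
    refine h13.congr (sub_add_cancel _ _) ?_
    rw [zero_add]
    rfl
  intro l
  have h14 := lt_res hψ hr ho hzp (by rw [huv]; exact hS c hc) (fun i => (h9 i).2)
    (co_zero h6) (co_zero h7) hxx (fun i => (h10 i).trans_lt L.lt) L.p_pos L.lt hξ l
  rw [huv, hyv, Prj.lt_smul] at h14
  exact h14

end GX
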