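import Pool.Agent.Lib.MP_f80667_ag.Gx.TsEr

/-!
Lifting the data of a relation.
-/

open ZC BE PE CV IntermediateField

namespace GX

variable {F : Type} [Field F] {N d m : ℕ} {ι : Type} {f : ι → MvPolynomial (Fin N) F} {K Ω : Type}
  [Field K] [CharZero K] [Field Ω] [Algebra K Ω] [Algebra F K] [Algebra F Ω]
  [IsScalarTower F K Ω] [IsAlgClosure K Ω] {L : Ld K Ω} {B : Type} [AddCommGroup B]
  {lam : ((Xf f).pt Ω →₀ ℤ) →+ B} {M : IntermediateField K Ω} {R : ℕ} {ψ : Fin m → Prj K N d}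
  {f' : ι → MvPolynomial (Fin N) (GM.kI L R)} {ψ' : Fin m → Prj (GM.kI L R) N d}

/-- A common lift of the elements of a finite set. -/
private theorem gxFd_lift (hR : L.Rf M R) (T : Finset (GM.kI L R)) :
    ∃ s, ¬ L.p ∣ s ∧ ∃ f : GM.kI L R → Ω, ∀ t ∈ T,
      f t ∈ GM.Mu L M R s ∧ L.nm (f t) ≤ 1 ∧ L.rs.Hv (f t) (t : L.κ) := by
  have h0 : 0 ∉ GM.Jc L.p L.pp := fun h => h (dvd_zero _)
  obtain ⟨s, hs, hx⟩ := GM.kJ_te hR.ne h0 (fun t : T => (t : GM.kI L R))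
  have hs0 : s ≠ 0 := fun h => h0 (h ▸ hs)
  have hex : ∀ t : GM.kI L R, ∃ x : Ω, t ∈ T → x ∈ L.Te (R * s) ∧ L.rs.Hv x (t : L.κ) := by
    intro t
    by_cases ht : t ∈ T
    · obtain ⟨x, h1, h2⟩ := hx ⟨t, ht⟩
      exact ⟨x, fun _ => ⟨h1, h2⟩⟩
    · exact ⟨0, fun h => absurd h ht⟩
  choose f hf using hex
  refine ⟨s, hs, f, fun t ht => ?_⟩
  obtain ⟨h1, h2⟩ := hf t ht
  exact ⟨Ld.te_ur h1, Ld.te_int (mul_ne_zero hR.ne hs0) h1, h2⟩

open Classical in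
/-- The data of a relation over `kI` lift to one `Mu L M R s`: the coefficients of the arc, the elements of `S`, `τ` and all the roots. Proof: `GM.kJ_te` for all of them
(compare `GM.lift_data`). -/
theorem lift_data (hR : L.Rf M R) (ψ' : Prj (GM.kI L R) N d)
    {a : Fin (d + 1) → Polynomial (GM.kI L R)} {S : Finset (GM.kI L R)} (τ : GM.kI L R) :
    ∃ s, ¬ L.p ∣ s ∧ ∃ (a' : Fin (d + 1) → Polynomial Ω) (σ : GM.kI L R → Ω) (τ' : Ω),
      Arc L (GM.Mu L M R s) a' ∧ (∀ i, (a' i).natDegree ≤ (a i).natDegree) ∧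
      (∀ i j, L.rs.Hv ((a' i).coeff j) ((a i).coeff j : L.κ)) ∧
      (∀ c ∈ S, σ c ∈ GM.Mu L M R s ∧ L.rs.Hv (σ c) (c : L.κ)) ∧ τ' ∈ GM.Mu L M R s ∧
      L.rs.Hv τ' (τ : L.κ) ∧
      ∀ c ∈ S, ∀ w ∈ (ψ'.gc (av a c)).roots, ∃ w' ∈ GM.Mu L M R s, L.rs.Hv w' (w : L.κ) := by
  let Ta : Finset (GM.kI L R) := Finset.univ.biUnion fun i => (a i).support.image (a i).coeff
  let Tr : Finset (GM.kI L R) := S.biUnion fun c => (ψ'.gc (av a c)).roots.toFinset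
  obtain ⟨s, hs, f, hf⟩ := gxFd_lift hR (Ta ∪ (S ∪ ({τ} ∪ Tr)))
  have m2 : ∀ i, ∀ j ∈ (a i).support, (a i).coeff j ∈ Ta ∪ (S ∪ ({τ} ∪ Tr)) :=
    fun i j hj => Finset.mem_union_left _
      (Finset.mem_biUnion.2 ⟨i, Finset.mem_univ i, Finset.mem_image_of_mem _ hj⟩)
  have m3 : ∀ c ∈ S, c ∈ Ta ∪ (S ∪ ({τ} ∪ Tr)) := fun c hc =>
    Finset.mem_union_right _ (Finset.mem_union_left _ hc)
  have m4 : τ ∈ Ta ∪ (S ∪ ({τ} ∪ Tr)) :=
    Finset.mem_union_right _ (Finset.mem_union_right _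
      (Finset.mem_union_left _ (Finset.mem_singleton_self τ)))
  have m5 : ∀ c ∈ S, ∀ w ∈ (ψ'.gc (av a c)).roots, w ∈ Ta ∪ (S ∪ ({τ} ∪ Tr)) :=
    fun c hc w hw => Finset.mem_union_right _
      (Finset.mem_union_right _ (Finset.mem_union_right _
        (Finset.mem_biUnion.2 ⟨c, hc, Multiset.mem_toFinset.2 hw⟩)))
  have hco : ∀ i j, (∑ l ∈ (a i).support, Polynomial.monomial l (f ((a i).coeff l))).coeff j =
      if j ∈ (a i).support then f ((a i).coeff j) else 0 := by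
    intro i j
    rw [Polynomial.finsetSum_coeff]
    simp only [Polynomial.coeff_monomial]
    rw [Finset.sum_ite_eq']
  refine ⟨s, hs,
    fun i => ∑ l ∈ (a i).support, Polynomial.monomial l (f ((a i).coeff l)), f, f τ,
    fun i j => ?_,
    fun i => ?_, fun i j => ?_, fun c hc => ⟨(hf c (m3 c hc)).1, (hf c (m3 c hc)).2.2⟩,
    (hf τ m4).1, (hf τ m4).2.2, fun c hc w hw => ⟨f w, (hf w (m5 c hc w hw)).1,
      (hf w (m5 c hc w hw)).2.2⟩⟩
  · rw [hco]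
    by_cases hj : j ∈ (a i).support
    · rw [if_pos hj]
      exact ⟨(hf _ (m2 i j hj)).1, (hf _ (m2 i j hj)).2.1⟩
    · rw [if_neg hj]
      exact ⟨zero_mem _, by rw [L.zero]; exact zero_le_one⟩
  · refine Polynomial.natDegree_sum_le_of_forall_le _ _ fun l hl => ?_
    exact (Polynomial.natDegree_monomial_le _).trans (Polynomial.le_natDegree_of_mem_supp l hl)
  · rw [hco]
    by_cases hj : j ∈ (a i).support
    · rw [if_pos hj]
      exact (hf _ (m2 i j hj)).2.2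
    · rw [if_neg hj, Polynomial.notMem_support_iff.1 hj]
      exact Rs.Hv.zero

end GX
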