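import Pool.Agent.Lib.MP_f80667_ag.Gx.TsF
import Pool.Agent.Lib.MP_f80667_ag.Cv.Eis

/-!
`lam` vanishes on the displacements.
-/

open ZC BE PE CV IntermediateField

namespace GX

variable {F : Type} [Field F] {N d m : ℕ} {ι : Type} {f : ι → MvPolynomial (Fin N) F} {K Ω : Type}
  [Field K] [CharZero K] [Field Ω] [Algebra K Ω] [Algebra F K] [Algebra F Ω]
  [IsScalarTower F K Ω] [IsAlgClosure K Ω] {L : Ld K Ω} {B : Type} [AddCommGroup B]
  {lam : ((Xf f).pt Ω →₀ ℤ) →+ B} {ψ : Fin m → Prj K N d}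

/-- The extension of degree `1`. -/
private theorem gxfl_one {M : IntermediateField K Ω} {R : ℕ} (hR : L.Rf M R) :
    GM.Mu L M R 1 = M := by
  have h1 : L.Ur M (R * 1) ≤ M := by
    rw [mul_one]
    exact sup_le le_rfl (le_trans le_sup_right hR.le)
  exact le_antisymm h1 Ld.ur_le

/-- Congruent coordinates with values in `M`, one of them is `1`. -/
private theorem gxfl_co (hG : Hm f) {M : IntermediateField K Ω} {P P' : (Xf f).pt Ω}
    (hP : Fp (Xf f) M P) (hP' : Fp (Xf f) M P') {r : ℝ} (hr : r < 1) (h : Nrh f L r P' P) :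
    ∃ (x x' : Fin N → Ω) (i : Fin N), Co P x ∧ Co P' x' ∧ Iv L M x ∧ Iv L M x' ∧ x i = 1 ∧
      ∀ j, L.nm (x' j - x j) ≤ r := by
  obtain ⟨a', a, h1, h2, h3, h4, ⟨i, hi'⟩, -, h5⟩ := h
  have hi : L.nm (a i) = 1 := by
    have e : a i = a' i - (a' i - a i) := by ring
    have h6 : L.nm (a' i - a i) < L.nm (a' i) := by
      rw [hi']
      exact (h5 i).trans_lt hr
    refine le_antisymm (h4 i) ?_
    by_contra hlt
    rw [not_le] at hlt
    have h7 : L.nm (a' i) ≤ max (L.nm (a' i - a i)) (L.nm (a i)) := by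
      have e' : a' i = (a' i - a i) + a i := by ring
      calc L.nm (a' i) = L.nm ((a' i - a i) + a i) := by rw [← e']
        _ ≤ _ := L.add _ _
    rcases le_max_iff.1 h7 with h8 | h8
    · exact absurd h6 (not_lt.2 h8)
    · rw [hi'] at h8
      exact absurd hlt (not_lt.2 h8)
  have ha : a i ≠ 0 := L.ne_zero (by rw [hi]; exact zero_lt_one)
  have ha' : a' i ≠ 0 := L.ne_zero (by rw [hi']; exact zero_lt_one)
  have c1 := co_smul hG h2 (inv_ne_zero ha)
  have c2 := co_smul hG h1 (inv_ne_zero ha')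
  have e1 : (fun j => (a i)⁻¹ * a j) i = 1 := inv_mul_cancel₀ ha
  have e2 : (fun j => (a' i)⁻¹ * a' j) i = 1 := inv_mul_cancel₀ ha'
  refine ⟨fun j => (a i)⁻¹ * a j, fun j => (a' i)⁻¹ * a' j, i, c1, c2, fun j => ⟨fp_mem hP c1 e1 j, ?_⟩,
    fun j => ⟨fp_mem hP' c2 e2 j, ?_⟩, e1, fun j => ?_⟩
  · rw [L.mul, L.inv, hi, inv_one, one_mul]
    exact h4 j
  · rw [L.mul, L.inv, hi', inv_one, one_mul]
    exact h3 j
  · have e3 : (a' i)⁻¹ * a' j - (a i)⁻¹ * a j =
        ((a' i)⁻¹ * (a i)⁻¹) * ((a' j - a j) * a i + a j * (-(a' i - a i))) := by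
      field_simp
      ring
    rw [e3, L.mul, L.mul, L.inv, L.inv, hi, hi', inv_one, one_mul, one_mul]
    refine (L.add _ _).trans (max_le ?_ ?_)
    · rw [L.mul, hi, mul_one]
      exact h5 j
    · rw [L.mul, L.neg]
      have h6 := h5 i
      have h7 := h4 j
      have h8 := L.nonneg (a' i - a i)
      calc L.nm (a j) * L.nm (a' i - a i) ≤ 1 * L.nm (a' i - a i) :=
            mul_le_mul_of_nonneg_right h7 h8
        _ ≤ r := by rw [one_mul]; exact h6

/-- `lam` is `0` on the displacements of level `1`. Proof: as `GM.lam_zero`: a generator is the trace of `[P'] - [P]`, `P`, `P'` over `M` unramified; coordinates `x`, `x'` congruent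
modulo `p`; `f'`, `ψ'` from `hr`; `y`, `u` the residues of `x`, `(x' - x) / p`; `Zp f' y` (`rf`), `i` from `cov`, `u` is the tangent vector over its projection (`lt_res`), so
`Tg f' y u` (`lt_tg`, `pt_eq`); `Tv` with `s = 1`; `tf_eq`, `tf_ft`, `hA`. -/
theorem lam_zero [L.Unr] (hf : Hm f) (hp : ∀ i, (ψ i).G.natDegree < L.p) (h2 : 2 < L.p)
    (hr : ∀ R : ℕ, R ≠ 0 → (∀ x : K, L.nm (algebraMap K Ω x) ≤ 1 →
      ∀ r, L.rs.Hv (algebraMap K Ω x) r → r ∈ GM.kI L R) →
      ∃ (f' : ι → MvPolynomial (Fin N) (GM.kI L R))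
      (ψ' : Fin m → Prj (GM.kI L R) N d), (∀ i, ∃ e, (f' i).IsHomogeneous e) ∧
        Rdx f L (GM.kI L R) ψ f' ψ' ∧ Nft f' ψ')
    (hl : Lm f L lam) {z : (Xf f).pt Ω →₀ ℤ}
    (hz : z ∈ Dl f L 1 (⊥ : IntermediateField K Ω)) : lam z = 0 := by
  have hcz : CharZero Ω := charZero_of_injective_algebraMap (algebraMap K Ω).injective
  have hp0 : (L.p : Ω) ≠ 0 := Nat.cast_ne_zero.2 L.pp.ne_zero
  have hpp := L.p_pos
  have hp1 : L.nm (L.p : Ω) < 1 := L.lt
  have key : Dl f L 1 (⊥ : IntermediateField K Ω) ≤ lam.ker := by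
    unfold Dl Dsp
    rw [AddSubgroup.closure_le]
    rintro z ⟨N', M, P', P, hN', -, hM', hP', hP, hn, rfl⟩
    change lam _ = 0
    have hM : Um L M := ⟨N', hN', hM'⟩
    have hfd := hM.fd
    obtain ⟨R, hR0, hR⟩ := exists_ur (L := L) M
    have hfd' : FiniteDimensional K M := hM.fd
    obtain ⟨f', ψ', hf', hx, hA⟩ := hr R hR0 (by
      intro w hw1 r hr'
      obtain ⟨t, ht⟩ := GM.kJ_res (J := GM.Jc L.p L.pp) hR (s := 1)
        (fun h => L.pp.one_lt.ne' (Nat.dvd_one.1 h)) one_ne_zero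
        (Ld.ur_le (M.algebraMap_mem w)) hw1
      rw [hr'.uniq ht]
      exact t.2)
    have hMu : GM.Mu L M R 1 = M := gxfl_one hR
    rw [pow_one] at hn
    obtain ⟨x, x', i, cx, cx', hxi, hxi', hi, hd⟩ := gxfl_co hf hP hP' hp1 hn
    have h1J : 1 ∈ GM.Jc L.p L.pp := fun h => L.pp.one_lt.ne' (Nat.dvd_one.1 h)
    -- residues of elements of `M`
    have hres : ∀ w ∈ M, L.nm w ≤ 1 → ∃ t : GM.kI L R, L.rs.Hv w (t : L.κ) := by
      intro w hw hw1
      exact GM.kJ_res hR h1J one_ne_zero (Ld.ur_le hw) hw1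
    have hv : ∀ j, ((x' j - x j) / (L.p : Ω)) ∈ M ∧ L.nm ((x' j - x j) / (L.p : Ω)) ≤ 1 := by
      intro j
      refine ⟨div_mem (sub_mem (hxi' j).1 (hxi j).1) (_root_.natCast_mem M L.p), ?_⟩
      rw [div_eq_mul_inv, L.mul, L.inv, ← div_eq_mul_inv, div_le_one hpp]
      exact hd j
    have hy0 : ∀ j, ∃ t : GM.kI L R, L.rs.Hv (x j) (t : L.κ) := fun j =>
      hres _ (hxi j).1 (hxi j).2
    have hu0 : ∀ j, ∃ t : GM.kI L R, L.rs.Hv ((x' j - x j) / (L.p : Ω)) (t : L.κ) := fun j =>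
      hres _ (hv j).1 (hv j).2
    choose y hy using hy0
    choose u hu using hu0
    have hyv : GM.Rdv L (GM.kI L R) x y := hy
    have huv : GM.Rdv L (GM.kI L R) (fun j => (x' j - x j) / (L.p : Ω)) u := hu
    have hZ : Zp f' y := by
      refine ⟨fun h0 => ?_, fun j => ?_⟩
      · have h1 := hy i
        rw [h0, hi] at h1
        have h2 : (((0 : Fin N → GM.kI L R) i : GM.kI L R) : L.κ) = 1 := h1.uniq Rs.Hv.one
        exact zero_ne_one h2
      · have h1 := (hx.rf j).aeval hyv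
        rw [co_zero cx] at h1
        exact Subtype.ext (h1.uniq Rs.Hv.zero)
    obtain ⟨l, hl'⟩ := hx.cv hZ
    have hlt : ∀ j, u j = (ψ' l).lt ((ψ' l).uv y) ((ψ' l).yv y) ((ψ' l).uv u) j := by
      intro j
      have hξ : ∀ s, L.rs.Hv (((ψ l).uv x' s - (ψ l).uv x s) / (L.p : Ω))
          (((ψ' l).uv u s : GM.kI L R) : L.κ) := by
        intro s
        have h1 := (hx.rj l).uv huv s
        have h3 : ((ψ l).uv x' s - (ψ l).uv x s) / (L.p : Ω) =
            (ψ l).uv (fun j => (x' j - x j) / (L.p : Ω)) s := by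
          unfold Prj.uv lv
          rw [← Finset.sum_sub_distrib, Finset.sum_div]
          refine Finset.sum_congr rfl fun j _ => ?_
          rw [← mul_sub, mul_div_assoc]
        rw [h3]
        exact h1
      have h1 := lt_res (hx.pj l) (hx.rj l) (hx.ok l) hZ hl' (fun j => (hxi' j).2)
        (fun j => co_zero cx j) (fun j => co_zero cx' j) hyv (fun j => (hd j).trans_lt hp1) hpp hp1
        hξ j
      exact Subtype.ext ((hu j).uniq h1)
    have hTg : Tg f' y u := by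
      obtain ⟨h1, h3⟩ := (hx.ok l).pt_eq hZ hl'
      have h4 := ((hx.ok l).lt_tg hf' h1 hl' ((ψ' l).uv u)).1
      rw [h3, ← show u = _ from funext hlt] at h4
      exact h4
    have hTv : Tv L lam M R y u (vl L lam M R 1 P P') := by
      refine ⟨1, h1J, x, x', P, P', ?_, ?_, cx, cx', hyv, hu, rfl⟩
      · rw [hMu]; exact hxi
      · rw [hMu]; exact hxi'
    have h1 := tf_eq h2 hl hM hR hx hTg hTv
    rw [hA B _ (tf_ft hf hf' hp h2 hl hM hR hx) y u hTg] at h1
    unfold vl at h1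
    rw [hMu] at h1
    have hF : Fact L.p.Prime := ⟨L.pp⟩
    have h3 : (((1 : ℕ) : ZMod L.p)⁻¹).val = 1 := by
      rw [Nat.cast_one, inv_one]
      have : Fact (1 < L.p) := ⟨L.pp.one_lt⟩
      exact ZMod.val_one _
    rw [h3, one_smul] at h1
    exact h1.symm
  exact key hz

end GX
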