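import Pool.Agent.Lib.MP_f80667_ag.Gx.TsR

/-!
Values of integral polynomials.
-/

open ZC BE PE CV IntermediateField

namespace GX

variable {F : Type} [Field F] {N d : ℕ} {ι : Type} {f : ι → MvPolynomial (Fin N) F} {K Ω : Type}
  [Field K] [CharZero K] [Field Ω] [Algebra K Ω] [Algebra F K] [Algebra F Ω]
  [IsScalarTower F K Ω] [IsAlgClosure K Ω] {L : Ld K Ω} {ψ : Prj K N d}

omit [CharZero K] [IsAlgClosure K Ω] in
/-- Induction: constants, variables, sums, products. -/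
private theorem tsl_ind {p : Polynomial (MvPolynomial (Fin (d + 1)) K) → Prop}
    (hC : ∀ a : K, L.nm (algebraMap K Ω a) ≤ 1 → p (Polynomial.C (MvPolynomial.C a)))
    (hXi : ∀ i, p (Polynomial.C (MvPolynomial.X i))) (hX : p Polynomial.X)
    (hadd : ∀ P Q, p P → p Q → p (P + Q)) (hmul : ∀ P Q, p P → p Q → p (P * Q))
    {P : Polynomial (MvPolynomial (Fin (d + 1)) K)}
    (hP : ∀ j e, L.nm (algebraMap K Ω ((P.coeff j).coeff e)) ≤ 1) : p P := by
  classical
  have h0 : p 0 := by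
    have h := hC 0 (by rw [map_zero, (L.zero_iff 0).2 rfl]; exact zero_le_one)
    rwa [MvPolynomial.C_0, Polynomial.C_0] at h
  have h1 : p 1 := by
    have h := hC 1 (by rw [map_one, L.one])
    rwa [MvPolynomial.C_1, Polynomial.C_1] at h
  have hpow : ∀ (Q : Polynomial (MvPolynomial (Fin (d + 1)) K)) (n : ℕ), p Q → p (Q ^ n) := by
    intro Q n hQ
    induction n with
    | zero => rw [pow_zero]; exact h1
    | succ n ih => rw [pow_succ]; exact hmul _ _ ih hQ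
  rw [Polynomial.as_sum_range_C_mul_X_pow P]
  refine Finset.sum_induction _ p hadd h0 fun j _ => ?_
  refine hmul _ _ ?_ (hpow _ j hX)
  rw [MvPolynomial.as_sum (P.coeff j), map_sum]
  refine Finset.sum_induction _ p hadd h0 fun e _ => ?_
  rw [MvPolynomial.monomial_eq, map_mul, Finsupp.prod, map_prod]
  refine hmul _ _ (hC _ (hP j e)) (Finset.prod_induction _ p hmul h1 fun i _ => ?_)
  rw [map_pow]
  exact hpow _ _ (hXi i)

omit [CharZero K] [IsAlgClosure K Ω] in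
/-- The values, the differences and the second order differences. -/
private theorem tsl_key {P : Polynomial (MvPolynomial (Fin (d + 1)) K)}
    (hP : ∀ j e, L.nm (algebraMap K Ω ((P.coeff j).coeff e)) ≤ 1) {c c' : Fin (d + 1) → Ω}
    (hc : ∀ r, L.nm (c r) ≤ 1) (hc' : ∀ r, L.nm (c' r) ≤ 1) {w w' : Ω} (hw : L.nm w ≤ 1)
    (hw' : L.nm w' ≤ 1) {r : ℝ} (hr : 0 ≤ r) (h : ∀ i, L.nm (c' i - c i) ≤ r)
    (h' : L.nm (w' - w) ≤ r) :
    L.nm (pe c w P) ≤ 1 ∧ L.nm (pe c' w' P) ≤ 1 ∧ L.nm (pe c' w' P - pe c w P) ≤ r ∧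
      ∃ s, pe (dn c fun i => c' i - c i) (du w (w' - w)) P = du (pe c w P) s ∧
        L.nm (pe c' w' P - pe c w P - s) ≤ r ^ 2 := by
  have hz : L.nm (0 : Ω) = 0 := (L.zero_iff 0).2 rfl
  have hr2 : 0 ≤ r ^ 2 := pow_nonneg hr 2
  have hb : ∀ {y z : Ω} {r s : ℝ}, L.nm y ≤ r → L.nm z ≤ s → L.nm (y * z) ≤ r * s :=
    fun {y z r s} hy hz => by
      rw [L.mul]
      exact mul_le_mul hy hz (L.nonneg _) ((L.nonneg _).trans hy)
  refine tsl_ind (L := L) (p := fun P => L.nm (pe c w P) ≤ 1 ∧ L.nm (pe c' w' P) ≤ 1 ∧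
    L.nm (pe c' w' P - pe c w P) ≤ r ∧
      ∃ s, pe (dn c fun i => c' i - c i) (du w (w' - w)) P = du (pe c w P) s ∧
        L.nm (pe c' w' P - pe c w P - s) ≤ r ^ 2) ?_ ?_ ?_ ?_ ?_ hP
  · intro a ha
    have e1 : ∀ (c : Fin (d + 1) → Ω) (w : Ω), pe c w (Polynomial.C (MvPolynomial.C a)) =
        algebraMap K Ω a := by
      intro c w
      rw [pe_C, ← MvPolynomial.algebraMap_eq, AlgHom.commutes]
    rw [e1, e1, sub_self, hz]
    refine ⟨ha, ha, hr, 0, ?_, ?_⟩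
    · rw [pe_C, ← MvPolynomial.algebraMap_eq, AlgHom.commutes, du_map]
    · rw [sub_zero, hz]
      exact hr2
  · intro i
    have e1 : ∀ (c : Fin (d + 1) → Ω) (w : Ω),
        pe c w (Polynomial.C (MvPolynomial.X i : MvPolynomial (Fin (d + 1)) K)) = c i := by
      intro c w
      rw [pe_C, MvPolynomial.aeval_X]
    rw [e1, e1]
    refine ⟨hc i, hc' i, h i, c' i - c i, ?_, ?_⟩
    · rw [pe_C, MvPolynomial.aeval_X]
      rfl
    · rw [sub_self, hz]
      exact hr2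
  · rw [pe_X, pe_X]
    refine ⟨hw, hw', h', w' - w, ?_, ?_⟩
    · rw [pe_X]
    · rw [sub_self, hz]
      exact hr2
  · rintro P Q ⟨p1, p2, p3, s, p4, p5⟩ ⟨q1, q2, q3, t, q4, q5⟩
    rw [map_add, map_add]
    refine ⟨(L.add _ _).trans (max_le p1 q1), (L.add _ _).trans (max_le p2 q2), ?_, s + t,
      ?_, ?_⟩
    · have e1 : pe c' w' P + pe c' w' Q - (pe c w P + pe c w Q) =
          (pe c' w' P - pe c w P) + (pe c' w' Q - pe c w Q) := by ring
      rw [e1]
      exact (L.add _ _).trans (max_le p3 q3)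
    · rw [map_add, p4, q4, du_add]
    · have e1 : pe c' w' P + pe c' w' Q - (pe c w P + pe c w Q) - (s + t) =
          (pe c' w' P - pe c w P - s) + (pe c' w' Q - pe c w Q - t) := by ring
      rw [e1]
      exact (L.add _ _).trans (max_le p5 q5)
  · rintro P Q ⟨p1, p2, p3, s, p4, p5⟩ ⟨q1, q2, q3, t, q4, q5⟩
    rw [map_mul, map_mul]
    refine ⟨?_, ?_, ?_, pe c w P * t + pe c w Q * s, ?_, ?_⟩
    · rw [← one_mul (1 : ℝ)]
      exact hb p1 q1
    · rw [← one_mul (1 : ℝ)]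
      exact hb p2 q2
    · have e1 : pe c' w' P * pe c' w' Q - pe c w P * pe c w Q =
          (pe c' w' P - pe c w P) * pe c' w' Q + pe c w P * (pe c' w' Q - pe c w Q) := by ring
      rw [e1]
      refine (L.add _ _).trans (max_le ?_ ?_)
      · rw [← mul_one r]
        exact hb p3 q2
      · rw [← one_mul r]
        exact hb p1 q3
    · rw [map_mul, p4, q4, du_mul]
    · have e1 : pe c' w' P * pe c' w' Q - pe c w P * pe c w Q -
          (pe c w P * t + pe c w Q * s) =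
          (pe c' w' P - pe c w P) * (pe c' w' Q - pe c w Q) +
            pe c w P * (pe c' w' Q - pe c w Q - t) +
              (pe c' w' P - pe c w P - s) * pe c w Q := by ring
      rw [e1]
      refine (L.add _ _).trans (max_le ((L.add _ _).trans (max_le ?_ ?_)) ?_)
      · rw [sq]
        exact hb p3 q3
      · rw [← one_mul (r ^ 2)]
        exact hb p1 q5
      · rw [← mul_one (r ^ 2)]
        exact hb p5 q1

/-- Values of integral polynomials at integral points. -/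
theorem pe_int {P : Polynomial (MvPolynomial (Fin (d + 1)) K)}
    (hP : ∀ j e, L.nm (algebraMap K Ω ((P.coeff j).coeff e)) ≤ 1) {M : IntermediateField K Ω}
    {c : Fin (d + 1) → Ω} (hc : Iv L M c) {w : Ω} (hw : w ∈ M) (hw1 : L.nm w ≤ 1) :
    pe c w P ∈ M ∧ L.nm (pe c w P) ≤ 1 := by
  refine tsl_ind (L := L) (p := fun P => pe c w P ∈ M ∧ L.nm (pe c w P) ≤ 1) ?_ ?_ ?_ ?_ ?_ hP
  · intro a ha
    rw [pe_C, ← MvPolynomial.algebraMap_eq, AlgHom.commutes]
    exact ⟨M.algebraMap_mem a, ha⟩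
  · intro i
    rw [pe_C, MvPolynomial.aeval_X]
    exact hc i
  · rw [pe_X]
    exact ⟨hw, hw1⟩
  · rintro P Q ⟨p1, p2⟩ ⟨q1, q2⟩
    rw [map_add]
    exact ⟨M.add_mem p1 q1, (L.add _ _).trans (max_le p2 q2)⟩
  · rintro P Q ⟨p1, p2⟩ ⟨q1, q2⟩
    rw [map_mul]
    refine ⟨M.mul_mem p1 q1, ?_⟩
    rw [L.mul]
    exact mul_le_one₀ p2 (L.nonneg _) q2

/-- Values at congruent points. -/
theorem pe_cong {P : Polynomial (MvPolynomial (Fin (d + 1)) K)}
    (hP : ∀ j e, L.nm (algebraMap K Ω ((P.coeff j).coeff e)) ≤ 1) {c c' : Fin (d + 1) → Ω}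
    (hc : ∀ r, L.nm (c r) ≤ 1) (hc' : ∀ r, L.nm (c' r) ≤ 1) {w w' : Ω} (hw : L.nm w ≤ 1)
    (hw' : L.nm w' ≤ 1) {r : ℝ} (hr : 0 ≤ r) (h : ∀ i, L.nm (c' i - c i) ≤ r)
    (h' : L.nm (w' - w) ≤ r) : L.nm (pe c' w' P - pe c w P) ≤ r := by
  exact (tsl_key hP hc hc' hw hw' hr h h').2.2.1

/-- Second order: the difference of the values is the value of the derivative. -/
theorem pe_taylor {P : Polynomial (MvPolynomial (Fin (d + 1)) K)}
    (hP : ∀ j e, L.nm (algebraMap K Ω ((P.coeff j).coeff e)) ≤ 1) {c c' : Fin (d + 1) → Ω}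
    (hc : ∀ r, L.nm (c r) ≤ 1) (hc' : ∀ r, L.nm (c' r) ≤ 1) {w w' : Ω} (hw : L.nm w ≤ 1)
    (hw' : L.nm w' ≤ 1) {r : ℝ} (hr : 0 ≤ r) (h : ∀ i, L.nm (c' i - c i) ≤ r)
    (h' : L.nm (w' - w) ≤ r) :
    L.nm (pe c' w' P - pe c w P - (∑ i, pe c w (dr i P) * (c' i - c i) +
      pe c w (Polynomial.derivative P) * (w' - w))) ≤ r ^ 2 := by
  obtain ⟨-, -, -, s, hs, h1⟩ := tsl_key hP hc hc' hw hw' hr h h'
  rw [pe_dn, du_inj] at hs
  have h2 : (∑ i, pe c w (dr i P) * (c' i - c i) + pe c w (Polynomial.derivative P) * (w' - w)) =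
      s := by
    rw [← hs.2, mul_comm (w' - w)]
    congr 1
    exact Finset.sum_congr rfl fun i _ => mul_comm _ _
  rw [h2]
  exact h1

end GX
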