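import Pool.Agent.Lib.MP_f80667_ag.Gx.TsD

/-!
Residues of the values of a projection.
-/

open ZC BE PE CV IntermediateField

namespace GX

variable {F : Type} [Field F] {N d m : ℕ} {ι : Type} {f : ι → MvPolynomial (Fin N) F} {K Ω : Type}
  [Field K] [Field Ω] [Algebra K Ω] [Algebra F K] [Algebra F Ω] [IsScalarTower F K Ω]
  {L : Ld K Ω} {k : Subfield L.κ} {ψ : Prj K N d} {ψ' : Prj k N d}

section aux

/-- `a'` is the residue of `a`. -/
private def TrK (L : Ld K Ω) (k : Subfield L.κ) (a : K) (a' : k) : Prop :=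
  L.rs.Hv (algebraMap K Ω a) (a' : L.κ)

private theorem TrK.zero : TrK L k 0 0 := by
  unfold TrK
  rw [map_zero]
  exact Rs.Hv.zero

private theorem TrK.one : TrK L k 1 1 := by
  unfold TrK
  rw [map_one]
  exact Rs.Hv.one

private theorem TrK.add {a b : K} {a' b' : k} (h : TrK L k a a') (h' : TrK L k b b') :
    TrK L k (a + b) (a' + b') := by
  unfold TrK
  rw [map_add]
  exact Rs.Hv.add h h'

private theorem TrK.sub {a b : K} {a' b' : k} (h : TrK L k a a') (h' : TrK L k b b') :
    TrK L k (a - b) (a' - b') := by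
  unfold TrK
  rw [map_sub]
  exact Rs.Hv.sub h h'

private theorem TrK.mul {a b : K} {a' b' : k} (h : TrK L k a a') (h' : TrK L k b b') :
    TrK L k (a * b) (a' * b') := by
  unfold TrK
  rw [map_mul]
  exact Rs.Hv.mul h h'

private theorem TrK.sum {τ : Type} (s : Finset τ) {a : τ → K} {a' : τ → k}
    (h : ∀ i, TrK L k (a i) (a' i)) : TrK L k (∑ i ∈ s, a i) (∑ i ∈ s, a' i) := by
  classical
  induction s using Finset.induction_on with
  | empty =>
    rw [Finset.sum_empty, Finset.sum_empty]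
    exact TrK.zero
  | insert b s hb ih =>
    rw [Finset.sum_insert hb, Finset.sum_insert hb]
    exact (h b).add ih

private theorem TrK.nat (n : ℕ) : TrK L k (n : K) (n : k) := by
  induction n with
  | zero =>
    rw [Nat.cast_zero, Nat.cast_zero]
    exact TrK.zero
  | succ n ih =>
    rw [Nat.cast_succ, Nat.cast_succ]
    exact ih.add TrK.one

variable {σ : Type}

private def TrM (L : Ld K Ω) (k : Subfield L.κ) (P : MvPolynomial σ K) (P' : MvPolynomial σ k) :
    Prop := ∀ e, TrK L k (P.coeff e) (P'.coeff e)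

private theorem TrM.zero : TrM (σ := σ) L k 0 0 := fun e => by
  rw [MvPolynomial.coeff_zero, MvPolynomial.coeff_zero]
  exact TrK.zero

private theorem TrM.one : TrM (σ := σ) L k 1 1 := fun e => by
  classical
  rw [MvPolynomial.coeff_one, MvPolynomial.coeff_one]
  split_ifs
  · exact TrK.one
  · exact TrK.zero

private theorem TrM.add {P Q : MvPolynomial σ K} {P' Q' : MvPolynomial σ k} (h : TrM L k P P')
    (h' : TrM L k Q Q') : TrM L k (P + Q) (P' + Q') := fun e => by
  rw [MvPolynomial.coeff_add, MvPolynomial.coeff_add]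
  exact (h e).add (h' e)

private theorem TrM.sub {P Q : MvPolynomial σ K} {P' Q' : MvPolynomial σ k} (h : TrM L k P P')
    (h' : TrM L k Q Q') : TrM L k (P - Q) (P' - Q') := fun e => by
  rw [MvPolynomial.coeff_sub, MvPolynomial.coeff_sub]
  exact (h e).sub (h' e)

private theorem TrM.mul {P Q : MvPolynomial σ K} {P' Q' : MvPolynomial σ k} (h : TrM L k P P')
    (h' : TrM L k Q Q') : TrM L k (P * Q) (P' * Q') := fun e => by
  classical
  rw [MvPolynomial.coeff_mul, MvPolynomial.coeff_mul]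
  exact TrK.sum _ fun x => (h x.1).mul (h' x.2)

private theorem TrM.sum {τ : Type} (s : Finset τ) {P : τ → MvPolynomial σ K}
    {P' : τ → MvPolynomial σ k} (h : ∀ i, TrM L k (P i) (P' i)) :
    TrM L k (∑ i ∈ s, P i) (∑ i ∈ s, P' i) := by
  classical
  induction s using Finset.induction_on with
  | empty =>
    rw [Finset.sum_empty, Finset.sum_empty]
    exact TrM.zero
  | insert b s hb ih =>
    rw [Finset.sum_insert hb, Finset.sum_insert hb]
    exact (h b).add ih

private theorem TrM.nat (n : ℕ) : TrM (σ := σ) L k (n : MvPolynomial σ K) (n : MvPolynomial σ k) := by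
  induction n with
  | zero =>
    rw [Nat.cast_zero, Nat.cast_zero]
    exact TrM.zero
  | succ n ih =>
    rw [Nat.cast_succ, Nat.cast_succ]
    exact ih.add TrM.one

private theorem TrM.pd {P : MvPolynomial σ K} {P' : MvPolynomial σ k} (h : TrM L k P P') (i : σ) :
    TrM L k (MvPolynomial.pderiv i P) (MvPolynomial.pderiv i P') := fun e => by
  rw [MvPolynomial.coeff_pderiv, MvPolynomial.coeff_pderiv]
  exact (h _).mul ((TrK.nat _).add TrK.one)

private def TrQ (L : Ld K Ω) (k : Subfield L.κ) (P : Polynomial (MvPolynomial σ K))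
    (P' : Polynomial (MvPolynomial σ k)) : Prop := ∀ j, TrM L k (P.coeff j) (P'.coeff j)

private theorem TrQ.sub {P Q : Polynomial (MvPolynomial σ K)} {P' Q' : Polynomial (MvPolynomial σ k)}
    (h : TrQ L k P P') (h' : TrQ L k Q Q') : TrQ L k (P - Q) (P' - Q') := fun j => by
  rw [Polynomial.coeff_sub, Polynomial.coeff_sub]
  exact (h j).sub (h' j)

private theorem TrQ.mul {P Q : Polynomial (MvPolynomial σ K)} {P' Q' : Polynomial (MvPolynomial σ k)}
    (h : TrQ L k P P') (h' : TrQ L k Q Q') : TrQ L k (P * Q) (P' * Q') := fun j => by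
  rw [Polynomial.coeff_mul, Polynomial.coeff_mul]
  exact TrM.sum _ fun x => (h x.1).mul (h' x.2)

private theorem TrQ.C {P : MvPolynomial σ K} {P' : MvPolynomial σ k} (h : TrM L k P P') :
    TrQ L k (Polynomial.C P) (Polynomial.C P') := fun j => by
  rw [Polynomial.coeff_C, Polynomial.coeff_C]
  split_ifs
  · exact h
  · exact TrM.zero

private theorem TrQ.der {P : Polynomial (MvPolynomial σ K)} {P' : Polynomial (MvPolynomial σ k)}
    (h : TrQ L k P P') : TrQ L k (Polynomial.derivative P) (Polynomial.derivative P') := fun j => by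
  rw [Polynomial.coeff_derivative, Polynomial.coeff_derivative]
  exact (h _).mul ((TrM.nat j).add TrM.one)

private theorem dr_co {R : Type} [CommRing R] (r : Fin (d + 1))
    (P : Polynomial (MvPolynomial (Fin (d + 1)) R)) (j : ℕ) :
    (dr r P).coeff j = MvPolynomial.pderiv r (P.coeff j) := by
  classical
  rw [dr, Polynomial.sum_def, Polynomial.finsetSum_coeff]
  simp only [Polynomial.coeff_C_mul, Polynomial.coeff_X_pow, mul_ite, mul_one, mul_zero]
  rw [Finset.sum_ite_eq]
  split_ifs with h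
  · rfl
  · rw [Polynomial.notMem_support_iff.1 h, map_zero]

private theorem TrQ.dr {P : Polynomial (MvPolynomial (Fin (d + 1)) K)}
    {P' : Polynomial (MvPolynomial (Fin (d + 1)) k)} (h : TrQ L k P P') (r : Fin (d + 1)) :
    TrQ L k (dr r P) (dr r P') := fun j => by
  rw [dr_co, dr_co]
  exact (h j).pd r

private theorem rv_sum {τ : Type} (s : Finset τ) {a : τ → Ω} {a' : τ → k}
    (h : ∀ i, L.rs.Hv (a i) (a' i : L.κ)) :
    L.rs.Hv (∑ i ∈ s, a i) ((∑ i ∈ s, a' i : k) : L.κ) := by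
  classical
  induction s using Finset.induction_on with
  | empty =>
    rw [Finset.sum_empty, Finset.sum_empty]
    exact Rs.Hv.zero
  | insert b s hb ih =>
    rw [Finset.sum_insert hb, Finset.sum_insert hb]
    exact Rs.Hv.add (h b) ih

end aux

theorem hv_lv {a : Fin N → K} {a' : Fin N → k}
    (h : ∀ j, L.rs.Hv (algebraMap K Ω (a j)) (a' j : L.κ)) {x : Fin N → Ω} {y : Fin N → k}
    (hx : GM.Rdv L k x y) : L.rs.Hv (lv a x) ((lv a' y : k) : L.κ) :=
  rv_sum Finset.univ fun j => Rs.Hv.mul (h j) (hx j)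

/-- Proof: `pe_sum`, `GM.Rdp.aeval` for polynomials over `K`. -/
theorem hv_pe {P : Polynomial (MvPolynomial (Fin (d + 1)) K)}
    {P' : Polynomial (MvPolynomial (Fin (d + 1)) k)}
    (h : ∀ j e, L.rs.Hv (algebraMap K Ω ((P.coeff j).coeff e)) (((P'.coeff j).coeff e : k) : L.κ))
    {c : Fin (d + 1) → Ω} {c' : Fin (d + 1) → k} (hc : GM.Rdv L k c c') {w : Ω} {w' : k}
    (hw : L.rs.Hv w (w' : L.κ)) : L.rs.Hv (pe c w P) ((pe c' w' P' : k) : L.κ) := by
  obtain ⟨n, hn1, hn2⟩ : ∃ n, P.natDegree < n ∧ P'.natDegree < n :=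
    ⟨max P.natDegree P'.natDegree + 1, Nat.lt_succ_of_le (le_max_left _ _),
      Nat.lt_succ_of_le (le_max_right _ _)⟩
  have h1 : pe c w P = ∑ j ∈ Finset.range n, MvPolynomial.aeval c (P.coeff j) * w ^ j := by
    rw [pe, Polynomial.coe_eval₂RingHom, Polynomial.eval₂_eq_sum_range' _ hn1]
    rfl
  have h2 : pe c' w' P' = ∑ j ∈ Finset.range n, MvPolynomial.eval c' (P'.coeff j) * w' ^ j := by
    rw [pe, Polynomial.coe_eval₂RingHom, Polynomial.eval₂_eq_sum_range' _ hn2]
    rfl
  rw [h1, h2]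
  refine rv_sum _ fun j => Rs.Hv.mul ?_ (Rs.Hv.pow hw j)
  exact GM.Rdp.aeval (F := K) (fun e => h j e) hc

/-- The polynomials `tp` and the derivative of `G`. -/
theorem Rdj.tp (h : Rdj L k ψ ψ') (r : Fin (d + 1)) (i : Fin N) :
    ∀ j e, L.rs.Hv (algebraMap K Ω (((ψ.tp r i).coeff j).coeff e))
      ((((ψ'.tp r i).coeff j).coeff e : k) : L.κ) := by
  have hG : TrQ L k ψ.G ψ'.G := h.G
  have hA : TrQ L k (ψ.A i) (ψ'.A i) := h.A i
  have hD : TrM L k ψ.D ψ'.D := h.D
  exact ((TrQ.C hD).mul (((hA.dr r).mul hG.der).sub (hA.der.mul (hG.dr r)))).sub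
    ((hA.mul (TrQ.C (hD.pd r))).mul hG.der)

theorem Rdj.dG (h : Rdj L k ψ ψ') :
    ∀ j e, L.rs.Hv (algebraMap K Ω (((Polynomial.derivative ψ.G).coeff j).coeff e))
      ((((Polynomial.derivative ψ'.G).coeff j).coeff e : k) : L.κ) := by
  have hG : TrQ L k ψ.G ψ'.G := h.G
  exact hG.der

/-- The norm is `1` if and only if the residue is not `0`. -/
theorem nm_one_iff {a : Ω} {a' : L.κ} (h : L.rs.Hv a a') : L.nm a = 1 ↔ a' ≠ 0 :=
  (L.hv_ne h).symm

theorem nm_lt_iff {a : Ω} {a' : L.κ} (h : L.rs.Hv a a') : L.nm a < 1 ↔ a' = 0 := by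
  rw [← L.hv_zero]
  exact ⟨fun h' => h.uniq h', fun h' => h' ▸ h⟩

theorem hv_div {a b : Ω} {a' b' : L.κ} (h : L.rs.Hv a a') (h' : L.rs.Hv b b') (hb : b' ≠ 0) :
    L.rs.Hv (a / b) (a' / b') := h.div h' hb

end GX
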