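import Pool.Agent.Lib.MP_f80667_ag.Gx.TsC
import Pool.Agent.Lib.MP_f80667_ag.Gx.TsD
import Pool.Agent.Lib.MP_f80667_ag.Cv.Sml

/-!
Displacements and traces.
-/

open ZC BE PE CV IntermediateField

namespace GX

variable {F : Type} [Field F] {N d m : ℕ} {ι : Type} {f : ι → MvPolynomial (Fin N) F} {K Ω : Type}
  [Field K] [CharZero K] [Field Ω] [Algebra K Ω] [Algebra F K] [Algebra F Ω]
  [IsScalarTower F K Ω] [IsAlgClosure K Ω] {L : Ld K Ω}

/-- The trace of `M` over itself. -/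
private theorem tsv_rtr {M : IntermediateField K Ω} {z : (Xf f).pt Ω →₀ ℤ}
    (hz : ∀ γ ∈ M.fixingSubgroup, Finsupp.mapDomain ((Xf f).act γ) z = z) :
    rtr (Xf f) M M z = z := by
  have hs : Subsingleton (M.fixingSubgroup ⧸ M.fixingSubgroup.subgroupOf M.fixingSubgroup) := by
    rw [Subgroup.subgroupOf_self]
    exact QuotientGroup.subsingleton_quotient_top
  letI hu : Unique (M.fixingSubgroup ⧸ M.fixingSubgroup.subgroupOf M.fixingSubgroup) :=
    uniqueOfSubsingleton ((1 : M.fixingSubgroup) : M.fixingSubgroup ⧸ M.fixingSubgroup.subgroupOf M.fixingSubgroup)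
  unfold rtr
  rw [finsum_unique]
  exact hz _ (SetLike.coe_mem _)

/-- The points of two congruent coordinate vectors are near: a displacement of level `s` over `M`. Proof: `GM.dl_of`. -/
theorem dl_of {M : IntermediateField K Ω} {P P' : (Xf f).pt Ω} {x x' : Fin N → Ω} (hP : Co P x)
    (hP' : Co P' x') (hx : Iv L M x) (hx' : Iv L M x') (h1 : ∃ i, L.nm (x i) = 1)
    {s : ℕ} (hs : s ≠ 0) (h : ∀ i, L.nm (x' i - x i) ≤ L.nm (L.p : Ω) ^ s) :
    (Finsupp.single P' 1 - Finsupp.single P 1 : (Xf f).pt Ω →₀ ℤ) ∈ Dl f L s M := by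
  obtain ⟨i, hi⟩ := h1
  have hr : L.nm (L.p : Ω) ^ s < 1 := pow_lt_one₀ (L.nonneg _) L.lt hs
  have hi' : L.nm (x' i) = 1 := by
    have h2 : L.nm (x' i - x i) < L.nm (x i) := by
      rw [hi]
      exact (h i).trans_lt hr
    rw [L.eq_of_close h2, hi]
  have hF : Fp (Xf f) M P := fp_co hP fun j => (hx j).1
  have hF' : Fp (Xf f) M P' := fp_co hP' fun j => (hx' j).1
  refine AddSubgroup.subset_closure ⟨1, M, P', P, one_ne_zero, le_rfl, Ld.ur_le, hF', hF,
    ⟨x', x, hP', hP, fun j => (hx' j).2, fun j => (hx j).2, ⟨i, hi'⟩, ⟨i, hi⟩, h⟩, ?_⟩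
  refine (tsv_rtr fun γ hγ => ?_).symm
  rw [← Finsupp.mapDomain.addMonoidHom_apply, map_sub, Finsupp.mapDomain.addMonoidHom_apply,
    Finsupp.mapDomain.addMonoidHom_apply, Finsupp.mapDomain_single, Finsupp.mapDomain_single,
    hF γ hγ, hF' γ hγ]

/-- Traces of displacements. Proof: `GM.dl_tr`. -/
theorem dl_tr {M : IntermediateField K Ω} (hM : Um L M) {s : ℕ} {z : (Xf f).pt Ω →₀ ℤ}
    (hz : z ∈ Dl f L s M) : rtr (Xf f) ⊥ M z ∈ Dl f L s ⊥ := by
  exact dsp_tr ⟨bot_le, hM⟩ hz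

/-- Traces of cycles rationally equivalent to `0`. Proof: `GM.rat_tr`. -/
theorem rat_tr {M : IntermediateField K Ω} (hM : Um L M) {z : (Xf f).pt Ω →₀ ℤ}
    (hz : z ∈ (Xf f).ratEq M Ω) (hf : Fx M z) : rtr (Xf f) ⊥ M z ∈ (Xf f).ratEq K Ω := by
  have h := hM.fd
  rw [rtr_eq bot_le]
  exact nm_ratEq hz hf

/-- Displacements are fixed. Proof: `GM.dl_fx`. -/
theorem dl_fx {M : IntermediateField K Ω} [FiniteDimensional K M] {s : ℕ}
    {z : (Xf f).pt Ω →₀ ℤ} (hz : z ∈ Dl f L s M) : Fx M z := by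
  exact dsp_fx hz

end GX
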