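import Pool.Agent.Lib.MP_f80667_ag.Gx.Cb
import Pool.Agent.Lib.MP_f80667_ag.Gx.Gc

/-!
Tests: finitely many points and tangent vectors which show that there are no compatible systems.

* `Ix d m`: the indices `(i, j, r, μ)` of the coefficients of a system of polynomials.
* `Prj.tm ψ k x t`: the term `(j, r, μ)` of `ev`. `Tst S N m`: a test; `row ψ τ k`: the coefficient of the unknown `k` in the equation of the test.
* `Val f ψ τ`: the test is valid.
-/

open MvPolynomial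

namespace GX

/-- The indices of the coefficients. -/
abbrev Ix (d m : ℕ) : Type := Fin m × ℕ × Fin (d + 1) × (Fin (d + 1) →₀ ℕ)

/-- A test. -/
structure Tst (S : Type) (N m : ℕ) where
  /-- overlap (`true`) or radial (`false`) -/
  b : Bool
  /-- the first projection -/
  i : Fin m
  /-- the second projection -/
  i' : Fin m
  /-- the point -/
  x : Fin N → S
  /-- the tangent vector -/
  t : Fin N → S

/-- The image of a test. -/
def Tst.map {S S' : Type} {N m : ℕ} (φ : S → S') (τ : Tst S N m) : Tst S' N m where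
  b := τ.b
  i := τ.i
  i' := τ.i'
  x j := φ (τ.x j)
  t j := φ (τ.t j)

section ring

variable {R S : Type} [CommRing R] [CommRing S] [Algebra R S] {N d m : ℕ}

/-- The term `(j, r, μ)` of `ev`. -/
noncomputable def Prj.tm (ψ : Prj R N d) (k : ℕ × Fin (d + 1) × (Fin (d + 1) →₀ ℕ))
    (x t : Fin N → S) : S :=
  pe (ψ.uv x) (ψ.yv x) (ψ.bt k.1) * ((∏ r, ψ.uv x r ^ k.2.2 r) * ψ.uv t k.2.1)

/-- The coefficient of the unknown `k` in the equation of the test `τ`. -/
noncomputable def row (ψ : Fin m → Prj R N d) (τ : Tst S N m) (k : Ix d m) : S :=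
  if τ.b then
    (if k.1 = τ.i then pe ((ψ τ.i').uv τ.x) ((ψ τ.i').yv τ.x)
      (Polynomial.derivative (ψ τ.i').G) * (ψ k.1).tm k.2 τ.x τ.t else 0) -
    (if k.1 = τ.i' then pe ((ψ τ.i).uv τ.x) ((ψ τ.i).yv τ.x)
      (Polynomial.derivative (ψ τ.i).G) * (ψ k.1).tm k.2 τ.x τ.t else 0)
  else if k.1 = τ.i then (ψ k.1).tm k.2 τ.x τ.x else 0

private theorem wa_lv {S' : Type} [CommRing S'] [Algebra R S'] (φ : S →ₐ[R] S')
    (a : Fin N → R) (x : Fin N → S) : φ (lv a x) = lv a fun j => φ (x j) := by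
  rw [lv, lv, map_sum]
  refine Finset.sum_congr rfl fun j _ => ?_
  rw [map_mul, AlgHom.commutes]

private theorem wa_pe {S' : Type} [CommRing S'] [Algebra R S'] (φ : S →ₐ[R] S')
    (ψ : Prj R N d) (x : Fin N → S) (P : Polynomial (MvPolynomial (Fin (d + 1)) R)) :
    φ (pe (ψ.uv x) (ψ.yv x) P) = pe (ψ.uv fun j => φ (x j)) (ψ.yv fun j => φ (x j)) P := by
  rw [pe_hom]
  congr 2
  · funext r
    exact wa_lv φ _ _
  · exact wa_lv φ _ _

private theorem wa_tm {S' : Type} [CommRing S'] [Algebra R S'] (φ : S →ₐ[R] S')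
    (ψ : Prj R N d) (k : ℕ × Fin (d + 1) × (Fin (d + 1) →₀ ℕ)) (x t : Fin N → S) :
    φ (ψ.tm k x t) = ψ.tm k (fun j => φ (x j)) fun j => φ (t j) := by
  rw [Prj.tm, Prj.tm, map_mul, map_mul, wa_pe, map_prod]
  congr 2
  · refine Finset.prod_congr rfl fun r _ => ?_
    rw [map_pow]
    congr 1
    exact wa_lv φ _ _
  · exact wa_lv φ _ _

/-- Proof: `pe_hom`. -/
theorem row_hom {S' : Type} [CommRing S'] [Algebra R S'] (φ : S →ₐ[R] S')
    (ψ : Fin m → Prj R N d) (τ : Tst S N m) (k : Ix d m) :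
    φ (row ψ τ k) = row ψ (τ.map φ) k := by
  unfold row
  change φ (if τ.b = true then _ else _) = if τ.b = true then
    (if k.1 = τ.i then pe ((ψ τ.i').uv fun j => φ (τ.x j)) ((ψ τ.i').yv fun j => φ (τ.x j))
      (Polynomial.derivative (ψ τ.i').G) * (ψ k.1).tm k.2 (fun j => φ (τ.x j))
        (fun j => φ (τ.t j)) else 0) -
    (if k.1 = τ.i' then pe ((ψ τ.i).uv fun j => φ (τ.x j)) ((ψ τ.i).yv fun j => φ (τ.x j))
      (Polynomial.derivative (ψ τ.i).G) * (ψ k.1).tm k.2 (fun j => φ (τ.x j))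
        (fun j => φ (τ.t j)) else 0)
    else if k.1 = τ.i then (ψ k.1).tm k.2 (fun j => φ (τ.x j)) (fun j => φ (τ.x j)) else 0
  rw [apply_ite φ, map_sub, apply_ite φ, apply_ite φ, apply_ite φ, map_zero, map_mul, map_mul,
    wa_pe, wa_pe, wa_tm, wa_tm]

private theorem wa_bt {R' : Type} [CommRing R'] [Nontrivial R'] (φ : R →+* R')
    {ψ : Prj R N d} (hm : ψ.G.Monic) (j : ℕ) :
    (ψ.map φ).bt j = (ψ.bt j).map (MvPolynomial.map φ) := by
  have h1 : (ψ.map φ).G.natDegree = ψ.G.natDegree := hm.natDegree_map (MvPolynomial.map φ)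
  rw [Prj.bt, Prj.bt, h1, Polynomial.map_sum]
  refine Finset.sum_congr rfl fun k _ => ?_
  rw [Polynomial.map_mul, Polynomial.map_C, Polynomial.map_pow, Polynomial.map_X]
  change Polynomial.C ((ψ.G.map (MvPolynomial.map φ)).coeff (j + 1 + k)) * _ = _
  rw [Polynomial.coeff_map]

private theorem wa_tm_map {R' : Type} [CommRing R'] [Nontrivial R'] [Algebra R R']
    [Algebra R' S] [IsScalarTower R R' S] {ψ : Prj R N d} (hm : ψ.G.Monic)
    (k : ℕ × Fin (d + 1) × (Fin (d + 1) →₀ ℕ)) (x t : Fin N → S) :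
    (ψ.map (algebraMap R R')).tm k x t = ψ.tm k x t := by
  rw [Prj.tm, Prj.tm, wa_bt _ hm, uv_map, uv_map, yv_map, pe_map]

private theorem wa_der_map {R' : Type} [CommRing R'] [Algebra R R']
    [Algebra R' S] [IsScalarTower R R' S] (ψ : Prj R N d) (x : Fin N → S) :
    pe ((ψ.map (algebraMap R R')).uv x) ((ψ.map (algebraMap R R')).yv x)
      (Polynomial.derivative (ψ.map (algebraMap R R')).G) =
    pe (ψ.uv x) (ψ.yv x) (Polynomial.derivative ψ.G) := by
  rw [uv_map, yv_map]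
  change pe _ _ (Polynomial.derivative (ψ.G.map (MvPolynomial.map (algebraMap R R')))) = _
  rw [Polynomial.derivative_map, pe_map]

/-- Proof: `pe_map`, `uv_map`, `yv_map`; the degrees of the monic polynomials `G` do not change, so `bt` commutes with `map`. -/
theorem row_map {R' : Type} [CommRing R'] [Nontrivial R'] [Algebra R R'] [Algebra R' S]
    [IsScalarTower R R' S] {ψ : Fin m → Prj R N d} (hm : ∀ i, (ψ i).G.Monic)
    (τ : Tst S N m) (k : Ix d m) :
    row (fun i => (ψ i).map (algebraMap R R')) τ k = row ψ τ k := by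
  unfold row
  simp only [wa_der_map, wa_tm_map (hm _)]

end ring

section field

variable {κ : Type} [Field κ] {N d m : ℕ} {ι : Type}

/-- The test is valid. -/
structure Val (f : ι → MvPolynomial (Fin N) κ) (ψ : Fin m → Prj κ N d) (τ : Tst κ N m) :
    Prop where
  zp : Zp f τ.x
  D : eval ((ψ τ.i).uv τ.x) (ψ τ.i).D ≠ 0
  tg : τ.b = true → Tg f τ.x τ.t
  D' : τ.b = true → eval ((ψ τ.i').uv τ.x) (ψ τ.i').D ≠ 0

/-- The set of the indices of the unknowns. -/
def Idx (ψ : Fin m → Prj κ N d) (k : Ix d m) : Prop :=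
  (ψ k.1).D ≠ 0 ∧ k.2.1 ≠ 0 ∧ k.2.1 < (ψ k.1).G.natDegree ∧ k.2.2.2.degree = k.2.1 - 1

/-- Proof: finitely many `i`, `j < n_i`, `r`, and finitely many monomials of a given degree (`Finsupp.degree`; `Finset.finsuppAntidiag` or `Set.Finite.subset` of the functions with values `≤ n`). -/
theorem exists_idx (ψ : Fin m → Prj κ N d) :
    ∃ s : Finset (Ix d m), ∀ k, k ∈ s ↔ Idx ψ k := by
  obtain ⟨n, hn⟩ : ∃ n, ∀ i, (ψ i).G.natDegree ≤ n :=
    ⟨∑ i, (ψ i).G.natDegree, fun i => Finset.single_le_sum (f := fun i => (ψ i).G.natDegree)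
      (fun _ _ => Nat.zero_le _) (Finset.mem_univ i)⟩
  have hfin : {k : Ix d m | Idx ψ k}.Finite := by
    refine ((Set.finite_univ (α := Fin m)).prod ((Set.finite_Iio n).prod
      ((Set.finite_univ (α := Fin (d + 1))).prod (Finsupp.finite_of_degree_le n)))).subset ?_
    rintro ⟨i, j, r, μ⟩ ⟨-, -, h1, h2⟩
    have h3 : j < n := lt_of_lt_of_le h1 (hn i)
    refine ⟨Set.mem_univ _, h3, Set.mem_univ _, ?_⟩
    have h4 : μ.degree = j - 1 := h2
    change μ.degree ≤ n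
    omega
  exact ⟨hfin.toFinset, fun k => hfin.mem_toFinset⟩

variable {f : ι → MvPolynomial (Fin N) κ} {ψ : Fin m → Prj κ N d} {s : Finset (Ix d m)}

/-- Proof: `ev` is the sum over `j < n_i`, `r` of `β_j (x) (P i j r) (u (x)) u_r (t)`; `P i j r` is the sum of its monomials (`eval_eq'`), all of degree `j - 1` (`hom`: `IsHomogeneous.coeff_eq_zero`), `0` for `j = 0` (`zero`), and all indices with `coeff ≠ 0` are in `s` (if `D_i = 0`: `triv`). -/
theorem ev_tm (hs : ∀ k, Idx ψ k → k ∈ s) {P : Pv κ m d}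
    (hom : ∀ i j r, (P i j r).IsHomogeneous (j - 1)) (zero : ∀ i r, P i 0 r = 0)
    (big : ∀ i j r, (ψ i).G.natDegree ≤ j → P i j r = 0)
    (triv : ∀ i j r, (ψ i).D = 0 → P i j r = 0) (i : Fin m) (x t : Fin N → κ) :
    (ψ i).ev (P i) x t = ∑ k ∈ s, (if k.1 = i then (ψ i).tm k.2 x t else 0) *
      coeff k.2.2.2 (P k.1 k.2.1 k.2.2.1) := by
  classical
  obtain ⟨F, hF⟩ : ∃ F : Ix d m → κ, F = fun k => (if k.1 = i then (ψ i).tm k.2 x t else 0) *
      coeff k.2.2.2 (P k.1 k.2.1 k.2.2.1) := ⟨_, rfl⟩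
  obtain ⟨M, hM⟩ : ∃ M : Finset (Fin (d + 1) →₀ ℕ), ∀ j < (ψ i).G.natDegree, ∀ r,
      (P i j r).support ⊆ M :=
    ⟨(Finset.range (ψ i).G.natDegree).biUnion fun j => Finset.univ.biUnion fun r =>
      (P i j r).support, fun j hj r μ hμ => Finset.mem_biUnion.2 ⟨j, Finset.mem_range.2 hj,
        Finset.mem_biUnion.2 ⟨r, Finset.mem_univ r, hμ⟩⟩⟩
  have hne : ∀ k, F k ≠ 0 → k.1 = i ∧ coeff k.2.2.2 (P k.1 k.2.1 k.2.2.1) ≠ 0 := by
    intro k hk
    rw [hF] at hk
    refine ⟨?_, right_ne_zero_of_mul hk⟩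
    by_contra h
    apply left_ne_zero_of_mul hk
    exact if_neg h
  have hbig : ∀ k, F k ≠ 0 → k.2.1 < (ψ k.1).G.natDegree := by
    intro k hk
    by_contra h
    apply (hne k hk).2
    rw [big _ _ _ (not_lt.1 h), coeff_zero]
  have h1 : ∑ k ∈ s, F k = ∑ᶠ k, F k := by
    refine (finsum_eq_sum_of_support_subset F fun k hk => ?_).symm
    have hk' := hne k hk
    refine hs k ⟨fun h => hk'.2 ?_, fun h => hk'.2 ?_, hbig k hk, ?_⟩
    · rw [triv _ _ _ h, coeff_zero]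
    · rw [h, zero, coeff_zero]
    · by_contra h
      exact hk'.2 ((hom k.1 k.2.1 k.2.2.1).coeff_eq_zero h)
  have h2 : ∑ᶠ k, F k = ∑ q ∈ (Finset.range (ψ i).G.natDegree) ×ˢ
      ((Finset.univ : Finset (Fin (d + 1))) ×ˢ M), F (i, q) := by
    have h3 := finsum_eq_sum_of_support_subset F (s := ((Finset.range (ψ i).G.natDegree) ×ˢ
      ((Finset.univ : Finset (Fin (d + 1))) ×ˢ M)).map
        ⟨fun q => ((i, q) : Ix d m), fun q q' h => (Prod.mk.inj h).2⟩) (fun k hk => ?_)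
    · rw [h3, Finset.sum_map]
      rfl
    · obtain ⟨h4, h5⟩ := hne k hk
      have h6 := hbig k hk
      obtain ⟨i', j, r, μ⟩ := k
      obtain rfl : i' = i := h4
      rw [Finset.coe_map]
      refine ⟨(j, r, μ), ?_, rfl⟩
      rw [Finset.mem_coe, Finset.mem_product, Finset.mem_product]
      exact ⟨Finset.mem_range.2 h6, Finset.mem_univ _, hM j h6 r (mem_support_iff.2 h5)⟩
  have h0 : ∑ k ∈ s, (if k.1 = i then (ψ i).tm k.2 x t else 0) *
      coeff k.2.2.2 (P k.1 k.2.1 k.2.2.1) = ∑ k ∈ s, F k := by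
    rw [hF]
  rw [h0, h1, h2, Finset.sum_product, Prj.ev]
  refine Finset.sum_congr rfl fun j hj => ?_
  rw [Finset.sum_product, Finset.mul_sum]
  refine Finset.sum_congr rfl fun r _ => ?_
  rw [eval_eq']
  have h4 : ∑ μ ∈ (P i j r).support, coeff μ (P i j r) * ∏ i_1, (ψ i).uv x i_1 ^ μ i_1 =
      ∑ μ ∈ M, coeff μ (P i j r) * ∏ i_1, (ψ i).uv x i_1 ^ μ i_1 := by
    refine Finset.sum_subset (hM j (Finset.mem_range.1 hj) r) fun μ _ hμ => ?_
    rw [notMem_support_iff.1 hμ, zero_mul]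
  rw [h4, Finset.sum_mul, Finset.mul_sum]
  refine Finset.sum_congr rfl fun μ _ => ?_
  rw [hF]
  change _ = (if i = i then (ψ i).tm (j, r, μ) x t else 0) * coeff μ (P i j r)
  rw [if_pos rfl, Prj.tm]
  ring

/-- Proof: `ev_tm` for both projections. -/
theorem row_sum (hs : ∀ k, Idx ψ k → k ∈ s) {P : Pv κ m d}
    (hom : ∀ i j r, (P i j r).IsHomogeneous (j - 1)) (zero : ∀ i r, P i 0 r = 0)
    (big : ∀ i j r, (ψ i).G.natDegree ≤ j → P i j r = 0)
    (triv : ∀ i j r, (ψ i).D = 0 → P i j r = 0) (τ : Tst κ N m) :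
    ∑ k ∈ s, row ψ τ k * coeff k.2.2.2 (P k.1 k.2.1 k.2.2.1) =
      if τ.b then (ψ τ.i').gy τ.x * (ψ τ.i).ev (P τ.i) τ.x τ.t -
        (ψ τ.i).gy τ.x * (ψ τ.i').ev (P τ.i') τ.x τ.t
      else (ψ τ.i).ev (P τ.i) τ.x τ.x := by
  have key : ∀ (i : Fin m) (c : κ) (x t : Fin N → κ),
      ∑ k ∈ s, (if k.1 = i then c * (ψ k.1).tm k.2 x t else 0) *
        coeff k.2.2.2 (P k.1 k.2.1 k.2.2.1) = c * (ψ i).ev (P i) x t := by
    intro i c x t
    rw [ev_tm hs hom zero big triv i x t, Finset.mul_sum]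
    refine Finset.sum_congr rfl fun k _ => ?_
    by_cases h : k.1 = i
    · rw [if_pos h, if_pos h, h]
      ring
    · rw [if_neg h, if_neg h]
      ring
  by_cases hb : τ.b = true
  · rw [if_pos hb, Prj.gy, Prj.gy, ← key, ← key, ← Finset.sum_sub_distrib]
    refine Finset.sum_congr rfl fun k _ => ?_
    rw [row, if_pos hb, sub_mul]
  · rw [if_neg hb, ← one_mul ((ψ τ.i).ev (P τ.i) τ.x τ.x), ← key]
    refine Finset.sum_congr rfl fun k _ => ?_
    rw [row, if_neg hb, one_mul]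

end field

end GX
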