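import Pool.Agent.Lib.MP_f80667_ag.Gx.Wa

/-! Tests with a determinant which is not `0`. -/

open MvPolynomial

namespace GX

variable {κ : Type} [Field κ] {N d m : ℕ} {ι : Type} {f : ι → MvPolynomial (Fin N) κ}
  {ψ : Fin m → Prj κ N d} {s : Finset (Ix d m)}

/-- **Tests show that there are no compatible systems.** Proof: let `Sy f ψ P`, `a k = coeff μ (P i j r)` for `k = (i, j, r, μ) ∈ s`. By `row_sum` and `Sy.ovl`, `Sy.rad` the matrix maps `a` to `0` (`Matrix.eq_zero_of_mulVec_eq_zero` or `Matrix.exists_mulVec_eq_zero_iff`), so `a = 0`. The other coefficients of the `P i j r` are `0`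
by `hom`, `zero`, `big`, `triv`. -/
theorem nf_det (hs : ∀ k, Idx ψ k → k ∈ s) (τ : s → Tst κ N m) (hτ : ∀ k, Val f ψ (τ k))
    (hd : (Matrix.of fun k k' : s => row ψ (τ k) (k' : Ix d m)).det ≠ 0) : Nf f ψ := by
  intro P hP
  have h1 : (Matrix.of fun k k' : s => row ψ (τ k) (k' : Ix d m)).mulVec
      (fun k : s => coeff k.1.2.2.2 (P k.1.1 k.1.2.1 k.1.2.2.1)) = 0 := by
    funext k
    have h2 := row_sum hs hP.hom hP.zero hP.big hP.triv (τ k)
    have h3 : (if (τ k).b = true then (ψ (τ k).i').gy (τ k).x *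
        (ψ (τ k).i).ev (P (τ k).i) (τ k).x (τ k).t -
        (ψ (τ k).i).gy (τ k).x * (ψ (τ k).i').ev (P (τ k).i') (τ k).x (τ k).t
      else (ψ (τ k).i).ev (P (τ k).i) (τ k).x (τ k).x) = 0 := by
      by_cases hb : (τ k).b = true
      · rw [if_pos hb, sub_eq_zero]
        exact hP.ovl _ _ _ _ ((hτ k).tg hb) (hτ k).D ((hτ k).D' hb)
      · rw [if_neg hb]
        exact hP.rad _ _ (hτ k).zp (hτ k).D
    rw [h3] at h2
    change ∑ k' : s, row ψ (τ k) (k' : Ix d m) *
      coeff k'.1.2.2.2 (P k'.1.1 k'.1.2.1 k'.1.2.2.1) = 0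
    rw [Finset.sum_coe_sort s fun k' => row ψ (τ k) k' *
      coeff k'.2.2.2 (P k'.1 k'.2.1 k'.2.2.1)]
    exact h2
  have h4 := Matrix.eq_zero_of_mulVec_eq_zero hd h1
  intro i j r
  ext μ
  rw [coeff_zero]
  by_cases hD : (ψ i).D = 0
  · rw [hP.triv i j r hD, coeff_zero]
  by_cases hj : j = 0
  · rw [hj, hP.zero, coeff_zero]
  by_cases hn : (ψ i).G.natDegree ≤ j
  · rw [hP.big i j r hn, coeff_zero]
  by_cases hμ : μ.degree = j - 1
  · exact congrFun h4 ⟨(i, j, r, μ), hs (i, j, r, μ) ⟨hD, hj, not_le.1 hn, hμ⟩⟩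
  · exact (hP.hom i j r).coeff_eq_zero hμ

/-- The system with the coefficients `a`. -/
noncomputable def Psy (s : Finset (Ix d m)) (a : Ix d m → κ) : Pv κ m d :=
  fun i j r => ∑ k ∈ s.filter (fun k => k.1 = i ∧ k.2.1 = j ∧ k.2.2.1 = r),
    monomial k.2.2.2 (a k)

theorem psy_coeff (a : Ix d m → κ) (k : Ix d m) :
    coeff k.2.2.2 (Psy s a k.1 k.2.1 k.2.2.1) = if k ∈ s then a k else 0 := by
  classical
  rw [Psy, coeff_sum, Finset.sum_filter, ← Finset.sum_ite_eq' s k a]
  refine Finset.sum_congr rfl fun k' _ => ?_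
  by_cases h : k' = k
  · rw [if_pos h, if_pos ⟨congrArg _ h, congrArg (fun q : Ix d m => q.2.1) h,
      congrArg (fun q : Ix d m => q.2.2.1) h⟩, coeff_monomial, if_pos (by rw [h])]
  · rw [if_neg h]
    by_cases h1 : k'.1 = k.1 ∧ k'.2.1 = k.2.1 ∧ k'.2.2.1 = k.2.2.1
    · rw [if_pos h1, coeff_monomial, if_neg]
      intro h2
      exact h (Prod.ext h1.1 (Prod.ext h1.2.1 (Prod.ext h1.2.2 h2)))
    · rw [if_neg h1]

/-- Proof: `s` contains only indices with `Idx`: homogeneous of degree `j - 1`, `0` for `j = 0`, for `n_i ≤ j` and for `D_i = 0`; `ovl` and `rad` from `h` and `row_sum` (`psy_coeff`). -/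
theorem psy_sy (hs : ∀ k, k ∈ s ↔ Idx ψ k) {a : Ix d m → κ}
    (h : ∀ τ, Val f ψ τ → ∑ k ∈ s, row ψ τ k * a k = 0) : Sy f ψ (Psy s a) := by
  have hk : ∀ {i : Fin m} {j : ℕ} {r : Fin (d + 1)} {k : Ix d m},
      k ∈ s.filter (fun k => k.1 = i ∧ k.2.1 = j ∧ k.2.2.1 = r) →
        (ψ i).D ≠ 0 ∧ j ≠ 0 ∧ j < (ψ i).G.natDegree ∧ k.2.2.2.degree = j - 1 := by
    intro i j r k hk
    rw [Finset.mem_filter] at hk
    obtain ⟨h1, rfl, rfl, rfl⟩ := hk
    exact (hs k).1 h1
  have hom : ∀ i j r, (Psy s a i j r).IsHomogeneous (j - 1) := fun i j r =>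
    IsHomogeneous.sum _ _ _ fun k hk' => isHomogeneous_monomial _ (hk hk').2.2.2
  have zero : ∀ i r, Psy s a i 0 r = 0 := fun i r =>
    Finset.sum_eq_zero fun k hk' => absurd rfl (hk hk').2.1
  have big : ∀ i j r, (ψ i).G.natDegree ≤ j → Psy s a i j r = 0 := fun i j r hj =>
    Finset.sum_eq_zero fun k hk' => absurd (hk hk').2.2.1 (not_lt.2 hj)
  have triv : ∀ i j r, (ψ i).D = 0 → Psy s a i j r = 0 := fun i j r hD =>
    Finset.sum_eq_zero fun k hk' => absurd hD (hk hk').1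
  have key : ∀ τ, Val f ψ τ → ∑ k ∈ s, row ψ τ k *
      coeff k.2.2.2 (Psy s a k.1 k.2.1 k.2.2.1) = 0 := by
    intro τ hτ
    rw [← h τ hτ]
    refine Finset.sum_congr rfl fun k hk' => ?_
    rw [psy_coeff, if_pos hk']
  refine ⟨hom, zero, big, triv, ?_, ?_⟩
  · intro i x hx hD
    have h1 := key ⟨false, i, i, x, x⟩ ⟨hx, hD, fun h => absurd h (by simp),
      fun h => absurd h (by simp)⟩
    rw [row_sum (fun k hk' => (hs k).2 hk') hom zero big triv, if_neg (by simp)] at h1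
    exact h1
  · intro i i' x t ht hD hD'
    have h1 := key ⟨true, i, i', x, t⟩ ⟨ht.1, hD, fun _ => ht, fun _ => hD'⟩
    rw [row_sum (fun k hk' => (hs k).2 hk') hom zero big triv, if_pos rfl, sub_eq_zero] at h1
    exact h1

/-- **There are tests.** Proof: the rows of the valid tests span the space of the vectors `s → κ`: otherwise there is a vector `a ≠ 0` which is orthogonal to all of them (`Submodule.exists_le_ker_of_lt_top`, `LinearMap.pi_apply_eq_sum_univ`), and `Psy s a ≠ 0` is a compatible system (`psy_sy`). A spanning set contains a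
basis (`exists_linearIndependent`, `Basis.mk`; it has `card s` elements: `Module.finrank_fintype_fun_eq_card`); index it by `s`; the matrix with linearly independent rows has a determinant which is not `0` (`Matrix.linearIndependent_rows_iff_isUnit`). -/
theorem exists_tst (hs : ∀ k, k ∈ s ↔ Idx ψ k) (hN : Nf f ψ) :
    ∃ τ : s → Tst κ N m, (∀ k, Val f ψ (τ k)) ∧
      (Matrix.of fun k k' : s => row ψ (τ k) (k' : Ix d m)).det ≠ 0 := by
  classical
  obtain ⟨S, hS⟩ : ∃ S : Set (s → κ), S = {v | ∃ τ, Val f ψ τ ∧ v = fun k : s => row ψ τ k} :=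
    ⟨_, rfl⟩
  have hspan : Submodule.span κ S = ⊤ := by
    by_contra hne
    obtain ⟨φ, hφ, hle⟩ := Submodule.exists_le_ker_of_lt_top _ (lt_top_iff_ne_top.2 hne)
    obtain ⟨a, ha⟩ : ∃ a : Ix d m → κ, a = fun k => if h : k ∈ s then
      φ (fun j => if (⟨k, h⟩ : s) = j then 1 else 0) else 0 := ⟨_, rfl⟩
    have hval : ∀ v : Ix d m → κ, φ (fun k : s => v k) = ∑ k ∈ s, v k * a k := by
      intro v
      rw [LinearMap.pi_apply_eq_sum_univ, ← Finset.sum_coe_sort s fun k => v k * a k]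
      refine Finset.sum_congr rfl fun k _ => ?_
      rw [smul_eq_mul, ha]
      simp only [Subtype.coe_eta, Finset.coe_mem, dif_pos]
    have hsy : Sy f ψ (Psy s a) := by
      refine psy_sy hs fun τ hτ => ?_
      rw [← hval]
      exact hle (Submodule.subset_span (by
        rw [hS]
        exact ⟨τ, hτ, rfl⟩))
    have ha0 : ∀ k ∈ s, a k = 0 := by
      intro k hk
      have h1 := psy_coeff (s := s) a k
      rw [hN _ hsy, coeff_zero, if_pos hk] at h1
      exact h1.symm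
    apply hφ
    refine LinearMap.ext fun v => ?_
    have h2 := hval fun k => if h : k ∈ s then v ⟨k, h⟩ else 0
    simp only [Subtype.coe_eta, Finset.coe_mem, dif_pos] at h2
    rw [LinearMap.zero_apply]
    refine h2.trans (Finset.sum_eq_zero fun k hk => ?_)
    rw [ha0 k hk, mul_zero]
  obtain ⟨b, hbS, hb, hli⟩ := exists_linearIndependent κ S
  rw [hspan] at hb
  have hB : ⊤ ≤ Submodule.span κ (Set.range ((↑) : b → (s → κ))) := by
    rw [Subtype.range_coe, hb]
  obtain ⟨B, hBv⟩ : ∃ B : Module.Basis b κ (s → κ), ⇑B = ((↑) : b → (s → κ)) :=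
    ⟨Module.Basis.mk hli hB, Module.Basis.coe_mk hli hB⟩
  obtain ⟨e⟩ : Nonempty (s ≃ b) := ⟨(Pi.basisFun κ s).indexEquiv B⟩
  have h1 : ∀ k : s, ∃ τ, Val f ψ τ ∧ ((e k : b) : s → κ) = fun k' : s => row ψ τ k' := by
    intro k
    have h2 := hbS (e k).2
    rw [hS] at h2
    exact h2
  choose τ hτ hτe using h1
  refine ⟨τ, hτ, ?_⟩
  have h3 : LinearIndependent κ
      (Matrix.of fun k k' : s => row ψ (τ k) (k' : Ix d m)).row := by
    have h4 : (Matrix.of fun k k' : s => row ψ (τ k) (k' : Ix d m)).row =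
        ((↑) : b → (s → κ)) ∘ e := by
      funext k
      exact (hτe k).symm
    rw [h4]
    exact hli.comp e e.injective
  exact ((Matrix.isUnit_iff_isUnit_det _).1
    (Matrix.linearIndependent_rows_iff_isUnit.1 h3)).ne_zero

end GX
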