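import Pool.Agent.Lib.MP_f80667_ag.Gx.XC
import Pool.Agent.Lib.MP_f80667_ag.Gx.ChD

/-! The branch of an arc in the space of a projection. -/

open ZC BE PE CV IntermediateField Polynomial

namespace GX

variable {F : Type} [Field F] {N d : ℕ} {ι : Type} {f : ι → MvPolynomial (Fin N) F} {K Ω : Type}
  [Field K] [Field Ω] [Algebra K Ω] [Algebra F K] [Algebra F Ω] [IsScalarTower F K Ω]
  {L : Ld K Ω} {ψ : Prj K N d}

private theorem xb_max (L : Ld K Ω) {σ : Type} [Fintype σ] (u : σ → Ω)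
    (hu : ∀ r, L.nm (u r) < 1) : ∃ t : ℝ, 0 ≤ t ∧ t < 1 ∧ ∀ r, L.nm (u r) ≤ t := by
  by_cases h : Nonempty σ
  · obtain ⟨i, -, hi⟩ := Finset.exists_max_image Finset.univ (fun r => L.nm (u r))
      Finset.univ_nonempty
    exact ⟨_, L.nonneg _, hu i, fun r => hi r (Finset.mem_univ r)⟩
  · exact ⟨0, le_rfl, zero_lt_one, fun r => absurd ⟨r⟩ h⟩

/-- Two points over congruent points on one sheet are congruent. -/
theorem Pj.sheet (h : Pj f L ψ) {x x' : Fin N → Ω} (hx : ∀ j, L.nm (x j) ≤ 1)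
    (hx' : ∀ j, L.nm (x' j) ≤ 1) (hne : x ≠ 0) (hne' : x' ≠ 0)
    (h0 : ∀ i, MvPolynomial.aeval x (f i) = 0) (h0' : ∀ i, MvPolynomial.aeval x' (f i) = 0)
    (hD : L.nm (MvPolynomial.aeval (ψ.uv x) ψ.D) = 1)
    (hu : ∀ r, L.nm (ψ.uv x r - ψ.uv x' r) < 1) (hy : L.nm (ψ.yv x - ψ.yv x') < 1) (j : Fin N) :
    L.nm (x j - x' j) < 1 := by
  obtain ⟨hu1, hy1⟩ := h.uv_le hx
  obtain ⟨hu1', hy1'⟩ := h.uv_le hx'
  have hD' := h.D_close hu1 hu1' hu hD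
  obtain ⟨t, ht0, ht1, ht⟩ := xb_max L _ hu
  have hDne : MvPolynomial.aeval (ψ.uv x) ψ.D ≠ 0 :=
    L.ne_zero (by rw [hD]; exact zero_lt_one)
  have hDne' : MvPolynomial.aeval (ψ.uv x') ψ.D ≠ 0 :=
    L.ne_zero (by rw [hD']; exact zero_lt_one)
  have h1 := h.pt_close hu1 hy1 hu1' hy1' hD hD' (t := max t (L.nm (ψ.yv x - ψ.yv x')))
    (ht0.trans (le_max_left _ _)) (fun r => (ht r).trans (le_max_left _ _)) (le_max_right _ _) j
  rw [(h.pt_eq hne h0 hDne).2, (h.pt_eq hne' h0' hDne').2] at h1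
  exact h1.trans_lt (max_lt ht1 hy)

/-- **The branch of an arc.** -/
theorem exists_br [CharZero K] [IsAlgClosure K Ω] (h : Pj f L ψ) {M : IntermediateField K Ω}
    {a : Fin (d + 1) → Polynomial Ω} (ha : Arc L M a) {w₀ : Ω} (hw : w₀ ∈ M)
    (hw1 : L.nm w₀ ≤ 1) (hD : L.nm (MvPolynomial.aeval (fun r => (a r).eval 0) ψ.D) = 1)
    (hG : L.nm (pe (fun r => (a r).eval 0) w₀ ψ.G) < 1) :
    ∃ P : Ω → (Xf f).pt Ω, (∀ c, L.nm c < 1 → ∃ w, L.nm (w - w₀) < 1 ∧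
        GM.ev₂ (c, w) (ga a ψ.G) = 0 ∧ Co (P c) fun j => GM.ev₂ (c, w) (ga a (ψ.A j))) ∧
      (∀ γ ∈ M.fixingSubgroup, ∀ c, L.nm c < 1 → (Xf f).act γ (P c) = P (γ c)) ∧
      (∀ c, L.nm c < 1 → ∀ (Q : (Xf f).pt Ω) (x : Fin N → Ω), Co Q x → (∀ j, L.nm (x j) ≤ 1) →
        (∀ r, ψ.uv x r = (a r).eval c) → L.nm (ψ.yv x - w₀) < 1 → Q = P c) ∧
      ∀ c, L.nm c < 1 → ∃ x : Fin N → Ω, Co (P c) x ∧ (∀ j, L.nm (x j) ≤ 1) ∧
        (∃ j, L.nm (x j) = 1) ∧ (∀ r, ψ.uv x r = (a r).eval c) ∧ L.nm (ψ.yv x - w₀) < 1 := by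
  have hcl : ∀ c, L.nm c < 1 → ∀ r, L.nm ((a r).eval 0 - (a r).eval c) < 1 := by
    intro c hc r
    have h1 := L.eval_close (f := a r) (fun j => (ha r j).2) (x := 0) (y := c)
      (by rw [L.zero]; exact zero_le_one) hc.le
    rw [zero_sub, L.neg] at h1
    exact h1.trans_lt hc
  have ha1 : ∀ c, L.nm c < 1 → ∀ r, L.nm ((a r).eval c) ≤ 1 := fun c hc r =>
    L.eval_le (fun j => (ha r j).2) hc.le
  have h00 : L.nm (0 : Ω) < 1 := by rw [L.zero]; exact zero_lt_one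
  have hDc : ∀ c, L.nm c < 1 → L.nm (MvPolynomial.aeval (fun r => (a r).eval c) ψ.D) = 1 :=
    fun c hc => h.D_close (ha1 0 h00) (ha1 c hc) (hcl c hc) hD
  have hle : ∀ {w : Ω}, L.nm (w - w₀) < 1 → L.nm w ≤ 1 := fun {w} hww => by
    have h1 := L.add (w - w₀) w₀
    rw [sub_add_cancel] at h1
    exact h1.trans (max_le hww.le hw1)
  have hroot : ∀ c, L.nm c < 1 → ∃ w, L.nm (w - w₀) < 1 ∧
      pe (fun r => (a r).eval c) w ψ.G = 0 := by
    intro c hc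
    obtain ⟨t, ht0, ht1, ht⟩ := xb_max L _ (hcl c hc)
    have h1 := pe_close h.iG (ha1 0 h00) hw1 (ha1 c hc) hw1 ht0 ht
      (by rw [sub_self, L.zero]; exact ht0)
    have h2 : L.nm (pe (fun r => (a r).eval c) w₀ ψ.G) < 1 := by
      have h3 := L.sub (pe (fun r => (a r).eval 0) w₀ ψ.G)
        (pe (fun r => (a r).eval 0) w₀ ψ.G - pe (fun r => (a r).eval c) w₀ ψ.G)
      rw [sub_sub_cancel] at h3
      exact h3.trans_lt (max_lt hG (h1.trans_lt ht1))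
    obtain ⟨w, -, -, h4, h5⟩ := h.root (M := ⊤) (w₀ := w₀)
      (fun r => ⟨IntermediateField.mem_top, ha1 c hc r⟩) (hDc c hc)
      IntermediateField.mem_top hw1 h2
    exact ⟨w, h5.trans_lt h2, h4⟩
  have huniq : ∀ c, L.nm c < 1 → ∀ w w', L.nm (w - w₀) < 1 → L.nm (w' - w₀) < 1 →
      pe (fun r => (a r).eval c) w ψ.G = 0 → pe (fun r => (a r).eval c) w' ψ.G = 0 → w = w' := by
    intro c hc w w' h1 h2 h3 h4
    refine h.root_uniq (ha1 c hc) (hDc c hc) (hle h1) (hle h2) h3 h4 ?_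
    have h5 : w - w' = (w - w₀) - (w' - w₀) := by ring
    rw [h5]
    exact (L.sub _ _).trans_lt (max_lt h1 h2)
  -- the points
  have hpt : ∀ c, L.nm c < 1 → ∃ (Q : (Xf f).pt Ω) (w : Ω), L.nm (w - w₀) < 1 ∧
      pe (fun r => (a r).eval c) w ψ.G = 0 ∧
      Co Q ((ψ.om Ω).pt (fun r => (a r).eval c) w) := by
    intro c hc
    obtain ⟨w, h1, h2⟩ := hroot c hc
    obtain ⟨-, -, h3, h4, -, -⟩ := h.pt_iv (M := ⊤)
      (fun r => ⟨IntermediateField.mem_top, ha1 c hc r⟩) IntermediateField.mem_top (hle h1) h2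
      (hDc c hc)
    obtain ⟨Q, hQ⟩ := co_mk h3 h4
    exact ⟨Q, w, h1, h2, hQ⟩
  obtain ⟨Q₀, -⟩ := hpt 0 h00
  have hpt' : ∀ c, ∃ Q : (Xf f).pt Ω, L.nm c < 1 → ∃ w : Ω, L.nm (w - w₀) < 1 ∧
      pe (fun r => (a r).eval c) w ψ.G = 0 ∧
      Co Q ((ψ.om Ω).pt (fun r => (a r).eval c) w) := by
    intro c
    by_cases hc : L.nm c < 1
    · obtain ⟨Q, hQ⟩ := hpt c hc
      exact ⟨Q, fun _ => hQ⟩
    · exact ⟨Q₀, fun h1 => absurd h1 hc⟩
  choose P hP using hpt'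
  have hDne : ∀ c, L.nm c < 1 → MvPolynomial.aeval (fun r => (a r).eval c) ψ.D ≠ 0 :=
    fun c hc => L.ne_zero (by rw [hDc c hc]; exact zero_lt_one)
  have hthird : ∀ c, L.nm c < 1 → ∀ (Q : (Xf f).pt Ω) (x : Fin N → Ω), Co Q x →
      (∀ r, ψ.uv x r = (a r).eval c) → L.nm (ψ.yv x - w₀) < 1 → Q = P c := by
    intro c hc Q x hQ hux hyx
    obtain ⟨w, h1, h2, h3⟩ := hP c hc
    have hu : ψ.uv x = fun r => (a r).eval c := funext hux
    have h4 := h.pt_eq (co_ne hQ) (co_zero hQ) (by rw [hu]; exact hDne c hc)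
    rw [hu] at h4
    have h5 : ψ.yv x = w := huniq c hc _ _ hyx h1 h4.1 h2
    have h6 := h4.2
    rw [h5] at h6
    rw [h6] at h3
    exact co_eq hQ h3
  refine ⟨P, fun c hc => ?_, fun γ hγ c hc => ?_, fun c hc Q x hQ _ hux hyx =>
    hthird c hc Q x hQ hux hyx, fun c hc => ?_⟩
  · obtain ⟨w, h1, h2, h3⟩ := hP c hc
    refine ⟨w, h1, by rw [ga_ev]; exact h2, ?_⟩
    have h4 := co_smul (fun i => h.hom i) h3 (hDne c hc)
    have h5 : (fun i => MvPolynomial.aeval (fun r => (a r).eval c) ψ.D *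
        (ψ.om Ω).pt (fun r => (a r).eval c) w i) = fun j => GM.ev₂ (c, w) (ga a (ψ.A j)) := by
      funext j
      rw [om_pt, ga_ev, mul_div_cancel₀ _ (hDne c hc)]
    rwa [h5] at h4
  · obtain ⟨w, h1, h2, h3⟩ := hP c hc
    have hc' : L.nm (γ c) < 1 := by rw [L.act]; exact hc
    have hae : ∀ r, γ ((a r).eval c) = (a r).eval (γ c) := by
      intro r
      rw [Polynomial.eval_eq_sum_range, Polynomial.eval_eq_sum_range, map_sum]
      refine Finset.sum_congr rfl fun i _ => ?_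
      rw [map_mul, map_pow, (IntermediateField.mem_fixingSubgroup_iff M γ).1 hγ _ (ha r i).1]
    have hγw : γ w₀ = w₀ := (IntermediateField.mem_fixingSubgroup_iff M γ).1 hγ _ hw
    have h4 := co_act γ h3
    have h5 : (fun i => γ ((ψ.om Ω).pt (fun r => (a r).eval c) w i)) =
        (ψ.om Ω).pt (fun r => (a r).eval (γ c)) (γ w) := by
      funext j
      rw [pt_act]
      simp only [hae]
    rw [h5] at h4
    have h6 : pe (fun r => (a r).eval (γ c)) (γ w) ψ.G = 0 := by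
      have h7 := congrArg γ h2
      rw [pe_act, map_zero] at h7
      simpa only [hae] using h7
    have h8 : L.nm (γ w - w₀) < 1 := by
      rw [← hγw, ← map_sub, L.act]
      exact h1
    obtain ⟨-, -, -, -, h9, h10⟩ := h.pt_iv (M := ⊤)
      (fun r => ⟨IntermediateField.mem_top, ha1 _ hc' r⟩) IntermediateField.mem_top (hle h8) h6
      (hDc _ hc')
    refine hthird _ hc' _ _ h4 (fun r => congrFun h9 r) ?_
    rw [h10]
    exact h8
  · obtain ⟨w, h1, h2, h3⟩ := hP c hc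
    obtain ⟨h4, h5, -, -, h6, h7⟩ := h.pt_iv (M := ⊤)
      (fun r => ⟨IntermediateField.mem_top, ha1 c hc r⟩) IntermediateField.mem_top (hle h1) h2
      (hDc c hc)
    refine ⟨_, h3, fun j => (h4 j).2, h5, fun r => congrFun h6 r, ?_⟩
    rw [h7]
    exact h1

end GX
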