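import Pool.Agent.Lib.MP_f80667_ag.Gx.XE
import Pool.Agent.Lib.MP_f80667_ag.Gx.ChE

/-! Divisibility of displacements (D1). -/

open ZC BE PE CV IntermediateField Polynomial

namespace GX

variable {F : Type} [Field F] {N d m : ℕ} {ι : Type} {f : ι → MvPolynomial (Fin N) F} {K Ω : Type}
  [Field K] [CharZero K] [Field Ω] [Algebra K Ω] [Algebra F K] [Algebra F Ω]
  [IsScalarTower F K Ω] [IsAlgClosure K Ω] {L : Ld K Ω}

/-- The cycles which are `l` times a displacement modulo rational equivalence. -/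
noncomputable def lD (f : ι → MvPolynomial (Fin N) F) (L : Ld K Ω) (l s : ℕ) :
    AddSubgroup ((Xf f).pt Ω →₀ ℤ) :=
  (Dl f L s ⊥).map (nsmulAddMonoidHom l) ⊔ (Xf f).ratEq K Ω

theorem mem_lD {l s : ℕ} {z : (Xf f).pt Ω →₀ ℤ} :
    z ∈ lD f L l s ↔ ∃ z' ∈ Dl f L s ⊥, z - l • z' ∈ (Xf f).ratEq K Ω := by
  unfold lD
  rw [AddSubgroup.mem_sup]
  constructor
  · rintro ⟨_, ⟨y, hy, rfl⟩, r, hr, rfl⟩
    refine ⟨y, hy, ?_⟩
    change l • y + r - l • y ∈ _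
    rwa [add_sub_cancel_left]
  · rintro ⟨z', hz', h⟩
    exact ⟨l • z', ⟨z', hz', rfl⟩, _, h, add_sub_cancel _ _⟩

/-- **D1.** -/
theorem x_d1 [L.Unr] (hf : Hm f) {ψ : Fin m → Prj K N d} (hψ : ∀ i, Pj f L (ψ i))
    (hc : Cvr f L ψ) {l u s : ℕ} (hl : l.Prime) (hu : L.nm (l : Ω) = L.nm (L.p : Ω) ^ u)
    (hus : u < (l - 1) * s) :
    ∀ z ∈ Dl f L (s + u) ⊥, ∃ z' ∈ Dl f L s ⊥, z - l • z' ∈ (Xf f).ratEq K Ω := by
  classical
  have hs0 : s ≠ 0 := by
    rintro rfl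
    rw [Nat.mul_zero] at hus
    exact absurd hus (Nat.not_lt_zero u)
  have hr : L.nm (L.p : Ω) ^ (s + u) < 1 := pow_lt_one₀ (L.nonneg _) L.lt (by omega)
  intro z hz
  rw [← mem_lD]
  unfold Dl at hz
  rw [dsp_gen] at hz
  induction hz using AddSubgroup.closure_induction with
  | zero => exact zero_mem _
  | add a b _ _ ha hb => exact add_mem ha hb
  | neg a _ ha => exact neg_mem ha
  | mem z hz =>
    obtain ⟨M', y, y', he, h4, h5, h6, rfl⟩ := hz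
    have hfd : FiniteDimensional K M' := he.fd
    have hM' : Um L M' := by
      obtain ⟨-, N', hN', h⟩ := he
      exact ⟨N', hN', h⟩
    obtain ⟨x, x', i, hx, hx', hi, hi', h1, h1', h2⟩ := nrh_nco hf hr h6
    have hxM : Iv L M' x := fun j => ⟨fp_mem h4 hx hi j, h1 j⟩
    have hxM' : Iv L M' x' := fun j => ⟨fp_mem h5 hx' hi' j, h1' j⟩
    obtain ⟨k, hk⟩ := hc x h1 ⟨i, by rw [hi, L.one]⟩ fun j => by
      rw [co_zero hx j, L.zero]
      exact zero_lt_one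
    obtain ⟨z₁, hz₁, h7⟩ := d1_two (hψ k) hM' hxM hxM' hk hx hx' hl hu hus
      fun j => by rw [L.sub_comm]; exact h2 j
    obtain ⟨z₂, hz₂, h9⟩ := GM.nm_div (V := Xf f) hM' (l := l)
      (z := (Finsupp.single y 1 - Finsupp.single y' 1 : (Xf f).pt Ω →₀ ℤ))
      ⟨-z₁, neg_mem hz₁, by
        have h10 := neg_mem h7
        have h11 : -((Finsupp.single y' 1 - Finsupp.single y 1 : (Xf f).pt Ω →₀ ℤ) - l • z₁) =
            (Finsupp.single y 1 - Finsupp.single y' 1 : (Xf f).pt Ω →₀ ℤ) - l • (-z₁) := by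
          rw [smul_neg]
          abel
        rwa [h11] at h10⟩ ((fx_single h4 1).sub (fx_single h5 1))
    exact mem_lD.2 ⟨z₂, hz₂, h9⟩

end GX
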