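import Pool.Agent.Lib.MP_f80667_ag.Gx.XG

/-!
The equivariant lift of the residue classes. `Nea f L`: congruent points.
-/

open ZC BE PE CV IntermediateField Polynomial

namespace GX

section sec

/-- **Equivariant sections.** Proof: `r c` a representative of the orbit of `c` (`Quotient.out` for `MulAction.orbitRel`), `g c • r c = c`, `x (r c)` from `h`; `s c = g c • x (r c)`. For
`γ`: `r (γ • c) = r c` and `(g (γ • c))⁻¹ * γ * g c` fixes `r c`, so it fixes `x (r c)`. -/
theorem xh_sec {Γ C X : Type} [Group Γ] [MulAction Γ C] [MulAction Γ X] (R : C → X → Prop)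
    (hR : ∀ (γ : Γ) c x, R c x → R (γ • c) (γ • x))
    (h : ∀ c, ∃ x, R c x ∧ ∀ γ : Γ, γ • c = c → γ • x = x) :
    ∃ s : C → X, (∀ (γ : Γ) c, s (γ • c) = γ • s c) ∧ ∀ c, R c (s c) := by
  classical
  choose x0 hx0 hst using h
  have hex : ∀ c : C, ∃ g : Γ,
      g • Quotient.out (Quotient.mk (MulAction.orbitRel Γ C) c) = c := by
    intro c
    have h1 : (MulAction.orbitRel Γ C) (Quotient.out (Quotient.mk (MulAction.orbitRel Γ C) c)) c :=
      Quotient.exact (Quotient.out_eq _)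
    rw [MulAction.orbitRel_apply] at h1
    obtain ⟨g, hg⟩ := h1
    exact ⟨g⁻¹, by rw [← hg]; exact inv_smul_smul g c⟩
  choose g hg using hex
  have hr : ∀ (γ : Γ) (c : C), Quotient.out (Quotient.mk (MulAction.orbitRel Γ C) (γ • c)) =
      Quotient.out (Quotient.mk (MulAction.orbitRel Γ C) c) := by
    intro γ c
    congr 1
    exact Quotient.sound (MulAction.orbitRel_apply.2 ⟨γ, rfl⟩)
  refine ⟨fun c => g c • x0 (Quotient.out (Quotient.mk (MulAction.orbitRel Γ C) c)), ?_, ?_⟩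
  · intro γ c
    have h1 := hg (γ • c)
    have h2 := hg c
    rw [hr γ c] at h1
    change g (γ • c) • x0 (Quotient.out (Quotient.mk (MulAction.orbitRel Γ C) (γ • c))) =
      γ • (g c • x0 (Quotient.out (Quotient.mk (MulAction.orbitRel Γ C) c)))
    rw [hr γ c]
    generalize Quotient.out (Quotient.mk (MulAction.orbitRel Γ C) c) = e at h1 h2
    have h3 : ((g (γ • c))⁻¹ * (γ * g c)) • e = e := by
      rw [mul_smul, mul_smul, h2, inv_smul_eq_iff, h1]
    have h4 := hst e _ h3
    rw [mul_smul, inv_smul_eq_iff, mul_smul] at h4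
    exact h4.symm
  · intro c
    have h1 := hR (g c) _ _ (hx0 (Quotient.out (Quotient.mk (MulAction.orbitRel Γ C) c)))
    rw [hg c] at h1
    exact h1

end sec

variable {F : Type} [Field F] {N d m : ℕ} {ι : Type} {f : ι → MvPolynomial (Fin N) F} {K Ω : Type}
  [Field K] [CharZero K] [Field Ω] [Algebra K Ω] [Algebra F K] [Algebra F Ω]
  [IsScalarTower F K Ω] [IsAlgClosure K Ω] {L : Ld K Ω}

/-- Congruent points. -/
def Nea (f : ι → MvPolynomial (Fin N) F) (L : Ld K Ω) (x y : (Xf f).pt Ω) : Prop :=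
  ∃ r < 1, Nrh f L r x y

theorem Nea.symm {x y : (Xf f).pt Ω} (h : Nea f L x y) : Nea f L y x := by
  obtain ⟨r, hr, h⟩ := h
  exact ⟨r, hr, nrh_symm h⟩

theorem Nea.refl (hf : Hm f) (x : (Xf f).pt Ω) : Nea f L x x :=
  ⟨0, zero_lt_one, nrh_refl hf le_rfl x⟩

theorem Nea.trans (hf : Hm f) {x y z : (Xf f).pt Ω} (h : Nea f L x y) (h' : Nea f L y z) :
    Nea f L x z := by
  obtain ⟨r, hr, h⟩ := h
  obtain ⟨r', hr', h'⟩ := h'
  exact ⟨max r r', max_lt hr hr', nrh_trans hf (nrh_mono (le_max_left _ _) h)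
    (nrh_mono (le_max_right _ _) h')⟩

theorem Nea.act (γ : Ω ≃ₐ[K] Ω) {x y : (Xf f).pt Ω} (h : Nea f L x y) :
    Nea f L ((Xf f).act γ x) ((Xf f).act γ y) := by
  obtain ⟨r, hr, h⟩ := h
  exact ⟨r, hr, nrh_act γ h⟩

/-- **The lift of a class.** Proof: normalized coordinates `x` of `P`, `x i = 1`; Teichmueller representatives `z j` of `x j`; `M` the field generated by the `z j`; `exists_near`: a point `S` over `M`
congruent to `P`. If `γ P` is congruent to `P` then `γ` fixes the `z j`. -/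
theorem exists_cls (hf : Hm f) {ψ : Fin m → Prj K N d} (hψ : ∀ i, Pj f L (ψ i))
    (hc : Cvr f L ψ) (P : (Xf f).pt Ω) : ∃ S : (Xf f).pt Ω, Nea f L P S ∧
      ∀ γ : Ω ≃ₐ[K] Ω, Nea f L ((Xf f).act γ P) P → (Xf f).act γ S = S := by
  classical
  obtain ⟨x, i, hx, hi, hx1⟩ := exists_nco (L := L) hf P
  choose Nf hNf z hz hxz using fun j => Ld.te_rep (L := L) (hx1 j)
  have hN0 : ∏ j, Nf j ≠ 0 := Finset.prod_ne_zero_iff.2 fun j _ => hNf j
  have hz' : ∀ j, z j ∈ L.Te (∏ j, Nf j) := fun j =>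
    Ld.te_dvd (Finset.dvd_prod_of_mem Nf (Finset.mem_univ j)) (hz j)
  generalize ∏ j, Nf j = N' at hN0 hz'
  have hz1 : ∀ j, L.nm (z j) ≤ 1 := fun j => Ld.te_int hN0 (hz' j)
  have hmem : ∀ j, z j ∈ IntermediateField.adjoin K (Set.range z) := fun j =>
    IntermediateField.subset_adjoin K _ ⟨j, rfl⟩
  obtain ⟨x', hx', hne, hx0', hxx'⟩ := exists_near hψ hc hx1 ⟨i, by rw [hi, L.one]⟩
    (co_zero hx) (M := IntermediateField.adjoin K (Set.range z)) (z := z)
    (fun j => ⟨hmem j, hz1 j⟩) hxz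
  obtain ⟨S, hS⟩ := co_mk hne hx0'
  obtain ⟨k, -, hk⟩ := Finset.exists_max_image Finset.univ (fun j => L.nm (x j - x' j))
    ⟨i, Finset.mem_univ i⟩
  refine ⟨S, ⟨L.nm (x k - x' k), hxx' k, nrh_mk (hxx' k) hx hS hx1 (fun j => (hx' j).2)
    ⟨i, by rw [hi, L.one]⟩ fun j => hk j (Finset.mem_univ j)⟩, ?_⟩
  rintro γ ⟨r, hr, hγ⟩
  have h1 : ∀ j, L.nm (γ (x j) - x j) ≤ r := nrh_one hf hr hγ (co_act γ hx) hx
    (by rw [hi, map_one]) hi (fun j => by rw [L.act]; exact hx1 j) hx1
  have hγz : ∀ j, γ (z j) = z j := by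
    intro j
    refine Ld.te_inj hN0 (Ld.te_act γ (hz' j)) (hz' j) ?_
    have e : γ (z j) - z j = γ (z j - x j) + ((γ (x j) - x j) + (x j - z j)) := by
      rw [map_sub]
      ring
    rw [e]
    refine (L.add _ _).trans_lt (max_lt ?_ ((L.add _ _).trans_lt (max_lt ((h1 j).trans_lt hr)
      (hxz j))))
    rw [L.act, L.sub_comm]
    exact hxz j
  have hfix : ∀ y ∈ IntermediateField.adjoin K (Set.range z), γ y = y := by
    intro y hy
    induction hy using IntermediateField.adjoin_induction with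
    | mem w hw =>
      obtain ⟨j, rfl⟩ := hw
      exact hγz j
    | algebraMap a => exact γ.commutes a
    | add a b _ _ ha hb => rw [map_add, ha, hb]
    | inv a _ ha => rw [map_inv₀, ha]
    | mul a b _ _ ha hb => rw [map_mul, ha, hb]
  have h2 := co_act γ hS
  have h3 : (fun j => γ (x' j)) = x' := funext fun j => hfix _ (hx' j).1
  rw [h3] at h2
  exact co_eq h2 hS

/-- **The equivariant lift of the classes.** Proof: the quotient `C` of the points by `Nea` with the action of the group; `exists_sec` with `R c x = (⟦x⟧ = c)`, `exists_cls`. -/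
theorem exists_eqs (hf : Hm f) {ψ : Fin m → Prj K N d} (hψ : ∀ i, Pj f L (ψ i))
    (hc : Cvr f L ψ) :
    ∃ s : (Xf f).pt Ω → (Xf f).pt Ω, (∀ (γ : Ω ≃ₐ[K] Ω) P, s ((Xf f).act γ P) = (Xf f).act γ (s P)) ∧
      (∀ P, Nea f L P (s P)) ∧ ∀ P P', Nea f L P P' → s P = s P' := by
  let sd : Setoid ((Xf f).pt Ω) := ⟨Nea f L, ⟨Nea.refl hf, Nea.symm, Nea.trans hf⟩⟩
  let iX : MulAction (Ω ≃ₐ[K] Ω) ((Xf f).pt Ω) :=
    { smul := fun γ P => (Xf f).act γ P
      one_smul := fun P => act_one (fct f) P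
      mul_smul := fun γ δ P => act_mul (fct f) γ δ P }
  let iC : MulAction (Ω ≃ₐ[K] Ω) (Quotient sd) :=
    { smul := fun γ => Quotient.map ((Xf f).act γ) fun _ _ h => Nea.act γ h
      one_smul := fun c => by
        induction c using Quotient.inductionOn with
        | h P => exact congrArg (Quotient.mk sd) (act_one (fct f) P)
      mul_smul := fun γ δ c => by
        induction c using Quotient.inductionOn with
        | h P => exact congrArg (Quotient.mk sd) (act_mul (fct f) γ δ P) }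
  obtain ⟨s, hs1, hs2⟩ := xh_sec (Γ := Ω ≃ₐ[K] Ω) (C := Quotient sd) (X := (Xf f).pt Ω)
    (fun c x => Quotient.mk sd x = c)
    (fun γ c x h => by
      rw [← h]
      rfl)
    (fun c => by
      induction c using Quotient.inductionOn with
      | h P =>
        obtain ⟨S, h1, h2⟩ := exists_cls hf hψ hc P
        exact ⟨S, Quotient.sound h1.symm, fun γ hγ => h2 γ (Quotient.exact hγ)⟩)
  refine ⟨fun P => s (Quotient.mk sd P), fun γ P => hs1 γ (Quotient.mk sd P), fun P => ?_,
    fun P P' h => ?_⟩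
  · exact Nea.symm (Quotient.exact (hs2 (Quotient.mk sd P)))
  · have h3 : Quotient.mk sd P = Quotient.mk sd P' := Quotient.sound h
    change s (Quotient.mk sd P) = s (Quotient.mk sd P')
    rw [h3]

/-- Proof: group the sum by the values of `s`: for `y` the sum over the `x` with `s x = s y` is the sum over the `x` congruent to `y`. -/
theorem zr_map (hf : Hm f) {s : (Xf f).pt Ω → (Xf f).pt Ω} (hs : ∀ P, Nea f L P (s P))
    (hs' : ∀ P P', Nea f L P P' → s P = s P') {z : (Xf f).pt Ω →₀ ℤ} :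
    Zr f L z ↔ Finsupp.mapDomain s z = 0 := by
  classical
  have hm : ∀ y, Finsupp.mapDomain s z y = ∑ x ∈ z.support.filter (fun x => s x = y), z x := by
    intro y
    rw [Finsupp.mapDomain, Finsupp.sum, Finsupp.finsetSum_apply, Finset.sum_filter]
    exact Finset.sum_congr rfl fun x _ => Finsupp.single_apply
  have hk : ∀ x y, Nea f L x y ↔ s x = s y := by
    intro x y
    refine ⟨hs' x y, fun h => ?_⟩
    have h1 := hs x
    rw [h] at h1
    exact h1.trans hf (hs y).symm
  constructor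
  · intro h
    ext y
    rw [hm, Finsupp.zero_apply]
    by_cases hy : ∃ x0, s x0 = y
    · obtain ⟨x0, rfl⟩ := hy
      have h1 := h x0
      rw [← h1]
      refine Finset.sum_congr (Finset.filter_congr fun x _ => ?_) fun _ _ => rfl
      exact (hk x x0).symm
    · refine Finset.sum_eq_zero fun x hx => ?_
      exact absurd ⟨x, (Finset.mem_filter.1 hx).2⟩ hy
  · intro h y
    have h1 := hm (s y)
    rw [h, Finsupp.zero_apply] at h1
    rw [h1]
    refine Finset.sum_congr (Finset.filter_congr fun x _ => ?_) fun _ _ => rfl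
    exact hk x y

/-- If `k` is the residue degree of the field of `P` then `s P` is a point over `Ur ⊥ k`. Proof: normalized coordinates of `P` are congruent to elements of `Te k` (`Rf.res`), so `γ P` is congruent to `P` for `γ` over `Ur ⊥ k`. -/
theorem eqs_fp (hf : Hm f) {s : (Xf f).pt Ω → (Xf f).pt Ω}
    (h1 : ∀ (γ : Ω ≃ₐ[K] Ω) P, s ((Xf f).act γ P) = (Xf f).act γ (s P))
    (h2 : ∀ P P', Nea f L P P' → s P = s P') {M : IntermediateField K Ω} {k : ℕ}
    (hk : L.Rf M k) {P : (Xf f).pt Ω} (hP : Fp (Xf f) M P) : Fp (Xf f) (L.Ur ⊥ k) (s P) := by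
  obtain ⟨x, i, hx, hi, hx1⟩ := exists_nco (L := L) hf P
  have h3 : ∀ j, ∃ z ∈ L.Te k, L.nm (x j - z) < 1 := fun j =>
    hk.res (x j) (fp_mem hP hx hi j) (hx1 j)
  choose z hz hxz using h3
  obtain ⟨j0, -, hj0⟩ := Finset.exists_max_image Finset.univ (fun j => L.nm (x j - z j))
    ⟨i, Finset.mem_univ i⟩
  intro γ hγ
  have h4 : Nea f L ((Xf f).act γ P) P := by
    refine ⟨L.nm (x j0 - z j0), hxz j0, nrh_mk (hxz j0) (co_act γ hx) hx (fun j => ?_) hx1
      ⟨i, ?_⟩ fun j => ?_⟩
    · rw [L.act]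
      exact hx1 j
    · rw [L.act, hi, L.one]
    · have h5 : γ (z j) = z j :=
        (IntermediateField.mem_fixingSubgroup_iff _ γ).1 hγ _ (Ld.te_ur (hz j))
      have h6 : γ (x j) - x j = γ (x j - z j) + (z j - x j) := by
        rw [map_sub, h5]
        ring
      rw [h6]
      refine (L.add _ _).trans (max_le ?_ ?_)
      · rw [L.act]
        exact hj0 j (Finset.mem_univ j)
      · rw [L.sub_comm]
        exact hj0 j (Finset.mem_univ j)
  rw [← h1]
  exact h2 _ _ h4

end GX
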